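import Pool.Agent.MUR.St
import Pool.Agent.Lib_helper72.AP.SumLower

set_option autoImplicit false

/-!
# GS: the sum of `1 / φ d` over squarefree `d ≤ z` prime to `k`
-/

namespace MUR

open Finset

noncomputable section

namespace GS

/-- The weight `∏_{p ∈ T} 1 / (p - 1)`. -/
def wt (T : Finset ℕ) : ℝ := ∏ p ∈ T, 1 / ((p : ℝ) - 1)

lemma wt_nonneg (T : Finset ℕ) (hT : ∀ p ∈ T, p.Prime) : 0 ≤ wt T := by
  refine Finset.prod_nonneg fun p hp => ?_
  have h1 : (1 : ℝ) < p := by exact_mod_cast (hT p hp).one_lt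
  have h2 : (0 : ℝ) < (p : ℝ) - 1 := by linarith
  positivity

lemma wt_primeFactors {d : ℕ} (hd : Squarefree d) : wt d.primeFactors = 1 / (d.totient : ℝ) := by
  have h0 : d ≠ 0 := hd.ne_zero
  have h1 : (d.totient : ℝ) = ∏ p ∈ d.primeFactors, ((p : ℝ) - 1) := by
    have h2 := Nat.totient_eq_prod_factorization h0
    have h3 : d.totient = ∏ p ∈ d.primeFactors, (p - 1) := by
      rw [h2, Finsupp.prod, Nat.support_factorization]
      refine Finset.prod_congr rfl fun p hp => ?_
      have h4 : d.factorization p = 1 := by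
        have h5 := (Nat.squarefree_iff_factorization_le_one h0).1 hd p
        have h6 := (Nat.prime_of_mem_primeFactors hp).factorization_pos_of_dvd h0
          (Nat.dvd_of_mem_primeFactors hp)
        omega
      rw [h4]
      simp
    rw [h3]
    push_cast
    refine Finset.prod_congr rfl fun p hp => ?_
    rw [Nat.cast_sub (Nat.prime_of_mem_primeFactors hp).one_lt.le]
    simp
  rw [h1, wt, Finset.prod_div_distrib]
  simp

lemma log_le_sum_inv (z : ℕ) : Real.log z ≤ ∑ u ∈ Icc 1 z, (1 : ℝ) / u := by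
  have h3 := log_add_one_le_harmonic z
  have h4 : ((harmonic z : ℚ) : ℝ) = ∑ m ∈ Icc 1 z, (1 : ℝ) / m := by
    rw [harmonic_eq_sum_Icc]
    push_cast
    refine Finset.sum_congr rfl fun i _ => ?_
    rw [one_div]
  rw [h4, Nat.cast_add, Nat.cast_one] at h3
  rcases Nat.eq_zero_or_pos z with rfl | hz
  · simp
  · have hz' : (0 : ℝ) < z := by exact_mod_cast hz
    exact (Real.log_le_log hz' (by linarith)).trans h3

lemma sum_wt_ge (z : ℕ) :
    Real.log z ≤ ∑ d ∈ (Icc 1 z).filter Squarefree, wt d.primeFactors := by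
  refine (log_le_sum_inv z).trans ?_
  have h1 := Pool.Agent.Lib_helper72.AP.sum_fiber_radical z
    (fun p a => ((p : ℝ)⁻¹) ^ a) (fun p => 1 / ((p : ℝ) - 1))
    (fun p a => by positivity) (fun p hp _ => by
      have hp1 : (1 : ℝ) < p := by exact_mod_cast hp.one_lt
      refine (Pool.Agent.Lib_helper72.AP.sum_geom_le (by positivity)
        (inv_lt_one_of_one_lt₀ hp1) z).trans (le_of_eq ?_)
      have h2 : (p : ℝ) ≠ 0 := by positivity
      have h3 : (p : ℝ) - 1 ≠ 0 := by linarith
      field_simp)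
  refine le_trans (le_of_eq ?_) h1
  refine Finset.sum_congr rfl fun m hm => ?_
  rw [mem_Icc] at hm
  have h2 : m ≠ 0 := by omega
  have h3 : (m : ℝ) = ∏ p ∈ m.primeFactors, (p : ℝ) ^ (m.factorization p) := by
    have h4 := Nat.prod_factorization_pow_eq_self h2
    rw [Finsupp.prod, Nat.support_factorization] at h4
    conv_lhs => rw [← h4]
    push_cast
    rfl
  conv_lhs => rw [h3]
  rw [one_div, ← Finset.prod_inv_distrib]
  refine Finset.prod_congr rfl fun p _ => ?_
  rw [inv_pow]

lemma sum_powerset_wt (k : ℕ) (hk : 1 ≤ k) :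
    ∑ T ∈ k.primeFactors.powerset, wt T = (k : ℝ) / k.totient := by
  have h1 : ∑ T ∈ k.primeFactors.powerset, wt T =
      ∏ p ∈ k.primeFactors, (1 + 1 / ((p : ℝ) - 1)) := by
    rw [Finset.prod_one_add]
    rfl
  have h2 : (k.totient : ℝ) = k * ∏ p ∈ k.primeFactors, (1 - ((p : ℝ))⁻¹) := by
    have h3 := Nat.totient_eq_mul_prod_factors k
    have h4 : ((k.totient : ℚ) : ℝ) = ((k * ∏ p ∈ k.primeFactors, (1 - ((p : ℚ))⁻¹) : ℚ) : ℝ) := by
      rw [h3]
    push_cast at h4
    exact h4
  have hk0 : (k : ℝ) ≠ 0 := by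
    have : (0 : ℝ) < k := by exact_mod_cast hk
    exact this.ne'
  have h5 : ∏ p ∈ k.primeFactors, (1 + 1 / ((p : ℝ) - 1)) =
      (∏ p ∈ k.primeFactors, (1 - ((p : ℝ))⁻¹))⁻¹ := by
    rw [← Finset.prod_inv_distrib]
    refine Finset.prod_congr rfl fun p hp => ?_
    have hp1 : (1 : ℝ) < p := by exact_mod_cast (Nat.prime_of_mem_primeFactors hp).one_lt
    have h6 : (p : ℝ) ≠ 0 := by positivity
    have h7 : (p : ℝ) - 1 ≠ 0 := by linarith
    field_simp
    ring
  rw [h1, h5, h2, ← div_div, div_self hk0, one_div]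

lemma split_le (z k : ℕ) (hk : 1 ≤ k) :
    ∑ d ∈ (Icc 1 z).filter Squarefree, wt d.primeFactors ≤
      (∑ T ∈ k.primeFactors.powerset, wt T) *
        ∑ d ∈ (Icc 1 z).filter (fun d => Squarefree d ∧ d.Coprime k), wt d.primeFactors := by
  classical
  rw [Finset.sum_mul_sum, ← Finset.sum_product']
  let i : ℕ → Finset ℕ × ℕ := fun d =>
    (d.primeFactors ∩ k.primeFactors, ∏ p ∈ d.primeFactors \ k.primeFactors, p)
  have hprime : ∀ d : ℕ, ∀ p ∈ d.primeFactors \ k.primeFactors, p.Prime := fun d p hp =>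
    Nat.prime_of_mem_primeFactors (Finset.mem_sdiff.1 hp).1
  have hpf : ∀ d : ℕ, (∏ p ∈ d.primeFactors \ k.primeFactors, p).primeFactors =
      d.primeFactors \ k.primeFactors := fun d => Nat.primeFactors_prod (hprime d)
  have hmem : ∀ d ∈ (Icc 1 z).filter Squarefree, i d ∈ k.primeFactors.powerset ×ˢ
      (Icc 1 z).filter (fun d => Squarefree d ∧ d.Coprime k) := by
    intro d hd
    rw [mem_filter, mem_Icc] at hd
    have h0 : d ≠ 0 := by omega
    have hdvd : (∏ p ∈ d.primeFactors \ k.primeFactors, p) ∣ d :=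
      (Finset.prod_dvd_prod_of_subset _ _ _ Finset.sdiff_subset).trans
        (Nat.prod_primeFactors_dvd d)
    rw [Finset.mem_product, Finset.mem_powerset, mem_filter, mem_Icc]
    refine ⟨Finset.inter_subset_right, ⟨Nat.pos_of_ne_zero (ne_zero_of_dvd_ne_zero h0 hdvd),
      (Nat.le_of_dvd (by omega) hdvd).trans hd.1.2⟩, hd.2.squarefree_of_dvd hdvd, ?_⟩
    change (∏ p ∈ d.primeFactors \ k.primeFactors, p).Coprime k
    refine Nat.Coprime.prod_left fun p hp => ?_
    rw [(hprime d p hp).coprime_iff_not_dvd]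
    intro hpk
    exact (Finset.mem_sdiff.1 hp).2 (Nat.mem_primeFactors.2 ⟨hprime d p hp, hpk, by omega⟩)
  have hinj : Set.InjOn i ((Icc 1 z).filter Squarefree : Finset ℕ) := by
    intro d hd e he hde
    rw [mem_coe, mem_filter, mem_Icc] at hd he
    have h1 : d.primeFactors ∩ k.primeFactors = e.primeFactors ∩ k.primeFactors :=
      congrArg Prod.fst hde
    have h2 : (∏ p ∈ d.primeFactors \ k.primeFactors, p) =
        ∏ p ∈ e.primeFactors \ k.primeFactors, p := congrArg Prod.snd hde
    have h3 : d.primeFactors \ k.primeFactors = e.primeFactors \ k.primeFactors := by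
      rw [← hpf d, ← hpf e, h2]
    have h4 : d.primeFactors = e.primeFactors := by
      rw [← Finset.sdiff_union_inter d.primeFactors k.primeFactors, h1, h3,
        Finset.sdiff_union_inter]
    rw [← Nat.prod_primeFactors_of_squarefree hd.2, ← Nat.prod_primeFactors_of_squarefree he.2, h4]
  have hval : ∀ d ∈ (Icc 1 z).filter Squarefree,
      wt d.primeFactors = wt (i d).1 * wt (i d).2.primeFactors := by
    intro d _
    change wt d.primeFactors = wt (d.primeFactors ∩ k.primeFactors) *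
      wt (∏ p ∈ d.primeFactors \ k.primeFactors, p).primeFactors
    rw [hpf d]
    exact (Finset.prod_inter_mul_prod_sdiff _ _ _).symm
  rw [Finset.sum_congr rfl hval]
  rw [← Finset.sum_image (f := fun x : Finset ℕ × ℕ => wt x.1 * wt x.2.primeFactors) hinj]
  refine Finset.sum_le_sum_of_subset_of_nonneg ?_ ?_
  · intro x hx
    rw [Finset.mem_image] at hx
    obtain ⟨d, hd, rfl⟩ := hx
    exact hmem d hd
  · intro x hx _
    rw [Finset.mem_product, Finset.mem_powerset] at hx
    exact mul_nonneg (wt_nonneg _ fun p hp => Nat.prime_of_mem_primeFactors (hx.1 hp))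
      (wt_nonneg _ fun p hp => Nat.prime_of_mem_primeFactors hp)

end GS

theorem t_GS : S_GS := by
  intro z k _ hk
  have h1 := (GS.sum_wt_ge z).trans (GS.split_le z k hk)
  rw [GS.sum_powerset_wt k hk] at h1
  have hk0 : (0 : ℝ) < k := by exact_mod_cast hk
  have hphi : (0 : ℝ) < k.totient := by exact_mod_cast Nat.totient_pos.2 hk
  have h2 : ∑ d ∈ (Icc 1 z).filter (fun d => Squarefree d ∧ d.Coprime k), 1 / (d.totient : ℝ) =
      ∑ d ∈ (Icc 1 z).filter (fun d => Squarefree d ∧ d.Coprime k), GS.wt d.primeFactors := by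
    refine Finset.sum_congr rfl fun d hd => ?_
    rw [mem_filter] at hd
    rw [GS.wt_primeFactors hd.2.1]
  rw [h2]
  calc ((k.totient : ℝ) / k) * Real.log z
      ≤ ((k.totient : ℝ) / k) * ((k : ℝ) / k.totient *
        ∑ d ∈ (Icc 1 z).filter (fun d => Squarefree d ∧ d.Coprime k), GS.wt d.primeFactors) :=
        mul_le_mul_of_nonneg_left h1 (by positivity)
    _ = _ := by
        field_simp

end

end MUR
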