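import Pool.Agent.MUR.St
import Pool.Agent.Lib_helper77.EF.LS

set_option autoImplicit false

/-!
# MUR, module LSS: sifted sums of a combination of exponentials with smooth denominators (helper30)
-/

namespace MUR

open Finset
open Pool.Agent.Lib_helper83.EF (e)

noncomputable section

namespace LSS

/-- exponential sums -/
def T (a : ℕ → ℂ) (S : Finset ℕ) (θ : ℝ) : ℂ := ∑ w ∈ S, a w * e ((w : ℝ) * θ)

theorem e_int (n : ℤ) : e (n : ℝ) = 1 := by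
  unfold Pool.Agent.Lib_helper83.EF.e
  have := Complex.exp_int_mul_two_pi_mul_I n
  rw [← this]
  congr 1
  push_cast
  ring

theorem T_add_nat (a : ℕ → ℂ) (S : Finset ℕ) (θ : ℝ) (m : ℕ) :
    T a S (θ + m) = T a S θ := by
  unfold T
  apply sum_congr rfl
  intro w _
  have h1 : e ((w : ℝ) * (m : ℝ)) = 1 := by
    have h2 := e_int ((w * m : ℕ) : ℤ)
    rw [← h2]
    congr 1
    push_cast
    ring
  rw [mul_add, Pool.Agent.Lib_helper77.EF.e_add, h1, mul_one]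

/-- the large sieve for sums over a subset of an interval -/
theorem ls_T {G L w₀ : ℕ} (hGL : G ^ 2 ≤ L) {S : Finset ℕ} (hS : S ⊆ Ioc w₀ (w₀ + L))
    (a : ℕ → ℂ) :
    ∑ n ∈ Icc 1 G, ∑ h ∈ cop n, ‖T a S ((h : ℝ) / n)‖ ^ 2 ≤ 6 * (L : ℝ) * ∑ w ∈ S, ‖a w‖ ^ 2 := by
  classical
  have key : ∀ {M : Type} [AddCommMonoid M] (F : ℕ → M), ∑ w ∈ S, F w =
      ∑ n ∈ range L, if w₀ + 1 + n ∈ S then F (w₀ + 1 + n) else 0 := by
    intro M _ F
    rw [← sum_filter]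
    symm
    apply Finset.sum_nbij' (fun n => w₀ + 1 + n) (fun w => w - (w₀ + 1))
    · intro n hn
      exact (mem_filter.1 hn).2
    · intro w hw
      have h1 := mem_Ioc.1 (hS hw)
      rw [mem_filter, mem_range]
      have h2 : w₀ + 1 + (w - (w₀ + 1)) = w := by omega
      rw [h2]
      exact ⟨by omega, hw⟩
    · intro n _
      omega
    · intro w hw
      have h1 := mem_Ioc.1 (hS hw)
      omega
    · intro n _
      rfl
  set b : ℕ → ℂ := fun n => if w₀ + 1 + n ∈ S then a (w₀ + 1 + n) else 0 with hb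
  have h1 := Pool.Agent.Lib_helper77.EF.ls G L hGL b
  have h2 : ∑ n ∈ range L, ‖b n‖ ^ 2 = ∑ w ∈ S, ‖a w‖ ^ 2 := by
    rw [key]
    apply sum_congr rfl
    intro n _
    rw [hb]
    dsimp only
    split_ifs
    · rfl
    · simp
  rw [h2] at h1
  refine le_trans (le_of_eq ?_) h1
  apply sum_congr rfl
  intro n _
  apply sum_congr rfl
  intro h _
  congr 1
  unfold T
  rw [key]
  have h3 : ∑ m ∈ range L, (if w₀ + 1 + m ∈ S then
      a (w₀ + 1 + m) * e (((w₀ + 1 + m : ℕ) : ℝ) * ((h : ℝ) / n)) else 0) =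
      e (((w₀ + 1 : ℕ) : ℝ) * ((h : ℝ) / n)) *
        ∑ m ∈ range L, b m * e ((m : ℝ) * (h : ℝ) / (n : ℝ)) := by
    rw [mul_sum]
    apply sum_congr rfl
    intro m _
    rw [hb]
    dsimp only
    split_ifs
    · have h4 : ((w₀ + 1 + m : ℕ) : ℝ) * ((h : ℝ) / n) =
          ((w₀ + 1 : ℕ) : ℝ) * ((h : ℝ) / n) + (m : ℝ) * (h : ℝ) / (n : ℝ) := by
        push_cast
        ring
      rw [h4, Pool.Agent.Lib_helper77.EF.e_add]
      ring
    · simp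
  rw [h3, norm_mul, Pool.Agent.Lib_helper77.EF.norm_e, one_mul]

theorem coprime_of_smooth {R q d : ℕ} (hq : q ≠ 0) (hd : d ≠ 0) (h1 : ∀ p ∈ q.primeFactors, p ≤ R)
    (h2 : ∀ p ∈ d.primeFactors, R < p) : q.Coprime d := by
  rw [← Nat.disjoint_primeFactors hq hd, Finset.disjoint_left]
  intro p hp hp'
  have := h1 p hp
  have := h2 p hp'
  omega

/-- the fractions `x / q + b / d` are distinct reduced fractions -/
theorem combine {G R z : ℕ} (𝒟 : Finset ℕ)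
    (h𝒟 : ∀ d ∈ 𝒟, 1 ≤ d ∧ d ≤ z ∧ ∀ p ∈ d.primeFactors, R < p) (a : ℕ → ℂ) (S : Finset ℕ) :
    ∑ q ∈ smo G R, ∑ x ∈ cop q, ∑ d ∈ 𝒟, ∑ b ∈ cop d, ‖T a S ((x : ℝ) / q + (b : ℝ) / d)‖ ^ 2 ≤
      ∑ n ∈ Icc 1 (G * z), ∑ h ∈ cop n, ‖T a S ((h : ℝ) / n)‖ ^ 2 := by
  classical
  set A : Finset (Σ _ : ℕ, ℕ) := (smo G R).sigma fun q => cop q with hA
  set B : Finset (Σ _ : ℕ, ℕ) := 𝒟.sigma fun d => cop d with hB
  set N : Finset (Σ _ : ℕ, ℕ) := (Icc 1 (G * z)).sigma fun n => cop n with hN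
  set φ : (Σ _ : ℕ, ℕ) × (Σ _ : ℕ, ℕ) → (Σ _ : ℕ, ℕ) := fun p =>
    ⟨p.1.1 * p.2.1, (p.1.2 * p.2.1 + p.2.2 * p.1.1) % (p.1.1 * p.2.1)⟩ with hφ
  set F : (Σ _ : ℕ, ℕ) → ℝ := fun s => ‖T a S ((s.2 : ℝ) / s.1)‖ ^ 2 with hF
  have facts : ∀ p ∈ A ×ˢ B, 1 ≤ p.1.1 ∧ p.1.1 ≤ G ∧ 1 ≤ p.2.1 ∧ p.2.1 ≤ z ∧
      p.1.1.Coprime p.2.1 ∧ p.1.2 < p.1.1 ∧ p.1.2.Coprime p.1.1 ∧ p.2.2 < p.2.1 ∧
      p.2.2.Coprime p.2.1 ∧ (∀ r ∈ p.1.1.primeFactors, r ≤ R) ∧
      (∀ r ∈ p.2.1.primeFactors, R < r) := by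
    intro p hp
    obtain ⟨h1, h2⟩ := mem_product.1 hp
    obtain ⟨h3, h4⟩ := mem_sigma.1 h1
    obtain ⟨h5, h6⟩ := mem_sigma.1 h2
    obtain ⟨h7, h8⟩ := mem_filter.1 h3
    obtain ⟨h9, h10⟩ := mem_filter.1 h4
    obtain ⟨h11, h12⟩ := mem_filter.1 h6
    obtain ⟨h13, h14, h15⟩ := h𝒟 _ h5
    have h16 := mem_Icc.1 h7
    exact ⟨h16.1, h16.2, h13, h14, coprime_of_smooth (by omega) (by omega) h8 h15,
      mem_range.1 h9, h10, mem_range.1 h11, h12, h8, h15⟩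
  have hcop : ∀ p ∈ A ×ˢ B, (p.1.2 * p.2.1 + p.2.2 * p.1.1).Coprime (p.1.1 * p.2.1) := by
    intro p hp
    obtain ⟨h1, h2, h3, h4, h5, h6, h7, h8, h9, -, -⟩ := facts p hp
    apply Nat.Coprime.mul_right
    · rw [Nat.coprime_add_mul_right_left]
      exact Nat.Coprime.mul_left h7 h5.symm
    · rw [add_comm, Nat.coprime_add_mul_right_left]
      exact Nat.Coprime.mul_left h9 h5
  have hmap : ∀ p ∈ A ×ˢ B, φ p ∈ N := by
    intro p hp
    obtain ⟨h1, h2, h3, h4, -⟩ := facts p hp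
    have hpos : 0 < p.1.1 * p.2.1 := Nat.mul_pos h1 h3
    rw [hN, mem_sigma]
    refine ⟨mem_Icc.2 ⟨hpos, Nat.mul_le_mul h2 h4⟩, mem_filter.2 ⟨mem_range.2 (Nat.mod_lt _ hpos), ?_⟩⟩
    have h5 := hcop p hp
    rw [hφ]
    dsimp only
    unfold Nat.Coprime at h5 ⊢
    rw [← h5]
    exact (Nat.mod_modEq _ _).gcd_eq
  have hval : ∀ p ∈ A ×ˢ B, ‖T a S ((p.1.2 : ℝ) / p.1.1 + (p.2.2 : ℝ) / p.2.1)‖ ^ 2 = F (φ p) := by
    intro p hp
    obtain ⟨h1, h2, h3, h4, -⟩ := facts p hp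
    have h1' : (p.1.1 : ℝ) ≠ 0 := by
      have : p.1.1 ≠ 0 := by omega
      exact_mod_cast this
    have h3' : (p.2.1 : ℝ) ≠ 0 := by
      have : p.2.1 ≠ 0 := by omega
      exact_mod_cast this
    have h5 := Nat.mod_add_div (p.1.2 * p.2.1 + p.2.2 * p.1.1) (p.1.1 * p.2.1)
    have h6 : (p.1.2 : ℝ) / p.1.1 + (p.2.2 : ℝ) / p.2.1 =
        (((p.1.2 * p.2.1 + p.2.2 * p.1.1) % (p.1.1 * p.2.1) : ℕ) : ℝ) /
          ((p.1.1 * p.2.1 : ℕ) : ℝ) +
        (((p.1.2 * p.2.1 + p.2.2 * p.1.1) / (p.1.1 * p.2.1) : ℕ) : ℝ) := by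
      have h7 : ((p.1.2 : ℝ) * p.2.1 + p.2.2 * p.1.1) =
          (((p.1.2 * p.2.1 + p.2.2 * p.1.1) % (p.1.1 * p.2.1) : ℕ) : ℝ) +
          (p.1.1 * p.2.1) * (((p.1.2 * p.2.1 + p.2.2 * p.1.1) / (p.1.1 * p.2.1) : ℕ) : ℝ) := by
        have h8 : ((p.1.2 * p.2.1 + p.2.2 * p.1.1 : ℕ) : ℝ) =
            (((p.1.2 * p.2.1 + p.2.2 * p.1.1) % (p.1.1 * p.2.1) +
              p.1.1 * p.2.1 * ((p.1.2 * p.2.1 + p.2.2 * p.1.1) / (p.1.1 * p.2.1)) : ℕ) : ℝ) :=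
          congrArg _ h5.symm
        rw [Nat.cast_add, Nat.cast_mul, Nat.cast_mul, Nat.cast_add, Nat.cast_mul, Nat.cast_mul] at h8
        exact h8
      have h9 : (p.1.2 : ℝ) / p.1.1 + (p.2.2 : ℝ) / p.2.1 =
          ((p.1.2 : ℝ) * p.2.1 + p.2.2 * p.1.1) / (p.1.1 * p.2.1) := by
        field_simp
      rw [h9, h7, Nat.cast_mul p.1.1 p.2.1, add_div]
      congr 1
      field_simp
    rw [h6, T_add_nat]
  have hinj : Set.InjOn φ (A ×ˢ B : Finset _) := by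
    intro p hp p' hp' heq
    have hp := Finset.mem_coe.1 hp
    have hp' := Finset.mem_coe.1 hp'
    obtain ⟨h1, h2, h3, h4, h5, h6, h7, h8, h9, h10, h11⟩ := facts p hp
    obtain ⟨k1, k2, k3, k4, k5, k6, k7, k8, k9, k10, k11⟩ := facts p' hp'
    rw [hφ] at heq
    dsimp only at heq
    rw [Sigma.mk.injEq] at heq
    obtain ⟨e1, e2⟩ := heq
    have e2 := eq_of_heq e2
    have c1 : p.1.1.Coprime p'.2.1 := coprime_of_smooth (by omega) (by omega) h10 k11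
    have c2 : p'.1.1.Coprime p.2.1 := coprime_of_smooth (by omega) (by omega) k10 h11
    have d1 : p.1.1 ∣ p'.1.1 := c1.dvd_of_dvd_mul_right (e1 ▸ Dvd.intro _ rfl)
    have d2 : p'.1.1 ∣ p.1.1 := c2.dvd_of_dvd_mul_right (e1.symm ▸ Dvd.intro _ rfl)
    have q1 : p.1.1 = p'.1.1 := Nat.dvd_antisymm d1 d2
    have q2 : p.2.1 = p'.2.1 := by
      rw [q1] at e1
      exact Nat.eq_of_mul_eq_mul_left (by omega) e1
    rw [← q1, ← q2] at e2
    have m0 : p.1.2 * p.2.1 + p.2.2 * p.1.1 ≡ p'.1.2 * p.2.1 + p'.2.2 * p.1.1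
        [MOD p.1.1 * p.2.1] := e2
    have m1 : p.1.2 * p.2.1 ≡ p'.1.2 * p.2.1 [MOD p.1.1] := by
      have := m0.of_mul_right p.2.1
      have h12 : p.1.2 * p.2.1 + p.2.2 * p.1.1 ≡ p.1.2 * p.2.1 [MOD p.1.1] := by
        have := (Nat.modEq_zero_iff_dvd.2 (Dvd.intro_left p.2.2 rfl) :
          p.2.2 * p.1.1 ≡ 0 [MOD p.1.1])
        simpa using (Nat.ModEq.refl (p.1.2 * p.2.1)).add this
      have h13 : p'.1.2 * p.2.1 + p'.2.2 * p.1.1 ≡ p'.1.2 * p.2.1 [MOD p.1.1] := by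
        have := (Nat.modEq_zero_iff_dvd.2 (Dvd.intro_left p'.2.2 rfl) :
          p'.2.2 * p.1.1 ≡ 0 [MOD p.1.1])
        simpa using (Nat.ModEq.refl (p'.1.2 * p.2.1)).add this
      exact (h12.symm.trans this).trans h13
    have m2 : p.2.2 * p.1.1 ≡ p'.2.2 * p.1.1 [MOD p.2.1] := by
      have := m0.of_mul_left p.1.1
      have h12 : p.1.2 * p.2.1 + p.2.2 * p.1.1 ≡ p.2.2 * p.1.1 [MOD p.2.1] := by
        have := (Nat.modEq_zero_iff_dvd.2 (Dvd.intro_left p.1.2 rfl) :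
          p.1.2 * p.2.1 ≡ 0 [MOD p.2.1])
        simpa using this.add (Nat.ModEq.refl (p.2.2 * p.1.1))
      have h13 : p'.1.2 * p.2.1 + p'.2.2 * p.1.1 ≡ p'.2.2 * p.1.1 [MOD p.2.1] := by
        have := (Nat.modEq_zero_iff_dvd.2 (Dvd.intro_left p'.1.2 rfl) :
          p'.1.2 * p.2.1 ≡ 0 [MOD p.2.1])
        simpa using this.add (Nat.ModEq.refl (p'.2.2 * p.1.1))
      exact (h12.symm.trans this).trans h13
    have x1 : p.1.2 = p'.1.2 :=
      (Nat.ModEq.cancel_right_of_coprime h5 m1).eq_of_lt_of_lt h6 (q1 ▸ k6)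
    have x2 : p.2.2 = p'.2.2 :=
      (Nat.ModEq.cancel_right_of_coprime h5.symm m2).eq_of_lt_of_lt h8 (q2 ▸ k8)
    obtain ⟨⟨p11, p12⟩, ⟨p21, p22⟩⟩ := p
    obtain ⟨⟨r11, r12⟩, ⟨r21, r22⟩⟩ := p'
    dsimp only at q1 q2 x1 x2
    subst q1 q2 x1 x2
    rfl
  calc ∑ q ∈ smo G R, ∑ x ∈ cop q, ∑ d ∈ 𝒟, ∑ b ∈ cop d,
        ‖T a S ((x : ℝ) / q + (b : ℝ) / d)‖ ^ 2
      = ∑ p ∈ A ×ˢ B, ‖T a S ((p.1.2 : ℝ) / p.1.1 + (p.2.2 : ℝ) / p.2.1)‖ ^ 2 := by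
        rw [sum_product, hA, sum_sigma]
        apply sum_congr rfl
        intro q _
        apply sum_congr rfl
        intro x _
        rw [hB, sum_sigma]
    _ = ∑ p ∈ A ×ˢ B, F (φ p) := sum_congr rfl hval
    _ = ∑ s ∈ (A ×ˢ B).image φ, F s := (sum_image hinj).symm
    _ ≤ ∑ s ∈ N, F s := by
        apply sum_le_sum_of_subset_of_nonneg
        · intro s hs
          obtain ⟨p, hp, rfl⟩ := mem_image.1 hs
          exact hmap p hp
        · intro s _ _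
          positivity
    _ = ∑ n ∈ Icc 1 (G * z), ∑ h ∈ cop n, ‖T a S ((h : ℝ) / n)‖ ^ 2 := by
        rw [hN, sum_sigma]

/-- the density of the sifting set -/
theorem density {c : ℝ} {R z k : ℕ} (hk : 1 ≤ k) (hR : 1 ≤ R) (hz : 2 ≤ z) (hGS : S_GS)
    (hM : c / Real.log (R + 1) ≤ ∏ p ∈ (Icc 1 R).filter Nat.Prime, (1 - 1 / (p : ℝ))) :
    ((k.totient : ℝ) / k) * (c / Real.log (R + 1)) * Real.log z ≤
      ∑ d ∈ (Icc 1 z).filter (fun d => Squarefree d ∧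
        d.Coprime (k * ∏ p ∈ (Icc 1 R).filter Nat.Prime, p)), 1 / (d.totient : ℝ) := by
  set P := ∏ p ∈ (Icc 1 R).filter Nat.Prime, p with hP
  have hprime : ∀ p ∈ (Icc 1 R).filter Nat.Prime, p.Prime := fun p hp => (mem_filter.1 hp).2
  have hP0 : P ≠ 0 := Finset.prod_ne_zero_iff.2 fun p hp => (hprime p hp).ne_zero
  have h1 := hGS z (k * P) (by omega) (Nat.mul_pos hk (Nat.pos_of_ne_zero hP0))
  refine le_trans ?_ h1
  apply mul_le_mul_of_nonneg_right _ (Real.log_natCast_nonneg z)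
  have h2 : (P.totient : ℝ) = P * ∏ p ∈ (Icc 1 R).filter Nat.Prime, (1 - 1 / (p : ℝ)) := by
    have h3 := Nat.totient_eq_mul_prod_factors P
    rw [Nat.primeFactors_prod hprime] at h3
    have h4 : ((P.totient : ℚ) : ℝ) =
        ((P * ∏ p ∈ (Icc 1 R).filter Nat.Prime, (1 - (p : ℚ)⁻¹) : ℚ) : ℝ) := congrArg _ h3
    push_cast at h4
    simpa [one_div] using h4
  have hk' : (0 : ℝ) < k := by exact_mod_cast hk
  have hP' : (0 : ℝ) < P := by exact_mod_cast Nat.pos_of_ne_zero hP0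
  have h5 : (k.totient : ℝ) * P.totient ≤ ((k * P).totient : ℝ) := by
    exact_mod_cast Nat.totient_super_multiplicative k P
  have h6 : c / Real.log (R + 1) ≤ (P.totient : ℝ) / P := by
    rw [h2, mul_div_cancel_left₀ _ hP'.ne']
    exact hM
  calc (k.totient : ℝ) / k * (c / Real.log (R + 1)) ≤
      (k.totient : ℝ) / k * ((P.totient : ℝ) / P) :=
        mul_le_mul_of_nonneg_left h6 (by positivity)
    _ = ((k.totient : ℝ) * P.totient) / (k * P) := by field_simp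
    _ ≤ ((k * P).totient : ℝ) / ((k * P : ℕ) : ℝ) := by
        push_cast
        gcongr

end LSS

open LSS in
theorem t_LSS : M_LSS := by
  classical
  intro hGS hMER hMON hTRG
  obtain ⟨c, hc, hMER⟩ := hMER
  refine ⟨12 / c, by positivity, ?_⟩
  intro R G z k L w₀ S ρ g hR hG hk hz hL hS hcl hg
  obtain ⟨C, hC⟩ := hg
  set P := ∏ p ∈ (Icc 1 R).filter Nat.Prime, p with hP
  set 𝒟 := (Icc 1 z).filter (fun d => Squarefree d ∧ d.Coprime (k * P)) with h𝒟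
  set Gz : ℝ := ∑ d ∈ 𝒟, 1 / (d.totient : ℝ) with hGz
  have hdens := density (z := z) hk hR hz hGS (hMER R hR)
  rw [← hP, ← h𝒟, ← hGz] at hdens
  have hlogR : 0 < Real.log (R + 1) := by
    apply Real.log_pos
    have : (1 : ℝ) ≤ R := by exact_mod_cast hR
    linarith
  have hlogz : 0 < Real.log z := Real.log_pos (by exact_mod_cast (by omega : 1 < z))
  have hk' : (0 : ℝ) < k := by exact_mod_cast hk
  have hφk : (0 : ℝ) < k.totient := by exact_mod_cast Nat.totient_pos.2 hk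
  have hGz0 : 0 < Gz := lt_of_lt_of_le (by positivity) hdens
  -- the elements of `𝒟`
  have hD1 : ∀ d ∈ 𝒟, 1 ≤ d ∧ d ≤ z ∧ ∀ p ∈ d.primeFactors, R < p := by
    intro d hd
    obtain ⟨h1, h2, h3⟩ := mem_filter.1 hd
    refine ⟨(mem_Icc.1 h1).1, (mem_Icc.1 h1).2, ?_⟩
    intro p hp
    by_contra hcon
    have hpp := Nat.prime_of_mem_primeFactors hp
    have h4 : p ∣ P := by
      rw [hP]
      exact Finset.dvd_prod_of_mem (fun p => p)
        (mem_filter.2 ⟨mem_Icc.2 ⟨hpp.one_lt.le, by omega⟩, hpp⟩)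
    have h5 : p ∣ d := Nat.dvd_of_mem_primeFactors hp
    have h6 := Nat.dvd_gcd h5 (h4.mul_left k)
    rw [h3] at h6
    exact hpp.one_lt.ne' (Nat.dvd_one.1 h6)
  have hD2 : ∀ d ∈ 𝒟, ∀ l ∈ d.primeFactors, ∀ w ∈ S, ¬ w ≡ ρ l [MOD l] := by
    intro d hd l hl
    obtain ⟨h1, h2, h3⟩ := mem_filter.1 hd
    have hlp := Nat.prime_of_mem_primeFactors hl
    have hld : l ∣ d := Nat.dvd_of_mem_primeFactors hl
    refine hcl l hlp ((hD1 d hd).2.2 l hl) ?_ ?_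
    · exact (Nat.le_of_dvd (hD1 d hd).1 hld).trans (hD1 d hd).2.1
    · intro hlk
      have h6 := Nat.dvd_gcd hld (hlk.mul_right P)
      rw [h3] at h6
      exact hlp.one_lt.ne' (Nat.dvd_one.1 h6)
  set a : ℕ → ℂ := fun w => (starRingEnd ℂ) (g w) with ha
  -- Montgomery's inequality
  have hm : ∀ θ : ℝ, Gz * ‖T a S θ‖ ^ 2 ≤
      ∑ d ∈ 𝒟, ∑ b ∈ cop d, ‖T a S (θ + (b : ℝ) / d)‖ ^ 2 := by
    intro θ
    rw [hGz, sum_mul]
    apply sum_le_sum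
    intro d hd
    have h1 := hMON S a θ d ρ (mem_filter.1 hd).2.1 (hD2 d hd)
    rw [one_div, mul_comm, ← div_eq_mul_inv]
    exact h1
  -- the large sieve
  have hz1 : 1 ≤ z := by omega
  have hGz1 : 1 ≤ G * z := Nat.mul_pos hG hz1
  have hsq : (G * z) ^ 2 ≤ L := by
    have h1 : (G * z) ^ 2 ≤ (G * z) ^ 4 := Nat.pow_le_pow_right hGz1 (by norm_num)
    omega
  set X : ℝ := ∑ w ∈ S, ‖g w‖ ^ 2 with hX
  have hX' : ∑ w ∈ S, ‖a w‖ ^ 2 = X := by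
    apply sum_congr rfl
    intro w _
    rw [ha]
    dsimp only
    rw [RCLike.norm_conj]
  have hls : Gz * ∑ q ∈ smo G R, ∑ x ∈ cop q, ‖T a S ((x : ℝ) / q)‖ ^ 2 ≤ 6 * (L : ℝ) * X := by
    calc Gz * ∑ q ∈ smo G R, ∑ x ∈ cop q, ‖T a S ((x : ℝ) / q)‖ ^ 2
        = ∑ q ∈ smo G R, ∑ x ∈ cop q, Gz * ‖T a S ((x : ℝ) / q)‖ ^ 2 := by
          simp only [mul_sum]
      _ ≤ ∑ q ∈ smo G R, ∑ x ∈ cop q, ∑ d ∈ 𝒟, ∑ b ∈ cop d,
            ‖T a S ((x : ℝ) / q + (b : ℝ) / d)‖ ^ 2 :=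
          sum_le_sum fun q _ => sum_le_sum fun x _ => hm _
      _ ≤ ∑ n ∈ Icc 1 (G * z), ∑ h ∈ cop n, ‖T a S ((h : ℝ) / n)‖ ^ 2 := combine 𝒟 hD1 a S
      _ ≤ 6 * (L : ℝ) * X := by
          rw [← hX']
          exact ls_T hsq hS a
  -- duality
  set Y : ℝ := ∑ q ∈ smo G R, ∑ x ∈ cop q, ‖T a S ((x : ℝ) / q)‖ ^ 2 with hY
  set Z : ℝ := ∑ q ∈ smo G R, ∑ x ∈ cop q, ‖C q x‖ ^ 2 with hZ
  have hX0 : 0 ≤ X := sum_nonneg fun w _ => by positivity
  have hY0 : 0 ≤ Y := sum_nonneg fun q _ => sum_nonneg fun x _ => by positivity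
  have hZ0 : 0 ≤ Z := sum_nonneg fun q _ => sum_nonneg fun x _ => by positivity
  have hdual : (X : ℂ) = ∑ q ∈ smo G R, ∑ x ∈ cop q, C q x * T a S ((x : ℝ) / q) := by
    have h1 : (X : ℂ) = ∑ w ∈ S, a w * g w := by
      rw [hX]
      push_cast
      apply sum_congr rfl
      intro w _
      rw [ha]
      dsimp only
      rw [mul_comm, Complex.mul_conj, Complex.normSq_eq_norm_sq]
      push_cast
      rfl
    rw [h1]
    unfold T
    have h2 : ∀ q x, C q x * ∑ w ∈ S, a w * e ((w : ℝ) * ((x : ℝ) / q)) =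
        ∑ w ∈ S, a w * (C q x * e ((w : ℝ) * ((x : ℝ) / q))) := by
      intro q x
      rw [mul_sum]
      apply sum_congr rfl
      intro w _
      ring
    simp only [h2]
    have h3 : ∀ w, a w * g w = ∑ q ∈ smo G R, ∑ x ∈ cop q,
        a w * (C q x * e ((w : ℝ) * ((x : ℝ) / q))) := by
      intro w
      rw [hC w, mul_sum]
      apply sum_congr rfl
      intro q _
      rw [mul_sum]
    simp only [h3]
    rw [sum_comm]
    apply sum_congr rfl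
    intro q _
    rw [sum_comm]
  have hcs : X ^ 2 ≤ Z * Y := by
    have h1 : X ≤ ∑ s ∈ (smo G R).sigma (fun q => cop q),
        ‖C s.1 s.2‖ * ‖T a S ((s.2 : ℝ) / s.1)‖ := by
      have h2 : X = ‖(X : ℂ)‖ := by
        rw [Complex.norm_real, Real.norm_of_nonneg hX0]
      rw [h2, hdual, ← sum_sigma (smo G R) (fun q => cop q)
        (fun s => C s.1 s.2 * T a S ((s.2 : ℝ) / s.1))]
      refine (norm_sum_le _ _).trans (le_of_eq ?_)
      apply sum_congr rfl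
      intro s _
      rw [norm_mul]
    have h3 : Z = ∑ s ∈ (smo G R).sigma (fun q => cop q), ‖C s.1 s.2‖ ^ 2 := by
      rw [sum_sigma]
    have h4 : Y = ∑ s ∈ (smo G R).sigma (fun q => cop q), ‖T a S ((s.2 : ℝ) / s.1)‖ ^ 2 := by
      rw [sum_sigma]
    calc X ^ 2 ≤ (∑ s ∈ (smo G R).sigma (fun q => cop q),
        ‖C s.1 s.2‖ * ‖T a S ((s.2 : ℝ) / s.1)‖) ^ 2 := by
          exact pow_le_pow_left₀ hX0 h1 2
      _ ≤ (∑ s ∈ (smo G R).sigma (fun q => cop q), ‖C s.1 s.2‖ ^ 2) *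
          ∑ s ∈ (smo G R).sigma (fun q => cop q), ‖T a S ((s.2 : ℝ) / s.1)‖ ^ 2 :=
          sum_mul_sq_le_sq_mul_sq _ _ _
      _ = Z * Y := by rw [← h3, ← h4]
  -- the near orthogonality
  have htrg := hTRG G R L w₀ C (by
    have h1 : 16 * G ^ 4 ≤ 16 * (G * z) ^ 4 := by
      apply Nat.mul_le_mul_left
      apply Nat.pow_le_pow_left
      exact Nat.le_mul_of_pos_right G hz1
    exact h1.trans hL)
  set W : ℝ := ∑ w ∈ Ioc w₀ (w₀ + L), ‖g w‖ ^ 2 with hW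
  have hW' : ∑ w ∈ Ioc w₀ (w₀ + L),
      ‖∑ q ∈ smo G R, ∑ a ∈ cop q, C q a * e ((w : ℝ) * ((a : ℝ) / q))‖ ^ 2 = W := by
    apply sum_congr rfl
    intro w _
    rw [← hC w]
  rw [hW', ← hZ] at htrg
  have hW0 : 0 ≤ W := sum_nonneg fun w _ => by positivity
  -- conclusion
  have h1 : Gz * X ≤ 12 * W := by
    rcases hX0.eq_or_lt with h0 | h0
    · rw [← h0, mul_zero]
      positivity
    · have h2 : Gz * X ^ 2 ≤ Z * (6 * L * X) := by
        calc Gz * X ^ 2 ≤ Gz * (Z * Y) := mul_le_mul_of_nonneg_left hcs hGz0.le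
          _ = Z * (Gz * Y) := by ring
          _ ≤ Z * (6 * L * X) := mul_le_mul_of_nonneg_left hls hZ0
      have h3 : (Gz * X) * X ≤ (12 * W) * X := by
        calc (Gz * X) * X = Gz * X ^ 2 := by ring
          _ ≤ Z * (6 * L * X) := h2
          _ = 6 * (L * Z) * X := by ring
          _ ≤ 6 * (2 * W) * X := by
              apply mul_le_mul_of_nonneg_right _ h0.le
              linarith
          _ = (12 * W) * X := by ring
      exact le_of_mul_le_mul_right h3 h0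
  have h2 : (k.totient : ℝ) / k * (c / Real.log (R + 1)) * Real.log z * X ≤ 12 * W :=
    (mul_le_mul_of_nonneg_right hdens hX0).trans h1
  have h3 : 0 < (k.totient : ℝ) / k * (c / Real.log (R + 1)) * Real.log z := by positivity
  have h4 : X ≤ 12 * W / ((k.totient : ℝ) / k * (c / Real.log (R + 1)) * Real.log z) := by
    rw [le_div_iff₀ h3]
    linarith
  refine h4.trans (le_of_eq ?_)
  field_simp

end

end MUR
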