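import Pool.Agent.MUR.St
import Pool.Agent.Lib_helper92.BlockSieve.Mertens

set_option autoImplicit false

/-!
# The lower bound in Mertens' product theorem
-/

namespace MUR

open Finset
open Pool.Agent.Lib_helper83.EF (e)
open scoped ArithmeticFunction.zeta ArithmeticFunction.Moebius ArithmeticFunction.vonMangoldt

noncomputable section

theorem t_MER : S_MER := by
  refine ⟨Real.exp (-5), Real.exp_pos _, fun R hR => ?_⟩
  rcases Nat.lt_or_ge R 2 with h | h
  · obtain rfl : R = 1 := by omega
    have h0 : (Icc 1 1).filter Nat.Prime = (∅ : Finset ℕ) := by decide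
    rw [h0, prod_empty]
    have h1 : Real.exp (-5) ≤ Real.exp (-1) := Real.exp_le_exp.2 (by norm_num)
    have h2 : Real.exp (-1) < 0.3678794412 := Real.exp_neg_one_lt_d9
    have h3 : 0.6931471803 < Real.log 2 := Real.log_two_gt_d9
    have h4 : ((1 : ℕ) : ℝ) + 1 = 2 := by norm_num
    rw [h4, div_le_one (by linarith)]
    linarith
  · have h1 := BlockSieve.prod_one_sub_ge h (BlockSieve.pr R) (Finset.Subset.refl _)
    refine le_trans ?_ h1
    have hR0 : (2 : ℝ) ≤ R := by exact_mod_cast h
    have h2 : 0 < Real.log R := Real.log_pos (by linarith)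
    exact div_le_div_of_nonneg_left (Real.exp_pos _).le h2
      (Real.log_le_log (by linarith) (by linarith))

end

end MUR
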