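import Mathlib
import Pool.Agent.IPR.StmtsB
import Pool.Agent.Lib_helper83.EF.Interface

set_option autoImplicit false

/-!
# Almost all `n` are `a + b` with `a b - 1` prime (and with `a b + 1` prime)

Project `MUR` for problem MP_f8fff1_nt. This file: definitions and basic statements.
`e x = exp (2 π i x)` is `Pool.Agent.Lib_helper83.EF.e`.
-/

namespace MUR

open Finset
open Pool.Agent.Lib_helper83.EF (e)
open scoped ArithmeticFunction.zeta ArithmeticFunction.Moebius ArithmeticFunction.vonMangoldt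

noncomputable section

/-! ## 1. Sieve tools -/

/-- Residues prime to `q` (for `q = 1` this is `{0}`). -/
def cop (q : ℕ) : Finset ℕ := (range q).filter (fun a => a.Coprime q)

/-- The moduli up to `G` all of whose prime factors are at most `R`. -/
def smo (G R : ℕ) : Finset ℕ := (Icc 1 G).filter (fun q => ∀ p ∈ q.primeFactors, p ≤ R)

/-- `g` is a combination of the exponentials `w ↦ e (w a / q)`, `q ∈ smo G R`. -/
def Trig (G R : ℕ) (g : ℕ → ℂ) : Prop :=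
  ∃ C : ℕ → ℕ → ℂ, ∀ w, g w = ∑ q ∈ smo G R, ∑ a ∈ cop q, C q a * e ((w : ℝ) * ((a : ℝ) / q))

/-- GS. PROOF. `∑_{d ≤ z, squarefree} 1 / φ d ≥ ∑_{n ≤ z} 1 / n ≥ log z` (write
`1 / φ d = ∑ 1 / n` over the `n` with squarefree kernel `d`), and, splitting off `l = gcd (d, k)`,
`∑_{d ≤ z, squarefree} 1 / φ d ≤ ∑_{l ∣ k, squarefree} 1 / φ l * G_k = (k / φ k) G_k`. (A version may
exist in Lib_helper72/AP.) -/
def S_GS : Prop := ∀ z k : ℕ, 1 ≤ z → 1 ≤ k →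
  ((k.totient : ℝ) / k) * Real.log z ≤
    ∑ d ∈ (Icc 1 z).filter (fun d => Squarefree d ∧ d.Coprime k), 1 / (d.totient : ℝ)

/-- MER: lower bound in Mertens' product theorem (the constant is irrelevant). PROOF. From
`∑_{p ≤ R} log p / p = log R + O(1)` (by `log R! = ∑ Λ d ⌊R/d⌋` and `ψ x ≤ C x`, Mathlib
`Chebyshev.psi_le_const_mul_self`) and summation by parts, or: `∏_{p ≤ R} (1 - 1/p)⁻¹ ≤ C log R` from
the convergence of `ζ` near 1: with `σ = 1 + 1 / log R`,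
`∑_{p ≤ R} 1/p ≤ ∑_{p ≤ R} p^(-σ) + ∑_{p ≤ R} (1 - p^(1-σ)) / p`, the first sum is at most
`log ζ(σ) ≤ log (1 + log R)`, the second at most `(1/log R) ∑ log p / p ≤ C`. Search the library first
(Mertens). -/
def S_MER : Prop := ∃ c : ℝ, 0 < c ∧ ∀ R : ℕ, 1 ≤ R →
  c / Real.log (R + 1) ≤ ∏ p ∈ (Icc 1 R).filter Nat.Prime, (1 - 1 / (p : ℝ))

/-- MON: Montgomery's inequality when one class is missing for every prime factor of `d`.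
PROOF. Induction on the prime factors. For a prime `l`, with `Z r` the part of the sum over the class
`r` modulo `l`: `∑_{b < l} |S (θ + b/l)|^2 = l ∑_r |Z r|^2 ≥ l |S θ|^2 / (l - 1)`, as one `Z r` is `0`;
subtract the term `b = 0`. For `d = l d'`: every `b / d` is modulo 1 a sum `b₁ / l + b₂ / d'`
(bijection `cop d ≃ cop l × cop d'`; `e` has period 1 and the `w` are integers). -/
def S_MON : Prop := ∀ (S : Finset ℕ) (a : ℕ → ℂ) (θ : ℝ) (d : ℕ) (ρ : ℕ → ℕ), Squarefree d →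
  (∀ l ∈ d.primeFactors, ∀ w ∈ S, ¬ w ≡ ρ l [MOD l]) →
  ‖∑ w ∈ S, a w * e ((w : ℝ) * θ)‖ ^ 2 / (d.totient : ℝ) ≤
    ∑ b ∈ cop d, ‖∑ w ∈ S, a w * e ((w : ℝ) * (θ + (b : ℝ) / d))‖ ^ 2

/-- TRG: near orthogonality. PROOF. Expand the square; the off-diagonal geometric sums are at most
`1 / (2 ‖a/q - a'/q'‖) ≤ G^2 / 2` (`Lib_helper77.EF.norm_D_sq_le` or directly), there are at most
`G^2` fractions, and `2 |x| |y| ≤ |x|^2 + |y|^2`; so the square is at least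
`(L - G^4 / 2) ∑ |C|^2`. -/
def S_TRG : Prop := ∀ (G R L w₀ : ℕ) (C : ℕ → ℕ → ℂ), 16 * G ^ 4 ≤ L →
  (L : ℝ) * ∑ q ∈ smo G R, ∑ a ∈ cop q, ‖C q a‖ ^ 2 ≤
    2 * ∑ w ∈ Ioc w₀ (w₀ + L), ‖∑ q ∈ smo G R, ∑ a ∈ cop q, C q a * e ((w : ℝ) * ((a : ℝ) / q))‖ ^ 2

/-- LSS: sifted sums of a combination of exponentials with smooth denominators.
PROOF. Let `𝒟` be the set of the squarefree `d ≤ z` coprime to `k` and to all primes `≤ R`, and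
`Gz = ∑_{𝒟} 1 / φ d ≥ c (φ k / k) log z / log (R + 1)` by GS for the number `k ∏_{p ≤ R} p` and MER.
(If `𝒟 = {1}` everything is still correct.) For `a : ℕ → ℂ` supported on `S` put
`S θ = ∑ a_w e (w θ)`. By MON, `Gz ∑_{q, a} |S (a/q)|^2 ≤ ∑_{q,a} ∑_{d ∈ 𝒟} ∑_{b ∈ cop d} |S (a/q + b/d)|^2`
and the numbers `a/q + b/d` are modulo 1 distinct reduced fractions with denominators `q d ≤ G z`, so
by the large sieve (`Lib_helper77.EF.ls` with `G z` and `L`, after a translation by `w₀ + 1`, which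
changes no absolute value) this is at most `6 L ∑ |a_w|^2`. Take
`a_w = conj (g w)` on `S`: `∑_S |g|^2 = ∑_{q,a} C q a S (a/q) ≤ (∑ |C|^2)^(1/2) (6 L / Gz)^(1/2)
(∑_S |g|^2)^(1/2)`, i.e. `∑_S |g|^2 ≤ (6 L / Gz) ∑ |C|^2 ≤ (12 / Gz) ∑_{Ioc} |g|^2` by TRG. -/
def S_LSS : Prop := ∃ C : ℝ, 0 < C ∧ ∀ (R G z k L w₀ : ℕ) (S : Finset ℕ) (ρ : ℕ → ℕ) (g : ℕ → ℂ),
  1 ≤ R → 1 ≤ G → 1 ≤ k → 2 ≤ z → 16 * (G * z) ^ 4 ≤ L → S ⊆ Ioc w₀ (w₀ + L) →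
  (∀ l : ℕ, l.Prime → R < l → l ≤ z → ¬ l ∣ k → ∀ w ∈ S, ¬ w ≡ ρ l [MOD l]) → Trig G R g →
  ∑ w ∈ S, ‖g w‖ ^ 2 ≤ C * Real.log (R + 1) * ((k : ℝ) / k.totient) / Real.log z *
    ∑ w ∈ Ioc w₀ (w₀ + L), ‖g w‖ ^ 2

def M_LSS : Prop := S_GS → S_MER → S_MON → S_TRG → S_LSS

/-- `log m` on the primes. -/
def LL (m : ℕ) : ℝ := if m.Prime then Real.log m else 0

/-- `k + s` as a natural number. -/
def mv (s : ℤ) (k : ℕ) : ℕ := ((k : ℤ) + s).toNat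

/-- LLB: the upper bound for primes `M D x w + s`, `w` in a class modulo `M₁` in an interval.
PROOF. The `w` are `c' + M₁ j` with `j` in an interval of length at most `L / M₁ + 1 ≤ 2 L / M₁`
(enlarge it to a length `L'` with `16 z^4 ≤ L' ≤ 2 L / M₁ + 1`). Apply LSS with `g = 1`
(`Trig 1 R 1`), `k = D x`: for a prime `l ∈ (R, z]` not dividing `D x` (hence not dividing
`M M₁ D x`) the `j` with `l ∣ M D x (c' + M₁ j) + s` form one class, and a prime `M D x w + s > z` is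
not divisible by `l`. The weight is at most `log (z ^ 400) = 400 log z`, and
`D x ≤ 4 φ (D x)`. -/
def S_LLB : Prop := ∃ C : ℝ, 0 < C ∧ ∀ (s : ℤ) (M M₁ D x z R w₀ L c : ℕ), (s = 1 ∨ s = -1) →
  1 ≤ M → 1 ≤ M₁ → 1 ≤ D → 1 ≤ R → 2 ≤ z → z + 2 ≤ x →
  (∀ p ∈ M.primeFactors, p ≤ R) → (∀ p ∈ M₁.primeFactors, p ≤ R) →
  D ≤ 2 * D.totient → x ≤ 2 * x.totient →
  M * D * x * (w₀ + L) + 1 ≤ z ^ 400 → 16 * z ^ 4 * M₁ ≤ L →
  ∑ w ∈ (Ioc w₀ (w₀ + L)).filter (fun w => w ≡ c [MOD M₁]), LL (mv s (M * D * x * w)) ≤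
    C * Real.log (R + 1) * (L / M₁)

def M_LLB : Prop := S_LSS → S_LLB

/-- The `x` in `(X₁, 2 X₁]`, squarefree, without prime factors up to `z₀`. -/
def XX (X₁ z₀ : ℕ) : Finset ℕ :=
  (Ioc X₁ (2 * X₁)).filter (fun x => Squarefree x ∧ ∀ p ∈ x.primeFactors, z₀ < p)

/-- XC. PROOF. LSS with `g = 1`, `G = R = k = 1`, `z = z₀`, class `0`. -/
def S_XC : Prop := ∃ C : ℝ, 0 < C ∧ ∀ X₁ z₀ : ℕ, 2 ≤ z₀ → 16 * z₀ ^ 4 ≤ X₁ →
  ((XX X₁ z₀).card : ℝ) ≤ C * X₁ / Real.log z₀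

def M_XC : Prop := S_LSS → S_XC

/-- BOX: the two-step sieve on a box. PROOF. For fixed `x ∈ Xs`: LSS for `w ↦ g x w` with `k = D x`,
the primes `l ∈ (R, z]` not dividing `D x` (as in LLB); the weight is at most `400 log z`; so
`∑_w LL |g x w|^2 ≤ C log (R + 1) ∑_w |g x w|^2`. Then for fixed `w`: LSS for `x ↦ g x w` with `k = 1`,
the primes `l ∈ (R, z₀]`, class `0`, `z = z₀`. -/
def S_BOX : Prop := ∃ C : ℝ, 0 < C ∧ ∀ (s : ℤ) (M D z z₀ R G x₀ ξ w₀ ω : ℕ) (Xs : Finset ℕ)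
  (g : ℕ → ℕ → ℂ), (s = 1 ∨ s = -1) → 1 ≤ M → 1 ≤ D → 1 ≤ R → 1 ≤ G → 2 ≤ z → 2 ≤ z₀ →
  (∀ p ∈ M.primeFactors, p ≤ R) → D ≤ 2 * D.totient → Xs ⊆ Ioc x₀ (x₀ + ξ) →
  (∀ x ∈ Xs, z + 2 ≤ x ∧ x ≤ 2 * x.totient ∧ ∀ p ∈ x.primeFactors, z₀ < p) →
  M * D * (x₀ + ξ) * (w₀ + ω) + 1 ≤ z ^ 400 → 16 * (G * z) ^ 4 ≤ ω → 16 * (G * z₀) ^ 4 ≤ ξ →
  (∀ x, Trig G R (fun w => g x w)) → (∀ w, Trig G R (fun x => g x w)) →
  ∑ x ∈ Xs, ∑ w ∈ Ioc w₀ (w₀ + ω), LL (mv s (M * D * x * w)) * ‖g x w‖ ^ 2 ≤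
    C * Real.log (R + 1) ^ 2 / Real.log z₀ *
      ∑ x ∈ Ioc x₀ (x₀ + ξ), ∑ w ∈ Ioc w₀ (w₀ + ω), ‖g x w‖ ^ 2

def M_BOX : Prop := S_LSS → S_BOX

end

end MUR
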