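import Mathlib
import Pool.Agent.MUR.St
import Pool.Agent.Lib_helper77.EF.LS

set_option autoImplicit false

namespace MUR

open Finset
open Pool.Agent.Lib_helper83.EF (e)
open scoped ArithmeticFunction.zeta ArithmeticFunction.Moebius ArithmeticFunction.vonMangoldt

noncomputable section

namespace MON

lemma e_add (x y : ℝ) : e (x + y) = e x * e y := by
  unfold e
  rw [← Complex.exp_add]
  congr 1
  push_cast
  ring

lemma e_nat (n : ℕ) : e (n : ℝ) = 1 := by
  unfold e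
  rw [Complex.exp_eq_one_iff]
  exact ⟨n, by push_cast; ring⟩

lemma e_nat_mul (x : ℝ) (n : ℕ) : e ((n : ℝ) * x) = e x ^ n := by
  unfold e
  rw [← Complex.exp_nat_mul]
  congr 1
  push_cast
  ring

lemma norm_e (x : ℝ) : ‖e x‖ = 1 := by
  unfold e
  rw [show (2 * Real.pi * x * Complex.I : ℂ) = ((2 * Real.pi * x : ℝ) : ℂ) * Complex.I by
    push_cast; ring]
  exact Complex.norm_exp_ofReal_mul_I _

/-- the exponential sum -/
def FF (S : Finset ℕ) (a : ℕ → ℂ) (θ : ℝ) : ℂ := ∑ w ∈ S, a w * e ((w : ℝ) * θ)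

lemma FF_add_nat (S : Finset ℕ) (a : ℕ → ℂ) (θ : ℝ) (n : ℕ) : FF S a (θ + n) = FF S a θ := by
  unfold FF
  apply Finset.sum_congr rfl
  intro w _
  rw [mul_add, e_add, show ((w : ℝ) * (n : ℝ)) = ((w * n : ℕ) : ℝ) by push_cast; ring, e_nat,
    mul_one]

/-- Parseval on `range l`. -/
lemma parseval (l : ℕ) (hl : 0 < l) (Z : ℕ → ℂ) (z : ℂ) (hz : IsPrimitiveRoot z l)
    (hn : ‖z‖ = 1) :
    ∑ b ∈ range l, ‖∑ r ∈ range l, Z r * (z ^ b) ^ r‖ ^ 2 = l * ∑ r ∈ range l, ‖Z r‖ ^ 2 := by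
  have hz0 : z ≠ 0 := hz.ne_zero hl.ne'
  have hconj : (starRingEnd ℂ) z = z⁻¹ := by
    rw [Complex.inv_def, Complex.normSq_eq_norm_sq, hn]
    simp
  have hC : ((∑ b ∈ range l, ‖∑ r ∈ range l, Z r * (z ^ b) ^ r‖ ^ 2 : ℝ) : ℂ) =
      ((l * ∑ r ∈ range l, ‖Z r‖ ^ 2 : ℝ) : ℂ) := by
    push_cast
    have h1 : ∀ b ∈ range l, ((‖∑ r ∈ range l, Z r * (z ^ b) ^ r‖ : ℂ)) ^ 2 =
        ∑ r ∈ range l, ∑ r' ∈ range l,
          Z r * (starRingEnd ℂ) (Z r') * (z ^ r * z⁻¹ ^ r') ^ b := by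
      intro b _
      rw [← Complex.mul_conj', map_sum, Finset.sum_mul_sum]
      apply Finset.sum_congr rfl
      intro r _
      apply Finset.sum_congr rfl
      intro r' _
      rw [map_mul, map_pow, map_pow, hconj, mul_pow, ← pow_mul, ← pow_mul, ← pow_mul, ← pow_mul,
        mul_comm b r, mul_comm b r']
      ring
    rw [Finset.sum_congr rfl h1, Finset.sum_comm]
    rw [Finset.mul_sum]
    apply Finset.sum_congr rfl
    intro r hr
    rw [Finset.sum_comm]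
    rw [Finset.sum_eq_single r]
    · rw [← Finset.mul_sum]
      have : (z ^ r * z⁻¹ ^ r) = 1 := by
        rw [← mul_pow, mul_inv_cancel₀ hz0, one_pow]
      rw [this]
      simp only [one_pow, Finset.sum_const, Finset.card_range, nsmul_eq_mul, mul_one]
      rw [Complex.mul_conj']
      ring
    · intro r' hr' hne
      rw [← Finset.mul_sum]
      have hx1 : (z ^ r * z⁻¹ ^ r') ≠ 1 := by
        intro h
        apply hne
        have h2 : z ^ r = z ^ r' := by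
          rw [inv_pow] at h
          exact (mul_inv_eq_one₀ (pow_ne_zero _ hz0)).1 h
        exact (hz.pow_inj (mem_range.1 hr) (mem_range.1 hr') h2).symm
      have hxl : (z ^ r * z⁻¹ ^ r') ^ l = 1 := by
        rw [mul_pow, ← pow_mul, ← pow_mul, mul_comm r l, mul_comm r' l, pow_mul, pow_mul, inv_pow,
          hz.pow_eq_one]
        simp
      have h3 : (∑ i ∈ range l, (z ^ r * z⁻¹ ^ r') ^ i) * ((z ^ r * z⁻¹ ^ r') - 1) = 0 := by
        rw [geom_sum_mul, hxl, sub_self]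
      rcases mul_eq_zero.1 h3 with h4 | h4
      · rw [h4, mul_zero]
      · exact absurd (sub_eq_zero.1 h4) hx1
    · intro h
      exact absurd hr h
  exact_mod_cast hC

lemma zeta_prim (l : ℕ) (hl : 0 < l) : IsPrimitiveRoot (e (1 / (l : ℝ))) l := by
  have h := Complex.isPrimitiveRoot_exp l hl.ne'
  have h2 : e (1 / (l : ℝ)) = Complex.exp (2 * Real.pi * Complex.I / l) := by
    unfold e
    congr 1
    push_cast
    ring
  rw [h2]
  exact h

/-- The case of a prime. -/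
lemma prime_case (S : Finset ℕ) (a : ℕ → ℂ) (θ : ℝ) (l : ℕ) (hl : l.Prime) (ρ : ℕ)
    (hS : ∀ w ∈ S, ¬ w ≡ ρ [MOD l]) :
    ‖FF S a θ‖ ^ 2 / ((l : ℝ) - 1) ≤ ∑ b ∈ cop l, ‖FF S a (θ + (b : ℝ) / l)‖ ^ 2 := by
  have hl0 : 0 < l := hl.pos
  have hl1 : (1 : ℝ) < l := by exact_mod_cast hl.one_lt
  set Z : ℕ → ℂ := fun r => ∑ w ∈ S.filter (fun w => w % l = r), a w * e ((w : ℝ) * θ) with hZ
  set z : ℂ := e (1 / (l : ℝ)) with hzd
  have hz : IsPrimitiveRoot z l := zeta_prim l hl0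
  have hn : ‖z‖ = 1 := norm_e _
  have hmaps : ∀ w ∈ S, w % l ∈ range l := fun w _ => mem_range.2 (Nat.mod_lt _ hl0)
  have hF : ∀ b : ℕ, FF S a (θ + (b : ℝ) / l) = ∑ r ∈ range l, Z r * (z ^ b) ^ r := by
    intro b
    unfold FF
    rw [← Finset.sum_fiberwise_of_maps_to hmaps]
    apply Finset.sum_congr rfl
    intro r _
    rw [hZ, Finset.sum_mul]
    apply Finset.sum_congr rfl
    intro w hw
    have hw2 : w % l = r := (mem_filter.1 hw).2
    rw [mul_add, e_add, ← mul_assoc]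
    congr 1
    have h1 : ((w : ℝ) * ((b : ℝ) / l)) = ((w * b : ℕ) : ℝ) * (1 / (l : ℝ)) := by
      push_cast
      ring
    rw [h1, e_nat_mul, ← hzd, ← pow_mul, pow_eq_pow_mod (w * b) hz.pow_eq_one,
      pow_eq_pow_mod (b * r) hz.pow_eq_one]
    congr 1
    rw [← hw2]
    conv_lhs => rw [mul_comm, Nat.mul_mod]
    rw [Nat.mul_mod b (w % l), Nat.mod_mod]
  have hP := parseval l hl0 Z z hz hn
  have hP2 : ∑ b ∈ range l, ‖FF S a (θ + (b : ℝ) / l)‖ ^ 2 = l * ∑ r ∈ range l, ‖Z r‖ ^ 2 := by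
    rw [← hP]
    exact Finset.sum_congr rfl (fun b _ => by rw [hF b])
  -- Cauchy-Schwarz
  have hF0 : FF S a θ = ∑ r ∈ (range l).erase (ρ % l), Z r := by
    have h := hF 0
    simp only [Nat.cast_zero, zero_div, add_zero, pow_zero, one_pow, mul_one] at h
    rw [h, ← Finset.add_sum_erase _ _ (mem_range.2 (Nat.mod_lt ρ hl0))]
    have : Z (ρ % l) = 0 := by
      rw [hZ]
      apply Finset.sum_eq_zero
      intro w hw
      exact absurd (mem_filter.1 hw).2 (hS w (mem_filter.1 hw).1)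
    rw [this, zero_add]
  have hcard : (((range l).erase (ρ % l)).card : ℝ) = (l : ℝ) - 1 := by
    rw [Finset.card_erase_of_mem (mem_range.2 (Nat.mod_lt ρ hl0)), Finset.card_range,
      Nat.cast_sub hl.one_lt.le, Nat.cast_one]
  have hCS : ‖FF S a θ‖ ^ 2 ≤ ((l : ℝ) - 1) * ∑ r ∈ range l, ‖Z r‖ ^ 2 := by
    calc ‖FF S a θ‖ ^ 2 ≤ (∑ r ∈ (range l).erase (ρ % l), ‖Z r‖) ^ 2 := by
          rw [hF0]
          exact pow_le_pow_left₀ (norm_nonneg _) (norm_sum_le _ _) 2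
      _ ≤ (((range l).erase (ρ % l)).card : ℝ) * ∑ r ∈ (range l).erase (ρ % l), ‖Z r‖ ^ 2 :=
          sq_sum_le_card_mul_sum_sq
      _ ≤ ((l : ℝ) - 1) * ∑ r ∈ range l, ‖Z r‖ ^ 2 := by
          rw [hcard]
          apply mul_le_mul_of_nonneg_left _ (by linarith)
          exact Finset.sum_le_sum_of_subset_of_nonneg (Finset.erase_subset _ _)
            (fun _ _ _ => by positivity)
  have hsplit : ∑ b ∈ range l, ‖FF S a (θ + (b : ℝ) / l)‖ ^ 2 ≤
      ‖FF S a θ‖ ^ 2 + ∑ b ∈ cop l, ‖FF S a (θ + (b : ℝ) / l)‖ ^ 2 := by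
    have h0 : (0 : ℕ) ∈ range l := mem_range.2 hl0
    rw [← Finset.add_sum_erase _ _ h0]
    apply add_le_add
    · simp
    · apply Finset.sum_le_sum_of_subset_of_nonneg
      · intro b hb
        rw [Finset.mem_erase, mem_range] at hb
        unfold cop
        rw [mem_filter, mem_range]
        refine ⟨hb.2, ?_⟩
        exact (Nat.coprime_comm.1 ((Nat.Prime.coprime_iff_not_dvd hl).2
          (fun h => absurd (Nat.le_of_dvd (Nat.pos_of_ne_zero hb.1) h) (by omega))))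
      · intro _ _ _
        positivity
  have hpos : (0 : ℝ) < (l : ℝ) - 1 := by linarith
  rw [div_le_iff₀ hpos]
  have h5 : (l : ℝ) * ∑ r ∈ range l, ‖Z r‖ ^ 2 ≤
      ‖FF S a θ‖ ^ 2 + ∑ b ∈ cop l, ‖FF S a (θ + (b : ℝ) / l)‖ ^ 2 := hP2 ▸ hsplit
  have h6 := mul_le_mul_of_nonneg_left h5 hpos.le
  have h7 := mul_le_mul_of_nonneg_left hCS (show (0 : ℝ) ≤ l by positivity)
  nlinarith [h6, h7]

/-- The two steps combined. -/
lemma product_case (S : Finset ℕ) (a : ℕ → ℂ) (θ : ℝ) (l d : ℕ) (hl : 0 < l) (hd : 0 < d)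
    (hc : Nat.Coprime l d) :
    ∑ b ∈ cop l, ∑ c ∈ cop d, ‖FF S a (θ + (b : ℝ) / l + (c : ℝ) / d)‖ ^ 2 ≤
      ∑ b ∈ cop (l * d), ‖FF S a (θ + (b : ℝ) / ((l * d : ℕ) : ℝ))‖ ^ 2 := by
  have hld : 0 < l * d := Nat.mul_pos hl hd
  rw [← Finset.sum_product']
  set phi : ℕ × ℕ → ℕ := fun x => (x.1 * d + x.2 * l) % (l * d) with hphi
  have hval : ∀ x ∈ cop l ×ˢ cop d, ‖FF S a (θ + (x.1 : ℝ) / l + (x.2 : ℝ) / d)‖ ^ 2 =
      ‖FF S a (θ + ((phi x : ℕ) : ℝ) / ((l * d : ℕ) : ℝ))‖ ^ 2 := by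
    intro x _
    have h1 : θ + (x.1 : ℝ) / l + (x.2 : ℝ) / d =
        θ + ((phi x : ℕ) : ℝ) / ((l * d : ℕ) : ℝ) + (((x.1 * d + x.2 * l) / (l * d) : ℕ) : ℝ) := by
      have h2 : (((x.1 * d + x.2 * l) % (l * d) : ℕ) : ℝ) +
          ((l * d : ℕ) : ℝ) * (((x.1 * d + x.2 * l) / (l * d) : ℕ) : ℝ) =
          (x.1 : ℝ) * d + (x.2 : ℝ) * l := by
        exact_mod_cast Nat.mod_add_div (x.1 * d + x.2 * l) (l * d)
      have hl' : (l : ℝ) ≠ 0 := by exact_mod_cast hl.ne'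
      have hd' : (d : ℝ) ≠ 0 := by exact_mod_cast hd.ne'
      have h3 : ((phi x : ℕ) : ℝ) = (x.1 : ℝ) * d + (x.2 : ℝ) * l -
          ((l * d : ℕ) : ℝ) * (((x.1 * d + x.2 * l) / (l * d) : ℕ) : ℝ) := by
        rw [← h2, hphi]
        ring
      rw [h3]
      push_cast
      field_simp
      ring
    rw [h1, FF_add_nat]
  rw [Finset.sum_congr rfl hval]
  have hinj : Set.InjOn phi (cop l ×ˢ cop d : Finset (ℕ × ℕ)) := by
    intro x hx y hy hxy
    rw [mem_coe, mem_product] at hx hy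
    unfold cop at hx hy
    rw [mem_filter, mem_filter, mem_range, mem_range] at hx hy
    have h1 : x.1 * d + x.2 * l ≡ y.1 * d + y.2 * l [MOD l * d] := hxy
    have h2 : x.1 * d ≡ y.1 * d [MOD l] := by
      have h := h1.of_mul_right d
      have ha : x.1 * d + x.2 * l ≡ x.1 * d [MOD l] := by
        simp [Nat.ModEq]
      have hb : y.1 * d + y.2 * l ≡ y.1 * d [MOD l] := by
        simp [Nat.ModEq]
      exact (ha.symm.trans h).trans hb
    have h3 : x.2 * l ≡ y.2 * l [MOD d] := by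
      have h := h1.of_mul_left l
      have ha : x.1 * d + x.2 * l ≡ x.2 * l [MOD d] := by
        simp [Nat.ModEq]
      have hb : y.1 * d + y.2 * l ≡ y.2 * l [MOD d] := by
        simp [Nat.ModEq]
      exact (ha.symm.trans h).trans hb
    have h4 : x.1 ≡ y.1 [MOD l] := Nat.ModEq.cancel_right_of_coprime hc h2
    have h5 : x.2 ≡ y.2 [MOD d] := Nat.ModEq.cancel_right_of_coprime hc.symm h3
    have h6 : x.1 = y.1 := h4.eq_of_lt_of_lt hx.1.1 hy.1.1
    have h7 : x.2 = y.2 := h5.eq_of_lt_of_lt hx.2.1 hy.2.1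
    exact Prod.ext h6 h7
  rw [← Finset.sum_image (f := fun b : ℕ => ‖FF S a (θ + (b : ℝ) / ((l * d : ℕ) : ℝ))‖ ^ 2) hinj]
  apply Finset.sum_le_sum_of_subset_of_nonneg
  · intro b hb
    rw [mem_image] at hb
    obtain ⟨x, hx, rfl⟩ := hb
    rw [mem_product] at hx
    unfold cop at hx ⊢
    rw [mem_filter, mem_filter, mem_range, mem_range] at hx
    rw [mem_filter, mem_range]
    refine ⟨Nat.mod_lt _ hld, ?_⟩
    have h1 : Nat.Coprime (x.1 * d + x.2 * l) (l * d) := by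
      apply Nat.Coprime.mul_right
      · rw [Nat.coprime_add_mul_right_left]
        exact Nat.Coprime.mul_left hx.1.2 hc.symm
      · rw [add_comm, Nat.coprime_add_mul_right_left]
        exact Nat.Coprime.mul_left hx.2.2 hc
    have h2 : Nat.gcd ((x.1 * d + x.2 * l) % (l * d)) (l * d) =
        Nat.gcd (x.1 * d + x.2 * l) (l * d) := (Nat.mod_modEq _ _).gcd_eq
    show Nat.gcd ((x.1 * d + x.2 * l) % (l * d)) (l * d) = 1
    rw [h2]
    exact h1
  · intro _ _ _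
    positivity

end MON

open MON in
theorem t_MON : S_MON := by
  intro S a θ d
  induction d using Nat.strong_induction_on generalizing θ with
  | _ d ih =>
    intro ρ hsq hρ
    by_cases hd1 : d = 1
    · subst hd1
      have h1 : cop 1 = {0} := by decide
      rw [h1]
      simp
    · have hd0 : d ≠ 0 := hsq.ne_zero
      obtain ⟨l, hl, hld⟩ := Nat.exists_prime_and_dvd hd1
      obtain ⟨d', rfl⟩ := hld
      have hd'0 : 0 < d' := Nat.pos_of_ne_zero (fun h => hd0 (by rw [h, mul_zero]))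
      have hc : Nat.Coprime l d' := Nat.coprime_of_squarefree_mul hsq
      have hsq' : Squarefree d' := hsq.squarefree_of_dvd (Dvd.intro_left l rfl)
      have hlt : d' < l * d' := by
        have := hl.two_le
        nlinarith
      have hpf : ∀ p ∈ d'.primeFactors, ∀ w ∈ S, ¬ w ≡ ρ p [MOD p] := by
        intro p hp
        apply hρ
        rw [Nat.mem_primeFactors] at hp ⊢
        exact ⟨hp.1, hp.2.1.mul_left l, hd0⟩
      have hpl : ∀ w ∈ S, ¬ w ≡ ρ l [MOD l] := by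
        apply hρ
        rw [Nat.mem_primeFactors]
        exact ⟨hl, Dvd.intro d' rfl, hd0⟩
      have hA := prime_case S a θ l hl (ρ l) hpl
      have hB : ∀ b ∈ cop l, ‖FF S a (θ + (b : ℝ) / l)‖ ^ 2 / (d'.totient : ℝ) ≤
          ∑ c ∈ cop d', ‖FF S a (θ + (b : ℝ) / l + (c : ℝ) / d')‖ ^ 2 := by
        intro b _
        have := ih d' hlt (θ + (b : ℝ) / l) ρ hsq' hpf
        exact this
      have hC := product_case S a θ l d' hl.pos hd'0 hc
      have hphi' : (0 : ℝ) < d'.totient := by exact_mod_cast Nat.totient_pos.2 hd'0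
      have hphil : ((l * d').totient : ℝ) = ((l : ℝ) - 1) * d'.totient := by
        rw [Nat.totient_mul hc, Nat.totient_prime hl]
        push_cast [Nat.cast_sub hl.one_lt.le]
        ring
      have hl1 : (0 : ℝ) < (l : ℝ) - 1 := by
        have : (1 : ℝ) < l := by exact_mod_cast hl.one_lt
        linarith
      show ‖FF S a θ‖ ^ 2 / ((l * d').totient : ℝ) ≤
        ∑ b ∈ cop (l * d'), ‖FF S a (θ + (b : ℝ) / ((l * d' : ℕ) : ℝ))‖ ^ 2
      rw [hphil, ← div_div]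
      calc ‖FF S a θ‖ ^ 2 / ((l : ℝ) - 1) / (d'.totient : ℝ)
          ≤ (∑ b ∈ cop l, ‖FF S a (θ + (b : ℝ) / l)‖ ^ 2) / (d'.totient : ℝ) :=
            div_le_div_of_nonneg_right hA hphi'.le
        _ = ∑ b ∈ cop l, ‖FF S a (θ + (b : ℝ) / l)‖ ^ 2 / (d'.totient : ℝ) := by
            rw [Finset.sum_div]
        _ ≤ ∑ b ∈ cop l, ∑ c ∈ cop d', ‖FF S a (θ + (b : ℝ) / l + (c : ℝ) / d')‖ ^ 2 :=
            Finset.sum_le_sum hB
        _ ≤ _ := hC

end

end MUR
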