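import Pool.Agent.MUR.St
import Pool.Agent.Lib_helper77.EF.LS

set_option autoImplicit false

namespace MUR

open Finset
open Pool.Agent.Lib_helper83.EF (e)
open scoped ArithmeticFunction.zeta ArithmeticFunction.Moebius ArithmeticFunction.vonMangoldt

noncomputable section

namespace TRG

open Pool.Agent.Lib_helper77.EF

theorem sum_Ioc_eq (w₀ L : ℕ) (x : ℝ) :
    ∑ w ∈ Ioc w₀ (w₀ + L), e ((w : ℝ) * x) = e (((w₀ + 1 : ℕ) : ℝ) * x) * D L x := by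
  have h1 : Ioc w₀ (w₀ + L) = (range L).map ⟨fun i => w₀ + 1 + i, fun a b h => by
      simpa using h⟩ := by
    ext w
    simp only [mem_Ioc, mem_map, mem_range, Function.Embedding.coeFn_mk]
    constructor
    · rintro ⟨h1, h2⟩
      exact ⟨w - (w₀ + 1), by omega, by omega⟩
    · rintro ⟨i, hi, rfl⟩
      omega
  rw [h1, sum_map, D, mul_sum]
  refine sum_congr rfl fun i _ => ?_
  rw [← e_add]
  congr 1
  simp only [Function.Embedding.coeFn_mk]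
  push_cast
  ring

theorem norm_sum_Ioc (w₀ L : ℕ) (x : ℝ) :
    ‖∑ w ∈ Ioc w₀ (w₀ + L), e ((w : ℝ) * x)‖ = ‖D L x‖ := by
  rw [sum_Ioc_eq, norm_mul, norm_e, one_mul]

theorem general {ι : Type*} [DecidableEq ι] (P : Finset ι) (θ : ι → ℝ) (c : ι → ℂ) (L w₀ : ℕ)
    (B : ℝ) (hB0 : 0 ≤ B) (hB : ∀ i ∈ P, ∀ j ∈ P, i ≠ j → ‖D L (θ i - θ j)‖ ≤ B) :
    ((L : ℝ) - B * P.card) * ∑ i ∈ P, ‖c i‖ ^ 2 ≤
      ∑ w ∈ Ioc w₀ (w₀ + L), ‖∑ i ∈ P, c i * e ((w : ℝ) * θ i)‖ ^ 2 := by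
  set E : ι → ι → ℂ := fun i j => ∑ w ∈ Ioc w₀ (w₀ + L), e ((w : ℝ) * (θ i - θ j)) with hE
  have h1 : ((∑ w ∈ Ioc w₀ (w₀ + L), ‖∑ i ∈ P, c i * e ((w : ℝ) * θ i)‖ ^ 2 : ℝ) : ℂ) =
      ∑ i ∈ P, ∑ j ∈ P, c i * (starRingEnd ℂ) (c j) * E i j := by
    push_cast
    have h2 : ∀ w ∈ Ioc w₀ (w₀ + L), ((‖∑ i ∈ P, c i * e ((w : ℝ) * θ i)‖ : ℂ)) ^ 2 =
        ∑ i ∈ P, ∑ j ∈ P, c i * (starRingEnd ℂ) (c j) * e ((w : ℝ) * (θ i - θ j)) := by
      intro w _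
      rw [← Complex.mul_conj', map_sum, sum_mul_sum]
      refine sum_congr rfl fun i _ => sum_congr rfl fun j _ => ?_
      rw [map_mul, conj_e]
      have : (w : ℝ) * (θ i - θ j) = (w : ℝ) * θ i + -((w : ℝ) * θ j) := by ring
      rw [this, e_add]
      ring
    rw [sum_congr rfl h2, sum_comm]
    refine sum_congr rfl fun i _ => ?_
    rw [sum_comm]
    refine sum_congr rfl fun j _ => ?_
    rw [hE, mul_sum]
  have h3 : ∑ w ∈ Ioc w₀ (w₀ + L), ‖∑ i ∈ P, c i * e ((w : ℝ) * θ i)‖ ^ 2 =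
      ∑ i ∈ P, ∑ j ∈ P, (c i * (starRingEnd ℂ) (c j) * E i j).re := by
    have := congrArg Complex.re h1
    rw [Complex.ofReal_re] at this
    rw [this, Complex.re_sum]
    refine sum_congr rfl fun i _ => ?_
    rw [Complex.re_sum]
  have h4 : ∀ i ∈ P, ∀ j ∈ P, (if i = j then (L : ℝ) * ‖c i‖ ^ 2 else 0) -
      B / 2 * (‖c i‖ ^ 2 + ‖c j‖ ^ 2) ≤ (c i * (starRingEnd ℂ) (c j) * E i j).re := by
    intro i hi j hj
    by_cases hij : i = j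
    · subst hij
      have h5 : E i i = L := by
        simp only [hE, sub_self, mul_zero, e_zero]
        simp
      rw [if_pos rfl, h5, Complex.mul_conj']
      have h6 : ((‖c i‖ : ℂ) ^ 2 * (L : ℂ)).re = (L : ℝ) * ‖c i‖ ^ 2 := by
        have : ((‖c i‖ : ℂ) ^ 2 * (L : ℂ)) = (((L : ℝ) * ‖c i‖ ^ 2 : ℝ) : ℂ) := by
          push_cast
          ring
        rw [this, Complex.ofReal_re]
      rw [h6]
      have : 0 ≤ B / 2 * (‖c i‖ ^ 2 + ‖c i‖ ^ 2) := by positivity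
      linarith
    · rw [if_neg hij]
      have h5 : ‖E i j‖ ≤ B := by
        simp only [hE]
        rw [norm_sum_Ioc]
        exact hB i hi j hj hij
      have h6 : |(c i * (starRingEnd ℂ) (c j) * E i j).re| ≤ ‖c i‖ * ‖c j‖ * B := by
        refine (Complex.abs_re_le_norm _).trans ?_
        rw [norm_mul, norm_mul, RCLike.norm_conj]
        exact mul_le_mul_of_nonneg_left h5 (by positivity)
      have h7 := neg_le_of_abs_le h6
      have h8 : ‖c i‖ * ‖c j‖ * B ≤ B / 2 * (‖c i‖ ^ 2 + ‖c j‖ ^ 2) := by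
        nlinarith [mul_nonneg hB0 (sq_nonneg (‖c i‖ - ‖c j‖))]
      linarith
  rw [h3]
  have h9 : ∑ i ∈ P, ∑ j ∈ P, ((if i = j then (L : ℝ) * ‖c i‖ ^ 2 else 0) -
      B / 2 * (‖c i‖ ^ 2 + ‖c j‖ ^ 2)) = ((L : ℝ) - B * P.card) * ∑ i ∈ P, ‖c i‖ ^ 2 := by
    have h10 : ∑ i ∈ P, ∑ j ∈ P, (if i = j then (L : ℝ) * ‖c i‖ ^ 2 else 0) =
        L * ∑ i ∈ P, ‖c i‖ ^ 2 := by
      rw [mul_sum]
      refine sum_congr rfl fun i hi => ?_
      rw [sum_ite_eq, if_pos hi]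
    have h11 : ∑ i ∈ P, ∑ j ∈ P, B / 2 * (‖c i‖ ^ 2 + ‖c j‖ ^ 2) =
        B * P.card * ∑ i ∈ P, ‖c i‖ ^ 2 := by
      simp only [← mul_sum, sum_add_distrib, sum_const, nsmul_eq_mul]
      ring
    simp only [sum_sub_distrib]
    rw [h10, h11]
    ring
  rw [← h9]
  exact sum_le_sum fun i hi => sum_le_sum fun j hj => h4 i hi j hj

theorem D_bound {G : ℕ} (hG : 1 ≤ G) (L : ℕ) {x : ℝ} (h0 : 1 / (G : ℝ) ^ 2 ≤ x)
    (h1 : x ≤ 1 - 1 / (G : ℝ) ^ 2) : ‖D L x‖ ≤ (G : ℝ) ^ 2 := by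
  have hGR : (0 : ℝ) < G := by exact_mod_cast hG
  have hi : (0 : ℝ) < 1 / (G : ℝ) ^ 2 := by positivity
  have h2 := norm_D_sq_le L (x := x) (by linarith) (by linarith)
  have h3 : 1 / x ^ 2 ≤ (G : ℝ) ^ 4 := by
    have : (1 / (G : ℝ) ^ 2) ^ 2 ≤ x ^ 2 := pow_le_pow_left₀ hi.le h0 2
    have h4 : 1 / x ^ 2 ≤ 1 / (1 / (G : ℝ) ^ 2) ^ 2 := one_div_le_one_div_of_le (by positivity) this
    have h5 : 1 / (1 / (G : ℝ) ^ 2) ^ 2 = (G : ℝ) ^ 4 := by field_simp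
    rwa [h5] at h4
  have h4 : 1 / (1 - x) ^ 2 ≤ (G : ℝ) ^ 4 := by
    have : (1 / (G : ℝ) ^ 2) ^ 2 ≤ (1 - x) ^ 2 := pow_le_pow_left₀ hi.le (by linarith) 2
    have h4 : 1 / (1 - x) ^ 2 ≤ 1 / (1 / (G : ℝ) ^ 2) ^ 2 :=
      one_div_le_one_div_of_le (by positivity) this
    have h5 : 1 / (1 / (G : ℝ) ^ 2) ^ 2 = (G : ℝ) ^ 4 := by field_simp
    rwa [h5] at h4
  have h5 : ‖D L x‖ ^ 2 ≤ ((G : ℝ) ^ 2) ^ 2 := by
    have : ((G : ℝ) ^ 2) ^ 2 = (G : ℝ) ^ 4 := by ring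
    rw [this]
    have : (0 : ℝ) ≤ (G : ℝ) ^ 4 := by positivity
    linarith
  exact le_of_sq_le_sq h5 (by positivity)

theorem D_abs (L : ℕ) (x : ℝ) : ‖D L x‖ = ‖D L |x|‖ := by
  rcases abs_choice x with h | h
  · rw [h]
  · rw [h, norm_D_neg]

theorem card_cop_le (q : ℕ) : (cop q).card ≤ q := by
  refine (card_filter_le _ _).trans ?_
  rw [card_range]

theorem card_smo_le (G R : ℕ) : (smo G R).card ≤ G := by
  refine (card_filter_le _ _).trans ?_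
  rw [Nat.card_Icc]
  omega

theorem mem_smo {G R q : ℕ} (h : q ∈ smo G R) : 1 ≤ q ∧ q ≤ G := by
  unfold smo at h
  rw [mem_filter, mem_Icc] at h
  exact h.1

theorem mem_cop {q a : ℕ} (h : a ∈ cop q) : a < q ∧ a.Coprime q := by
  unfold cop at h
  rw [mem_filter, mem_range] at h
  exact h

end TRG

open TRG Pool.Agent.Lib_helper77.EF in
theorem t_TRG : S_TRG := by
  intro G R L w₀ C hL
  classical
  rcases Nat.eq_zero_or_pos G with hG | hG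
  · subst hG
    have : smo 0 R = ∅ := by
      unfold smo
      simp
    rw [this]
    simp
  set P : Finset (Σ _ : ℕ, ℕ) := (smo G R).sigma (fun q => cop q) with hP
  set θ : (Σ _ : ℕ, ℕ) → ℝ := fun i => (i.2 : ℝ) / i.1 with hθ
  set c : (Σ _ : ℕ, ℕ) → ℂ := fun i => C i.1 i.2 with hc
  have hGR : (1 : ℝ) ≤ G := by exact_mod_cast hG
  have hB : ∀ i ∈ P, ∀ j ∈ P, i ≠ j → ‖D L (θ i - θ j)‖ ≤ (G : ℝ) ^ 2 := by
    rintro ⟨q, a⟩ hi ⟨q', a'⟩ hj hne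
    rw [hP, mem_sigma] at hi hj
    obtain ⟨hq, ha⟩ := hi
    obtain ⟨hq', ha'⟩ := hj
    dsimp only at hq ha hq' ha'
    have h1 := mem_smo hq
    have h2 := mem_smo hq'
    have h3 := mem_cop ha
    have h4 := mem_cop ha'
    have hsp := farey_spacing (G := G) h1.1 h1.2 h2.1 h2.2 h3.2 h4.2 (by
      intro heq
      apply hne
      rw [Prod.mk.injEq] at heq
      rw [heq.1, heq.2])
    have hr1 := farey_range (G := G) h1.1 h1.2 h3.1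
    have hr2 := farey_range (G := G) h2.1 h2.2 h4.1
    rw [D_abs]
    refine D_bound hG L hsp ?_
    have hle : 1 / (G : ℝ) ^ 2 ≤ 1 / (G : ℝ) := by
      apply one_div_le_one_div_of_le (by linarith)
      nlinarith
    simp only [hθ]
    rw [abs_le]
    constructor <;> linarith [hr1.1, hr1.2, hr2.1, hr2.2]
  have hgen := general P θ c L w₀ ((G : ℝ) ^ 2) (by positivity) hB
  have hcard : (P.card : ℝ) ≤ (G : ℝ) ^ 2 := by
    have h1 : P.card ≤ G * G := by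
      rw [hP, card_sigma]
      calc ∑ q ∈ smo G R, (cop q).card ≤ ∑ q ∈ smo G R, G :=
            sum_le_sum fun q hq => (card_cop_le q).trans (mem_smo hq).2
        _ = (smo G R).card * G := by rw [sum_const, smul_eq_mul]
        _ ≤ G * G := Nat.mul_le_mul_right _ (card_smo_le G R)
    have h2 : (P.card : ℝ) ≤ (G * G : ℕ) := by exact_mod_cast h1
    rw [pow_two]
    exact_mod_cast h2
  have hS1 : ∑ q ∈ smo G R, ∑ a ∈ cop q, ‖C q a‖ ^ 2 = ∑ i ∈ P, ‖c i‖ ^ 2 := by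
    rw [hP, sum_sigma]
  have hS2 : ∀ w : ℕ, ∑ q ∈ smo G R, ∑ a ∈ cop q, C q a * e ((w : ℝ) * ((a : ℝ) / q)) =
      ∑ i ∈ P, c i * e ((w : ℝ) * θ i) := by
    intro w
    rw [hP, sum_sigma]
  rw [hS1]
  simp only [hS2]
  have hX : 0 ≤ ∑ i ∈ P, ‖c i‖ ^ 2 := sum_nonneg fun _ _ => by positivity
  have hLR : 16 * (G : ℝ) ^ 4 ≤ L := by exact_mod_cast hL
  have h5 : (L : ℝ) / 2 ≤ (L : ℝ) - (G : ℝ) ^ 2 * P.card := by
    have : (G : ℝ) ^ 2 * P.card ≤ (G : ℝ) ^ 2 * (G : ℝ) ^ 2 :=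
      mul_le_mul_of_nonneg_left hcard (by positivity)
    have h6 : (G : ℝ) ^ 2 * (G : ℝ) ^ 2 = (G : ℝ) ^ 4 := by ring
    have h7 : (0 : ℝ) ≤ (G : ℝ) ^ 4 := by positivity
    linarith
  have h6 := (mul_le_mul_of_nonneg_right h5 hX).trans hgen
  linarith

end

end MUR
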