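import Mathlib
import Pool.Agent.MUR.St

set_option autoImplicit false

/-!
# Project MUR, block B: mean value theorem for primes in progressions

Moduli `f u`, `u ~ U` up to `Y^(1/2 - ϖ)`, short intervals, one class for every modulus. The notions
`ps`, `PureF`, `UnitM`, `Fam`, `dsc`, `dsp` are those of `Pool/Agent/IPR/StmtsB.lean` (the files
IPR/DLS, LSV, T2, TT2, BVP prove the weaker forms for small moduli and can be copied and adapted).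
-/

namespace MUR

open Finset IPR
open Pool.Agent.Lib_helper83.EF (e)
open scoped ArithmeticFunction.zeta ArithmeticFunction.Moebius ArithmeticFunction.vonMangoldt

noncomputable section

/-- The constant of the large sieve (`N` the length, `f` the modulus of the progression,
`u ∈ [U, 2 U]`). -/
def dl2 (N f U : ℕ) : ℝ := ((N : ℝ) / f + 1) / U + U

/-- DLS2: the dual large sieve for pure functions on a progression modulo `f`, full strength.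
PROOF. Put `k = ρ' + f j`, `j < n ≤ N / f + 1`. `F u (ρ' + f j)` is pure in `j` modulo `u` (see
IPR/DLS: `pure_prog`, `sq_prog`). A pure function modulo a squarefree `u` is
`G j = ∑_{a ∈ cop u} c_a e (a j / u)` with `u ∑ |c_a|^2 = ∑_{r < u} |G r|^2` (discrete Fourier
transform; the coefficients of the `a` with `(a, u) > 1` vanish because the fibre sums vanish). The
fractions `a / u` are distinct and `1 / (2 U)^2`-spaced modulo 1, so by the dual large sieve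
(`Lib_helper77/EF/LS.lean`: `dual_ineq`, `kernel_row_sum`, `farey_spacing`, as in the proof of `ls`)
with `L = max n (4 U^2)` the left side is at most `6 L ∑_u ∑_a |c_a|^2 ≤ (6 L / U) ∑_u ∑_r F u r^2`. -/
def S_DLS2 : Prop := ∃ C : ℝ, 0 < C ∧ ∀ (P : Finset ℕ) (U f ρ x N : ℕ) (F : ℕ → ℕ → ℝ),
  1 ≤ U → 1 ≤ f → (∀ u ∈ P, Squarefree u ∧ U ≤ u ∧ u ≤ 2 * U ∧ u.Coprime f) →
  (∀ u ∈ P, PureF u (F u)) →
  ∑ k ∈ (Ico x (x + N)).filter (fun k => k ≡ ρ [MOD f]), (∑ u ∈ P, F u k) ^ 2 ≤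
    C * dl2 N f U * ∑ u ∈ P, ∑ r ∈ range u, F u r ^ 2

/-- LSV2: as `S_LSV`; same proof (IPR/LSV). -/
def S_LSV2 : Prop := ∃ C : ℝ, 0 < C ∧ ∀ (P : Finset ℕ) (U f ρ x N : ℕ) (β : ℕ → ℝ), 1 ≤ U → 1 ≤ f →
  (∀ u ∈ P, Squarefree u ∧ U ≤ u ∧ u ≤ 2 * U ∧ u.Coprime f) →
  ∑ u ∈ P, ∑ t ∈ (range u).filter (fun t => t.Coprime u),
    (∑ k ∈ (Ico x (x + N)).filter (fun k => k ≡ ρ [MOD f]), β k * ps u t k) ^ 2 ≤
    C * dl2 N f U * ∑ k ∈ (Ico x (x + N)).filter (fun k => k ≡ ρ [MOD f]), β k ^ 2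

def M_LSV2 : Prop := S_DLS2 → S_LSV2

/-- T22: as `S_T2`; same proof (IPR/T2). -/
def S_T22 : Prop := ∃ C : ℝ, 0 < C ∧ ∀ (P : Finset ℕ) (U f : ℕ) (c : ℕ → ℕ) (r : ℕ → ℤ)
  (α β : ℕ → ℝ) (v D y N : ℕ), 1 ≤ U → 1 ≤ f →
  (∀ u ∈ P, Squarefree u ∧ U ≤ u ∧ u ≤ 2 * U ∧ u.Coprime f ∧ (c u).Coprime f ∧ UnitM (r u) u) →
  (∑ u ∈ P, |∑ m ∈ Ico v (v + D), ∑ k ∈ (Ico y (y + N)).filter (fun k => m * k ≡ c u [MOD f]),
    α m * β k * ps u (r u) (m * k)|) ^ 2 ≤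
    C * P.card * (∑ m ∈ Ico v (v + D), α m ^ 2) * ((D : ℝ) / (f * U) + 1) *
      (dl2 N f U * ∑ k ∈ Ico y (y + N), β k ^ 2)

def M_T22 : Prop := S_LSV2 → S_T22

/-- TYB: sums of the discrepancy function over intervals. PROOF. If `(m, u) > 1` then
`ps u r (m k) = 0`. Otherwise `k ↦ ps u r (m k)` has period `u`, sum `0` over a period (also along
the progression `m k ≡ c` modulo `f`, which for `(m, f) = 1` is one class of `k`; for `(m, f) > 1` it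
is empty), and the sum of the absolute values over a period is
`∏_l ((1 - 1/(l-1)) + (l-2)/(l-1)) ≤ 2 ^ ω(u)` (Chinese remainder theorem; for `l = 2` the factor is
`0`). So every interval sum is at most `2 ^ ω(u)`; for the logarithm use Abel summation from the top
as in `Lib_helper72.AP.abs_sum_log_wt_le`. -/
def S_TYB : Prop := ∀ (u f c m x y : ℕ) (r : ℤ), Squarefree u → 1 < u → 1 ≤ f → u.Coprime f →
  c.Coprime f → UnitM r u →
  |∑ k ∈ (Ioc x y).filter (fun k => m * k ≡ c [MOD f]), ps u r (m * k)| ≤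
    (2 : ℝ) ^ u.primeFactors.card ∧
  |∑ k ∈ (Ioc x y).filter (fun k => m * k ≡ c [MOD f]), Real.log k * ps u r (m * k)| ≤
    (2 : ℝ) ^ u.primeFactors.card * Real.log (y + 1) ∧
  (x ≤ y → ∑ k ∈ Ioc x y, |ps u r (m * k)| ≤
    (((y : ℝ) - x) / u + 1) * (2 : ℝ) ^ u.primeFactors.card)

/-- TYP2: bilinear sums. The outer variable `m` is supported in `(V, √Y]`, `V` the integer part of
`Y^(1/5)`; the inner one in `(max E (X / m), Y / m]`.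
PROOF. Blocks `[v, v + v / B)` as in IPR/TT2 (`one_modulus`, `Lib_helper72/AP/Blocks`) with
`B = ⌈Y^(ϖ/4)⌉`, at most `6 B log Y` blocks up to `√Y`. On a block replace the inner range by
`(max E (X / v), Y / v]`. With `D = v / B`, `N ≤ (Y - X) / v + 1`, T22 bounds the block by
`C log^2 Y (U D N (D/(f U) + 1) ((N/f + 1)/U + U))^(1/2) ≤
C log^2 Y (D N/(f √U) + D √(N (1 + U)) + N √D + √(D N) (1 + U))`. Sum over the blocks:
`∑ D N / (f √U) ≤ 6 log Y (Y - X) / (f √U) + 6 √Y log Y`;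
`∑ D √(N (1 + U)) ≤ C log Y Y^(3/4) U^(1/2) ≤ C log Y Y^(1 - ϖ/2)`;
`∑ N √D ≤ C log Y Y^(9/10) √B ≤ C log Y Y^(0.94)` (as `v > Y^(1/5) - 1`);
`∑ √(D N) (1 + U) ≤ C log Y √(Y B) U ≤ C log Y Y^(1 - 3ϖ/4)`.
The change of the inner ranges: for every `m ≤ √Y` two intervals of length at most `Y/(B m) + 1`
(`card_div_sub_le`), and by the last part of TYB
`∑_{u ∈ P} ∑_{k in an interval of length l} |ps| ≤ (l / U + 1) ∑_{u ≤ 2U} 2^ω(u) ≤
C (l + U) (1 + log U)` (`2^ω(u) ≤ τ(u)`); total `C log^4 Y (Y / B + √Y U + √Y)`. -/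
def S_TYP2 : Prop := ∀ ϖ : ℝ, 0 < ϖ → ϖ ≤ 1 / 4 → ∃ Y₀ : ℕ, ∀ X Y V E f U : ℕ, Y₀ ≤ Y → X ≤ Y →
  V ^ 5 ≤ Y → Y < (V + 1) ^ 5 → 1 ≤ f → 1 ≤ U → (U : ℝ) ≤ (Y : ℝ) ^ (1 / 2 - ϖ) →
  ∀ (P : Finset ℕ) (c : ℕ → ℕ) (r : ℕ → ℤ), Fam P U f c r →
  ∀ a b : ℕ → ℝ, (∀ n ≤ Y, |a n| ≤ Real.log Y) → (∀ n ≤ Y, |b n| ≤ Real.log Y) →
  (∀ n, n ≤ V → a n = 0) → (∀ n, Y < n ^ 2 → a n = 0) →
  ∑ u ∈ P, |∑ m ∈ Ioc 0 Y, ∑ k ∈ (Ioc (max E (X / m)) (Y / m)).filter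
    (fun k => m * k ≡ c u [MOD f]), a m * b k * ps u (r u) (m * k)| ≤
    ((Y : ℝ) - X) * Real.log Y ^ 4 / (f * Real.sqrt U) + (Y : ℝ) ^ (1 - ϖ / 5)

def M_TYP2 : Prop := S_T22 → S_TYB → S_TYP2

/-- BVG: the mean value theorem for primes.
PROOF. For `Λ`: Vaughan's identity (`Lib_helper72/AP/Vaughan.lean`: `vaughan`, `sum_conv_weight`,
`small`, `large`, `muR`, ...) with both parameters `V = ⌊Y^(1/5)⌋`. The part `n ≤ V` contributes per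
`u` at most `V log Y`; the two Type I parts at most `V 2^ω(u) log (Y+1)` and
`V^2 log Y 2^ω(u)` (TYB); as `∑_{u ≤ 2U} 2^ω(u) ≤ 2 U (1 + log (2U))`, in total at most
`C Y^(2/5 + 1/2 - ϖ) log^3 Y`. The Type II part is a sum over pairs `m, k > V`, `X < m k ≤ Y`, of
`muR m * (large Λ V * ζ) k`: the pairs with `m^2 ≤ Y` are covered by TYP2 with `E = 0`; in those with
`m^2 > Y` one has `k^2 < Y`; exchange the roles and take `E = Nat.sqrt Y`. Finally pass from `Λ` to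
primes: the proper prime powers contribute per `u` at most `2 √Y log Y` (IPR/BVP). -/
def S_BVG : Prop := ∀ ϖ : ℝ, 0 < ϖ → ϖ ≤ 1 / 4 → ∃ Y₀ : ℕ, ∀ X Y f U : ℕ, Y₀ ≤ Y → X ≤ Y →
  1 ≤ f → 1 ≤ U → (U : ℝ) ≤ (Y : ℝ) ^ (1 / 2 - ϖ) →
  ∀ (P : Finset ℕ) (c : ℕ → ℕ) (r : ℕ → ℤ), Fam P U f c r →
  ∑ u ∈ P, |dsp f (c u) u (r u) X Y| ≤
    ((Y : ℝ) - X) * Real.log Y ^ 5 / (f * Real.sqrt U) + (Y : ℝ) ^ (1 - ϖ / 6)

def M_BVG : Prop := S_TYP2 → S_TYB → S_BVG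

/-- PNT: lower bound for primes in a class, in the interval `(N, N + N / 10]`, with the right order
of the modulus. PROOF. The prime number theorem for progressions
`ψ (x; q, c) / x → 1 / φ q`: Tauberian theorem `Lib_helper70/PNT/Tauber.lean` (`tauber`) applied as in
`Lib_helper70/PNT/PNT.lean` to `φ q * ψ (exp u; q, c) exp (-u)`, with Mathlib
`ArithmeticFunction.vonMangoldt.residueClass`, `LFunctionResidueClassAux`,
`continuousOn_LFunctionResidueClassAux`, `eqOn_LFunctionResidueClassAux`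
(`Mathlib.NumberTheory.LSeries.PrimesInAP`). Then subtract the prime powers. -/
def S_PNT : Prop := ∀ q c : ℕ, 1 ≤ q → c.Coprime q → ∃ N₀ : ℕ, ∀ N : ℕ, N₀ ≤ N →
  (N : ℝ) / (20 * q.totient) ≤ ∑ m ∈ (Ioc N (N + N / 10)).filter (fun m => m ≡ c [MOD q]), LL m

/-- BR: a lower bound for sifted numbers in an interval. PROOF (Brun's pure sieve). The `x ≡ ξ`
modulo `M₁` in the interval are `x = x₁ + M₁ j`, `j` in an interval of length `≥ B / M₁ - 1`. Sift by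
the primes `p ∈ (R₁, z₀]` (for the primes `p ≤ R₁` nothing is needed as `ξ` is a unit); with `Π` their
product, Bonferroni: the number is at least `∑_{d ∣ Π, ω d ≤ 2k+1} μ d (#j in one class mod d)
≥ (B/M₁) (∏ (1 - 1/p) - ∑_{d ∣ Π, ω d = 2k+2} 1/d) - 2 z₀^(2k+2)`, and the last sum is at most
`s^(2k+2) / (2k+2)!`, `s = ∑_{p ≤ z₀} 1/p ≤ log (log (z₀ + 1) / c)` (MER, as `1/p ≤ -log (1 - 1/p)`).
With `k = 10 ⌈s⌉ + 10` the error sum is at most `(log z₀)^(-5)`, `z₀^(2k+2) ≤ X^(1/10)`. And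
`∏_{R₁ < p ≤ z₀} (1 - 1/p) = ∏_{p ≤ z₀} (1 - 1/p) M₁ / φ M₁ ≥ c M₁ / (φ M₁ log (z₀ + 1))`.
The non-squarefree `x` free of primes up to `z₀` are at most
`∑_{z₀ < p ≤ √(3X)} (B / (M₁ p^2) + 1) ≤ 2 B / (M₁ z₀) + √(3 X)`. -/
def S_BR : Prop := ∃ c : ℝ, 0 < c ∧ ∀ R₁ M₁ : ℕ, 1 ≤ M₁ →
  (∀ p : ℕ, p.Prime → (p ∣ M₁ ↔ p ≤ R₁)) → ∀ A : ℕ, ∃ X₀ : ℕ, ∀ X : ℕ, X₀ ≤ X →
  ∀ z₀ a B ξ : ℕ, Real.log X ≤ z₀ → (z₀ : ℝ) ≤ Real.log X ^ A → (X : ℝ) ^ (9 / 10 : ℝ) ≤ B →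
  a + B ≤ 3 * X → ξ.Coprime M₁ →
  c * B / (M₁.totient * Real.log z₀) ≤
    (((Ioc a (a + B)).filter (fun x => x ≡ ξ [MOD M₁] ∧ Squarefree x ∧
      ∀ p ∈ x.primeFactors, z₀ < p)).card : ℝ)

def M_BR : Prop := S_MER → S_BR

end

end MUR
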