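import Mathlib
import Pool.Agent.MUR.St

set_option autoImplicit false

/-!
# Project MUR, blocks C, D, E: tuples of primes, exchanges, the second moment, projections
-/

namespace MUR

open Finset
open Pool.Agent.Lib_helper83.EF (e)

noncomputable section

/-! ## 2. The set of primes -/

/-- A set of primes in `(Q, Q + Q/J]`, not small and well distributed from above in progressions. -/
structure GoodP (C : ℝ) (Q J : ℕ) (P : Finset ℕ) : Prop where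
  pr : ∀ p ∈ P, p.Prime
  lo : ∀ p ∈ P, Q < p
  hi : ∀ p ∈ P, p ≤ Q + Q / J
  card : (Q : ℝ) ≤ C * J * Real.log Q * P.card
  cls : ∀ k c : ℕ, 1 ≤ k → ((P.filter (fun p => p ≡ c [MOD k])).card : ℝ) ≤
    C * P.card * (1 / (k.totient : ℝ) + (Q : ℝ) ^ (-(1 / 3 : ℝ)))

/-- PS. PROOF. Divide `(Q₀, 2 Q₀]` into `J` intervals of length about `Q₀ / J`: by
`π(2 Q₀) - π(Q₀) ≥ c Q₀ / log Q₀` (`Lib_helper70/PNT/PNT.lean`, `pi_tendsto`, or any Chebyshev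
bound) one of them, say `(Q, Q + h]` with `h = ⌊Q₀ / J⌋` (use `J + 1` or `J + 2` intervals), contains at
least `c' Q₀ / (J log Q₀)` primes; `P` = these primes. Classes: for `k ≤ √Q` the primes `p ≡ c` in
the interval are `p = c' + k j`, `j` in an interval of length at most `h / k + 1`; if `(c, k) > 1` there is
at most one; otherwise LSS with `g = 1`, `G = R = 1`, the parameter `k`, `z = ⌊(h/k)^(1/4) / 2⌋` gives at most
`C (k / φ k) (h / k) / log z ≤ C h / (φ k log Q) ≤ C |P| / φ k`. For `k > √Q` trivially at most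
`h / k + 1 ≤ √Q + 1 ≤ |P| Q^(-1/3)`. -/
def S_PS : Prop := ∃ C : ℝ, 0 < C ∧ ∃ q₀ : ℕ, ∀ Q₀ J : ℕ, q₀ ≤ Q₀ → 1 ≤ J → (J : ℝ) ≤ Real.log Q₀ →
  ∃ (Q : ℕ) (P : Finset ℕ), Q₀ ≤ Q ∧ Q ≤ 2 * Q₀ ∧ GoodP C Q J P

def M_PS : Prop := S_LSS → S_PS

/-! ## 3. Tuples -/

def yy {J : ℕ} (t : Fin J → ℕ × ℕ) : ℕ := ∏ j, (t j).1

def zz {J : ℕ} (t : Fin J → ℕ × ℕ) : ℕ := ∏ j, (t j).2

def DD {J : ℕ} (t : Fin J → ℕ × ℕ) : ℕ := yy t * zz t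

/-- Exchange of the two entries at the positions in `I`. -/
def sw {J : ℕ} (I : Finset (Fin J)) (t : Fin J → ℕ × ℕ) : Fin J → ℕ × ℕ :=
  fun j => if j ∈ I then (t j).swap else t j

open Classical in
/-- The tuples of pairs of elements of `P` whose `2 J` entries are distinct. -/
def TT (P : Finset ℕ) (J : ℕ) : Finset (Fin J → ℕ × ℕ) :=
  (Fintype.piFinset fun _ : Fin J => P ×ˢ P).filter
    (fun t => Function.Injective (Sum.elim (fun j => (t j).1) (fun j => (t j).2)))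

/-- The determinant `M (y z' - y' z)` of the exchange `I`. It equals
`M * (∏_{j ∉ I} p_j) * (∏_{j ∉ I} q_j) * ((∏_{j ∈ I} p_j)^2 - (∏_{j ∈ I} q_j)^2)`. -/
def Dl {J : ℕ} (M : ℕ) (I : Finset (Fin J)) (t : Fin J → ℕ × ℕ) : ℤ :=
  (M : ℤ) * ((yy t : ℤ) * zz (sw I t)) - (M : ℤ) * ((yy (sw I t) : ℤ) * zz t)

/-- SWA: algebra of the exchanges. -/
def S_SWA : Prop := ∀ (J : ℕ) (P : Finset ℕ),
  (∀ (I : Finset (Fin J)) (t : Fin J → ℕ × ℕ), sw I (sw I t) = t) ∧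
  (∀ (I I' : Finset (Fin J)) (t : Fin J → ℕ × ℕ), sw I (sw I' t) = sw (symmDiff I I') t) ∧
  (∀ (I : Finset (Fin J)) (t : Fin J → ℕ × ℕ), DD (sw I t) = DD t) ∧
  (∀ (I : Finset (Fin J)) (t : Fin J → ℕ × ℕ), t ∈ TT P J → sw I t ∈ TT P J) ∧
  (∀ (I : Finset (Fin J)) (t : Fin J → ℕ × ℕ), yy t =
    (∏ j ∈ Iᶜ, (t j).1) * ∏ j ∈ I, (t j).1) ∧
  (∀ (I : Finset (Fin J)) (t : Fin J → ℕ × ℕ), zz t =
    (∏ j ∈ Iᶜ, (t j).2) * ∏ j ∈ I, (t j).2) ∧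
  (∀ (I : Finset (Fin J)) (t : Fin J → ℕ × ℕ), yy (sw I t) =
    (∏ j ∈ Iᶜ, (t j).1) * ∏ j ∈ I, (t j).2) ∧
  (∀ (I : Finset (Fin J)) (t : Fin J → ℕ × ℕ), zz (sw I t) =
    (∏ j ∈ Iᶜ, (t j).2) * ∏ j ∈ I, (t j).1)

/-- TB: sizes and coprimality. PROOF. `(Q + Q / J)^J ≤ Q^J (1 + 1/J)^J ≤ e Q^J`; both terms of `Dl` are at
most `M (Q + Q/J)^(2J) ≤ e^2 M Q^(2J)` and nonnegative. `D / φ D = ∏ (1 + 1/(p - 1)) ≤
exp (2 J / Q) ≤ 2`. The number of non-injective tuples is at most `(2J choose 2) |P|^(2J-1)`. -/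
def S_TB : Prop := ∀ (C : ℝ) (Q J M : ℕ) (P : Finset ℕ), GoodP C Q J P → 1 ≤ J → 1 ≤ M →
  (∀ p ∈ M.primeFactors, p ≤ Q) →
  (∀ t ∈ TT P J, Q ^ J ≤ yy t ∧ yy t ≤ 3 * Q ^ J ∧ Q ^ J ≤ zz t ∧ zz t ≤ 3 * Q ^ J ∧
    (M * yy t).Coprime (zz t) ∧ (yy t).Coprime (zz t) ∧ Squarefree (DD t) ∧
    (DD t).primeFactors ⊆ P ∧
    (∀ I : Finset (Fin J), ((Dl M I t).natAbs : ℝ) ≤ 8 * M * (Q : ℝ) ^ (2 * J)) ∧
    (4 * J ≤ Q → DD t ≤ 2 * (DD t).totient)) ∧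
  (4 * J ^ 2 ≤ P.card → ((P.card : ℝ)) ^ (2 * J) ≤ 2 * ((TT P J).card : ℝ)) ∧
  ((TT P J).card : ℝ) ≤ (P.card : ℝ) ^ (2 * J)

def M_TB : Prop := S_SWA → S_TB

/-- PI: the number of tuples with `q ∣ Dl M I t`. PROOF. Put `q' = q / gcd (q, M)`; then `q'` divides
`e g (f^2 - h^2)` where `e, g` are the products of the `p_j`, `q_j` with `j ∉ I` and `f, h` those with
`j ∈ I` (as `q / gcd` and `M / gcd` are coprime). (A) Tuples for which some prime `l ∣ q'` divides `e g`: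
`l ∈ P`; at most `4 J` primes `> Q` divide `q' ≤ Q^(4J)`, and at most `2 J |P|^(2J-1)` tuples contain
`l`. (B) Otherwise `(q', e g) = 1`, so `q' ∣ f^2 - h^2`, and `(q', f h) = 1` (a prime `l` dividing `q'` and
`f` would be one of the `p_j` and divide `h`; the entries are distinct). Fix `j₀ ∈ I` and all entries
except `p = p_{j₀}`, `f = p f₁`: if `p, p'` both satisfy the condition then `k ∣ (p - p') (p + p')`,
`p` prime to `k`. With `a = gcd (k, |p - p'|)`, `b = gcd (k, p + p')`: `k ∣ a b`,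
`gcd (a, b) ∣ 2`, so `lcm (a, b)` is `k` or `k / 2`, `φ (lcm (a, b)) ≥ φ k / 2`, and `p'` lies in one class
modulo `lcm (a, b)` determined by `p, a, b`. Hence at most
`τ(k)^2 C |P| (2 / φ k + Q^(-1/3))` values of `p'` for every choice of the other `2J - 1` entries
(use `Function.update`). -/
def S_PI : Prop := ∀ (C : ℝ) (Q J M q k : ℕ) (P : Finset ℕ) (I : Finset (Fin J)), GoodP C Q J P →
  I.Nonempty → 2 ≤ Q → 1 ≤ M → 1 ≤ q → q / q.gcd M ≤ Q ^ (4 * J) → 1 ≤ k → k ∣ q / q.gcd M →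
  (((TT P J).filter (fun t => (q : ℤ) ∣ Dl M I t)).card : ℝ) ≤ (P.card : ℝ) ^ (2 * J) *
    (8 * (J : ℝ) ^ 2 / P.card + 2 * C * (k.divisors.card : ℝ) ^ 2 *
      (1 / (k.totient : ℝ) + (Q : ℝ) ^ (-(1 / 3 : ℝ))))

def M_PI : Prop := S_SWA → S_PI

/-- DEG: few tuples have a small determinant. PROOF. `|Dl| = M e g |f^2 - h^2|` with
`e g ≥ Q^(2J - 2i)`, `i = |I|`, `f + h ≥ 2 Q^i`, so `|f - h| < Q^(i - 1/2) / 2`; with
`f = p f₁`, `f₁ ≥ Q^(i-1)`, `p` lies in an interval of length `√Q` for given other entries. -/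
def S_DEG : Prop := ∀ (C : ℝ) (Q J M : ℕ) (P : Finset ℕ) (I : Finset (Fin J)), GoodP C Q J P →
  I.Nonempty → 2 ≤ Q → 1 ≤ M →
  (((TT P J).filter (fun t => ((Dl M I t).natAbs : ℝ) < M * (Q : ℝ) ^ (2 * J) / Real.sqrt Q)).card : ℝ) ≤
    2 * Real.sqrt Q * (P.card : ℝ) ^ (2 * J) / P.card

def M_DEG : Prop := S_SWA → S_DEG

/-! ## 4. The form, its symmetrization, the second moment -/

/-- The form `∑_t ∑_x ∑_w LL (M D x w + s) φ (M x y + w z)`. -/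
def TF (s : ℤ) (M J : ℕ) (P Xs : Finset ℕ) (W : ℕ) (φ : ℕ → ℂ) : ℂ :=
  ∑ t ∈ TT P J, ∑ x ∈ Xs, ∑ w ∈ Ioc 0 W,
    (LL (mv s (M * DD t * x * w)) : ℂ) * φ (M * x * yy t + w * zz t)

/-- The mean of `φ` over the exchanges. -/
def AA {J : ℕ} (M : ℕ) (φ : ℕ → ℂ) (t : Fin J → ℕ × ℕ) (x w : ℕ) : ℂ :=
  (1 / 2 ^ J : ℂ) * ∑ I : Finset (Fin J), φ (M * x * yy (sw I t) + w * zz (sw I t))

/-- The second moment. -/
def VV (M J : ℕ) (P : Finset ℕ) (X₁ W : ℕ) (φ : ℕ → ℂ) : ℝ :=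
  ∑ t ∈ TT P J, ∑ x ∈ Ioc X₁ (2 * X₁), ∑ w ∈ Ioc 0 W, ‖AA M φ t x w‖ ^ 2

/-- SYM. PROOF. For every `I` replace `t` by `sw I t` (a bijection of `TT P J`; `DD` does not change)
and average over `I`. -/
def S_SYM : Prop := ∀ (s : ℤ) (M J W : ℕ) (P Xs : Finset ℕ) (φ : ℕ → ℂ),
  TF s M J P Xs W φ = ∑ t ∈ TT P J, ∑ x ∈ Xs, ∑ w ∈ Ioc 0 W,
    (LL (mv s (M * DD t * x * w)) : ℂ) * AA M φ t x w

def M_SYM : Prop := S_SWA → S_SYM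

/-- VSY. PROOF. Expand the square (a sum over `I, I'`), replace `t` by `sw I t`; then `sw I' (sw I t)` is
`sw (symmDiff I' I) t`; for fixed `I` the symmetric difference runs over all subsets. -/
def S_VSY : Prop := ∀ (M J X₁ W : ℕ) (P : Finset ℕ) (φ : ℕ → ℂ),
  (VV M J P X₁ W φ : ℂ) = (1 / 2 ^ J : ℂ) * ∑ I : Finset (Fin J), ∑ t ∈ TT P J,
    ∑ x ∈ Ioc X₁ (2 * X₁), ∑ w ∈ Ioc 0 W, φ (M * x * yy t + w * zz t) *
      (starRingEnd ℂ) (φ (M * x * yy (sw I t) + w * zz (sw I t)))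

def M_VSY : Prop := S_SWA → S_VSY

/-- Block Fourier transform, block `i` is `[i H, i H + H)`. -/
def ft (φ : ℕ → ℂ) (H i : ℕ) (θ : ℝ) : ℂ := ∑ n ∈ Ico (i * H) (i * H + H), φ n * e (-((n : ℝ) * θ))

/-- The energy of `φ` on block `i` in the progressions modulo `Δ`. -/
def En (φ : ℕ → ℂ) (H Δ i : ℕ) : ℝ :=
  ∑ r ∈ range Δ, ‖∑ n ∈ (Ico (i * H) (i * H + H)).filter (fun n => n % Δ = r), φ n‖ ^ 2

/-- EFT. PROOF. Parseval for the function `r ↦ ∑_{n ≡ r} φ n` modulo `Δ`, and every `k / Δ`, `k < Δ`, is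
`a / q` for exactly one `q ∣ Δ`, `a ∈ cop q`. -/
def S_EFT : Prop := ∀ (φ : ℕ → ℂ) (H Δ i : ℕ), 1 ≤ Δ →
  (Δ : ℝ) * En φ H Δ i = ∑ q ∈ Δ.divisors, ∑ a ∈ cop q, ‖ft φ H i ((a : ℝ) / q)‖ ^ 2

/-- LSB. PROOF. `Lib_helper77.EF.ls` for the sequence `conj (φ (i H + n))`; the translation changes no
absolute value. -/
def S_LSB : Prop := ∀ (φ : ℕ → ℂ) (G H i : ℕ), G ^ 2 ≤ H →
  ∑ q ∈ Icc 1 G, ∑ a ∈ cop q, ‖ft φ H i ((a : ℝ) / q)‖ ^ 2 ≤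
    6 * H * ∑ n ∈ Ico (i * H) (i * H + H), ‖φ n‖ ^ 2

/-- PAIR: the off-diagonal sums of one pair of forms `n = M x y + w z`, `n' = M x y' + w z'`.
PROOF. Put `Δ = |M (y z' - y' z)|`; by symmetry (exchange the two forms; the norm does not change)
assume `y z' > y' z`. (1) `n z' - n' z = x Δ`. As `M y, z` are coprime, every integer `n` has the form
`M x y + w z` with integers `x, w`, unique up to multiples of `(z, - M y)`; so the pairs `(n, n')` of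
values are, for a suitable `ρ` prime to `Δ`, exactly those with `n' ≡ ρ n` modulo `Δ` (the inverse comes from
the coprimality of `M y', z'`), and `(x, w) ↦ (n, n')` is injective. By the support hypothesis the
condition on `w` is automatic; so the sum is
`∑ φ n conj (φ n')` over the `n, n'` with `n' ≡ ρ n (Δ)` and `X₁ Δ < n z' - n' z ≤ 2 X₁ Δ`.
(2) Blocks `i ∋ n`, `i' ∋ n'`: with `v = (i z' - i' z) H` the number `n z' - n' z` lies in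
`(v - z H, v + z' H)`. Pairs of blocks with `v - z H ≥ X₁ Δ` and `v + z' H ≤ 2 X₁ Δ` are interior, those for
which the two intervals `(v - z H, v + z' H)`, `(X₁ Δ, 2 X₁ Δ]` are disjoint do not matter, the others
are boundary pairs. (3) Interior pairs: for `b r = ∑_{n ≡ r} φ n` on block `i` and `b' r` on block `i'`,
`|∑_r b r conj (b' (ρ r))| ≤ (En i + En i') / 2` since `r ↦ ρ r` permutes the classes. For given `i` there are at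
most `X₁ Δ / (H z) + 1` interior `i'`, for given `i'` at most `X₁ Δ / (H z') + 1` interior `i`. (4) Boundary
pairs: `i z' - i' z` lies in one of two open intervals of length `z + z'`, so at most `10` of them
for given `i` and for given `i'`; `|φ n φ n'| ≤ (|φ n|^2 + |φ n'|^2) / 2` and for given `n` at most
`H / Δ + 1` numbers `n'` of the block `i'`. -/
def S_PAIR : Prop := ∀ (M y z y' z' X₁ H B W : ℕ) (φ : ℕ → ℂ), 1 ≤ M → 1 ≤ y → 1 ≤ z → 1 ≤ y' →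
  1 ≤ z' → 1 ≤ H → (M * y).Coprime z → (M * y').Coprime z' → z ≤ 3 * z' → z' ≤ 3 * z →
  y * z' ≠ y' * z →
  (∀ n, φ n ≠ 0 → n < B ∧ 2 * M * X₁ * y < n ∧ 2 * M * X₁ * y' < n ∧ n ≤ W * z ∧ n ≤ W * z') →
  ‖∑ x ∈ Ioc X₁ (2 * X₁), ∑ w ∈ Ioc 0 W, φ (M * x * y + w * z) *
      (starRingEnd ℂ) (φ (M * x * y' + w * z'))‖ ≤
    (((((M : ℤ) * ((y : ℤ) * z') - (M : ℤ) * ((y' : ℤ) * z)).natAbs : ℝ) * X₁) / ((min z z' : ℕ) * H) + 1) *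
      ∑ i ∈ range (B / H + 1), En φ H ((M : ℤ) * ((y : ℤ) * z') - (M : ℤ) * ((y' : ℤ) * z)).natAbs i +
    10 * ((H : ℝ) / ((M : ℤ) * ((y : ℤ) * z') - (M : ℤ) * ((y' : ℤ) * z)).natAbs + 1) *
      ∑ n ∈ range B, ‖φ n‖ ^ 2

/-- VB: the bound of the second moment. `act` is the set of the active moduli, for the others the
block Fourier coefficients are tiny.
PROOF. VSY. (1) `I = ∅`: every `n` has for given `t` at most `X₁ / z + 1 ≤ 2 X₁ / Q^J` representations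
`M x y + w z`, `x ∈ (X₁, 2 X₁]` (`(M y, z) = 1`); these terms contribute at most
`2^(-J) |TT| (2 X₁ / Q^J) N₂`. (2) For `I ≠ ∅` and `t` with `|Dl M I t| < M Q^(2J) / √Q`: by
`2 |a b| ≤ |a|^2 + |b|^2` and (1) at most `(2 X₁ / Q^J) N₂` for every `t`; number of `t`: DEG.
(3) For the other `t` use PAIR with `y' = yy (sw I t)`, ...: `Δ X₁ / (z H) ≥ 1` so the first bracket is at
most `2 Δ X₁ / (Q^J H)`, and by EFT `Δ En i = ∑_{q ∣ Δ} ∑_a |ft|^2`, all `q ∣ Δ` are at most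
`8 M Q^(2J) ≤ G`; the second bracket is at most `20 X₁ / Q^(2J - 1/2) ≤ 20 (X₁ / Q^J) / Q`. Sum over
`t`: `(2 X₁ / (Q^J H)) ∑_i ∑_{q ≤ G} ∑_a |ft φ H i (a/q)|^2 #{t : q ∣ Dl M I t}`; for active `q` the
number is at most `π |P|^(2J)` and LSB gives `6 H N₂`; for the others use `τ`. -/
def S_VB : Prop := ∀ (C : ℝ) (Q J M X₁ H W B G : ℕ) (P : Finset ℕ) (φ : ℕ → ℂ) (π τ : ℝ)
  (act : Finset ℕ), GoodP C Q J P → 2 ≤ J → 16 ≤ Q → 1 ≤ M → (∀ p ∈ M.primeFactors, p ≤ Q) →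
  1 ≤ H → 0 ≤ π → 0 ≤ τ → 8 * M * Q ^ (2 * J) ≤ G → G ^ 2 ≤ H → H ≤ 2 * X₁ → X₁ ≤ 2 * H →
  (∀ n, φ n ≠ 0 → n < B ∧ 6 * M * X₁ * Q ^ J < n ∧ n ≤ W * Q ^ J) →
  (∀ I : Finset (Fin J), I.Nonempty → ∀ q ∈ act,
    (((TT P J).filter (fun t => (q : ℤ) ∣ Dl M I t)).card : ℝ) ≤ π * (P.card : ℝ) ^ (2 * J)) →
  (∀ q ∈ Icc 1 G, q ∉ act → ∀ a ∈ cop q, ∀ i, ‖ft φ H i ((a : ℝ) / q)‖ ^ 2 ≤ τ) →
  VV M J P X₁ W φ ≤ (P.card : ℝ) ^ (2 * J) * (X₁ / (Q : ℝ) ^ J) *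
    ((2 / 2 ^ J + 12 * π + 4 * Real.sqrt Q / P.card + 20 / Q) * ∑ n ∈ range B, ‖φ n‖ ^ 2 +
      2 * ((B : ℝ) / H + 1) * (G : ℝ) ^ 2 * τ / H)

def M_VB : Prop := S_SWA → S_TB → S_DEG → S_VSY → S_EFT → S_LSB → S_PAIR → S_VB

/-! ## 5. Projections -/

/-- Projection (approximately) to the frequencies `a / q`, `q ∈ 𝒬`, on the blocks of length `H`. -/
def PQ (𝒬 : Finset ℕ) (H : ℕ) (α : ℕ → ℂ) (n : ℕ) : ℂ :=
  (1 / H : ℂ) * ∑ q ∈ 𝒬, ∑ a ∈ cop q, ft α H (n / H) ((a : ℝ) / q) * e ((n : ℝ) * ((a : ℝ) / q))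

/-- Conditional expectation on the classes modulo `M₁` in the blocks of length `H`. -/
def EC (M₁ H : ℕ) (α : ℕ → ℝ) (n : ℕ) : ℝ :=
  ((M₁ : ℝ) / H) * ∑ n' ∈ (Ico (n / H * H) (n / H * H + H)).filter (fun n' => n' ≡ n [MOD M₁]), α n'

/-- E1. PROOF. Distinct fractions `a/q`, `a'/q'` with denominators `≤ G` have distance `≥ 1/G^2` modulo
1, geometric sums at most `G^2 / 2`, at most `G^2` fractions, `|ft α| ≤ H`. -/
def S_E1 : Prop := ∀ (𝒬 : Finset ℕ) (G H i : ℕ) (α : ℕ → ℂ), 1 ≤ H → (∀ n, ‖α n‖ ≤ 1) →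
  (∀ q ∈ 𝒬, 1 ≤ q ∧ q ≤ G) → ∀ q ∈ Icc 1 G, ∀ a ∈ cop q,
  ‖ft (PQ 𝒬 H α) H i ((a : ℝ) / q) - (if q ∈ 𝒬 then ft α H i ((a : ℝ) / q) else 0)‖ ≤ (G : ℝ) ^ 4

/-- E2. PROOF. By the dual large sieve (`dual_ineq`, `kernel_row_sum`; the middle of the proof of
`Lib_helper77.EF.ls`, `hdual`) `∑_{n in the block} |PQ|^2 ≤ H^(-2) 6 H ∑ |ft α|^2`, and by `ls` the last
sum is at most `6 H ∑ |α|^2`. -/
def S_E2 : Prop := ∀ (𝒬 : Finset ℕ) (G H i : ℕ) (α : ℕ → ℂ), 1 ≤ H → G ^ 2 ≤ H →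
  (∀ q ∈ 𝒬, 1 ≤ q ∧ q ≤ G) →
  ∑ n ∈ Ico (i * H) (i * H + H), ‖PQ 𝒬 H α n‖ ^ 2 ≤ 36 * ∑ n ∈ Ico (i * H) (i * H + H), ‖α n‖ ^ 2

/-- E4. PROOF. `∑_{q ∣ M₁} ∑_{a ∈ cop q} e (k a / q) = ∑_{b < M₁} e (k b / M₁)` is `M₁` if `M₁ ∣ k` and `0`
otherwise. -/
def S_E4 : Prop := ∀ (M₁ H : ℕ) (α : ℕ → ℝ) (n : ℕ), 1 ≤ M₁ → 1 ≤ H →
  PQ M₁.divisors H (fun n => (α n : ℂ)) n = (EC M₁ H α n : ℂ)

/-- EN: the energy argument. PROOF. The functions `F_j = EC M₁ (M₁ 2^j) α` are the conditional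
expectations of `α` on a decreasing chain of partitions (the atoms `block × class` for `j + 1` are
unions of two atoms for `j`); so `⟨F_a - F_b, F_a' - F_b'⟩ = 0` for `a ≤ b ≤ a' ≤ b'` and
`∑ F_a^2 = ∑ F_b^2 + ∑ (F_a - F_b)^2` for `a ≤ b`, `∑ F_a^2 ≤ ∑ α^2`. All sums are over `range B` with
`B` a multiple of all the block lengths. Hence
`∑_k ∑ (F_{a k} - F_{b k})^2 ≤ ∑_k (∑ F_{a k}^2 - ∑ F_{b k}^2) ≤ ∑ α^2`. -/
def S_EN : Prop := ∀ (M₁ K B : ℕ) (α : ℕ → ℝ) (a b : ℕ → ℕ), 1 ≤ M₁ → (∀ k, a k ≤ b k) →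
  (∀ k, b k ≤ a (k + 1)) → M₁ * 2 ^ (b K) ∣ B →
  ∑ k ∈ range (K + 1), ∑ n ∈ range B, (EC M₁ (M₁ * 2 ^ (a k)) α n - EC M₁ (M₁ * 2 ^ (b k)) α n) ^ 2 ≤
    ∑ n ∈ range B, α n ^ 2

end

end MUR
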