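import Mathlib
import Pool.Agent.MUR.StB
import Pool.Agent.MUR.StC

set_option autoImplicit false

/-!
# Project MUR: configurations, the error terms S1, S2, S3
-/

namespace MUR

open Finset IPR
open Pool.Agent.Lib_helper83.EF (e)

noncomputable section

/-! ## 6. Configurations -/

/-- The product of the primes up to `R`. -/
def pri (R : ℕ) : ℕ := ∏ p ∈ (Icc 1 R).filter Nat.Prime, p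

/-- `M₁ = M * lcm (1, ..., R)`. -/
def MM1 (R : ℕ) : ℕ := pri R * (Icc 1 R).lcm id

/-- The block lengths: `M₁` times a power of two, in `(X^(1-d) / 2, X^(1-d)]`. -/
def HL (M₁ X : ℕ) (d : ℝ) : ℕ := M₁ * 2 ^ Nat.log 2 (⌊(X : ℝ) ^ (1 - d)⌋₊ / M₁)

/-- A configuration at the scale `X^(1-d)`. -/
structure Cfg (C₁ : ℝ) (R₁ X J Q X₁ H W : ℕ) (d : ℝ) (P : Finset ℕ) : Prop where
  R2 : 2 ≤ R₁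
  d0 : 0 < d
  d1 : d ≤ 1 / 100
  good : GoodP C₁ Q J P
  J2 : 2 ≤ J
  Jlo : Real.log X ^ (13 / 10 : ℝ) ≤ 2 ^ J
  Jhi : (J : ℝ) ≤ 3 * Real.log (Real.log X)
  Qlo : Real.log X ^ 100 ≤ Q
  Qhi : (Q : ℝ) ≤ 3 * Real.log X ^ 100
  sml : ((16 * MM1 R₁ * Q : ℕ) : ℝ) ^ (20 * J) ≤ (X : ℝ) ^ (d / 1000)
  X₁lo : (X : ℝ) ^ (1 - d) ≤ 2 * X₁
  X₁hi : (X₁ : ℝ) ≤ (X : ℝ) ^ (1 - d)
  X₁p : ∃ b, X₁ = 2 ^ b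
  HH : H = HL (MM1 R₁) X d
  Wlo : 3 * X ≤ W * Q ^ J
  Whi : W * Q ^ J ≤ 7 * X
  Wp : ∃ b, W = 2 ^ b

/-- CFG: existence. PROOF. `J = ⌈2 log log X⌉` (`2^(2 log log X) = (log X)^(2 log 2)`,
`2 log 2 > 1.38`), `Q₀ = ⌈(log X)^100⌉`, PS gives `Q, P`; `X₁` the largest power of two up to `X^(1-d)`,
`W` the smallest power of two `≥ 3 X / Q^J`. `sml`: the left side is
`exp (20 J (log (16 M₁) + log Q)) ≤ exp (C (log log X)^2)`. -/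
def S_CFG : Prop := ∃ C₁ : ℝ, 0 < C₁ ∧ ∀ (R₁ : ℕ) (d : ℝ), 2 ≤ R₁ → 0 < d → d ≤ 1 / 100 →
  ∃ X₀ : ℕ, ∀ X : ℕ, X₀ ≤ X → ∃ (J Q X₁ H W : ℕ) (P : Finset ℕ), Cfg C₁ R₁ X J Q X₁ H W d P

def M_CFG : Prop := S_PS → S_CFG

/-- CF: consequences used everywhere; `K₀` is an arbitrary constant. PROOF. Routine. The last but one:
`x / φ x = ∏ (1 + 1 / (p - 1)) ≤ (1 + 1 / (3Q))^(number of prime factors) ≤ exp (2 log X / (3 Q)) ≤ 2`. -/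
def S_CF : Prop := ∀ C₁ : ℝ, 0 < C₁ → ∀ (R₁ : ℕ) (d K₀ : ℝ), ∃ X₀ : ℕ, ∀ X : ℕ, X₀ ≤ X →
  ∀ (J Q X₁ H W : ℕ) (P : Finset ℕ), Cfg C₁ R₁ X J Q X₁ H W d P →
  K₀ ≤ Real.log (Real.log X) ∧ 1 ≤ Real.log (Real.log X) ∧
  (∀ p : ℕ, p.Prime → (p ∣ MM1 R₁ ↔ p ≤ R₁)) ∧ (∀ p ∈ (pri R₁).primeFactors, p ≤ R₁) ∧
  1 ≤ pri R₁ ∧ pri R₁ ∣ MM1 R₁ ∧ 1 ≤ MM1 R₁ ∧ MM1 R₁ ≤ Q ∧ 3 * R₁ ≤ Q ∧
  MM1 R₁ ∣ H ∧ (X : ℝ) ^ (1 - d) < 2 * H ∧ (H : ℝ) ≤ (X : ℝ) ^ (1 - d) ∧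
  MM1 R₁ ∣ HL (MM1 R₁) X (d / 100) ∧ (X : ℝ) ^ (1 - d / 100) < 2 * HL (MM1 R₁) X (d / 100) ∧
  ((HL (MM1 R₁) X (d / 100) : ℕ) : ℝ) ≤ (X : ℝ) ^ (1 - d / 100) ∧
  (Q : ℝ) ^ (9 / 10 : ℝ) ≤ P.card ∧ P.card ≤ Q ∧ 4 * J ^ 2 ≤ P.card ∧ 16 ≤ Q ∧ 4 * J ≤ Q ∧
  ((16 * MM1 R₁ * Q ^ (2 * J) : ℕ) : ℝ) ^ 10 ≤ (X : ℝ) ^ (d / 1000) ∧
  (∀ x ∈ XX X₁ (3 * Q), x ≤ 2 * x.totient) ∧
  100 * Real.log (Real.log X) ≤ Real.log (3 * Q) ∧ Real.log (3 * Q) ≤ 102 * Real.log (Real.log X)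

/-- LLC: LLB in a configuration, `z = ⌊X^(1/100)⌋`. -/
def S_LLC : Prop := ∀ C₁ : ℝ, 0 < C₁ → ∃ C : ℝ, 0 < C ∧ ∀ (R₁ : ℕ) (d : ℝ), ∃ X₀ : ℕ, ∀ X : ℕ, X₀ ≤ X →
  ∀ (J Q X₁ H W : ℕ) (P : Finset ℕ) (s : ℤ), Cfg C₁ R₁ X J Q X₁ H W d P → (s = 1 ∨ s = -1) →
  ∀ t ∈ TT P J, ∀ x ∈ XX X₁ (3 * Q), ∀ w₀ L c : ℕ, (X : ℝ) ^ (1 / 2 : ℝ) ≤ L → w₀ + L ≤ 2 * W →
  ∑ w ∈ (Ioc w₀ (w₀ + L)).filter (fun w => w ≡ c [MOD MM1 R₁]), LL (mv s (pri R₁ * DD t * x * w)) ≤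
    C * Real.log R₁ * (L / MM1 R₁) ∧
  ∑ w ∈ Ioc w₀ (w₀ + L), LL (mv s (pri R₁ * DD t * x * w)) ≤ C * Real.log R₁ * L

def M_LLC : Prop := S_LLB → S_SWA → S_TB → S_CF → S_LLC

/-- XXC: the number of `x`. -/
def S_XXC : Prop := ∀ C₁ : ℝ, 0 < C₁ → ∃ C : ℝ, 0 < C ∧ ∀ (R₁ : ℕ) (d : ℝ), ∃ X₀ : ℕ, ∀ X : ℕ, X₀ ≤ X →
  ∀ (J Q X₁ H W : ℕ) (P : Finset ℕ), Cfg C₁ R₁ X J Q X₁ H W d P →
  ((XX X₁ (3 * Q)).card : ℝ) ≤ C * X₁ / Real.log (Real.log X)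

def M_XXC : Prop := S_XC → S_CF → S_XXC

/-- The normalizing quantity. -/
def KK (X J Q X₁ : ℕ) (P : Finset ℕ) : ℝ := (P.card : ℝ) ^ (2 * J) * X₁ * X / (Q : ℝ) ^ J

/-- TOT: the total mass. PROOF. LLC with `w₀ = 0`, `L = W`; `W ≤ 7 X / Q^J`, XXC, `|TT| ≤ |P|^(2J)`. -/
def S_TOT : Prop := ∀ C₁ : ℝ, 0 < C₁ → ∃ C : ℝ, 0 < C ∧ ∀ (R₁ : ℕ) (d : ℝ), ∃ X₀ : ℕ, ∀ X : ℕ, X₀ ≤ X →
  ∀ (J Q X₁ H W : ℕ) (P : Finset ℕ) (s : ℤ), Cfg C₁ R₁ X J Q X₁ H W d P → (s = 1 ∨ s = -1) →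
  ∑ t ∈ TT P J, ∑ x ∈ XX X₁ (3 * Q), ∑ w ∈ Ioc 0 W, LL (mv s (pri R₁ * DD t * x * w)) ≤
    C * Real.log R₁ * KK X J Q X₁ P / Real.log (Real.log X)

def M_TOT : Prop := S_LLC → S_XXC → S_SWA → S_TB → S_CF → S_TOT

/-- NEAR: few points near the ends of the blocks. PROOF. For fixed `x` the `w` with
`(M x y + w z) % H < δ` lie in at most `(4 X + ...) / H + 2 ≤ 9 W Q^J / H` intervals (one for every multiple of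
`H` up to `2 X₁ M 3 Q^J + W 3 Q^J ≤ 4 W Q^J`) of length at most `δ / z + 1`; enlarge the intervals to
length `L = ⌈2 δ / Q^J⌉ ≥ X^(1/2)` and use LLC for the first sum. -/
def S_NEAR : Prop := ∀ C₁ : ℝ, 0 < C₁ → ∃ C : ℝ, 0 < C ∧ ∀ (R₁ : ℕ) (d : ℝ), ∃ X₀ : ℕ, ∀ X : ℕ, X₀ ≤ X →
  ∀ (J Q X₁ H W : ℕ) (P : Finset ℕ) (s : ℤ), Cfg C₁ R₁ X J Q X₁ H W d P → (s = 1 ∨ s = -1) →
  ∀ t ∈ TT P J, ∀ δ : ℕ, (X : ℝ) ^ (3 / 5 : ℝ) ≤ δ → δ ≤ H →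
  ∑ x ∈ XX X₁ (3 * Q), ∑ w ∈ (Ioc 0 W).filter (fun w => (pri R₁ * x * yy t + w * zz t) % H < δ),
    LL (mv s (pri R₁ * DD t * x * w)) ≤
      C * Real.log R₁ * (XX X₁ (3 * Q)).card * W * ((δ : ℝ) / H) ∧
  ∑ x ∈ Ioc X₁ (2 * X₁),
    (((Ioc 0 W).filter (fun w => (pri R₁ * x * yy t + w * zz t) % H < δ)).card : ℝ) ≤
      C * X₁ * W * ((δ : ℝ) / H)

def M_NEAR : Prop := S_LLC → S_SWA → S_TB → S_CF → S_NEAR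

/-- F2: the sieve bound for the mean over the exchanges of a projection to small moduli.
PROOF. `M = pri R₁`, `φ = PQ 𝒬 H α`, `|φ| ≤ Φ = (2 M R')^2` (there are at most `Φ` fractions, `|ft| ≤ H`).
Put `δ = ⌊H / (log X)^60⌋` and let `ξ, ω` be powers of two with
`3 Q^J (M ξ + ω) ≤ δ`, `ξ, ω ≥ X^(1/2)`; they divide `X₁` and `W`. Cut `(X₁, 2 X₁] × (0, W]` into boxes
`(x₀, x₀ + ξ] × (w₀, w₀ + ω]`. On a box let `i_I` be the block index of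
`n_I = M x yy (sw I t) + w zz (sw I t)` at the corner `(x₀ + 1, w₀ + 1)` and
`g (x, w) = 2^(-J) ∑_I H⁻¹ ∑_{q ∈ 𝒬} ∑_a ft α H i_I (a/q) e (n_I a / q)`, for all natural `x, w`. It is `Trig (2 M R') (2 R')`
in each variable (`e (b x / q)` with an integer `b` reduces to a fraction with denominator dividing `q`).
If `n_I (x, w)` is not in the block `i_I` then `n_I (x, w) % H < δ`; so on the box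
`|AA - g|^2 ≤ 4 Φ^2 2^(-J) ∑_I 1[n_I % H < δ]` (Cauchy-Schwarz). BOX (`R = 2 R'`, `G = 2 M R'`,
`z = ⌊X^(1/100)⌋`, `z₀ = 3 Q`) for `g` on every box; sum; NEAR for all `sw I t`
(`DD (sw I t) = DD t`). The error `Φ^4 (log X)^(-60) X₁ W` is much smaller than `X₁ W / (log X)^11`. -/
def S_F2 : Prop := ∀ C₁ : ℝ, 0 < C₁ → ∃ C : ℝ, 0 < C ∧ ∀ (R₁ : ℕ) (d : ℝ), ∃ X₀ : ℕ, ∀ X : ℕ, X₀ ≤ X →
  ∀ (J Q X₁ H W : ℕ) (P : Finset ℕ) (s : ℤ), Cfg C₁ R₁ X J Q X₁ H W d P → (s = 1 ∨ s = -1) →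
  ∀ (R' : ℕ) (𝒬 : Finset ℕ) (α : ℕ → ℂ), R₁ ≤ R' → (R' : ℝ) ≤ 2 * Real.log X ^ 6 →
  (∀ q ∈ 𝒬, 1 ≤ q ∧ q ≤ 2 * pri R₁ * R' ∧ ∀ p ∈ q.primeFactors, p ≤ 2 * R') → (∀ n, ‖α n‖ ≤ 1) →
  ∀ t ∈ TT P J,
  ∑ x ∈ XX X₁ (3 * Q), ∑ w ∈ Ioc 0 W, LL (mv s (pri R₁ * DD t * x * w)) *
      ‖AA (pri R₁) (PQ 𝒬 H α) t x w‖ ^ 2 ≤
    C * Real.log R' ^ 2 / Real.log (Real.log X) *
      (∑ x ∈ Ioc X₁ (2 * X₁), ∑ w ∈ Ioc 0 W, ‖AA (pri R₁) (PQ 𝒬 H α) t x w‖ ^ 2 +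
        (X₁ : ℝ) * W / Real.log X ^ 10)

def M_F2 : Prop := S_BOX → S_NEAR → S_XXC → S_SWA → S_TB → S_CF → S_F2

/-- DIV: the divisor bound. PROOF. `τ k ≤ C k^(1/6)` (the usual proof: for `p ≥ 2^6` one has
`a + 1 ≤ 2^a ≤ p^(a/6)`, the finitely many other primes give a constant), `k ≤ τ k φ k`
(`Lib_helper72.AS.le_card_divisors_mul_totient`). -/
def S_DIV : Prop := ∃ C : ℝ, 0 < C ∧ ∀ k : ℕ, 1 ≤ k →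
  (k.divisors.card : ℝ) ^ 2 ≤ C * (k : ℝ) ^ (1 / 2 : ℝ) ∧
  (k.divisors.card : ℝ) ^ 2 / k.totient ≤ C * (k : ℝ) ^ (-(1 / 2 : ℝ))

/-- SHP. PROOF. If a prime `l ≥ √q₀` divides `q'` take `k = l`; otherwise multiply prime factors of `q'`
(with multiplicity) one at a time until the product is at least `√q₀`. -/
def S_SHP : Prop := ∀ q₀ q' : ℕ, 1 ≤ q₀ → q₀ < q' → ∃ k : ℕ, 1 ≤ k ∧ k ∣ q' ∧ q₀ ≤ k ^ 2 ∧ (k ≤ q₀ ∨ k.Prime)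

/-- The moduli `q` with `q / gcd (q, M) ≤ q₀`. -/
def QM (M q₀ : ℕ) : Finset ℕ := (Icc 1 (M * q₀)).filter (fun q => q / q.gcd M ≤ q₀)

/-- The moduli `q` not dividing `M₁` with `A < q / gcd (q, M) ≤ B`. -/
def QS (M M₁ A B : ℕ) : Finset ℕ :=
  (Icc 1 (M * B)).filter (fun q => ¬ q ∣ M₁ ∧ A < q / q.gcd M ∧ q / q.gcd M ≤ B)

/-- S1: the part of large denominators.
PROOF. `φ = α - PQ (QM M q₀) H α`. By SYM and Cauchy-Schwarz `|TF|^2 ≤ (∑ LL^2) VV`, the first sum over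
`t, x ∈ XX, w` at most `3 log X` times TOT (`mv ≤ X^3`). VV: VB with `G = 16 M₁ Q^(2J)`, `B = 3 X`,
`act = Icc 1 G \ QM`, `τ = G^8` (E1; for `q ∈ QM` the coefficient of `φ` is at most `G^4`);
for `q ∈ act` one has `q / gcd (q, M) > q₀` and with `k` from SHP, PI gives
`π = 8 J^2 / |P| + 2 C₁ (τ(k)^2 / φ k + τ(k)^2 Q^(-1/3)) ≤ C (log X)^(-3/2)` (DIV; `k ≥ (log X)^3`; for `k`
prime `τ k = 2`); `∑ |φ|^2 ≤ 74 X` (E2 on every block). So `VV ≤ C KK (log X)^(-13/10)`. The support of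
`φ` is in the blocks that meet `(X, 2X]`. -/
def S_S1 : Prop := ∀ C₁ : ℝ, 0 < C₁ → ∀ (R₁ : ℕ) (d : ℝ), ∃ X₀ : ℕ, ∀ X : ℕ, X₀ ≤ X →
  ∀ (J Q X₁ H W : ℕ) (P : Finset ℕ) (s : ℤ), Cfg C₁ R₁ X J Q X₁ H W d P → (s = 1 ∨ s = -1) →
  ∀ (q₀ : ℕ) (α : ℕ → ℂ), Real.log X ^ 6 ≤ q₀ → (q₀ : ℝ) ≤ 2 * Real.log X ^ 6 →
  (∀ n, ‖α n‖ ≤ 1) → (∀ n, α n ≠ 0 → X < n ∧ n ≤ 2 * X) →
  ‖TF s (pri R₁) J P (XX X₁ (3 * Q)) W (fun n => α n - PQ (QM (pri R₁) q₀) H α n)‖ ≤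
    KK X J Q X₁ P / Real.log X ^ (1 / 10 : ℝ)

def M_S1 : Prop := S_SYM → S_TOT → S_VB → S_E1 → S_E2 → S_PI → S_SHP → S_DIV → S_CF → S_S1

/-- S2: the middle range of denominators.
PROOF. `φ = PQ (QS M M₁ R' (2R')) H α`, `|TF|^2 ≤ (∑ LL) (∑ LL |AA|^2)` (SYM, Cauchy-Schwarz), TOT, F2
summed over `t ∈ TT`, and VB with `act = QS ..`, `τ = G^8` (E1), `π ≤ C (R'^(-1/2) + (log X)^(-20))` by PI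
with `k = q / gcd (q, M) > R'` and DIV; `∑ |φ|^2 ≤ 36 X`. The prime factors of
`q ∈ QS M M₁ R' (2R')` are at most `max R₁ (2 R')`. -/
def S_S2 : Prop := ∀ C₁ : ℝ, 0 < C₁ → ∃ C : ℝ, 0 < C ∧ ∀ (R₁ : ℕ) (d : ℝ), ∃ X₀ : ℕ, ∀ X : ℕ, X₀ ≤ X →
  ∀ (J Q X₁ H W : ℕ) (P : Finset ℕ) (s : ℤ), Cfg C₁ R₁ X J Q X₁ H W d P → (s = 1 ∨ s = -1) →
  ∀ (R' : ℕ) (α : ℕ → ℂ), R₁ ≤ R' → (R' : ℝ) ≤ 2 * Real.log X ^ 6 →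
  (∀ n, ‖α n‖ ≤ 1) → (∀ n, α n ≠ 0 → X < n ∧ n ≤ 2 * X) →
  ‖TF s (pri R₁) J P (XX X₁ (3 * Q)) W (PQ (QS (pri R₁) (MM1 R₁) R' (2 * R')) H α)‖ ≤
    C * Real.sqrt (Real.log R₁) * Real.log R' *
      ((R' : ℝ) ^ (-(1 / 4 : ℝ)) + Real.log X ^ (-(1 / 2 : ℝ))) * KK X J Q X₁ P / Real.log (Real.log X)

def M_S2 : Prop := S_SYM → S_TOT → S_F2 → S_VB → S_E1 → S_E2 → S_PI → S_DIV → S_CF → S_S2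

/-- S3: functions constant on blocks and classes.
PROOF. `|TF| ≤ (∑ LL)^(1/2) (∑ LL G^2)^(1/2)`, the first by TOT. For fixed `t, x`, a block `i` and a
class `ν` modulo `M₁ = MM1 R₁` the `w` with `M x y + w z` in the block and `≡ ν` lie in an interval of
length `L = ⌊H / z⌋ + 1` and in one class modulo `M₁` (`z` is prime to `M₁`), so by LLC the sum over them
is at most `C log R₁ (2 H / (Q^J M₁)) γ(i, ν)^2`, and `∑_{i, ν} γ(i, ν)^2 H / M₁ = ∑ G^2`. Then XXC. -/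
def S_S3 : Prop := ∀ C₁ : ℝ, 0 < C₁ → ∃ C : ℝ, 0 < C ∧ ∀ (R₁ : ℕ) (d : ℝ), ∃ X₀ : ℕ, ∀ X : ℕ, X₀ ≤ X →
  ∀ (J Q X₁ H W : ℕ) (P : Finset ℕ) (s : ℤ), Cfg C₁ R₁ X J Q X₁ H W d P → (s = 1 ∨ s = -1) →
  ∀ G : ℕ → ℝ, (∀ n n' : ℕ, n / H = n' / H → n ≡ n' [MOD MM1 R₁] → G n = G n') →
  (∀ n, G n ≠ 0 → n < 3 * X) →
  ‖TF s (pri R₁) J P (XX X₁ (3 * Q)) W (fun n => (G n : ℂ))‖ ≤
    C * Real.log R₁ * Real.sqrt ((∑ n ∈ range (4 * X), G n ^ 2) / X) * KK X J Q X₁ P /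
      Real.log (Real.log X)

def M_S3 : Prop := S_TOT → S_LLC → S_XXC → S_SWA → S_TB → S_CF → S_S3

end

end MUR
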