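import Mathlib
import Pool.Agent.MUR.StD

set_option autoImplicit false

/-!
# Project MUR: the main term and the conclusion
-/

namespace MUR

open Finset IPR
open Pool.Agent.Lib_helper83.EF (e)

noncomputable section

/-! ## 7. The main term -/

/-- EXP: expansion of a congruence condition in discrepancy functions.
PROOF. For every prime `l ∣ x`: `1[n ≡ r (l)] = wt l r n + 1 / (l - 1)` as `l ∤ n`; multiply out;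
`∏_{l ∣ x/u} 1 / (l - 1) = 1 / φ (x / u)`. -/
def S_EXP : Prop := ∀ (x n : ℕ) (r : ℤ), Squarefree x → n.Coprime x →
  (if ((n : ℕ) : ZMod x) = ((r : ℤ) : ZMod x) then (1 : ℝ) else 0) =
    ∑ u ∈ x.divisors, ps u r n / ((x / u).totient : ℝ)

/-- The squarefree numbers in `[2^i, 2^(i+1))` without prime factors up to `z₀`. -/
def UU (z₀ i : ℕ) : Finset ℕ :=
  (Ico (2 ^ i) (2 ^ (i + 1))).filter (fun u => Squarefree u ∧ ∀ p ∈ u.primeFactors, z₀ < p)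

/-- DYA. PROOF. Write `x = u x'`; for `u ∈ [2^i, 2^(i+1))` there are at most `Δ / 2^i + 1` possible `x'`,
each at least `X₁ / 2^(i+1)`, and `1 / φ x' ≤ 2 / x'` (a divisor of `x`). And `z₀ < u < 2^(i+1)`. -/
def S_DYA : Prop := ∀ (X₁ A Δ z₀ : ℕ) (E : ℕ → ℝ), (∀ u, 0 ≤ E u) → 1 ≤ Δ → 1 ≤ X₁ → X₁ ≤ A →
  A + Δ ≤ 2 * X₁ → (∀ x ∈ XX X₁ z₀, x ≤ 2 * x.totient) →
  ∑ x ∈ (XX X₁ z₀).filter (fun x => A < x ∧ x ≤ A + Δ), ∑ u ∈ x.divisors.erase 1,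
      E u / ((x / u).totient : ℝ) ≤
    ∑ i ∈ range (Nat.log 2 (2 * X₁) + 1), (if z₀ < 2 ^ (i + 1) then
      4 * ((Δ : ℝ) / X₁ + 2 ^ i / X₁) * ∑ u ∈ UU z₀ i, E u else 0)

/-- The class modulo `M M₁` of `M D x w + s` if `x ≡ ξ`, `M x y + w z ≡ ν` modulo `M₁`, `D = y z`. -/
def cl (s : ℤ) (M M₁ y ν ξ : ℕ) : ℕ :=
  (((M : ℤ) * ((y : ℤ) * ξ * ((ν : ℤ) - (M : ℤ) * ξ * y)) + s) % ((M * M₁ : ℕ) : ℤ)).toNat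

/-- The numbers `w` counted for the window `[N₁, N₁ + H')` and the class `ν`. -/
def WW {J : ℕ} (M M₁ H' W N₁ ν : ℕ) (t : Fin J → ℕ × ℕ) (x : ℕ) : Finset ℕ :=
  (Ioc 0 W).filter (fun w => N₁ ≤ M * x * yy t + w * zz t ∧ M * x * yy t + w * zz t < N₁ + H' ∧
    M * x * yy t + w * zz t ≡ ν [MOD M₁])

/-- MT1: from `w` to the primes. PROOF. For a prime `m` in the right sum put
`w = (m - s) / (M D x)`: `m - s` is divisible by `M` (as `cl ≡ s` modulo `M`), by `D` and by `x`, which are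
pairwise coprime. `D x w ≡ y ξ (ν - M ξ y)` modulo `M₁` and `D x = y z x`, so `z w ≡ ν - M x y` modulo `M₁`.
`a ≥ N₁ M y (A₀ + Δ)` gives `w z ≥ N₁`, and `b + 1 ≤ (N₁ + H'/2) M y A₀` gives `w z ≤ N₁ + H'/2`, while
`M x y < H'/2`. The map `m ↦ w` is injective and `mv s (M D x w) = m`. -/
def S_MT1 : Prop := ∀ C₁ : ℝ, 0 < C₁ → ∀ (R₁ : ℕ) (d : ℝ), ∃ X₀ : ℕ, ∀ X : ℕ, X₀ ≤ X →
  ∀ (J Q X₁ H W : ℕ) (P : Finset ℕ) (s : ℤ), Cfg C₁ R₁ X J Q X₁ H W d P → (s = 1 ∨ s = -1) →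
  ∀ t ∈ TT P J, ∀ x ∈ XX X₁ (3 * Q), ∀ N₁ ν A₀ Δ a b : ℕ, X ≤ 2 * N₁ → N₁ ≤ 2 * X →
  A₀ < x → x ≤ A₀ + Δ → N₁ * pri R₁ * yy t * (A₀ + Δ) ≤ a →
  b + 1 ≤ (N₁ + HL (MM1 R₁) X (d / 100) / 2) * pri R₁ * yy t * A₀ →
  ∑ m ∈ (Ioc a b).filter (fun m =>
      m ≡ cl s (pri R₁) (MM1 R₁) (yy t) ν (x % MM1 R₁) [MOD pri R₁ * MM1 R₁] ∧
      ((m : ℕ) : ZMod (DD t)) = ((s : ℤ) : ZMod (DD t)) ∧ ((m : ℕ) : ZMod x) = ((s : ℤ) : ZMod x)), LL m ≤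
    ∑ w ∈ WW (pri R₁) (MM1 R₁) (HL (MM1 R₁) X (d / 100)) W N₁ ν t x,
      LL (mv s (pri R₁ * DD t * x * w))

def M_MT1 : Prop := S_SWA → S_TB → S_CF → S_MT1

/-- MT2: expansion for `x`, for a set `Xb` of numbers `x` in one class `ξ`. `c'` is the class modulo
`M M₁ D` that is `c` modulo `M M₁` and `s` modulo `D`. PROOF. EXP for every prime `m ∈ (a, b]` (prime to
`x` as `m > a ≥ x`): the term `u = 1` gives `1 / φ x`; `dsp` is the sum over `m ≡ c' (f)`. -/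
def S_MT2 : Prop := ∀ (f₁ D c c' a b : ℕ) (s : ℤ) (Xb : Finset ℕ), 1 ≤ f₁ → 1 ≤ D → f₁.Coprime D →
  c' ≡ c [MOD f₁] → ((c' : ℕ) : ZMod D) = ((s : ℤ) : ZMod D) →
  (∀ x ∈ Xb, Squarefree x ∧ 1 ≤ x ∧ x ≤ a) →
  (∑ x ∈ Xb, 1 / (x.totient : ℝ)) * ∑ m ∈ (Ioc a b).filter (fun m => m ≡ c [MOD f₁] ∧
      ((m : ℕ) : ZMod D) = ((s : ℤ) : ZMod D)), LL m -
    ∑ x ∈ Xb, ∑ u ∈ x.divisors.erase 1, |dsp (f₁ * D) c' u s a b| / ((x / u).totient : ℝ) ≤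
  ∑ x ∈ Xb, ∑ m ∈ (Ioc a b).filter (fun m => m ≡ c [MOD f₁] ∧
      ((m : ℕ) : ZMod D) = ((s : ℤ) : ZMod D) ∧ ((m : ℕ) : ZMod x) = ((s : ℤ) : ZMod x)), LL m

def M_MT2 : Prop := S_EXP → S_MT2

/-- MT3: the error of the expansion for `x`, for one short interval of `x` and one interval of primes.
`E u` bounds the discrepancies of all classes modulo `f = M M₁ D`.
PROOF. `E u` = the maximum of `|dsp f c u s a b|` over `c < f` prime to `f` if `u` is squarefree with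
`UnitM s u`, `u` prime to `f` and `u ≤ 2 X₁`; (the classes `c` matter only modulo `f`). DYA with
`z₀ = 3 Q`; for every `i` BVG for the family `UU (3Q) i` (`U = 2^i`, prime factors `> 3Q`, so coprime to
`f`), `ϖ = d / 5`, `Y = b`: `2^i ≤ 2 X₁ ≤ 2 X^(1-d) ≤ b^(1/2 - d/5)` as `b ≥ X^(2 - 101 d / 100)`, and
`b^(1 - d/30) ≤ X^(2 - d - 6 d / 100)` as `b ≤ X^(2 - d + d / 500)`. Sum over
`i`: `∑_i (Δ/X₁ + 2^i/X₁) 2^(-i/2) ≤ 4 Δ / (X₁ √(3Q)) + 8 / √X₁`. -/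
def S_MT3 : Prop := ∀ C₁ : ℝ, 0 < C₁ → ∀ (R₁ : ℕ) (d : ℝ), ∃ X₀ : ℕ, ∀ X : ℕ, X₀ ≤ X →
  ∀ (J Q X₁ H W : ℕ) (P : Finset ℕ) (s : ℤ), Cfg C₁ R₁ X J Q X₁ H W d P → (s = 1 ∨ s = -1) →
  ∀ t ∈ TT P J, ∀ A₀ Δ a b : ℕ, 1 ≤ Δ → X₁ ≤ A₀ → A₀ + Δ ≤ 2 * X₁ → a ≤ b →
  (X : ℝ) ^ (2 - 101 / 100 * d) ≤ b → (b : ℝ) ≤ (X : ℝ) ^ (2 - d + d / 500) →
  ∃ E : ℕ → ℝ, (∀ u, 0 ≤ E u) ∧
    (∀ x ∈ XX X₁ (3 * Q), ∀ u ∈ x.divisors, ∀ c : ℕ, c.Coprime (pri R₁ * MM1 R₁ * DD t) → u ≠ 1 →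
      |dsp (pri R₁ * MM1 R₁ * DD t) c u s a b| ≤ E u) ∧
    ∑ x ∈ (XX X₁ (3 * Q)).filter (fun x => A₀ < x ∧ x ≤ A₀ + Δ), ∑ u ∈ x.divisors.erase 1,
        E u / ((x / u).totient : ℝ) ≤
      ((Δ : ℝ) / X₁ / Real.sqrt Q + 1 / Real.sqrt X₁) * (((b : ℝ) - a) * Real.log X ^ 7) /
        (pri R₁ * MM1 R₁ * DD t : ℕ) + (X : ℝ) ^ (2 - d - 5 / 100 * d)

def M_MT3 : Prop := S_BVG → S_DYA → S_SWA → S_TB → S_CF → S_MT3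

/-- MT4: every `m` in the middle range lies in many of the intervals `(a_j, b_j]`, where
`x_j = X₁ + j Δ`, `a_j = N₁ M y x_{j+1}`, `b_j = (N₁ + H'/2) M y x_j - 1`, `n Δ = X₁`.
PROOF. The condition is `(m + 1) / ((N₁ + H'/2) M y) ≤ x_j`, `x_{j+1} < m / (N₁ M y)`; with
`m = μ N₁ M y X₁`, `6/5 ≤ μ ≤ 9/5`, the numbers `x` between have length at least
`μ X₁ (H'/2 - 1) / (N₁ + H'/2) - 1 ≥ X₁ H' / (5 X)`, i.e. at least `n H' / (5 X) - 2` indices `j`. -/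
def S_MT4 : Prop := ∀ C₁ : ℝ, 0 < C₁ → ∀ (R₁ : ℕ) (d : ℝ), ∃ X₀ : ℕ, ∀ X : ℕ, X₀ ≤ X →
  ∀ (J Q X₁ H W : ℕ) (P : Finset ℕ), Cfg C₁ R₁ X J Q X₁ H W d P →
  ∀ t ∈ TT P J, ∀ N₁ n Δ m : ℕ, X ≤ 2 * N₁ → N₁ ≤ 2 * X → n * Δ = X₁ →
  (X : ℝ) ^ (d / 50) ≤ n → (n : ℝ) ≤ 4 * (X : ℝ) ^ (d / 50) →
  6 * (pri R₁ * yy t * N₁ * X₁) ≤ 5 * m → 5 * m ≤ 9 * (pri R₁ * yy t * N₁ * X₁) →
  (n : ℝ) * HL (MM1 R₁) X (d / 100) / (40 * X) ≤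
    (((range n).filter (fun j => N₁ * pri R₁ * yy t * (X₁ + (j + 1) * Δ) < m ∧
      m + 1 ≤ (N₁ + HL (MM1 R₁) X (d / 100) / 2) * pri R₁ * yy t * (X₁ + j * Δ))).card : ℝ)

def M_MT4 : Prop := S_CF → S_MT4

/-- MTT: the lower bound for one tuple, one window and one class.
PROOF. `n` = the power of two with `X^(d/50) ≤ n < 2 X^(d/50)`, `Δ = X₁ / n`, `x_j, a_j, b_j` as in MT4. Split
`XX` into the `x ∈ (x_j, x_{j+1}]` and the classes `ξ = x % M₁` (units). For every `j` with `a_j ≤ b_j` and `ξ`: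
MT1, MT2 (with `c = cl .. ξ`, which is prime to `M M₁` as it is `≡ s` modulo `M`), MT3 for the errors (sum
over `ξ`: one bound for all `x` of the interval). The errors: `n` times
`(1/(n √Q) + 1/√X₁) (b - a) (log X)^7 / (M M₁ D) + X^(2-d-d/20)`, `b - a ≤ (H'/2) M y 2 X₁`, in total at most
`X₁ H' / (Q^J log X)` (`Q ≥ (log X)^100`; `H' ≥ X^(1-d/100)/2`). The main terms:
`∑_{x ∈ (x_j, x_{j+1}], x ≡ ξ} 1 / φ x ≥ (1/(2X₁)) # ≥ c / (n φ(M₁) log log X)` by BR (`B = Δ`,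
`z₀ = 3 Q`); exchange the sums over `j` and `m` and use MT4 for `m ∈ (A, B]`. -/
def S_MTT : Prop := ∀ C₁ : ℝ, 0 < C₁ → ∃ c : ℝ, 0 < c ∧ ∀ (R₁ : ℕ) (d : ℝ), ∃ X₀ : ℕ, ∀ X : ℕ, X₀ ≤ X →
  ∀ (J Q X₁ H W : ℕ) (P : Finset ℕ) (s : ℤ), Cfg C₁ R₁ X J Q X₁ H W d P → (s = 1 ∨ s = -1) →
  ∀ t ∈ TT P J, ∀ N₁ ν A B : ℕ, X ≤ 2 * N₁ → N₁ ≤ 2 * X →
  6 * (pri R₁ * yy t * N₁ * X₁) ≤ 5 * A → 5 * B ≤ 9 * (pri R₁ * yy t * N₁ * X₁) →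
  c / Real.log (Real.log X) * ((HL (MM1 R₁) X (d / 100) : ℕ) / X) * (1 / ((MM1 R₁).totient : ℝ)) *
      ∑ ξ ∈ cop (MM1 R₁), ∑ m ∈ (Ioc A B).filter (fun m =>
        m ≡ cl s (pri R₁) (MM1 R₁) (yy t) ν ξ [MOD pri R₁ * MM1 R₁] ∧
        ((m : ℕ) : ZMod (DD t)) = ((s : ℤ) : ZMod (DD t))), LL m -
      (X₁ : ℝ) * HL (MM1 R₁) X (d / 100) / ((Q : ℝ) ^ J * Real.log X) ≤
    ∑ x ∈ XX X₁ (3 * Q), ∑ w ∈ WW (pri R₁) (MM1 R₁) (HL (MM1 R₁) X (d / 100)) W N₁ ν t x,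
      LL (mv s (pri R₁ * DD t * x * w))

def M_MTT : Prop := S_MT1 → S_MT2 → S_MT3 → S_MT4 → S_BR → S_SWA → S_TB → S_CF → S_MTT

/-- ER2: the error of the expansion for `D`, on average over the tuples.
PROOF. `E u` = the maximum over the classes `c < f = M M₁` prime to `f` for `u` squarefree, prime to `f`,
`UnitM s u` (else `0`). `φ (D/u) ≥ D / (2 u) ≥ Q^(2J) / (2 u)`. For a product `u` of `k` distinct primes of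
`P` at most `(2J)^k |P|^(2J-k)` tuples have `u ∣ DD t`; and `u ∈ (Q^k, (2Q)^k]`, covered by `k` dyadic
ranges; BVG with `ϖ = 1/10`, `Y = b` on each: at most
`k (b (2 log X)^5 / (Q^(k/2)) + b^(59/60))`. In total
`|P|^(2J) Q^(-2J) ∑_{k=1}^{2J} 2 k (4 J Q / |P|)^k (...)`, `Q / |P| ≤ C₁ J log Q`, so
`(4 J Q / |P|)^k ≤ (log X)^k`; the first part is at most `b (log X)^(-40)`, the second
`(log X)^(2J+1) b^(59/60) ≤ b^(0.99)`. -/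
def S_ER2 : Prop := ∀ C₁ : ℝ, 0 < C₁ → ∀ (R₁ : ℕ) (d : ℝ), ∃ X₀ : ℕ, ∀ X : ℕ, X₀ ≤ X →
  ∀ (J Q X₁ H W : ℕ) (P : Finset ℕ) (s : ℤ), Cfg C₁ R₁ X J Q X₁ H W d P → (s = 1 ∨ s = -1) →
  ∀ a b : ℕ, a ≤ b → (X : ℝ) ^ (19 / 10 : ℝ) ≤ b → (b : ℝ) ≤ (X : ℝ) ^ (2 : ℝ) →
  ∃ E : ℕ → ℝ, (∀ u, 0 ≤ E u) ∧
    (∀ t ∈ TT P J, ∀ u ∈ (DD t).divisors, ∀ c : ℕ, c.Coprime (pri R₁ * MM1 R₁) → u ≠ 1 →
      |dsp (pri R₁ * MM1 R₁) c u s a b| ≤ E u) ∧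
    ∑ t ∈ TT P J, ∑ u ∈ (DD t).divisors.erase 1, E u / ((DD t / u).totient : ℝ) ≤
      (P.card : ℝ) ^ (2 * J) / (Q : ℝ) ^ (2 * J) * (b / Real.log X)

def M_ER2 : Prop := S_BVG → S_SWA → S_TB → S_CF → S_ER2

/-- LBS: the average lower bound over the tuples.
PROOF. Grid: `g 0 = 2 M Q^J N₁ X₁ / 1` (any start `≤ (6/5) M Q^J N₁ X₁`, large), `g (i+1) = g i + g i / 10`.
For every `t` take the first `i` with `6 Y_t ≤ 5 g i`, `Y_t = M y N₁ X₁`, `A t = g i`, `B t = g (i+1)`;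
then `5 B t ≤ 9 Y_t`; `i ≤ 20` as `Y_t ≤ 3 M Q^J N₁ X₁`. By EXP for `D = DD t` (all `m > A t` are prime to `D`)
the inner sum is `(1/φ D) ∑_{m ≡ κ t} LL m + ∑_{u ≠ 1} dsp / φ (D/u)`. By PNT for the finitely many
classes modulo `M M₁` the first is at least `(1/D) A t / (20 φ (M M₁)) ≥ X X₁ / (100 Q^J M₁)`
(`φ (M M₁) ≤ M M₁`), the errors are bounded by ER2 for the at most 21 intervals. `|TT| ≥ |P|^(2J) / 2`. -/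
def S_LBS : Prop := ∀ C₁ : ℝ, 0 < C₁ → ∃ c : ℝ, 0 < c ∧ ∀ (R₁ : ℕ) (d : ℝ), ∃ X₀ : ℕ, ∀ X : ℕ, X₀ ≤ X →
  ∀ (J Q X₁ H W : ℕ) (P : Finset ℕ) (s : ℤ), Cfg C₁ R₁ X J Q X₁ H W d P → (s = 1 ∨ s = -1) →
  ∀ N₁ : ℕ, X ≤ 2 * N₁ → N₁ ≤ 2 * X → ∃ A B : (Fin J → ℕ × ℕ) → ℕ,
    (∀ t ∈ TT P J, 6 * (pri R₁ * yy t * N₁ * X₁) ≤ 5 * A t ∧
      5 * B t ≤ 9 * (pri R₁ * yy t * N₁ * X₁)) ∧
    ∀ κ : (Fin J → ℕ × ℕ) → ℕ, (∀ t ∈ TT P J, (κ t).Coprime (pri R₁ * MM1 R₁)) →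
    c * (P.card : ℝ) ^ (2 * J) * X₁ * X / ((Q : ℝ) ^ J * MM1 R₁) ≤
      ∑ t ∈ TT P J, ∑ m ∈ (Ioc (A t) (B t)).filter (fun m => m ≡ κ t [MOD pri R₁ * MM1 R₁] ∧
        ((m : ℕ) : ZMod (DD t)) = ((s : ℤ) : ZMod (DD t))), LL m

def M_LBS : Prop := S_PNT → S_EXP → S_ER2 → S_SWA → S_TB → S_CF → S_LBS

/-- MT: the lower bound for one window and one class. PROOF. MTT summed over `t` with `A t, B t` of LBS,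
LBS for every `ξ` with `κ t = cl .. ξ` (prime to `M M₁`, being `≡ s` modulo `M`, and `M`, `M M₁` have the same
prime factors); `∑_ξ` has `φ (M₁)` terms; the error `|P|^(2J) X₁ H' / (Q^J log X)` is smaller than half of
the main term for large `X`. -/
def S_MT : Prop := ∀ C₁ : ℝ, 0 < C₁ → ∃ c : ℝ, 0 < c ∧ ∀ (R₁ : ℕ) (d : ℝ), ∃ X₀ : ℕ, ∀ X : ℕ, X₀ ≤ X →
  ∀ (J Q X₁ H W : ℕ) (P : Finset ℕ) (s : ℤ), Cfg C₁ R₁ X J Q X₁ H W d P → (s = 1 ∨ s = -1) →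
  ∀ N₁ ν : ℕ, X ≤ 2 * N₁ → N₁ ≤ 2 * X →
  c * (P.card : ℝ) ^ (2 * J) * X₁ * HL (MM1 R₁) X (d / 100) /
      ((Q : ℝ) ^ J * MM1 R₁ * Real.log (Real.log X)) ≤
    ∑ t ∈ TT P J, ∑ x ∈ XX X₁ (3 * Q),
      ∑ w ∈ WW (pri R₁) (MM1 R₁) (HL (MM1 R₁) X (d / 100)) W N₁ ν t x,
        LL (mv s (pri R₁ * DD t * x * w))

def M_MT : Prop := S_MTT → S_LBS → S_SWA → S_TB → S_CF → S_MT

/-- S4: the main term. PROOF. `F = EC M₁ H' α` is constant, `≥ 0`, on the sets block × class; for a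
block `i` with `F ≠ 0` the number `N₁ = i H'` satisfies `X / 2 ≤ N₁ ≤ 2 X`; MT for every such block and
every class `ν < M₁`; `∑_{i, ν} F (i, ν) H' / M₁ = ∑ α`. -/
def S_S4 : Prop := ∀ C₁ : ℝ, 0 < C₁ → ∃ c : ℝ, 0 < c ∧ ∀ (R₁ : ℕ) (d : ℝ), ∃ X₀ : ℕ, ∀ X : ℕ, X₀ ≤ X →
  ∀ (J Q X₁ H W : ℕ) (P : Finset ℕ) (s : ℤ), Cfg C₁ R₁ X J Q X₁ H W d P → (s = 1 ∨ s = -1) →
  ∀ α : ℕ → ℝ, (∀ n, 0 ≤ α n) → (∀ n, α n ≠ 0 → X < n ∧ n ≤ 2 * X) →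
  c * KK X J Q X₁ P / (X * Real.log (Real.log X)) * ∑ n ∈ range (4 * X), α n ≤
    ∑ t ∈ TT P J, ∑ x ∈ XX X₁ (3 * Q), ∑ w ∈ Ioc 0 W, LL (mv s (pri R₁ * DD t * x * w)) *
      EC (MM1 R₁) (HL (MM1 R₁) X (d / 100)) α (pri R₁ * x * yy t + w * zz t)

def M_S4 : Prop := S_MT → S_CF → S_S4

/-! ## 8. Conclusion -/

/-- QP: the moduli of the projections. PROOF. `q ∣ M₁` implies `q / gcd (q, M) ≤ q ≤ M₁ ≤ q₀`. If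
`q ∤ M₁` then `q / gcd (q, M) > R₁`, since otherwise it divides `lcm (1, ..., R₁)` and
`q = gcd (q, M) (q / gcd (q, M))` divides `M₁`. -/
def S_QP : Prop := ∀ (R₁ I H : ℕ) (α : ℕ → ℂ) (n : ℕ), 2 ≤ R₁ → MM1 R₁ ≤ R₁ * 2 ^ I →
  PQ (QM (pri R₁) (R₁ * 2 ^ I)) H α n = PQ (MM1 R₁).divisors H α n +
    ∑ i ∈ range I, PQ (QS (pri R₁) (MM1 R₁) (R₁ * 2 ^ i) (2 * (R₁ * 2 ^ i))) H α n

/-- The exceptional numbers. -/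
def Exc (s : ℤ) (n : ℕ) : Prop :=
  ¬ ∃ a b : ℕ, 0 < a ∧ 0 < b ∧ a + b = n ∧ (mv s (a * b)).Prime

open Classical in
/-- FIN: few exceptional numbers in `(X, 2X]`.
PROOF. Given `ε ≤ 1`: constants `C₁` (CFG), `c` (S4), `C₂` (S2), `C₃` (S3). Choose `R₁` with
`C₂ √(log R₁) ∑_{i ≥ 0} log (R₁ 2^i) (R₁ 2^i)^(-1/4) ≤ c ε / 8`, then `K` with
`C₃ log R₁ √(2 / (K+1)) ≤ c ε / 8`. Scales `d k = 100^(-(k+1))`, `k ≤ K + 1`, block lengths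
`HL M₁ X (d k) = M₁ 2^(a k)`, increasing in `k`. Let `α` be the indicator of the exceptional numbers in
`(X, 2X]` and suppose `∑ α > ε X`, `X` large. By EN some `k ≤ K` has
`∑ (EC_{a k} α - EC_{a (k+1)} α)^2 ≤ X / (K + 1)`. Take a configuration for `d = d k` (then
`H = HL M₁ X (d k)`, `HL M₁ X (d / 100) = HL M₁ X (d (k+1))`), `q₀ = R₁ 2^I ∈ [(log X)^6, 2 (log X)^6]`.
`TF α = 0`, since `n = a + b` with `a = M x y`, `b = w z`, `a b = M D x w`. On the other hand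
`α = EC_{k+1} α + (EC_k α - EC_{k+1} α) + ∑_{i < I} PQ (QS ..) + (α - PQ (QM ..))` by E4 and QP. By S4 the first
form is at least `c ε KK / log log X`, the others are by S3, S2, S1 at most
`(c ε / 8 + c ε / 8 + o(1)) KK / log log X`. (The sum over `i < I ≤ 7 log log X` of the parts
`log R' (log X)^(-1/2)` is small.) Contradiction. -/
def S_FIN : Prop := ∀ s : ℤ, (s = 1 ∨ s = -1) → ∀ ε : ℝ, 0 < ε → ∃ X₀ : ℕ, ∀ X : ℕ, X₀ ≤ X →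
  (((Ioc X (2 * X)).filter (fun n => Exc s n)).card : ℝ) ≤ ε * X

def M_FIN : Prop := S_CFG → S_CF → S_S1 → S_S2 → S_S3 → S_S4 → S_EN → S_E4 → S_QP → S_FIN

open Classical in
/-- DEN: density. PROOF. Sum over `X = ⌊N / 2^j⌋`-type blocks; `(1, N]` is covered by the `(X, 2X]` with
`X = ⌈N/2^j⌉ ...`; at most `ε' N` plus a constant. -/
def S_DEN : Prop := ∀ s : ℤ, (s = 1 ∨ s = -1) → ∀ ε : ℝ, 0 < ε → ∃ N₀ : ℕ, ∀ N : ℕ, N₀ ≤ N →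
  (((Icc 1 N).filter (fun n => Exc s n)).card : ℝ) ≤ ε * N

def M_DEN : Prop := S_FIN → S_DEN

end

end MUR
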