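import Mathlib
import Pool.Agent.MUR.StE

set_option autoImplicit false

/-!
# Project MUR: the logical assembly of all modules
-/

namespace MUR

/-- All module statements imply the density theorem. -/
theorem assemble
    (gs : S_GS) (mer : S_MER) (mon : S_MON) (trg : S_TRG) (lss : M_LSS) (llb : M_LLB) (xc : M_XC)
    (box : M_BOX) (dls : S_DLS2) (lsv : M_LSV2) (t2 : M_T22) (tyb : S_TYB) (typ : M_TYP2)
    (bvg : M_BVG) (pnt : S_PNT) (br : M_BR) (psm : M_PS) (swa : S_SWA) (tb : M_TB) (pim : M_PI)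
    (deg : M_DEG) (sym : M_SYM) (vsy : M_VSY) (eft : S_EFT) (lsb : S_LSB) (pair : S_PAIR)
    (vb : M_VB) (e1 : S_E1) (e2 : S_E2) (e4 : S_E4) (en : S_EN) (cfg : M_CFG) (cf : S_CF)
    (llc : M_LLC) (xxc : M_XXC) (tot : M_TOT) (near : M_NEAR) (f2 : M_F2) (dv : S_DIV)
    (shp : S_SHP) (s1 : M_S1) (s2 : M_S2) (s3 : M_S3) (ex : S_EXP) (dya : S_DYA) (mt1 : M_MT1)
    (mt2 : M_MT2) (mt3 : M_MT3) (mt4 : M_MT4) (mtt : M_MTT) (er2 : M_ER2) (lbs : M_LBS)
    (mt : M_MT) (s4 : M_S4) (qp : S_QP) (fin : M_FIN) (den : M_DEN) : S_DEN := by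
  have h_lss : S_LSS := lss gs mer mon trg
  have h_llb : S_LLB := llb h_lss
  have h_xc : S_XC := xc h_lss
  have h_box : S_BOX := box h_lss
  have h_lsv : S_LSV2 := lsv dls
  have h_t2 : S_T22 := t2 h_lsv
  have h_typ : S_TYP2 := typ h_t2 tyb
  have h_bvg : S_BVG := bvg h_typ tyb
  have h_br : S_BR := br mer
  have h_ps : S_PS := psm h_lss
  have h_tb : S_TB := tb swa
  have h_pi : S_PI := pim swa
  have h_deg : S_DEG := deg swa
  have h_sym : S_SYM := sym swa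
  have h_vsy : S_VSY := vsy swa
  have h_vb : S_VB := vb swa h_tb h_deg h_vsy eft lsb pair
  have h_cfg : S_CFG := cfg h_ps
  have h_llc : S_LLC := llc h_llb swa h_tb cf
  have h_xxc : S_XXC := xxc h_xc cf
  have h_tot : S_TOT := tot h_llc h_xxc swa h_tb cf
  have h_near : S_NEAR := near h_llc swa h_tb cf
  have h_f2 : S_F2 := f2 h_box h_near h_xxc swa h_tb cf
  have h_s1 : S_S1 := s1 h_sym h_tot h_vb e1 e2 h_pi shp dv cf
  have h_s2 : S_S2 := s2 h_sym h_tot h_f2 h_vb e1 e2 h_pi dv cf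
  have h_s3 : S_S3 := s3 h_tot h_llc h_xxc swa h_tb cf
  have h_mt1 : S_MT1 := mt1 swa h_tb cf
  have h_mt2 : S_MT2 := mt2 ex
  have h_mt3 : S_MT3 := mt3 h_bvg dya swa h_tb cf
  have h_mt4 : S_MT4 := mt4 cf
  have h_mtt : S_MTT := mtt h_mt1 h_mt2 h_mt3 h_mt4 h_br swa h_tb cf
  have h_er2 : S_ER2 := er2 h_bvg swa h_tb cf
  have h_lbs : S_LBS := lbs pnt ex h_er2 swa h_tb cf
  have h_mt : S_MT := mt h_mtt h_lbs swa h_tb cf
  have h_s4 : S_S4 := s4 h_mt cf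
  have h_fin : S_FIN := fin h_cfg cf h_s1 h_s2 h_s3 h_s4 en e4 qp
  exact den h_fin

end MUR
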