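import Pool.Agent.MUR.St

set_option autoImplicit false

/-!
# MUR, module BOX: the two-step sieve on a box
-/

namespace MUR

open Finset
open Pool.Agent.Lib_helper83.EF (e)

noncomputable section

namespace BOX

/-- for `l` not dividing `K` the equation `K ρ + s ≡ 0` has a solution modulo `l` -/
lemma exists_root (s : ℤ) (K l : ℕ) (hl : l.Prime) (hK : ¬ l ∣ K) :
    ∃ ρ : ℕ, ∀ w : ℕ, w ≡ ρ [MOD l] → (l : ℤ) ∣ (K * w : ℕ) + s := by
  have : Fact l.Prime := ⟨hl⟩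
  have hK0 : ((K : ℕ) : ZMod l) ≠ 0 := by
    rw [Ne, ZMod.natCast_eq_zero_iff]
    exact hK
  refine ⟨(-(s : ZMod l) / (K : ZMod l)).val, fun w hw => ?_⟩
  rw [← ZMod.intCast_zmod_eq_zero_iff_dvd] 
  have h1 : (w : ZMod l) = -(s : ZMod l) / (K : ZMod l) := by
    rw [← ZMod.natCast_eq_natCast_iff] at hw
    rw [hw, ZMod.natCast_val, ZMod.cast_id', id]
  push_cast
  rw [h1, mul_div_cancel₀ _ hK0]
  ring

lemma root_not (s : ℤ) (hs : s = 1 ∨ s = -1) (K l w : ℕ) (hl : l.Prime) (hlt : l + 1 < K * w)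
    (hd : (l : ℤ) ∣ (K * w : ℕ) + s) : ¬ (mv s (K * w)).Prime := by
  intro hp
  have h0 : (0 : ℤ) ≤ (K * w : ℕ) + s := by
    rcases hs with rfl | rfl <;> omega
  have h1 : ((mv s (K * w) : ℕ) : ℤ) = (K * w : ℕ) + s := Int.toNat_of_nonneg h0
  have h2 : l ∣ mv s (K * w) := by
    rw [← Int.natCast_dvd_natCast, h1]
    exact hd
  have h3 : l = mv s (K * w) := (Nat.prime_dvd_prime_iff_eq hl hp).mp h2
  have h4 : (l : ℤ) = (K * w : ℕ) + s := by rw [← h1, ← h3]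
  rcases hs with rfl | rfl <;> omega

lemma mv_le (s : ℤ) (hs : s = 1 ∨ s = -1) (k : ℕ) : mv s k ≤ k + 1 := by
  unfold mv
  rcases hs with rfl | rfl <;> omega

lemma ratio (D x : ℕ) (hD : 1 ≤ D) (hx : 1 ≤ x) (h1 : D ≤ 2 * D.totient) (h2 : x ≤ 2 * x.totient) :
    ((D * x : ℕ) : ℝ) / (D * x).totient ≤ 4 := by
  have h3 : D.totient * x.totient ≤ (D * x).totient := Nat.totient_super_multiplicative D x
  have h4 : 0 < (D * x).totient := Nat.totient_pos.mpr (Nat.mul_pos hD hx)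
  have h5 : (0 : ℝ) < (D * x).totient := by exact_mod_cast h4
  rw [div_le_iff₀ h5]
  have h6 : D * x ≤ 4 * (D * x).totient := by
    calc D * x ≤ (2 * D.totient) * (2 * x.totient) := Nat.mul_le_mul h1 h2
      _ = 4 * (D.totient * x.totient) := by ring
      _ ≤ _ := Nat.mul_le_mul_left 4 h3
  exact_mod_cast h6

end BOX

theorem t_BOX : M_BOX := by
  rintro ⟨C, hC, h⟩
  refine ⟨1600 * C ^ 2, by positivity, ?_⟩
  intro s M D z z₀ R G x₀ ξ w₀ ω Xs g hs hM hD hR hG hz hz₀ hMR hDt hXs hX hsize hω hξ htw htx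
  classical
  have hz' : (2 : ℝ) ≤ z := by exact_mod_cast hz
  have hz₀' : (2 : ℝ) ≤ z₀ := by exact_mod_cast hz₀
  have hlz : 0 < Real.log z := Real.log_pos (by linarith)
  have hlz₀ : 0 < Real.log z₀ := Real.log_pos (by linarith)
  have hlR : 0 ≤ Real.log (R + 1) := Real.log_nonneg (by
    have : (0 : ℝ) ≤ R := Nat.cast_nonneg R
    linarith)
  -- first step: `x` fixed
  have step1 : ∀ x ∈ Xs, ∑ w ∈ Ioc w₀ (w₀ + ω), LL (mv s (M * D * x * w)) * ‖g x w‖ ^ 2 ≤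
      1600 * C * Real.log (R + 1) * ∑ w ∈ Ioc w₀ (w₀ + ω), ‖g x w‖ ^ 2 := by
    intro x hx
    obtain ⟨hx1, hx2, hx3⟩ := hX x hx
    have hxpos : 1 ≤ x := by omega
    set S : Finset ℕ := (Ioc w₀ (w₀ + ω)).filter (fun w => (mv s (M * D * x * w)).Prime) with hS
    have hroot : ∀ l : ℕ, ∃ ρ : ℕ, l.Prime → R < l → l ≤ z → ¬ l ∣ D * x →
        ∀ w ∈ S, ¬ w ≡ ρ [MOD l] := by
      intro l
      by_cases hl : l.Prime ∧ R < l ∧ l ≤ z ∧ ¬ l ∣ D * x
      · obtain ⟨hl1, hl2, hl3, hl4⟩ := hl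
        have hlM : ¬ l ∣ M := by
          intro hd
          have := hMR l (Nat.mem_primeFactors.2 ⟨hl1, hd, by omega⟩)
          omega
        have hK : ¬ l ∣ M * D * x := by
          rw [mul_assoc, hl1.dvd_mul]
          tauto
        obtain ⟨ρ, hρ⟩ := BOX.exists_root s (M * D * x) l hl1 hK
        refine ⟨ρ, fun _ _ _ _ w hw hmod => ?_⟩
        rw [hS, Finset.mem_filter, Finset.mem_Ioc] at hw
        obtain ⟨⟨hw1, hw2⟩, hw3⟩ := hw
        refine BOX.root_not s hs (M * D * x) l w hl1 ?_ (hρ w hmod) hw3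
        have h1 : x ≤ M * D * x * w := by
          have hw0 : 1 ≤ w := by omega
          calc x = 1 * 1 * x * 1 := by ring
            _ ≤ M * D * x * w := by gcongr
        omega
      · refine ⟨0, fun a b c d => absurd ⟨a, b, c, d⟩ hl⟩
    choose ρ hρ using hroot
    have key := h R G z (D * x) ω w₀ S ρ (fun w => g x w) hR hG (Nat.mul_pos hD hxpos) hz hω
      (Finset.filter_subset _ _) (fun l a b c d => hρ l a b c d) (htw x)
    have hsum : ∑ w ∈ Ioc w₀ (w₀ + ω), LL (mv s (M * D * x * w)) * ‖g x w‖ ^ 2 =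
        ∑ w ∈ S, LL (mv s (M * D * x * w)) * ‖g x w‖ ^ 2 := by
      rw [hS, Finset.sum_filter]
      refine Finset.sum_congr rfl fun w _ => ?_
      by_cases hp : (mv s (M * D * x * w)).Prime
      · rw [if_pos hp]
      · rw [if_neg hp]
        unfold LL
        rw [if_neg hp, zero_mul]
    have hLL : ∀ w ∈ S, LL (mv s (M * D * x * w)) ≤ 400 * Real.log z := by
      intro w hw
      rw [hS, Finset.mem_filter, Finset.mem_Ioc] at hw
      obtain ⟨⟨hw1, hw2⟩, hw3⟩ := hw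
      unfold LL
      rw [if_pos hw3]
      have h1 : mv s (M * D * x * w) ≤ z ^ 400 := by
        refine le_trans (BOX.mv_le s hs _) (le_trans ?_ hsize)
        have hxu : x ≤ x₀ + ξ := (Finset.mem_Ioc.mp (hXs hx)).2
        have h2 : M * D * x * w ≤ M * D * (x₀ + ξ) * (w₀ + ω) := by gcongr
        omega
      have h3 : (0 : ℝ) < mv s (M * D * x * w) := by exact_mod_cast hw3.pos
      calc Real.log (mv s (M * D * x * w)) ≤ Real.log ((z : ℝ) ^ 400) :=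
            Real.log_le_log h3 (by exact_mod_cast h1)
        _ = 400 * Real.log z := by
            rw [Real.log_pow]
            norm_num
    have hrat := BOX.ratio D x hD hxpos hDt hx2
    have hnn : 0 ≤ ∑ w ∈ Ioc w₀ (w₀ + ω), ‖g x w‖ ^ 2 := Finset.sum_nonneg fun _ _ => by positivity
    rw [hsum]
    calc ∑ w ∈ S, LL (mv s (M * D * x * w)) * ‖g x w‖ ^ 2
        ≤ ∑ w ∈ S, 400 * Real.log z * ‖g x w‖ ^ 2 :=
          Finset.sum_le_sum fun w hw => mul_le_mul_of_nonneg_right (hLL w hw) (by positivity)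
      _ = 400 * Real.log z * ∑ w ∈ S, ‖g x w‖ ^ 2 := by rw [Finset.mul_sum]
      _ ≤ 400 * Real.log z * (C * Real.log (R + 1) * (((D * x : ℕ) : ℝ) / (D * x).totient) /
            Real.log z * ∑ w ∈ Ioc w₀ (w₀ + ω), ‖g x w‖ ^ 2) :=
          mul_le_mul_of_nonneg_left key (by positivity)
      _ = 400 * C * Real.log (R + 1) * (((D * x : ℕ) : ℝ) / (D * x).totient) *
            ∑ w ∈ Ioc w₀ (w₀ + ω), ‖g x w‖ ^ 2 := by
          field_simp
      _ ≤ 400 * C * Real.log (R + 1) * 4 * ∑ w ∈ Ioc w₀ (w₀ + ω), ‖g x w‖ ^ 2 := by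
          gcongr
      _ = _ := by ring
  -- second step: `w` fixed
  have step2 : ∀ w : ℕ, ∑ x ∈ Xs, ‖g x w‖ ^ 2 ≤
      C * Real.log (R + 1) / Real.log z₀ * ∑ x ∈ Ioc x₀ (x₀ + ξ), ‖g x w‖ ^ 2 := by
    intro w
    have key := h R G z₀ 1 ξ x₀ Xs (fun _ => 0) (fun x => g x w) hR hG le_rfl hz₀ hξ hXs ?_ (htx w)
    · simpa using key
    · intro l hl _ hlz _ x hx hmod
      obtain ⟨hx1, hx2, hx3⟩ := hX x hx
      have hd : l ∣ x := (Nat.modEq_zero_iff_dvd).1 hmod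
      have := hx3 l (Nat.mem_primeFactors.2 ⟨hl, hd, by omega⟩)
      omega
  calc ∑ x ∈ Xs, ∑ w ∈ Ioc w₀ (w₀ + ω), LL (mv s (M * D * x * w)) * ‖g x w‖ ^ 2
      ≤ ∑ x ∈ Xs, 1600 * C * Real.log (R + 1) * ∑ w ∈ Ioc w₀ (w₀ + ω), ‖g x w‖ ^ 2 :=
        Finset.sum_le_sum step1
    _ = 1600 * C * Real.log (R + 1) * ∑ w ∈ Ioc w₀ (w₀ + ω), ∑ x ∈ Xs, ‖g x w‖ ^ 2 := by
        rw [← Finset.mul_sum, Finset.sum_comm]
    _ ≤ 1600 * C * Real.log (R + 1) * ∑ w ∈ Ioc w₀ (w₀ + ω),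
          C * Real.log (R + 1) / Real.log z₀ * ∑ x ∈ Ioc x₀ (x₀ + ξ), ‖g x w‖ ^ 2 :=
        mul_le_mul_of_nonneg_left (Finset.sum_le_sum fun w _ => step2 w) (by positivity)
    _ = 1600 * C ^ 2 * Real.log (R + 1) ^ 2 / Real.log z₀ *
          ∑ x ∈ Ioc x₀ (x₀ + ξ), ∑ w ∈ Ioc w₀ (w₀ + ω), ‖g x w‖ ^ 2 := by
        rw [← Finset.mul_sum, Finset.sum_comm]
        ring

end

end MUR
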