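import Mathlib
import Pool.Agent.MUR.StB
import Pool.Agent.Lib_helper10.Erdos460.Brun

set_option autoImplicit false

/-!
# Project MUR, module BR: sifted numbers in an interval (Brun's pure sieve)
-/

namespace MUR

open Finset

noncomputable section

namespace BR

/-- product over the primes up to `z₀` split at `R₁` -/
lemma prod_split {R₁ M₁ z₀ : ℕ} (hM : 1 ≤ M₁) (hd : ∀ p : ℕ, p.Prime → (p ∣ M₁ ↔ p ≤ R₁))
    (hR : R₁ ≤ z₀) :
    (∏ p ∈ (Icc 1 z₀).filter Nat.Prime, (1 - 1 / (p : ℝ))) * M₁ =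
      (M₁.totient : ℝ) * ∏ p ∈ (Ioc R₁ z₀).filter Nat.Prime, (1 - 1 / (p : ℝ)) := by
  have h1 : (M₁.totient : ℝ) = (M₁ : ℝ) * ∏ p ∈ M₁.primeFactors, (1 - 1 / (p : ℝ)) := by
    have h := Nat.totient_eq_mul_prod_factors M₁
    have h' : ((M₁.totient : ℚ) : ℝ) = (((M₁ : ℚ) * ∏ p ∈ M₁.primeFactors, (1 - (p : ℚ)⁻¹) : ℚ) : ℝ) := by
      rw [h]
    push_cast at h'
    rw [h']
    simp [one_div]
  have h2 : M₁.primeFactors = (Icc 1 R₁).filter Nat.Prime := by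
    ext p
    rw [Nat.mem_primeFactors, mem_filter, mem_Icc]
    constructor
    · rintro ⟨hp, hpd, _⟩
      exact ⟨⟨hp.one_le, (hd p hp).1 hpd⟩, hp⟩
    · rintro ⟨⟨_, hpR⟩, hp⟩
      exact ⟨hp, (hd p hp).2 hpR, by omega⟩
  have h3 : (Icc 1 z₀).filter Nat.Prime =
      (Icc 1 R₁).filter Nat.Prime ∪ (Ioc R₁ z₀).filter Nat.Prime := by
    ext p
    simp only [mem_filter, mem_union, mem_Icc, mem_Ioc]
    constructor
    · rintro ⟨⟨ha, hb⟩, hp⟩
      by_cases h : p ≤ R₁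
      · exact Or.inl ⟨⟨ha, h⟩, hp⟩
      · exact Or.inr ⟨⟨by omega, hb⟩, hp⟩
    · rintro (⟨⟨ha, hb⟩, hp⟩ | ⟨⟨ha, hb⟩, hp⟩)
      · exact ⟨⟨ha, by omega⟩, hp⟩
      · exact ⟨⟨by omega, hb⟩, hp⟩
  have h4 : Disjoint ((Icc 1 R₁).filter Nat.Prime) ((Ioc R₁ z₀).filter Nat.Prime) := by
    rw [Finset.disjoint_left]
    intro p hp hp'
    rw [mem_filter, mem_Icc] at hp
    rw [mem_filter, mem_Ioc] at hp'
    omega
  rw [h3, prod_union h4, h1, h2]
  ring

lemma one_sub_pos {p : ℕ} (hp : p.Prime) : (0 : ℝ) < 1 - 1 / (p : ℝ) := by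
  have h2 : (2 : ℝ) ≤ p := by exact_mod_cast hp.two_le
  have : 1 / (p : ℝ) ≤ 1 / 2 := one_div_le_one_div_of_le (by norm_num) h2
  linarith

lemma one_sub_le {p : ℕ} : 1 - 1 / (p : ℝ) ≤ 1 := by
  have : (0 : ℝ) ≤ 1 / (p : ℝ) := by positivity
  linarith

/-- `∑ 1/p ≤ - log ∏ (1 - 1/p)` -/
lemma sum_inv_le (P : Finset ℕ) (hP : ∀ p ∈ P, p.Prime) :
    ∑ p ∈ P, 1 / (p : ℝ) ≤ - Real.log (∏ p ∈ P, (1 - 1 / (p : ℝ))) := by
  rw [Real.log_prod (fun p hp => (one_sub_pos (hP p hp)).ne'), ← sum_neg_distrib]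
  refine sum_le_sum fun p hp => ?_
  have := Real.log_le_sub_one_of_pos (one_sub_pos (hP p hp))
  linarith

/-- number of the multiples of `m` in an interval -/
lemma card_mult (a B m : ℕ) (hm : 0 < m) :
    (((Ioc a (a + B)).filter (fun x => m ∣ x)).card : ℝ) ≤ (B : ℝ) / m + 1 := by
  have h1 := Nat.Ioc_filter_modEq_card a (a + B) hm 0
  have hM' : (0 : ℚ) < m := by exact_mod_cast hm
  have e0 : (Ioc a (a + B)).filter (fun x => m ∣ x) = (Ioc a (a + B)).filter (fun x => x ≡ 0 [MOD m]) := by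
    refine filter_congr fun x _ => ?_
    exact (Nat.modEq_zero_iff_dvd).symm
  rw [e0]
  set U : ℚ := (((a + B : ℕ) : ℚ) - ((0 : ℕ) : ℚ)) / m
  set V : ℚ := ((a : ℚ) - ((0 : ℕ) : ℚ)) / m
  have hUV : U = V + (B : ℚ) / m := by
    simp only [U, V]; push_cast; ring
  have hB : (0 : ℚ) ≤ (B : ℚ) / m := by positivity
  have h2 : ⌊V⌋ ≤ ⌊U⌋ := Int.floor_le_floor (by rw [hUV]; linarith)
  rw [max_eq_left (by linarith)] at h1
  have h3 : ((((Ioc a (a + B)).filter (fun x => x ≡ 0 [MOD m])).card : ℤ) : ℚ) = ((⌊U⌋ - ⌊V⌋ : ℤ) : ℚ) := by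
    rw [h1]
  have h4 : (((Ioc a (a + B)).filter (fun x => x ≡ 0 [MOD m])).card : ℚ) ≤ (B : ℚ) / m + 1 := by
    push_cast at h3
    rw [h3]
    have a1 := Int.floor_le U
    have b2 := Int.lt_floor_add_one V
    rw [hUV] at a1
    rw [hUV]
    linarith
  have h5 : ((((Ioc a (a + B)).filter (fun x => x ≡ 0 [MOD m])).card : ℚ) : ℝ) ≤
      (((B : ℚ) / m + 1 : ℚ) : ℝ) := by exact_mod_cast h4
  push_cast at h5
  exact h5

/-- the sifted numbers which are not squarefree are few -/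
lemma nonsq (X z₀ a B ξ M₁ : ℕ) (hz : 1 ≤ z₀) (hX : a + B ≤ 3 * X) (Q : ℕ → Prop) [DecidablePred Q]
    (hQ : ∀ x, x ≡ ξ [MOD M₁] → Q x → ∀ p ∈ x.primeFactors, z₀ < p) :
    (((Ioc a (a + B)).filter (fun x => x ≡ ξ [MOD M₁] ∧ Q x)).card : ℝ) -
      ((B : ℝ) / z₀ + Nat.sqrt (3 * X)) ≤
    (((Ioc a (a + B)).filter (fun x => x ≡ ξ [MOD M₁] ∧ Squarefree x ∧
      ∀ p ∈ x.primeFactors, z₀ < p)).card : ℝ) := by
  classical
  set S := Nat.sqrt (3 * X) with hS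
  have hsub : (Ioc a (a + B)).filter (fun x => x ≡ ξ [MOD M₁] ∧ Q x) ⊆
      (Ioc a (a + B)).filter (fun x => x ≡ ξ [MOD M₁] ∧ Squarefree x ∧
        ∀ p ∈ x.primeFactors, z₀ < p) ∪
      (Ioc z₀ S).biUnion (fun p => (Ioc a (a + B)).filter (fun x => p * p ∣ x)) := by
    intro x hx
    rw [mem_filter] at hx
    obtain ⟨hxI, hxξ, hxQ⟩ := hx
    have hx0 : x ≠ 0 := by have := (mem_Ioc.1 hxI).1; omega
    rw [mem_union]
    by_cases hsq : Squarefree x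
    · left
      rw [mem_filter]
      exact ⟨hxI, hxξ, hsq, hQ x hxξ hxQ⟩
    · right
      rw [Nat.squarefree_iff_prime_squarefree] at hsq
      push Not at hsq
      obtain ⟨p, hp, hpx⟩ := hsq
      have hpz : z₀ < p := hQ x hxξ hxQ p (Nat.mem_primeFactors.2 ⟨hp, (dvd_mul_right p p).trans hpx, hx0⟩)
      have hpS : p ≤ S := by
        rw [hS, Nat.le_sqrt]
        have h1 : p * p ≤ x := Nat.le_of_dvd (Nat.pos_of_ne_zero hx0) hpx
        have := (mem_Ioc.1 hxI).2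
        omega
      rw [mem_biUnion]
      exact ⟨p, mem_Ioc.2 ⟨hpz, hpS⟩, mem_filter.2 ⟨hxI, hpx⟩⟩
  have h1 := card_le_card hsub
  have h2 := h1.trans (card_union_le _ _)
  have h3 : (((Ioc z₀ S).biUnion (fun p => (Ioc a (a + B)).filter (fun x => p * p ∣ x))).card : ℝ) ≤
      (B : ℝ) / z₀ + S := by
    have e1 : (((Ioc z₀ S).biUnion (fun p => (Ioc a (a + B)).filter (fun x => p * p ∣ x))).card : ℝ) ≤
        ∑ p ∈ Ioc z₀ S, (((Ioc a (a + B)).filter (fun x => p * p ∣ x)).card : ℝ) := by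
      exact_mod_cast card_biUnion_le
    refine e1.trans ?_
    have e2 : ∀ p ∈ Ioc z₀ S, (((Ioc a (a + B)).filter (fun x => p * p ∣ x)).card : ℝ) ≤
        (B : ℝ) * ((p : ℝ) ^ 2)⁻¹ + 1 := by
      intro p hp
      have hp0 : 0 < p := by have := (mem_Ioc.1 hp).1; omega
      have := card_mult a B (p * p) (Nat.mul_pos hp0 hp0)
      push_cast at this
      rw [pow_two, ← div_eq_mul_inv]
      exact this
    refine (sum_le_sum e2).trans ?_
    rw [sum_add_distrib, ← mul_sum, sum_const, nsmul_eq_mul, mul_one, Nat.card_Ioc]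
    by_cases hle : z₀ ≤ S
    · have e3 := sum_Ioc_inv_sq_le_sub (α := ℝ) (k := z₀) (n := S) (by omega) hle
      have e4 : (0 : ℝ) ≤ (S : ℝ)⁻¹ := by positivity
      have e5 : (B : ℝ) * ∑ i ∈ Ioc z₀ S, ((i : ℝ) ^ 2)⁻¹ ≤ (B : ℝ) / z₀ := by
        rw [div_eq_mul_inv]
        exact mul_le_mul_of_nonneg_left (by linarith) (by positivity)
      have e6 : ((S - z₀ : ℕ) : ℝ) ≤ S := by exact_mod_cast Nat.sub_le S z₀
      linarith
    · rw [Ioc_eq_empty (by omega)]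
      have e6 : S - z₀ = 0 := by omega
      rw [e6]
      simp only [sum_empty, mul_zero, Nat.cast_zero, add_zero]
      positivity
  have h4 : (((Ioc a (a + B)).filter (fun x => x ≡ ξ [MOD M₁] ∧ Q x)).card : ℝ) ≤
      (((Ioc a (a + B)).filter (fun x => x ≡ ξ [MOD M₁] ∧ Squarefree x ∧
        ∀ p ∈ x.primeFactors, z₀ < p)).card : ℝ) +
      (((Ioc z₀ S).biUnion (fun p => (Ioc a (a + B)).filter (fun x => p * p ∣ x))).card : ℝ) := by
    exact_mod_cast h2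
  linarith

/-- the asymptotic conditions -/
lemma asym (c₀ : ℝ) (hc : 0 < c₀) (φ R₁ A : ℕ) : ∃ ℓ₀ : ℝ, ∀ ℓ : ℝ, ℓ₀ ≤ ℓ →
    3 ≤ ℓ ∧ (R₁ : ℝ) ≤ ℓ ∧ 8 * c₀ ≤ Real.log ℓ ∧ 4 / c₀ ≤ Real.log ℓ ∧ c₀ / 2 ≤ Real.log ℓ ∧
    1 ≤ Real.log ℓ ∧ 12 * (A * Real.log ℓ) ^ 2 ≤ ℓ / 10 ∧
    48 * φ * (A * Real.log ℓ) ≤ c₀ * Real.exp (2 * ℓ / 5) ∧ (32 * φ / c₀) ^ 2 ≤ ℓ := by
  have hlog := Real.tendsto_log_atTop
  have e1 := Filter.eventually_ge_atTop (α := ℝ) 3
  have e2 := Filter.eventually_ge_atTop (α := ℝ) (R₁ : ℝ)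
  have e3 := hlog.eventually_ge_atTop (8 * c₀)
  have e4 := hlog.eventually_ge_atTop (4 / c₀)
  have e5 := hlog.eventually_ge_atTop (c₀ / 2)
  have e6 := hlog.eventually_ge_atTop 1
  have e7 : ∀ᶠ ℓ : ℝ in Filter.atTop, 12 * (A * Real.log ℓ) ^ 2 ≤ ℓ / 10 := by
    have h := (isLittleO_log_rpow_rpow_atTop (2 : ℝ) (s := 1) one_pos).bound
      (show (0 : ℝ) < 1 / (120 * ((A : ℝ) ^ 2 + 1)) by positivity)
    filter_upwards [h, e1, e6] with ℓ h h1 h6
    rw [Real.rpow_one, Real.norm_of_nonneg (by positivity), Real.norm_of_nonneg (by linarith)] at h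
    have h2 : Real.log ℓ ^ (2 : ℝ) = Real.log ℓ ^ 2 := by
      rw [← Real.rpow_natCast]; norm_num
    rw [h2] at h
    have h3 : 120 * ((A : ℝ) ^ 2 + 1) * Real.log ℓ ^ 2 ≤ ℓ := by
      have := mul_le_mul_of_nonneg_left h (show (0 : ℝ) ≤ 120 * ((A : ℝ) ^ 2 + 1) by positivity)
      calc _ ≤ _ := this
        _ = ℓ := by field_simp
    have h4 : (0 : ℝ) ≤ Real.log ℓ ^ 2 := by positivity
    nlinarith
  have e8 := Filter.eventually_ge_atTop (α := ℝ) (600 * φ * A / c₀)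
  have e9 := Filter.eventually_ge_atTop (α := ℝ) ((32 * φ / c₀) ^ 2)
  have e := e1.and (e2.and (e3.and (e4.and (e5.and (e6.and (e7.and (e8.and e9)))))))
  rw [Filter.eventually_atTop] at e
  obtain ⟨ℓ₀, hℓ⟩ := e
  refine ⟨ℓ₀, fun ℓ h => ?_⟩
  obtain ⟨f1, f2, f3, f4, f5, f6, f7, f8, f9⟩ := hℓ ℓ h
  refine ⟨f1, f2, f3, f4, f5, f6, f7, ?_, f9⟩
  have g1 : Real.log ℓ ≤ ℓ := (Real.log_le_sub_one_of_pos (by linarith)).trans (by linarith)
  have g2 := Real.quadratic_le_exp_of_nonneg (x := 2 * ℓ / 5) (by linarith)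
  have g3 : 2 * ℓ ^ 2 / 25 ≤ Real.exp (2 * ℓ / 5) := by nlinarith
  have g4 : 600 * φ * A ≤ c₀ * ℓ := by
    have := (div_le_iff₀ hc).1 f8
    linarith
  have g5 : (48 : ℝ) * φ * (A * Real.log ℓ) ≤ 48 * φ * (A * ℓ) := by
    refine mul_le_mul_of_nonneg_left (mul_le_mul_of_nonneg_left g1 (by positivity)) (by positivity)
  have g6 : (48 : ℝ) * φ * (A * ℓ) ≤ c₀ * (2 * ℓ ^ 2 / 25) := by nlinarith
  have g7 := mul_le_mul_of_nonneg_left g3 hc.le
  linarith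

/-- `λ^k / k!` is small -/
lemma fac_le (lam : ℝ) (h0 : 0 ≤ lam) (k : ℕ) (hk : 5 * lam ≤ k) :
    lam ^ k / (k.factorial : ℝ) ≤ Real.exp (-(2 * lam)) := by
  have h1 := Real.pow_div_factorial_le_exp (Real.exp 1 * lam) (by positivity) k
  have h2 : (Real.exp 1 * lam) ^ k = Real.exp k * lam ^ k := by
    rw [mul_pow, ← Real.exp_nat_mul, mul_one]
  rw [h2, mul_div_assoc] at h1
  have h3 : lam ^ k / (k.factorial : ℝ) ≤ Real.exp (Real.exp 1 * lam) * Real.exp (-(k : ℝ)) := by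
    rw [Real.exp_neg, ← div_eq_mul_inv, le_div_iff₀ (Real.exp_pos _)]
    linarith
  refine h3.trans ?_
  rw [← Real.exp_add]
  apply Real.exp_le_exp.2
  have := Real.exp_one_lt_d9
  nlinarith

end BR

open BR in
theorem t_BR : M_BR := by
  rintro ⟨c₀, hc, hMer⟩
  refine ⟨c₀ / 4, by positivity, ?_⟩
  intro R₁ M₁ hM hd A
  obtain ⟨ℓ₀, hasym⟩ := asym c₀ hc M₁.totient R₁ A
  refine ⟨⌈Real.exp ℓ₀⌉₊, ?_⟩
  intro X hX z₀ a B ξ hz1 hz2 hB hX3 hξ
  have hX1 : Real.exp ℓ₀ ≤ X := (Nat.le_ceil _).trans (by exact_mod_cast hX)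
  have hX0 : (0 : ℝ) < X := (Real.exp_pos _).trans_le hX1
  set ℓ := Real.log X with hℓ
  have hℓ0 : ℓ₀ ≤ ℓ := by
    rw [hℓ, Real.le_log_iff_exp_le hX0]; exact hX1
  obtain ⟨f1, f2, f3, f4, f5, f6, f7, f8, f9⟩ := hasym ℓ hℓ0
  set φ : ℝ := (M₁.totient : ℝ) with hφ
  have hφ1 : 1 ≤ φ := by
    have : 1 ≤ M₁.totient := Nat.totient_pos.2 hM
    rw [hφ]
    exact_mod_cast this
  have hM0 : (0 : ℝ) < M₁ := by exact_mod_cast hM
  have hφM : φ ≤ M₁ := by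
    rw [hφ]
    exact_mod_cast Nat.totient_le M₁
  have hz3 : (3 : ℝ) ≤ z₀ := f1.trans hz1
  have hz0 : (0 : ℝ) < z₀ := by linarith
  set w := Real.log z₀ with hw
  have hwl : Real.log ℓ ≤ w := Real.log_le_log (by linarith) hz1
  have hwA : w ≤ A * Real.log ℓ := by
    rw [hw, ← Real.log_pow]
    exact Real.log_le_log hz0 hz2
  have hw1 : 1 ≤ w := f6.trans hwl
  have hw0 : 0 < w := by linarith
  -- `λ`
  set lam := Real.log (2 * w / c₀) with hlam
  have h2w : 1 ≤ 2 * w / c₀ := by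
    rw [one_le_div hc]; linarith
  have hlam0 : 0 ≤ lam := Real.log_nonneg h2w
  have hlamw : lam ≤ w := by
    rw [hlam, Real.log_le_iff_le_exp (by linarith)]
    have g2 := Real.quadratic_le_exp_of_nonneg (x := w) hw0.le
    have g3 : 4 ≤ c₀ * w := by
      have : 4 / c₀ ≤ w := f4.trans hwl
      rw [div_le_iff₀ hc] at this; linarith
    rw [div_le_iff₀ hc]
    nlinarith
  set k := ⌈5 * lam⌉₊ with hk
  have hk1 : 5 * lam ≤ k := Nat.le_ceil _
  have hk2 : (k : ℝ) ≤ 5 * lam + 1 := (Nat.ceil_lt_add_one (by positivity)).le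
  -- products
  set P := (Ioc R₁ z₀).filter Nat.Prime with hP
  have hPp : ∀ q ∈ P, q.Prime := fun q hq => (mem_filter.1 hq).2
  have hR : R₁ ≤ z₀ := by
    have : (R₁ : ℝ) ≤ z₀ := f2.trans hz1
    exact_mod_cast this
  have hz1' : 1 ≤ z₀ := by
    have : (1 : ℝ) ≤ z₀ := by linarith
    exact_mod_cast this
  have hsplit := prod_split hM hd hR
  have hmer := hMer z₀ hz1'
  set PP := ∏ p ∈ (Icc 1 z₀).filter Nat.Prime, (1 - 1 / (p : ℝ)) with hPP
  set PR := ∏ p ∈ P, (1 - 1 / (p : ℝ)) with hPR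
  rw [← hφ] at hsplit
  have hlogz : Real.log (z₀ + 1) ≤ 2 * w := by
    have : (z₀ : ℝ) + 1 ≤ (z₀ : ℝ) ^ 2 := by nlinarith
    calc Real.log (z₀ + 1) ≤ Real.log ((z₀ : ℝ) ^ 2) := Real.log_le_log (by linarith) this
      _ = 2 * w := by rw [Real.log_pow, hw]; norm_num
  have hlogz0 : 0 < Real.log (z₀ + 1) := Real.log_pos (by linarith)
  have hPPge : c₀ / (2 * w) ≤ PP := by
    refine le_trans ?_ hmer
    exact div_le_div_of_nonneg_left hc.le hlogz0 hlogz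
  have hPRpos : 0 < PR := prod_pos fun p hp => one_sub_pos (hPp p hp)
  have hPPR : PP ≤ PR := by
    have h1 : PP * M₁ = φ * PR := hsplit
    have h2 : φ * PR ≤ M₁ * PR := mul_le_mul_of_nonneg_right hφM hPRpos.le
    have h3 : PP * M₁ ≤ PR * M₁ := by rw [h1]; linarith
    exact le_of_mul_le_mul_right h3 hM0
  have hsum : ∑ q ∈ P, 1 / (q : ℝ) ≤ lam := by
    refine (sum_inv_le P hPp).trans ?_
    rw [← hPR, hlam, ← Real.log_inv]
    apply Real.log_le_log (by positivity)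
    rw [inv_le_comm₀ hPRpos (by positivity), inv_div]
    exact hPPge.trans hPPR
  -- the sieve
  have hcop : ∀ q ∈ P, Nat.Coprime M₁ q := by
    intro q hq
    have h1 := hPp q hq
    rw [Nat.coprime_comm, Nat.Prime.coprime_iff_not_dvd h1, hd q h1]
    have := (mem_Ioc.1 (mem_filter.1 hq).1).1
    omega
  have hPcard : (P.card : ℝ) ≤ z₀ := by
    have : P.card ≤ z₀ := by
      calc P.card ≤ (Ioc R₁ z₀).card := card_filter_le _ _
        _ ≤ z₀ := by rw [Nat.card_Ioc]; omega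
    exact_mod_cast this
  have hbr := Pool.Agent.Lib_helper10.Erdos460.brun_pure a B M₁ ξ hM P hPp hcop (fun _ => {0})
    (fun q hq r hr => by rw [mem_singleton.1 hr]; exact (hPp q hq).pos) (fun q _ => by simp)
    z₀ hPcard (by linarith) k lam (by simpa using hsum)
  simp only [card_singleton, Nat.cast_one] at hbr
  rw [← hPR] at hbr
  have hbr1 := (abs_le.1 hbr).1
  have hnq := nonsq X z₀ a B ξ M₁ hz1' hX3 (fun n => ∀ q ∈ P, n % q ∉ ({0} : Finset ℕ)) (by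
    intro x hx hxQ p hp
    have hpp : p.Prime := Nat.prime_of_mem_primeFactors hp
    have hpx : p ∣ x := Nat.dvd_of_mem_primeFactors hp
    by_contra hlt
    push Not at hlt
    by_cases hpR : p ≤ R₁
    · have hpM : p ∣ M₁ := (hd p hpp).2 hpR
      have h1 : x.Coprime M₁ := by
        have := hx.gcd_eq
        rw [Nat.Coprime, this]; exact hξ
      have h2 : p ∣ Nat.gcd x M₁ := Nat.dvd_gcd hpx hpM
      rw [Nat.Coprime] at h1
      rw [h1] at h2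
      exact hpp.one_lt.ne' (Nat.dvd_one.1 h2)
    · have hpP : p ∈ P := mem_filter.2 ⟨mem_Ioc.2 ⟨by omega, hlt⟩, hpp⟩
      exact hxQ p hpP (by rw [mem_singleton]; exact Nat.mod_eq_zero_of_dvd hpx))
  -- numerical estimates
  set u : ℝ := c₀ * B / (φ * w) with hu
  have hφw : 0 < φ * w := by positivity
  have hexpB : Real.exp (9 / 10 * ℓ) ≤ B := by
    have : (X : ℝ) ^ (9 / 10 : ℝ) = Real.exp (9 / 10 * ℓ) := by
      rw [Real.rpow_def_of_pos hX0, hℓ, mul_comm]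
    rw [← this]; exact hB
  have hB0 : (0 : ℝ) ≤ B := Nat.cast_nonneg B
  have hbig : 48 * φ * w ≤ c₀ * Real.exp (2 * ℓ / 5) := by
    refine le_trans ?_ f8
    exact mul_le_mul_of_nonneg_left hwA (by positivity)
  have key : ∀ y : ℝ, 0 ≤ y → y * Real.exp (2 * ℓ / 5) ≤ Real.exp (9 / 10 * ℓ) → 3 * y ≤ u / 16 := by
    intro y hy hyE
    rw [hu, le_div_iff₀ (by norm_num), le_div_iff₀ hφw]
    have h1 := mul_le_mul_of_nonneg_right hbig hy
    have h2 : c₀ * (y * Real.exp (2 * ℓ / 5)) ≤ c₀ * B :=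
      mul_le_mul_of_nonneg_left (hyE.trans hexpB) hc.le
    calc 3 * y * 16 * (φ * w) = 48 * φ * w * y := by ring
      _ ≤ c₀ * Real.exp (2 * ℓ / 5) * y := h1
      _ = c₀ * (y * Real.exp (2 * ℓ / 5)) := by ring
      _ ≤ c₀ * B := h2
  -- main term
  have hmain : u / 2 ≤ (B : ℝ) / M₁ * PR := by
    have h1 : (B : ℝ) / M₁ * PR = B * PP / φ := by
      rw [div_mul_eq_mul_div, div_eq_div_iff hM0.ne' (by positivity)]
      calc (B : ℝ) * PR * φ = B * (φ * PR) := by ring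
        _ = B * (PP * M₁) := by rw [hsplit]
        _ = _ := by ring
    rw [h1, hu]
    have h2 : c₀ * B / (φ * w) / 2 = B * (c₀ / (2 * w)) / φ := by field_simp
    rw [h2]
    exact div_le_div_of_nonneg_right (mul_le_mul_of_nonneg_left hPPge hB0) (by positivity)
  -- error 1
  have herr1 : 2 * ((B : ℝ) / M₁ * (lam ^ k / (k.factorial : ℝ))) ≤ u / 16 := by
    have h1 := fac_le lam hlam0 k hk1
    have h2 : Real.exp (-(2 * lam)) = (c₀ / (2 * w)) ^ 2 := by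
      have e1 : -(2 * lam) = ((2 : ℕ) : ℝ) * (-lam) := by push_cast; ring
      rw [e1, Real.exp_nat_mul, Real.exp_neg, hlam, Real.exp_log (by positivity), inv_div]
    rw [h2] at h1
    have h3 : (B : ℝ) / M₁ ≤ B / φ := div_le_div_of_nonneg_left hB0 (by positivity) hφM
    have h4 : (B : ℝ) / M₁ * (lam ^ k / (k.factorial : ℝ)) ≤ B / φ * (c₀ / (2 * w)) ^ 2 :=
      mul_le_mul h3 h1 (by positivity) (by positivity)
    have h5 : 2 * ((B : ℝ) / φ * (c₀ / (2 * w)) ^ 2) = u * (c₀ / (2 * w)) := by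
      rw [hu]; field_simp
    have h6 : c₀ / (2 * w) ≤ 1 / 16 := by
      rw [div_le_div_iff₀ (by positivity) (by norm_num)]
      linarith
    have h7 : 0 ≤ u := by rw [hu]; positivity
    have h8 := mul_le_mul_of_nonneg_left h6 h7
    linarith
  -- error 2
  have herr2 : 3 * (2 * (z₀ : ℝ)) ^ k ≤ u / 16 := by
    refine key _ (by positivity) ?_
    have h1 : (2 * (z₀ : ℝ)) ^ k ≤ Real.exp (ℓ / 10) := by
      have e1 : (2 * (z₀ : ℝ)) ^ k = Real.exp (k * (Real.log 2 + w)) := by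
        rw [Real.exp_nat_mul, hw, ← Real.log_mul (by norm_num) hz0.ne', Real.exp_log (by positivity)]
      rw [e1]
      apply Real.exp_le_exp.2
      have e2 : Real.log 2 ≤ 1 := by have := Real.log_two_lt_d9; linarith
      have e3 : (k : ℝ) ≤ 5 * w + 1 := by linarith
      have e4 : (k : ℝ) * (Real.log 2 + w) ≤ (5 * w + 1) * (1 + w) :=
        mul_le_mul e3 (by linarith) (by have := Real.log_two_gt_d9; linarith) (by linarith)
      have e5 : (5 * w + 1) * (1 + w) ≤ 12 * w ^ 2 := by nlinarith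
      have e6 : w ^ 2 ≤ (A * Real.log ℓ) ^ 2 := pow_le_pow_left₀ hw0.le hwA 2
      linarith
    calc (2 * (z₀ : ℝ)) ^ k * Real.exp (2 * ℓ / 5)
        ≤ Real.exp (ℓ / 10) * Real.exp (2 * ℓ / 5) :=
          mul_le_mul_of_nonneg_right h1 (Real.exp_pos _).le
      _ = Real.exp (ℓ / 10 + 2 * ℓ / 5) := by rw [Real.exp_add]
      _ ≤ Real.exp (9 / 10 * ℓ) := Real.exp_le_exp.2 (by linarith)
  -- error 3
  have herr3 : (B : ℝ) / z₀ ≤ u / 16 := by
    have h1 : w ≤ 2 * Real.sqrt z₀ := by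
      have e1 : w = 2 * Real.log (Real.sqrt z₀) := by
        rw [Real.log_sqrt hz0.le, hw]; ring
      have e2 := Real.log_le_sub_one_of_pos (Real.sqrt_pos.2 hz0)
      rw [e1]; linarith
    have h2 : 32 * φ / c₀ ≤ Real.sqrt z₀ := Real.le_sqrt_of_sq_le (f9.trans hz1)
    have h3 : 32 * φ ≤ c₀ * Real.sqrt z₀ := by
      have := (div_le_iff₀ hc).1 h2; linarith
    have h4 : Real.sqrt z₀ * Real.sqrt z₀ = z₀ := Real.mul_self_sqrt hz0.le
    have h5 : 16 * (φ * w) ≤ c₀ * z₀ := by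
      calc 16 * (φ * w) ≤ 16 * (φ * (2 * Real.sqrt z₀)) := by
            refine mul_le_mul_of_nonneg_left (mul_le_mul_of_nonneg_left h1 (by linarith)) (by norm_num)
        _ = 32 * φ * Real.sqrt z₀ := by ring
        _ ≤ c₀ * Real.sqrt z₀ * Real.sqrt z₀ := mul_le_mul_of_nonneg_right h3 (Real.sqrt_nonneg _)
        _ = c₀ * z₀ := by rw [mul_assoc, h4]
    rw [hu, div_div, div_le_div_iff₀ hz0 (by positivity)]
    calc (B : ℝ) * (φ * w * 16) = B * (16 * (φ * w)) := by ring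
      _ ≤ B * (c₀ * z₀) := mul_le_mul_of_nonneg_left h5 hB0
      _ = c₀ * B * z₀ := by ring
  -- error 4
  have herr4 : (Nat.sqrt (3 * X) : ℝ) ≤ u / 16 := by
    have h1 : (Nat.sqrt (3 * X) : ℝ) ≤ 3 * Real.exp (ℓ / 2) := by
      have e1 : (Nat.sqrt (3 * X) : ℝ) ≤ Real.sqrt ((3 * X : ℕ) : ℝ) := Real.nat_sqrt_le_real_sqrt
      refine e1.trans ?_
      rw [Real.sqrt_le_left (by positivity)]
      have e2 : (3 * Real.exp (ℓ / 2)) ^ 2 = 9 * X := by
        rw [mul_pow, ← Real.exp_nat_mul]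
        have : ((2 : ℕ) : ℝ) * (ℓ / 2) = ℓ := by push_cast; ring
        rw [this, hℓ, Real.exp_log hX0]; norm_num
      rw [e2]; push_cast; linarith
    refine h1.trans (key _ (Real.exp_pos _).le ?_)
    rw [← Real.exp_add]
    exact Real.exp_le_exp.2 (by linarith)
  have hfin : c₀ / 4 * B / (φ * w) = u / 4 := by rw [hu]; ring
  rw [hfin]
  linarith

end

end MUR
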