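import Mathlib
import Pool.Agent.MUR.StB
import Pool.Agent.IPR.BVP

set_option autoImplicit false

/-!
# Project MUR, module BVG: the mean value theorem for primes in progressions

Vaughan's identity with both parameters `V = ⌊Y^(1/5)⌋`; the bilinear part is covered twice by the
statement TYP2 (the pairs with `m^2 ≤ Y` and, with exchanged roles, those with `m^2 > Y`).
-/

namespace MUR

open Finset IPR
open Pool.Agent.Lib_helper83.EF (e)
open scoped ArithmeticFunction.zeta ArithmeticFunction.Moebius ArithmeticFunction.vonMangoldt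

noncomputable section

namespace BVG

open Pool.Agent.Lib_helper72.AP

lemma dsc_add (f c u : ℕ) (r : ℤ) (X Y : ℕ) (F G : ArithmeticFunction ℝ) :
    dsc f c u r X Y (F + G) = dsc f c u r X Y F + dsc f c u r X Y G := by
  simp only [dsc, ArithmeticFunction.add_apply, add_mul, Finset.sum_add_distrib]

lemma dsc_sub (f c u : ℕ) (r : ℤ) (X Y : ℕ) (F G : ArithmeticFunction ℝ) :
    dsc f c u r X Y (F - G) = dsc f c u r X Y F - dsc f c u r X Y G := by
  have h : F = (F - G) + G := by ring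
  have h2 := dsc_add f c u r X Y (F - G) G
  rw [← h] at h2
  linarith

lemma dsc_mul (f c u : ℕ) (r : ℤ) (X Y : ℕ) (F G : ArithmeticFunction ℝ) :
    dsc f c u r X Y (F * G) = ∑ m ∈ Ioc 0 Y, F m *
      ∑ k ∈ (Ioc (X / m) (Y / m)).filter (fun k => m * k ≡ c [MOD f]),
        G k * ps u r (m * k) := by
  have h := sum_conv_weight F G (fun n => if n ≡ c [MOD f] then ps u r n else 0) X Y
  rw [dsc, Finset.sum_filter]
  have h1 : ∀ n ∈ Ioc X Y, (if n ≡ c [MOD f] then (F * G) n * ps u r n else 0) =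
      (F * G) n * (if n ≡ c [MOD f] then ps u r n else 0) := by
    intro n _
    split_ifs <;> simp
  rw [Finset.sum_congr rfl h1, h]
  apply Finset.sum_congr rfl
  intro m _
  congr 1
  rw [Finset.sum_filter]
  apply Finset.sum_congr rfl
  intro k _
  split_ifs <;> simp

/-- The small part. -/
lemma small_le (f c u : ℕ) (r : ℤ) (X Y V : ℕ) (hVY : V ≤ Y) :
    |dsc f c u r X Y (small Λ V)| ≤ V * Real.log Y := by
  classical
  rw [dsc]
  refine (Finset.abs_sum_le_sum_abs _ _).trans ?_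
  have h1 : ∀ n ∈ (Ioc X Y).filter (fun n => n ≡ c [MOD f]), |small Λ V n * ps u r n| ≤
      if n ≤ V then Real.log Y else 0 := by
    intro n hn
    rw [mem_filter, mem_Ioc] at hn
    rw [small_apply]
    split_ifs with h
    · rw [abs_mul, abs_of_nonneg ArithmeticFunction.vonMangoldt_nonneg]
      have h2 := BVP.abs_ps_le u r n
      have h3 : (ArithmeticFunction.vonMangoldt n : ℝ) ≤ Real.log n :=
        ArithmeticFunction.vonMangoldt_le_log
      have h4 : Real.log n ≤ Real.log Y := by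
        apply Real.log_le_log
        · have : 0 < n := by omega
          exact_mod_cast this
        · exact_mod_cast hn.1.2
      calc (ArithmeticFunction.vonMangoldt n : ℝ) * |ps u r n|
          ≤ ArithmeticFunction.vonMangoldt n * 1 :=
            mul_le_mul_of_nonneg_left h2 ArithmeticFunction.vonMangoldt_nonneg
        _ ≤ Real.log Y := by linarith
    · simp
  refine (Finset.sum_le_sum h1).trans ?_
  rw [← Finset.sum_filter, Finset.sum_const, nsmul_eq_mul]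
  apply mul_le_mul_of_nonneg_right _ (Real.log_natCast_nonneg Y)
  have h3 : ((Ioc X Y).filter (fun n => n ≡ c [MOD f])).filter (fun m => m ≤ V) ⊆ Ioc 0 V := by
    intro x hx
    rw [mem_filter, mem_filter, mem_Ioc] at hx
    rw [mem_Ioc]
    omega
  have := Finset.card_le_card h3
  rw [Nat.card_Ioc, Nat.sub_zero] at this
  exact_mod_cast this

/-- The general Type I estimate. -/
lemma typeI (f c u : ℕ) (r : ℤ) (X Y E : ℕ) (F G : ArithmeticFunction ℝ)
    (hF : ∀ m, E < m → F m = 0) (B D : ℝ) (hB : ∀ m, m ≤ E → |F m| ≤ B)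
    (hD : ∀ m, |∑ k ∈ (Ioc (X / m) (Y / m)).filter (fun k => m * k ≡ c [MOD f]),
      G k * ps u r (m * k)| ≤ D) :
    |dsc f c u r X Y (F * G)| ≤ E * (B * D) := by
  classical
  rw [dsc_mul]
  have hB0 : 0 ≤ B := (abs_nonneg _).trans (hB 0 (Nat.zero_le _))
  have hD0 : 0 ≤ D := (abs_nonneg _).trans (hD 0)
  have h1 : ∀ m ∈ Ioc 0 Y, |F m *
      ∑ k ∈ (Ioc (X / m) (Y / m)).filter (fun k => m * k ≡ c [MOD f]), G k * ps u r (m * k)| ≤
        if m ≤ E then B * D else 0 := by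
    intro m _
    split_ifs with h
    · rw [abs_mul]
      exact mul_le_mul (hB m h) (hD m) (abs_nonneg _) hB0
    · rw [hF m (by omega)]
      simp
  refine (Finset.abs_sum_le_sum_abs _ _).trans ((Finset.sum_le_sum h1).trans ?_)
  rw [← Finset.sum_filter, Finset.sum_const, nsmul_eq_mul]
  apply mul_le_mul_of_nonneg_right _ (mul_nonneg hB0 hD0)
  have h3 : (Ioc 0 Y).filter (fun m => m ≤ E) ⊆ Ioc 0 E := by
    intro x hx
    rw [mem_filter, mem_Ioc] at hx
    rw [mem_Ioc]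
    omega
  have := Finset.card_le_card h3
  rw [Nat.card_Ioc, Nat.sub_zero] at this
  exact_mod_cast this

/-- One inner sum of the bilinear form, written over a fixed range. -/
lemma inner_eq (E X Y m : ℕ) (hm : 0 < m) (Q : ℕ → Prop) [DecidablePred Q] (g : ℕ → ℝ) :
    ∑ k ∈ (Ioc (max E (X / m)) (Y / m)).filter Q, g k =
      ∑ k ∈ Ioc 0 Y, if (E < k ∧ X < m * k ∧ m * k ≤ Y ∧ Q k) then g k else 0 := by
  classical
  rw [← Finset.sum_filter]
  apply Finset.sum_congr _ (fun _ _ => rfl)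
  ext k
  simp only [mem_filter, mem_Ioc, max_lt_iff]
  rw [Nat.div_lt_iff_lt_mul hm, Nat.le_div_iff_mul_le hm, mul_comm k m]
  constructor
  · rintro ⟨⟨⟨h1, h2⟩, h3⟩, h4⟩
    have h5 : 0 < k := by omega
    exact ⟨⟨h5, (Nat.le_mul_of_pos_left k hm).trans h3⟩, h1, h2, h3, h4⟩
  · rintro ⟨_, h1, h2, h3, h4⟩
    exact ⟨⟨⟨h1, h2⟩, h3⟩, h4⟩

/-- The bilinear form of TYP2. -/
def bil (E X Y f c u : ℕ) (r : ℤ) (a b : ℕ → ℝ) : ℝ :=
  ∑ m ∈ Ioc 0 Y, ∑ k ∈ (Ioc (max E (X / m)) (Y / m)).filter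
    (fun k => m * k ≡ c [MOD f]), a m * b k * ps u r (m * k)

/-- The Type II part is a sum of two bilinear forms. -/
lemma split (X Y f c u : ℕ) (r : ℤ) (F G : ArithmeticFunction ℝ) :
    dsc f c u r X Y (F * G) =
      bil 0 X Y f c u r (fun m => if m ^ 2 ≤ Y then F m else 0) (fun k => G k) +
      bil (Nat.sqrt Y) X Y f c u r (fun k => if k ^ 2 ≤ Y then G k else 0) (fun m => F m) := by
  classical
  rw [dsc_mul, bil, bil]
  have e0 : ∀ m ∈ Ioc 0 Y, F m *
      ∑ k ∈ (Ioc (X / m) (Y / m)).filter (fun k => m * k ≡ c [MOD f]), G k * ps u r (m * k) =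
      ∑ k ∈ Ioc 0 Y, if (0 < k ∧ X < m * k ∧ m * k ≤ Y ∧ m * k ≡ c [MOD f]) then
        F m * (G k * ps u r (m * k)) else 0 := by
    intro m hm
    rw [mem_Ioc] at hm
    rw [Finset.mul_sum, ← inner_eq 0 X Y m hm.1 (fun k => m * k ≡ c [MOD f])
      (fun k => F m * (G k * ps u r (m * k))), Nat.zero_max]
  have e1 : ∀ m ∈ Ioc 0 Y, (∑ k ∈ (Ioc (max 0 (X / m)) (Y / m)).filter
      (fun k => m * k ≡ c [MOD f]), (if m ^ 2 ≤ Y then F m else 0) * G k * ps u r (m * k)) =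
      ∑ k ∈ Ioc 0 Y, if (0 < k ∧ X < m * k ∧ m * k ≤ Y ∧ m * k ≡ c [MOD f]) then
        (if m ^ 2 ≤ Y then F m else 0) * G k * ps u r (m * k) else 0 := by
    intro m hm
    rw [mem_Ioc] at hm
    exact inner_eq 0 X Y m hm.1 (fun k => m * k ≡ c [MOD f]) _
  have e2 : ∀ k ∈ Ioc 0 Y, (∑ m ∈ (Ioc (max (Nat.sqrt Y) (X / k)) (Y / k)).filter
      (fun m => k * m ≡ c [MOD f]), (if k ^ 2 ≤ Y then G k else 0) * F m * ps u r (k * m)) =
      ∑ m ∈ Ioc 0 Y, if (Nat.sqrt Y < m ∧ X < k * m ∧ k * m ≤ Y ∧ k * m ≡ c [MOD f]) then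
        (if k ^ 2 ≤ Y then G k else 0) * F m * ps u r (k * m) else 0 := by
    intro k hk
    rw [mem_Ioc] at hk
    exact inner_eq (Nat.sqrt Y) X Y k hk.1 (fun m => k * m ≡ c [MOD f]) _
  rw [Finset.sum_congr rfl e0, Finset.sum_congr rfl e1, Finset.sum_congr rfl e2]
  rw [Finset.sum_comm (s := Ioc 0 Y) (t := Ioc 0 Y) (f := fun k m =>
    if (Nat.sqrt Y < m ∧ X < k * m ∧ k * m ≤ Y ∧ k * m ≡ c [MOD f]) then
        (if k ^ 2 ≤ Y then G k else 0) * F m * ps u r (k * m) else 0)]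
  rw [← Finset.sum_add_distrib]
  apply Finset.sum_congr rfl
  intro m hm
  rw [← Finset.sum_add_distrib]
  apply Finset.sum_congr rfl
  intro k hk
  rw [mem_Ioc] at hm hk
  rw [mul_comm k m]
  by_cases h : X < m * k ∧ m * k ≤ Y ∧ m * k ≡ c [MOD f]
  · rw [if_pos ⟨hk.1, h⟩, if_pos ⟨hk.1, h⟩]
    by_cases h2 : m ^ 2 ≤ Y
    · have h3 : ¬ (Nat.sqrt Y < m ∧ X < m * k ∧ m * k ≤ Y ∧ m * k ≡ c [MOD f]) := by
        rintro ⟨h4, -⟩
        rw [Nat.sqrt_lt'] at h4
        omega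
      rw [if_pos h2, if_neg h3]
      ring
    · have h3 : Nat.sqrt Y < m := by
        rw [Nat.sqrt_lt']
        omega
      have h4 : k ^ 2 ≤ Y := by
        by_contra h5
        push Not at h2 h5
        have h6 : Y * Y < (m * k) * (m * k) := by
          calc Y * Y < m ^ 2 * k ^ 2 := Nat.mul_lt_mul'' h2 h5
            _ = (m * k) * (m * k) := by ring
        have h7 := Nat.mul_le_mul h.2.1 h.2.1
        omega
      rw [if_neg h2, if_pos ⟨h3, h⟩, if_pos h4]
      ring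
  · have h3 : ¬ (0 < k ∧ X < m * k ∧ m * k ≤ Y ∧ m * k ≡ c [MOD f]) := fun h4 => h h4.2
    have h5 : ¬ (Nat.sqrt Y < m ∧ X < m * k ∧ m * k ≤ Y ∧ m * k ≡ c [MOD f]) :=
      fun h4 => h h4.2
    rw [if_neg h3, if_neg h3, if_neg h5, add_zero]

/-- The sum of `2 ^ ω`. -/
lemma two_pow_le (u : ℕ) (hu : u ≠ 0) : (2 : ℝ) ^ u.primeFactors.card ≤ (u.divisors.card : ℝ) := by
  have h : 2 ^ u.primeFactors.card ≤ u.divisors.card := by
    rw [Nat.card_divisors hu, ← Finset.prod_const]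
    apply Finset.prod_le_prod'
    intro p hp
    have : 0 < u.factorization p := by
      rw [Nat.mem_primeFactors] at hp
      exact hp.1.factorization_pos_of_dvd hu hp.2.1
    omega
  exact_mod_cast h

lemma sum_divisors_le (N : ℕ) :
    ∑ u ∈ Ioc 0 N, (u.divisors.card : ℝ) ≤ N * (1 + Real.log N) := by
  classical
  have h1 : ∀ u ∈ Ioc 0 N, u.divisors.card = ∑ d ∈ Ioc 0 N, if d ∣ u then 1 else 0 := by
    intro u hu
    rw [mem_Ioc] at hu
    rw [Finset.sum_boole, Nat.cast_id]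
    congr 1
    ext d
    rw [Nat.mem_divisors, mem_filter, mem_Ioc]
    constructor
    · rintro ⟨h2, h3⟩
      exact ⟨⟨Nat.pos_of_dvd_of_pos h2 hu.1, (Nat.le_of_dvd hu.1 h2).trans hu.2⟩, h2⟩
    · rintro ⟨-, h2⟩
      exact ⟨h2, by omega⟩
  have h2 : ∑ u ∈ Ioc 0 N, u.divisors.card = ∑ d ∈ Ioc 0 N, N / d := by
    rw [Finset.sum_congr rfl h1, Finset.sum_comm]
    apply Finset.sum_congr rfl
    intro d _
    rw [Finset.sum_boole, Nat.cast_id, Nat.Ioc_filter_dvd_card_eq_div]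
  have h3 : ∑ u ∈ Ioc 0 N, (u.divisors.card : ℝ) = ∑ d ∈ Ioc 0 N, ((N / d : ℕ) : ℝ) := by
    exact_mod_cast h2
  rw [h3]
  have h4 : ∑ d ∈ Ioc 0 N, ((N / d : ℕ) : ℝ) ≤ ∑ d ∈ Ioc 0 N, (N : ℝ) * (d : ℝ)⁻¹ := by
    apply Finset.sum_le_sum
    intro d _
    rw [← div_eq_mul_inv]
    exact Nat.cast_div_le
  refine h4.trans ?_
  rw [← Finset.mul_sum]
  apply mul_le_mul_of_nonneg_left _ (Nat.cast_nonneg N)
  have h5 := harmonic_le_one_add_log N
  rw [harmonic_eq_sum_Icc] at h5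
  push_cast at h5
  exact h5

lemma sum_two_pow_le (P : Finset ℕ) (U : ℕ) (hP : ∀ u ∈ P, 1 < u ∧ u ≤ 2 * U) :
    ∑ u ∈ P, (2 : ℝ) ^ u.primeFactors.card ≤ (2 * U) * (1 + Real.log (2 * U)) := by
  classical
  have h1 : P ⊆ Ioc 0 (2 * U) := by
    intro u hu
    have := hP u hu
    rw [mem_Ioc]
    omega
  have h2 : ∑ u ∈ P, (2 : ℝ) ^ u.primeFactors.card ≤ ∑ u ∈ P, (u.divisors.card : ℝ) := by
    apply Finset.sum_le_sum
    intro u hu
    have := hP u hu
    exact two_pow_le u (by omega)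
  have h3 : ∑ u ∈ P, (u.divisors.card : ℝ) ≤ ∑ u ∈ Ioc 0 (2 * U), (u.divisors.card : ℝ) :=
    Finset.sum_le_sum_of_subset_of_nonneg h1 (fun _ _ _ => Nat.cast_nonneg _)
  have h4 := sum_divisors_le (2 * U)
  push_cast at h4
  linarith

/-- The parameter `V`. -/
lemma exists_V (Y : ℕ) : ∃ V : ℕ, V ^ 5 ≤ Y ∧ Y < (V + 1) ^ 5 := by
  classical
  have hex : ∃ n : ℕ, Y < (n + 1) ^ 5 := by
    refine ⟨Y, ?_⟩
    calc Y < Y + 1 := Nat.lt_succ_self Y
      _ = (Y + 1) ^ 1 := (pow_one _).symm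
      _ ≤ (Y + 1) ^ 5 := Nat.pow_le_pow_right (Nat.succ_pos Y) (by norm_num)
  refine ⟨Nat.find hex, ?_, Nat.find_spec hex⟩
  rcases Nat.eq_zero_or_pos (Nat.find hex) with h | h
  · rw [h]
    simp
  · have h2 := Nat.find_min hex (m := Nat.find hex - 1) (by omega)
    have h3 : Nat.find hex - 1 + 1 = Nat.find hex := by omega
    rw [h3] at h2
    omega

/-- One modulus. -/
lemma one_modulus (hT : S_TYB) {X Y V f c u : ℕ} {r : ℤ} (hV : V ^ 5 ≤ Y) (hY : 1 ≤ Y)
    (h1 : Squarefree u) (h2 : 1 < u) (h3 : 1 ≤ f) (h4 : u.Coprime f) (h5 : c.Coprime f)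
    (h6 : UnitM r u) :
    |dsp f c u r X Y| ≤
      |bil 0 X Y f c u r (fun m => if m ^ 2 ≤ Y then large muR V m else 0)
        (fun k => (large Λ V * (ζ : ArithmeticFunction ℝ)) k)| +
      |bil (Nat.sqrt Y) X Y f c u r
        (fun k => if k ^ 2 ≤ Y then (large Λ V * (ζ : ArithmeticFunction ℝ)) k else 0)
        (fun m => large muR V m)| +
      (V * Real.log Y + (V + V * V) * ((2 : ℝ) ^ u.primeFactors.card * Real.log (Y + 1)) +
        2 * Real.sqrt Y * Real.log Y) := by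
  have hlog0 : 0 ≤ Real.log ((Y : ℝ) + 1) := Real.log_nonneg (by
    have : (0 : ℝ) ≤ Y := Nat.cast_nonneg _
    linarith)
  have hVV : V * V ≤ Y := by
    rcases Nat.eq_zero_or_pos V with h | h
    · rw [h]
      omega
    · calc V * V = V ^ 2 := (sq V).symm
        _ ≤ V ^ 5 := Nat.pow_le_pow_right h (by norm_num)
        _ ≤ Y := hV
  have hVY : V ≤ Y := by
    rcases Nat.eq_zero_or_pos V with h | h
    · omega
    · exact (Nat.le_mul_of_pos_left V h).trans hVV
  have a1 := BVP.dsp_le f c u r X Y hY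
  have a2 := congrArg (dsc f c u r X Y) (vaughan V V)
  rw [dsc_add, dsc_sub, dsc_add, split X Y f c u r (large muR V)
    (large Λ V * (ζ : ArithmeticFunction ℝ))] at a2
  have a3 := small_le f c u r X Y V hVY
  have a4 : |dsc f c u r X Y (small muR V * ArithmeticFunction.log)| ≤
      V * (1 * ((2 : ℝ) ^ u.primeFactors.card * Real.log (Y + 1))) := by
    apply typeI f c u r X Y V (small muR V) ArithmeticFunction.log
    · intro m hm
      rw [small_apply, if_neg (by omega)]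
    · intro m hm
      rw [small_apply, if_pos hm]
      exact abs_muR_le m
    · intro m
      simp only [ArithmeticFunction.log_apply]
      refine (hT u f c m (X / m) (Y / m) r h1 h2 h3 h4 h5 h6).2.1.trans ?_
      apply mul_le_mul_of_nonneg_left _ (by positivity)
      apply Real.log_le_log
      · positivity
      · have : ((Y / m : ℕ) : ℝ) ≤ Y := by exact_mod_cast Nat.div_le_self Y m
        linarith
  have a5 : |dsc f c u r X Y ((small muR V * small Λ V) * (ζ : ArithmeticFunction ℝ))| ≤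
      (V * V : ℕ) * (Real.log (Y + 1) * (2 : ℝ) ^ u.primeFactors.card) := by
    apply typeI f c u r X Y (V * V) (small muR V * small Λ V) (ζ : ArithmeticFunction ℝ)
    · intro m hm
      exact small_mul_small_eq_zero V V m hm
    · intro m hm
      refine (abs_small_mul_small_le V V m).trans ?_
      rcases Nat.eq_zero_or_pos m with h | h
      · rw [h]
        simpa using hlog0
      · apply Real.log_le_log (by exact_mod_cast h)
        have : (m : ℝ) ≤ Y := by exact_mod_cast hm.trans hVV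
        linarith
    · intro m
      have e1 : ∑ k ∈ (Ioc (X / m) (Y / m)).filter (fun k => m * k ≡ c [MOD f]),
          (ζ : ArithmeticFunction ℝ) k * ps u r (m * k) =
          ∑ k ∈ (Ioc (X / m) (Y / m)).filter (fun k => m * k ≡ c [MOD f]), ps u r (m * k) := by
        apply Finset.sum_congr rfl
        intro k hk
        rw [mem_filter, mem_Ioc] at hk
        have hk0 : k ≠ 0 := (Nat.lt_of_le_of_lt (Nat.zero_le _) hk.1.1).ne'
        simp [hk0]
      rw [e1]
      exact (hT u f c m (X / m) (Y / m) r h1 h2 h3 h4 h5 h6).1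
  push_cast at a5
  set T0 := dsc f c u r X Y (small Λ V)
  set T1 := dsc f c u r X Y (small muR V * ArithmeticFunction.log)
  set T2 := dsc f c u r X Y ((small muR V * small Λ V) * (ζ : ArithmeticFunction ℝ))
  set A := bil 0 X Y f c u r (fun m => if m ^ 2 ≤ Y then large muR V m else 0)
    (fun k => (large Λ V * (ζ : ArithmeticFunction ℝ)) k)
  set B := bil (Nat.sqrt Y) X Y f c u r
    (fun k => if k ^ 2 ≤ Y then (large Λ V * (ζ : ArithmeticFunction ℝ)) k else 0)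
    (fun m => large muR V m)
  have a6 : |dsc f c u r X Y Λ| ≤ |A| + |B| + (|T0| + |T1| + |T2|) := by
    rw [a2]
    have b1 := abs_add_le (T0 + T1 - T2) (A + B)
    have b2 := abs_sub (T0 + T1) T2
    have b3 := abs_add_le T0 T1
    have b4 := abs_add_le A B
    linarith
  have a7 : (V : ℝ) * (1 * ((2 : ℝ) ^ u.primeFactors.card * Real.log (Y + 1))) +
      (V : ℝ) * V * (Real.log (Y + 1) * (2 : ℝ) ^ u.primeFactors.card) =
      (V + V * V) * ((2 : ℝ) ^ u.primeFactors.card * Real.log (Y + 1)) := by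
    ring
  linarith

/-- The arithmetic of the error terms. -/
lemma arith (ϖ : ℝ) (h0 : 0 < ϖ) (h1 : ϖ ≤ 1 / 4) {y v U p s : ℝ} (hy : 16 ≤ y)
    (hyK : (2 + 550 / ϖ ^ 2) ^ (30 / ϖ) ≤ y) (hv0 : 0 ≤ v) (hv : v ≤ y ^ ((1 : ℝ) / 5))
    (hU1 : 1 ≤ U) (hU : U ≤ y ^ (1 / 2 - ϖ)) (hp0 : 0 ≤ p) (hp : p ≤ 2 * U)
    (hs : s ≤ (2 * U) * (1 + Real.log (2 * U))) :
    2 * y ^ (1 - ϖ / 5) + (p * (v * Real.log y) +
      (v + v * v) * (s * Real.log (y + 1)) + p * (2 * Real.sqrt y * Real.log y)) ≤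
      y ^ (1 - ϖ / 6) := by
  have hy0 : 0 < y := by linarith
  have hy1 : 1 ≤ y := by linarith
  set L := Real.log y with hL
  have hL2 : 2 ≤ L := by
    rw [hL, Real.le_log_iff_exp_le hy0]
    have h3 : Real.exp 2 = Real.exp 1 * Real.exp 1 := by
      rw [← Real.exp_add]
      norm_num
    have h4 := Real.exp_one_lt_d9
    have h5 := Real.exp_pos 1
    rw [h3]
    nlinarith
  have hsq0 : 0 ≤ Real.sqrt y := Real.sqrt_nonneg y
  have hsq4 : 4 ≤ Real.sqrt y := by
    rw [Real.le_sqrt (by norm_num) hy0.le]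
    linarith
  have hsq : Real.sqrt y = y ^ ((1 : ℝ) / 2) := Real.sqrt_eq_rpow y
  -- bound for `v`
  have hvs : v * v ≤ Real.sqrt y := by
    calc v * v ≤ y ^ ((1 : ℝ) / 5) * y ^ ((1 : ℝ) / 5) :=
          mul_le_mul hv hv hv0 (Real.rpow_nonneg hy0.le _)
      _ = y ^ ((2 : ℝ) / 5) := by
          rw [← Real.rpow_add hy0]
          norm_num
      _ ≤ y ^ ((1 : ℝ) / 2) := Real.rpow_le_rpow_of_exponent_le hy1 (by norm_num)
      _ = Real.sqrt y := hsq.symm
  have hvs1 : v ≤ Real.sqrt y := by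
    rw [hsq]
    exact hv.trans (Real.rpow_le_rpow_of_exponent_le hy1 (by norm_num))
  -- bound for `U`
  have hUs : U ≤ Real.sqrt y := by
    rw [hsq]
    exact hU.trans (Real.rpow_le_rpow_of_exponent_le hy1 (by linarith))
  have hlogU : Real.log (2 * U) ≤ L := by
    apply Real.log_le_log (by linarith)
    have h5 := Real.mul_self_sqrt hy0.le
    nlinarith
  have hs2 : s ≤ 4 * U * L := by
    have h5 : (2 * U) * (1 + Real.log (2 * U)) ≤ (2 * U) * (2 * L) :=
      mul_le_mul_of_nonneg_left (by linarith) (by linarith)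
    linarith
  have hlog1 : Real.log (y + 1) ≤ 2 * L := by
    have h5 : Real.log (y + 1) ≤ Real.log (y ^ 2) := by
      apply Real.log_le_log (by linarith)
      nlinarith
    rw [Real.log_pow] at h5
    push_cast at h5
    exact h5
  have hlog1' : 0 ≤ Real.log (y + 1) := Real.log_nonneg (by linarith)
  -- the three terms
  have hL0 : 0 ≤ L := by linarith
  have t1 : p * (v * L) ≤ 2 * (U * Real.sqrt y * L ^ 2) := by
    have h5 : v * L ≤ Real.sqrt y * L ^ 2 := by
      have h6 : v * L ≤ Real.sqrt y * L := mul_le_mul_of_nonneg_right hvs1 hL0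
      have h7 : Real.sqrt y * L ≤ Real.sqrt y * L ^ 2 :=
        mul_le_mul_of_nonneg_left (by nlinarith) hsq0
      linarith
    calc p * (v * L) ≤ (2 * U) * (Real.sqrt y * L ^ 2) :=
          mul_le_mul hp h5 (mul_nonneg hv0 hL0) (by linarith)
      _ = 2 * (U * Real.sqrt y * L ^ 2) := by ring
  have t2 : (v + v * v) * (s * Real.log (y + 1)) ≤ 16 * (U * Real.sqrt y * L ^ 2) := by
    have h5 : s * Real.log (y + 1) ≤ (4 * U * L) * (2 * L) := by
      calc s * Real.log (y + 1) ≤ (4 * U * L) * Real.log (y + 1) :=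
            mul_le_mul_of_nonneg_right hs2 hlog1'
        _ ≤ (4 * U * L) * (2 * L) := mul_le_mul_of_nonneg_left hlog1 (by positivity)
    have h6 : v + v * v ≤ 2 * Real.sqrt y := by linarith
    calc (v + v * v) * (s * Real.log (y + 1)) ≤ (v + v * v) * ((4 * U * L) * (2 * L)) :=
          mul_le_mul_of_nonneg_left h5 (by positivity)
      _ ≤ (2 * Real.sqrt y) * ((4 * U * L) * (2 * L)) :=
          mul_le_mul_of_nonneg_right h6 (by positivity)
      _ = 16 * (U * Real.sqrt y * L ^ 2) := by ring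
  have t3 : p * (2 * Real.sqrt y * L) ≤ 4 * (U * Real.sqrt y * L ^ 2) := by
    have h5 : 2 * Real.sqrt y * L ≤ 2 * Real.sqrt y * L ^ 2 :=
      mul_le_mul_of_nonneg_left (by nlinarith) (by positivity)
    calc p * (2 * Real.sqrt y * L) ≤ (2 * U) * (2 * Real.sqrt y * L ^ 2) :=
          mul_le_mul hp h5 (by positivity) (by linarith)
      _ = 4 * (U * Real.sqrt y * L ^ 2) := by ring
  have t4 : U * Real.sqrt y ≤ y ^ (1 - ϖ) := by
    calc U * Real.sqrt y ≤ y ^ (1 / 2 - ϖ) * y ^ ((1 : ℝ) / 2) := by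
          rw [hsq]
          exact mul_le_mul_of_nonneg_right hU (Real.rpow_nonneg hy0.le _)
      _ = y ^ (1 - ϖ) := by
          rw [← Real.rpow_add hy0]
          congr 1
          ring
  have t5 : L ≤ 5 / ϖ * y ^ (ϖ / 5) := by
    have h5 := Real.log_le_rpow_div hy0.le (show 0 < ϖ / 5 by positivity)
    calc L ≤ y ^ (ϖ / 5) / (ϖ / 5) := h5
      _ = 5 / ϖ * y ^ (ϖ / 5) := by
          field_simp
  have t6 : L ^ 2 ≤ 25 / ϖ ^ 2 * y ^ (2 * ϖ / 5) := by
    calc L ^ 2 ≤ (5 / ϖ * y ^ (ϖ / 5)) ^ 2 := pow_le_pow_left₀ hL0 t5 2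
      _ = 25 / ϖ ^ 2 * (y ^ (ϖ / 5) * y ^ (ϖ / 5)) := by ring
      _ = 25 / ϖ ^ 2 * y ^ (2 * ϖ / 5) := by
          rw [← Real.rpow_add hy0]
          congr 2
          ring
  have t7 : U * Real.sqrt y * L ^ 2 ≤ 25 / ϖ ^ 2 * y ^ (1 - ϖ / 5) := by
    calc U * Real.sqrt y * L ^ 2 ≤ y ^ (1 - ϖ) * (25 / ϖ ^ 2 * y ^ (2 * ϖ / 5)) :=
          mul_le_mul t4 t6 (by positivity) (Real.rpow_nonneg hy0.le _)
      _ = 25 / ϖ ^ 2 * (y ^ (1 - ϖ) * y ^ (2 * ϖ / 5)) := by ring
      _ = 25 / ϖ ^ 2 * y ^ (1 - ϖ + 2 * ϖ / 5) := by rw [← Real.rpow_add hy0]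
      _ ≤ 25 / ϖ ^ 2 * y ^ (1 - ϖ / 5) := by
          apply mul_le_mul_of_nonneg_left _ (by positivity)
          exact Real.rpow_le_rpow_of_exponent_le hy1 (by linarith)
  have hK0 : 0 < 2 + 550 / ϖ ^ 2 := by positivity
  have t8 : 2 + 550 / ϖ ^ 2 ≤ y ^ (ϖ / 30) := by
    have h5 : ((2 + 550 / ϖ ^ 2) ^ (30 / ϖ)) ^ (ϖ / 30) ≤ y ^ (ϖ / 30) :=
      Real.rpow_le_rpow (Real.rpow_nonneg hK0.le _) hyK (by positivity)
    rw [← Real.rpow_mul hK0.le] at h5
    have h6 : 30 / ϖ * (ϖ / 30) = 1 := by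
      field_simp
    rw [h6, Real.rpow_one] at h5
    exact h5
  have hM0 : 0 ≤ y ^ (1 - ϖ / 5) := Real.rpow_nonneg hy0.le _
  calc 2 * y ^ (1 - ϖ / 5) + (p * (v * L) +
      (v + v * v) * (s * Real.log (y + 1)) + p * (2 * Real.sqrt y * L))
      ≤ 2 * y ^ (1 - ϖ / 5) + 22 * (25 / ϖ ^ 2 * y ^ (1 - ϖ / 5)) := by linarith
    _ = (2 + 550 / ϖ ^ 2) * y ^ (1 - ϖ / 5) := by ring
    _ ≤ y ^ (ϖ / 30) * y ^ (1 - ϖ / 5) := mul_le_mul_of_nonneg_right t8 hM0
    _ = y ^ (1 - ϖ / 6) := by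
        rw [← Real.rpow_add hy0]
        congr 1
        ring

end BVG

open BVG in
theorem t_BVG : M_BVG := by
  intro hP2 hTY ϖ h0 h1
  obtain ⟨Y₁, hP2⟩ := hP2 ϖ h0 h1
  refine ⟨max Y₁ (max 16 ⌈(2 + 550 / ϖ ^ 2) ^ (30 / ϖ)⌉₊), ?_⟩
  intro X Y f U hY hXY hf hU hUY P c r hFam
  have hY1 : Y₁ ≤ Y := (le_max_left _ _).trans hY
  have hY2 : 16 ≤ Y := (le_max_left _ _).trans ((le_max_right _ _).trans hY)
  have hY3 : ⌈(2 + 550 / ϖ ^ 2) ^ (30 / ϖ)⌉₊ ≤ Y :=
    (le_max_right _ _).trans ((le_max_right _ _).trans hY)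
  have hY2' : (16 : ℝ) ≤ Y := by exact_mod_cast hY2
  have hY3' : (2 + 550 / ϖ ^ 2) ^ (30 / ϖ) ≤ (Y : ℝ) := Nat.ceil_le.1 hY3
  have hYpos : 1 ≤ Y := by omega
  obtain ⟨V, hV1, hV2⟩ := exists_V Y
  have hL2 : 2 ≤ Real.log Y := by
    rw [Real.le_log_iff_exp_le (by linarith)]
    have h3 : Real.exp 2 = Real.exp 1 * Real.exp 1 := by
      rw [← Real.exp_add]
      norm_num
    have h4 := Real.exp_one_lt_d9
    have h5 := Real.exp_pos 1
    rw [h3]
    nlinarith
  set G := (Pool.Agent.Lib_helper72.AP.large Λ V * (ζ : ArithmeticFunction ℝ)) with hG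
  set F := Pool.Agent.Lib_helper72.AP.large Pool.Agent.Lib_helper72.AP.muR V with hF
  have hGle : ∀ n ≤ Y, |G n| ≤ Real.log Y := by
    intro n hn
    rw [abs_of_nonneg (Pool.Agent.Lib_helper72.AP.large_mul_zeta_nonneg V n)]
    refine (Pool.Agent.Lib_helper72.AP.large_mul_zeta_le V n).trans ?_
    rcases Nat.eq_zero_or_pos n with h | h
    · rw [h]
      simpa using (by linarith : (0 : ℝ) ≤ Real.log Y)
    · exact Real.log_le_log (by exact_mod_cast h) (by exact_mod_cast hn)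
  have hFle : ∀ n ≤ Y, |F n| ≤ Real.log Y := by
    intro n _
    rw [hF, Pool.Agent.Lib_helper72.AP.large_apply]
    split_ifs
    · rw [abs_zero]
      linarith
    · exact (Pool.Agent.Lib_helper72.AP.abs_muR_le n).trans (by linarith)
  have hA := hP2 X Y V 0 f U hY1 hXY hV1 hV2 hf hU hUY P c r hFam
    (fun m => if m ^ 2 ≤ Y then F m else 0) (fun k => G k)
    (by
      intro n hn
      split_ifs
      · exact hFle n hn
      · rw [abs_zero]
        linarith) hGle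
    (by
      intro n hn
      rw [hF, Pool.Agent.Lib_helper72.AP.large_apply, if_pos hn]
      simp)
    (by
      intro n hn
      rw [if_neg (by omega)])
  have hB := hP2 X Y V (Nat.sqrt Y) f U hY1 hXY hV1 hV2 hf hU hUY P c r hFam
    (fun m => if m ^ 2 ≤ Y then G m else 0) (fun k => F k)
    (by
      intro n hn
      split_ifs
      · exact hGle n hn
      · rw [abs_zero]
        linarith) hFle
    (by
      intro n hn
      rw [hG, Pool.Agent.Lib_helper72.AP.large_mul_zeta_eq_zero V n hn]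
      simp)
    (by
      intro n hn
      rw [if_neg (by omega)])
  have hsum : ∑ u ∈ P, |dsp f (c u) u (r u) X Y| ≤ ∑ u ∈ P,
      (|bil 0 X Y f (c u) u (r u) (fun m => if m ^ 2 ≤ Y then F m else 0) (fun k => G k)| +
      |bil (Nat.sqrt Y) X Y f (c u) u (r u) (fun k => if k ^ 2 ≤ Y then G k else 0)
        (fun m => F m)| +
      (V * Real.log Y + (V + V * V) * ((2 : ℝ) ^ u.primeFactors.card * Real.log (Y + 1)) +
        2 * Real.sqrt Y * Real.log Y)) := by
    apply Finset.sum_le_sum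
    intro u hu
    obtain ⟨b1, b2, -, -, b5, b6, b7⟩ := hFam u hu
    exact one_modulus hTY hV1 hYpos b1 b2 hf b5 b6 b7
  rw [Finset.sum_add_distrib, Finset.sum_add_distrib] at hsum
  have herr : ∑ u ∈ P, (V * Real.log Y + (V + V * V) *
      ((2 : ℝ) ^ u.primeFactors.card * Real.log (Y + 1)) + 2 * Real.sqrt Y * Real.log Y) =
      P.card * (V * Real.log Y) + (V + V * V) *
        ((∑ u ∈ P, (2 : ℝ) ^ u.primeFactors.card) * Real.log (Y + 1)) +
      P.card * (2 * Real.sqrt Y * Real.log Y) := by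
    rw [Finset.sum_add_distrib, Finset.sum_add_distrib, Finset.sum_const, Finset.sum_const,
      ← Finset.mul_sum, ← Finset.sum_mul, nsmul_eq_mul, nsmul_eq_mul]
  rw [herr] at hsum
  have hcard : (P.card : ℝ) ≤ 2 * U := by
    have h3 : P ⊆ Icc U (2 * U) := by
      intro u hu
      have := hFam u hu
      rw [Finset.mem_Icc]
      exact ⟨this.2.2.1, this.2.2.2.1⟩
    have h4 := Finset.card_le_card h3
    rw [Nat.card_Icc] at h4
    have h5 : P.card ≤ 2 * U := by omega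
    exact_mod_cast h5
  have hs := sum_two_pow_le P U (fun u hu => ⟨(hFam u hu).2.1, (hFam u hu).2.2.2.1⟩)
  have hv : (V : ℝ) ≤ (Y : ℝ) ^ ((1 : ℝ) / 5) := by
    have h3 : (V : ℝ) ^ 5 ≤ Y := by exact_mod_cast hV1
    have h4 : ((V : ℝ) ^ 5) ^ ((1 : ℝ) / 5) ≤ (Y : ℝ) ^ ((1 : ℝ) / 5) :=
      Real.rpow_le_rpow (by positivity) h3 (by norm_num)
    rw [← Real.rpow_natCast, ← Real.rpow_mul (Nat.cast_nonneg V)] at h4
    norm_num at h4
    norm_num
    exact h4
  have har := arith ϖ h0 h1 hY2' hY3' (Nat.cast_nonneg V) hv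
    (by exact_mod_cast hU : (1 : ℝ) ≤ U) hUY (Nat.cast_nonneg P.card) hcard hs
  have hmain : 2 * (((Y : ℝ) - X) * Real.log Y ^ 4 / (f * Real.sqrt U)) ≤
      ((Y : ℝ) - X) * Real.log Y ^ 5 / (f * Real.sqrt U) := by
    have h3 : (0 : ℝ) ≤ (Y : ℝ) - X := by
      have : (X : ℝ) ≤ Y := by exact_mod_cast hXY
      linarith
    have h4 : (0 : ℝ) ≤ (f : ℝ) * Real.sqrt U := by positivity
    rw [← mul_div_assoc]
    apply div_le_div_of_nonneg_right _ h4
    have h5 : 2 * Real.log Y ^ 4 ≤ Real.log Y ^ 5 := by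
      have h6 : 0 ≤ Real.log Y ^ 4 := by positivity
      calc 2 * Real.log Y ^ 4 ≤ Real.log Y * Real.log Y ^ 4 :=
            mul_le_mul_of_nonneg_right hL2 h6
        _ = Real.log Y ^ 5 := by ring
    calc 2 * (((Y : ℝ) - X) * Real.log Y ^ 4) = ((Y : ℝ) - X) * (2 * Real.log Y ^ 4) := by ring
      _ ≤ ((Y : ℝ) - X) * Real.log Y ^ 5 := mul_le_mul_of_nonneg_left h5 h3
  have hA' : ∑ u ∈ P, |bil 0 X Y f (c u) u (r u) (fun m => if m ^ 2 ≤ Y then F m else 0)
      (fun k => G k)| ≤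
      ((Y : ℝ) - X) * Real.log Y ^ 4 / (f * Real.sqrt U) + (Y : ℝ) ^ (1 - ϖ / 5) := hA
  have hB' : ∑ u ∈ P, |bil (Nat.sqrt Y) X Y f (c u) u (r u)
      (fun k => if k ^ 2 ≤ Y then G k else 0) (fun m => F m)| ≤
      ((Y : ℝ) - X) * Real.log Y ^ 4 / (f * Real.sqrt U) + (Y : ℝ) ^ (1 - ϖ / 5) := hB
  linarith

end

end MUR
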