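import Pool.Agent.MUR.StD

set_option autoImplicit false

/-!
# Project MUR: module CF, consequences of a configuration
-/

namespace MUR

open Finset IPR
open Pool.Agent.Lib_helper83.EF (e)

noncomputable section

namespace CF

theorem one_sub_sum_le {ι : Type*} (s : Finset ι) (f : ι → ℝ) (h0 : ∀ i ∈ s, 0 ≤ f i)
    (h1 : ∀ i ∈ s, f i ≤ 1) : 1 - ∑ i ∈ s, f i ≤ ∏ i ∈ s, (1 - f i) ∧ ∏ i ∈ s, (1 - f i) ≤ 1 ∧
    0 ≤ ∏ i ∈ s, (1 - f i) := by
  classical
  induction s using Finset.induction_on with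
  | empty => simp
  | insert a s ha ih =>
    obtain ⟨i1, i2, i3⟩ := ih (fun i hi => h0 i (mem_insert_of_mem hi))
      (fun i hi => h1 i (mem_insert_of_mem hi))
    have a0 := h0 a (mem_insert_self a s)
    have a1 := h1 a (mem_insert_self a s)
    rw [sum_insert ha, prod_insert ha]
    refine ⟨?_, ?_, ?_⟩
    · nlinarith [mul_le_mul_of_nonneg_left i2 a0]
    · nlinarith [mul_nonneg a0 i3]
    · exact mul_nonneg (by linarith) i3

theorem pri_pos (R : ℕ) : 1 ≤ pri R := by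
  unfold pri
  refine Nat.one_le_iff_ne_zero.2 ?_
  rw [Finset.prod_ne_zero_iff]
  intro p hp
  exact (mem_filter.1 hp).2.ne_zero

theorem lcm_pos (R : ℕ) : 1 ≤ (Icc 1 R).lcm id := by
  refine Nat.one_le_iff_ne_zero.2 ?_
  rw [Ne, Finset.lcm_eq_zero_iff]
  simp

theorem MM1_pos (R : ℕ) : 1 ≤ MM1 R := Nat.mul_pos (pri_pos R) (lcm_pos R)

theorem prime_dvd_pri {p R : ℕ} (hp : p.Prime) : p ∣ pri R ↔ p ≤ R := by
  unfold pri
  rw [hp.prime.dvd_finsetProd_iff]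
  constructor
  · rintro ⟨q, hq, hpq⟩
    rw [mem_filter, mem_Icc] at hq
    rw [(Nat.prime_dvd_prime_iff_eq hp hq.2).1 hpq]
    exact hq.1.2
  · intro h
    exact ⟨p, mem_filter.2 ⟨mem_Icc.2 ⟨hp.one_lt.le, h⟩, hp⟩, dvd_rfl⟩

theorem prime_dvd_lcm {p R : ℕ} (hp : p.Prime) (h : p ∣ (Icc 1 R).lcm id) : p ≤ R := by
  have h1 : (Icc 1 R).lcm id ∣ R.factorial := by
    apply Finset.lcm_dvd
    intro b hb
    rw [mem_Icc] at hb
    exact Nat.dvd_factorial hb.1 hb.2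
  exact (hp.dvd_factorial).1 (h.trans h1)

theorem prime_dvd_MM1 {p R : ℕ} (hp : p.Prime) : p ∣ MM1 R ↔ p ≤ R := by
  unfold MM1
  rw [hp.dvd_mul, prime_dvd_pri hp]
  constructor
  · rintro (h | h)
    · exact h
    · exact prime_dvd_lcm hp h
  · exact fun h => Or.inl h

theorem HL_facts {M₁ X : ℕ} {d : ℝ} (hM : 1 ≤ M₁) (h : (M₁ : ℝ) ≤ (X : ℝ) ^ (1 - d)) :
    M₁ ∣ HL M₁ X d ∧ (X : ℝ) ^ (1 - d) < 2 * HL M₁ X d ∧ ((HL M₁ X d : ℕ) : ℝ) ≤ (X : ℝ) ^ (1 - d) := by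
  unfold HL
  set Y := (X : ℝ) ^ (1 - d) with hY
  have hY0 : 0 ≤ Y := by positivity
  set N := ⌊Y⌋₊ with hN
  have hMN : M₁ ≤ N := Nat.le_floor h
  set k := N / M₁ with hk
  have hk1 : 1 ≤ k := (Nat.one_le_div_iff (by omega)).2 hMN
  refine ⟨Dvd.intro _ rfl, ?_, ?_⟩
  · have h1 : k < 2 ^ (Nat.log 2 k + 1) := Nat.lt_pow_succ_log_self (by norm_num) k
    have h2 : N < M₁ * (k + 1) := by
      rw [hk]
      exact Nat.lt_mul_div_succ N (by omega)
    have h3 : N + 1 ≤ 2 * (M₁ * 2 ^ Nat.log 2 k) := by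
      calc N + 1 ≤ M₁ * (k + 1) := h2
        _ ≤ M₁ * 2 ^ (Nat.log 2 k + 1) := Nat.mul_le_mul_left _ h1
        _ = 2 * (M₁ * 2 ^ Nat.log 2 k) := by ring
    have h4 : Y < N + 1 := Nat.lt_floor_add_one Y
    have h5 : ((N : ℝ) + 1) ≤ 2 * ((M₁ * 2 ^ Nat.log 2 k : ℕ) : ℝ) := by exact_mod_cast h3
    linarith
  · have h1 : 2 ^ Nat.log 2 k ≤ k := Nat.pow_log_le_self 2 (by omega)
    have h2 : M₁ * 2 ^ Nat.log 2 k ≤ N := by
      calc M₁ * 2 ^ Nat.log 2 k ≤ M₁ * k := Nat.mul_le_mul_left _ h1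
        _ ≤ N := Nat.mul_div_le N M₁
    calc ((M₁ * 2 ^ Nat.log 2 k : ℕ) : ℝ) ≤ N := by exact_mod_cast h2
      _ ≤ Y := Nat.floor_le hY0

theorem le_two_totient {x Q : ℕ} (hx : 1 ≤ x) (hQ : 1 ≤ Q) (hp : ∀ p ∈ x.primeFactors, 3 * Q < p)
    (hk : x.primeFactors.card ≤ Q) : x ≤ 2 * x.totient := by
  have h1 : ((x.totient : ℚ) : ℝ) = ((x : ℚ) * ∏ p ∈ x.primeFactors, (1 - (p : ℚ)⁻¹) : ℚ) := by
    exact_mod_cast congrArg (fun z : ℚ => (z : ℝ)) (Nat.totient_eq_mul_prod_factors x)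
  push_cast at h1
  have hQ0 : (0 : ℝ) < Q := by exact_mod_cast hQ
  have hpp : ∀ p ∈ x.primeFactors, (0 : ℝ) ≤ (p : ℝ)⁻¹ ∧ (p : ℝ)⁻¹ ≤ 1 / (3 * Q) := by
    intro p hpx
    have h2 : (3 * Q : ℝ) < p := by exact_mod_cast hp p hpx
    refine ⟨by positivity, ?_⟩
    rw [← one_div]
    exact one_div_le_one_div_of_le (by positivity) h2.le
  have h13 : 1 / (3 * (Q : ℝ)) ≤ 1 := by
    rw [div_le_one (by positivity)]
    have : (1 : ℝ) ≤ Q := by exact_mod_cast hQ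
    linarith
  obtain ⟨h3, -, -⟩ := one_sub_sum_le x.primeFactors (fun p => (p : ℝ)⁻¹)
    (fun p hpx => (hpp p hpx).1) (fun p hpx => (hpp p hpx).2.trans h13)
  have h4 : ∑ p ∈ x.primeFactors, (p : ℝ)⁻¹ ≤ 1 / 2 := by
    calc ∑ p ∈ x.primeFactors, (p : ℝ)⁻¹ ≤ ∑ _p ∈ x.primeFactors, 1 / (3 * (Q : ℝ)) :=
          sum_le_sum fun p hpx => (hpp p hpx).2
      _ = x.primeFactors.card * (1 / (3 * (Q : ℝ))) := by rw [sum_const, nsmul_eq_mul]
      _ ≤ Q * (1 / (3 * (Q : ℝ))) := by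
          apply mul_le_mul_of_nonneg_right _ (by positivity)
          exact_mod_cast hk
      _ = 1 / 3 := by field_simp
      _ ≤ 1 / 2 := by norm_num
  have h5 : (x : ℝ) ≤ 2 * x.totient := by
    rw [h1]
    have hx0 : (0 : ℝ) ≤ x := by positivity
    nlinarith [mul_le_mul_of_nonneg_left (show (1 / 2 : ℝ) ≤ ∏ p ∈ x.primeFactors, (1 - (p : ℝ)⁻¹) by
      linarith) hx0]
  exact_mod_cast h5

end CF

open CF in
theorem t_CF : S_CF := by
  intro C₁ hC₁ R₁ d K₀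
  by_cases hR2 : 2 ≤ R₁
  swap
  · exact ⟨0, fun X _ J Q X₁ H W P hc => absurd hc.R2 hR2⟩
  by_cases hd0 : 0 < d
  swap
  · exact ⟨0, fun X _ J Q X₁ H W P hc => absurd hc.d0 hd0⟩
  by_cases hd1 : d ≤ 1 / 100
  swap
  · exact ⟨0, fun X _ J Q X₁ H W P hc => absurd hc.d1 hd1⟩
  set A : ℝ := 40 + 306 * C₁ + 2 * MM1 R₁ + 3 * R₁ + Real.exp 3 + Real.exp K₀ with hA
  refine ⟨⌈Real.exp A⌉₊, fun X hX J Q X₁ H W P hc => ?_⟩
  have hXe : Real.exp A ≤ X := (Nat.le_ceil _).trans (by exact_mod_cast hX)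
  have hX0 : (0 : ℝ) < X := (Real.exp_pos _).trans_le hXe
  set L := Real.log X with hL
  have hAL : A ≤ L := (Real.le_log_iff_exp_le hX0).2 hXe
  have hM1 : (1 : ℝ) ≤ MM1 R₁ := by exact_mod_cast MM1_pos R₁
  have hR1 : (2 : ℝ) ≤ R₁ := by exact_mod_cast hR2
  have he3 := Real.exp_pos 3
  have heK := Real.exp_pos K₀
  have hL40 : 40 ≤ L := by linarith
  have hLC : 306 * C₁ ≤ L := by linarith
  have hLM : 2 * (MM1 R₁ : ℝ) ≤ L := by linarith
  have hLR : 3 * (R₁ : ℝ) ≤ L := by linarith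
  have hL0 : 0 < L := by linarith
  have hLe3 : Real.exp 3 ≤ L := by linarith
  have hLeK : Real.exp K₀ ≤ L := by linarith
  set l := Real.log L with hl
  have hl3 : 3 ≤ l := (Real.le_log_iff_exp_le hL0).2 hLe3
  have hlK : K₀ ≤ l := (Real.le_log_iff_exp_le hL0).2 hLeK
  have hlL : l ≤ L := Real.log_le_self hL0.le
  have hL1 : 1 ≤ L := by linarith
  have hLpow : ∀ n : ℕ, 1 ≤ n → L ≤ L ^ n := fun n hn => by
    calc L = L ^ 1 := (pow_one L).symm
      _ ≤ L ^ n := pow_le_pow_right₀ hL1 hn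
  -- `Q`
  have hQlo : L ^ 100 ≤ Q := hc.Qlo
  have hQhi : (Q : ℝ) ≤ 3 * L ^ 100 := hc.Qhi
  have hQ1 : L ≤ Q := (hLpow 100 (by norm_num)).trans hQlo
  have hQ0 : (0 : ℝ) < Q := hL0.trans_le hQ1
  have hJ0 : (0 : ℝ) ≤ J := by positivity
  have hJhi : (J : ℝ) ≤ 3 * l := hc.Jhi
  have hJpos : (0 : ℝ) < J := by
    have : (2 : ℝ) ≤ J := by exact_mod_cast hc.J2
    linarith
  have hlog9 : Real.log 9 ≤ 6 := by
    have h1 := Real.log_le_sub_one_of_pos (show (0 : ℝ) < 3 by norm_num)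
    have h2 : Real.log 9 = 2 * Real.log 3 := by
      rw [show (9 : ℝ) = 3 ^ 2 by norm_num, Real.log_pow]; norm_num
    linarith
  have hlog3 : Real.log 3 ≤ 2 := by
    have h1 := Real.log_le_sub_one_of_pos (show (0 : ℝ) < 3 by norm_num)
    linarith
  have hlog3' : 0 ≤ Real.log 3 := Real.log_nonneg (by norm_num)
  have hlogL : Real.log (L ^ 100) = 100 * l := by rw [Real.log_pow, ← hl]; norm_num
  have hlQ1 : 100 * l ≤ Real.log Q := by
    rw [← hlogL]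
    exact Real.log_le_log (by positivity) hQlo
  have hlQ2 : Real.log Q ≤ Real.log 3 + 100 * l := by
    rw [← hlogL, ← Real.log_mul (by norm_num) (by positivity)]
    exact Real.log_le_log hQ0 hQhi
  have hlQ2' : Real.log Q ≤ 102 * l := by linarith
  have hl3Q : Real.log (3 * Q) = Real.log 3 + Real.log Q :=
    Real.log_mul (by norm_num) hQ0.ne'
  -- the number of primes
  have hcard := hc.good.card
  have hPc : (Q : ℝ) ^ (9 / 10 : ℝ) ≤ P.card := by
    have h1 : C₁ * J * Real.log Q ≤ L ^ 10 := by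
      calc C₁ * J * Real.log Q ≤ C₁ * (3 * l) * (102 * l) := by
            apply mul_le_mul _ hlQ2' (by linarith) (by positivity)
            exact mul_le_mul_of_nonneg_left hJhi hC₁.le
        _ = (306 * C₁) * (l * l) := by ring
        _ ≤ L * (L * L) := by
            apply mul_le_mul hLC _ (by positivity) hL0.le
            exact mul_le_mul hlL hlL (by linarith) hL0.le
        _ = L ^ 3 := by ring
        _ ≤ L ^ 10 := pow_le_pow_right₀ hL1 (by norm_num)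
    have h2 : L ^ 10 ≤ (Q : ℝ) ^ (1 / 10 : ℝ) := by
      have h3 : (L ^ 100) ^ (1 / 10 : ℝ) ≤ (Q : ℝ) ^ (1 / 10 : ℝ) :=
        Real.rpow_le_rpow (by positivity) hQlo (by norm_num)
      have h4 : (L ^ 100) ^ (1 / 10 : ℝ) = L ^ 10 := by
        rw [← Real.rpow_natCast L 100, ← Real.rpow_mul hL0.le, ← Real.rpow_natCast L 10]
        norm_num
      rwa [h4] at h3
    have h3 : (Q : ℝ) ≤ (Q : ℝ) ^ (1 / 10 : ℝ) * P.card := by
      refine hcard.trans ?_
      exact mul_le_mul_of_nonneg_right (h1.trans h2) (by positivity)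
    have h4 : (Q : ℝ) = (Q : ℝ) ^ (1 / 10 : ℝ) * (Q : ℝ) ^ (9 / 10 : ℝ) := by
      rw [← Real.rpow_add hQ0]; norm_num
    have h5 : (0 : ℝ) < (Q : ℝ) ^ (1 / 10 : ℝ) := by positivity
    have h6 : (Q : ℝ) ^ (1 / 10 : ℝ) * (Q : ℝ) ^ (9 / 10 : ℝ) ≤ (Q : ℝ) ^ (1 / 10 : ℝ) * P.card := by
      rw [← h4]; exact h3
    exact le_of_mul_le_mul_left h6 h5
  have hQ90 : L ^ 90 ≤ P.card := by
    refine le_trans ?_ hPc
    have h3 : (L ^ 100) ^ (9 / 10 : ℝ) ≤ (Q : ℝ) ^ (9 / 10 : ℝ) :=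
      Real.rpow_le_rpow (by positivity) hQlo (by norm_num)
    have h4 : (L ^ 100) ^ (9 / 10 : ℝ) = L ^ 90 := by
      rw [← Real.rpow_natCast L 100, ← Real.rpow_mul hL0.le, ← Real.rpow_natCast L 90]
      norm_num
    rwa [h4] at h3
  have hPQ : P.card ≤ Q := by
    have h1 : P ⊆ Ioc Q (Q + Q / J) := by
      intro p hp
      exact mem_Ioc.2 ⟨hc.good.lo p hp, hc.good.hi p hp⟩
    have h2 := card_le_card h1
    rw [Nat.card_Ioc] at h2
    have h3 : Q / J ≤ Q := Nat.div_le_self Q J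
    omega
  have hJL : (J : ℝ) ≤ 3 * L := hJhi.trans (by linarith)
  have hXd : ∀ d' : ℝ, 0 < d' → d' ≤ 1 / 100 → (MM1 R₁ : ℝ) ≤ (X : ℝ) ^ (1 - d') := by
    intro d' h0 h1
    have h2 : (X : ℝ) ^ (1 - d') = Real.exp (L * (1 - d')) := by
      rw [Real.rpow_def_of_pos hX0]
    rw [h2]
    have h3 := Real.add_one_le_exp (L * (1 - d'))
    nlinarith
  obtain ⟨H1, H2, H3⟩ := HL_facts (M₁ := MM1 R₁) (X := X) (d := d) (MM1_pos R₁) (hXd d hd0 hd1)
  obtain ⟨G1, G2, G3⟩ := HL_facts (M₁ := MM1 R₁) (X := X) (d := d / 100) (MM1_pos R₁)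
    (hXd (d / 100) (by positivity) (by linarith))
  rw [← hc.HH] at H1 H2 H3
  have hQ16 : 16 ≤ Q := by
    have : (16 : ℝ) ≤ Q := by linarith
    exact_mod_cast this
  have hJ4 : 4 * J ≤ Q := by
    have h1 : (4 * J : ℝ) ≤ Q := by
      calc (4 * J : ℝ) ≤ 12 * L := by linarith
        _ ≤ L * L := by nlinarith
        _ = L ^ 2 := by ring
        _ ≤ L ^ 100 := pow_le_pow_right₀ hL1 (by norm_num)
        _ ≤ Q := hQlo
    exact_mod_cast h1
  refine ⟨hlK, by linarith, fun p hp => prime_dvd_MM1 hp, ?_, pri_pos R₁, Dvd.intro _ rfl,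
    MM1_pos R₁, ?_, ?_, H1, H2, H3, G1, G2, G3, hPc, hPQ, ?_, hQ16, hJ4, ?_, ?_, ?_, ?_⟩
  · intro p hp
    exact (prime_dvd_pri (Nat.prime_of_mem_primeFactors hp)).1 (Nat.dvd_of_mem_primeFactors hp)
  · have : (MM1 R₁ : ℝ) ≤ Q := by linarith
    exact_mod_cast this
  · have : (3 * R₁ : ℝ) ≤ Q := by linarith
    exact_mod_cast this
  · have h1 : (4 * (J : ℝ) ^ 2) ≤ P.card := by
      refine le_trans ?_ hQ90
      calc 4 * (J : ℝ) ^ 2 ≤ 4 * (3 * L) ^ 2 := by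
            apply mul_le_mul_of_nonneg_left _ (by norm_num)
            exact pow_le_pow_left₀ hJ0 hJL 2
        _ = 36 * (L * L) := by ring
        _ ≤ L * (L * L) := by
            apply mul_le_mul_of_nonneg_right _ (by positivity)
            linarith
        _ = L ^ 3 := by ring
        _ ≤ L ^ 90 := pow_le_pow_right₀ hL1 (by norm_num)
    exact_mod_cast h1
  · refine le_trans ?_ hc.sml
    have h1 : (16 * MM1 R₁ * Q ^ (2 * J)) ^ 10 ≤ (16 * MM1 R₁ * Q) ^ (20 * J) := by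
      have hJ1 : 1 ≤ J := by have := hc.J2; omega
      have hM := MM1_pos R₁
      have h2 : 1 ≤ 16 * MM1 R₁ := by omega
      calc (16 * MM1 R₁ * Q ^ (2 * J)) ^ 10 = (16 * MM1 R₁) ^ 10 * Q ^ (20 * J) := by
            rw [mul_pow, ← pow_mul]; congr 2; ring
        _ ≤ (16 * MM1 R₁) ^ (20 * J) * Q ^ (20 * J) := by
            apply Nat.mul_le_mul_right
            exact Nat.pow_le_pow_right h2 (by omega)
        _ = (16 * MM1 R₁ * Q) ^ (20 * J) := (mul_pow (16 * MM1 R₁) Q (20 * J)).symm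
    exact_mod_cast h1
  · intro x hx
    unfold XX at hx
    rw [mem_filter, mem_Ioc] at hx
    obtain ⟨⟨hx1, hx2⟩, -, hxp⟩ := hx
    have hx0 : 1 ≤ x := by omega
    apply le_two_totient hx0 (by omega) hxp
    have h1 : 2 ^ x.primeFactors.card ≤ x := by
      calc 2 ^ x.primeFactors.card ≤ ∏ p ∈ x.primeFactors, p :=
            Finset.pow_card_le_prod _ _ _ fun p hp => (Nat.prime_of_mem_primeFactors hp).two_le
        _ ≤ x := Nat.le_of_dvd hx0 (Nat.prod_primeFactors_dvd x)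
    have hX1 : (1 : ℝ) ≤ X := by
      have := Real.add_one_le_exp A
      linarith
    have h2 : (x : ℝ) ≤ 2 * X := by
      have h3 : (x : ℝ) ≤ 2 * X₁ := by exact_mod_cast hx2
      have h4 : (X : ℝ) ^ (1 - d) ≤ X := by
        calc (X : ℝ) ^ (1 - d) ≤ (X : ℝ) ^ (1 : ℝ) :=
              Real.rpow_le_rpow_of_exponent_le hX1 (by linarith)
          _ = X := Real.rpow_one _
      have h5 := hc.X₁hi
      linarith
    have h3 : (2 : ℝ) ^ x.primeFactors.card ≤ 2 * X := by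
      refine le_trans ?_ h2
      exact_mod_cast h1
    have h4 : (x.primeFactors.card : ℝ) * Real.log 2 ≤ Real.log 2 + L := by
      rw [← Real.log_pow, hL, ← Real.log_mul (by norm_num) hX0.ne']
      exact Real.log_le_log (by positivity) h3
    have h5 : (1 / 2 : ℝ) ≤ Real.log 2 := by
      have := Real.log_two_gt_d9
      linarith
    have h6 : (x.primeFactors.card : ℝ) ≤ 1 + 2 * L := by
      have h7 : ((x.primeFactors.card : ℝ) - 1) * Real.log 2 ≤ L := by linarith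
      by_contra hcon
      push Not at hcon
      nlinarith [mul_lt_mul_of_pos_right (show 2 * L < (x.primeFactors.card : ℝ) - 1 by linarith)
        (show (0 : ℝ) < Real.log 2 by linarith)]
    have h7 : (x.primeFactors.card : ℝ) ≤ Q := by
      calc (x.primeFactors.card : ℝ) ≤ 1 + 2 * L := h6
        _ ≤ L * L := by nlinarith
        _ = L ^ 2 := by ring
        _ ≤ L ^ 100 := pow_le_pow_right₀ hL1 (by norm_num)
        _ ≤ Q := hQlo
    exact_mod_cast h7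
  · show 100 * l ≤ Real.log (3 * Q)
    rw [hl3Q]
    linarith
  · show Real.log (3 * Q) ≤ 102 * l
    rw [hl3Q]
    linarith

end

end MUR
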