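import Mathlib
import Pool.Agent.MUR.StD

set_option autoImplicit false

/-!
# Module CFG: existence of configurations   (helper37)
-/

namespace MUR

open Finset IPR
open Pool.Agent.Lib_helper83.EF (e)

noncomputable section

namespace CFG

open Filter

theorem tendsto_log_cast : Tendsto (fun X : ℕ => Real.log X) atTop atTop :=
  Real.tendsto_log_atTop.comp tendsto_natCast_atTop_atTop

theorem tendsto_loglog_cast : Tendsto (fun X : ℕ => Real.log (Real.log X)) atTop atTop :=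
  Real.tendsto_log_atTop.comp tendsto_log_cast

/-- `(log log X)^2 = o(log X)` -/
theorem eventually_ll (δ : ℝ) (hδ : 0 < δ) :
    ∀ᶠ X : ℕ in atTop, Real.log (Real.log X) ^ 2 ≤ δ * Real.log X := by
  have h1 : (fun x : ℝ => Real.log x ^ 2) =o[atTop] (fun x : ℝ => x) := by
    have := Real.isLittleO_pow_log_id_atTop (n := 2)
    exact this
  have h2 := (h1.bound hδ)
  have h3 := tendsto_log_cast.eventually h2
  filter_upwards [h3, tendsto_log_cast.eventually_ge_atTop 0] with X hX h0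
  have h4 : ‖Real.log (Real.log X) ^ 2‖ = Real.log (Real.log X) ^ 2 := by
    rw [Real.norm_eq_abs, abs_of_nonneg (sq_nonneg _)]
  rw [h4, Real.norm_eq_abs, abs_of_nonneg h0] at hX
  exact hX

/-- the largest power of two below a real number at least one -/
theorem pow_two_le (x : ℝ) (hx : 1 ≤ x) : ∃ b : ℕ, ((2 ^ b : ℕ) : ℝ) ≤ x ∧ x ≤ 2 * ((2 ^ b : ℕ) : ℝ) := by
  have hA : ⌊x⌋₊ ≠ 0 := by
    have : 1 ≤ ⌊x⌋₊ := Nat.le_floor (by exact_mod_cast hx)
    omega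
  refine ⟨Nat.log 2 ⌊x⌋₊, ?_, ?_⟩
  · have h1 : (2 ^ Nat.log 2 ⌊x⌋₊ : ℕ) ≤ ⌊x⌋₊ := Nat.pow_log_le_self 2 hA
    have h2 : ((2 ^ Nat.log 2 ⌊x⌋₊ : ℕ) : ℝ) ≤ (⌊x⌋₊ : ℝ) := by exact_mod_cast h1
    exact h2.trans (Nat.floor_le (by linarith))
  · have h1 : ⌊x⌋₊ + 1 ≤ 2 ^ (Nat.log 2 ⌊x⌋₊ + 1) := Nat.lt_pow_succ_log_self (by norm_num) _
    have h2 : ((⌊x⌋₊ + 1 : ℕ) : ℝ) ≤ ((2 ^ (Nat.log 2 ⌊x⌋₊ + 1) : ℕ) : ℝ) := by exact_mod_cast h1
    have h3 : x < (⌊x⌋₊ : ℝ) + 1 := Nat.lt_floor_add_one x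
    have h4 : ((2 ^ (Nat.log 2 ⌊x⌋₊ + 1) : ℕ) : ℝ) = 2 * ((2 ^ Nat.log 2 ⌊x⌋₊ : ℕ) : ℝ) := by
      push_cast
      ring
    rw [h4] at h2
    push_cast at h2 ⊢
    linarith

/-- the smallest power of two with `3 X ≤ W N` -/
theorem exists_W (X N : ℕ) (hN : 1 ≤ N) (hNX : N ≤ X) :
    ∃ b : ℕ, 3 * X ≤ 2 ^ b * N ∧ 2 ^ b * N ≤ 7 * X := by
  have hex : ∃ b : ℕ, 3 * X ≤ 2 ^ b * N := by
    refine ⟨3 * X, ?_⟩
    have h1 : 3 * X < 2 ^ (3 * X) := Nat.lt_two_pow_self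
    calc 3 * X ≤ 2 ^ (3 * X) * 1 := by omega
      _ ≤ 2 ^ (3 * X) * N := Nat.mul_le_mul_left _ hN
  classical
  refine ⟨Nat.find hex, Nat.find_spec hex, ?_⟩
  rcases h : Nat.find hex with _ | b
  · simp only [pow_zero, one_mul]
    omega
  · have h1 : ¬ 3 * X ≤ 2 ^ b * N := Nat.find_min hex (by omega)
    have h2 : 2 ^ (b + 1) * N = 2 * (2 ^ b * N) := by ring
    omega

theorem main (hPS : S_PS) : S_CFG := by
  obtain ⟨C, hC, q₀, hPS⟩ := hPS
  refine ⟨C, hC, fun R₁ d hR hd hd1 => ?_⟩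
  have ev : ∀ᶠ X : ℕ in atTop, 1 ≤ Real.log (Real.log X) ∧
      Real.log (Real.log X) ^ 2 ≤ (d / 6060000) * Real.log X ∧
      (48 * MM1 R₁ + q₀ + 3 : ℝ) ≤ Real.log X ∧ 1 ≤ X := by
    filter_upwards [tendsto_loglog_cast.eventually_ge_atTop 1,
      eventually_ll (d / 6060000) (by positivity),
      tendsto_log_cast.eventually_ge_atTop (48 * MM1 R₁ + q₀ + 3 : ℝ), eventually_ge_atTop 1]
      with X h1 h2 h3 h4
    exact ⟨h1, h2, h3, h4⟩
  obtain ⟨X₀, hX₀⟩ := eventually_atTop.1 ev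
  refine ⟨X₀, fun X hX => ?_⟩
  obtain ⟨h1, h2, h3, h4⟩ := hX₀ X hX
  set L : ℝ := Real.log X with hL
  set l : ℝ := Real.log L with hl
  have hM0 : (0 : ℝ) ≤ MM1 R₁ := Nat.cast_nonneg _
  have hq0 : (0 : ℝ) ≤ q₀ := Nat.cast_nonneg _
  have hL3 : 3 ≤ L := by linarith
  have hL0 : 0 < L := by linarith
  have hX0 : (0 : ℝ) < X := by exact_mod_cast h4
  have hX1 : (1 : ℝ) ≤ X := by exact_mod_cast h4
  have hexpl : Real.exp l = L := Real.exp_log hL0
  have hexpL : Real.exp L = X := Real.exp_log hX0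
  -- the number J
  set J : ℕ := ⌈2 * l⌉₊ with hJ
  have hJl : 2 * l ≤ J := Nat.le_ceil _
  have hJu : (J : ℝ) ≤ 3 * l := by
    have : (J : ℝ) < 2 * l + 1 := Nat.ceil_lt_add_one (by linarith)
    linarith
  have hJ2 : 2 ≤ J := by
    have : (2 : ℝ) ≤ J := by linarith
    exact_mod_cast this
  -- the number Q₀
  have hLp : L ≤ L ^ 100 := le_self_pow₀ (by linarith) (by norm_num)
  set Q₀ : ℕ := ⌈L ^ 100⌉₊ with hQ₀
  have hQ₀l : L ^ 100 ≤ Q₀ := Nat.le_ceil _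
  have hQ₀u : (Q₀ : ℝ) < L ^ 100 + 1 := Nat.ceil_lt_add_one (by positivity)
  have hq : q₀ ≤ Q₀ := by
    have : (q₀ : ℝ) ≤ Q₀ := by linarith
    exact_mod_cast this
  have hJQ : (J : ℝ) ≤ Real.log Q₀ := by
    have h5 : Real.log (L ^ 100) ≤ Real.log Q₀ := Real.log_le_log (by positivity) hQ₀l
    rw [Real.log_pow] at h5
    push_cast at h5
    have : Real.log L = l := hl.symm
    rw [this] at h5
    linarith
  obtain ⟨Q, P, hQ1, hQ2, hgood⟩ := hPS Q₀ J hq (by omega) hJQ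
  have hQ1' : (Q₀ : ℝ) ≤ Q := by exact_mod_cast hQ1
  have hQ2' : (Q : ℝ) ≤ 2 * Q₀ := by exact_mod_cast hQ2
  have hQlo : L ^ 100 ≤ Q := hQ₀l.trans hQ1'
  have hQhi : (Q : ℝ) ≤ 3 * L ^ 100 := by linarith
  -- the bound for the powers
  have hB : (L ^ 101) ^ (20 * J) ≤ (X : ℝ) ^ (d / 1000) := by
    rw [← pow_mul, ← hexpl, ← hexpL, ← Real.exp_nat_mul, ← Real.exp_mul]
    apply Real.exp_le_exp.2
    push_cast
    have h5 : (J : ℝ) * l ≤ 3 * l ^ 2 := by nlinarith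
    nlinarith
  have hBQ : (Q : ℝ) ≤ L ^ 101 := by
    calc (Q : ℝ) ≤ 3 * L ^ 100 := hQhi
      _ ≤ L * L ^ 100 := by
        have : 0 ≤ L ^ 100 := by positivity
        nlinarith
      _ = L ^ 101 := by ring
  have hBM : ((16 * MM1 R₁ * Q : ℕ) : ℝ) ≤ L ^ 101 := by
    push_cast
    calc (16 * MM1 R₁ * Q : ℝ) ≤ 16 * MM1 R₁ * (3 * L ^ 100) := by
          apply mul_le_mul_of_nonneg_left hQhi
          positivity
      _ = (48 * MM1 R₁) * L ^ 100 := by ring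
      _ ≤ L * L ^ 100 := by
        apply mul_le_mul_of_nonneg_right _ (by positivity)
        linarith
      _ = L ^ 101 := by ring
  have hQ1n : 1 ≤ Q := by
    have : (1 : ℝ) ≤ Q := by linarith
    exact_mod_cast this
  have hXd : (X : ℝ) ^ (d / 1000) ≤ X := by
    calc (X : ℝ) ^ (d / 1000) ≤ (X : ℝ) ^ (1 : ℝ) :=
          Real.rpow_le_rpow_of_exponent_le hX1 (by linarith)
      _ = X := Real.rpow_one _
  have hQJ : Q ^ J ≤ X := by
    have h5 : (Q : ℝ) ^ J ≤ X := by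
      calc (Q : ℝ) ^ J ≤ (L ^ 101) ^ J := pow_le_pow_left₀ (Nat.cast_nonneg _) hBQ J
        _ ≤ (L ^ 101) ^ (20 * J) := by
          apply pow_le_pow_right₀
          · exact one_le_pow₀ (by linarith)
          · omega
        _ ≤ (X : ℝ) ^ (d / 1000) := hB
        _ ≤ X := hXd
    exact_mod_cast h5
  -- the powers of two
  obtain ⟨b, hb1, hb2⟩ := pow_two_le ((X : ℝ) ^ (1 - d))
    (Real.one_le_rpow hX1 (by linarith))
  obtain ⟨c, hc1, hc2⟩ := exists_W X (Q ^ J) (Nat.one_le_pow _ _ hQ1n) hQJ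
  refine ⟨J, Q, 2 ^ b, HL (MM1 R₁) X d, 2 ^ c, P, ?_⟩
  exact
    { R2 := hR
      d0 := hd
      d1 := hd1
      good := hgood
      J2 := hJ2
      Jlo := by
        have h5 : (13 / 10 : ℝ) ≤ 2 * Real.log 2 := by
          have := Real.log_two_gt_d9
          linarith
        calc Real.log X ^ (13 / 10 : ℝ) = Real.exp (l * (13 / 10)) := by
              rw [Real.exp_mul, hexpl]
          _ ≤ Real.exp (J * Real.log 2) := by
            apply Real.exp_le_exp.2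
            have h6 : 0 < Real.log 2 := Real.log_pos (by norm_num)
            nlinarith
          _ = 2 ^ J := by
            rw [Real.exp_nat_mul, Real.exp_log (by norm_num)]
      Jhi := hJu
      Qlo := hQlo
      Qhi := hQhi
      sml := (pow_le_pow_left₀ (Nat.cast_nonneg _) hBM _).trans hB
      X₁lo := hb2
      X₁hi := hb1
      X₁p := ⟨b, rfl⟩
      HH := rfl
      Wlo := hc1
      Whi := hc2
      Wp := ⟨c, rfl⟩ }

end CFG

theorem t_CFG : M_CFG := CFG.main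

end

end MUR
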