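import Mathlib
import Pool.Agent.MUR.StC

set_option autoImplicit false

/-!
# Project MUR, module DEG: few tuples have a small determinant
-/

namespace MUR

open Finset
open Pool.Agent.Lib_helper83.EF (e)

noncomputable section

namespace DEG

/-- A finite set of naturals with differences smaller than `x`, `x ≥ 1`, has at most `2 x`
elements. -/
theorem card_diff (S : Finset ℕ) (x : ℝ) (hx : 1 ≤ x)
    (h : ∀ p ∈ S, ∀ q ∈ S, (p : ℝ) - q < x) : (S.card : ℝ) ≤ 2 * x := by
  rcases S.eq_empty_or_nonempty with rfl | hne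
  · simp; linarith
  · have hm := S.min'_mem hne
    have hsub : S ⊆ Ico (S.min' hne) (S.min' hne + ⌈x⌉₊) := by
      intro p hp
      have h1 := S.min'_le p hp
      have h2 := h p hp _ hm
      rw [mem_Ico]
      refine ⟨h1, ?_⟩
      have h3 : (p : ℝ) < ((S.min' hne + ⌈x⌉₊ : ℕ) : ℝ) := by
        push_cast
        have := Nat.le_ceil x
        linarith
      exact_mod_cast h3
    have h4 := card_le_card hsub
    rw [Nat.card_Ico, Nat.add_sub_cancel_left] at h4
    have h5 : (S.card : ℝ) ≤ (⌈x⌉₊ : ℝ) := by exact_mod_cast h4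
    have h6 := Nat.ceil_lt_add_one (show (0 : ℝ) ≤ x by linarith)
    linarith

theorem prod_lo {ι : Type*} (s : Finset ι) (f : ι → ℕ) (Q : ℕ) (h : ∀ j ∈ s, Q ≤ f j) :
    Q ^ s.card ≤ ∏ j ∈ s, f j := by
  rw [← prod_const]
  exact prod_le_prod' h

theorem mem_TT {P : Finset ℕ} {J : ℕ} {t : Fin J → ℕ × ℕ} (ht : t ∈ TT P J) (j : Fin J) :
    (t j).1 ∈ P ∧ (t j).2 ∈ P := by
  unfold TT at ht
  rw [mem_filter, Fintype.mem_piFinset] at ht
  exact mem_product.mp (ht.1 j)

/-- The entry at `j₀ ∈ I` is close to a number determined by the other entries. -/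
theorem close (hS : S_SWA) (C : ℝ) (Q J M : ℕ) (P : Finset ℕ) (I : Finset (Fin J))
    (hP : GoodP C Q J P) (hQ : 2 ≤ Q) (hM : 1 ≤ M) (j₀ : Fin J) (hj : j₀ ∈ I)
    (t : Fin J → ℕ × ℕ) (ht : t ∈ TT P J)
    (hD : ((Dl M I t).natAbs : ℝ) < M * (Q : ℝ) ^ (2 * J) / Real.sqrt Q) :
    |((t j₀).1 : ℝ) - (∏ j ∈ I, ((t j).2 : ℝ)) / ∏ j ∈ I.erase j₀, ((t j).1 : ℝ)| <
      Real.sqrt Q / 2 := by
  obtain ⟨-, -, -, -, h1, h2, h3, h4⟩ := hS J P
  have hlo1 : ∀ j, Q ≤ (t j).1 := fun j => (hP.lo _ (mem_TT ht j).1).le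
  have hlo2 : ∀ j, Q ≤ (t j).2 := fun j => (hP.lo _ (mem_TT ht j).2).le
  have hQ0 : (0 : ℝ) < Q := by exact_mod_cast (by omega : 0 < Q)
  have hsq : 0 < Real.sqrt Q := Real.sqrt_pos.mpr hQ0
  have hsq2 : Real.sqrt Q * Real.sqrt Q = Q := Real.mul_self_sqrt hQ0.le
  have hIJ : I.card + Iᶜ.card = J := by
    rw [card_add_card_compl, Fintype.card_fin]
  have he := prod_lo Iᶜ (fun j => (t j).1) Q (fun j _ => hlo1 j)
  have hg := prod_lo Iᶜ (fun j => (t j).2) Q (fun j _ => hlo2 j)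
  have hh := prod_lo I (fun j => (t j).2) Q (fun j _ => hlo2 j)
  have hf1 := prod_lo (I.erase j₀) (fun j => (t j).1) Q (fun j _ => hlo1 j)
  have hf := prod_lo I (fun j => (t j).1) Q (fun j _ => hlo1 j)
  have hfe : ∏ j ∈ I, (t j).1 = (t j₀).1 * ∏ j ∈ I.erase j₀, (t j).1 :=
    (mul_prod_erase I (fun j => (t j).1) hj).symm
  set ee := ∏ j ∈ Iᶜ, (t j).1 with hee
  set g := ∏ j ∈ Iᶜ, (t j).2 with hgg
  set h := ∏ j ∈ I, (t j).2 with hhh
  set f₁ := ∏ j ∈ I.erase j₀, (t j).1 with hff1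
  set f := ∏ j ∈ I, (t j).1 with hff
  have hDl : Dl M I t = (M : ℤ) * (ee * g) * ((f : ℤ) ^ 2 - (h : ℤ) ^ 2) := by
    unfold Dl
    rw [h1 I t, h2 I t, h3 I t, h4 I t, ← hee, ← hgg, ← hhh, ← hff]
    push_cast
    ring
  have hDr : ((Dl M I t).natAbs : ℝ) = M * (ee * g) * |(f : ℝ) ^ 2 - (h : ℝ) ^ 2| := by
    rw [Nat.cast_natAbs, hDl]
    push_cast
    rw [abs_mul, abs_of_nonneg (by positivity : (0 : ℝ) ≤ (M : ℝ) * (ee * g))]
  rw [hDr] at hD
  have hM0 : (0 : ℝ) < M := by exact_mod_cast hM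
  set i := I.card with hi
  have hi1 : 1 ≤ i := card_pos.mpr ⟨j₀, hj⟩
  have hcer : (I.erase j₀).card = i - 1 := card_erase_of_mem hj
  rw [hcer] at hf1
  have heR : (Q : ℝ) ^ (J - i) ≤ ee := by
    have : Iᶜ.card = J - i := by omega
    rw [this] at he
    exact_mod_cast he
  have hgR : (Q : ℝ) ^ (J - i) ≤ g := by
    have : Iᶜ.card = J - i := by omega
    rw [this] at hg
    exact_mod_cast hg
  have hhR : (Q : ℝ) ^ i ≤ h := by exact_mod_cast hh
  have hfR : (Q : ℝ) ^ i ≤ f := by exact_mod_cast hf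
  have hf1R : (Q : ℝ) ^ (i - 1) ≤ f₁ := by exact_mod_cast hf1
  have hpw : (Q : ℝ) ^ (2 * J) = (Q : ℝ) ^ (J - i) * (Q : ℝ) ^ (J - i) * ((Q : ℝ) ^ i * (Q : ℝ) ^ i) := by
    rw [← pow_add, ← pow_add, ← pow_add]
    congr 1
    omega
  have hA : (0 : ℝ) < (Q : ℝ) ^ (J - i) := by positivity
  have hB : (0 : ℝ) < (Q : ℝ) ^ i := by positivity
  have hB1 : (0 : ℝ) < (Q : ℝ) ^ (i - 1) := by positivity
  have hQi : (Q : ℝ) ^ i = Q * (Q : ℝ) ^ (i - 1) := by
    rw [← pow_succ']
    congr 1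
    omega
  -- first: the difference of the squares
  have s1 : |(f : ℝ) ^ 2 - (h : ℝ) ^ 2| < (Q : ℝ) ^ i * (Q : ℝ) ^ i / Real.sqrt Q := by
    by_contra hcon
    push Not at hcon
    have k1 : (Q : ℝ) ^ (J - i) * (Q : ℝ) ^ (J - i) ≤ ee * g :=
      mul_le_mul heR hgR hA.le (hA.le.trans heR)
    have k2 : (Q : ℝ) ^ (J - i) * (Q : ℝ) ^ (J - i) * ((Q : ℝ) ^ i * (Q : ℝ) ^ i / Real.sqrt Q) ≤
        ee * g * |(f : ℝ) ^ 2 - (h : ℝ) ^ 2| :=
      mul_le_mul k1 hcon (by positivity) (by positivity)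
    have k3 : (M : ℝ) * (Q : ℝ) ^ (2 * J) / Real.sqrt Q =
        M * ((Q : ℝ) ^ (J - i) * (Q : ℝ) ^ (J - i) * ((Q : ℝ) ^ i * (Q : ℝ) ^ i / Real.sqrt Q)) := by
      rw [hpw]; ring
    rw [k3] at hD
    have k4 := mul_le_mul_of_nonneg_left k2 hM0.le
    rw [mul_assoc (M : ℝ)] at hD
    linarith
  -- second: the difference
  have s2 : |(f : ℝ) - h| * 2 < (Q : ℝ) ^ i / Real.sqrt Q := by
    have k1 : |(f : ℝ) ^ 2 - (h : ℝ) ^ 2| = |(f : ℝ) - h| * (f + h) := by
      have : (f : ℝ) ^ 2 - (h : ℝ) ^ 2 = ((f : ℝ) - h) * (f + h) := by ring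
      rw [this, abs_mul, abs_of_nonneg (by positivity : (0 : ℝ) ≤ (f : ℝ) + h)]
    rw [k1] at s1
    have k2 : |(f : ℝ) - h| * (2 * (Q : ℝ) ^ i) ≤ |(f : ℝ) - h| * (f + h) :=
      mul_le_mul_of_nonneg_left (by linarith) (abs_nonneg _)
    have k3 : |(f : ℝ) - h| * 2 * (Q : ℝ) ^ i < (Q : ℝ) ^ i / Real.sqrt Q * (Q : ℝ) ^ i := by
      calc |(f : ℝ) - h| * 2 * (Q : ℝ) ^ i = |(f : ℝ) - h| * (2 * (Q : ℝ) ^ i) := by ring
        _ ≤ _ := k2
        _ < _ := s1
        _ = _ := by ring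
    exact lt_of_mul_lt_mul_right k3 hB.le
  -- third
  have hf1pos : (0 : ℝ) < f₁ := hB1.trans_le hf1R
  have hfR2 : (f : ℝ) = (t j₀).1 * f₁ := by
    rw [hfe]; push_cast; rfl
  have hcast1 : (∏ j ∈ I, ((t j).2 : ℝ)) = h := by rw [hhh]; push_cast; rfl
  have hcast2 : (∏ j ∈ I.erase j₀, ((t j).1 : ℝ)) = f₁ := by rw [hff1]; push_cast; rfl
  rw [hcast1, hcast2]
  have k1 : |(f : ℝ) - h| = |((t j₀).1 : ℝ) - h / f₁| * f₁ := by
    rw [← abs_of_pos hf1pos, ← abs_mul, abs_of_pos hf1pos, hfR2]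
    congr 1
    field_simp
  rw [k1] at s2
  have k2 : (Q : ℝ) ^ i / Real.sqrt Q = Real.sqrt Q * (Q : ℝ) ^ (i - 1) := by
    rw [div_eq_iff hsq.ne', hQi]
    nlinarith [hsq2]
  rw [k2] at s2
  have k3 : |((t j₀).1 : ℝ) - h / f₁| * (Q : ℝ) ^ (i - 1) ≤ |((t j₀).1 : ℝ) - h / f₁| * f₁ :=
    mul_le_mul_of_nonneg_left hf1R (abs_nonneg _)
  have k4 : |((t j₀).1 : ℝ) - h / f₁| * (Q : ℝ) ^ (i - 1) < Real.sqrt Q / 2 * (Q : ℝ) ^ (i - 1) := by
    linarith
  exact lt_of_mul_lt_mul_right k4 hB1.le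

end DEG

theorem t_DEG : M_DEG := by
  intro hS C Q J M P I hP hI hQ hM
  obtain ⟨j₀, hj⟩ := hI
  have hQ0 : (0 : ℝ) < Q := by exact_mod_cast (by omega : 0 < Q)
  have hs1 : 1 ≤ Real.sqrt Q := by
    rw [Real.one_le_sqrt]
    exact_mod_cast (by omega : 1 ≤ Q)
  rcases P.eq_empty_or_nonempty with hPe | hPn
  · have : (TT P J) = ∅ := by
      rw [eq_empty_iff_forall_notMem]
      intro t ht
      have := (DEG.mem_TT ht j₀).1
      rw [hPe] at this
      exact absurd this (notMem_empty _)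
    rw [this, filter_empty, card_empty]
    simp only [Nat.cast_zero]
    positivity
  · have hPc : (0 : ℝ) < P.card := by exact_mod_cast card_pos.mpr hPn
    classical
    set S := (TT P J).filter (fun t => ((Dl M I t).natAbs : ℝ) < M * (Q : ℝ) ^ (2 * J) / Real.sqrt Q)
      with hSd
    set F : (Fin J → ℕ × ℕ) → (Fin J → ℕ × ℕ) := fun t => Function.update t j₀ (0, (t j₀).2) with hF
    set T : Finset (Fin J → ℕ × ℕ) :=
      Fintype.piFinset (fun j => if j = j₀ then ({0} : Finset ℕ) ×ˢ P else P ×ˢ P) with hT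
    have hmaps : ∀ t ∈ S, F t ∈ T := by
      intro t ht
      have ht' := (mem_filter.mp ht).1
      rw [hT, Fintype.mem_piFinset]
      intro j
      by_cases hjj : j = j₀
      · subst hjj
        simp only [if_true, hF, Function.update_self]
        rw [mem_product]
        exact ⟨mem_singleton.mpr rfl, (DEG.mem_TT ht' j).2⟩
      · simp only [if_neg hjj, hF, Function.update_of_ne hjj]
        rw [mem_product]
        exact DEG.mem_TT ht' j
    have hTc : (T.card : ℝ) * P.card = (P.card : ℝ) ^ (2 * J) := by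
      have h1 : T.card = P.card * (P.card * P.card) ^ (J - 1) := by
        rw [hT, Fintype.card_piFinset, Fintype.prod_eq_mul_prod_compl j₀]
        have : ∀ j ∈ ({j₀} : Finset (Fin J))ᶜ,
            (if j = j₀ then ({0} : Finset ℕ) ×ˢ P else P ×ˢ P).card = P.card * P.card := by
          intro j hj'
          have : j ≠ j₀ := by simpa using hj'
          rw [if_neg this, card_product]
        rw [prod_congr rfl this, prod_const, card_compl, Fintype.card_fin, card_singleton, if_pos rfl,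
          card_product, card_singleton, one_mul]
      have hJ : 1 ≤ J := by
        have := j₀.2
        omega
      rw [h1]
      push_cast
      have : (2 * J) = 2 * (J - 1) + 2 := by omega
      rw [this, pow_add, pow_mul]
      ring
    have hfib : ∀ u ∈ T, ((S.filter (fun t => F t = u)).card : ℝ) ≤ 2 * Real.sqrt Q := by
      intro u _
      set S' := S.filter (fun t => F t = u) with hS'
      have hinj : Set.InjOn (fun t : Fin J → ℕ × ℕ => (t j₀).1) (S' : Set (Fin J → ℕ × ℕ)) := by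
        intro t ht t' ht' hEq
        have e1 : F t = u := (mem_filter.mp (mem_coe.mp ht)).2
        have e2 : F t' = u := (mem_filter.mp (mem_coe.mp ht')).2
        have e3 : F t = F t' := e1.trans e2.symm
        funext j
        by_cases hjj : j = j₀
        · subst hjj
          have e4 := congrFun e3 j
          simp only [hF, Function.update_self] at e4
          have e5 : (t j).2 = (t' j).2 := (Prod.ext_iff.mp e4).2
          exact Prod.ext hEq e5
        · have e4 := congrFun e3 j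
          simpa only [hF, Function.update_of_ne hjj] using e4
      rw [← card_image_of_injOn hinj]
      refine DEG.card_diff _ _ hs1 ?_
      intro p hp q hq
      obtain ⟨t, ht, rfl⟩ := mem_image.mp hp
      obtain ⟨t', ht', rfl⟩ := mem_image.mp hq
      have a1 := mem_filter.mp ht
      have a2 := mem_filter.mp ht'
      have b1 := mem_filter.mp a1.1
      have b2 := mem_filter.mp a2.1
      have c1 := DEG.close hS C Q J M P I hP hQ hM j₀ hj t b1.1 b1.2
      have c2 := DEG.close hS C Q J M P I hP hQ hM j₀ hj t' b2.1 b2.2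
      have e3 : F t = F t' := a1.2.trans a2.2.symm
      have d2 : ∀ j, (t j).2 = (t' j).2 := by
        intro j
        by_cases hjj : j = j₀
        · subst hjj
          have e4 := congrFun e3 j
          simp only [hF, Function.update_self] at e4
          exact (Prod.ext_iff.mp e4).2
        · have e4 := congrFun e3 j
          simp only [hF, Function.update_of_ne hjj] at e4
          rw [e4]
      have d1 : ∀ j ∈ I.erase j₀, (t j).1 = (t' j).1 := by
        intro j hj'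
        have hjj := (mem_erase.mp hj').1
        have e4 := congrFun e3 j
        simp only [hF, Function.update_of_ne hjj] at e4
        rw [e4]
      have g1 : ∏ j ∈ I, ((t j).2 : ℝ) = ∏ j ∈ I, ((t' j).2 : ℝ) :=
        prod_congr rfl (fun j _ => by rw [d2 j])
      have g2 : ∏ j ∈ I.erase j₀, ((t j).1 : ℝ) = ∏ j ∈ I.erase j₀, ((t' j).1 : ℝ) :=
        prod_congr rfl (fun j hj' => by rw [d1 j hj'])
      rw [g1, g2] at c1
      have := (abs_lt.mp c1).2
      have := (abs_lt.mp c2).1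
      linarith
    have hcard : (S.card : ℝ) ≤ T.card * (2 * Real.sqrt Q) := by
      rw [card_eq_sum_card_fiberwise hmaps]
      push_cast
      calc _ ≤ ∑ u ∈ T, (2 * Real.sqrt Q) := sum_le_sum hfib
        _ = _ := by rw [sum_const, nsmul_eq_mul]
    have hfin : (T.card : ℝ) * (2 * Real.sqrt Q) = 2 * Real.sqrt Q * (P.card : ℝ) ^ (2 * J) / P.card := by
      rw [← hTc]
      field_simp
    linarith

end

end MUR
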