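import Pool.Agent.MUR.StE

set_option autoImplicit false

/-! # MUR, module DEN: from the dyadic blocks to all `n ≤ N` -/

namespace MUR

open Finset

noncomputable section

open Classical in
theorem DEN.step (s : ℤ) (N X : ℕ) (hX : N ≤ 2 * X) :
    ((Icc 1 N).filter (fun n => Exc s n)).card ≤
      ((Icc 1 X).filter (fun n => Exc s n)).card +
        ((Ioc X (2 * X)).filter (fun n => Exc s n)).card := by
  refine le_trans (Finset.card_le_card ?_) (Finset.card_union_le _ _)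
  intro n hn
  simp only [mem_filter, mem_Icc, mem_union, mem_Ioc] at hn ⊢
  by_cases h : n ≤ X
  · exact Or.inl ⟨⟨hn.1.1, h⟩, hn.2⟩
  · exact Or.inr ⟨⟨by omega, by omega⟩, hn.2⟩

open Classical in
theorem DEN.main (s : ℤ) (δ : ℝ) (hδ : 0 < δ) (X₀ : ℕ)
    (h : ∀ X : ℕ, X₀ ≤ X → (((Ioc X (2 * X)).filter (fun n => Exc s n)).card : ℝ) ≤ δ * X) (N : ℕ) :
    (((Icc 1 N).filter (fun n => Exc s n)).card : ℝ) ≤ (2 * X₀ + 3 : ℕ) + 2 * δ * N := by
  induction N using Nat.strong_induction_on with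
  | _ N ih =>
    by_cases hN : N < 2 * X₀ + 3
    · have h1 : ((Icc 1 N).filter (fun n => Exc s n)).card ≤ N := by
        refine le_trans (Finset.card_filter_le _ _) ?_
        simp
      have h2 : (((Icc 1 N).filter (fun n => Exc s n)).card : ℝ) ≤ (2 * X₀ + 3 : ℕ) := by
        exact_mod_cast le_trans h1 hN.le
      have h3 : 0 ≤ 2 * δ * (N : ℝ) := by positivity
      linarith
    · have hN' : 2 * X₀ + 3 ≤ N := not_lt.mp hN
      have hlt : (N + 1) / 2 < N := by omega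
      have h1 := ih ((N + 1) / 2) hlt
      have h2 := h ((N + 1) / 2) (by omega)
      have h3 := DEN.step s N ((N + 1) / 2) (by omega)
      have h4 : (((Icc 1 N).filter (fun n => Exc s n)).card : ℝ) ≤
          (((Icc 1 ((N + 1) / 2)).filter (fun n => Exc s n)).card : ℝ) +
            (((Ioc ((N + 1) / 2) (2 * ((N + 1) / 2))).filter (fun n => Exc s n)).card : ℝ) := by
        exact_mod_cast h3
      have h5 : (((N + 1) / 2 : ℕ) : ℝ) ≤ ((N : ℝ) + 1) / 2 := by
        have : ((((N + 1) / 2 : ℕ)) : ℝ) ≤ ((N + 1 : ℕ) : ℝ) / 2 := Nat.cast_div_le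
        simpa using this
      have h6 : (3 : ℝ) ≤ N := by
        have : 3 ≤ N := by omega
        exact_mod_cast this
      have h7 : δ * (((N + 1) / 2 : ℕ) : ℝ) ≤ δ * (((N : ℝ) + 1) / 2) :=
        mul_le_mul_of_nonneg_left h5 hδ.le
      have h8 : δ * (3 * (((N : ℝ) + 1) / 2)) ≤ δ * (2 * N) :=
        mul_le_mul_of_nonneg_left (by linarith) hδ.le
      nlinarith [h1, h2, h4, h7, h8]

theorem t_DEN : M_DEN := by
  intro hFIN s hs ε hε
  obtain ⟨X₀, hX₀⟩ := hFIN s hs (ε / 4) (by positivity)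
  refine ⟨⌈2 * ((2 * X₀ + 3 : ℕ) : ℝ) / ε⌉₊, fun N hN => ?_⟩
  have h1 := DEN.main s (ε / 4) (by positivity) X₀ hX₀ N
  have h2 : 2 * ((2 * X₀ + 3 : ℕ) : ℝ) / ε ≤ N := le_trans (Nat.le_ceil _) (by exact_mod_cast hN)
  have h3 : 2 * ((2 * X₀ + 3 : ℕ) : ℝ) ≤ N * ε := (div_le_iff₀ hε).mp h2
  refine le_trans h1 ?_
  linarith

end

end MUR
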