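import Mathlib
import Pool.Agent.MUR.StD
import Pool.Agent.Lib_helper91.Div
import Pool.Agent.Lib_helper72.AS.Count

set_option autoImplicit false

namespace MUR

theorem t_DIV : S_DIV := by
  obtain ⟨C, hC1, hC⟩ := Pool.Agent.Lib_helper91.exists_divisor_bound 6 (by norm_num)
  have hC0 : 0 < C := by linarith
  refine ⟨C ^ 3, by positivity, ?_⟩
  intro k hk
  have hk0 : (0 : ℝ) < k := by exact_mod_cast hk
  have hk1 : (1 : ℝ) ≤ k := by exact_mod_cast hk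
  have hd := hC k (by omega)
  norm_num at hd
  have hd0 : (0 : ℝ) ≤ k.divisors.card := by positivity
  have hx0 : 0 ≤ (k : ℝ) ^ (1 / 6 : ℝ) := by positivity
  have hx : (k : ℝ) ^ (1 / 6 : ℝ) = (k : ℝ) ^ ((1 : ℝ) / 6) := by norm_num
  have h3 : ((k : ℝ) ^ (1 / 6 : ℝ)) ^ 3 = (k : ℝ) ^ (1 / 2 : ℝ) := by
    rw [← Real.rpow_natCast, ← Real.rpow_mul hk0.le]; norm_num
  have h2 : ((k : ℝ) ^ (1 / 6 : ℝ)) ^ 2 = (k : ℝ) ^ (1 / 3 : ℝ) := by
    rw [← Real.rpow_natCast, ← Real.rpow_mul hk0.le]; norm_num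
  have hd3 : (k.divisors.card : ℝ) ^ 3 ≤ C ^ 3 * (k : ℝ) ^ (1 / 2 : ℝ) := by
    rw [← h3, ← mul_pow]
    exact pow_le_pow_left₀ hd0 hd 3
  constructor
  · calc (k.divisors.card : ℝ) ^ 2 ≤ (C * (k : ℝ) ^ (1 / 6 : ℝ)) ^ 2 := pow_le_pow_left₀ hd0 hd 2
      _ = C ^ 2 * (k : ℝ) ^ (1 / 3 : ℝ) := by rw [mul_pow, h2]
      _ ≤ C ^ 3 * (k : ℝ) ^ (1 / 2 : ℝ) := by
          apply mul_le_mul
          · exact pow_le_pow_right₀ hC1 (by norm_num)
          · exact Real.rpow_le_rpow_of_exponent_le hk1 (by norm_num)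
          · positivity
          · positivity
  · have ht : (k : ℝ) ≤ k.divisors.card * k.totient := by
      exact_mod_cast Pool.Agent.Lib_helper72.AS.le_card_divisors_mul_totient (by omega : 0 < k)
    have hphi : (0 : ℝ) < k.totient := by exact_mod_cast Nat.totient_pos.2 (by omega)
    have h5 : (k.divisors.card : ℝ) ^ 2 / k.totient ≤ (k.divisors.card : ℝ) ^ 3 / k := by
      rw [div_le_div_iff₀ hphi hk0]
      nlinarith [pow_nonneg hd0 2]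
    have h6 : (k : ℝ) ^ (1 / 2 : ℝ) / k = (k : ℝ) ^ (-(1 / 2 : ℝ)) := by
      rw [div_eq_iff hk0.ne', ← Real.rpow_add_one hk0.ne']
      norm_num
    calc (k.divisors.card : ℝ) ^ 2 / k.totient ≤ (k.divisors.card : ℝ) ^ 3 / k := h5
      _ ≤ (C ^ 3 * (k : ℝ) ^ (1 / 2 : ℝ)) / k := by gcongr
      _ = C ^ 3 * (k : ℝ) ^ (-(1 / 2 : ℝ)) := by rw [mul_div_assoc, h6]

end MUR
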