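import Pool.Agent.MUR.StB
import Pool.Agent.MUR.MON
import Pool.Agent.IPR.DLS
import Pool.Agent.Lib_helper77.EF.LS

set_option autoImplicit false

/-!
# Project MUR, module DLS2: the dual large sieve for pure functions, full strength
-/

namespace MUR

open Finset IPR
open Pool.Agent.Lib_helper83.EF (e)
open scoped ArithmeticFunction.zeta ArithmeticFunction.Moebius ArithmeticFunction.vonMangoldt

noncomputable section

namespace DLS2

/-- the dual large sieve inequality at the Farey fractions -/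
lemma dual (G L : ℕ) (hG : 0 < G) (hGL : G ^ 2 ≤ L) (P : Finset ℕ)
    (hP : ∀ u ∈ P, 0 < u ∧ u ≤ G) (c : ℕ → ℕ → ℂ) :
    ∑ n ∈ range L, ‖∑ u ∈ P, ∑ a ∈ cop u, c u a * e ((n : ℝ) * ((a : ℝ) / u))‖ ^ 2 ≤
      (6 * (L : ℝ)) * ∑ u ∈ P, ∑ a ∈ cop u, ‖c u a‖ ^ 2 := by
  classical
  have hGR : (0 : ℝ) < G := by exact_mod_cast hG
  have hG1 : (1 : ℝ) ≤ G := by exact_mod_cast hG
  have hLpos : 0 < L := lt_of_lt_of_le (pow_pos hG 2) hGL
  have hLR : (0 : ℝ) < L := by exact_mod_cast hLpos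
  set R : Finset (Σ _ : ℕ, ℕ) := P.sigma (fun u => cop u) with hR
  let θ : (Σ _ : ℕ, ℕ) → ℝ := fun r => (r.2 : ℝ) / (r.1 : ℝ)
  have hmem : ∀ r ∈ R, 0 < r.1 ∧ r.1 ≤ G ∧ r.2 < r.1 ∧ Nat.Coprime r.2 r.1 := by
    intro r hr
    rw [hR, mem_sigma, cop, mem_filter, mem_range] at hr
    exact ⟨(hP _ hr.1).1, (hP _ hr.1).2, hr.2.1, hr.2.2⟩
  have hsp : ∀ s ∈ R, ∀ t ∈ R, s ≠ t → 1 / (G : ℝ) ^ 2 ≤ |θ s - θ t| := by
    intro s hs t ht hne
    obtain ⟨s1, s2, s3, s4⟩ := hmem s hs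
    obtain ⟨t1, t2, t3, t4⟩ := hmem t ht
    refine Pool.Agent.Lib_helper77.EF.farey_spacing s1 s2 t1 t2 s4 t4 ?_
    intro h
    apply hne
    rw [Prod.mk.injEq] at h
    exact Sigma.ext h.1 (heq_of_eq h.2)
  have hsp' : ∀ s ∈ R, ∀ t ∈ R, 1 / (G : ℝ) ^ 2 ≤ 1 - |θ s - θ t| := by
    intro s hs t ht
    obtain ⟨s1, s2, s3, s4⟩ := hmem s hs
    obtain ⟨t1, t2, t3, t4⟩ := hmem t ht
    obtain ⟨a1, a2⟩ := Pool.Agent.Lib_helper77.EF.farey_range s1 s2 s3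
    obtain ⟨b1, b2⟩ := Pool.Agent.Lib_helper77.EF.farey_range t1 t2 t3
    have h1 : |θ s - θ t| ≤ 1 - 1 / (G : ℝ) := by
      rw [abs_le]
      constructor
      · show -(1 - 1 / (G : ℝ)) ≤ (s.2 : ℝ) / (s.1 : ℝ) - (t.2 : ℝ) / (t.1 : ℝ)
        linarith
      · show (s.2 : ℝ) / (s.1 : ℝ) - (t.2 : ℝ) / (t.1 : ℝ) ≤ 1 - 1 / (G : ℝ)
        linarith
    have h2 : 1 / (G : ℝ) ^ 2 ≤ 1 / (G : ℝ) := by
      refine one_div_le_one_div_of_le hGR ?_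
      nlinarith
    linarith
  have hdual : ∀ b : (Σ _ : ℕ, ℕ) → ℂ,
      ∑ n ∈ range L, ‖∑ r ∈ R, b r * e ((n : ℝ) * θ r)‖ ^ 2
        ≤ (6 * (L : ℝ)) * ∑ r ∈ R, ‖b r‖ ^ 2 := by
    intro b
    have h := Pool.Agent.Lib_helper77.EF.dual_ineq R θ L (6 * (L : ℝ) ^ 2)
      (fun r hr => Pool.Agent.Lib_helper77.EF.kernel_row_sum R θ G L hG hGL hsp hsp' r hr) b
    have h1 : 6 * (L : ℝ) ^ 2 * ∑ r ∈ R, ‖b r‖ ^ 2
        = (L : ℝ) * ((6 * (L : ℝ)) * ∑ r ∈ R, ‖b r‖ ^ 2) := by ring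
    rw [h1] at h
    exact le_of_mul_le_mul_left h hLR
  have hfin := hdual (fun r => c r.1 r.2)
  rw [hR, sum_sigma] at hfin
  refine le_trans (le_of_eq ?_) hfin
  refine sum_congr rfl fun n _ => ?_
  rw [sum_sigma]

/-- the sum over a product range -/
lemma sum_range_mul {M : Type*} [AddCommMonoid M] (H : ℕ → M) (m l : ℕ) :
    ∑ r ∈ range (m * l), H r = ∑ j ∈ range l, ∑ s ∈ range m, H (s + j * m) := by
  induction l with
  | zero => simp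
  | succ l ih =>
    rw [Nat.mul_succ, Finset.sum_range_add, ih, Finset.sum_range_succ]
    congr 1
    apply Finset.sum_congr rfl
    intro s _
    congr 1
    ring

/-- the Fourier coefficients -/
def fc (u : ℕ) (G : ℕ → ℝ) (a : ℕ) : ℂ :=
  (1 / (u : ℂ)) * ∑ r ∈ range u, (G r : ℂ) * (((e (1 / (u : ℝ)))⁻¹) ^ a) ^ r

lemma fc_zero (u : ℕ) (G : ℕ → ℝ) (hG : PureF u G) (hu : 0 < u) (a : ℕ)
    (ha : ¬ a.Coprime u) : fc u G a = 0 := by
  obtain ⟨l, hl, hla, hlu⟩ := Nat.Prime.not_coprime_iff_dvd.mp ha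
  obtain ⟨m, rfl⟩ := hlu
  obtain ⟨b, rfl⟩ := hla
  have hl0 : 0 < l := hl.pos
  have hz := MON.zeta_prim (l * m) hu
  set z : ℂ := e (1 / ((l * m : ℕ) : ℝ)) with hzd
  have hw : ((z⁻¹) ^ (l * b)) ^ m = 1 := by
    rw [← pow_mul, show l * b * m = (l * m) * b by ring, pow_mul, inv_pow, hz.pow_eq_one,
      inv_one, one_pow]
  unfold fc
  rw [← hzd]
  set w : ℂ := (z⁻¹) ^ (l * b) with hwd
  rw [show l * m = m * l by ring, sum_range_mul, Finset.sum_comm]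
  have h1 : ∀ s ∈ range m, ∑ j ∈ range l, (G (s + j * m) : ℂ) * w ^ (s + j * m) = 0 := by
    intro s _
    have h2 : ∀ j ∈ range l, (G (s + j * m) : ℂ) * w ^ (s + j * m) =
        (G (s + j * m) : ℂ) * w ^ s := by
      intro j _
      rw [pow_add, mul_comm j m, pow_mul, hw, one_pow, mul_one]
    rw [Finset.sum_congr rfl h2, ← Finset.sum_mul]
    have h3 := hG.2 l hl (Dvd.intro m rfl) s
    rw [Nat.mul_div_cancel_left m hl0] at h3
    have h4 : ∑ j ∈ range l, (G (s + j * m) : ℂ) = ((∑ j ∈ range l, G (s + j * m) : ℝ) : ℂ) := by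
      push_cast
      rfl
    rw [h4, h3, Complex.ofReal_zero, zero_mul]
  rw [Finset.sum_eq_zero h1, mul_zero]

lemma fc_norm (u : ℕ) (G : ℕ → ℝ) (hu : 0 < u) :
    (u : ℝ) * ∑ a ∈ range u, ‖fc u G a‖ ^ 2 = ∑ r ∈ range u, G r ^ 2 := by
  have hu0 : (0 : ℝ) < u := by exact_mod_cast hu
  have hz := MON.zeta_prim u hu
  have hzi : IsPrimitiveRoot ((e (1 / (u : ℝ)))⁻¹) u := hz.inv
  have hn : ‖(e (1 / (u : ℝ)))⁻¹‖ = 1 := by
    rw [norm_inv, MON.norm_e, inv_one]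
  have h1 := MON.parseval u hu (fun r => (G r : ℂ)) _ hzi hn
  have h2 : ∀ a ∈ range u, ‖fc u G a‖ ^ 2 = (1 / (u : ℝ) ^ 2) *
      ‖∑ r ∈ range u, (G r : ℂ) * (((e (1 / (u : ℝ)))⁻¹) ^ a) ^ r‖ ^ 2 := by
    intro a _
    unfold fc
    rw [norm_mul, mul_pow]
    congr 1
    rw [norm_div, norm_one, Complex.norm_natCast, div_pow, one_pow]
  rw [Finset.sum_congr rfl h2, ← Finset.mul_sum, h1]
  have h3 : ∀ r ∈ range u, ‖(G r : ℂ)‖ ^ 2 = G r ^ 2 := by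
    intro r _
    rw [Complex.norm_real, Real.norm_eq_abs, sq_abs]
  rw [Finset.sum_congr rfl h3]
  field_simp

lemma orth (u : ℕ) (hu : 0 < u) (z : ℂ) (hz : IsPrimitiveRoot z u) (j r : ℕ) (hj : j < u)
    (hr : r < u) : ∑ a ∈ range u, (z ^ j * z⁻¹ ^ r) ^ a = if r = j then (u : ℂ) else 0 := by
  have hz0 : z ≠ 0 := hz.ne_zero hu.ne'
  by_cases h : r = j
  · subst h
    rw [if_pos rfl, ← mul_pow, mul_inv_cancel₀ hz0, one_pow]
    simp
  · rw [if_neg h]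
    have hx1 : (z ^ j * z⁻¹ ^ r) ≠ 1 := by
      intro h1
      apply h
      have h2 : z ^ j = z ^ r := by
        rw [inv_pow] at h1
        exact (mul_inv_eq_one₀ (pow_ne_zero _ hz0)).1 h1
      exact (hz.pow_inj hj hr h2).symm
    have hxl : (z ^ j * z⁻¹ ^ r) ^ u = 1 := by
      rw [mul_pow, ← pow_mul, ← pow_mul, mul_comm r u, mul_comm j u, pow_mul, pow_mul, inv_pow,
        hz.pow_eq_one]
      simp
    have h3 : (∑ i ∈ range u, (z ^ j * z⁻¹ ^ r) ^ i) * ((z ^ j * z⁻¹ ^ r) - 1) = 0 := by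
      rw [geom_sum_mul, hxl, sub_self]
    rcases mul_eq_zero.1 h3 with h4 | h4
    · exact h4
    · exact absurd (sub_eq_zero.1 h4) hx1

lemma inversion_lt (u : ℕ) (G : ℕ → ℝ) (hu : 0 < u) (j : ℕ) (hj : j < u) :
    ∑ a ∈ range u, fc u G a * (e (1 / (u : ℝ)) ^ a) ^ j = (G j : ℂ) := by
  have hz := MON.zeta_prim u hu
  set z : ℂ := e (1 / (u : ℝ)) with hzd
  have hu1 : (u : ℂ) ≠ 0 := by exact_mod_cast hu.ne'
  unfold fc
  rw [← hzd]
  have h1 : ∀ a ∈ range u, (1 / (u : ℂ)) * (∑ r ∈ range u, (G r : ℂ) * ((z⁻¹) ^ a) ^ r) *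
      (z ^ a) ^ j = (1 / (u : ℂ)) * ∑ r ∈ range u, (G r : ℂ) * (z ^ j * z⁻¹ ^ r) ^ a := by
    intro a _
    rw [mul_assoc, Finset.sum_mul]
    congr 1
    apply Finset.sum_congr rfl
    intro r _
    rw [mul_pow, ← pow_mul, ← pow_mul, ← pow_mul, ← pow_mul, mul_comm a r, mul_comm a j]
    ring
  rw [Finset.sum_congr rfl h1, ← Finset.mul_sum, Finset.sum_comm]
  have h2 : ∀ r ∈ range u, ∑ a ∈ range u, (G r : ℂ) * (z ^ j * z⁻¹ ^ r) ^ a =
      if r = j then (G r : ℂ) * u else 0 := by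
    intro r hr
    rw [← Finset.mul_sum, orth u hu z hz j r hj (mem_range.1 hr)]
    split_ifs
    · rfl
    · rw [mul_zero]
  rw [Finset.sum_congr rfl h2, Finset.sum_ite_eq', if_pos (mem_range.2 hj)]
  field_simp

lemma inversion (u : ℕ) (G : ℕ → ℝ) (hG : PureF u G) (hu : 0 < u) (j : ℕ) :
    ∑ a ∈ cop u, fc u G a * e ((j : ℝ) * ((a : ℝ) / u)) = (G j : ℂ) := by
  have hz := MON.zeta_prim u hu
  have h1 : ∀ a : ℕ, e ((j : ℝ) * ((a : ℝ) / u)) = (e (1 / (u : ℝ)) ^ a) ^ (j % u) := by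
    intro a
    have h2 : (j : ℝ) * ((a : ℝ) / u) = ((a * j : ℕ) : ℝ) * (1 / (u : ℝ)) := by
      push_cast
      ring
    rw [h2, MON.e_nat_mul, pow_mul]
    have h3 : (e (1 / (u : ℝ)) ^ a) ^ j = (e (1 / (u : ℝ)) ^ a) ^ (u * (j / u) + j % u) := by
      rw [Nat.div_add_mod]
    rw [h3, pow_add, pow_mul, ← pow_mul _ a u, mul_comm a u, pow_mul _ u a, hz.pow_eq_one,
      one_pow, one_pow, one_mul]
  have h2 : ∑ a ∈ cop u, fc u G a * e ((j : ℝ) * ((a : ℝ) / u)) =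
      ∑ a ∈ range u, fc u G a * (e (1 / (u : ℝ)) ^ a) ^ (j % u) := by
    unfold cop
    rw [Finset.sum_filter]
    apply Finset.sum_congr rfl
    intro a _
    by_cases ha : a.Coprime u
    · rw [if_pos ha, h1]
    · rw [if_neg ha, fc_zero u G hG hu a ha, zero_mul]
  rw [h2, inversion_lt u G hu (j % u) (Nat.mod_lt _ hu)]
  have h3 : G j = G (j % u) := by
    have h4 := IPR.DLS.per_mul G u hG.1 (j % u) (j / u)
    rw [Nat.mod_add_div'] at h4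
    exact h4
  rw [h3]

lemma fc_norm_cop (u : ℕ) (G : ℕ → ℝ) (hu : 0 < u) :
    (u : ℝ) * ∑ a ∈ cop u, ‖fc u G a‖ ^ 2 ≤ ∑ r ∈ range u, G r ^ 2 := by
  rw [← fc_norm u G hu]
  apply mul_le_mul_of_nonneg_left _ (by positivity)
  apply Finset.sum_le_sum_of_subset_of_nonneg (Finset.filter_subset _ _)
  intro a _ _
  positivity

/-- the large sieve on `range n` -/
lemma main (P : Finset ℕ) (U n : ℕ) (G : ℕ → ℕ → ℝ) (hU : 1 ≤ U)
    (hP : ∀ u ∈ P, U ≤ u ∧ u ≤ 2 * U) (hG : ∀ u ∈ P, PureF u (G u)) :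
    ∑ j ∈ range n, (∑ u ∈ P, G u j) ^ 2 ≤ 24 * ((n : ℝ) / U + U) *
      ∑ u ∈ P, ∑ r ∈ range u, G u r ^ 2 := by
  classical
  have hU0 : (0 : ℝ) < U := by exact_mod_cast hU
  set L : ℕ := n + 4 * U ^ 2 with hL
  have hGL : (2 * U) ^ 2 ≤ L := by
    rw [hL]
    nlinarith
  have hd := dual (2 * U) L (by omega) hGL P (fun u hu => ⟨by have := hP u hu; omega,
    (hP u hu).2⟩) (fun u a => fc u (G u) a)
  have h1 : ∀ j ∈ range L, ‖∑ u ∈ P, ∑ a ∈ cop u, fc u (G u) a * e ((j : ℝ) * ((a : ℝ) / u))‖ ^ 2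
      = (∑ u ∈ P, G u j) ^ 2 := by
    intro j _
    have h2 : ∑ u ∈ P, ∑ a ∈ cop u, fc u (G u) a * e ((j : ℝ) * ((a : ℝ) / u)) =
        ((∑ u ∈ P, G u j : ℝ) : ℂ) := by
      push_cast
      apply Finset.sum_congr rfl
      intro u hu
      exact inversion u (G u) (hG u hu) (by have := hP u hu; omega) j
    rw [h2, Complex.norm_real, Real.norm_eq_abs, sq_abs]
  rw [Finset.sum_congr rfl h1] at hd
  have h3 : ∑ j ∈ range n, (∑ u ∈ P, G u j) ^ 2 ≤ ∑ j ∈ range L, (∑ u ∈ P, G u j) ^ 2 := by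
    apply Finset.sum_le_sum_of_subset_of_nonneg
    · apply Finset.range_subset_range.mpr
      omega
    · intro j _ _
      positivity
  have h4 : (U : ℝ) * ∑ u ∈ P, ∑ a ∈ cop u, ‖fc u (G u) a‖ ^ 2 ≤
      ∑ u ∈ P, ∑ r ∈ range u, G u r ^ 2 := by
    rw [Finset.mul_sum]
    apply Finset.sum_le_sum
    intro u hu
    obtain ⟨a1, a2⟩ := hP u hu
    refine le_trans ?_ (fc_norm_cop u (G u) (by omega))
    apply mul_le_mul_of_nonneg_right
    · exact_mod_cast a1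
    · positivity
  set S : ℝ := ∑ u ∈ P, ∑ a ∈ cop u, ‖fc u (G u) a‖ ^ 2 with hS
  set T : ℝ := ∑ u ∈ P, ∑ r ∈ range u, G u r ^ 2 with hT
  have hS0 : 0 ≤ S := by positivity
  have hT0 : 0 ≤ T := by positivity
  have h5 : S ≤ T / U := by
    rw [le_div_iff₀ hU0]
    linarith
  have hLR : (L : ℝ) = n + 4 * (U : ℝ) ^ 2 := by
    rw [hL]
    push_cast
    ring
  calc ∑ j ∈ range n, (∑ u ∈ P, G u j) ^ 2 ≤ (6 * (L : ℝ)) * S := h3.trans hd
    _ ≤ (6 * (L : ℝ)) * (T / U) := mul_le_mul_of_nonneg_left h5 (by positivity)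
    _ = (6 * ((n : ℝ) / U) + 24 * U) * T := by
        rw [hLR]
        field_simp
        ring
    _ ≤ 24 * ((n : ℝ) / U + U) * T := by
        apply mul_le_mul_of_nonneg_right _ hT0
        have h6 : (0 : ℝ) ≤ (n : ℝ) / U := by positivity
        linarith

end DLS2

theorem t_DLS2 : S_DLS2 := by
  refine ⟨24, by norm_num, ?_⟩
  intro P U f ρ x N F hU hf hP hF
  obtain ⟨k₀, n, hn, hsum⟩ := IPR.DLS.prog f ρ x N hf
  rw [hsum (fun k => (∑ u ∈ P, F u k) ^ 2)]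
  have hU0 : (0 : ℝ) < U := by exact_mod_cast hU
  have h1 := DLS2.main P U n (fun u j => F u (k₀ + f * j)) hU
    (fun u hu => ⟨(hP u hu).2.1, (hP u hu).2.2.1⟩)
    (fun u hu => IPR.DLS.pure_prog u (F u) (hF u hu) f k₀ (hP u hu).2.2.2)
  have h2 : ∑ u ∈ P, ∑ r ∈ range u, (F u (k₀ + f * r)) ^ 2 =
      ∑ u ∈ P, ∑ r ∈ range u, F u r ^ 2 := by
    apply Finset.sum_congr rfl
    intro u hu
    obtain ⟨-, a2, -, a4⟩ := hP u hu
    exact IPR.DLS.sq_prog u (F u) (hF u hu).1 f k₀ (by omega) a4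
  have h3 : ∑ j ∈ range n, (∑ u ∈ P, F u (k₀ + f * j)) ^ 2 ≤
      24 * ((n : ℝ) / U + U) * ∑ u ∈ P, ∑ r ∈ range u, F u r ^ 2 := by
    rw [← h2]
    exact h1
  refine h3.trans ?_
  apply mul_le_mul_of_nonneg_right
  · unfold dl2
    apply mul_le_mul_of_nonneg_left _ (by norm_num)
    have h4 : (n : ℝ) / U ≤ ((N : ℝ) / f + 1) / U := div_le_div_of_nonneg_right hn hU0.le
    linarith
  · positivity

end

end MUR
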