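import Mathlib
import Pool.Agent.MUR.StE

set_option autoImplicit false

/-!
# Project MUR, module DYA: dyadic decomposition of the error sum
-/

namespace MUR

open Finset IPR

noncomputable section

namespace DYA

/-- In an interval of length `Δ` there are at most `Δ / u + 1` multiples of `u`. -/
lemma card_multiples (A Δ u : ℕ) (hu : 1 ≤ u) :
    (((Ioc A (A + Δ)).filter (fun x => u ∣ x)).card : ℝ) ≤ (Δ : ℝ) / u + 1 := by
  have h1 : ((Ioc A (A + Δ)).filter (fun x => u ∣ x)).card ≤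
      (Ioc (A / u) ((A + Δ) / u)).card := by
    apply Finset.card_le_card_of_injOn (fun x => x / u)
    · intro x hx
      have hx' := Finset.mem_coe.mp hx
      rw [Finset.mem_filter, Finset.mem_Ioc] at hx'
      obtain ⟨⟨h1, h2⟩, k, hk⟩ := hx'
      apply Finset.mem_coe.mpr
      rw [Finset.mem_Ioc]
      constructor
      · show A / u < x / u
        rw [hk, Nat.mul_div_cancel_left k (by omega)]
        rw [Nat.div_lt_iff_lt_mul (by omega)]
        rw [hk] at h1
        rw [mul_comm]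
        exact h1
      · exact Nat.div_le_div_right h2
    · intro x hx y hy hxy
      have hx' := (Finset.mem_filter.mp (Finset.mem_coe.mp hx)).2
      have hy' := (Finset.mem_filter.mp (Finset.mem_coe.mp hy)).2
      have e1 := Nat.div_mul_cancel hx'
      have e2 := Nat.div_mul_cancel hy'
      have hxy' : x / u = y / u := hxy
      rw [← e1, ← e2, hxy']
  have h2 : (Ioc (A / u) ((A + Δ) / u)).card = (A + Δ) / u - A / u := Nat.card_Ioc _ _
  have h3 : A / u ≤ (A + Δ) / u := Nat.div_le_div_right (by omega)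
  have hu' : (0 : ℝ) < u := by exact_mod_cast hu
  have h4 : (((A + Δ) / u : ℕ) : ℝ) ≤ ((A + Δ : ℕ) : ℝ) / u := Nat.cast_div_le
  have h5 : (A : ℝ) / u < ((A / u : ℕ) : ℝ) + 1 := by
    rw [div_lt_iff₀ hu']
    have := Nat.lt_div_mul_add (a := A) (b := u) (by omega)
    have h6 : (A : ℝ) < ((A / u * u + u : ℕ) : ℝ) := by exact_mod_cast this
    push_cast at h6
    linarith
  have h7 : (((Ioc A (A + Δ)).filter (fun x => u ∣ x)).card : ℝ) ≤
      (((A + Δ) / u : ℕ) : ℝ) - ((A / u : ℕ) : ℝ) := by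
    rw [h2] at h1
    have : (((Ioc A (A + Δ)).filter (fun x => u ∣ x)).card : ℝ) ≤
        (((A + Δ) / u - A / u : ℕ) : ℝ) := by exact_mod_cast h1
    rw [Nat.cast_sub h3] at this
    exact this
  push_cast at h4
  rw [add_div] at h4
  linarith

/-- The size of a single term. -/
lemma term_bound (X₁ A x u z₀ : ℕ) (Eu : ℝ) (hE : 0 ≤ Eu) (hX : 1 ≤ X₁) (hA : X₁ ≤ A)
    (hx : x ∈ XX X₁ z₀) (hxA : A < x) (htot : x ≤ 2 * x.totient) (hu : u ∣ x) :
    Eu / ((x / u).totient : ℝ) ≤ Eu * (4 * 2 ^ (Nat.log 2 u) / X₁) := by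
  rw [XX, Finset.mem_filter, Finset.mem_Ioc] at hx
  obtain ⟨⟨hx1, hx2⟩, hsq, _⟩ := hx
  have hx0 : x ≠ 0 := by omega
  obtain ⟨k, hk⟩ := hu
  have hu0 : u ≠ 0 := by
    rintro rfl
    simp at hk
    exact hx0 hk
  have hk0 : k ≠ 0 := by
    rintro rfl
    simp at hk
    exact hx0 hk
  have hdiv : x / u = k := by
    rw [hk, Nat.mul_div_cancel_left k (Nat.pos_of_ne_zero hu0)]
  rw [hdiv]
  have hcop : u.Coprime k := by
    rw [hk] at hsq
    exact Nat.coprime_of_squarefree_mul hsq
  have htx : x.totient = u.totient * k.totient := by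
    rw [hk, Nat.totient_mul hcop]
  have hk2 : k ≤ 2 * k.totient := by
    have h1 : u * k ≤ 2 * (u * k.totient) := by
      calc u * k = x := hk.symm
        _ ≤ 2 * x.totient := htot
        _ = 2 * (u.totient * k.totient) := by rw [htx]
        _ ≤ 2 * (u * k.totient) := by
          apply Nat.mul_le_mul_left
          exact Nat.mul_le_mul_right _ (Nat.totient_le u)
    have h2 : u * k ≤ u * (2 * k.totient) := by
      calc u * k ≤ 2 * (u * k.totient) := h1
        _ = u * (2 * k.totient) := by ring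
    exact Nat.le_of_mul_le_mul_left h2 (Nat.pos_of_ne_zero hu0)
  have hkt : 0 < k.totient := Nat.totient_pos.mpr (Nat.pos_of_ne_zero hk0)
  have hkt' : (0 : ℝ) < k.totient := by exact_mod_cast hkt
  have hX' : (0 : ℝ) < X₁ := by exact_mod_cast hX
  rw [div_eq_mul_inv]
  apply mul_le_mul_of_nonneg_left _ hE
  have hlog : u < 2 ^ (Nat.log 2 u + 1) := Nat.lt_pow_succ_log_self (by norm_num) u
  rw [inv_eq_one_div, div_le_div_iff₀ hkt' hX']
  have h3 : X₁ ≤ 4 * 2 ^ (Nat.log 2 u) * k.totient := by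
    have : X₁ ≤ u * k := by
      rw [← hk]
      omega
    calc X₁ ≤ u * k := this
      _ ≤ 2 ^ (Nat.log 2 u + 1) * (2 * k.totient) := Nat.mul_le_mul hlog.le hk2
      _ = 4 * 2 ^ (Nat.log 2 u) * k.totient := by
        rw [pow_succ]
        ring
  have h4 : (X₁ : ℝ) ≤ ((4 * 2 ^ (Nat.log 2 u) * k.totient : ℕ) : ℝ) := by exact_mod_cast h3
  push_cast at h4
  linarith

/-- Divisors of elements of `XX` lie in the dyadic sets `UU`. -/
lemma mem_UU (X₁ x u z₀ : ℕ) (hx : x ∈ XX X₁ z₀) (hu : u ∣ x) :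
    u ∈ UU z₀ (Nat.log 2 u) := by
  rw [XX, Finset.mem_filter, Finset.mem_Ioc] at hx
  obtain ⟨⟨hx1, hx2⟩, hsq, hp⟩ := hx
  have hx0 : x ≠ 0 := by omega
  have hu0 : u ≠ 0 := by
    rintro rfl
    exact hx0 (Nat.eq_zero_of_zero_dvd hu)
  rw [UU, Finset.mem_filter, Finset.mem_Ico]
  refine ⟨⟨Nat.pow_log_le_self 2 hu0, Nat.lt_pow_succ_log_self (by norm_num) u⟩,
    hsq.squarefree_of_dvd hu, ?_⟩
  intro p hpu
  exact hp p (Nat.primeFactors_mono hu hx0 hpu)

lemma gt_z (X₁ x u z₀ : ℕ) (hx : x ∈ XX X₁ z₀) (hu : u ∣ x) (hu1 : u ≠ 1) : z₀ < u := by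
  have h := mem_UU X₁ x u z₀ hx hu
  rw [UU, Finset.mem_filter, Finset.mem_Ico] at h
  obtain ⟨⟨h1, h2⟩, hsq, hp⟩ := h
  have hu0 : u ≠ 0 := by
    rintro rfl
    simp at h1
  obtain ⟨p, hpp, hpu⟩ := Nat.exists_prime_and_dvd hu1
  have h3 := hp p (Nat.mem_primeFactors.mpr ⟨hpp, hpu, hu0⟩)
  exact lt_of_lt_of_le h3 (Nat.le_of_dvd (Nat.pos_of_ne_zero hu0) hpu)

/-- The inner sum for one `x`. -/
lemma inner (X₁ A x z₀ : ℕ) (E : ℕ → ℝ) (hE : ∀ u, 0 ≤ E u) (hX : 1 ≤ X₁) (hA : X₁ ≤ A)
    (hx : x ∈ XX X₁ z₀) (hxA : A < x) (htot : x ≤ 2 * x.totient) :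
    ∑ u ∈ x.divisors.erase 1, E u / ((x / u).totient : ℝ) ≤
      ∑ i ∈ range (Nat.log 2 (2 * X₁) + 1), (if z₀ < 2 ^ (i + 1) then
        ∑ u ∈ UU z₀ i, (if u ∣ x then E u * (4 * 2 ^ i / X₁) else 0) else 0) := by
  have hx' := hx
  rw [XX, Finset.mem_filter, Finset.mem_Ioc] at hx'
  obtain ⟨⟨hx1, hx2⟩, hsq, hp⟩ := hx'
  have hX' : (0 : ℝ) < X₁ := by exact_mod_cast hX
  have hmaps : ∀ u ∈ x.divisors.erase 1, Nat.log 2 u ∈ range (Nat.log 2 (2 * X₁) + 1) := by
    intro u hu
    rw [Finset.mem_erase, Nat.mem_divisors] at hu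
    obtain ⟨hu1, hud, hx0⟩ := hu
    rw [Finset.mem_range]
    have h1 : u ≤ 2 * X₁ := le_trans (Nat.le_of_dvd (Nat.pos_of_ne_zero hx0) hud) hx2
    have := Nat.log_mono_right (b := 2) h1
    omega
  rw [← Finset.sum_fiberwise_of_maps_to hmaps]
  apply Finset.sum_le_sum
  intro i hi
  split_ifs with hz
  · rw [← Finset.sum_filter]
    calc ∑ u ∈ (x.divisors.erase 1).filter (fun u => Nat.log 2 u = i),
          E u / ((x / u).totient : ℝ)
        ≤ ∑ u ∈ (x.divisors.erase 1).filter (fun u => Nat.log 2 u = i),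
          E u * (4 * 2 ^ i / X₁) := by
          apply Finset.sum_le_sum
          intro u hu
          rw [Finset.mem_filter, Finset.mem_erase, Nat.mem_divisors] at hu
          obtain ⟨⟨hu1, hud, hx0⟩, hlog⟩ := hu
          have := term_bound X₁ A x u z₀ (E u) (hE u) hX hA hx hxA htot hud
          rw [hlog] at this
          exact this
      _ ≤ ∑ u ∈ (UU z₀ i).filter (fun u => u ∣ x), E u * (4 * 2 ^ i / X₁) := by
          apply Finset.sum_le_sum_of_subset_of_nonneg
          · intro u hu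
            rw [Finset.mem_filter, Finset.mem_erase, Nat.mem_divisors] at hu
            obtain ⟨⟨hu1, hud, hx0⟩, hlog⟩ := hu
            rw [Finset.mem_filter]
            refine ⟨?_, hud⟩
            have := mem_UU X₁ x u z₀ hx hud
            rw [hlog] at this
            exact this
          · intro u _ _
            exact mul_nonneg (hE u) (by positivity)
  · have hemp : (x.divisors.erase 1).filter (fun u => Nat.log 2 u = i) = ∅ := by
      apply Finset.filter_eq_empty_iff.mpr
      intro u hu hlog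
      rw [Finset.mem_erase, Nat.mem_divisors] at hu
      obtain ⟨hu1, hud, hx0⟩ := hu
      have h1 := gt_z X₁ x u z₀ hx hud hu1
      have h2 : u < 2 ^ (Nat.log 2 u + 1) := Nat.lt_pow_succ_log_self (by norm_num) u
      rw [hlog] at h2
      exact hz (lt_trans h1 h2)
    rw [hemp, Finset.sum_empty]

end DYA

theorem t_DYA : S_DYA := by
  intro X₁ A Δ z₀ E hE hΔ hX hA hAΔ htot
  have hX' : (0 : ℝ) < X₁ := by exact_mod_cast hX
  set F := (XX X₁ z₀).filter (fun x => A < x ∧ x ≤ A + Δ) with hF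
  calc ∑ x ∈ F, ∑ u ∈ x.divisors.erase 1, E u / ((x / u).totient : ℝ)
      ≤ ∑ x ∈ F, ∑ i ∈ range (Nat.log 2 (2 * X₁) + 1), (if z₀ < 2 ^ (i + 1) then
        ∑ u ∈ UU z₀ i, (if u ∣ x then E u * (4 * 2 ^ i / X₁) else 0) else 0) := by
        apply Finset.sum_le_sum
        intro x hx
        rw [hF, Finset.mem_filter] at hx
        exact DYA.inner X₁ A x z₀ E hE hX hA hx.1 hx.2.1 (htot x hx.1)
    _ = ∑ i ∈ range (Nat.log 2 (2 * X₁) + 1), ∑ x ∈ F, (if z₀ < 2 ^ (i + 1) then
        ∑ u ∈ UU z₀ i, (if u ∣ x then E u * (4 * 2 ^ i / X₁) else 0) else 0) :=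
        Finset.sum_comm
    _ ≤ _ := by
        apply Finset.sum_le_sum
        intro i hi
        split_ifs with hz
        · rw [Finset.sum_comm, Finset.mul_sum]
          apply Finset.sum_le_sum
          intro u hu
          have hu' : 2 ^ i ≤ u := by
            rw [UU, Finset.mem_filter, Finset.mem_Ico] at hu
            exact hu.1.1
          have h2i : 1 ≤ 2 ^ i := Nat.one_le_two_pow
          have hu1 : 1 ≤ u := le_trans h2i hu'
          rw [← Finset.sum_filter, Finset.sum_const, nsmul_eq_mul]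
          have hcard : ((F.filter (fun x => u ∣ x)).card : ℝ) ≤ (Δ : ℝ) / 2 ^ i + 1 := by
            have h1 : (F.filter (fun x => u ∣ x)).card ≤
                ((Ioc A (A + Δ)).filter (fun x => u ∣ x)).card := by
              apply Finset.card_le_card
              intro x hx
              rw [Finset.mem_filter, hF, Finset.mem_filter] at hx
              rw [Finset.mem_filter, Finset.mem_Ioc]
              exact ⟨hx.1.2, hx.2⟩
            have h2 := DYA.card_multiples A Δ u hu1
            have h3 : ((F.filter (fun x => u ∣ x)).card : ℝ) ≤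
                (((Ioc A (A + Δ)).filter (fun x => u ∣ x)).card : ℝ) := by exact_mod_cast h1
            have h4 : (Δ : ℝ) / u ≤ (Δ : ℝ) / 2 ^ i := by
              apply div_le_div_of_nonneg_left (Nat.cast_nonneg _) (by positivity)
              exact_mod_cast hu'
            linarith
          have hnn : 0 ≤ E u * (4 * 2 ^ i / (X₁ : ℝ)) := mul_nonneg (hE u) (by positivity)
          calc ((F.filter (fun x => u ∣ x)).card : ℝ) * (E u * (4 * 2 ^ i / X₁))
              ≤ ((Δ : ℝ) / 2 ^ i + 1) * (E u * (4 * 2 ^ i / X₁)) :=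
                mul_le_mul_of_nonneg_right hcard hnn
            _ = 4 * ((Δ : ℝ) / X₁ + 2 ^ i / X₁) * E u := by
                have h2ne : (2 : ℝ) ^ i ≠ 0 := by positivity
                field_simp
        · rw [Finset.sum_const_zero]

end

end MUR
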