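import Mathlib
import Pool.Agent.MUR.StC
import Pool.Agent.Lib_helper77.EF.LS

set_option autoImplicit false

/-!
# Project MUR, module E1: the projection `PQ` and the block Fourier coefficients
-/

namespace MUR

open Finset
open Pool.Agent.Lib_helper83.EF (e)
open Pool.Agent.Lib_helper77.EF

noncomputable section

namespace E1

/-- The translated geometric sum. -/
theorem norm_K (H i : ℕ) (β : ℝ) :
    ‖∑ n ∈ Ico (i * H) (i * H + H), e ((n : ℝ) * β)‖ = ‖D H β‖ := by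
  have h1 : ∑ n ∈ Ico (i * H) (i * H + H), e ((n : ℝ) * β) = e (((i * H : ℕ) : ℝ) * β) * D H β := by
    rw [Finset.sum_Ico_eq_sum_range]
    unfold D
    rw [Finset.mul_sum]
    have h2 : i * H + H - i * H = H := by omega
    rw [h2]
    refine Finset.sum_congr rfl fun k _ => ?_
    rw [← e_add]
    congr 1
    push_cast
    ring
  rw [h1, norm_mul, norm_e, one_mul]

theorem norm_D_bound {G M : ℕ} {x : ℝ} (hG : 0 < G) (h0 : 1 / (G : ℝ) ^ 2 ≤ |x|)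
    (h1 : |x| ≤ 1 - 1 / (G : ℝ)) : ‖D M x‖ ≤ (G : ℝ) ^ 2 := by
  have hGR : (0 : ℝ) < G := by exact_mod_cast hG
  have hG1 : (1 : ℝ) ≤ G := by exact_mod_cast hG
  have hxx : ‖D M x‖ = ‖D M |x|‖ := by
    rcases abs_choice x with h | h
    · rw [h]
    · rw [h, norm_D_neg]
  have hpos : 0 < |x| := lt_of_lt_of_le (by positivity) h0
  have hlt : |x| < 1 := by
    have : 0 < 1 / (G : ℝ) := by positivity
    linarith
  have h2 := norm_D_sq_le M hpos hlt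
  have h3 : 1 / |x| ^ 2 ≤ (G : ℝ) ^ 4 := by
    have h4 : 1 ≤ |x| * (G : ℝ) ^ 2 := by
      rwa [div_le_iff₀ (by positivity)] at h0
    rw [div_le_iff₀ (by positivity)]
    have h5 : (1 : ℝ) ^ 2 ≤ (|x| * (G : ℝ) ^ 2) ^ 2 := pow_le_pow_left₀ (by norm_num) h4 2
    calc (1 : ℝ) = 1 ^ 2 := by norm_num
      _ ≤ (|x| * (G : ℝ) ^ 2) ^ 2 := h5
      _ = (G : ℝ) ^ 4 * |x| ^ 2 := by ring
  have h6 : 1 / (1 - |x|) ^ 2 ≤ (G : ℝ) ^ 4 := by
    have h7 : 1 / (G : ℝ) ≤ 1 - |x| := by linarith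
    have h8 : 1 ≤ (1 - |x|) * (G : ℝ) ^ 2 := by
      have h9 : 1 ≤ (1 - |x|) * (G : ℝ) := by
        rwa [div_le_iff₀ (by positivity)] at h7
      nlinarith
    rw [div_le_iff₀ (by nlinarith)]
    have h5 : (1 : ℝ) ^ 2 ≤ ((1 - |x|) * (G : ℝ) ^ 2) ^ 2 := pow_le_pow_left₀ (by norm_num) h8 2
    calc (1 : ℝ) = 1 ^ 2 := by norm_num
      _ ≤ ((1 - |x|) * (G : ℝ) ^ 2) ^ 2 := h5
      _ = (G : ℝ) ^ 4 * (1 - |x|) ^ 2 := by ring
  have h10 : ‖D M x‖ ^ 2 ≤ ((G : ℝ) ^ 2) ^ 2 := by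
    rw [hxx]
    calc ‖D M |x|‖ ^ 2 ≤ (1 / 4) * (1 / |x| ^ 2 + 1 / (1 - |x|) ^ 2) := h2
      _ ≤ (1 / 4) * ((G : ℝ) ^ 4 + (G : ℝ) ^ 4) := by linarith
      _ ≤ (G : ℝ) ^ 4 := by
          have : (0 : ℝ) ≤ (G : ℝ) ^ 4 := by positivity
          linarith
      _ = ((G : ℝ) ^ 2) ^ 2 := by ring
  exact le_of_sq_le_sq h10 (by positivity)

theorem norm_ft_le (α : ℕ → ℂ) (H i : ℕ) (θ : ℝ) (hα : ∀ n, ‖α n‖ ≤ 1) : ‖ft α H i θ‖ ≤ H := by
  unfold ft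
  calc _ ≤ ∑ n ∈ Ico (i * H) (i * H + H), ‖α n * e (-((n : ℝ) * θ))‖ := norm_sum_le _ _
    _ ≤ ∑ n ∈ Ico (i * H) (i * H + H), (1 : ℝ) := by
        refine Finset.sum_le_sum fun n _ => ?_
        rw [norm_mul, norm_e, mul_one]
        exact hα n
    _ = H := by simp

/-- The fractions as a sigma set. -/
def RR (𝒬 : Finset ℕ) : Finset (Σ _ : ℕ, ℕ) := 𝒬.sigma (fun q => cop q)

theorem card_RR (𝒬 : Finset ℕ) (G : ℕ) (h𝒬 : ∀ q ∈ 𝒬, 1 ≤ q ∧ q ≤ G) : (RR 𝒬).card ≤ G ^ 2 := by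
  unfold RR
  rw [Finset.card_sigma]
  have h1 : 𝒬 ⊆ Icc 1 G := fun q hq => Finset.mem_Icc.mpr (h𝒬 q hq)
  have h2 : 𝒬.card ≤ G := by
    have := Finset.card_le_card h1
    simpa using this
  calc ∑ q ∈ 𝒬, (cop q).card ≤ ∑ q ∈ 𝒬, G := by
        refine Finset.sum_le_sum fun q hq => ?_
        unfold cop
        calc _ ≤ (range q).card := Finset.card_filter_le _ _
          _ = q := Finset.card_range q
          _ ≤ G := (h𝒬 q hq).2
    _ = 𝒬.card * G := by simp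
    _ ≤ G ^ 2 := by nlinarith

theorem ft_PQ (𝒬 : Finset ℕ) (H i : ℕ) (α : ℕ → ℂ) (θ : ℝ) :
    ft (PQ 𝒬 H α) H i θ = ∑ r ∈ RR 𝒬, (1 / H : ℂ) * ft α H i ((r.2 : ℝ) / r.1) *
      ∑ n ∈ Ico (i * H) (i * H + H), e ((n : ℝ) * ((r.2 : ℝ) / r.1 - θ)) := by
  have h1 : ∀ n ∈ Ico (i * H) (i * H + H), PQ 𝒬 H α n * e (-((n : ℝ) * θ)) =
      ∑ r ∈ RR 𝒬, (1 / H : ℂ) * ft α H i ((r.2 : ℝ) / r.1) *
        e ((n : ℝ) * ((r.2 : ℝ) / r.1 - θ)) := by
    intro n hn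
    rw [Finset.mem_Ico] at hn
    have h2 : n / H = i := by
      apply Nat.div_eq_of_lt_le
      · exact hn.1
      · rw [Nat.add_mul, one_mul]
        exact hn.2
    unfold PQ RR
    rw [h2, Finset.sum_sigma, mul_assoc, Finset.sum_mul, Finset.mul_sum]
    refine Finset.sum_congr rfl fun q _ => ?_
    rw [Finset.sum_mul, Finset.mul_sum]
    refine Finset.sum_congr rfl fun a _ => ?_
    have h3 : e ((n : ℝ) * ((a : ℝ) / q - θ)) =
        e ((n : ℝ) * ((a : ℝ) / q)) * e (-((n : ℝ) * θ)) := by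
      rw [← e_add]
      congr 1
      ring
    simp only [h3]
    ring
  have h4 : ft (PQ 𝒬 H α) H i θ = ∑ n ∈ Ico (i * H) (i * H + H),
      PQ 𝒬 H α n * e (-((n : ℝ) * θ)) := rfl
  rw [h4, Finset.sum_congr rfl h1, Finset.sum_comm]
  refine Finset.sum_congr rfl fun r _ => ?_
  rw [Finset.mul_sum]

end E1

theorem t_E1 : S_E1 := by
  intro 𝒬 G H i α hH hα h𝒬 q hq a ha
  classical
  rw [Finset.mem_Icc] at hq
  have hG : 0 < G := by omega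
  have hHR : (0 : ℝ) < H := by exact_mod_cast hH
  have hHC : (H : ℂ) ≠ 0 := by exact_mod_cast (by omega : H ≠ 0)
  have ha' : a < q ∧ a.Coprime q := by
    unfold cop at ha
    rw [Finset.mem_filter, Finset.mem_range] at ha
    exact ha
  set θ : ℝ := (a : ℝ) / q with hθ
  set T : (Σ _ : ℕ, ℕ) → ℂ := fun r => (1 / H : ℂ) * ft α H i ((r.2 : ℝ) / r.1) *
      ∑ n ∈ Ico (i * H) (i * H + H), e ((n : ℝ) * ((r.2 : ℝ) / r.1 - θ)) with hT
  have hmain : ft (PQ 𝒬 H α) H i θ - (if q ∈ 𝒬 then ft α H i θ else 0) =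
      ∑ r ∈ (E1.RR 𝒬).erase ⟨q, a⟩, T r := by
    rw [E1.ft_PQ 𝒬 H i α θ]
    by_cases hqQ : q ∈ 𝒬
    · rw [if_pos hqQ]
      have hmem : (⟨q, a⟩ : Σ _ : ℕ, ℕ) ∈ E1.RR 𝒬 := by
        unfold E1.RR
        rw [Finset.mem_sigma]
        exact ⟨hqQ, ha⟩
      rw [← Finset.add_sum_erase _ _ hmem]
      have h1 : (1 / H : ℂ) * ft α H i ((a : ℝ) / q) *
          ∑ n ∈ Ico (i * H) (i * H + H), e ((n : ℝ) * ((a : ℝ) / q - θ)) = ft α H i θ := by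
        have h2 : ∀ n ∈ Ico (i * H) (i * H + H), e ((n : ℝ) * ((a : ℝ) / q - θ)) = 1 := by
          intro n _
          rw [hθ, sub_self, mul_zero, e_zero]
        rw [Finset.sum_congr rfl h2]
        simp only [Finset.sum_const, Nat.card_Ico, Nat.add_sub_cancel_left, nsmul_eq_mul, mul_one]
        rw [← hθ]
        field_simp
      have h3 : (1 / H : ℂ) * ft α H i (((⟨q, a⟩ : Σ _ : ℕ, ℕ).2 : ℝ) / (⟨q, a⟩ : Σ _ : ℕ, ℕ).1) *
          ∑ n ∈ Ico (i * H) (i * H + H),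
            e ((n : ℝ) * (((⟨q, a⟩ : Σ _ : ℕ, ℕ).2 : ℝ) / (⟨q, a⟩ : Σ _ : ℕ, ℕ).1 - θ)) =
          ft α H i θ := h1
      rw [h3]
      ring
    · rw [if_neg hqQ, sub_zero]
      have hmem : (⟨q, a⟩ : Σ _ : ℕ, ℕ) ∉ E1.RR 𝒬 := by
        unfold E1.RR
        rw [Finset.mem_sigma]
        exact fun h => hqQ h.1
      rw [Finset.erase_eq_of_notMem hmem]
  rw [hmain]
  have hbound : ∀ r ∈ (E1.RR 𝒬).erase ⟨q, a⟩, ‖T r‖ ≤ (G : ℝ) ^ 2 := by
    intro r hr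
    rw [Finset.mem_erase] at hr
    obtain ⟨hne, hr⟩ := hr
    unfold E1.RR at hr
    rw [Finset.mem_sigma] at hr
    obtain ⟨hr1, hr2⟩ := hr
    unfold cop at hr2
    rw [Finset.mem_filter, Finset.mem_range] at hr2
    have hr3 := h𝒬 r.1 hr1
    have hne' : (r.1, r.2) ≠ (q, a) := by
      intro h
      apply hne
      have h1 : r.1 = q := congrArg Prod.fst h
      have h2 : r.2 = a := congrArg Prod.snd h
      cases r
      simp only at h1 h2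
      subst h1
      subst h2
      rfl
    have hsp := farey_spacing (G := G) (by omega : 0 < r.1) hr3.2 (by omega : 0 < q) hq.2
      hr2.2 ha'.2 hne'
    have hr4 := farey_range (G := G) (by omega : 0 < r.1) hr3.2 hr2.1
    have ha4 := farey_range (G := G) (by omega : 0 < q) hq.2 ha'.1
    have hup : |(r.2 : ℝ) / r.1 - θ| ≤ 1 - 1 / (G : ℝ) := by
      rw [abs_le]
      constructor
      · have := ha4.2
        have := hr4.1
        rw [hθ]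
        linarith
      · have := ha4.1
        have := hr4.2
        rw [hθ]
        linarith
    have hD := E1.norm_D_bound (M := H) hG hsp hup
    rw [hT]
    simp only
    rw [norm_mul, norm_mul, E1.norm_K]
    have h5 : ‖(1 / H : ℂ)‖ = 1 / (H : ℝ) := by
      rw [norm_div, norm_one, Complex.norm_natCast]
    rw [h5]
    have h6 : 1 / (H : ℝ) * ‖ft α H i ((r.2 : ℝ) / r.1)‖ ≤ 1 := by
      have := E1.norm_ft_le α H i ((r.2 : ℝ) / r.1) hα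
      rw [one_div, inv_mul_le_iff₀ hHR, mul_one]
      exact this
    calc _ ≤ 1 * ‖D H ((r.2 : ℝ) / r.1 - θ)‖ := mul_le_mul_of_nonneg_right h6 (norm_nonneg _)
      _ ≤ (G : ℝ) ^ 2 := by rw [one_mul]; exact hD
  calc ‖∑ r ∈ (E1.RR 𝒬).erase ⟨q, a⟩, T r‖ ≤ ∑ r ∈ (E1.RR 𝒬).erase ⟨q, a⟩, ‖T r‖ :=
        norm_sum_le _ _
    _ ≤ ∑ r ∈ (E1.RR 𝒬).erase ⟨q, a⟩, (G : ℝ) ^ 2 := Finset.sum_le_sum hbound
    _ = ((E1.RR 𝒬).erase ⟨q, a⟩).card * (G : ℝ) ^ 2 := by rw [Finset.sum_const, nsmul_eq_mul]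
    _ ≤ (G : ℝ) ^ 2 * (G : ℝ) ^ 2 := by
        refine mul_le_mul_of_nonneg_right ?_ (by positivity)
        have h7 : ((E1.RR 𝒬).erase ⟨q, a⟩).card ≤ G ^ 2 :=
          (Finset.card_erase_le).trans (E1.card_RR 𝒬 G h𝒬)
        exact_mod_cast h7
    _ = (G : ℝ) ^ 4 := by ring

end

end MUR
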