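import Mathlib
import Pool.Agent.MUR.StC
import Pool.Agent.Lib_helper77.EF.LS

set_option autoImplicit false

/-!
# Project MUR: E2, the size of the projections
-/

namespace MUR

open Finset
open Pool.Agent.Lib_helper83.EF (e)

noncomputable section

namespace E2

open Pool.Agent.Lib_helper77.EF (e_add norm_e conj_e kernel_row_sum dual_ineq farey_spacing farey_range)

/-- sum over a block as a sum over a range -/
theorem sum_block (f : ℕ → ℝ) (H i : ℕ) :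
    ∑ n ∈ Ico (i * H) (i * H + H), f n = ∑ m ∈ range H, f (i * H + m) := by
  rw [Finset.sum_Ico_eq_sum_range]
  simp

theorem ft_norm (α : ℕ → ℂ) (H i : ℕ) (θ : ℝ) :
    ‖ft α H i θ‖ = ‖∑ m ∈ range H, (starRingEnd ℂ) (α (i * H + m)) * e ((m : ℝ) * θ)‖ := by
  have h1 : (starRingEnd ℂ) (ft α H i θ) =
      e (((i * H : ℕ) : ℝ) * θ) *
        ∑ m ∈ range H, (starRingEnd ℂ) (α (i * H + m)) * e ((m : ℝ) * θ) := by
    unfold ft
    rw [Finset.sum_Ico_eq_sum_range, map_sum, mul_sum]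
    simp only [Nat.add_sub_cancel_left]
    refine sum_congr rfl fun m _ => ?_
    rw [map_mul, conj_e, neg_neg]
    have h2 : ((i * H + m : ℕ) : ℝ) * θ = ((i * H : ℕ) : ℝ) * θ + (m : ℝ) * θ := by
      push_cast; ring
    rw [h2, e_add]
    ring
  rw [← RCLike.norm_conj (ft α H i θ), h1, norm_mul, norm_e, one_mul]

theorem ft_sum (𝒬 : Finset ℕ) (G H i : ℕ) (α : ℕ → ℂ) (hGH : G ^ 2 ≤ H)
    (hQ : ∀ q ∈ 𝒬, 1 ≤ q ∧ q ≤ G) :
    ∑ q ∈ 𝒬, ∑ a ∈ cop q, ‖ft α H i ((a : ℝ) / q)‖ ^ 2 ≤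
      6 * H * ∑ n ∈ Ico (i * H) (i * H + H), ‖α n‖ ^ 2 := by
  have h := Pool.Agent.Lib_helper77.EF.ls G H hGH (fun m => (starRingEnd ℂ) (α (i * H + m)))
  rw [sum_block]
  have h1 : ∑ m ∈ range H, ‖(starRingEnd ℂ) (α (i * H + m))‖ ^ 2 =
      ∑ m ∈ range H, ‖α (i * H + m)‖ ^ 2 := by
    refine sum_congr rfl fun m _ => ?_
    rw [RCLike.norm_conj]
  have h2 : ∑ q ∈ 𝒬, ∑ a ∈ cop q, ‖ft α H i ((a : ℝ) / q)‖ ^ 2 ≤
      ∑ q ∈ Icc 1 G, ∑ a ∈ cop q, ‖ft α H i ((a : ℝ) / q)‖ ^ 2 := by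
    refine sum_le_sum_of_subset_of_nonneg ?_ fun q _ _ => sum_nonneg fun _ _ => by positivity
    intro q hq
    exact mem_Icc.mpr (hQ q hq)
  refine h2.trans ?_
  rw [← h1]
  refine le_trans (le_of_eq ?_) h
  refine sum_congr rfl fun q _ => ?_
  unfold cop
  refine sum_congr rfl fun a _ => ?_
  rw [ft_norm]
  simp only [mul_div_assoc]

theorem dual (𝒬 : Finset ℕ) (G H : ℕ) (hG : 0 < G) (hGH : G ^ 2 ≤ H)
    (hQ : ∀ q ∈ 𝒬, 1 ≤ q ∧ q ≤ G) (b : (Σ _ : ℕ, ℕ) → ℂ) :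
    ∑ n ∈ range H, ‖∑ r ∈ 𝒬.sigma cop, b r * e ((n : ℝ) * ((r.2 : ℝ) / (r.1 : ℝ)))‖ ^ 2
        ≤ (6 * (H : ℝ)) * ∑ r ∈ 𝒬.sigma cop, ‖b r‖ ^ 2 := by
  classical
  have hGR : (0 : ℝ) < G := by exact_mod_cast hG
  have hG1 : (1 : ℝ) ≤ G := by exact_mod_cast hG
  have hLpos : 0 < H := lt_of_lt_of_le (pow_pos hG 2) hGH
  have hLR : (0 : ℝ) < H := by exact_mod_cast hLpos
  set R : Finset (Σ _ : ℕ, ℕ) := 𝒬.sigma cop with hR
  let θ : (Σ _ : ℕ, ℕ) → ℝ := fun r => (r.2 : ℝ) / (r.1 : ℝ)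
  have hmem : ∀ r ∈ R, 0 < r.1 ∧ r.1 ≤ G ∧ r.2 < r.1 ∧ Nat.Coprime r.2 r.1 := by
    intro r hr
    rw [hR, mem_sigma] at hr
    obtain ⟨h1, h2⟩ := hr
    unfold cop at h2
    rw [mem_filter, mem_range] at h2
    exact ⟨(hQ _ h1).1, (hQ _ h1).2, h2.1, h2.2⟩
  have hsp : ∀ s ∈ R, ∀ t ∈ R, s ≠ t → 1 / (G : ℝ) ^ 2 ≤ |θ s - θ t| := by
    intro s hs t ht hne
    obtain ⟨s1, s2, s3, s4⟩ := hmem s hs
    obtain ⟨t1, t2, t3, t4⟩ := hmem t ht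
    refine farey_spacing s1 s2 t1 t2 s4 t4 ?_
    intro h
    apply hne
    rw [Prod.mk.injEq] at h
    exact Sigma.ext h.1 (heq_of_eq h.2)
  have hsp' : ∀ s ∈ R, ∀ t ∈ R, 1 / (G : ℝ) ^ 2 ≤ 1 - |θ s - θ t| := by
    intro s hs t ht
    obtain ⟨s1, s2, s3, s4⟩ := hmem s hs
    obtain ⟨t1, t2, t3, t4⟩ := hmem t ht
    obtain ⟨a1, a2⟩ := farey_range s1 s2 s3
    obtain ⟨b1, b2⟩ := farey_range t1 t2 t3
    have h1 : |θ s - θ t| ≤ 1 - 1 / (G : ℝ) := by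
      rw [abs_le]
      constructor
      · show -(1 - 1 / (G : ℝ)) ≤ (s.2 : ℝ) / (s.1 : ℝ) - (t.2 : ℝ) / (t.1 : ℝ)
        linarith
      · show (s.2 : ℝ) / (s.1 : ℝ) - (t.2 : ℝ) / (t.1 : ℝ) ≤ 1 - 1 / (G : ℝ)
        linarith
    have h2 : 1 / (G : ℝ) ^ 2 ≤ 1 / (G : ℝ) := by
      refine one_div_le_one_div_of_le hGR ?_
      nlinarith
    linarith
  have h := dual_ineq R θ H (6 * (H : ℝ) ^ 2)
    (fun r hr => kernel_row_sum R θ G H hG hGH hsp hsp' r hr) b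
  have h1 : 6 * (H : ℝ) ^ 2 * ∑ r ∈ R, ‖b r‖ ^ 2
      = (H : ℝ) * ((6 * (H : ℝ)) * ∑ r ∈ R, ‖b r‖ ^ 2) := by ring
  rw [h1] at h
  exact le_of_mul_le_mul_left h hLR

end E2

theorem t_E2 : S_E2 := by
  intro 𝒬 G H i α hH hGH hQ
  have hHR : (0 : ℝ) < H := by exact_mod_cast hH
  rcases Nat.eq_zero_or_pos G with hG0 | hG
  · have hemp : 𝒬 = ∅ := by
      rw [Finset.eq_empty_iff_forall_notMem]
      intro q hq
      have := hQ q hq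
      omega
    subst hemp
    have : ∀ n, PQ ∅ H α n = 0 := by intro n; simp [PQ]
    simp only [this, norm_zero]
    have : 0 ≤ ∑ n ∈ Ico (i * H) (i * H + H), ‖α n‖ ^ 2 := sum_nonneg fun _ _ => by positivity
    simp only [ne_eq, OfNat.ofNat_ne_zero, not_false_eq_true, zero_pow, sum_const_zero]
    positivity
  · set b : (Σ _ : ℕ, ℕ) → ℂ := fun r =>
      ft α H i ((r.2 : ℝ) / (r.1 : ℝ)) * e (((i * H : ℕ) : ℝ) * ((r.2 : ℝ) / (r.1 : ℝ))) with hb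
    have hbn : ∀ r, ‖b r‖ = ‖ft α H i ((r.2 : ℝ) / (r.1 : ℝ))‖ := by
      intro r
      rw [hb]
      simp only [norm_mul, Pool.Agent.Lib_helper77.EF.norm_e, mul_one]
    have h1 := E2.dual 𝒬 G H hG hGH hQ b
    have h2 := E2.ft_sum 𝒬 G H i α hGH hQ
    have h3 : ∑ r ∈ 𝒬.sigma cop, ‖b r‖ ^ 2 =
        ∑ q ∈ 𝒬, ∑ a ∈ cop q, ‖ft α H i ((a : ℝ) / q)‖ ^ 2 := by
      rw [sum_sigma]
      refine sum_congr rfl fun q _ => sum_congr rfl fun a _ => ?_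
      rw [hbn]
    have h4 : ∀ m ∈ range H, ‖PQ 𝒬 H α (i * H + m)‖ ^ 2 = (1 / (H : ℝ)) ^ 2 *
        ‖∑ r ∈ 𝒬.sigma cop, b r * e ((m : ℝ) * ((r.2 : ℝ) / (r.1 : ℝ)))‖ ^ 2 := by
      intro m hm
      rw [mem_range] at hm
      have hdiv : (i * H + m) / H = i := by
        rw [mul_comm, Nat.mul_add_div hH, Nat.div_eq_of_lt hm, add_zero]
      unfold PQ
      rw [hdiv, norm_mul, mul_pow, sum_sigma]
      congr 1
      · simp
      · congr 2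
        refine sum_congr rfl fun q _ => sum_congr rfl fun a _ => ?_
        rw [hb]
        simp only
        have h5 : ((i * H + m : ℕ) : ℝ) * ((a : ℝ) / q) =
            ((i * H : ℕ) : ℝ) * ((a : ℝ) / q) + (m : ℝ) * ((a : ℝ) / q) := by
          push_cast; ring
        rw [h5, Pool.Agent.Lib_helper77.EF.e_add]
        ring
    rw [E2.sum_block, sum_congr rfl h4, ← mul_sum]
    rw [h3] at h1
    calc (1 / (H : ℝ)) ^ 2 * ∑ n ∈ range H,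
          ‖∑ r ∈ 𝒬.sigma cop, b r * e ((n : ℝ) * ((r.2 : ℝ) / (r.1 : ℝ)))‖ ^ 2
        ≤ (1 / (H : ℝ)) ^ 2 * ((6 * (H : ℝ)) *
            (6 * H * ∑ n ∈ Ico (i * H) (i * H + H), ‖α n‖ ^ 2)) := by
          refine mul_le_mul_of_nonneg_left (h1.trans ?_) (by positivity)
          exact mul_le_mul_of_nonneg_left h2 (by positivity)
      _ = 36 * ∑ n ∈ Ico (i * H) (i * H + H), ‖α n‖ ^ 2 := by
          field_simp
          ring

end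

end MUR
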