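import Mathlib
import Pool.Agent.MUR.StC

set_option autoImplicit false

/-!
# Project MUR: the projection to the frequencies with denominator dividing `M₁`
-/

namespace MUR

open Finset
open Pool.Agent.Lib_helper83.EF (e)

noncomputable section

namespace E4

lemma e_zero' : e 0 = 1 := by simp [e]

lemma e_add' (x y : ℝ) : e (x + y) = e x * e y := by
  unfold e
  rw [← Complex.exp_add]
  congr 1
  push_cast
  ring

lemma e_nat' (x : ℝ) (n : ℕ) : e (n * x) = e x ^ n := by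
  unfold e
  rw [← Complex.exp_nat_mul]
  congr 1
  push_cast
  ring

lemma e_int' (k : ℤ) : e (k : ℝ) = 1 := by
  unfold e
  have h := Complex.exp_int_mul_two_pi_mul_I k
  rw [← h]
  congr 1
  push_cast
  ring

lemma e_eq_one' (x : ℝ) (h : e x = 1) : ∃ k : ℤ, x = k := by
  unfold e at h
  rw [Complex.exp_eq_one_iff] at h
  obtain ⟨k, hk⟩ := h
  refine ⟨k, ?_⟩
  have h2 : (2 * Real.pi * Complex.I : ℂ) ≠ 0 := by
    simp [Real.pi_ne_zero, Complex.I_ne_zero]
  have h3 : ((x : ℂ) - k) * (2 * Real.pi * Complex.I) = 0 := by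
    linear_combination hk
  rcases mul_eq_zero.1 h3 with h4 | h4
  · have h5 : (x : ℂ) = ((k : ℝ) : ℂ) := by
      push_cast
      exact sub_eq_zero.1 h4
    exact_mod_cast h5
  · exact absurd h4 h2

/-- Every `b / M` is `a / q` for exactly one `q ∣ M`, `a ∈ cop q`. -/
lemma sum_cop (f : ℝ → ℂ) (M : ℕ) (hM : 1 ≤ M) :
    ∑ q ∈ M.divisors, ∑ a ∈ cop q, f ((a : ℝ) / q) = ∑ b ∈ range M, f ((b : ℝ) / M) := by
  rw [Finset.sum_sigma']
  refine Finset.sum_bij' (fun x _ => x.2 * (M / x.1))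
    (fun b _ => ⟨M / b.gcd M, b / b.gcd M⟩) ?_ ?_ ?_ ?_ ?_
  · rintro ⟨q, a⟩ hx
    simp only [cop, mem_sigma, mem_filter, mem_range, Nat.mem_divisors] at hx ⊢
    obtain ⟨⟨⟨c, hc⟩, h0⟩, h1, h2⟩ := hx
    have hq : 0 < q := by omega
    have hc0 : 0 < c := Nat.pos_of_ne_zero (fun h => by rw [h, mul_zero] at hc; omega)
    rw [hc, Nat.mul_div_cancel_left c hq]
    exact Nat.mul_lt_mul_of_pos_right h1 hc0
  · intro b hb
    simp only [cop, mem_sigma, mem_filter, mem_range, Nat.mem_divisors] at hb ⊢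
    have hg : 0 < b.gcd M := Nat.gcd_pos_of_pos_right b (by omega)
    refine ⟨⟨Nat.div_dvd_of_dvd (Nat.gcd_dvd_right b M), by omega⟩, ?_, ?_⟩
    · exact Nat.div_lt_div_of_lt_of_dvd (Nat.gcd_dvd_right b M) hb
    · exact Nat.coprime_div_gcd_div_gcd hg
  · rintro ⟨q, a⟩ hx
    simp only [cop, mem_sigma, mem_filter, mem_range, Nat.mem_divisors] at hx
    obtain ⟨⟨⟨c, hc⟩, h0⟩, h1, h2⟩ := hx
    have hq : 0 < q := by omega
    have hc0 : 0 < c := Nat.pos_of_ne_zero (fun h => by rw [h, mul_zero] at hc; omega)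
    have e1 : M / q = c := by rw [hc, Nat.mul_div_cancel_left c hq]
    have e2 : (a * (M / q)).gcd M = c := by
      rw [e1]
      nth_rewrite 1 [hc]
      rw [Nat.gcd_mul_right, h2, one_mul]
    simp only [e2]
    have e3 : M / c = q := by rw [hc, Nat.mul_div_cancel q hc0]
    have e4 : a * (M / q) / c = a := by rw [e1, Nat.mul_div_cancel a hc0]
    rw [e3, e4]
  · intro b hb
    simp only [mem_range] at hb
    have hg : 0 < b.gcd M := Nat.gcd_pos_of_pos_right b (by omega)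
    show b / b.gcd M * (M / (M / b.gcd M)) = b
    rw [Nat.div_div_self (Nat.gcd_dvd_right b M) (by omega),
      Nat.div_mul_cancel (Nat.gcd_dvd_left b M)]
  · rintro ⟨q, a⟩ hx
    simp only [cop, mem_sigma, mem_filter, mem_range, Nat.mem_divisors] at hx
    obtain ⟨⟨⟨c, hc⟩, h0⟩, h1, h2⟩ := hx
    have hq : 0 < q := by omega
    have hc0 : 0 < c := Nat.pos_of_ne_zero (fun h => by rw [h, mul_zero] at hc; omega)
    have e1 : M / q = c := by rw [hc, Nat.mul_div_cancel_left c hq]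
    show f ((a : ℝ) / q) = f (((a * (M / q) : ℕ) : ℝ) / M)
    rw [e1]
    congr 1
    have hq' : (q : ℝ) ≠ 0 := by positivity
    have hc' : (c : ℝ) ≠ 0 := by positivity
    have hM' : (M : ℝ) = q * c := by exact_mod_cast hc
    rw [hM']
    push_cast
    field_simp

/-- Orthogonality of the characters modulo `M`. -/
lemma sum_range (M : ℕ) (hM : 1 ≤ M) (k : ℤ) :
    ∑ b ∈ range M, e ((k : ℝ) * ((b : ℝ) / M)) = if (M : ℤ) ∣ k then (M : ℂ) else 0 := by
  have hM' : (M : ℝ) ≠ 0 := by positivity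
  have h1 : ∀ b ∈ range M, e ((k : ℝ) * ((b : ℝ) / M)) = e ((k : ℝ) / M) ^ b := by
    intro b _
    rw [← e_nat']
    congr 1
    ring
  rw [Finset.sum_congr rfl h1]
  split_ifs with h
  · obtain ⟨j, hj⟩ := h
    have h2 : e ((k : ℝ) / M) = 1 := by
      have h3 : (k : ℝ) / M = (j : ℝ) := by
        rw [hj]
        push_cast
        field_simp
      rw [h3]
      exact e_int' j
    rw [h2]
    simp
  · have h2 : e ((k : ℝ) / M) ≠ 1 := by
      intro h3
      obtain ⟨j, hj⟩ := e_eq_one' _ h3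
      apply h
      refine ⟨j, ?_⟩
      have h4 : (k : ℝ) = M * j := by
        rw [← hj]
        field_simp
      exact_mod_cast h4
    rw [geom_sum_eq h2]
    have h3 : e ((k : ℝ) / M) ^ M = 1 := by
      rw [← e_nat']
      have h4 : (M : ℝ) * ((k : ℝ) / M) = (k : ℝ) := by field_simp
      rw [h4]
      exact e_int' k
    rw [h3, sub_self, zero_div]

end E4

theorem t_E4 : S_E4 := by
  intro M₁ H α n hM hH
  unfold PQ EC ft
  have h1 : ∑ q ∈ M₁.divisors, ∑ a ∈ cop q,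
      (∑ m ∈ Ico (n / H * H) (n / H * H + H), ((α m : ℝ) : ℂ) *
        e (-((m : ℝ) * ((a : ℝ) / q)))) * e ((n : ℝ) * ((a : ℝ) / q)) =
      ∑ m ∈ Ico (n / H * H) (n / H * H + H), (α m : ℂ) *
        (if ((M₁ : ℤ) ∣ (n : ℤ) - m) then (M₁ : ℂ) else 0) := by
    have h2 : ∀ q ∈ M₁.divisors, ∀ a ∈ cop q,
        (∑ m ∈ Ico (n / H * H) (n / H * H + H), ((α m : ℝ) : ℂ) *
          e (-((m : ℝ) * ((a : ℝ) / q)))) * e ((n : ℝ) * ((a : ℝ) / q)) =
        ∑ m ∈ Ico (n / H * H) (n / H * H + H), (α m : ℂ) *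
          e ((((n : ℤ) - m : ℤ) : ℝ) * ((a : ℝ) / q)) := by
      intro q _ a _
      rw [Finset.sum_mul]
      refine Finset.sum_congr rfl fun m _ => ?_
      rw [mul_assoc, ← E4.e_add']
      congr 2
      push_cast
      ring
    rw [Finset.sum_congr rfl fun q hq => Finset.sum_congr rfl fun a ha => h2 q hq a ha]
    rw [E4.sum_cop (fun θ => ∑ m ∈ Ico (n / H * H) (n / H * H + H), (α m : ℂ) *
          e ((((n : ℤ) - m : ℤ) : ℝ) * θ)) M₁ hM, Finset.sum_comm]
    refine Finset.sum_congr rfl fun m _ => ?_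
    rw [← Finset.mul_sum, E4.sum_range M₁ hM]
  rw [h1]
  have h3 : ∀ m ∈ Ico (n / H * H) (n / H * H + H), (α m : ℂ) *
      (if ((M₁ : ℤ) ∣ (n : ℤ) - m) then (M₁ : ℂ) else 0) =
      if m ≡ n [MOD M₁] then (M₁ : ℂ) * α m else 0 := by
    intro m _
    have h4 : ((M₁ : ℤ) ∣ (n : ℤ) - m) ↔ m ≡ n [MOD M₁] := (Nat.modEq_iff_dvd).symm
    by_cases h5 : m ≡ n [MOD M₁]
    · rw [if_pos (h4.2 h5), if_pos h5, mul_comm]
    · rw [if_neg (fun h => h5 (h4.1 h)), if_neg h5, mul_zero]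
  rw [Finset.sum_congr rfl h3, ← Finset.sum_filter, ← Finset.mul_sum]
  push_cast
  ring

end

end MUR
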