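import Pool.Agent.MUR.StC

set_option autoImplicit false

namespace MUR

open Finset
open Pool.Agent.Lib_helper83.EF (e)

noncomputable section

namespace EFT

lemma reparam (f : ℝ → ℝ) (Δ : ℕ) (hΔ : 1 ≤ Δ) :
    ∑ k ∈ range Δ, f ((k : ℝ) / Δ) = ∑ q ∈ Δ.divisors, ∑ a ∈ cop q, f ((a : ℝ) / q) := by
  rw [Finset.sum_sigma']
  have hg : ∀ k : ℕ, 0 < Nat.gcd k Δ := fun k => Nat.gcd_pos_of_pos_right _ hΔ
  refine Finset.sum_bij' (i := fun k _ => (⟨Δ / Nat.gcd k Δ, k / Nat.gcd k Δ⟩ : (_ : ℕ) × ℕ))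
    (j := fun p _ => p.2 * (Δ / p.1)) ?_ ?_ ?_ ?_ ?_
  · intro k hk
    rw [mem_range] at hk
    rw [mem_sigma]
    refine ⟨?_, ?_⟩
    · exact Nat.mem_divisors.2 ⟨Nat.div_dvd_of_dvd (Nat.gcd_dvd_right _ _), by omega⟩
    · unfold cop
      rw [mem_filter, mem_range]
      refine ⟨?_, Nat.coprime_div_gcd_div_gcd (hg k)⟩
      exact Nat.div_lt_div_of_lt_of_dvd (Nat.gcd_dvd_right _ _) hk
  · rintro ⟨q, a⟩ hp
    rw [mem_sigma] at hp
    obtain ⟨h1, h2⟩ := hp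
    unfold cop at h2
    rw [mem_filter, mem_range] at h2
    dsimp only at h1 h2 ⊢
    rw [mem_range]
    have hd := (Nat.mem_divisors.1 h1).1
    have hpos : 0 < Δ / q := Nat.div_pos (Nat.le_of_dvd hΔ hd) (Nat.pos_of_dvd_of_pos hd hΔ)
    calc a * (Δ / q) < q * (Δ / q) := Nat.mul_lt_mul_of_pos_right h2.1 hpos
      _ = Δ := Nat.mul_div_cancel' hd
  · intro k hk
    dsimp only
    rw [Nat.div_div_self (Nat.gcd_dvd_right _ _) (by omega)]
    exact Nat.div_mul_cancel (Nat.gcd_dvd_left _ _)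
  · rintro ⟨q, a⟩ hp
    rw [mem_sigma] at hp
    obtain ⟨h1, h2⟩ := hp
    unfold cop at h2
    rw [mem_filter, mem_range] at h2
    dsimp only at h1 h2 ⊢
    have hd := (Nat.mem_divisors.1 h1).1
    have hpos : 0 < Δ / q := Nat.div_pos (Nat.le_of_dvd hΔ hd) (Nat.pos_of_dvd_of_pos hd hΔ)
    have hgcd : Nat.gcd (a * (Δ / q)) Δ = Δ / q := by
      conv_lhs => rw [← Nat.mul_div_cancel' hd]
      rw [Nat.mul_div_cancel' hd]
      have : Nat.gcd (a * (Δ / q)) (q * (Δ / q)) = Δ / q := by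
        rw [Nat.gcd_mul_right, h2.2, one_mul]
      rwa [Nat.mul_div_cancel' hd] at this
    rw [hgcd, Nat.div_div_self hd (by omega), Nat.mul_div_cancel _ hpos]
  · intro k hk
    dsimp only
    congr 1
    rw [Nat.cast_div (Nat.gcd_dvd_right _ _) (by exact_mod_cast (hg k).ne'),
      Nat.cast_div (Nat.gcd_dvd_left _ _) (by exact_mod_cast (hg k).ne')]
    have h1 : ((Nat.gcd k Δ : ℕ) : ℝ) ≠ 0 := by exact_mod_cast (hg k).ne'
    have h2 : (Δ : ℝ) ≠ 0 := by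
      have : Δ ≠ 0 := by omega
      exact_mod_cast this
    field_simp

lemma e_add (x y : ℝ) : e (x + y) = e x * e y := by
  unfold e
  rw [← Complex.exp_add]
  congr 1
  push_cast
  ring

lemma e_int (n : ℤ) : e (n : ℝ) = 1 := by
  unfold e
  rw [Complex.exp_eq_one_iff]
  exact ⟨n, by push_cast; ring⟩

lemma e_conj (x : ℝ) : (starRingEnd ℂ) (e x) = e (-x) := by
  unfold e
  rw [← Complex.exp_conj]
  congr 1
  simp only [map_mul, Complex.conj_ofReal, Complex.conj_I, map_ofNat]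
  push_cast
  ring

lemma e_zero : e 0 = 1 := by
  have := e_int 0
  simpa using this

lemma e_nat_mul (k : ℕ) (x : ℝ) : e ((k : ℝ) * x) = e x ^ k := by
  unfold e
  rw [← Complex.exp_nat_mul]
  congr 1
  push_cast
  ring

lemma e_eq_one_iff (x : ℝ) : e x = 1 ↔ ∃ n : ℤ, x = n := by
  unfold e
  rw [Complex.exp_eq_one_iff]
  constructor
  · rintro ⟨n, hn⟩
    refine ⟨n, ?_⟩
    have h1 : (2 * (Real.pi : ℂ) * Complex.I) ≠ 0 := by
      simp [Real.pi_ne_zero, Complex.I_ne_zero]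
    have h2 : (2 * (Real.pi : ℂ) * Complex.I) * (x : ℂ) = (2 * (Real.pi : ℂ) * Complex.I) * (n : ℂ) := by
      calc (2 * (Real.pi : ℂ) * Complex.I) * (x : ℂ) = 2 * (Real.pi : ℂ) * x * Complex.I := by ring
        _ = n * (2 * Real.pi * Complex.I) := hn
        _ = _ := by ring
    have h3 := mul_left_cancel₀ h1 h2
    exact_mod_cast h3
  · rintro ⟨n, hn⟩
    refine ⟨n, ?_⟩
    rw [hn]
    push_cast
    ring

/-- orthogonality -/
lemma orth (Δ : ℕ) (hΔ : 1 ≤ Δ) (n m : ℕ) :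
    ∑ k ∈ range Δ, e (-((n : ℝ) * ((k : ℝ) / Δ))) * (starRingEnd ℂ) (e (-((m : ℝ) * ((k : ℝ) / Δ)))) =
      if n % Δ = m % Δ then (Δ : ℂ) else 0 := by
  have hD : (Δ : ℝ) ≠ 0 := by
    have : Δ ≠ 0 := by omega
    exact_mod_cast this
  have h1 : ∀ k ∈ range Δ, e (-((n : ℝ) * ((k : ℝ) / Δ))) * (starRingEnd ℂ) (e (-((m : ℝ) * ((k : ℝ) / Δ)))) =
      e (((m : ℝ) - n) / Δ) ^ k := by
    intro k _
    rw [e_conj, ← e_add, ← e_nat_mul]
    congr 1
    field_simp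
    ring
  rw [Finset.sum_congr rfl h1]
  split_ifs with h
  · have h2 : e (((m : ℝ) - n) / Δ) = 1 := by
      rw [e_eq_one_iff]
      have h3 : (Δ : ℤ) ∣ (m : ℤ) - n := by
        have : n ≡ m [MOD Δ] := h
        exact this.dvd
      obtain ⟨c, hc⟩ := h3
      refine ⟨c, ?_⟩
      rw [div_eq_iff hD]
      have : ((m : ℤ) : ℝ) - ((n : ℤ) : ℝ) = ((Δ : ℤ) : ℝ) * (c : ℝ) := by exact_mod_cast hc
      push_cast at this
      rw [this]
      ring
    rw [h2]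
    simp
  · have h2 : e (((m : ℝ) - n) / Δ) ≠ 1 := by
      intro h3
      rw [e_eq_one_iff] at h3
      obtain ⟨c, hc⟩ := h3
      rw [div_eq_iff hD] at hc
      have h4 : (m : ℤ) - n = Δ * c := by
        have : ((m : ℤ) : ℝ) - ((n : ℤ) : ℝ) = ((Δ : ℤ) : ℝ) * (c : ℝ) := by
          push_cast
          rw [hc]
          ring
        exact_mod_cast this
      apply h
      have h5 : n ≡ m [MOD Δ] := (Nat.modEq_iff_dvd).2 ⟨c, h4⟩
      exact h5
    have h3 : e (((m : ℝ) - n) / Δ) ^ Δ = 1 := by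
      rw [← e_nat_mul, mul_div_cancel₀ _ hD]
      have := e_int ((m : ℤ) - n)
      push_cast at this
      exact this
    have h4 := geom_sum_mul (e (((m : ℝ) - n) / Δ)) Δ
    rw [h3, sub_self] at h4
    rcases mul_eq_zero.1 h4 with h5 | h5
    · exact h5
    · exact absurd (sub_eq_zero.1 h5) h2

lemma sqC (z : ℂ) : ((‖z‖ ^ 2 : ℝ) : ℂ) = z * (starRingEnd ℂ) z := by
  rw [Complex.mul_conj, Complex.normSq_eq_norm_sq]

lemma pars (B : Finset ℕ) (φ : ℕ → ℂ) (Δ : ℕ) (hΔ : 1 ≤ Δ) :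
    ∑ k ∈ range Δ, ‖∑ n ∈ B, φ n * e (-((n : ℝ) * ((k : ℝ) / Δ)))‖ ^ 2 =
      (Δ : ℝ) * ∑ r ∈ range Δ, ‖∑ n ∈ B.filter (fun n => n % Δ = r), φ n‖ ^ 2 := by
  have hc : ((∑ k ∈ range Δ, ‖∑ n ∈ B, φ n * e (-((n : ℝ) * ((k : ℝ) / Δ)))‖ ^ 2 : ℝ) : ℂ) =
      (((Δ : ℝ) * ∑ r ∈ range Δ, ‖∑ n ∈ B.filter (fun n => n % Δ = r), φ n‖ ^ 2 : ℝ) : ℂ) := by
    rw [Complex.ofReal_sum, Complex.ofReal_mul, Complex.ofReal_sum]
    simp_rw [sqC]
    have hL : ∑ k ∈ range Δ, (∑ n ∈ B, φ n * e (-((n : ℝ) * ((k : ℝ) / Δ)))) *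
        (starRingEnd ℂ) (∑ n ∈ B, φ n * e (-((n : ℝ) * ((k : ℝ) / Δ)))) =
        ∑ n ∈ B, ∑ m ∈ B, φ n * (starRingEnd ℂ) (φ m) * (if n % Δ = m % Δ then (Δ : ℂ) else 0) := by
      have : ∀ k ∈ range Δ, (∑ n ∈ B, φ n * e (-((n : ℝ) * ((k : ℝ) / Δ)))) *
          (starRingEnd ℂ) (∑ n ∈ B, φ n * e (-((n : ℝ) * ((k : ℝ) / Δ)))) =
          ∑ n ∈ B, ∑ m ∈ B, φ n * (starRingEnd ℂ) (φ m) *
            (e (-((n : ℝ) * ((k : ℝ) / Δ))) * (starRingEnd ℂ) (e (-((m : ℝ) * ((k : ℝ) / Δ))))) := by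
        intro k _
        rw [map_sum, Finset.sum_mul_sum]
        refine Finset.sum_congr rfl fun n _ => Finset.sum_congr rfl fun m _ => ?_
        rw [map_mul]
        ring
      rw [Finset.sum_congr rfl this, Finset.sum_comm]
      refine Finset.sum_congr rfl fun n _ => ?_
      rw [Finset.sum_comm]
      refine Finset.sum_congr rfl fun m _ => ?_
      rw [← Finset.mul_sum, orth Δ hΔ]
    rw [hL, Finset.mul_sum]
    have hR : ∀ r ∈ range Δ, ((Δ : ℝ) : ℂ) * ((∑ n ∈ B.filter (fun n => n % Δ = r), φ n) *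
        (starRingEnd ℂ) (∑ n ∈ B.filter (fun n => n % Δ = r), φ n)) =
        ∑ n ∈ B, if n % Δ = r then ∑ m ∈ B, φ n * (starRingEnd ℂ) (φ m) *
          (if n % Δ = m % Δ then (Δ : ℂ) else 0) else 0 := by
      intro r _
      rw [map_sum, Finset.sum_mul_sum, Finset.mul_sum, Finset.sum_filter]
      refine Finset.sum_congr rfl fun n _ => ?_
      by_cases hn : n % Δ = r
      · rw [if_pos hn, if_pos hn, Finset.mul_sum, Finset.sum_filter]
        refine Finset.sum_congr rfl fun m _ => ?_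
        rw [hn]
        by_cases hm : m % Δ = r
        · rw [if_pos hm, if_pos hm.symm]
          push_cast
          ring
        · rw [if_neg hm, if_neg (fun h => hm h.symm), mul_zero]
      · rw [if_neg hn, if_neg hn]
    rw [Finset.sum_congr rfl hR]
    conv_rhs => rw [Finset.sum_comm]
    refine Finset.sum_congr rfl fun n _ => ?_
    rw [Finset.sum_ite_eq (range Δ) (n % Δ)]
    rw [if_pos (mem_range.2 (Nat.mod_lt _ hΔ))]
  exact_mod_cast hc

end EFT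

theorem t_EFT : S_EFT := by
  intro φ H Δ i hΔ
  rw [← EFT.reparam (fun θ => ‖ft φ H i θ‖ ^ 2) Δ hΔ]
  unfold En ft
  rw [EFT.pars (Ico (i * H) (i * H + H)) φ Δ hΔ]

end

end MUR
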