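import Mathlib
import Pool.Agent.MUR.StC

set_option autoImplicit false

/-!
# Project MUR, the energy argument
-/

namespace MUR

open Finset
open Pool.Agent.Lib_helper83.EF (e)

noncomputable section

namespace EN

/-- the atom of `n`: the elements of the block of `n` in the class of `n` -/
def At (M H n : ℕ) : Finset ℕ := (Ico (n / H * H) (n / H * H + H)).filter (fun n' => n' ≡ n [MOD M])

theorem EC_eq (M H : ℕ) (α : ℕ → ℝ) (n : ℕ) :
    EC M H α n = ((M : ℝ) / H) * ∑ n' ∈ At M H n, α n' := rfl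

theorem mem_At {M H n n' : ℕ} (hH : 1 ≤ H) :
    n' ∈ At M H n ↔ n' / H = n / H ∧ n' ≡ n [MOD M] := by
  unfold At
  rw [mem_filter, mem_Ico]
  have h : n / H * H ≤ n' ∧ n' < n / H * H + H ↔ n' / H = n / H := by
    constructor
    · rintro ⟨h1, h2⟩
      apply Nat.div_eq_of_lt_le h1
      rw [Nat.add_mul, one_mul]
      exact h2
    · intro h1
      rw [← h1]
      refine ⟨Nat.div_mul_le_self n' H, ?_⟩
      have := Nat.lt_div_mul_add (a := n') (b := H) (by omega)
      exact this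
  rw [h]

theorem card_At {M L n : ℕ} (hM : 1 ≤ M) (hL : 1 ≤ L) : (At M (M * L) n).card = L := by
  have hH : 1 ≤ M * L := Nat.mul_pos hM hL
  have himg : At M (M * L) n = (range L).image (fun j => M * (n / (M * L) * L + j) + n % M) := by
    ext n'
    rw [mem_image]
    unfold At
    rw [mem_filter, mem_Ico]
    have e1 : n / (M * L) * (M * L) = M * (n / (M * L) * L) := by ring
    rw [e1]
    have hm : n % M < M := Nat.mod_lt _ hM
    constructor
    · rintro ⟨⟨h1, h2⟩, h3⟩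
      have h4 : n' % M = n % M := h3
      have h5 := Nat.div_add_mod n' M
      rw [h4] at h5
      have h6 : n / (M * L) * L ≤ n' / M := by
        rw [Nat.le_div_iff_mul_le hM, mul_comm]
        exact h1
      refine ⟨n' / M - n / (M * L) * L, ?_, ?_⟩
      · rw [mem_range]
        have h7 : n' / M < n / (M * L) * L + L := by
          rw [Nat.div_lt_iff_lt_mul hM]
          calc n' < M * (n / (M * L) * L) + M * L := h2
            _ = (n / (M * L) * L + L) * M := by ring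
        omega
      · have h8 : n / (M * L) * L + (n' / M - n / (M * L) * L) = n' / M := by omega
        simp only [h8]
        exact h5
    · rintro ⟨j, hj, rfl⟩
      rw [mem_range] at hj
      have h9 : M * (n / (M * L) * L + j) = M * (n / (M * L) * L) + M * j := by ring
      have h10 : M * j + M ≤ M * L := by
        rw [← Nat.mul_succ]
        exact Nat.mul_le_mul_left _ hj
      refine ⟨⟨by omega, by omega⟩, ?_⟩
      show (M * (n / (M * L) * L + j) + n % M) % M = n % M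
      rw [Nat.mul_add_mod, Nat.mod_mod]
  rw [himg, card_image_of_injective, card_range]
  intro i j hij
  simp only at hij
  have h1 : M * (n / (M * L) * L + i) = M * (n / (M * L) * L + j) := by omega
  have h2 := Nat.eq_of_mul_eq_mul_left hM h1
  omega

/-- averages against functions which are constant on the atoms -/
theorem key {M L B : ℕ} (hM : 1 ≤ M) (hL : 1 ≤ L) (hB : M * L ∣ B) (f g : ℕ → ℝ)
    (hg : ∀ n, ∀ n' ∈ At M (M * L) n, g n' = g n) :
    ∑ n ∈ range B, EC M (M * L) f n * g n = ∑ n ∈ range B, f n * g n := by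
  have hH : 1 ≤ M * L := Nat.mul_pos hM hL
  obtain ⟨c, rfl⟩ := hB
  have h1 : ∀ n ∈ range (M * L * c), EC M (M * L) f n * g n =
      ∑ n' ∈ At M (M * L) n, ((M : ℝ) / (M * L : ℕ)) * (f n' * g n') := by
    intro n _
    rw [EC_eq, mul_assoc, sum_mul, mul_sum]
    apply sum_congr rfl
    intro n' hn'
    rw [hg n n' hn']
  rw [sum_congr rfl h1]
  have h2 : ∀ n n' : ℕ, n ∈ range (M * L * c) ∧ n' ∈ At M (M * L) n ↔
      n ∈ At M (M * L) n' ∧ n' ∈ range (M * L * c) := by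
    intro n n'
    rw [mem_At hH, mem_At hH, mem_range, mem_range]
    have h3 : ∀ m : ℕ, m < M * L * c ↔ m / (M * L) < c := by
      intro m
      rw [Nat.div_lt_iff_lt_mul hH, mul_comm c]
    rw [h3, h3]
    constructor
    · rintro ⟨h4, h5, h6⟩
      exact ⟨⟨h5.symm, h6.symm⟩, by rw [h5]; exact h4⟩
    · rintro ⟨⟨h4, h5⟩, h6⟩
      exact ⟨by rw [h4]; exact h6, h4.symm, h5.symm⟩
  rw [sum_comm' h2]
  apply sum_congr rfl
  intro n' _
  rw [sum_const, card_At hM hL, nsmul_eq_mul]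
  push_cast
  have h3 : (M : ℝ) ≠ 0 := by
    have : M ≠ 0 := by omega
    exact_mod_cast this
  have h4 : (L : ℝ) ≠ 0 := by
    have : L ≠ 0 := by omega
    exact_mod_cast this
  field_simp

theorem EC_const {M H n n' : ℕ} (hH : 1 ≤ H) (α : ℕ → ℝ) (h : n' / H = n / H)
    (h' : n' ≡ n [MOD M]) : EC M H α n' = EC M H α n := by
  rw [EC_eq, EC_eq]
  have h1 : At M H n' = At M H n := by
    ext x
    rw [mem_At hH, mem_At hH, h]
    constructor
    · rintro ⟨h2, h3⟩
      exact ⟨h2, h3.trans h'⟩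
    · rintro ⟨h2, h3⟩
      exact ⟨h2, h3.trans h'.symm⟩
  rw [h1]

/-- the inner products of the conditional expectations -/
theorem inner {M B a b : ℕ} (hM : 1 ≤ M) (hab : a ≤ b) (hB : M * 2 ^ b ∣ B) (f α : ℕ → ℝ) :
    ∑ n ∈ range B, EC M (M * 2 ^ a) f n * EC M (M * 2 ^ b) α n =
      ∑ n ∈ range B, f n * EC M (M * 2 ^ b) α n := by
  have h2 : ∀ j : ℕ, 1 ≤ 2 ^ j := fun j => Nat.one_le_two_pow
  have hd : M * 2 ^ a ∣ M * 2 ^ b := Nat.mul_dvd_mul_left _ (pow_dvd_pow 2 hab)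
  apply key hM (h2 a) (hd.trans hB)
  intro n n' hn'
  rw [mem_At (Nat.mul_pos hM (h2 a))] at hn'
  obtain ⟨h3, h4⟩ := hn'
  apply EC_const (Nat.mul_pos hM (h2 b)) α _ h4
  obtain ⟨c, hc⟩ := hd
  rw [hc, ← Nat.div_div_eq_div_mul n' (M * 2 ^ a) c, ← Nat.div_div_eq_div_mul n (M * 2 ^ a) c, h3]

/-- the energy of the conditional expectation -/
def N (M B : ℕ) (α : ℕ → ℝ) (j : ℕ) : ℝ := ∑ n ∈ range B, EC M (M * 2 ^ j) α n ^ 2

theorem N_nonneg (M B : ℕ) (α : ℕ → ℝ) (j : ℕ) : 0 ≤ N M B α j :=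
  sum_nonneg fun _ _ => sq_nonneg _

theorem diff {M B a b : ℕ} (hM : 1 ≤ M) (hab : a ≤ b) (hB : M * 2 ^ b ∣ B) (α : ℕ → ℝ) :
    ∑ n ∈ range B, (EC M (M * 2 ^ a) α n - EC M (M * 2 ^ b) α n) ^ 2 =
      N M B α a - N M B α b := by
  have h1 := inner hM hab hB α α
  have h2 := inner hM (le_refl b) hB α α
  have h3 : ∑ n ∈ range B, (EC M (M * 2 ^ a) α n - EC M (M * 2 ^ b) α n) ^ 2 =
      N M B α a - 2 * ∑ n ∈ range B, EC M (M * 2 ^ a) α n * EC M (M * 2 ^ b) α n +
        N M B α b := by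
    unfold N
    rw [mul_sum, ← sum_sub_distrib, ← sum_add_distrib]
    apply sum_congr rfl
    intro n _
    ring
  have h4 : N M B α b = ∑ n ∈ range B, EC M (M * 2 ^ b) α n * EC M (M * 2 ^ b) α n := by
    unfold N
    apply sum_congr rfl
    intro n _
    ring
  rw [h3, h1, ← h2, ← h4]
  ring

theorem N_anti {M B a b : ℕ} (hM : 1 ≤ M) (hab : a ≤ b) (hB : M * 2 ^ b ∣ B) (α : ℕ → ℝ) :
    N M B α b ≤ N M B α a := by
  have h1 := diff hM hab hB α
  have h2 : 0 ≤ ∑ n ∈ range B, (EC M (M * 2 ^ a) α n - EC M (M * 2 ^ b) α n) ^ 2 :=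
    sum_nonneg fun _ _ => sq_nonneg _
  linarith

theorem N_le {M B a : ℕ} (hM : 1 ≤ M) (hB : M * 2 ^ a ∣ B) (α : ℕ → ℝ) :
    N M B α a ≤ ∑ n ∈ range B, α n ^ 2 := by
  have h2 := inner hM (le_refl a) hB α α
  have h4 : N M B α a = ∑ n ∈ range B, EC M (M * 2 ^ a) α n * EC M (M * 2 ^ a) α n := by
    unfold N
    apply sum_congr rfl
    intro n _
    ring
  have h3 : ∑ n ∈ range B, (α n - EC M (M * 2 ^ a) α n) ^ 2 =
      ∑ n ∈ range B, α n ^ 2 - 2 * ∑ n ∈ range B, α n * EC M (M * 2 ^ a) α n + N M B α a := by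
    unfold N
    rw [mul_sum, ← sum_sub_distrib, ← sum_add_distrib]
    apply sum_congr rfl
    intro n _
    ring
  have h5 : 0 ≤ ∑ n ∈ range B, (α n - EC M (M * 2 ^ a) α n) ^ 2 :=
    sum_nonneg fun _ _ => sq_nonneg _
  rw [h3, ← h2, ← h4] at h5
  linarith

theorem main (M B : ℕ) (α : ℕ → ℝ) (a b : ℕ → ℕ) (hM : 1 ≤ M) (hab : ∀ k, a k ≤ b k)
    (hba : ∀ k, b k ≤ a (k + 1)) (K : ℕ) : M * 2 ^ (b K) ∣ B →
    ∑ k ∈ range (K + 1), ∑ n ∈ range B,
      (EC M (M * 2 ^ (a k)) α n - EC M (M * 2 ^ (b k)) α n) ^ 2 + N M B α (b K) ≤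
    ∑ n ∈ range B, α n ^ 2 := by
  induction K with
  | zero =>
    intro hB
    rw [zero_add, sum_range_one, diff hM (hab 0) hB α]
    have hd : M * 2 ^ (a 0) ∣ B :=
      (Nat.mul_dvd_mul_left _ (pow_dvd_pow 2 (hab 0))).trans hB
    have := N_le hM hd α
    linarith
  | succ K ih =>
    intro hB
    have hd : M * 2 ^ (a (K + 1)) ∣ B :=
      (Nat.mul_dvd_mul_left _ (pow_dvd_pow 2 (hab (K + 1)))).trans hB
    have hd2 : M * 2 ^ (b K) ∣ B :=
      (Nat.mul_dvd_mul_left _ (pow_dvd_pow 2 (hba K))).trans hd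
    rw [sum_range_succ, diff hM (hab (K + 1)) hB α]
    have h1 := ih hd2
    have h2 := N_anti hM (hba K) hd α
    linarith

end EN

theorem t_EN : S_EN := by
  intro M₁ K B α a b hM hab hba hB
  have h1 := EN.main M₁ B α a b hM hab hba K hB
  have h2 := EN.N_nonneg M₁ B α (b K)
  linarith

end

end MUR
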