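import Mathlib
import Pool.Agent.MUR.StE

set_option autoImplicit false

/-!
# Project MUR: ER2, the error of the expansion for `D`
-/

namespace MUR

open Finset IPR

noncomputable section

namespace ER2

/-! ### counting tuples -/

/-- the number of maps with values in `P` which take all values in `A` -/
theorem count {ι : Type} [Fintype ι] [DecidableEq ι] (P A : Finset ℕ) :
    ((Fintype.piFinset fun _ : ι => P).filter (fun f => ∀ a ∈ A, ∃ i, f i = a)).card *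
        P.card ^ A.card ≤ (Fintype.card ι) ^ A.card * P.card ^ Fintype.card ι := by
  classical
  set S := (Fintype.piFinset fun _ : ι => P).filter (fun f => ∀ a ∈ A, ∃ i, f i = a) with hS
  set I := (univ : Finset (A → ι)).filter (fun φ => Function.Injective φ) with hI
  set V : (A → ι) → Finset (ι → ℕ) := fun φ =>
    Fintype.piFinset (fun i => if h : ∃ a, φ a = i then {((h.choose : A) : ℕ)} else P) with hV
  have hsub : S ⊆ I.biUnion V := by
    intro f hf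
    rw [hS, mem_filter, Fintype.mem_piFinset] at hf
    obtain ⟨hf1, hf2⟩ := hf
    have hch : ∀ a : A, ∃ i, f i = a := fun a => hf2 a a.2
    choose φ hφ using hch
    have hinj : Function.Injective φ := by
      intro a b hab
      apply Subtype.ext
      rw [← hφ a, ← hφ b, hab]
    rw [mem_biUnion]
    refine ⟨φ, by rw [hI, mem_filter]; exact ⟨mem_univ _, hinj⟩, ?_⟩
    rw [hV, Fintype.mem_piFinset]
    intro i
    by_cases h : ∃ a, φ a = i
    · rw [dif_pos h, mem_singleton]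
      have := hφ h.choose
      rw [h.choose_spec] at this
      exact this
    · rw [dif_neg h]
      exact hf1 i
  have hcard : ∀ φ ∈ I, (V φ).card * P.card ^ A.card = P.card ^ Fintype.card ι := by
    intro φ hφ
    rw [hI, mem_filter] at hφ
    rw [hV, Fintype.card_piFinset]
    have h1 : P.card ^ A.card = ∏ i : ι, (if ∃ a, φ a = i then P.card else 1) := by
      rw [Finset.prod_ite, prod_const, prod_const, one_pow, mul_one]
      congr 1
      have : (univ.filter fun i => ∃ a, φ a = i) = univ.image φ := by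
        ext i
        simp
      rw [this, card_image_of_injective _ hφ.2, card_univ, Fintype.card_coe]
    rw [h1, ← prod_mul_distrib]
    have h2 : ∀ i : ι, (if h : ∃ a, φ a = i then {((h.choose : A) : ℕ)} else P).card *
        (if ∃ a, φ a = i then P.card else 1) = P.card := by
      intro i
      by_cases h : ∃ a, φ a = i
      · rw [dif_pos h, if_pos h, card_singleton, one_mul]
      · rw [dif_neg h, if_neg h, mul_one]
    rw [prod_congr rfl (fun i _ => h2 i), prod_const, card_univ]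
  calc S.card * P.card ^ A.card ≤ (∑ φ ∈ I, (V φ).card) * P.card ^ A.card :=
        Nat.mul_le_mul_right _ ((card_le_card hsub).trans card_biUnion_le)
    _ = ∑ φ ∈ I, P.card ^ Fintype.card ι := by
        rw [sum_mul]
        exact sum_congr rfl hcard
    _ = I.card * P.card ^ Fintype.card ι := by rw [sum_const, smul_eq_mul]
    _ ≤ _ := by
        refine Nat.mul_le_mul_right _ ?_
        refine (card_le_univ I).trans ?_
        rw [Fintype.card_fun, Fintype.card_coe]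

/-- all entries of a tuple -/
def en {J : ℕ} (t : Fin J → ℕ × ℕ) : Fin J ⊕ Fin J → ℕ :=
  Sum.elim (fun j => (t j).1) (fun j => (t j).2)

theorem DD_eq {J : ℕ} (t : Fin J → ℕ × ℕ) : DD t = ∏ i, en t i := by
  simp [DD, yy, zz, en, Fintype.prod_sum_type]

theorem en_inj {J : ℕ} : Function.Injective (en : (Fin J → ℕ × ℕ) → _) := by
  intro t t' h
  funext j
  have h1 := congrFun h (Sum.inl j)
  have h2 := congrFun h (Sum.inr j)
  simp only [en, Sum.elim_inl, Sum.elim_inr] at h1 h2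
  exact Prod.ext h1 h2

theorem en_mem {J : ℕ} {P : Finset ℕ} {t : Fin J → ℕ × ℕ} (h : t ∈ TT P J) (i : Fin J ⊕ Fin J) :
    en t i ∈ P := by
  rw [TT, mem_filter, Fintype.mem_piFinset] at h
  rcases i with j | j
  · exact (mem_product.1 (h.1 j)).1
  · exact (mem_product.1 (h.1 j)).2

theorem en_injective {J : ℕ} {P : Finset ℕ} {t : Fin J → ℕ × ℕ} (h : t ∈ TT P J) :
    Function.Injective (en t) := by
  rw [TT, mem_filter] at h
  exact h.2

theorem DD_img {J : ℕ} {P : Finset ℕ} {t : Fin J → ℕ × ℕ} (h : t ∈ TT P J) :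
    DD t = ∏ p ∈ univ.image (en t), p := by
  rw [DD_eq, prod_image (fun a _ b _ hab => en_injective h hab)]

theorem DD_pf {J : ℕ} {P : Finset ℕ} (hP : ∀ p ∈ P, p.Prime) {t : Fin J → ℕ × ℕ}
    (h : t ∈ TT P J) : (DD t).primeFactors = univ.image (en t) := by
  rw [DD_img h]
  refine Nat.primeFactors_prod ?_
  intro p hp
  rw [mem_image] at hp
  obtain ⟨i, _, rfl⟩ := hp
  exact hP _ (en_mem h i)

theorem DD_card {J : ℕ} {P : Finset ℕ} (hP : ∀ p ∈ P, p.Prime) {t : Fin J → ℕ × ℕ}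
    (h : t ∈ TT P J) : (DD t).primeFactors.card = 2 * J := by
  rw [DD_pf hP h, card_image_of_injective _ (en_injective h)]
  simp [two_mul]

theorem DD_sqf {J : ℕ} {P : Finset ℕ} (hP : ∀ p ∈ P, p.Prime) {t : Fin J → ℕ × ℕ}
    (h : t ∈ TT P J) : Squarefree (DD t) := by
  rw [DD_img h]
  refine Finset.squarefree_prod_of_pairwise_isCoprime ?_ ?_
  · intro a ha b hb hab
    rw [Function.onFun, ← Nat.coprime_iff_isRelPrime]
    rw [coe_image, Set.mem_image] at ha hb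
    obtain ⟨i, _, rfl⟩ := ha
    obtain ⟨j, _, rfl⟩ := hb
    exact (Nat.coprime_primes (hP _ (en_mem h i)) (hP _ (en_mem h j))).2 hab
  · intro p hp
    rw [mem_image] at hp
    obtain ⟨i, _, rfl⟩ := hp
    exact (hP _ (en_mem h i)).squarefree

open Classical in
theorem countT {J : ℕ} {P : Finset ℕ} (hP : ∀ p ∈ P, p.Prime) {u : ℕ} :
    ((TT P J).filter (fun t => u ∣ DD t)).card * P.card ^ u.primeFactors.card ≤
      (2 * J) ^ u.primeFactors.card * P.card ^ (2 * J) := by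
  have h := count (ι := Fin J ⊕ Fin J) P u.primeFactors
  have hc : Fintype.card (Fin J ⊕ Fin J) = 2 * J := by simp [two_mul]
  rw [hc] at h
  refine le_trans (Nat.mul_le_mul_right _ ?_) h
  rw [← card_image_of_injective _ (en_inj (J := J))]
  refine card_le_card ?_
  intro f hf
  rw [mem_image] at hf
  obtain ⟨t, ht, rfl⟩ := hf
  rw [mem_filter] at ht
  rw [mem_filter, Fintype.mem_piFinset]
  refine ⟨fun i => en_mem ht.1 i, fun p hp => ?_⟩
  have h0 : DD t ≠ 0 := (DD_sqf hP ht.1).ne_zero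
  have h1 : p ∈ (DD t).primeFactors := Nat.primeFactors_mono ht.2 h0 hp
  rw [DD_pf hP ht.1, mem_image] at h1
  obtain ⟨i, _, hi⟩ := h1
  exact ⟨i, hi⟩

/-! ### sizes -/

theorem tot_ge {v Q : ℕ} (hv : v ≠ 0) (h : ∀ p ∈ v.primeFactors, Q < p) :
    Q ^ v.primeFactors.card ≤ v.totient := by
  rw [Nat.totient_eq_div_primeFactors_mul]
  have h1 : 1 ≤ v / ∏ p ∈ v.primeFactors, p :=
    (Nat.one_le_div_iff (prod_pos fun p hp => (Nat.prime_of_mem_primeFactors hp).pos)).2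
      (Nat.le_of_dvd (Nat.pos_of_ne_zero hv) (Nat.prod_primeFactors_dvd v))
  have h2 : Q ^ v.primeFactors.card ≤ ∏ p ∈ v.primeFactors, (p - 1) :=
    pow_card_le_prod _ _ _ (fun p hp => Nat.le_sub_one_of_lt (h p hp))
  calc Q ^ v.primeFactors.card = 1 * Q ^ v.primeFactors.card := (one_mul _).symm
    _ ≤ _ := Nat.mul_le_mul h1 h2

open Classical in
/-- the divisors with `k` prime factors -/
def UK (P : Finset ℕ) (J k : ℕ) : Finset ℕ :=
  ((TT P J).biUnion (fun t => (DD t).divisors)).filter (fun u => u.primeFactors.card = k)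

theorem mem_UK {P : Finset ℕ} {J k u : ℕ} :
    u ∈ UK P J k ↔ (∃ t ∈ TT P J, u ∣ DD t ∧ DD t ≠ 0) ∧ u.primeFactors.card = k := by
  classical
  simp [UK, Nat.mem_divisors]

theorem UK_prop {P : Finset ℕ} (hP : ∀ p ∈ P, p.Prime) {J k u : ℕ} (h : u ∈ UK P J k) :
    Squarefree u ∧ (∀ p ∈ u.primeFactors, p ∈ P) ∧ u.primeFactors.card = k ∧ k ≤ 2 * J := by
  rw [mem_UK] at h
  obtain ⟨⟨t, ht, hd, h0⟩, hk⟩ := h
  have hs := Nat.primeFactors_mono hd h0
  refine ⟨(DD_sqf hP ht).squarefree_of_dvd hd, fun p hp => ?_, hk, ?_⟩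
  · have := hs hp
    rw [DD_pf hP ht, mem_image] at this
    obtain ⟨i, _, rfl⟩ := this
    exact en_mem ht i
  · rw [← hk, ← DD_card hP ht]
    exact card_le_card hs

theorem inner_le {P : Finset ℕ} (hP : ∀ p ∈ P, p.Prime) {Q : ℕ} (hQ : ∀ p ∈ P, Q < p)
    (hQ0 : 0 < Q) {J : ℕ} {t : Fin J → ℕ × ℕ} (ht : t ∈ TT P J) (E : ℕ → ℝ) (hE : ∀ u, 0 ≤ E u) :
    ∑ u ∈ (DD t).divisors.erase 1, E u / ((DD t / u).totient : ℝ) ≤
      ∑ k ∈ Icc 1 (2 * J), ∑ u ∈ UK P J k,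
        (if u ∣ DD t then E u * ((Q : ℝ) ^ k / (Q : ℝ) ^ (2 * J)) else 0) := by
  classical
  have h0 : DD t ≠ 0 := (DD_sqf hP ht).ne_zero
  have hQr : (0 : ℝ) < Q := by exact_mod_cast hQ0
  have hterm : ∀ u ∈ (DD t).divisors.erase 1, E u / ((DD t / u).totient : ℝ) ≤
      E u * ((Q : ℝ) ^ u.primeFactors.card / (Q : ℝ) ^ (2 * J)) := by
    intro u hu
    rw [mem_erase, Nat.mem_divisors] at hu
    obtain ⟨hu1, hd, -⟩ := hu
    obtain ⟨v, hv⟩ := hd
    have hu0 : u ≠ 0 := by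
      rintro rfl
      rw [zero_mul] at hv
      exact h0 hv
    have hv0 : v ≠ 0 := by
      rintro rfl
      rw [mul_zero] at hv
      exact h0 hv
    have hdv : DD t / u = v := by
      rw [hv, Nat.mul_div_cancel_left _ (Nat.pos_of_ne_zero hu0)]
    have hcop : u.Coprime v := by
      have := DD_sqf hP ht
      rw [hv] at this
      exact Nat.coprime_of_squarefree_mul this
    have hcard : u.primeFactors.card + v.primeFactors.card = 2 * J := by
      rw [← DD_card hP ht, hv, hcop.primeFactors_mul, card_union_of_disjoint hcop.disjoint_primeFactors]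
    have hvQ : ∀ p ∈ v.primeFactors, Q < p := by
      intro p hp
      have : p ∈ (DD t).primeFactors :=
        Nat.primeFactors_mono (Dvd.intro_left u hv.symm) h0 hp
      rw [DD_pf hP ht, mem_image] at this
      obtain ⟨i, _, rfl⟩ := this
      exact hQ _ (en_mem ht i)
    have htot := tot_ge hv0 hvQ
    rw [hdv, div_eq_mul_inv]
    refine mul_le_mul_of_nonneg_left ?_ (hE u)
    have h1 : (Q : ℝ) ^ v.primeFactors.card ≤ (v.totient : ℝ) := by exact_mod_cast htot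
    have h2 : (0 : ℝ) < (Q : ℝ) ^ v.primeFactors.card := by positivity
    refine (inv_anti₀ h2 h1).trans ?_
    rw [← hcard, pow_add]
    have h3 : (0 : ℝ) < (Q : ℝ) ^ u.primeFactors.card := by positivity
    rw [div_mul_eq_div_div, div_self h3.ne', one_div]
  refine (sum_le_sum hterm).trans ?_
  have hmaps : ∀ u ∈ (DD t).divisors.erase 1, u.primeFactors.card ∈ Icc 1 (2 * J) := by
    intro u hu
    rw [mem_erase, Nat.mem_divisors] at hu
    obtain ⟨hu1, hd, -⟩ := hu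
    have hu0 : u ≠ 0 := by
      rintro rfl
      exact h0 (zero_dvd_iff.1 hd)
    rw [mem_Icc]
    constructor
    · rw [Nat.one_le_iff_ne_zero, Ne, card_eq_zero, Nat.primeFactors_eq_empty]
      omega
    · rw [← DD_card hP ht]
      exact card_le_card (Nat.primeFactors_mono hd h0)
  rw [← sum_fiberwise_of_maps_to hmaps]
  refine sum_le_sum fun k _ => ?_
  rw [← sum_filter]
  have hsub : (((DD t).divisors.erase 1).filter (fun u => u.primeFactors.card = k)) ⊆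
      (UK P J k).filter (fun u => u ∣ DD t) := by
    intro u hu
    rw [mem_filter, mem_erase, Nat.mem_divisors] at hu
    rw [mem_filter, mem_UK]
    exact ⟨⟨⟨t, ht, hu.1.2.1, h0⟩, hu.2⟩, hu.1.2.1⟩
  refine le_trans (le_of_eq ?_) (sum_le_sum_of_subset_of_nonneg hsub ?_)
  · refine sum_congr rfl fun u hu => ?_
    rw [mem_filter] at hu
    rw [hu.2]
  · intro u _ _
    have := hE u
    positivity

theorem total_le {P : Finset ℕ} (hP : ∀ p ∈ P, p.Prime) {Q : ℕ} (hQ : ∀ p ∈ P, Q < p)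
    (hQ0 : 0 < Q) (hc : 0 < P.card) {J : ℕ} (E : ℕ → ℝ) (hE : ∀ u, 0 ≤ E u) :
    ∑ t ∈ TT P J, ∑ u ∈ (DD t).divisors.erase 1, E u / ((DD t / u).totient : ℝ) ≤
      (P.card : ℝ) ^ (2 * J) / (Q : ℝ) ^ (2 * J) *
        ∑ k ∈ Icc 1 (2 * J), (2 * J * Q / P.card : ℝ) ^ k * ∑ u ∈ UK P J k, E u := by
  classical
  have hQr : (0 : ℝ) < Q := by exact_mod_cast hQ0
  have hcr : (0 : ℝ) < P.card := by exact_mod_cast hc
  refine (sum_le_sum fun t ht => inner_le hP hQ hQ0 ht E hE).trans ?_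
  rw [sum_comm, mul_sum]
  refine sum_le_sum fun k _ => ?_
  rw [sum_comm, mul_sum, mul_sum]
  refine sum_le_sum fun u hu => ?_
  rw [← sum_filter, sum_const, nsmul_eq_mul]
  have h1 := countT (J := J) hP (u := u)
  rw [(mem_UK.1 hu).2] at h1
  have h2 : (((TT P J).filter (fun t => u ∣ DD t)).card : ℝ) * (P.card : ℝ) ^ k ≤
      (2 * J) ^ k * (P.card : ℝ) ^ (2 * J) := by exact_mod_cast h1
  have h3 : (((TT P J).filter (fun t => u ∣ DD t)).card : ℝ) ≤
      (2 * J) ^ k * (P.card : ℝ) ^ (2 * J) / (P.card : ℝ) ^ k := by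
    rw [le_div_iff₀ (by positivity)]
    exact h2
  have hEu := hE u
  calc (((TT P J).filter (fun t => u ∣ DD t)).card : ℝ) * (E u * ((Q : ℝ) ^ k / (Q : ℝ) ^ (2 * J)))
      ≤ ((2 * J) ^ k * (P.card : ℝ) ^ (2 * J) / (P.card : ℝ) ^ k) *
        (E u * ((Q : ℝ) ^ k / (Q : ℝ) ^ (2 * J))) :=
        mul_le_mul_of_nonneg_right h3 (by positivity)
    _ = _ := by
        rw [div_pow, mul_pow]
        ring

/-! ### sizes of the divisors -/

theorem UK_lo {P : Finset ℕ} (hP : ∀ p ∈ P, p.Prime) {Q : ℕ} (hQ : ∀ p ∈ P, Q < p) {J k u : ℕ}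
    (h : u ∈ UK P J k) : Q ^ k ≤ u := by
  obtain ⟨h1, h2, h3, -⟩ := UK_prop hP h
  rw [← Nat.prod_primeFactors_of_squarefree h1, ← h3]
  exact pow_card_le_prod _ _ _ (fun p hp => (hQ p (h2 p hp)).le)

theorem UK_hi {P : Finset ℕ} (hP : ∀ p ∈ P, p.Prime) {Q J : ℕ} (hQ : ∀ p ∈ P, p ≤ Q + Q / J)
    (hJ : 1 ≤ J) {k u : ℕ} (h : u ∈ UK P J k) : u ≤ 8 * Q ^ k := by
  obtain ⟨h1, h2, h3, h4⟩ := UK_prop hP h
  have h5 : u ≤ (Q + Q / J) ^ k := by
    rw [← Nat.prod_primeFactors_of_squarefree h1, ← h3]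
    exact prod_le_pow_card _ _ _ (fun p hp => hQ p (h2 p hp))
  have hJr : (0 : ℝ) < J := by exact_mod_cast hJ
  have h6 : ((Q + Q / J : ℕ) : ℝ) ≤ Q * (1 + 1 / J) := by
    have : ((Q / J : ℕ) : ℝ) ≤ Q / J := Nat.cast_div_le
    push_cast
    rw [mul_add, mul_one, mul_one_div]
    linarith
  have h7 : (1 + 1 / (J : ℝ)) ^ k ≤ 8 := by
    have h8 : 1 + 1 / (J : ℝ) ≤ Real.exp (1 / J) := by
      rw [add_comm]
      exact Real.add_one_le_exp _
    have h9 : (1 : ℝ) ≤ 1 + 1 / (J : ℝ) := by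
      have : 0 < 1 / (J : ℝ) := by positivity
      linarith
    calc (1 + 1 / (J : ℝ)) ^ k ≤ (1 + 1 / (J : ℝ)) ^ (2 * J) := pow_le_pow_right₀ h9 h4
      _ ≤ Real.exp (1 / J) ^ (2 * J) := pow_le_pow_left₀ (by linarith) h8 _
      _ = Real.exp 1 ^ 2 := by
          rw [← Real.exp_nat_mul, ← Real.exp_nat_mul]
          congr 1
          push_cast
          field_simp
      _ ≤ 2.7182818286 ^ 2 := pow_le_pow_left₀ (Real.exp_pos 1).le Real.exp_one_lt_d9.le 2
      _ ≤ 8 := by norm_num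
  have h8 : (u : ℝ) ≤ 8 * (Q : ℝ) ^ k := by
    calc (u : ℝ) ≤ (((Q + Q / J) ^ k : ℕ) : ℝ) := by exact_mod_cast h5
      _ = ((Q + Q / J : ℕ) : ℝ) ^ k := by push_cast; ring
      _ ≤ (Q * (1 + 1 / (J : ℝ))) ^ k := pow_le_pow_left₀ (by positivity) h6 _
      _ = (Q : ℝ) ^ k * (1 + 1 / (J : ℝ)) ^ k := mul_pow _ _ _
      _ ≤ (Q : ℝ) ^ k * 8 := mul_le_mul_of_nonneg_left h7 (by positivity)
      _ = _ := mul_comm _ _
  exact_mod_cast h8

/-! ### the mean value theorem on the divisors with `k` prime factors -/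

theorem unitM {s : ℤ} (hs : s = 1 ∨ s = -1) (u : ℕ) : UnitM s u := by
  intro l hl h
  have : Fact l.Prime := ⟨Nat.prime_of_mem_primeFactors hl⟩
  rcases hs with rfl | rfl
  · simp at h
  · simp at h

/-- the statement of `BVG` for `ϖ = 1 / 10` -/
def BV (Y₀ : ℕ) : Prop := ∀ X Y f U : ℕ, Y₀ ≤ Y → X ≤ Y →
  1 ≤ f → 1 ≤ U → (U : ℝ) ≤ (Y : ℝ) ^ (1 / 2 - 1 / 10 : ℝ) →
  ∀ (P : Finset ℕ) (c : ℕ → ℕ) (r : ℕ → ℤ), Fam P U f c r →
  ∑ u ∈ P, |dsp f (c u) u (r u) X Y| ≤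
    ((Y : ℝ) - X) * Real.log Y ^ 5 / (f * Real.sqrt U) + (Y : ℝ) ^ (1 - (1 / 10) / 6 : ℝ)

open Classical in
theorem sum_bi {ι : Type} (S : Finset ι) (F : ι → Finset ℕ) (g : ℕ → ℝ) (hg : ∀ u, 0 ≤ g u) :
    ∑ u ∈ S.biUnion F, g u ≤ ∑ i ∈ S, ∑ u ∈ F i, g u := by
  induction S using Finset.induction_on with
  | empty => simp
  | insert i S hi ih =>
    rw [biUnion_insert, sum_insert hi]
    have h1 := sum_union_inter (s₁ := F i) (s₂ := S.biUnion F) (f := g)
    have h2 : 0 ≤ ∑ u ∈ F i ∩ S.biUnion F, g u := sum_nonneg fun u _ => hg u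
    linarith

theorem UK_dsp {Y₀ : ℕ} (hB : BV Y₀) {P : Finset ℕ} (hP : ∀ p ∈ P, p.Prime) {Q J : ℕ}
    (hlo : ∀ p ∈ P, Q < p) (hhi : ∀ p ∈ P, p ≤ Q + Q / J) (hJ : 1 ≤ J) (hQ : 2 ≤ Q) {f : ℕ}
    (hf1 : 1 ≤ f) (hf : ∀ p ∈ P, ¬ p ∣ f) {s : ℤ} (hs : s = 1 ∨ s = -1) {a b c k : ℕ}
    (hY : Y₀ ≤ b) (hab : a ≤ b) (hc : c.Coprime f) (hk : 1 ≤ k)
    (hU : 4 * (Q : ℝ) ^ k ≤ (b : ℝ) ^ (1 / 2 - 1 / 10 : ℝ)) (hb : 1 ≤ b) :
    ∑ u ∈ UK P J k, |dsp f c u s a b| ≤
      3 * ((b : ℝ) * Real.log b ^ 5 / (f * Real.sqrt ((Q : ℝ) ^ k)) +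
        (b : ℝ) ^ (1 - (1 / 10) / 6 : ℝ)) := by
  classical
  have hQk : 1 ≤ Q ^ k := Nat.one_le_pow _ _ (by omega)
  set F : ℕ → Finset ℕ := fun i => (UK P J k).filter
    (fun u => 2 ^ i * Q ^ k ≤ u ∧ u ≤ 2 * (2 ^ i * Q ^ k)) with hF
  have hcov : UK P J k ⊆ (range 3).biUnion F := by
    intro u hu
    have h1 := UK_lo hP hlo hu
    have h2 := UK_hi hP hhi hJ hu
    rw [mem_biUnion]
    by_cases h3 : u ≤ 2 * Q ^ k
    · refine ⟨0, by simp, ?_⟩
      rw [hF, mem_filter]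
      exact ⟨hu, by simpa using h1, by simpa using h3⟩
    · by_cases h4 : u ≤ 4 * Q ^ k
      · refine ⟨1, by simp, ?_⟩
        rw [hF, mem_filter]
        refine ⟨hu, ?_, ?_⟩
        · rw [pow_one]
          omega
        · rw [pow_one]
          omega
      · refine ⟨2, by simp, ?_⟩
        rw [hF, mem_filter]
        refine ⟨hu, ?_, ?_⟩
        · norm_num
          omega
        · norm_num
          omega
  have hone : ∀ i ∈ range 3, ∑ u ∈ F i, |dsp f c u s a b| ≤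
      (b : ℝ) * Real.log b ^ 5 / (f * Real.sqrt ((Q : ℝ) ^ k)) +
        (b : ℝ) ^ (1 - (1 / 10) / 6 : ℝ) := by
    intro i hi
    rw [mem_range] at hi
    have hi4 : 2 ^ i ≤ 4 := by
      calc 2 ^ i ≤ 2 ^ 2 := Nat.pow_le_pow_right (by norm_num) (by omega)
        _ = 4 := by norm_num
    have h1i : 1 ≤ 2 ^ i := Nat.one_le_two_pow
    have hfam : Fam (F i) (2 ^ i * Q ^ k) f (fun _ => c) (fun _ => s) := by
      intro u hu
      rw [hF, mem_filter] at hu
      obtain ⟨hu1, hu2, hu3⟩ := hu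
      obtain ⟨h1, h2, h3, h4⟩ := UK_prop hP hu1
      have hlou := UK_lo hP hlo hu1
      refine ⟨h1, ?_, hu2, hu3, ?_, hc, unitM hs u⟩
      · have : Q ^ 1 ≤ Q ^ k := Nat.pow_le_pow_right (by omega) hk
        rw [pow_one] at this
        omega
      · rw [Nat.coprime_iff_gcd_eq_one]
        by_contra hg
        obtain ⟨p, hp, hpd⟩ := Nat.exists_prime_and_dvd hg
        have hpu : p ∣ u := hpd.trans (Nat.gcd_dvd_left _ _)
        have hpf : p ∣ f := hpd.trans (Nat.gcd_dvd_right _ _)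
        exact hf p (h2 p (Nat.mem_primeFactors.2 ⟨hp, hpu, h1.ne_zero⟩)) hpf
    have hUi : (((2 ^ i * Q ^ k : ℕ)) : ℝ) ≤ (b : ℝ) ^ (1 / 2 - 1 / 10 : ℝ) := by
      refine le_trans ?_ hU
      have : 2 ^ i * Q ^ k ≤ 4 * Q ^ k := Nat.mul_le_mul_right _ hi4
      exact_mod_cast this
    have hmain := hB a b f (2 ^ i * Q ^ k) hY hab hf1 (Nat.mul_pos h1i hQk) hUi (F i)
      (fun _ => c) (fun _ => s) hfam
    refine hmain.trans ?_
    refine add_le_add_left ?_ _
    have hlog : 0 ≤ Real.log b := Real.log_natCast_nonneg b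
    have hQp : (0 : ℝ) < (Q : ℝ) ^ k := by
      have : (0 : ℝ) < Q := by exact_mod_cast (by omega : 0 < Q)
      positivity
    have hfr : (0 : ℝ) < f := by exact_mod_cast hf1
    have hsq : Real.sqrt ((Q : ℝ) ^ k) ≤ Real.sqrt ((2 ^ i * Q ^ k : ℕ) : ℝ) := by
      refine Real.sqrt_le_sqrt ?_
      have : Q ^ k ≤ 2 ^ i * Q ^ k := Nat.le_mul_of_pos_left _ h1i
      exact_mod_cast this
    have hsp : 0 < Real.sqrt ((Q : ℝ) ^ k) := Real.sqrt_pos.2 hQp
    have har : (0 : ℝ) ≤ a := Nat.cast_nonneg a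
    have hbr : (0 : ℝ) ≤ b := Nat.cast_nonneg b
    calc ((b : ℝ) - a) * Real.log b ^ 5 / (f * Real.sqrt ((2 ^ i * Q ^ k : ℕ) : ℝ))
        ≤ (b : ℝ) * Real.log b ^ 5 / (f * Real.sqrt ((2 ^ i * Q ^ k : ℕ) : ℝ)) := by
          refine div_le_div_of_nonneg_right ?_ (by positivity)
          exact mul_le_mul_of_nonneg_right (by linarith) (by positivity)
      _ ≤ _ := by
          refine div_le_div_of_nonneg_left (by positivity) (by positivity) ?_
          exact mul_le_mul_of_nonneg_left hsq hfr.le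
  calc ∑ u ∈ UK P J k, |dsp f c u s a b| ≤ ∑ u ∈ (range 3).biUnion F, |dsp f c u s a b| :=
        sum_le_sum_of_subset_of_nonneg hcov (fun _ _ _ => abs_nonneg _)
    _ ≤ ∑ i ∈ range 3, ∑ u ∈ F i, |dsp f c u s a b| := by
        exact sum_bi _ _ _ (fun _ => abs_nonneg _)
    _ ≤ ∑ i ∈ range 3, ((b : ℝ) * Real.log b ^ 5 / (f * Real.sqrt ((Q : ℝ) ^ k)) +
        (b : ℝ) ^ (1 - (1 / 10) / 6 : ℝ)) := sum_le_sum hone
    _ = _ := by
        rw [sum_const, card_range, nsmul_eq_mul]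
        norm_num

/-! ### numerical part -/

theorem geo {ρ : ℝ} (h0 : 0 ≤ ρ) (h1 : 2 * ρ ≤ 1) (n : ℕ) (hn : 1 ≤ n) :
    ∑ k ∈ Icc 1 n, ρ ^ k + ρ ^ n ≤ 2 * ρ := by
  induction n, hn using Nat.le_induction with
  | base =>
    simp
    linarith
  | succ n hn ih =>
    rw [sum_Icc_succ_top (by omega)]
    have h2 : 2 * ρ ^ (n + 1) ≤ ρ ^ n := by
      rw [pow_succ]
      nlinarith [pow_nonneg h0 n]
    linarith

/-- the final inequality -/
theorem numer {L lam q F b B : ℝ} {J : ℕ} (hJ : 1 ≤ J) (hL : 2 ≤ L) (hl0 : 0 ≤ lam) (hl : lam ≤ L)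
    (hq : L ^ 100 ≤ q) (hb : 0 < b) (hF : 1 ≤ F) (hB : 0 ≤ B)
    (hBB : 6 * F * J * L ^ (2 * J) * B ≤ b / (2 * L)) :
    F * ∑ k ∈ Icc 1 (2 * J), lam ^ k * (3 * (b * (2 * L) ^ 5 / (F * Real.sqrt (q ^ k)) + B)) ≤
      b / L := by
  have hL0 : 0 < L := by linarith
  have hL1 : 1 ≤ L := by linarith
  have hF0 : 0 < F := by linarith
  have hq0 : 0 < q := lt_of_lt_of_le (by positivity) hq
  have hJr : (1 : ℝ) ≤ J := by exact_mod_cast hJ
  set ρ : ℝ := 1 / L ^ 49 with hρ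
  have hρ0 : 0 < ρ := by positivity
  have hL49 : 2 ≤ L ^ 49 := by
    calc (2 : ℝ) ≤ 2 ^ 49 := by norm_num
      _ ≤ L ^ 49 := pow_le_pow_left₀ (by norm_num) hL 49
  have hρ1 : 2 * ρ ≤ 1 := by
    rw [hρ, mul_one_div, div_le_one (by positivity)]
    exact hL49
  have hs : L ^ 50 ≤ Real.sqrt q := by
    refine Real.le_sqrt_of_sq_le ?_
    rw [← pow_mul]
    exact hq
  have hterm : ∀ k ∈ Icc 1 (2 * J), F * (lam ^ k * (3 * (b * (2 * L) ^ 5 / (F * Real.sqrt (q ^ k)) + B))) ≤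
      96 * b * L ^ 5 * ρ ^ k + 3 * F * B * L ^ (2 * J) := by
    intro k hk
    rw [mem_Icc] at hk
    have e1 : Real.sqrt (q ^ k) = Real.sqrt q ^ k := by
      rw [Real.sqrt_eq_rpow, Real.sqrt_eq_rpow, ← Real.rpow_natCast, ← Real.rpow_natCast,
        ← Real.rpow_mul hq0.le, ← Real.rpow_mul hq0.le, mul_comm]
    have hsq0 : 0 < Real.sqrt q := Real.sqrt_pos.2 hq0
    have e2 : lam ^ k / Real.sqrt (q ^ k) ≤ ρ ^ k := by
      rw [e1, ← div_pow]
      refine pow_le_pow_left₀ (by positivity) ?_ _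
      rw [hρ, div_le_div_iff₀ hsq0 (by positivity)]
      calc lam * L ^ 49 ≤ L * L ^ 49 := mul_le_mul_of_nonneg_right hl (by positivity)
        _ = L ^ 50 := by ring
        _ ≤ 1 * Real.sqrt q := by rw [one_mul]; exact hs
    have e3 : lam ^ k ≤ L ^ (2 * J) :=
      (pow_le_pow_left₀ hl0 hl k).trans (pow_le_pow_right₀ hL1 hk.2)
    have e4 : F * (lam ^ k * (3 * (b * (2 * L) ^ 5 / (F * Real.sqrt (q ^ k)) + B))) =
        96 * b * L ^ 5 * (lam ^ k / Real.sqrt (q ^ k)) + 3 * F * B * lam ^ k := by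
      have : 0 < Real.sqrt (q ^ k) := by rw [e1]; positivity
      field_simp
      ring
    rw [e4]
    exact add_le_add (mul_le_mul_of_nonneg_left e2 (by positivity))
      (mul_le_mul_of_nonneg_left e3 (by positivity))
  rw [mul_sum]
  refine (sum_le_sum hterm).trans ?_
  rw [sum_add_distrib, ← mul_sum, sum_const, Nat.card_Icc, nsmul_eq_mul]
  have hg := geo hρ0.le hρ1 (2 * J) (by omega)
  have hg' : ∑ k ∈ Icc 1 (2 * J), ρ ^ k ≤ 2 * ρ := by
    have : 0 ≤ ρ ^ (2 * J) := by positivity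
    linarith
  have h1 : 96 * b * L ^ 5 * ∑ k ∈ Icc 1 (2 * J), ρ ^ k ≤ b / (2 * L) := by
    refine (mul_le_mul_of_nonneg_left hg' (by positivity)).trans ?_
    rw [hρ, le_div_iff₀ (by positivity)]
    have e5 : 96 * b * L ^ 5 * (2 * (1 / L ^ 49)) * (2 * L) = b * (384 / L ^ 43) := by
      field_simp
      ring
    rw [e5]
    have e6 : 384 / L ^ 43 ≤ 1 := by
      rw [div_le_one (by positivity)]
      calc (384 : ℝ) ≤ 2 ^ 43 := by norm_num
        _ ≤ L ^ 43 := pow_le_pow_left₀ (by norm_num) hL 43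
    nlinarith
  have h2 : ((2 * J + 1 - 1 : ℕ) : ℝ) * (3 * F * B * L ^ (2 * J)) ≤ b / (2 * L) := by
    refine le_trans (le_of_eq ?_) hBB
    rw [Nat.add_sub_cancel]
    push_cast
    ring
  have h3 : b / (2 * L) + b / (2 * L) = b / L := by
    field_simp
    ring
  linarith

theorem dsp_mod {f c : ℕ} (u : ℕ) (s : ℤ) (a b : ℕ) :
    dsp f c u s a b = dsp f (c % f) u s a b := by
  unfold dsp
  refine sum_congr (filter_congr fun p _ => ?_) fun _ _ => rfl
  have : c % f ≡ c [MOD f] := Nat.mod_modEq c f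
  exact and_congr_right fun _ => ⟨fun h => h.trans this.symm, fun h => h.trans this⟩

end ER2

open ER2 in
theorem t_ER2 : M_ER2 := by
  classical
  intro hBVG hSWA hTB hCF C₁ hC₁ R₁ d
  obtain ⟨Y₀, hY₀⟩ := hBVG (1 / 10) (by norm_num) (by norm_num)
  obtain ⟨X₀, hX₀⟩ := hCF C₁ hC₁ R₁ d (44064 * C₁)
  refine ⟨max X₀ Y₀, fun X hX J Q X₁ H W P s hcfg hs a b hab hb1 hb2 => ?_⟩
  obtain ⟨hK, hll, hMM, -, hpri, hprid, hMM1, hMMQ, hRQ, -, -, -, -, -, -, hPc, hPQ, -, hQ16, hJQ, -, -, -,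
    hlQ⟩ := hX₀ X (le_trans (le_max_left _ _) hX) J Q X₁ H W P hcfg
  have hgood := hcfg.good
  have hJ2 := hcfg.J2
  set L : ℝ := Real.log X with hLd
  set ll : ℝ := Real.log L with hlld
  have hL0' : 0 ≤ L := Real.log_natCast_nonneg X
  have hL0 : 0 < L := by
    rcases hL0'.eq_or_lt with h | h
    · exfalso
      rw [hlld, ← h, Real.log_zero] at hll
      linarith
    · exact h
  have hLe : L = Real.exp ll := (Real.exp_log hL0).symm
  have hL2 : 2 ≤ L := by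
    rw [hLe]
    calc (2 : ℝ) ≤ ll + 1 := by linarith
      _ ≤ _ := Real.add_one_le_exp _
  have hXpos : (0 : ℝ) < X := by
    rcases Nat.eq_zero_or_pos X with h | h
    · exfalso
      rw [hLd, h] at hL0
      simp at hL0
    · exact_mod_cast h
  have hX1 : (1 : ℝ) ≤ X := by exact_mod_cast (by exact_mod_cast hXpos : 0 < X)
  have hQr : (16 : ℝ) ≤ Q := by exact_mod_cast hQ16
  have hPcp : (0 : ℝ) < P.card := lt_of_lt_of_le (by positivity) hPc
  have hPcn : 0 < P.card := by exact_mod_cast hPcp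
  have hJr : (2 : ℝ) ≤ J := by exact_mod_cast hJ2
  -- the parameter lam
  have hlam : (2 * J * Q / P.card : ℝ) ≤ L := by
    rw [div_le_iff₀ hPcp]
    have h1 : (Q : ℝ) ≤ C₁ * J * Real.log Q * P.card := hgood.card
    have h2 : Real.log Q ≤ 102 * ll := by
      refine le_trans (Real.log_le_log (by linarith) (by linarith)) hlQ
    have h3 : (J : ℝ) ≤ 3 * ll := hcfg.Jhi
    have hlog0 : 0 ≤ Real.log Q := Real.log_natCast_nonneg Q
    have h4 : 2 * J * (C₁ * J * Real.log Q) ≤ 1836 * C₁ * ll ^ 3 := by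
      have e1 : (J : ℝ) * J ≤ (3 * ll) * (3 * ll) :=
        mul_le_mul h3 h3 (by positivity) (by linarith)
      have e2 : (J : ℝ) * J * Real.log Q ≤ (3 * ll) * (3 * ll) * (102 * ll) :=
        mul_le_mul e1 h2 hlog0 (by positivity)
      nlinarith [mul_le_mul_of_nonneg_left e2 (by positivity : 0 ≤ 2 * C₁)]
    have h5 : 1836 * C₁ * ll ^ 3 ≤ L := by
      have e3 := Real.pow_div_factorial_le_exp (x := ll) (by linarith) 4
      rw [← hLe] at e3
      refine le_trans ?_ e3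
      rw [le_div_iff₀ (by positivity)]
      have e4 : (Nat.factorial 4 : ℝ) = 24 := by norm_num [Nat.factorial]
      rw [e4]
      have e5 : 0 ≤ ll ^ 3 := by positivity
      nlinarith [mul_le_mul_of_nonneg_right hK e5]
    calc (2 * J * Q : ℝ) ≤ 2 * J * (C₁ * J * Real.log Q * P.card) :=
          mul_le_mul_of_nonneg_left h1 (by positivity)
      _ = 2 * J * (C₁ * J * Real.log Q) * P.card := by ring
      _ ≤ L * P.card := mul_le_mul_of_nonneg_right (h4.trans h5) hPcp.le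
  -- the modulus
  set f : ℕ := pri R₁ * MM1 R₁ with hfd
  have hf1 : 1 ≤ f := Nat.mul_pos hpri hMM1
  have hfQ : f ≤ Q ^ 2 := by
    rw [pow_two]
    exact Nat.mul_le_mul ((Nat.le_of_dvd hMM1 hprid).trans hMMQ) hMMQ
  have hfP : ∀ p ∈ P, ¬ p ∣ f := by
    intro p hp hpf
    have hpp := hgood.pr p hp
    have hlo := hgood.lo p hp
    have : p ∣ MM1 R₁ := by
      rcases (Nat.Prime.dvd_mul hpp).1 hpf with h | h
      · exact h.trans hprid
      · exact h
    have := (hMM p hpp).1 this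
    omega
  -- powers of Q
  have hQpow : (Q : ℝ) ^ (20 * J) ≤ (X : ℝ) ^ (1 / 100000 : ℝ) := by
    have h1 : (Q : ℝ) ≤ ((16 * MM1 R₁ * Q : ℕ) : ℝ) := by
      have : Q ≤ 16 * MM1 R₁ * Q := Nat.le_mul_of_pos_left _ (by omega)
      exact_mod_cast this
    calc (Q : ℝ) ^ (20 * J) ≤ ((16 * MM1 R₁ * Q : ℕ) : ℝ) ^ (20 * J) :=
          pow_le_pow_left₀ (by linarith) h1 _
      _ ≤ (X : ℝ) ^ (d / 1000) := hcfg.sml
      _ ≤ _ := Real.rpow_le_rpow_of_exponent_le hX1 (by linarith [hcfg.d1])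
  have hb0 : (0 : ℝ) < b := lt_of_lt_of_le (by positivity) hb1
  have hb1n : 1 ≤ b := by exact_mod_cast hb0
  have hYb : Y₀ ≤ b := by
    have h1 : (X : ℝ) ≤ b := by
      refine le_trans ?_ hb1
      calc (X : ℝ) = (X : ℝ) ^ (1 : ℝ) := (Real.rpow_one _).symm
        _ ≤ _ := Real.rpow_le_rpow_of_exponent_le hX1 (by norm_num)
    have h2 : X ≤ b := by exact_mod_cast h1
    exact (le_trans (le_max_right _ _) hX).trans h2
  have hlogb : Real.log b ≤ 2 * L := by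
    calc Real.log b ≤ Real.log ((X : ℝ) ^ (2 : ℝ)) := Real.log_le_log hb0 hb2
      _ = 2 * L := Real.log_rpow hXpos _
  have hlogb0 : 0 ≤ Real.log b := Real.log_natCast_nonneg b
  set B : ℝ := (b : ℝ) ^ (1 - (1 / 10) / 6 : ℝ) with hBd
  have hB0 : 0 ≤ B := by positivity
  have hLQ : L ≤ Q := by
    calc L = L ^ 1 := (pow_one L).symm
      _ ≤ L ^ 100 := pow_le_pow_right₀ (by linarith) (by norm_num)
      _ ≤ Q := hcfg.Qlo
  have hBB : 6 * (f : ℝ) * J * L ^ (2 * J) * B ≤ b / (2 * L) := by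
    rw [le_div_iff₀ (by positivity)]
    have e1 : (f : ℝ) ≤ (Q : ℝ) ^ 2 := by exact_mod_cast hfQ
    have e2 : (J : ℝ) ≤ Q := by
      have : J ≤ Q := by omega
      exact_mod_cast this
    have e3 : L ^ (2 * J) ≤ (Q : ℝ) ^ (2 * J) := pow_le_pow_left₀ hL0.le hLQ _
    have e4 : 6 * (f : ℝ) * J * L ^ (2 * J) * (2 * L) ≤ (Q : ℝ) ^ (20 * J) := by
      calc 6 * (f : ℝ) * J * L ^ (2 * J) * (2 * L)
          = 12 * ((f : ℝ) * J * L ^ (2 * J) * L) := by ring
        _ ≤ 12 * ((Q : ℝ) ^ 2 * Q * (Q : ℝ) ^ (2 * J) * Q) := by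
            gcongr
        _ ≤ Q * ((Q : ℝ) ^ 2 * Q * (Q : ℝ) ^ (2 * J) * Q) := by
            refine mul_le_mul_of_nonneg_right (by linarith) (by positivity)
        _ = (Q : ℝ) ^ (2 * J + 5) := by ring
        _ ≤ _ := pow_le_pow_right₀ (by linarith) (by omega)
    have e5 : (Q : ℝ) ^ (20 * J) * B ≤ b := by
      have h1 : (b : ℝ) = B * (b : ℝ) ^ ((1 / 10) / 6 : ℝ) := by
        rw [hBd, ← Real.rpow_add hb0]
        norm_num
      have h2 : (X : ℝ) ^ (1 / 100000 : ℝ) ≤ (b : ℝ) ^ ((1 / 10) / 6 : ℝ) := by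
        calc (X : ℝ) ^ (1 / 100000 : ℝ) ≤ (X : ℝ) ^ ((19 / 10) * ((1 / 10) / 6) : ℝ) :=
              Real.rpow_le_rpow_of_exponent_le hX1 (by norm_num)
          _ = ((X : ℝ) ^ (19 / 10 : ℝ)) ^ ((1 / 10) / 6 : ℝ) := Real.rpow_mul hXpos.le _ _
          _ ≤ _ := Real.rpow_le_rpow (by positivity) hb1 (by norm_num)
      calc (Q : ℝ) ^ (20 * J) * B ≤ (b : ℝ) ^ ((1 / 10) / 6 : ℝ) * B :=
            mul_le_mul_of_nonneg_right (hQpow.trans h2) hB0
        _ = b := by rw [mul_comm]; exact h1.symm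
    calc 6 * (f : ℝ) * J * L ^ (2 * J) * B * (2 * L)
        = (6 * (f : ℝ) * J * L ^ (2 * J) * (2 * L)) * B := by ring
      _ ≤ (Q : ℝ) ^ (20 * J) * B := mul_le_mul_of_nonneg_right e4 hB0
      _ ≤ b := e5
  have hUb : ∀ k ∈ Icc 1 (2 * J), 4 * (Q : ℝ) ^ k ≤ (b : ℝ) ^ (1 / 2 - 1 / 10 : ℝ) := by
    intro k hk
    rw [mem_Icc] at hk
    calc 4 * (Q : ℝ) ^ k ≤ Q * (Q : ℝ) ^ k :=
          mul_le_mul_of_nonneg_right (by linarith) (by positivity)
      _ = (Q : ℝ) ^ (k + 1) := by ring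
      _ ≤ (Q : ℝ) ^ (20 * J) := pow_le_pow_right₀ (by linarith) (by omega)
      _ ≤ (X : ℝ) ^ (1 / 100000 : ℝ) := hQpow
      _ ≤ (X : ℝ) ^ ((19 / 10) * (1 / 2 - 1 / 10) : ℝ) :=
          Real.rpow_le_rpow_of_exponent_le hX1 (by norm_num)
      _ = ((X : ℝ) ^ (19 / 10 : ℝ)) ^ (1 / 2 - 1 / 10 : ℝ) := Real.rpow_mul hXpos.le _ _
      _ ≤ _ := Real.rpow_le_rpow (by positivity) hb1 (by norm_num)
  refine ⟨fun u => ∑ c ∈ cop f, |dsp f c u s a b|, fun u => sum_nonneg fun _ _ => abs_nonneg _,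
    fun t ht u hu c hc _ => ?_, ?_⟩
  · rw [dsp_mod]
    refine single_le_sum (f := fun c => |dsp f c u s a b|) (fun _ _ => abs_nonneg _) ?_
    rw [cop, mem_filter, mem_range]
    refine ⟨Nat.mod_lt _ hf1, ?_⟩
    rw [Nat.Coprime, ← Nat.gcd_rec, Nat.gcd_comm]
    exact hc
  · refine (total_le hgood.pr hgood.lo (by omega) hPcn _
      (fun u => sum_nonneg fun _ _ => abs_nonneg _)).trans ?_
    have hQ0r : (0 : ℝ) ≤ Q := by linarith
    have hlam0 : (0 : ℝ) ≤ 2 * J * Q / P.card :=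
      div_nonneg (mul_nonneg (mul_nonneg (by norm_num) (by linarith)) hQ0r) hPcp.le
    refine mul_le_mul_of_nonneg_left ?_ (div_nonneg (pow_nonneg hPcp.le _) (pow_nonneg hQ0r _))
    refine le_trans ?_ (numer (F := f) (q := Q) (B := B) (J := J) (b := b) (by omega) hL2 hlam0 hlam
      hcfg.Qlo hb0 (by exact_mod_cast hf1) hB0 hBB)
    rw [mul_sum]
    refine sum_le_sum fun k hk => ?_
    have hk1 := (mem_Icc.1 hk).1
    rw [sum_comm]
    have hcs : ∀ c ∈ cop f, ∑ u ∈ UK P J k, |dsp f c u s a b| ≤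
        3 * ((b : ℝ) * (2 * L) ^ 5 / (f * Real.sqrt ((Q : ℝ) ^ k)) + B) := by
      intro c hc
      rw [cop, mem_filter] at hc
      refine (UK_dsp hY₀ hgood.pr hgood.lo hgood.hi (by omega) (by omega) hf1 hfP hs hYb hab hc.2
        hk1 (hUb k hk) hb1n).trans ?_
      refine mul_le_mul_of_nonneg_left ?_ (by norm_num)
      refine add_le_add_left ?_ _
      refine div_le_div_of_nonneg_right ?_ (by positivity)
      exact mul_le_mul_of_nonneg_left (pow_le_pow_left₀ hlogb0 hlogb 5) hb0.le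
    have hcc : ((cop f).card : ℝ) ≤ f := by
      have : (cop f).card ≤ f := (card_filter_le _ _).trans (card_range f).le
      exact_mod_cast this
    have hnn : 0 ≤ 3 * ((b : ℝ) * (2 * L) ^ 5 / (f * Real.sqrt ((Q : ℝ) ^ k)) + B) := by
      positivity
    calc (2 * J * Q / P.card : ℝ) ^ k * ∑ c ∈ cop f, ∑ u ∈ UK P J k, |dsp f c u s a b|
        ≤ (2 * J * Q / P.card : ℝ) ^ k * (f * (3 * ((b : ℝ) * (2 * L) ^ 5 /
            (f * Real.sqrt ((Q : ℝ) ^ k)) + B))) := by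
          refine mul_le_mul_of_nonneg_left ?_ (pow_nonneg hlam0 _)
          refine (sum_le_sum hcs).trans ?_
          rw [sum_const, nsmul_eq_mul]
          exact mul_le_mul_of_nonneg_right hcc hnn
      _ = _ := by ring

end

end MUR
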