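import Mathlib
import Pool.Agent.MUR.StE

set_option autoImplicit false

/-!
# Project MUR, module EXP: expansion of a congruence condition in discrepancy functions
-/

namespace MUR

open Finset IPR
open Pool.Agent.Lib_helper83.EF (e)

noncomputable section

namespace EXP

/-- The totient of a squarefree number. -/
lemma totient_sqf {m : ℕ} (hm : Squarefree m) :
    ((m.totient : ℕ) : ℝ) = ∏ l ∈ m.primeFactors, ((l : ℝ) - 1) := by
  rw [Nat.totient_eq_div_primeFactors_mul m, Nat.prod_primeFactors_of_squarefree hm,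
    Nat.div_self (Nat.pos_of_ne_zero hm.ne_zero), one_mul, Nat.cast_prod]
  refine Finset.prod_congr rfl fun l hl => ?_
  rw [Nat.cast_sub (Nat.prime_of_mem_primeFactors hl).one_le, Nat.cast_one]

/-- A congruence modulo a squarefree number. -/
lemma cast_eq_iff {x n : ℕ} {r : ℤ} (hx : Squarefree x) :
    ((n : ℕ) : ZMod x) = ((r : ℤ) : ZMod x) ↔
      ∀ l ∈ x.primeFactors, ((n : ℕ) : ZMod l) = ((r : ℤ) : ZMod l) := by
  have h1 : ∀ y : ℕ, ((n : ℕ) : ZMod y) = ((r : ℤ) : ZMod y) ↔ y ∣ (r - (n : ℤ)).natAbs := by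
    intro y
    rw [← Int.cast_natCast (R := ZMod y) n, ZMod.intCast_eq_intCast_iff_dvd_sub,
      Int.natCast_dvd]
  rw [h1]
  constructor
  · intro h l hl
    rw [h1]
    exact (Nat.dvd_of_mem_primeFactors hl).trans h
  · intro h
    rw [← Nat.prod_primeFactors_of_squarefree hx]
    refine Finset.prod_primes_dvd _ (fun l hl => (Nat.prime_of_mem_primeFactors hl).prime) ?_
    intro l hl
    exact (h1 l).1 (h l hl)

end EXP

theorem t_EXP : S_EXP := by
  intro x n r hx hn
  have hx0 : x ≠ 0 := hx.ne_zero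
  have h1 : (if ((n : ℕ) : ZMod x) = ((r : ℤ) : ZMod x) then (1 : ℝ) else 0) =
      ∏ l ∈ x.primeFactors, (if ((n : ℕ) : ZMod l) = ((r : ℤ) : ZMod l) then (1 : ℝ) else 0) := by
    rw [Finset.prod_ite_zero]
    simp only [Finset.prod_const_one]
    by_cases h : ((n : ℕ) : ZMod x) = ((r : ℤ) : ZMod x)
    · rw [if_pos h, if_pos ((EXP.cast_eq_iff hx).1 h)]
    · rw [if_neg h, if_neg fun h' => h ((EXP.cast_eq_iff hx).2 h')]
  have h2 : ∀ l ∈ x.primeFactors,
      (if ((n : ℕ) : ZMod l) = ((r : ℤ) : ZMod l) then (1 : ℝ) else 0) =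
        Pool.Agent.Lib_helper72.AP.wt l r n + 1 / ((l : ℝ) - 1) := by
    intro l hl
    have h3 : ¬ l ∣ n := by
      intro h
      have h4 := Nat.dvd_gcd h (Nat.dvd_of_mem_primeFactors hl)
      rw [hn] at h4
      exact (Nat.prime_of_mem_primeFactors hl).one_lt.ne' (Nat.dvd_one.1 h4)
    rw [Pool.Agent.Lib_helper72.AP.wt, if_neg h3]
    ring
  rw [h1, Finset.prod_congr rfl h2, Finset.prod_add]
  symm
  refine Finset.sum_bij' (fun u _ => u.primeFactors) (fun t _ => ∏ l ∈ t, l) ?_ ?_ ?_ ?_ ?_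
  · intro u hu
    rw [Finset.mem_powerset]
    exact Nat.primeFactors_mono (Nat.dvd_of_mem_divisors hu) hx0
  · intro t ht
    rw [Finset.mem_powerset] at ht
    rw [Nat.mem_divisors]
    refine ⟨?_, hx0⟩
    rw [← Nat.prod_primeFactors_of_squarefree hx]
    exact Finset.prod_dvd_prod_of_subset _ _ _ ht
  · intro u hu
    exact Nat.prod_primeFactors_of_squarefree (hx.squarefree_of_dvd (Nat.dvd_of_mem_divisors hu))
  · intro t ht
    rw [Finset.mem_powerset] at ht
    exact Nat.primeFactors_prod fun l hl => Nat.prime_of_mem_primeFactors (ht hl)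
  · intro u hu
    have hd := Nat.dvd_of_mem_divisors hu
    have hu0 : u ≠ 0 := ne_zero_of_dvd_ne_zero hx0 hd
    have h3 : (x / u).primeFactors = x.primeFactors \ u.primeFactors := by
      have := Nat.primeFactors_div_gcd hx hu0
      rwa [Nat.gcd_eq_right hd] at this
    have h4 : Squarefree (x / u) := hx.squarefree_of_dvd (Nat.div_dvd_of_dvd hd)
    rw [EXP.totient_sqf h4, h3, ps, Finset.prod_div_distrib, Finset.prod_const_one, mul_one_div]

end

end MUR
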