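import Mathlib
import Pool.Agent.MUR.StD

set_option autoImplicit false

/-!
# Project MUR, module F2: the sieve bound for a projection to small moduli
-/

namespace MUR

open Finset IPR
open Pool.Agent.Lib_helper83.EF (e)

noncomputable section

namespace F2

/-! ### The exponential -/

theorem e_add (x y : ℝ) : e (x + y) = e x * e y := by
  unfold Pool.Agent.Lib_helper83.EF.e
  rw [← Complex.exp_add]
  congr 1
  push_cast
  ring

theorem norm_e (x : ℝ) : ‖e x‖ = 1 := by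
  unfold Pool.Agent.Lib_helper83.EF.e
  have h : (2 * (Real.pi : ℂ) * (x : ℂ) * Complex.I) = ((2 * Real.pi * x : ℝ) : ℂ) * Complex.I := by
    push_cast
    ring
  rw [h, Complex.norm_exp_ofReal_mul_I]

theorem e_nat (n : ℕ) : e (n : ℝ) = 1 := by
  unfold Pool.Agent.Lib_helper83.EF.e
  have h : (2 * (Real.pi : ℂ) * ((n : ℝ) : ℂ) * Complex.I) = (n : ℤ) * (2 * Real.pi * Complex.I) := by
    push_cast
    ring
  rw [h, Complex.exp_int_mul_two_pi_mul_I]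

/-! ### Combinations of exponentials -/

theorem trig_zero (G R : ℕ) : Trig G R (fun _ => 0) := ⟨fun _ _ => 0, fun w => by simp⟩

theorem trig_add {G R : ℕ} {f g : ℕ → ℂ} (hf : Trig G R f) (hg : Trig G R g) :
    Trig G R (fun w => f w + g w) := by
  obtain ⟨C, hC⟩ := hf
  obtain ⟨C', hC'⟩ := hg
  refine ⟨fun q a => C q a + C' q a, fun w => ?_⟩
  beta_reduce
  rw [hC w, hC' w, ← Finset.sum_add_distrib]
  refine Finset.sum_congr rfl fun q _ => ?_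
  rw [← Finset.sum_add_distrib]
  exact Finset.sum_congr rfl fun a _ => (add_mul _ _ _).symm

theorem trig_mul {G R : ℕ} {f : ℕ → ℂ} (c : ℂ) (hf : Trig G R f) : Trig G R (fun w => c * f w) := by
  obtain ⟨C, hC⟩ := hf
  refine ⟨fun q a => c * C q a, fun w => ?_⟩
  beta_reduce
  rw [hC w, Finset.mul_sum]
  refine Finset.sum_congr rfl fun q _ => ?_
  rw [Finset.mul_sum]
  exact Finset.sum_congr rfl fun a _ => (mul_assoc _ _ _).symm

theorem trig_sum {ι : Type} {G R : ℕ} (s : Finset ι) (f : ι → ℕ → ℂ)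
    (h : ∀ i ∈ s, Trig G R (f i)) : Trig G R (fun w => ∑ i ∈ s, f i w) := by
  classical
  induction s using Finset.induction_on with
  | empty => simpa using trig_zero G R
  | insert a s ha ih =>
    have h1 := ih fun i hi => h i (Finset.mem_insert_of_mem hi)
    have h2 := trig_add (h a (Finset.mem_insert_self a s)) h1
    have h3 : (fun w => ∑ i ∈ insert a s, f i w) = fun w => f a w + ∑ i ∈ s, f i w := by
      funext w
      rw [Finset.sum_insert ha]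
    rw [h3]
    exact h2

theorem trig_e {G R q : ℕ} (hq : q ∈ smo G R) (b : ℕ) :
    Trig G R (fun w => e ((w : ℝ) * ((b : ℝ) / q))) := by
  classical
  rw [smo, Finset.mem_filter, Finset.mem_Icc] at hq
  obtain ⟨⟨hq1, hqG⟩, hqR⟩ := hq
  set g := Nat.gcd b q with hg
  have hg0 : 0 < g := Nat.gcd_pos_of_pos_right _ (by omega)
  obtain ⟨q', hq'⟩ : g ∣ q := Nat.gcd_dvd_right _ _
  obtain ⟨b', hb'⟩ : g ∣ b := Nat.gcd_dvd_left _ _
  have hq'0 : 0 < q' := by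
    rcases Nat.eq_zero_or_pos q' with h | h
    · rw [h, mul_zero] at hq'
      omega
    · exact h
  have hcop : b'.Coprime q' := by
    have h1 : g * b'.gcd q' = g * 1 := by
      rw [← Nat.gcd_mul_left, ← hb', ← hq', mul_one]
    exact Nat.eq_of_mul_eq_mul_left hg0 h1
  have hq'dvd : q' ∣ q := ⟨g, by rw [hq', mul_comm]⟩
  have hq'mem : q' ∈ smo G R := by
    rw [smo, Finset.mem_filter, Finset.mem_Icc]
    refine ⟨⟨hq'0, (Nat.le_of_dvd (by omega) hq'dvd).trans hqG⟩, fun p hp => hqR p ?_⟩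
    exact Nat.primeFactors_mono hq'dvd (by omega) hp
  have hamem : b' % q' ∈ cop q' := by
    rw [cop, Finset.mem_filter, Finset.mem_range]
    refine ⟨Nat.mod_lt _ hq'0, ?_⟩
    unfold Nat.Coprime at hcop ⊢
    rw [← Nat.gcd_rec, Nat.gcd_comm]
    exact hcop
  refine ⟨fun x y => if x = q' ∧ y = b' % q' then 1 else 0, fun w => ?_⟩
  beta_reduce
  rw [Finset.sum_eq_single q', Finset.sum_eq_single (b' % q')]
  · rw [if_pos ⟨rfl, rfl⟩, one_mul]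
    have h1 : ((b : ℝ) / q) = ((b' % q' : ℕ) : ℝ) / q' + ((b' / q' : ℕ) : ℝ) := by
      have h2 : (b' : ℝ) = ((b' % q' : ℕ) : ℝ) + q' * ((b' / q' : ℕ) : ℝ) := by
        exact_mod_cast (Nat.mod_add_div b' q').symm
      have hgr : (g : ℝ) ≠ 0 := by exact_mod_cast hg0.ne'
      have hqr : (q' : ℝ) ≠ 0 := by exact_mod_cast hq'0.ne'
      have h3 : (b : ℝ) / q = (b' : ℝ) / q' := by
        have h4 : (b : ℝ) = g * b' := by exact_mod_cast hb'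
        have h5 : (q : ℝ) = g * q' := by exact_mod_cast hq'
        rw [h4, h5, mul_div_mul_left _ _ hgr]
      rw [h3, h2]
      field_simp
    have h4 : (w : ℝ) * ((b : ℝ) / q) = (w : ℝ) * (((b' % q' : ℕ) : ℝ) / q') +
        ((w * (b' / q') : ℕ) : ℝ) := by
      rw [h1]
      push_cast
      ring
    rw [h4, e_add, e_nat, mul_one]
  · intro y _ hy
    rw [if_neg fun h => hy h.2, zero_mul]
  · intro h
    exact absurd hamem h
  · intro x _ hx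
    exact Finset.sum_eq_zero fun y _ => by rw [if_neg fun h => hx h.1, zero_mul]
  · intro h
    exact absurd hq'mem h

/-! ### The projection with a fixed block -/

/-- the projection with the block `i` instead of the block of `n` -/
def psi (𝒬 : Finset ℕ) (H : ℕ) (α : ℕ → ℂ) (i n : ℕ) : ℂ :=
  (1 / H : ℂ) * ∑ q ∈ 𝒬, ∑ a ∈ cop q, ft α H i ((a : ℝ) / q) * e ((n : ℝ) * ((a : ℝ) / q))

theorem PQ_eq (𝒬 : Finset ℕ) (H : ℕ) (α : ℕ → ℂ) (n : ℕ) : PQ 𝒬 H α n = psi 𝒬 H α (n / H) n := rfl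

theorem norm_ft (α : ℕ → ℂ) (H i : ℕ) (θ : ℝ) (hα : ∀ n, ‖α n‖ ≤ 1) : ‖ft α H i θ‖ ≤ H := by
  unfold ft
  calc ‖∑ n ∈ Ico (i * H) (i * H + H), α n * e (-((n : ℝ) * θ))‖
      ≤ ∑ n ∈ Ico (i * H) (i * H + H), ‖α n * e (-((n : ℝ) * θ))‖ := norm_sum_le _ _
    _ ≤ ∑ n ∈ Ico (i * H) (i * H + H), (1 : ℝ) := by
        refine Finset.sum_le_sum fun n _ => ?_
        rw [norm_mul, norm_e, mul_one]
        exact hα n
    _ = H := by
        rw [Finset.sum_const, Nat.card_Ico, nsmul_eq_mul, mul_one]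
        congr 1
        omega

theorem norm_psi (𝒬 : Finset ℕ) (G H : ℕ) (α : ℕ → ℂ) (i n : ℕ) (hα : ∀ n, ‖α n‖ ≤ 1)
    (h𝒬 : ∀ q ∈ 𝒬, 1 ≤ q ∧ q ≤ G) : ‖psi 𝒬 H α i n‖ ≤ (G : ℝ) ^ 2 := by
  unfold psi
  have h1 : ‖∑ q ∈ 𝒬, ∑ a ∈ cop q, ft α H i ((a : ℝ) / q) * e ((n : ℝ) * ((a : ℝ) / q))‖ ≤
      (H : ℝ) * (G : ℝ) ^ 2 := by
    calc ‖∑ q ∈ 𝒬, ∑ a ∈ cop q, ft α H i ((a : ℝ) / q) * e ((n : ℝ) * ((a : ℝ) / q))‖
        ≤ ∑ q ∈ 𝒬, ‖∑ a ∈ cop q, ft α H i ((a : ℝ) / q) * e ((n : ℝ) * ((a : ℝ) / q))‖ :=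
          norm_sum_le _ _
      _ ≤ ∑ q ∈ 𝒬, (G : ℝ) * H := by
          refine Finset.sum_le_sum fun q hq => ?_
          calc ‖∑ a ∈ cop q, ft α H i ((a : ℝ) / q) * e ((n : ℝ) * ((a : ℝ) / q))‖
              ≤ ∑ a ∈ cop q, ‖ft α H i ((a : ℝ) / q) * e ((n : ℝ) * ((a : ℝ) / q))‖ :=
                norm_sum_le _ _
            _ ≤ ∑ a ∈ cop q, (H : ℝ) := by
                refine Finset.sum_le_sum fun a _ => ?_
                rw [norm_mul, norm_e, mul_one]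
                exact norm_ft α H i _ hα
            _ = ((cop q).card : ℝ) * H := by rw [Finset.sum_const, nsmul_eq_mul]
            _ ≤ (G : ℝ) * H := by
                refine mul_le_mul_of_nonneg_right ?_ (Nat.cast_nonneg _)
                have h2 : (cop q).card ≤ q := by
                  unfold cop
                  exact (Finset.card_filter_le _ _).trans (by rw [Finset.card_range])
                exact_mod_cast h2.trans (h𝒬 q hq).2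
      _ = (𝒬.card : ℝ) * (G * H) := by rw [Finset.sum_const, nsmul_eq_mul]
      _ ≤ (G : ℝ) * (G * H) := by
          refine mul_le_mul_of_nonneg_right ?_ (by positivity)
          have h3 : 𝒬 ⊆ Icc 1 G := fun q hq => Finset.mem_Icc.2 (h𝒬 q hq)
          have h4 := Finset.card_le_card h3
          rw [Nat.card_Icc, Nat.add_sub_cancel] at h4
          exact_mod_cast h4
      _ = (H : ℝ) * (G : ℝ) ^ 2 := by ring
  rw [norm_mul]
  rcases Nat.eq_zero_or_pos H with h0 | h0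
  · rw [h0]
    simp only [Nat.cast_zero, div_zero, norm_zero, zero_mul]
    positivity
  · have h5 : ‖(1 / H : ℂ)‖ = 1 / (H : ℝ) := by
      rw [norm_div, norm_one, Complex.norm_natCast]
    have hH : (0 : ℝ) < H := by exact_mod_cast h0
    rw [h5]
    calc 1 / (H : ℝ) * ‖∑ q ∈ 𝒬, ∑ a ∈ cop q, ft α H i ((a : ℝ) / q) *
          e ((n : ℝ) * ((a : ℝ) / q))‖ ≤ 1 / (H : ℝ) * ((H : ℝ) * (G : ℝ) ^ 2) :=
          mul_le_mul_of_nonneg_left h1 (by positivity)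
      _ = (G : ℝ) ^ 2 := by
          field_simp

theorem trig_psi {𝒬 : Finset ℕ} {G R H : ℕ} {α : ℕ → ℂ} (i A z : ℕ) (h𝒬 : ∀ q ∈ 𝒬, q ∈ smo G R) :
    Trig G R (fun w => psi 𝒬 H α i (A + w * z)) := by
  unfold psi
  refine trig_mul _ (trig_sum _ _ fun q hq => trig_sum _ _ fun a _ => ?_)
  have h1 : (fun w : ℕ => ft α H i ((a : ℝ) / q) * e (((A + w * z : ℕ) : ℝ) * ((a : ℝ) / q))) =
      fun w : ℕ => (ft α H i ((a : ℝ) / q) * e ((A : ℝ) * ((a : ℝ) / q))) *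
        e ((w : ℝ) * (((z * a : ℕ) : ℝ) / q)) := by
    funext w
    rw [mul_assoc, ← e_add]
    congr 2
    push_cast
    ring
  rw [h1]
  exact trig_mul _ (trig_e (h𝒬 q hq) _)

/-! ### The means over the exchanges -/

/-- the number `M x y + w z` for the exchange `I` -/
def nn {J : ℕ} (M : ℕ) (t : Fin J → ℕ × ℕ) (x w : ℕ) (I : Finset (Fin J)) : ℕ :=
  M * x * yy (sw I t) + w * zz (sw I t)

/-- the mean of the projections with fixed blocks -/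
def gg {J : ℕ} (M : ℕ) (𝒬 : Finset ℕ) (H : ℕ) (α : ℕ → ℂ) (t : Fin J → ℕ × ℕ)
    (idx : Finset (Fin J) → ℕ) (x w : ℕ) : ℂ :=
  (1 / 2 ^ J : ℂ) * ∑ I : Finset (Fin J), psi 𝒬 H α (idx I) (nn M t x w I)

/-- the pointwise bound of the error -/
def BB {J : ℕ} (M G H δ : ℕ) (t : Fin J → ℕ × ℕ) (x w : ℕ) : ℝ :=
  4 * (G : ℝ) ^ 4 * ((1 / 2 ^ J : ℝ) *
    ∑ I : Finset (Fin J), (if nn M t x w I % H < δ then (1 : ℝ) else 0))

theorem BB_nonneg {J : ℕ} (M G H δ : ℕ) (t : Fin J → ℕ × ℕ) (x w : ℕ) : 0 ≤ BB M G H δ t x w := by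
  unfold BB
  have : 0 ≤ ∑ I : Finset (Fin J), (if nn M t x w I % H < δ then (1 : ℝ) else 0) :=
    Finset.sum_nonneg fun I _ => by split_ifs <;> norm_num
  positivity

theorem trig_w {J : ℕ} {M : ℕ} {𝒬 : Finset ℕ} {G R H : ℕ} {α : ℕ → ℂ} (t : Fin J → ℕ × ℕ)
    (idx : Finset (Fin J) → ℕ) (h𝒬 : ∀ q ∈ 𝒬, q ∈ smo G R) (x : ℕ) :
    Trig G R (fun w => gg M 𝒬 H α t idx x w) := by
  unfold gg
  exact trig_mul _ (trig_sum _ _ fun I _ => trig_psi _ _ _ h𝒬)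

theorem trig_x {J : ℕ} {M : ℕ} {𝒬 : Finset ℕ} {G R H : ℕ} {α : ℕ → ℂ} (t : Fin J → ℕ × ℕ)
    (idx : Finset (Fin J) → ℕ) (h𝒬 : ∀ q ∈ 𝒬, q ∈ smo G R) (w : ℕ) :
    Trig G R (fun x => gg M 𝒬 H α t idx x w) := by
  unfold gg
  refine trig_mul _ (trig_sum _ _ fun I _ => ?_)
  have h1 : (fun x => psi 𝒬 H α (idx I) (nn M t x w I)) =
      fun x => psi 𝒬 H α (idx I) (w * zz (sw I t) + x * (M * yy (sw I t))) := by
    funext x
    congr 1
    unfold nn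
    ring
  rw [h1]
  exact trig_psi _ _ _ h𝒬

/-- a mean of numbers bounded by `2 G^2` on a set -/
theorem mean_sq {J : ℕ} (G : ℕ) (u : Finset (Fin J) → ℂ) (p : Finset (Fin J) → Prop)
    [DecidablePred p] (hu : ∀ I, ‖u I‖ ≤ if p I then 2 * (G : ℝ) ^ 2 else 0) :
    ‖(1 / 2 ^ J : ℂ) * ∑ I : Finset (Fin J), u I‖ ^ 2 ≤
      4 * (G : ℝ) ^ 4 * ((1 / 2 ^ J : ℝ) * ∑ I : Finset (Fin J), (if p I then (1 : ℝ) else 0)) := by
  have h1 : ‖(1 / 2 ^ J : ℂ)‖ = 1 / 2 ^ J := by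
    rw [norm_div, norm_one, norm_pow]
    norm_num
  have h2 : ‖∑ I : Finset (Fin J), u I‖ ≤ ∑ I : Finset (Fin J), ‖u I‖ := norm_sum_le _ _
  have h3 : (∑ I : Finset (Fin J), ‖u I‖) ^ 2 ≤
      (2 : ℝ) ^ J * ∑ I : Finset (Fin J), ‖u I‖ ^ 2 := by
    have h := sq_sum_le_card_mul_sum_sq (s := (Finset.univ : Finset (Finset (Fin J))))
      (f := fun I => ‖u I‖)
    rw [Finset.card_univ, Fintype.card_finset, Fintype.card_fin] at h
    push_cast at h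
    exact h
  have h4 : ∑ I : Finset (Fin J), ‖u I‖ ^ 2 ≤
      4 * (G : ℝ) ^ 4 * ∑ I : Finset (Fin J), (if p I then (1 : ℝ) else 0) := by
    rw [Finset.mul_sum]
    refine Finset.sum_le_sum fun I _ => ?_
    have h5 := hu I
    split_ifs at h5 ⊢ with h6
    · calc ‖u I‖ ^ 2 ≤ (2 * (G : ℝ) ^ 2) ^ 2 := pow_le_pow_left₀ (norm_nonneg _) h5 2
        _ = 4 * (G : ℝ) ^ 4 * 1 := by ring
    · have h7 : ‖u I‖ = 0 := le_antisymm h5 (norm_nonneg _)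
      rw [h7]
      norm_num
  rw [norm_mul, h1, mul_pow]
  have h8 : ‖∑ I : Finset (Fin J), u I‖ ^ 2 ≤ (∑ I : Finset (Fin J), ‖u I‖) ^ 2 :=
    pow_le_pow_left₀ (norm_nonneg _) h2 2
  have h9 : (0 : ℝ) < 2 ^ J := by positivity
  calc (1 / 2 ^ J : ℝ) ^ 2 * ‖∑ I : Finset (Fin J), u I‖ ^ 2
      ≤ (1 / 2 ^ J : ℝ) ^ 2 * ((2 : ℝ) ^ J * (4 * (G : ℝ) ^ 4 *
          ∑ I : Finset (Fin J), (if p I then (1 : ℝ) else 0))) := by
        refine mul_le_mul_of_nonneg_left ?_ (by positivity)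
        exact h8.trans (h3.trans (mul_le_mul_of_nonneg_left h4 h9.le))
    _ = 4 * (G : ℝ) ^ 4 * ((1 / 2 ^ J : ℝ) *
          ∑ I : Finset (Fin J), (if p I then (1 : ℝ) else 0)) := by
        field_simp

/-- the residue of a number in another block, near a smaller number -/
theorem mod_lt {n₀ n H δ : ℕ} (h1 : n₀ ≤ n) (h2 : n < n₀ + δ) (h3 : n / H ≠ n₀ / H) :
    n % H < δ := by
  have h4 : n₀ / H ≤ n / H := Nat.div_le_div_right h1
  have h5 : n₀ / H + 1 ≤ n / H := by omega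
  have h6 := Nat.div_add_mod n H
  rcases Nat.eq_zero_or_pos H with h0 | h0
  · rw [h0, Nat.div_zero, Nat.div_zero] at h3
    exact absurd rfl h3
  · have h7 : n₀ < H * (n₀ / H + 1) := by
      have := Nat.lt_mul_div_succ n₀ h0
      simpa using this
    have h8 : H * (n₀ / H + 1) ≤ H * (n / H) := Nat.mul_le_mul_left _ h5
    omega

/-- the error on a box -/
theorem box_err {J : ℕ} {M G H δ ξ T : ℕ} {𝒬 : Finset ℕ} {α : ℕ → ℂ} (t : Fin J → ℕ × ℕ)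
    (hα : ∀ n, ‖α n‖ ≤ 1) (h𝒬 : ∀ q ∈ 𝒬, 1 ≤ q ∧ q ≤ G)
    (hy : ∀ I, yy (sw I t) ≤ T) (hz : ∀ I, zz (sw I t) ≤ T) (hz0 : ∀ I, 1 ≤ zz (sw I t))
    (hδ : T * (M * ξ + ξ) ≤ δ) (x₀ w₀ x w : ℕ) (hx : x ∈ Ioc x₀ (x₀ + ξ))
    (hw : w ∈ Ioc w₀ (w₀ + ξ)) :
    ‖AA M (PQ 𝒬 H α) t x w -
      gg M 𝒬 H α t (fun I => nn M t (x₀ + 1) (w₀ + 1) I / H) x w‖ ^ 2 ≤ BB M G H δ t x w := by
  rw [Finset.mem_Ioc] at hx hw
  have h1 : AA M (PQ 𝒬 H α) t x w -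
      gg M 𝒬 H α t (fun I => nn M t (x₀ + 1) (w₀ + 1) I / H) x w =
      (1 / 2 ^ J : ℂ) * ∑ I : Finset (Fin J), (psi 𝒬 H α (nn M t x w I / H) (nn M t x w I) -
        psi 𝒬 H α (nn M t (x₀ + 1) (w₀ + 1) I / H) (nn M t x w I)) := by
    rw [Finset.sum_sub_distrib, mul_sub]
    rfl
  rw [h1]
  unfold BB
  refine mean_sq G _ (fun I => nn M t x w I % H < δ) fun I => ?_
  by_cases hb : nn M t x w I / H = nn M t (x₀ + 1) (w₀ + 1) I / H
  · rw [hb, sub_self, norm_zero]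
    split_ifs
    · positivity
    · exact le_rfl
  · have h2 : nn M t (x₀ + 1) (w₀ + 1) I ≤ nn M t x w I := by
      unfold nn
      have ha : x₀ + 1 ≤ x := hx.1
      have hb' : w₀ + 1 ≤ w := hw.1
      gcongr
    have h3 : nn M t x w I < nn M t (x₀ + 1) (w₀ + 1) I + δ := by
      unfold nn
      obtain ⟨dx, rfl⟩ : ∃ dx, x = x₀ + 1 + dx := ⟨x - (x₀ + 1), by omega⟩
      obtain ⟨dw, rfl⟩ : ∃ dw, w = w₀ + 1 + dw := ⟨w - (w₀ + 1), by omega⟩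
      have hdx : dx ≤ ξ := by omega
      have hdw : dw + 1 ≤ ξ := by omega
      have e1 : M * dx * yy (sw I t) ≤ M * ξ * T := by
        have := hy I
        gcongr
      have e2 : dw * zz (sw I t) < ξ * T := by
        have h5 := hz I
        have h6 := hz0 I
        calc dw * zz (sw I t) < (dw + 1) * zz (sw I t) := by
              rw [add_mul]
              omega
          _ ≤ ξ * T := Nat.mul_le_mul hdw h5
      have e3 : M * ξ * T + ξ * T ≤ δ := by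
        refine le_trans (le_of_eq ?_) hδ
        ring
      have e4 : M * (x₀ + 1 + dx) * yy (sw I t) + (w₀ + 1 + dw) * zz (sw I t) =
          M * (x₀ + 1) * yy (sw I t) + (w₀ + 1) * zz (sw I t) +
            (M * dx * yy (sw I t) + dw * zz (sw I t)) := by ring
      rw [e4]
      omega
    rw [if_pos (mod_lt h2 h3 hb)]
    calc ‖psi 𝒬 H α (nn M t x w I / H) (nn M t x w I) -
          psi 𝒬 H α (nn M t (x₀ + 1) (w₀ + 1) I / H) (nn M t x w I)‖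
        ≤ ‖psi 𝒬 H α (nn M t x w I / H) (nn M t x w I)‖ +
          ‖psi 𝒬 H α (nn M t (x₀ + 1) (w₀ + 1) I / H) (nn M t x w I)‖ := norm_sub_le _ _
      _ ≤ (G : ℝ) ^ 2 + (G : ℝ) ^ 2 := add_le_add (norm_psi _ _ _ _ _ _ hα h𝒬)
          (norm_psi _ _ _ _ _ _ hα h𝒬)
      _ = 2 * (G : ℝ) ^ 2 := by ring

/-! ### Cutting into boxes -/

theorem sum_cut (f : ℕ → ℝ) (a ξ : ℕ) : ∀ k : ℕ, ∑ x ∈ Ioc a (a + k * ξ), f x =
    ∑ u ∈ range k, ∑ x ∈ Ioc (a + u * ξ) (a + u * ξ + ξ), f x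
  | 0 => by simp
  | k + 1 => by
    rw [Finset.sum_range_succ, ← sum_cut f a ξ k]
    have h1 : a + k * ξ + ξ = a + (k + 1) * ξ := by ring
    rw [h1]
    exact (Finset.sum_Ioc_consecutive f (by omega) (by
      have : k * ξ ≤ (k + 1) * ξ := Nat.mul_le_mul_right _ (Nat.le_succ k)
      omega)).symm

theorem sum_cut2 (F : ℕ → ℕ → ℝ) (a ξ k l : ℕ) :
    ∑ x ∈ Ioc a (a + k * ξ), ∑ w ∈ Ioc 0 (l * ξ), F x w =
      ∑ u ∈ range k, ∑ v ∈ range l, ∑ x ∈ Ioc (a + u * ξ) (a + u * ξ + ξ),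
        ∑ w ∈ Ioc (v * ξ) (v * ξ + ξ), F x w := by
  rw [sum_cut]
  refine Finset.sum_congr rfl fun u _ => ?_
  have h1 : ∀ x, ∑ w ∈ Ioc 0 (l * ξ), F x w =
      ∑ v ∈ range l, ∑ w ∈ Ioc (v * ξ) (v * ξ + ξ), F x w := by
    intro x
    have h2 := sum_cut (F x) 0 ξ l
    simpa using h2
  rw [Finset.sum_congr rfl fun x _ => h1 x, Finset.sum_comm]

/-- from the boxes to the whole range -/
theorem boxes (F A B E : ℕ → ℕ → ℝ) (a ξ k l : ℕ) (K : ℝ)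
    (h : ∀ u ∈ range k, ∀ v ∈ range l,
      ∑ x ∈ Ioc (a + u * ξ) (a + u * ξ + ξ), ∑ w ∈ Ioc (v * ξ) (v * ξ + ξ), F x w ≤
        K * ∑ x ∈ Ioc (a + u * ξ) (a + u * ξ + ξ), ∑ w ∈ Ioc (v * ξ) (v * ξ + ξ), A x w +
        K * ∑ x ∈ Ioc (a + u * ξ) (a + u * ξ + ξ), ∑ w ∈ Ioc (v * ξ) (v * ξ + ξ), B x w +
        2 * ∑ x ∈ Ioc (a + u * ξ) (a + u * ξ + ξ), ∑ w ∈ Ioc (v * ξ) (v * ξ + ξ), E x w) :
    ∑ x ∈ Ioc a (a + k * ξ), ∑ w ∈ Ioc 0 (l * ξ), F x w ≤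
      K * ∑ x ∈ Ioc a (a + k * ξ), ∑ w ∈ Ioc 0 (l * ξ), A x w +
      K * ∑ x ∈ Ioc a (a + k * ξ), ∑ w ∈ Ioc 0 (l * ξ), B x w +
      2 * ∑ x ∈ Ioc a (a + k * ξ), ∑ w ∈ Ioc 0 (l * ξ), E x w := by
  rw [sum_cut2 F, sum_cut2 A, sum_cut2 B, sum_cut2 E, Finset.mul_sum, Finset.mul_sum,
    Finset.mul_sum, ← Finset.sum_add_distrib, ← Finset.sum_add_distrib]
  refine Finset.sum_le_sum fun u hu => ?_
  rw [Finset.mul_sum, Finset.mul_sum, Finset.mul_sum, ← Finset.sum_add_distrib,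
    ← Finset.sum_add_distrib]
  exact Finset.sum_le_sum fun v hv => h u hu v hv

theorem LL_nonneg (m : ℕ) : 0 ≤ LL m := by
  unfold LL
  split_ifs
  · exact Real.log_natCast_nonneg m
  · exact le_rfl

theorem sq_le (a b : ℂ) : ‖a‖ ^ 2 ≤ 2 * ‖b‖ ^ 2 + 2 * ‖a - b‖ ^ 2 := by
  have h1 : ‖a‖ ≤ ‖b‖ + ‖a - b‖ := by
    have := norm_add_le b (a - b)
    rwa [add_sub_cancel] at this
  have h2 : ‖a‖ ^ 2 ≤ (‖b‖ + ‖a - b‖) ^ 2 := pow_le_pow_left₀ (norm_nonneg _) h1 2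
  nlinarith [sq_nonneg (‖b‖ - ‖a - b‖)]

/-- the bound on one box -/
theorem one_box (f g : ℕ → ℕ → ℂ) (L B : ℕ → ℕ → ℝ) (p : ℕ → Prop) [DecidablePred p]
    (x₀ w₀ ξ : ℕ) (K : ℝ) (hK : 0 ≤ K) (hL : ∀ x w, 0 ≤ L x w)
    (hB : ∀ x ∈ Ioc x₀ (x₀ + ξ), ∀ w ∈ Ioc w₀ (w₀ + ξ), ‖f x w - g x w‖ ^ 2 ≤ B x w)
    (hbox : ∑ x ∈ (Ioc x₀ (x₀ + ξ)).filter p, ∑ w ∈ Ioc w₀ (w₀ + ξ), L x w * ‖g x w‖ ^ 2 ≤
      K * ∑ x ∈ Ioc x₀ (x₀ + ξ), ∑ w ∈ Ioc w₀ (w₀ + ξ), ‖g x w‖ ^ 2) :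
    ∑ x ∈ Ioc x₀ (x₀ + ξ), ∑ w ∈ Ioc w₀ (w₀ + ξ), (if p x then L x w * ‖f x w‖ ^ 2 else 0) ≤
      (4 * K) * ∑ x ∈ Ioc x₀ (x₀ + ξ), ∑ w ∈ Ioc w₀ (w₀ + ξ), ‖f x w‖ ^ 2 +
      (4 * K) * ∑ x ∈ Ioc x₀ (x₀ + ξ), ∑ w ∈ Ioc w₀ (w₀ + ξ), B x w +
      2 * ∑ x ∈ Ioc x₀ (x₀ + ξ), ∑ w ∈ Ioc w₀ (w₀ + ξ), (if p x then L x w * B x w else 0) := by
  have h1 : ∑ x ∈ Ioc x₀ (x₀ + ξ), ∑ w ∈ Ioc w₀ (w₀ + ξ), (if p x then L x w * ‖f x w‖ ^ 2 else 0) ≤
      2 * ∑ x ∈ (Ioc x₀ (x₀ + ξ)).filter p, ∑ w ∈ Ioc w₀ (w₀ + ξ), L x w * ‖g x w‖ ^ 2 +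
      2 * ∑ x ∈ Ioc x₀ (x₀ + ξ), ∑ w ∈ Ioc w₀ (w₀ + ξ), (if p x then L x w * B x w else 0) := by
    rw [Finset.sum_filter, Finset.mul_sum, Finset.mul_sum, ← Finset.sum_add_distrib]
    refine Finset.sum_le_sum fun x hx => ?_
    by_cases hp : p x
    · simp only [if_pos hp]
      rw [Finset.mul_sum, Finset.mul_sum, ← Finset.sum_add_distrib]
      refine Finset.sum_le_sum fun w hw => ?_
      have h2 := sq_le (f x w) (g x w)
      have h3 := hB x hx w hw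
      have h4 := hL x w
      calc L x w * ‖f x w‖ ^ 2 ≤ L x w * (2 * ‖g x w‖ ^ 2 + 2 * B x w) :=
            mul_le_mul_of_nonneg_left (by linarith) h4
        _ = 2 * (L x w * ‖g x w‖ ^ 2) + 2 * (L x w * B x w) := by ring
    · simp only [if_neg hp]
      simp
  have h5 : ∑ x ∈ Ioc x₀ (x₀ + ξ), ∑ w ∈ Ioc w₀ (w₀ + ξ), ‖g x w‖ ^ 2 ≤
      2 * ∑ x ∈ Ioc x₀ (x₀ + ξ), ∑ w ∈ Ioc w₀ (w₀ + ξ), ‖f x w‖ ^ 2 +
      2 * ∑ x ∈ Ioc x₀ (x₀ + ξ), ∑ w ∈ Ioc w₀ (w₀ + ξ), B x w := by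
    rw [Finset.mul_sum, Finset.mul_sum, ← Finset.sum_add_distrib]
    refine Finset.sum_le_sum fun x hx => ?_
    rw [Finset.mul_sum, Finset.mul_sum, ← Finset.sum_add_distrib]
    refine Finset.sum_le_sum fun w hw => ?_
    have h2 := sq_le (g x w) (f x w)
    have h3 := hB x hx w hw
    rw [norm_sub_rev] at h2
    linarith
  have h6 := mul_le_mul_of_nonneg_left h5 hK
  linarith

theorem sum_BB {J : ℕ} (M G H δ : ℕ) (t : Fin J → ℕ × ℕ) (S T : Finset ℕ) (L : ℕ → ℕ → ℝ) (V : ℝ)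
    (h : ∀ I : Finset (Fin J), ∑ x ∈ S, ∑ w ∈ T.filter (fun w => nn M t x w I % H < δ), L x w ≤ V) :
    ∑ x ∈ S, ∑ w ∈ T, L x w * BB M G H δ t x w ≤ 4 * (G : ℝ) ^ 4 * V := by
  have h1 : ∀ x w, L x w * BB M G H δ t x w = 4 * (G : ℝ) ^ 4 * ((1 / 2 ^ J : ℝ) *
      ∑ I : Finset (Fin J), (if nn M t x w I % H < δ then L x w else 0)) := by
    intro x w
    unfold BB
    have h2 : ∑ I : Finset (Fin J), (if nn M t x w I % H < δ then L x w else 0) =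
        L x w * ∑ I : Finset (Fin J), (if nn M t x w I % H < δ then (1 : ℝ) else 0) := by
      rw [Finset.mul_sum]
      refine Finset.sum_congr rfl fun I _ => ?_
      rw [mul_ite, mul_one, mul_zero]
    rw [h2]
    ring
  simp only [h1]
  simp only [← Finset.mul_sum]
  refine mul_le_mul_of_nonneg_left ?_ (by positivity)
  have h3 : ∑ x ∈ S, ∑ w ∈ T, ∑ I : Finset (Fin J), (if nn M t x w I % H < δ then L x w else 0) =
      ∑ I : Finset (Fin J), ∑ x ∈ S, ∑ w ∈ T.filter (fun w => nn M t x w I % H < δ), L x w := by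
    calc ∑ x ∈ S, ∑ w ∈ T, ∑ I : Finset (Fin J), (if nn M t x w I % H < δ then L x w else 0)
        = ∑ x ∈ S, ∑ I : Finset (Fin J), ∑ w ∈ T, (if nn M t x w I % H < δ then L x w else 0) :=
          Finset.sum_congr rfl fun x _ => Finset.sum_comm
      _ = ∑ I : Finset (Fin J), ∑ x ∈ S, ∑ w ∈ T, (if nn M t x w I % H < δ then L x w else 0) :=
          Finset.sum_comm
      _ = _ := by
          refine Finset.sum_congr rfl fun I _ => Finset.sum_congr rfl fun x _ => ?_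
          rw [Finset.sum_filter]
  rw [h3]
  have h4 : ∑ I : Finset (Fin J), ∑ x ∈ S, ∑ w ∈ T.filter (fun w => nn M t x w I % H < δ), L x w ≤
      (2 : ℝ) ^ J * V := by
    calc ∑ I : Finset (Fin J), ∑ x ∈ S, ∑ w ∈ T.filter (fun w => nn M t x w I % H < δ), L x w
        ≤ ∑ I : Finset (Fin J), V := Finset.sum_le_sum fun I _ => h I
      _ = (2 : ℝ) ^ J * V := by
          rw [Finset.sum_const, Finset.card_univ, Fintype.card_finset, Fintype.card_fin,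
            nsmul_eq_mul]
          push_cast
          rfl
  have h5 : (0 : ℝ) < 2 ^ J := by positivity
  calc (1 / 2 ^ J : ℝ) * ∑ I : Finset (Fin J), ∑ x ∈ S,
        ∑ w ∈ T.filter (fun w => nn M t x w I % H < δ), L x w
      ≤ (1 / 2 ^ J : ℝ) * ((2 : ℝ) ^ J * V) := mul_le_mul_of_nonneg_left h4 (by positivity)
    _ = V := by
        field_simp

/-! ### Numbers -/

/-- `Y = X^(1/100)` -/
theorem nums {X : ℕ} (hX : 2 ^ 500 ≤ X) : ∃ Y : ℝ, Y = (X : ℝ) ^ (1 / 100 : ℝ) ∧ 32 ≤ Y ∧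
    Y ^ 100 = X ∧ (X : ℝ) ^ (3 / 5 : ℝ) = Y ^ 60 ∧ (X : ℝ) ^ (99 / 100 : ℝ) = Y ^ 99 := by
  have hX0 : (0 : ℝ) ≤ X := Nat.cast_nonneg X
  have h2 : ((2 : ℝ)) ^ 500 ≤ X := by exact_mod_cast hX
  refine ⟨(X : ℝ) ^ (1 / 100 : ℝ), rfl, ?_, ?_, ?_, ?_⟩
  · by_contra h
    push Not at h
    have h0 : (0 : ℝ) ≤ (X : ℝ) ^ (1 / 100 : ℝ) := Real.rpow_nonneg hX0 _
    have h3 : ((X : ℝ) ^ (1 / 100 : ℝ)) ^ 100 < 32 ^ 100 := pow_lt_pow_left₀ h h0 (by norm_num)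
    have h4 : ((X : ℝ) ^ (1 / 100 : ℝ)) ^ 100 = X := by
      rw [← Real.rpow_natCast, ← Real.rpow_mul hX0]
      norm_num
    have h5 : (32 : ℝ) ^ 100 = 2 ^ 500 := by
      rw [show (32 : ℝ) = 2 ^ 5 by norm_num, ← pow_mul]
    rw [h4, h5] at h3
    exact absurd h3 (not_lt.2 h2)
  · rw [← Real.rpow_natCast, ← Real.rpow_mul hX0]
    norm_num
  · rw [← Real.rpow_natCast, ← Real.rpow_mul hX0]
    norm_num
  · rw [← Real.rpow_natCast, ← Real.rpow_mul hX0]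
    norm_num

/-- the size of the numbers compared with `z ^ 400` -/
theorem big {Y z : ℝ} (hY : 32 ≤ Y) (hz : Y / 2 ≤ z) : 253 * Y ^ 202 ≤ z ^ 400 := by
  have hY0 : 0 ≤ Y := by linarith
  have h1 : (Y / 2) ^ 400 ≤ z ^ 400 := pow_le_pow_left₀ (by linarith) hz 400
  have h2 : (32 : ℝ) ^ 198 ≤ Y ^ 198 := pow_le_pow_left₀ (by norm_num) hY 198
  have h3 : (253 : ℝ) * 2 ^ 400 ≤ 32 ^ 198 := by
    rw [show (32 : ℝ) = 2 ^ 5 by norm_num, ← pow_mul]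
    calc (253 : ℝ) * 2 ^ 400 ≤ 2 ^ 8 * 2 ^ 400 := by
          apply mul_le_mul_of_nonneg_right (by norm_num) (by positivity)
      _ = 2 ^ 408 := by rw [← pow_add]
      _ ≤ 2 ^ (5 * 198) := pow_le_pow_right₀ (by norm_num) (by norm_num)
  have h4 : 253 * Y ^ 202 * 2 ^ 400 ≤ Y ^ 400 := by
    have h5 : Y ^ 400 = Y ^ 202 * Y ^ 198 := by rw [← pow_add]
    have h6 : 0 ≤ Y ^ 202 := by positivity
    calc 253 * Y ^ 202 * 2 ^ 400 = Y ^ 202 * (253 * 2 ^ 400) := by rw [mul_comm 253, mul_assoc]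
      _ ≤ Y ^ 202 * Y ^ 198 := mul_le_mul_of_nonneg_left (h3.trans h2) h6
      _ = Y ^ 400 := h5.symm
  have h7 : 253 * Y ^ 202 ≤ (Y / 2) ^ 400 := by
    rw [div_pow, le_div_iff₀ (by positivity)]
    exact h4
  exact h7.trans h1

theorem log_small : ∃ X₀ : ℕ, ∀ X : ℕ, X₀ ≤ X →
    Real.log X ^ 60 ≤ (X : ℝ) ^ (1 / 100 : ℝ) := by
  have h1 := (isLittleO_log_rpow_rpow_atTop (60 : ℝ) (show (0 : ℝ) < 1 / 100 by norm_num)).bound
    (show (0 : ℝ) < 1 by norm_num)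
  have h2 := (tendsto_natCast_atTop_atTop (R := ℝ)).eventually h1
  obtain ⟨X₀, hX₀⟩ := Filter.eventually_atTop.1 h2
  refine ⟨max X₀ 1, fun X hX => ?_⟩
  have h3 := hX₀ X ((le_max_left _ _).trans hX)
  have hX1 : (1 : ℝ) ≤ X := by exact_mod_cast (le_max_right _ _).trans hX
  have h4 : 0 ≤ Real.log X := Real.log_nonneg hX1
  rw [one_mul, Real.norm_of_nonneg (Real.rpow_nonneg h4 _),
    Real.norm_of_nonneg (Real.rpow_nonneg (by linarith) _)] at h3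
  have h5 : Real.log X ^ (60 : ℝ) = Real.log X ^ 60 := by
    rw [← Real.rpow_natCast]
    norm_num
  rwa [h5] at h3

/-- a power of two between `x` and `2 x` -/
theorem exists_pow {x : ℝ} (hx : 1 ≤ x) : ∃ b : ℕ, x ≤ ((2 ^ b : ℕ) : ℝ) ∧ ((2 ^ b : ℕ) : ℝ) ≤ 2 * x := by
  obtain ⟨n, h1, h2⟩ := exists_nat_pow_near hx (show (1 : ℝ) < 2 by norm_num)
  refine ⟨n + 1, ?_, ?_⟩
  · push_cast
    exact h2.le
  · push_cast
    rw [pow_succ]
    linarith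

/-- a smaller power of two divides -/
theorem dvd_of_le {a b : ℕ} (h : 2 ^ a ≤ 2 ^ b) : 2 ^ a ∣ 2 ^ b :=
  pow_dvd_pow 2 ((Nat.pow_le_pow_iff_right (by norm_num)).1 h)

theorem log_le {R : ℕ} (hR : 2 ≤ R) : Real.log (((2 * R : ℕ) : ℝ) + 1) ≤ 3 * Real.log R := by
  have h2 : (2 : ℝ) ≤ R := by exact_mod_cast hR
  have h : ((2 * R : ℕ) : ℝ) + 1 ≤ (R : ℝ) ^ 3 := by
    push_cast
    have h4 : 4 * (R : ℝ) ≤ (R : ℝ) ^ 3 := by nlinarith [mul_self_nonneg ((R : ℝ) - 2)]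
    linarith
  have h1 := Real.log_le_log (by positivity) h
  rwa [Real.log_pow, Nat.cast_ofNat] at h1

/-- the last step -/
theorem fin {CB CN CX a L K SA SB SE x w ε lr T : ℝ} (hCB : 0 < CB) (hCN : 0 < CN) (hCX : 0 < CX)
    (hL : 0 < L) (hK0 : 0 ≤ K) (hK : K ≤ CB * (a ^ 2 / L)) (hSA : 0 ≤ SA) (hx : 0 ≤ x) (hw : 0 ≤ w)
    (hε : 0 ≤ ε) (hSB : SB ≤ CN * x * w * ε) (hSE : SE ≤ CN * lr * (CX * x / L) * w * ε)
    (hlr : lr ≤ 2 * a ^ 2) (hT : T ≤ 4 * K * SA + 4 * K * SB + 2 * SE) :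
    T ≤ (4 * CB + 4 * CB * CN + 4 * CN * CX) * a ^ 2 / L * (SA + x * w * ε) := by
  have h0 : 0 ≤ a ^ 2 / L := by positivity
  have h1 : 4 * K * SA ≤ 4 * (CB * (a ^ 2 / L)) * SA := by gcongr
  have h2 : 4 * K * SB ≤ 4 * (CB * (a ^ 2 / L)) * (CN * x * w * ε) := by
    calc 4 * K * SB ≤ 4 * K * (CN * x * w * ε) := by gcongr
      _ ≤ 4 * (CB * (a ^ 2 / L)) * (CN * x * w * ε) := by gcongr
  have h3 : 2 * SE ≤ 2 * (CN * (2 * a ^ 2) * (CX * x / L) * w * ε) := by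
    have h4 : CN * lr * (CX * x / L) * w * ε ≤ CN * (2 * a ^ 2) * (CX * x / L) * w * ε := by gcongr
    linarith
  have h5 : 2 * (CN * (2 * a ^ 2) * (CX * x / L) * w * ε) =
      4 * CN * CX * (a ^ 2 / L) * (x * w * ε) := by
    field_simp
    ring
  have h6 : (4 * CB + 4 * CB * CN + 4 * CN * CX) * a ^ 2 / L * (SA + x * w * ε) =
      4 * (CB * (a ^ 2 / L)) * SA + 4 * (CB * (a ^ 2 / L)) * (CN * x * w * ε) +
      4 * CN * CX * (a ^ 2 / L) * (x * w * ε) + (4 * CB * CN + 4 * CN * CX) * (a ^ 2 / L) * SA +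
      4 * CB * (a ^ 2 / L) * (x * w * ε) := by
    field_simp
    ring
  have h7 : 0 ≤ (4 * CB * CN + 4 * CN * CX) * (a ^ 2 / L) * SA := by positivity
  have h8 : 0 ≤ 4 * CB * (a ^ 2 / L) * (x * w * ε) := by positivity
  rw [h6]
  rw [h5] at h3
  linarith

theorem XX_sum (X₁ z₀ : ℕ) (T : Finset ℕ) (F : ℕ → ℕ → ℝ) :
    ∑ x ∈ XX X₁ z₀, ∑ w ∈ T, F x w = ∑ x ∈ Ioc X₁ (2 * X₁), ∑ w ∈ T,
      (if Squarefree x ∧ ∀ p ∈ x.primeFactors, z₀ < p then F x w else 0) := by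
  rw [XX, Finset.sum_filter]
  refine Finset.sum_congr rfl fun x _ => ?_
  split_ifs
  · rfl
  · simp

end F2

theorem t_F2 : M_F2 := by
  intro hBOX hNEAR hXXC hSWA hTB hCF C₁ hC₁
  obtain ⟨CB, hCB, hB⟩ := hBOX
  obtain ⟨CN, hCN, hN⟩ := hNEAR C₁ hC₁
  obtain ⟨CX, hCX, hXc⟩ := hXXC C₁ hC₁
  refine ⟨4 * CB + 4 * CB * CN + 4 * CN * CX, by positivity, ?_⟩
  intro R₁ d
  obtain ⟨XN, hXN⟩ := hN R₁ d
  obtain ⟨XX', hXX'⟩ := hXc R₁ d
  obtain ⟨XC, hXC⟩ := hCF C₁ hC₁ R₁ d (1024 * (pri R₁ : ℝ) ^ 4)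
  obtain ⟨XL, hXL⟩ := F2.log_small
  refine ⟨max (max XN XX') (max (max XC XL) (2 ^ 500)), ?_⟩
  intro X hX J Q X₁ H W P s hcfg hs R' 𝒬 α hRR' hR'up h𝒬 hα t ht
  have hX1 : XN ≤ X := ((le_max_left _ _).trans (le_max_left _ _)).trans hX
  have hX2 : XX' ≤ X := ((le_max_right _ _).trans (le_max_left _ _)).trans hX
  have hX3 : XC ≤ X := ((le_max_left _ _).trans ((le_max_left _ _).trans (le_max_right _ _))).trans hX
  have hX4 : XL ≤ X := ((le_max_right _ _).trans ((le_max_left _ _).trans (le_max_right _ _))).trans hX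
  have hXb : 2 ^ 500 ≤ X := ((le_max_right _ _).trans (le_max_right _ _)).trans hX
  obtain ⟨hK0, hLL1, hp1, hp2, hM1, hMd, hMM, hMQ, hRQ3, -, hHlo, hHhi, -, -, -, -, -, -, hQ16, hJQ, -,
    hxt, hlog3Q, -⟩ := hXC X hX3 J Q X₁ H W P hcfg
  have hlogX := hXL X hX4
  obtain ⟨Y, hY, hY32, hYX, hY60, hY99⟩ := F2.nums hXb
  rw [← hY] at hlogX
  have hX1r : (1 : ℝ) ≤ X := by
    have : 1 ≤ X := le_trans (Nat.one_le_two_pow) hXb
    exact_mod_cast this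
  have hY0 : 0 ≤ Y := by linarith
  have hY1 : 1 ≤ Y := by linarith
  have hR2 := hcfg.R2
  have hJ2 := hcfg.J2
  -- the logarithm
  set l := Real.log X with hl
  have hl0 : 0 ≤ l := Real.log_nonneg hX1r
  have hl1 : 1 ≤ l := by
    by_contra h
    push Not at h
    have := Real.log_nonpos hl0 h.le
    linarith
  have hlK : 1024 * (pri R₁ : ℝ) ^ 4 ≤ l := by
    have h1 := Real.log_le_sub_one_of_pos (show 0 < l by linarith)
    linarith
  -- the number A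
  have hA : ((16 * MM1 R₁ * Q : ℕ) : ℝ) ^ (20 * J) ≤ Y := by
    refine hcfg.sml.trans ?_
    rw [hY]
    apply Real.rpow_le_rpow_of_exponent_le hX1r
    have := hcfg.d1
    linarith
  have hA1 : 1 ≤ 16 * MM1 R₁ * Q := by
    have : 1 ≤ Q := by omega
    nlinarith
  have hQA : Q ≤ 16 * MM1 R₁ * Q := by nlinarith
  have hMA : MM1 R₁ ≤ 16 * MM1 R₁ * Q := by nlinarith
  have hA1r : (1 : ℝ) ≤ ((16 * MM1 R₁ * Q : ℕ) : ℝ) := by exact_mod_cast hA1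
  have hMY : ((MM1 R₁ : ℕ) : ℝ) ≤ Y := by
    have h1 : ((MM1 R₁ : ℕ) : ℝ) ≤ ((16 * MM1 R₁ * Q : ℕ) : ℝ) := by exact_mod_cast hMA
    exact h1.trans ((le_self_pow₀ hA1r (by omega)).trans hA)
  have hQYp : ∀ k : ℕ, k ≤ 20 * J → (Q : ℝ) ^ k ≤ Y := by
    intro k hk
    have h1 : (Q : ℝ) ≤ ((16 * MM1 R₁ * Q : ℕ) : ℝ) := by exact_mod_cast hQA
    calc (Q : ℝ) ^ k ≤ ((16 * MM1 R₁ * Q : ℕ) : ℝ) ^ k :=
          pow_le_pow_left₀ (Nat.cast_nonneg Q) h1 _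
      _ ≤ ((16 * MM1 R₁ * Q : ℕ) : ℝ) ^ (20 * J) := pow_le_pow_right₀ hA1r hk
      _ ≤ Y := hA
  have hQJY : (Q : ℝ) ^ J ≤ Y := hQYp J (by omega)
  have hQ2JY : (Q : ℝ) ^ (2 * J) ≤ Y := hQYp (2 * J) (by omega)
  have hQY : (Q : ℝ) ≤ Y := by
    have := hQYp 1 (by omega)
    rwa [pow_one] at this
  have hMp : pri R₁ ≤ MM1 R₁ := Nat.le_of_dvd hMM hMd
  have hMpY : (pri R₁ : ℝ) ≤ Y := le_trans (by exact_mod_cast hMp) hMY
  have hQ1 : 1 ≤ Q := by omega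
  have hRQ : R₁ ≤ Q := by omega
  -- the tuples
  obtain ⟨-, -, hDD, hswT, -, -, -, -⟩ := hSWA J P
  obtain ⟨hT, -, -⟩ := hTB C₁ Q J (pri R₁) P hcfg.good (by omega) hM1
    (fun p hp => (hp2 p hp).trans hRQ)
  have hswt : ∀ I, sw I t ∈ TT P J := fun I => hswT I t ht
  obtain ⟨hy1, hy3, hz1, hz3, -, -, -, -, -, hDt⟩ := hT t ht
  have hDt' := hDt hJQ
  have hQJ1 : 1 ≤ Q ^ J := Nat.one_le_pow _ _ hQ1
  have hD1 : 1 ≤ DD t := Nat.one_le_iff_ne_zero.2 (Nat.mul_ne_zero (by omega) (by omega))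
  have hD9 : (DD t : ℝ) ≤ 9 * Y := by
    have h1 : DD t ≤ 3 * Q ^ J * (3 * Q ^ J) := Nat.mul_le_mul hy3 hz3
    have h2 : (DD t : ℝ) ≤ 3 * (Q : ℝ) ^ J * (3 * (Q : ℝ) ^ J) := by exact_mod_cast h1
    have h3 : 3 * (Q : ℝ) ^ J * (3 * (Q : ℝ) ^ J) = 9 * (Q : ℝ) ^ (2 * J) := by ring
    rw [h3] at h2
    linarith
  -- the number z
  obtain ⟨z, hzdef⟩ : ∃ z : ℕ, z = ⌊Y⌋₊ := ⟨_, rfl⟩
  have hzle : (z : ℝ) ≤ Y := by rw [hzdef]; exact Nat.floor_le hY0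
  have hzlt : Y < z + 1 := by rw [hzdef]; exact Nat.lt_floor_add_one Y
  have hz2r : Y / 2 ≤ z := by linarith
  have hz2 : 2 ≤ z := by
    have : (2 : ℝ) ≤ z := by linarith
    exact_mod_cast this
  -- the sizes
  have hX₁lo : Y ^ 99 ≤ 2 * X₁ := by
    refine le_trans ?_ hcfg.X₁lo
    rw [← hY99]
    apply Real.rpow_le_rpow_of_exponent_le hX1r
    have := hcfg.d1
    linarith
  have hX₁hi : (X₁ : ℝ) ≤ Y ^ 100 := by
    refine hcfg.X₁hi.trans ?_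
    rw [hYX]
    calc (X : ℝ) ^ (1 - d) ≤ (X : ℝ) ^ (1 : ℝ) := by
          apply Real.rpow_le_rpow_of_exponent_le hX1r
          have := hcfg.d0
          linarith
      _ = X := Real.rpow_one _
  have hHY : Y ^ 99 < 2 * H := by
    refine lt_of_le_of_lt ?_ hHlo
    rw [← hY99]
    apply Real.rpow_le_rpow_of_exponent_le hX1r
    have := hcfg.d1
    linarith
  have hW : (W : ℝ) ≤ 7 * Y ^ 100 := by
    have h1 : W ≤ 7 * X := by
      refine le_trans ?_ hcfg.Whi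
      exact Nat.le_mul_of_pos_right _ (by positivity)
    have h2 : (W : ℝ) ≤ 7 * X := by exact_mod_cast h1
    rwa [hYX]
  have hWlo : 3 * Y ^ 99 ≤ W := by
    have h1 : 3 * (X : ℝ) ≤ W * (Q : ℝ) ^ J := by exact_mod_cast hcfg.Wlo
    have h2 : 3 * Y ^ 100 ≤ W * Y := by
      rw [hYX]
      exact h1.trans (mul_le_mul_of_nonneg_left hQJY (Nat.cast_nonneg _))
    have h3 : 3 * Y ^ 99 * Y ≤ W * Y := by
      refine le_trans (le_of_eq ?_) h2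
      ring
    exact le_of_mul_le_mul_right h3 (by linarith)
  have hY50 : 1 ≤ Y ^ 50 := one_le_pow₀ hY1
  have hYp : ∀ {a b : ℕ}, a ≤ b → Y ^ a ≤ Y ^ b := fun h => pow_le_pow_right₀ hY1 h
  -- the side of the boxes
  obtain ⟨b, hb1, hb2⟩ := F2.exists_pow hY50
  obtain ⟨ξ, hξ⟩ : ∃ ξ : ℕ, ξ = 2 ^ b := ⟨_, rfl⟩
  rw [← hξ] at hb1 hb2
  obtain ⟨b1, hb1'⟩ := hcfg.X₁p
  obtain ⟨b2, hb2'⟩ := hcfg.Wp
  have hY99' : 4 * Y ^ 50 ≤ Y ^ 99 := by
    have h1 : Y ^ 99 = Y ^ 50 * Y ^ 49 := by ring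
    rw [h1, mul_comm 4]
    apply mul_le_mul_of_nonneg_left _ (by positivity)
    calc (4 : ℝ) ≤ Y ^ 1 := by linarith
      _ ≤ Y ^ 49 := hYp (by norm_num)
  have hξX : ξ ∣ X₁ := by
    rw [hξ, hb1']
    apply F2.dvd_of_le
    rw [← hξ, ← hb1']
    have : (ξ : ℝ) ≤ X₁ := by linarith
    exact_mod_cast this
  have hξW : ξ ∣ W := by
    rw [hξ, hb2']
    apply F2.dvd_of_le
    rw [← hξ, ← hb2']
    have : (ξ : ℝ) ≤ W := by nlinarith
    exact_mod_cast this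
  obtain ⟨k, hk⟩ := hξX
  obtain ⟨m, hm⟩ := hξW
  rw [mul_comm] at hk hm
  -- the number δ
  obtain ⟨δ, hδ⟩ : ∃ δ : ℕ, δ = ⌊(H : ℝ) / l ^ 60⌋₊ := ⟨_, rfl⟩
  have hl60 : 1 ≤ l ^ 60 := one_le_pow₀ hl1
  have hHl : 0 ≤ (H : ℝ) / l ^ 60 := by positivity
  have hδle : (δ : ℝ) ≤ (H : ℝ) / l ^ 60 := by rw [hδ]; exact Nat.floor_le hHl
  have hδlt : (H : ℝ) / l ^ 60 < δ + 1 := by rw [hδ]; exact Nat.lt_floor_add_one _
  have hδlo : Y ^ 97 ≤ δ := by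
    have h1 : Y ^ 98 / 2 ≤ (H : ℝ) / l ^ 60 := by
      rw [le_div_iff₀ (by linarith)]
      calc Y ^ 98 / 2 * l ^ 60 ≤ Y ^ 98 / 2 * Y :=
            mul_le_mul_of_nonneg_left hlogX (by positivity)
        _ = Y ^ 99 / 2 := by ring
        _ ≤ H := by linarith
    have h2 : Y ^ 98 = Y ^ 97 * Y := by ring
    have h3 : 1 ≤ Y ^ 97 := one_le_pow₀ hY1
    have h4 : 4 * Y ^ 97 ≤ Y ^ 98 := by
      rw [h2, mul_comm 4]
      exact mul_le_mul_of_nonneg_left (by linarith) (by positivity)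
    linarith
  have hδH : δ ≤ H := by
    have h1 : (δ : ℝ) ≤ H := hδle.trans (div_le_self (Nat.cast_nonneg _) hl60)
    exact_mod_cast h1
  have hδ35 : (X : ℝ) ^ (3 / 5 : ℝ) ≤ δ := by
    rw [hY60]
    exact (hYp (by norm_num)).trans hδlo
  have hHpos : (0 : ℝ) < H := by
    have : 0 < Y ^ 99 := by positivity
    linarith
  have hδdiv : (δ : ℝ) / H ≤ 1 / l ^ 60 := by
    rw [div_le_div_iff₀ hHpos (by positivity), one_mul]
    rw [le_div_iff₀ (by positivity)] at hδle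
    exact hδle
  have hbox : 3 * Q ^ J * (pri R₁ * ξ + ξ) ≤ δ := by
    have h1 : 3 * (Q : ℝ) ^ J * ((pri R₁ : ℝ) * ξ + ξ) ≤ 3 * Y * (Y * (2 * Y ^ 50) + 2 * Y ^ 50) := by
      gcongr
    have h2 : 3 * Y * (Y * (2 * Y ^ 50) + 2 * Y ^ 50) ≤ Y ^ 97 := by
      have h3 : 3 * Y * (Y * (2 * Y ^ 50) + 2 * Y ^ 50) = 6 * Y ^ 52 + 6 * Y ^ 51 := by ring
      have h4 : Y ^ 51 ≤ Y ^ 52 := hYp (by norm_num)
      have h5 : 12 * Y ^ 52 ≤ Y ^ 53 := by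
        have h6 : Y ^ 53 = Y ^ 52 * Y := by ring
        rw [h6, mul_comm 12]
        exact mul_le_mul_of_nonneg_left (by linarith) (by positivity)
      have h7 : Y ^ 53 ≤ Y ^ 97 := hYp (by norm_num)
      rw [h3]
      linarith
    have h8 : ((3 * Q ^ J * (pri R₁ * ξ + ξ) : ℕ) : ℝ) ≤ δ := by
      push_cast
      exact (h1.trans h2).trans hδlo
    exact_mod_cast h8
  -- the moduli
  obtain ⟨G, hG⟩ : ∃ G : ℕ, G = 2 * pri R₁ * R' := ⟨_, rfl⟩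
  have hR'2 : 2 ≤ R' := hR2.trans hRR'
  have hG1 : 1 ≤ G := by
    rw [hG]
    exact Nat.one_le_iff_ne_zero.2 (Nat.mul_ne_zero (by omega) (by omega))
  have h𝒬1 : ∀ q ∈ 𝒬, 1 ≤ q ∧ q ≤ G := fun q hq => by
    rw [hG]
    exact ⟨(h𝒬 q hq).1, (h𝒬 q hq).2.1⟩
  have h𝒬s : ∀ q ∈ 𝒬, q ∈ smo G (2 * R') := fun q hq => by
    rw [smo, Finset.mem_filter, Finset.mem_Icc]
    exact ⟨h𝒬1 q hq, (h𝒬 q hq).2.2⟩
  have hGl : (G : ℝ) ≤ 4 * pri R₁ * l ^ 6 := by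
    rw [hG]
    push_cast
    calc 2 * (pri R₁ : ℝ) * R' ≤ 2 * (pri R₁ : ℝ) * (2 * l ^ 6) :=
          mul_le_mul_of_nonneg_left hR'up (by positivity)
      _ = 4 * pri R₁ * l ^ 6 := by ring
  have hl6 : l ^ 6 ≤ Y := (pow_le_pow_right₀ hl1 (by norm_num)).trans hlogX
  have hGY : (G : ℝ) ≤ 4 * Y ^ 2 := by
    refine hGl.trans ?_
    calc 4 * (pri R₁ : ℝ) * l ^ 6 ≤ 4 * Y * Y := by gcongr
      _ = 4 * Y ^ 2 := by ring
  have hG4 : 4 * (G : ℝ) ^ 4 * ((δ : ℝ) / H) ≤ 1 / l ^ 10 := by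
    have h1 : 4 * (G : ℝ) ^ 4 ≤ l ^ 25 := by
      calc 4 * (G : ℝ) ^ 4 ≤ 4 * (4 * pri R₁ * l ^ 6) ^ 4 := by gcongr
        _ = (1024 * (pri R₁ : ℝ) ^ 4) * l ^ 24 := by ring
        _ ≤ l * l ^ 24 := mul_le_mul_of_nonneg_right hlK (by positivity)
        _ = l ^ 25 := by ring
    calc 4 * (G : ℝ) ^ 4 * ((δ : ℝ) / H) ≤ l ^ 25 * (1 / l ^ 60) :=
          mul_le_mul h1 hδdiv (by positivity) (by positivity)
      _ = l ^ 25 / l ^ 60 := by ring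
      _ ≤ 1 / l ^ 10 := by
          rw [div_le_div_iff₀ (by positivity) (by positivity), one_mul, ← pow_add]
          exact pow_le_pow_right₀ hl1 (by norm_num)
  -- NEAR for all exchanges
  have hnear : ∀ I : Finset (Fin J),
      ∑ x ∈ XX X₁ (3 * Q), ∑ w ∈ (Ioc 0 W).filter (fun w => F2.nn (pri R₁) t x w I % H < δ),
        LL (mv s (pri R₁ * DD t * x * w)) ≤
        CN * Real.log R₁ * (XX X₁ (3 * Q)).card * W * ((δ : ℝ) / H) ∧
      ∑ x ∈ Ioc X₁ (2 * X₁),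
        (((Ioc 0 W).filter (fun w => F2.nn (pri R₁) t x w I % H < δ)).card : ℝ) ≤
        CN * X₁ * W * ((δ : ℝ) / H) := by
    intro I
    have h1 := hXN X hX1 J Q X₁ H W P s hcfg hs (sw I t) (hswt I) δ hδ35 hδH
    rw [hDD] at h1
    exact h1
  -- the constant of the sieve on the boxes
  have hlogR' : 0 < Real.log R' := Real.log_pos (by
    have : (2 : ℝ) ≤ R' := by exact_mod_cast hR'2
    linarith)
  have hLLpos : 0 < Real.log l := by linarith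
  obtain ⟨K, hK⟩ : ∃ K : ℝ, K = CB * Real.log (((2 * R' : ℕ) : ℝ) + 1) ^ 2 /
      Real.log ((3 * Q : ℕ) : ℝ) := ⟨_, rfl⟩
  have hlog3Q' : 100 * Real.log l ≤ Real.log ((3 * Q : ℕ) : ℝ) := by
    push_cast
    exact hlog3Q
  have hlogR0 : 0 ≤ Real.log (((2 * R' : ℕ) : ℝ) + 1) := Real.log_nonneg (by
    have : (0 : ℝ) ≤ ((2 * R' : ℕ) : ℝ) := Nat.cast_nonneg _
    linarith)
  have hK0 : 0 ≤ K := by
    rw [hK]
    have : 0 ≤ Real.log ((3 * Q : ℕ) : ℝ) := by linarith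
    positivity
  have hKle : K ≤ CB * (Real.log R' ^ 2 / Real.log l) := by
    rw [hK, mul_div_assoc]
    refine mul_le_mul_of_nonneg_left ?_ hCB.le
    have h1 := F2.log_le hR'2
    have h2 : Real.log (((2 * R' : ℕ) : ℝ) + 1) ^ 2 ≤ 9 * Real.log R' ^ 2 := by
      calc Real.log (((2 * R' : ℕ) : ℝ) + 1) ^ 2 ≤ (3 * Real.log R') ^ 2 :=
            pow_le_pow_left₀ hlogR0 h1 2
        _ = 9 * Real.log R' ^ 2 := by ring
    calc Real.log (((2 * R' : ℕ) : ℝ) + 1) ^ 2 / Real.log ((3 * Q : ℕ) : ℝ)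
        ≤ (9 * Real.log R' ^ 2) / (100 * Real.log l) := by
          apply div_le_div₀ (by positivity) h2 (by positivity) hlog3Q'
      _ ≤ Real.log R' ^ 2 / Real.log l := by
          rw [div_le_div_iff₀ (by positivity) hLLpos]
          have h3 : 0 ≤ Real.log R' ^ 2 * Real.log l := by positivity
          nlinarith
  -- the boxes
  have hXX₁ : X₁ + k * ξ = 2 * X₁ := by omega
  have hkey := F2.boxes
    (fun x w => if Squarefree x ∧ ∀ p ∈ x.primeFactors, 3 * Q < p then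
      LL (mv s (pri R₁ * DD t * x * w)) * ‖AA (pri R₁) (PQ 𝒬 H α) t x w‖ ^ 2 else 0)
    (fun x w => ‖AA (pri R₁) (PQ 𝒬 H α) t x w‖ ^ 2)
    (fun x w => F2.BB (pri R₁) G H δ t x w)
    (fun x w => if Squarefree x ∧ ∀ p ∈ x.primeFactors, 3 * Q < p then
      LL (mv s (pri R₁ * DD t * x * w)) * F2.BB (pri R₁) G H δ t x w else 0)
    X₁ ξ k m (4 * K) (by
      intro u hu v hv
      rw [Finset.mem_range] at hu hv
      have hu1 : X₁ + u * ξ + ξ ≤ 2 * X₁ := by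
        rw [← hXX₁]
        have : (u + 1) * ξ ≤ k * ξ := Nat.mul_le_mul_right _ hu
        rw [add_mul, one_mul] at this
        omega
      have hv1 : v * ξ + ξ ≤ W := by
        rw [hm]
        have : (v + 1) * ξ ≤ m * ξ := Nat.mul_le_mul_right _ hv
        rw [add_mul, one_mul] at this
        exact this
      refine F2.one_box (fun x w => AA (pri R₁) (PQ 𝒬 H α) t x w)
        (fun x w => F2.gg (pri R₁) 𝒬 H α t
          (fun I => F2.nn (pri R₁) t (X₁ + u * ξ + 1) (v * ξ + 1) I / H) x w)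
        (fun x w => LL (mv s (pri R₁ * DD t * x * w)))
        (fun x w => F2.BB (pri R₁) G H δ t x w) _ (X₁ + u * ξ) (v * ξ) ξ K hK0
        (fun x w => F2.LL_nonneg _) ?_ ?_
      · intro x hx w hw
        exact F2.box_err (T := 3 * Q ^ J) t hα h𝒬1
          (fun I => (hT (sw I t) (hswt I)).2.1)
          (fun I => (hT (sw I t) (hswt I)).2.2.2.1)
          (fun I => hQJ1.trans (hT (sw I t) (hswt I)).2.2.1)
          hbox _ _ x w hx hw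
      · rw [hK]
        refine hB s (pri R₁) (DD t) z (3 * Q) (2 * R') G (X₁ + u * ξ) ξ (v * ξ) ξ _ _ hs hM1 hD1
          (by omega) hG1 hz2 (by omega) (fun p hp => (hp2 p hp).trans (by omega)) hDt'
          (Finset.filter_subset _ _) ?_ ?_ ?_ ?_ ?_ ?_
        · intro x hx
          rw [Finset.mem_filter, Finset.mem_Ioc] at hx
          obtain ⟨⟨hx1, hx2⟩, hx3, hx4⟩ := hx
          have hxX : x ∈ XX X₁ (3 * Q) := by
            rw [XX, Finset.mem_filter, Finset.mem_Ioc]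
            exact ⟨⟨by omega, by omega⟩, hx3, hx4⟩
          refine ⟨?_, hxt x hxX, hx4⟩
          have h1 : (X₁ : ℝ) < x := by
            have : X₁ < x := by omega
            exact_mod_cast this
          have h2 : Y ^ 2 ≤ Y ^ 99 := hYp (by norm_num)
          have h3 : (z : ℝ) + 2 ≤ x := by nlinarith
          exact_mod_cast h3
        · have h1 : (pri R₁ : ℝ) * DD t ≤ Y * (9 * Y) :=
            mul_le_mul hMpY hD9 (Nat.cast_nonneg _) hY0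
          have hu2 : ((X₁ + u * ξ + ξ : ℕ) : ℝ) ≤ 2 * Y ^ 100 := by
            have h5 : ((X₁ + u * ξ + ξ : ℕ) : ℝ) ≤ 2 * X₁ := by exact_mod_cast hu1
            linarith
          have hv2 : ((v * ξ + ξ : ℕ) : ℝ) ≤ 7 * Y ^ 100 := by
            have h5 : ((v * ξ + ξ : ℕ) : ℝ) ≤ W := by exact_mod_cast hv1
            linarith
          have h2 : (pri R₁ : ℝ) * DD t * ((X₁ + u * ξ + ξ : ℕ) : ℝ) ≤ Y * (9 * Y) * (2 * Y ^ 100) :=
            mul_le_mul h1 hu2 (Nat.cast_nonneg _) (by positivity)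
          have h3 : (pri R₁ : ℝ) * DD t * ((X₁ + u * ξ + ξ : ℕ) : ℝ) * ((v * ξ + ξ : ℕ) : ℝ) ≤
              Y * (9 * Y) * (2 * Y ^ 100) * (7 * Y ^ 100) :=
            mul_le_mul h2 hv2 (Nat.cast_nonneg _) (by positivity)
          have h4 : Y * (9 * Y) * (2 * Y ^ 100) * (7 * Y ^ 100) = 126 * Y ^ 202 := by ring
          have h5 : 1 ≤ Y ^ 202 := one_le_pow₀ hY1
          have h6 := F2.big hY32 hz2r
          have h7 : (pri R₁ : ℝ) * DD t * ((X₁ + u * ξ + ξ : ℕ) : ℝ) * ((v * ξ + ξ : ℕ) : ℝ) + 1 ≤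
              (z : ℝ) ^ 400 := by
            rw [h4] at h3
            linarith
          exact_mod_cast h7
        · have h1 : 16 * ((G : ℝ) * z) ^ 4 ≤ ξ := by
            calc 16 * ((G : ℝ) * z) ^ 4 ≤ 16 * (4 * Y ^ 2 * Y) ^ 4 := by gcongr
              _ = 4096 * Y ^ 12 := by ring
              _ ≤ Y ^ 4 * Y ^ 12 := by
                  refine mul_le_mul_of_nonneg_right ?_ (by positivity)
                  calc (4096 : ℝ) ≤ 32 ^ 4 := by norm_num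
                    _ ≤ Y ^ 4 := pow_le_pow_left₀ (by norm_num) hY32 4
              _ = Y ^ 16 := by ring
              _ ≤ Y ^ 50 := hYp (by norm_num)
              _ ≤ ξ := hb1
          exact_mod_cast h1
        · have h1 : 16 * ((G : ℝ) * ((3 * Q : ℕ) : ℝ)) ^ 4 ≤ ξ := by
            push_cast
            calc 16 * ((G : ℝ) * (3 * (Q : ℝ))) ^ 4 ≤ 16 * (4 * Y ^ 2 * (3 * Y)) ^ 4 := by gcongr
              _ = 331776 * Y ^ 12 := by ring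
              _ ≤ Y ^ 4 * Y ^ 12 := by
                  refine mul_le_mul_of_nonneg_right ?_ (by positivity)
                  calc (331776 : ℝ) ≤ 32 ^ 4 := by norm_num
                    _ ≤ Y ^ 4 := pow_le_pow_left₀ (by norm_num) hY32 4
              _ = Y ^ 16 := by ring
              _ ≤ Y ^ 50 := hYp (by norm_num)
              _ ≤ ξ := hb1
          exact_mod_cast h1
        · intro x
          exact F2.trig_w t _ h𝒬s x
        · intro w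
          exact F2.trig_x t _ h𝒬s w)
  rw [hXX₁, ← hm, ← F2.XX_sum, ← F2.XX_sum] at hkey
  have hε : (0 : ℝ) ≤ 1 / l ^ 10 := by positivity
  have hSB : ∑ x ∈ Ioc X₁ (2 * X₁), ∑ w ∈ Ioc 0 W, F2.BB (pri R₁) G H δ t x w ≤
      CN * X₁ * W * (1 / l ^ 10) := by
    have h1 := F2.sum_BB (pri R₁) G H δ t (Ioc X₁ (2 * X₁)) (Ioc 0 W) (fun _ _ => 1)
      (CN * X₁ * W * ((δ : ℝ) / H)) (fun I => by
        refine le_trans (le_of_eq ?_) (hnear I).2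
        refine Finset.sum_congr rfl fun x _ => ?_
        rw [Finset.sum_const, nsmul_eq_mul, mul_one])
    simp only [one_mul] at h1
    refine h1.trans ?_
    have h2 : 0 ≤ CN * X₁ * (W : ℝ) := by positivity
    calc 4 * (G : ℝ) ^ 4 * (CN * X₁ * W * ((δ : ℝ) / H)) =
          (CN * X₁ * W) * (4 * (G : ℝ) ^ 4 * ((δ : ℝ) / H)) := by ring
      _ ≤ (CN * X₁ * W) * (1 / l ^ 10) := mul_le_mul_of_nonneg_left hG4 h2
  have hlogR₁ : 0 ≤ Real.log R₁ := Real.log_natCast_nonneg _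
  have hXXc := hXX' X hX2 J Q X₁ H W P hcfg
  have hSE : ∑ x ∈ XX X₁ (3 * Q), ∑ w ∈ Ioc 0 W,
      LL (mv s (pri R₁ * DD t * x * w)) * F2.BB (pri R₁) G H δ t x w ≤
      CN * Real.log R₁ * (CX * X₁ / Real.log l) * W * (1 / l ^ 10) := by
    have h1 := F2.sum_BB (pri R₁) G H δ t (XX X₁ (3 * Q)) (Ioc 0 W)
      (fun x w => LL (mv s (pri R₁ * DD t * x * w)))
      (CN * Real.log R₁ * (XX X₁ (3 * Q)).card * W * ((δ : ℝ) / H)) (fun I => (hnear I).1)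
    refine h1.trans ?_
    have h2 : 0 ≤ CN * Real.log R₁ * ((XX X₁ (3 * Q)).card : ℝ) * W := by positivity
    calc 4 * (G : ℝ) ^ 4 * (CN * Real.log R₁ * ((XX X₁ (3 * Q)).card : ℝ) * W * ((δ : ℝ) / H)) =
          (CN * Real.log R₁ * ((XX X₁ (3 * Q)).card : ℝ) * W) * (4 * (G : ℝ) ^ 4 * ((δ : ℝ) / H)) := by
          ring
      _ ≤ (CN * Real.log R₁ * ((XX X₁ (3 * Q)).card : ℝ) * W) * (1 / l ^ 10) :=
          mul_le_mul_of_nonneg_left hG4 h2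
      _ ≤ CN * Real.log R₁ * (CX * X₁ / Real.log l) * W * (1 / l ^ 10) := by
          gcongr
  have hlr : Real.log R₁ ≤ 2 * Real.log R' ^ 2 := by
    have h1 : Real.log R₁ ≤ Real.log R' := Real.log_le_log (by
      have : (2 : ℝ) ≤ R₁ := by exact_mod_cast hR2
      linarith) (by exact_mod_cast hRR')
    have h2 : Real.log 2 ≤ Real.log R' := Real.log_le_log (by norm_num) (by exact_mod_cast hR'2)
    have h3 := Real.log_two_gt_d9
    nlinarith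
  have hSA : 0 ≤ ∑ x ∈ Ioc X₁ (2 * X₁), ∑ w ∈ Ioc 0 W, ‖AA (pri R₁) (PQ 𝒬 H α) t x w‖ ^ 2 :=
    Finset.sum_nonneg fun _ _ => Finset.sum_nonneg fun _ _ => by positivity
  have hres := F2.fin hCB hCN hCX hLLpos hK0 hKle hSA (Nat.cast_nonneg X₁) (Nat.cast_nonneg W) hε
    hSB hSE hlr hkey
  rw [mul_one_div] at hres
  exact hres

end

end MUR
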