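import Mathlib
import Pool.Agent.MUR.StE

set_option autoImplicit false

/-!
# Project MUR, module FIN: few exceptional numbers in `(X, 2X]`
-/

namespace MUR

open Finset IPR
open Pool.Agent.Lib_helper83.EF (e)

noncomputable section

namespace FIN

/-! ### Linearity of the form -/

lemma TF_add (s : ℤ) (M J : ℕ) (P Xs : Finset ℕ) (W : ℕ) (φ ψ : ℕ → ℂ) :
    TF s M J P Xs W (fun n => φ n + ψ n) = TF s M J P Xs W φ + TF s M J P Xs W ψ := by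
  simp only [TF, mul_add, Finset.sum_add_distrib]

lemma TF_sum (s : ℤ) (M J : ℕ) (P Xs : Finset ℕ) (W : ℕ) (S : Finset ℕ) (φ : ℕ → ℕ → ℂ) :
    TF s M J P Xs W (fun n => ∑ i ∈ S, φ i n) = ∑ i ∈ S, TF s M J P Xs W (φ i) := by
  classical
  induction S using Finset.induction_on with
  | empty => simp [TF]
  | insert a S ha ih =>
    simp only [Finset.sum_insert ha]
    rw [TF_add, ih]

lemma TF_ofReal (s : ℤ) (M J : ℕ) (P Xs : Finset ℕ) (W : ℕ) (φ : ℕ → ℝ) :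
    TF s M J P Xs W (fun n => (φ n : ℂ)) =
      ((∑ t ∈ TT P J, ∑ x ∈ Xs, ∑ w ∈ Ioc 0 W,
        LL (mv s (M * DD t * x * w)) * φ (M * x * yy t + w * zz t) : ℝ) : ℂ) := by
  unfold TF
  push_cast
  rfl

/-! ### The indicator of the exceptional numbers -/

open Classical in
/-- The indicator of the exceptional numbers in `(X, 2X]`. -/
def al (s : ℤ) (X n : ℕ) : ℝ := if X < n ∧ n ≤ 2 * X ∧ Exc s n then 1 else 0

lemma al_nonneg (s : ℤ) (X n : ℕ) : 0 ≤ al s X n := by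
  unfold al; split_ifs <;> norm_num

lemma al_le_one (s : ℤ) (X n : ℕ) : al s X n ≤ 1 := by
  unfold al; split_ifs <;> norm_num

lemma al_supp (s : ℤ) (X n : ℕ) (h : al s X n ≠ 0) : X < n ∧ n ≤ 2 * X := by
  unfold al at h
  split_ifs at h with h'
  · exact ⟨h'.1, h'.2.1⟩
  · exact absurd rfl h

lemma al_sq (s : ℤ) (X n : ℕ) : al s X n ^ 2 = al s X n := by
  unfold al; split_ifs <;> norm_num

open Classical in
lemma sum_al (s : ℤ) (X B : ℕ) (hB : 2 * X < B) :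
    ∑ n ∈ range B, al s X n = (((Ioc X (2 * X)).filter (fun n => Exc s n)).card : ℝ) := by
  have h1 : ∀ n, al s X n = if n ∈ (Ioc X (2 * X)).filter (fun n => Exc s n) then (1 : ℝ) else 0 := by
    intro n
    unfold al
    simp only [Finset.mem_filter, Finset.mem_Ioc, and_assoc]
  simp_rw [h1]
  rw [← Finset.sum_filter, Finset.sum_const, nsmul_eq_mul, mul_one]
  congr 1
  congr 1
  ext n
  simp only [Finset.mem_filter, Finset.mem_range, Finset.mem_Ioc]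
  constructor
  · rintro ⟨-, h⟩; exact h
  · rintro ⟨⟨h1, h2⟩, h3⟩; exact ⟨by omega, ⟨h1, h2⟩, h3⟩

lemma sum_al_le (s : ℤ) (X B : ℕ) : ∑ n ∈ range B, al s X n ≤ X := by
  classical
  have h1 : ∀ n ∈ range B, al s X n ≤ if n ∈ Ioc X (2 * X) then (1 : ℝ) else 0 := by
    intro n _
    by_cases h : n ∈ Ioc X (2 * X)
    · rw [if_pos h]; exact al_le_one s X n
    · rw [if_neg h]
      by_contra hc
      have := al_supp s X n (by intro h0; rw [h0] at hc; exact hc le_rfl)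
      exact h (Finset.mem_Ioc.2 this)
  refine (Finset.sum_le_sum h1).trans ?_
  rw [← Finset.sum_filter, Finset.sum_const, nsmul_eq_mul, mul_one]
  have h2 : ((range B).filter (fun n => n ∈ Ioc X (2 * X))).card ≤ (Ioc X (2 * X)).card :=
    Finset.card_le_card (fun n hn => (Finset.mem_filter.1 hn).2)
  have h3 : (Ioc X (2 * X)).card = X := by
    rw [Nat.card_Ioc]; omega
  rw [h3] at h2
  exact_mod_cast h2

lemma pos_of_mem_TT {P : Finset ℕ} {J : ℕ} (hP : ∀ p ∈ P, p.Prime) (t : Fin J → ℕ × ℕ)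
    (ht : t ∈ TT P J) : 0 < yy t ∧ 0 < zz t := by
  classical
  unfold TT at ht
  rw [Finset.mem_filter, Fintype.mem_piFinset] at ht
  constructor
  · unfold yy
    exact Finset.prod_pos fun j _ => (hP _ (Finset.mem_product.1 (ht.1 j)).1).pos
  · unfold zz
    exact Finset.prod_pos fun j _ => (hP _ (Finset.mem_product.1 (ht.1 j)).2).pos

lemma TF_al (s : ℤ) (M J : ℕ) (P Xs : Finset ℕ) (W X : ℕ) (hM : 1 ≤ M)
    (hP : ∀ p ∈ P, p.Prime) (hx : ∀ x ∈ Xs, 1 ≤ x) :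
    TF s M J P Xs W (fun n => (al s X n : ℂ)) = 0 := by
  unfold TF
  refine Finset.sum_eq_zero fun t ht => Finset.sum_eq_zero fun x hxs =>
    Finset.sum_eq_zero fun w hw => ?_
  by_cases h : X < M * x * yy t + w * zz t ∧ M * x * yy t + w * zz t ≤ 2 * X ∧
      Exc s (M * x * yy t + w * zz t)
  · obtain ⟨hyp, hzp⟩ := pos_of_mem_TT hP t ht
    have hx1 := hx x hxs
    have hw1 : 0 < w := (Finset.mem_Ioc.1 hw).1
    have hnp : ¬ (mv s (M * DD t * x * w)).Prime := by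
      intro hpr
      apply h.2.2
      refine ⟨M * x * yy t, w * zz t, by positivity, by positivity, rfl, ?_⟩
      have heq : M * x * yy t * (w * zz t) = M * DD t * x * w := by unfold DD; ring
      rw [heq]; exact hpr
    rw [LL, if_neg hnp]; simp
  · have h0 : al s X (M * x * yy t + w * zz t) = 0 := by
      unfold al; exact if_neg h
    simp only [h0]; simp

/-! ### Conditional expectations -/

lemma EC_supp (M₁ H X : ℕ) (α : ℕ → ℝ) (hα : ∀ n, α n ≠ 0 → X < n ∧ n ≤ 2 * X) (hH : 1 ≤ H)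
    (hHX : H ≤ X) (n : ℕ) (h : EC M₁ H α n ≠ 0) : n < 3 * X := by
  by_contra hn
  rw [not_lt] at hn
  apply h
  unfold EC
  rw [Finset.sum_eq_zero, mul_zero]
  intro n' hn'
  by_contra h0
  have h1 := (hα n' h0).2
  have h2 := (Finset.mem_Ico.1 (Finset.mem_filter.1 hn').1).1
  have h3 : n < n / H * H + H := by
    have := Nat.lt_div_mul_add (a := n) (b := H) (by omega)
    exact this
  omega

lemma EC_congr (M₁ H H₀ : ℕ) (α : ℕ → ℝ) (hd : H₀ ∣ H) (n n' : ℕ) (h1 : n / H₀ = n' / H₀)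
    (h2 : n ≡ n' [MOD M₁]) : EC M₁ H α n = EC M₁ H α n' := by
  obtain ⟨k, rfl⟩ := hd
  have h3 : n / (H₀ * k) = n' / (H₀ * k) := by
    rw [← Nat.div_div_eq_div_mul, ← Nat.div_div_eq_div_mul, h1]
  unfold EC
  rw [h3]
  congr 2
  apply Finset.filter_congr
  intro m _
  exact ⟨fun h => h.trans h2, fun h => h.trans h2.symm⟩

/-! ### Choice of the parameters -/

lemma exists_R1 (C δ : ℝ) (hC : 0 < C) (hδ : 0 < δ) : ∃ R₁ : ℕ, 2 ≤ R₁ ∧ ∀ I : ℕ,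
    C * Real.sqrt (Real.log R₁) * ∑ i ∈ range I, Real.log ((R₁ * 2 ^ i : ℕ) : ℝ) *
      ((R₁ * 2 ^ i : ℕ) : ℝ) ^ (-(1 / 4 : ℝ)) ≤ δ := by
  set q : ℝ := (2 : ℝ) ^ (-(3 / 16 : ℝ)) with hq
  have hq0 : 0 < q := by positivity
  have hq1 : q < 1 := by
    rw [hq]
    exact Real.rpow_lt_one_of_one_lt_of_neg (by norm_num) (by norm_num)
  have hlim : Filter.Tendsto (fun R : ℕ => C * 272 / (1 - q) * (R : ℝ) ^ (-(1 / 8 : ℝ)))
      Filter.atTop (nhds 0) := by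
    have h1 : Filter.Tendsto (fun R : ℕ => (R : ℝ) ^ (-(1 / 8 : ℝ))) Filter.atTop (nhds 0) :=
      (tendsto_rpow_neg_atTop (by norm_num : (0 : ℝ) < 1 / 8)).comp tendsto_natCast_atTop_atTop
    simpa using h1.const_mul (C * 272 / (1 - q))
  have hev := (hlim.eventually (gt_mem_nhds hδ)).and (Filter.eventually_ge_atTop 2)
  obtain ⟨R₁, hR₁, hR2⟩ := hev.exists
  refine ⟨R₁, hR2, fun I => ?_⟩
  have hR0 : (0 : ℝ) < R₁ := by positivity
  have hR1 : (1 : ℝ) ≤ R₁ := by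
    have : 1 ≤ R₁ := by omega
    exact_mod_cast this
  -- the terms
  have hterm : ∀ i ∈ range I, Real.log ((R₁ * 2 ^ i : ℕ) : ℝ) *
      ((R₁ * 2 ^ i : ℕ) : ℝ) ^ (-(1 / 4 : ℝ)) ≤ 16 * (R₁ : ℝ) ^ (-(3 / 16 : ℝ)) * q ^ i := by
    intro i _
    have hp : (0 : ℝ) < ((R₁ * 2 ^ i : ℕ) : ℝ) := by positivity
    have h1 : Real.log ((R₁ * 2 ^ i : ℕ) : ℝ) ≤ ((R₁ * 2 ^ i : ℕ) : ℝ) ^ (1 / 16 : ℝ) / (1 / 16) :=
      Real.log_le_rpow_div hp.le (by norm_num)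
    have h2 : Real.log ((R₁ * 2 ^ i : ℕ) : ℝ) * ((R₁ * 2 ^ i : ℕ) : ℝ) ^ (-(1 / 4 : ℝ)) ≤
        16 * ((R₁ * 2 ^ i : ℕ) : ℝ) ^ (-(3 / 16 : ℝ)) := by
      calc Real.log ((R₁ * 2 ^ i : ℕ) : ℝ) * ((R₁ * 2 ^ i : ℕ) : ℝ) ^ (-(1 / 4 : ℝ))
          ≤ ((R₁ * 2 ^ i : ℕ) : ℝ) ^ (1 / 16 : ℝ) / (1 / 16) *
            ((R₁ * 2 ^ i : ℕ) : ℝ) ^ (-(1 / 4 : ℝ)) :=
            mul_le_mul_of_nonneg_right h1 (Real.rpow_nonneg hp.le _)
        _ = 16 * (((R₁ * 2 ^ i : ℕ) : ℝ) ^ (1 / 16 : ℝ) *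
            ((R₁ * 2 ^ i : ℕ) : ℝ) ^ (-(1 / 4 : ℝ))) := by ring
        _ = 16 * ((R₁ * 2 ^ i : ℕ) : ℝ) ^ (-(3 / 16 : ℝ)) := by
            rw [← Real.rpow_add hp]; norm_num
    refine h2.trans (le_of_eq ?_)
    have h3 : ((R₁ * 2 ^ i : ℕ) : ℝ) ^ (-(3 / 16 : ℝ)) = (R₁ : ℝ) ^ (-(3 / 16 : ℝ)) * q ^ i := by
      push_cast
      rw [Real.mul_rpow hR0.le (by positivity)]
      congr 1
      rw [hq, ← Real.rpow_natCast (2 : ℝ) i, ← Real.rpow_natCast, ← Real.rpow_mul (by norm_num),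
        ← Real.rpow_mul (by norm_num)]
      ring_nf
    rw [h3]; ring
  have hgeo : ∑ i ∈ range I, q ^ i ≤ 1 / (1 - q) := by
    have h1 := sum_le_hasSum (range I) (fun i _ => pow_nonneg hq0.le i)
      (hasSum_geometric_of_lt_one hq0.le hq1)
    rwa [one_div]
  have hsum : ∑ i ∈ range I, Real.log ((R₁ * 2 ^ i : ℕ) : ℝ) *
      ((R₁ * 2 ^ i : ℕ) : ℝ) ^ (-(1 / 4 : ℝ)) ≤ 16 * (R₁ : ℝ) ^ (-(3 / 16 : ℝ)) * (1 / (1 - q)) := by
    refine (Finset.sum_le_sum hterm).trans ?_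
    rw [← Finset.mul_sum]
    exact mul_le_mul_of_nonneg_left hgeo (by positivity)
  have hlog0 : 0 ≤ Real.log R₁ := Real.log_nonneg hR1
  have hsq : Real.sqrt (Real.log R₁) ≤ 17 * (R₁ : ℝ) ^ (1 / 16 : ℝ) := by
    have h1 : Real.sqrt (Real.log R₁) ≤ 1 + Real.log R₁ := by
      rw [Real.sqrt_le_left (by positivity)]
      nlinarith
    have h2 : Real.log R₁ ≤ (R₁ : ℝ) ^ (1 / 16 : ℝ) / (1 / 16) :=
      Real.log_le_rpow_div hR0.le (by norm_num)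
    have h3 : (1 : ℝ) ≤ (R₁ : ℝ) ^ (1 / 16 : ℝ) := Real.one_le_rpow hR1 (by norm_num)
    linarith
  have hs0 : 0 ≤ C * Real.sqrt (Real.log R₁) := by positivity
  calc C * Real.sqrt (Real.log R₁) * ∑ i ∈ range I, Real.log ((R₁ * 2 ^ i : ℕ) : ℝ) *
      ((R₁ * 2 ^ i : ℕ) : ℝ) ^ (-(1 / 4 : ℝ))
      ≤ C * Real.sqrt (Real.log R₁) * (16 * (R₁ : ℝ) ^ (-(3 / 16 : ℝ)) * (1 / (1 - q))) :=
        mul_le_mul_of_nonneg_left hsum hs0
    _ ≤ C * (17 * (R₁ : ℝ) ^ (1 / 16 : ℝ)) * (16 * (R₁ : ℝ) ^ (-(3 / 16 : ℝ)) * (1 / (1 - q))) := by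
        have h1 : 0 < 1 - q := by linarith
        refine mul_le_mul_of_nonneg_right (mul_le_mul_of_nonneg_left hsq hC.le) (by positivity)
    _ = C * 272 / (1 - q) * ((R₁ : ℝ) ^ (1 / 16 : ℝ) * (R₁ : ℝ) ^ (-(3 / 16 : ℝ))) := by ring
    _ = C * 272 / (1 - q) * (R₁ : ℝ) ^ (-(1 / 8 : ℝ)) := by
        rw [← Real.rpow_add hR0]; norm_num
    _ ≤ δ := hR₁.le

lemma lim2 (C δ : ℝ) (hC : 0 < C) (hδ : 0 < δ) : ∀ᶠ y : ℝ in Filter.atTop,
    C * (2 * Real.log (2 * y ^ 6) ^ 2) * y ^ (-(1 / 2 : ℝ)) ≤ δ := by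
  have hlim : Filter.Tendsto (fun y : ℝ => C * 28800 * y ^ (-(3 / 10 : ℝ)))
      Filter.atTop (nhds 0) := by
    simpa using (tendsto_rpow_neg_atTop (by norm_num : (0 : ℝ) < 3 / 10)).const_mul (C * 28800)
  filter_upwards [hlim.eventually (gt_mem_nhds hδ), Filter.eventually_ge_atTop 1] with y hy hy1
  have hy0 : (0 : ℝ) < y := by linarith
  have h0 : 0 ≤ Real.log (2 * y ^ 6) := by
    apply Real.log_nonneg
    nlinarith [one_le_pow₀ hy1 (n := 6)]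
  have h1 : Real.log (2 * y ^ 6) ≤ 120 * y ^ (1 / 10 : ℝ) := by
    have h2 : Real.log (2 * y ^ 6) ≤ (2 * y ^ 6) ^ (1 / 60 : ℝ) / (1 / 60) :=
      Real.log_le_rpow_div (by positivity) (by norm_num)
    have h3 : (2 * y ^ 6) ^ (1 / 60 : ℝ) = (2 : ℝ) ^ (1 / 60 : ℝ) * y ^ (1 / 10 : ℝ) := by
      rw [Real.mul_rpow (by norm_num) (by positivity), ← Real.rpow_natCast y 6,
        ← Real.rpow_mul hy0.le]
      norm_num
    have h4 : (2 : ℝ) ^ (1 / 60 : ℝ) ≤ 2 := by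
      calc (2 : ℝ) ^ (1 / 60 : ℝ) ≤ (2 : ℝ) ^ (1 : ℝ) :=
            Real.rpow_le_rpow_of_exponent_le (by norm_num) (by norm_num)
        _ = 2 := by norm_num
    have h5 : 0 ≤ y ^ (1 / 10 : ℝ) := by positivity
    rw [h3] at h2
    nlinarith
  have h6 : Real.log (2 * y ^ 6) ^ 2 ≤ 14400 * y ^ (1 / 5 : ℝ) := by
    have h7 : Real.log (2 * y ^ 6) ^ 2 ≤ (120 * y ^ (1 / 10 : ℝ)) ^ 2 := by
      exact pow_le_pow_left₀ h0 h1 2
    have h8 : (y ^ (1 / 10 : ℝ)) ^ 2 = y ^ (1 / 5 : ℝ) := by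
      rw [← Real.rpow_natCast, ← Real.rpow_mul hy0.le]; norm_num
    calc Real.log (2 * y ^ 6) ^ 2 ≤ (120 * y ^ (1 / 10 : ℝ)) ^ 2 := h7
      _ = 14400 * (y ^ (1 / 10 : ℝ)) ^ 2 := by ring
      _ = 14400 * y ^ (1 / 5 : ℝ) := by rw [h8]
  calc C * (2 * Real.log (2 * y ^ 6) ^ 2) * y ^ (-(1 / 2 : ℝ))
      ≤ C * (2 * (14400 * y ^ (1 / 5 : ℝ))) * y ^ (-(1 / 2 : ℝ)) := by gcongr
    _ = C * 28800 * (y ^ (1 / 5 : ℝ) * y ^ (-(1 / 2 : ℝ))) := by ring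
    _ = C * 28800 * y ^ (-(3 / 10 : ℝ)) := by rw [← Real.rpow_add hy0]; norm_num
    _ ≤ δ := hy.le

lemma lim3 (δ : ℝ) (hδ : 0 < δ) : ∀ᶠ y : ℝ in Filter.atTop,
    Real.log y ≤ δ * y ^ (1 / 10 : ℝ) := by
  have h := (isLittleO_log_rpow_atTop (by norm_num : (0 : ℝ) < 1 / 10)).bound hδ
  filter_upwards [h, Filter.eventually_ge_atTop 1] with y hy hy1
  have h2 : ‖y ^ (1 / 10 : ℝ)‖ = y ^ (1 / 10 : ℝ) :=
    Real.norm_of_nonneg (Real.rpow_nonneg (by linarith) _)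
  rw [h2] at hy
  exact (le_abs_self _).trans hy

lemma exists_I (R₁ : ℕ) (y : ℝ) (hR : 2 ≤ R₁) (hy : (R₁ : ℝ) ≤ y) :
    ∃ I : ℕ, y ≤ ((R₁ * 2 ^ I : ℕ) : ℝ) ∧ ((R₁ * 2 ^ I : ℕ) : ℝ) ≤ 2 * y := by
  have hR0 : (0 : ℝ) < R₁ := by positivity
  have h1 : 1 ≤ y / R₁ := by rwa [le_div_iff₀ hR0, one_mul]
  obtain ⟨n, hn1, hn2⟩ := exists_nat_pow_near h1 (by norm_num : (1 : ℝ) < 2)
  refine ⟨n + 1, ?_, ?_⟩
  · rw [div_lt_iff₀ hR0] at hn2
    push_cast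
    linarith
  · rw [le_div_iff₀ hR0] at hn1
    push_cast
    rw [pow_succ]
    linarith

/-! ### The core: one scale -/

lemma core (hCF : S_CF) (h1 : S_S1) (hE4 : S_E4) (hQP : S_QP) (s : ℤ) (hs : s = 1 ∨ s = -1)
    (ε C₁ c C₂ C₃ : ℝ) (hε : 0 < ε) (hC₁ : 0 < C₁) (hc : 0 < c) (hC₂ : 0 < C₂) (hC₃ : 0 < C₃)
    (R₁ K : ℕ) (hR2 : 2 ≤ R₁)
    (h2 : ∀ (R₁ : ℕ) (d : ℝ), ∃ X₀ : ℕ, ∀ X : ℕ, X₀ ≤ X →
      ∀ (J Q X₁ H W : ℕ) (P : Finset ℕ) (s : ℤ), Cfg C₁ R₁ X J Q X₁ H W d P → (s = 1 ∨ s = -1) →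
      ∀ (R' : ℕ) (α : ℕ → ℂ), R₁ ≤ R' → (R' : ℝ) ≤ 2 * Real.log X ^ 6 →
      (∀ n, ‖α n‖ ≤ 1) → (∀ n, α n ≠ 0 → X < n ∧ n ≤ 2 * X) →
      ‖TF s (pri R₁) J P (XX X₁ (3 * Q)) W (PQ (QS (pri R₁) (MM1 R₁) R' (2 * R')) H α)‖ ≤
        C₂ * Real.sqrt (Real.log R₁) * Real.log R' *
          ((R' : ℝ) ^ (-(1 / 4 : ℝ)) + Real.log X ^ (-(1 / 2 : ℝ))) * KK X J Q X₁ P /
          Real.log (Real.log X))
    (h3 : ∀ (R₁ : ℕ) (d : ℝ), ∃ X₀ : ℕ, ∀ X : ℕ, X₀ ≤ X →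
      ∀ (J Q X₁ H W : ℕ) (P : Finset ℕ) (s : ℤ), Cfg C₁ R₁ X J Q X₁ H W d P → (s = 1 ∨ s = -1) →
      ∀ G : ℕ → ℝ, (∀ n n' : ℕ, n / H = n' / H → n ≡ n' [MOD MM1 R₁] → G n = G n') →
      (∀ n, G n ≠ 0 → n < 3 * X) →
      ‖TF s (pri R₁) J P (XX X₁ (3 * Q)) W (fun n => (G n : ℂ))‖ ≤
        C₃ * Real.log R₁ * Real.sqrt ((∑ n ∈ range (4 * X), G n ^ 2) / X) * KK X J Q X₁ P /
          Real.log (Real.log X))
    (h4 : ∀ (R₁ : ℕ) (d : ℝ), ∃ X₀ : ℕ, ∀ X : ℕ, X₀ ≤ X →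
      ∀ (J Q X₁ H W : ℕ) (P : Finset ℕ) (s : ℤ), Cfg C₁ R₁ X J Q X₁ H W d P → (s = 1 ∨ s = -1) →
      ∀ α : ℕ → ℝ, (∀ n, 0 ≤ α n) → (∀ n, α n ≠ 0 → X < n ∧ n ≤ 2 * X) →
      c * KK X J Q X₁ P / (X * Real.log (Real.log X)) * ∑ n ∈ range (4 * X), α n ≤
        ∑ t ∈ TT P J, ∑ x ∈ XX X₁ (3 * Q), ∑ w ∈ Ioc 0 W, LL (mv s (pri R₁ * DD t * x * w)) *
          EC (MM1 R₁) (HL (MM1 R₁) X (d / 100)) α (pri R₁ * x * yy t + w * zz t))
    (hR : ∀ I : ℕ, C₂ * Real.sqrt (Real.log R₁) * ∑ i ∈ range I,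
      Real.log ((R₁ * 2 ^ i : ℕ) : ℝ) * ((R₁ * 2 ^ i : ℕ) : ℝ) ^ (-(1 / 4 : ℝ)) ≤ c * ε / 8)
    (hK : C₃ * Real.log R₁ * Real.sqrt (1 / (K + 1)) ≤ c * ε / 8) (d : ℝ) (hd0 : 0 < d)
    (hd1 : d ≤ 1 / 100) :
    ∃ X₀ : ℕ, ∀ X : ℕ, X₀ ≤ X → ∀ (J Q X₁ H W : ℕ) (P : Finset ℕ), Cfg C₁ R₁ X J Q X₁ H W d P →
      ∑ n ∈ range (4 * X), (EC (MM1 R₁) H (al s X) n -
        EC (MM1 R₁) (HL (MM1 R₁) X (d / 100)) (al s X) n) ^ 2 ≤ X / (K + 1) →
      ∑ n ∈ range (4 * X), al s X n ≤ ε * X := by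
  obtain ⟨x0, hx0⟩ := hCF C₁ hC₁ R₁ d 0
  obtain ⟨x1, hx1⟩ := h1 C₁ hC₁ R₁ d
  obtain ⟨x2, hx2⟩ := h2 R₁ d
  obtain ⟨x3, hx3⟩ := h3 R₁ d
  obtain ⟨x4, hx4⟩ := h4 R₁ d
  have hlogX : Filter.Tendsto (fun X : ℕ => Real.log (X : ℝ)) Filter.atTop Filter.atTop :=
    Real.tendsto_log_atTop.comp tendsto_natCast_atTop_atTop
  have e2 := hlogX.eventually (lim2 (C₂ * Real.sqrt (Real.log R₁)+1) (c * ε / 8) (by positivity)
    (by positivity))
  have e3 := hlogX.eventually (lim3 (c * ε / 8) (by positivity))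
  have e4 := hlogX.eventually (Filter.eventually_ge_atTop ((MM1 R₁ : ℝ) + R₁ + 2))
  obtain ⟨x5, hx5⟩ := Filter.eventually_atTop.1 (e2.and (e3.and e4))
  refine ⟨x0 + x1 + x2 + x3 + x4 + x5 + 1, fun X hX J Q X₁ H W P cfg hen => ?_⟩
  obtain ⟨-, hL1, -, -, hM1, -, hMM1, -, -, hMH, -, hHX, hMH', -, hH'X, -, -, hPc, hQ16, -, -, -, -,
    -⟩ := hx0 X (by omega) J Q X₁ H W P cfg
  obtain ⟨l2, l3, l4⟩ := hx5 X (by omega)
  have hX1 : 1 ≤ X := by omega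
  have hXR : (0 : ℝ) < X := by exact_mod_cast hX1
  have hXR1 : (1 : ℝ) ≤ X := by exact_mod_cast hX1
  set Y : ℝ := Real.log X with hY
  set L : ℝ := Real.log Y with hL
  have hL0 : 0 < L := by linarith
  have hMM0 : (0 : ℝ) ≤ (MM1 R₁ : ℝ) := by positivity
  have hRR : (2 : ℝ) ≤ R₁ := by exact_mod_cast hR2
  have hY1 : 1 ≤ Y := by linarith
  have hY0 : 0 < Y := by linarith
  have hY6 : Y ≤ Y ^ 6 := le_self_pow₀ hY1 (by norm_num)
  obtain ⟨I, hI1, hI2⟩ := exists_I R₁ (Y ^ 6) hR2 (by linarith)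
  -- positivity of KK
  have hJ2 := cfg.J2
  have hPpos : 0 < P.card := by nlinarith
  have hX₁pos : 0 < X₁ := by
    obtain ⟨b, hb⟩ := cfg.X₁p
    rw [hb]; positivity
  have hKK : 0 < KK X J Q X₁ P := by
    unfold KK
    have hq : (0 : ℝ) < Q := by
      have : 0 < Q := by omega
      exact_mod_cast this
    have hp : (0 : ℝ) < P.card := by exact_mod_cast hPpos
    have hx : (0 : ℝ) < X₁ := by exact_mod_cast hX₁pos
    positivity
  set N : ℝ := KK X J Q X₁ P / L with hN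
  have hN0 : 0 < N := by positivity
  -- facts on H, H'
  have hHeq := cfg.HH
  have hHpos : 1 ≤ H := by
    rw [hHeq]; unfold HL
    exact Nat.one_le_iff_ne_zero.2 (by positivity)
  set H' : ℕ := HL (MM1 R₁) X (d / 100) with hH'
  have hH'pos : 1 ≤ H' := by
    rw [hH']; unfold HL
    exact Nat.one_le_iff_ne_zero.2 (by positivity)
  have hHleX : H ≤ X := by
    have h5 : (X : ℝ) ^ (1 - d) ≤ X := by
      calc (X : ℝ) ^ (1 - d) ≤ (X : ℝ) ^ (1 : ℝ) :=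
            Real.rpow_le_rpow_of_exponent_le hXR1 (by linarith)
        _ = X := Real.rpow_one _
    exact_mod_cast hHX.trans h5
  have hH'leX : H' ≤ X := by
    have h5 : (X : ℝ) ^ (1 - d / 100) ≤ X := by
      calc (X : ℝ) ^ (1 - d / 100) ≤ (X : ℝ) ^ (1 : ℝ) :=
            Real.rpow_le_rpow_of_exponent_le hXR1 (by linarith)
        _ = X := Real.rpow_one _
    exact_mod_cast hH'X.trans h5
  have hHH' : H ∣ H' := by
    rw [hHeq, hH']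
    unfold HL
    apply Nat.mul_dvd_mul_left
    apply pow_dvd_pow
    apply Nat.log_mono_right
    apply Nat.div_le_div_right
    apply Nat.floor_le_floor
    apply Real.rpow_le_rpow_of_exponent_le hXR1
    linarith
  -- the pieces
  set α : ℕ → ℝ := al s X with hα
  set αc : ℕ → ℂ := fun n => (α n : ℂ) with hαc
  have hαn : ∀ n, ‖αc n‖ ≤ 1 := by
    intro n
    rw [hαc]
    simp only [Complex.norm_real, Real.norm_eq_abs]
    rw [abs_of_nonneg (al_nonneg s X n)]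
    exact al_le_one s X n
  have hαs : ∀ n, α n ≠ 0 → X < n ∧ n ≤ 2 * X := fun n h => al_supp s X n h
  have hαcs : ∀ n, αc n ≠ 0 → X < n ∧ n ≤ 2 * X := by
    intro n h
    apply hαs
    intro h0
    apply h
    rw [hαc]; simp only [h0]; simp
  set Xs := XX X₁ (3 * Q) with hXs
  set M := pri R₁ with hM
  set G : ℕ → ℝ := fun n => EC (MM1 R₁) H α n - EC (MM1 R₁) H' α n with hG
  have hTF0 : TF s M J P Xs W (fun n => (α n : ℂ)) = 0 := by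
    apply TF_al
    · exact hM1
    · exact cfg.good.pr
    · intro x hx
      have := (Finset.mem_Ioc.1 (Finset.mem_filter.1 hx).1).1
      omega
  have hdec : (fun n => (α n : ℂ)) = fun n => ((EC (MM1 R₁) H' α n : ℝ) : ℂ) + ((G n : ℂ) +
      (∑ i ∈ range I, PQ (QS M (MM1 R₁) (R₁ * 2 ^ i) (2 * (R₁ * 2 ^ i))) H αc n +
        (αc n - PQ (QM M (R₁ * 2 ^ I)) H αc n))) := by
    funext n
    have hMI : MM1 R₁ ≤ R₁ * 2 ^ I := by
      have : (MM1 R₁ : ℝ) ≤ ((R₁ * 2 ^ I : ℕ) : ℝ) := by linarith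
      exact_mod_cast this
    have q1 := hQP R₁ I H αc n hR2 hMI
    have q2 := hE4 (MM1 R₁) H α n hMM1 hHpos
    rw [q1]
    have q3 : PQ (MM1 R₁).divisors H αc n = (EC (MM1 R₁) H α n : ℂ) := q2
    rw [q3, hG, hαc]
    push_cast
    ring
  have hsplit : TF s M J P Xs W (fun n => ((EC (MM1 R₁) H' α n : ℝ) : ℂ)) =
      -(TF s M J P Xs W (fun n => (G n : ℂ)) +
        (∑ i ∈ range I, TF s M J P Xs W
          (PQ (QS M (MM1 R₁) (R₁ * 2 ^ i) (2 * (R₁ * 2 ^ i))) H αc) +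
        TF s M J P Xs W (fun n => αc n - PQ (QM M (R₁ * 2 ^ I)) H αc n))) := by
    have h5 := hTF0
    rw [hdec, TF_add, TF_add, TF_add, TF_sum] at h5
    linear_combination h5
  -- S4
  have b4 := hx4 X (by omega) J Q X₁ H W P s cfg hs α (fun n => al_nonneg s X n) hαs
  -- S3
  have b3 := hx3 X (by omega) J Q X₁ H W P s cfg hs G (by
    intro n n' e1 e2
    rw [hG]
    simp only
    rw [EC_congr (MM1 R₁) H H α dvd_rfl n n' e1 e2, EC_congr (MM1 R₁) H' H α hHH' n n' e1 e2]) (by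
    intro n hn
    by_cases h5 : EC (MM1 R₁) H α n = 0
    · apply EC_supp (MM1 R₁) H' X α hαs hH'pos hH'leX n
      intro h6
      apply hn
      rw [hG]; simp only [h5, h6, sub_zero]
    · exact EC_supp (MM1 R₁) H X α hαs hHpos hHleX n h5)
  have b3' : ‖TF s M J P Xs W (fun n => (G n : ℂ))‖ ≤ c * ε / 8 * N := by
    refine b3.trans ?_
    have h5 : (∑ n ∈ range (4 * X), G n ^ 2) / X ≤ 1 / (K + 1) := by
      rw [div_le_div_iff₀ hXR (by positivity)]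
      rw [le_div_iff₀ (by positivity)] at hen
      linarith
    have h6 : Real.sqrt ((∑ n ∈ range (4 * X), G n ^ 2) / X) ≤ Real.sqrt (1 / (K + 1)) :=
      Real.sqrt_le_sqrt h5
    have h7 : 0 ≤ Real.log R₁ := Real.log_nonneg (by linarith)
    calc C₃ * Real.log R₁ * Real.sqrt ((∑ n ∈ range (4 * X), G n ^ 2) / X) * KK X J Q X₁ P / L
        ≤ C₃ * Real.log R₁ * Real.sqrt (1 / (K + 1)) * KK X J Q X₁ P / L := by gcongr
      _ = C₃ * Real.log R₁ * Real.sqrt (1 / (K + 1)) * N := by rw [hN]; ring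
      _ ≤ c * ε / 8 * N := mul_le_mul_of_nonneg_right hK hN0.le
  -- S1
  have b1 := hx1 X (by omega) J Q X₁ H W P s cfg hs (R₁ * 2 ^ I) αc hI1 hI2 hαn hαcs
  have b1' : ‖TF s M J P Xs W (fun n => αc n - PQ (QM M (R₁ * 2 ^ I)) H αc n)‖ ≤
      c * ε / 8 * N := by
    refine b1.trans ?_
    have h5 : 0 < Y ^ (1 / 10 : ℝ) := Real.rpow_pos_of_pos hY0 _
    rw [hN, mul_div_assoc', div_le_div_iff₀ h5 hL0]
    have h6 : L ≤ c * ε / 8 * Y ^ (1 / 10 : ℝ) := l3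
    nlinarith [mul_le_mul_of_nonneg_left h6 hKK.le]
  -- S2
  have b2 : ∀ i ∈ range I, ‖TF s M J P Xs W
      (PQ (QS M (MM1 R₁) (R₁ * 2 ^ i) (2 * (R₁ * 2 ^ i))) H αc)‖ ≤
      (C₂ * Real.sqrt (Real.log R₁) * (Real.log ((R₁ * 2 ^ i : ℕ) : ℝ) *
        ((R₁ * 2 ^ i : ℕ) : ℝ) ^ (-(1 / 4 : ℝ))) + C₂ * Real.sqrt (Real.log R₁) *
          Y ^ (-(1 / 2 : ℝ)) * Real.log (2 * Y ^ 6)) * N := by
    intro i hi
    have hiI : i < I := Finset.mem_range.1 hi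
    have h5 : R₁ ≤ R₁ * 2 ^ i := Nat.le_mul_of_pos_right _ (by positivity)
    have h6 : ((R₁ * 2 ^ i : ℕ) : ℝ) ≤ 2 * Y ^ 6 := by
      have h7 : R₁ * 2 ^ i ≤ R₁ * 2 ^ I :=
        Nat.mul_le_mul_left _ (Nat.pow_le_pow_right (by norm_num) hiI.le)
      have h8 : ((R₁ * 2 ^ i : ℕ) : ℝ) ≤ ((R₁ * 2 ^ I : ℕ) : ℝ) := by exact_mod_cast h7
      linarith
    refine (hx2 X (by omega) J Q X₁ H W P s cfg hs (R₁ * 2 ^ i) αc h5 h6 hαn hαcs).trans ?_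
    have h9 : Real.log ((R₁ * 2 ^ i : ℕ) : ℝ) ≤ Real.log (2 * Y ^ 6) := by
      apply Real.log_le_log _ h6
      positivity
    have h10 : 0 ≤ C₂ * Real.sqrt (Real.log R₁) * Y ^ (-(1 / 2 : ℝ)) := by positivity
    have h11 : C₂ * Real.sqrt (Real.log R₁) * Y ^ (-(1 / 2 : ℝ)) *
        Real.log ((R₁ * 2 ^ i : ℕ) : ℝ) ≤ C₂ * Real.sqrt (Real.log R₁) * Y ^ (-(1 / 2 : ℝ)) *
        Real.log (2 * Y ^ 6) := mul_le_mul_of_nonneg_left h9 h10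
    have h12 := mul_le_mul_of_nonneg_right h11 hN0.le
    calc C₂ * Real.sqrt (Real.log R₁) * Real.log ((R₁ * 2 ^ i : ℕ) : ℝ) *
          (((R₁ * 2 ^ i : ℕ) : ℝ) ^ (-(1 / 4 : ℝ)) + Y ^ (-(1 / 2 : ℝ))) * KK X J Q X₁ P / L
        = C₂ * Real.sqrt (Real.log R₁) * (Real.log ((R₁ * 2 ^ i : ℕ) : ℝ) *
          ((R₁ * 2 ^ i : ℕ) : ℝ) ^ (-(1 / 4 : ℝ))) * N + C₂ * Real.sqrt (Real.log R₁) *
          Y ^ (-(1 / 2 : ℝ)) * Real.log ((R₁ * 2 ^ i : ℕ) : ℝ) * N := by rw [hN]; ring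
      _ ≤ _ := by rw [add_mul]; linarith
  have b2' : ‖∑ i ∈ range I, TF s M J P Xs W
      (PQ (QS M (MM1 R₁) (R₁ * 2 ^ i) (2 * (R₁ * 2 ^ i))) H αc)‖ ≤ c * ε / 4 * N := by
    refine (norm_sum_le _ _).trans ((Finset.sum_le_sum b2).trans ?_)
    rw [← Finset.sum_mul, Finset.sum_add_distrib, ← Finset.mul_sum, Finset.sum_const, card_range,
      nsmul_eq_mul]
    apply mul_le_mul_of_nonneg_right _ hN0.le
    have h5 := hR I
    -- bound of I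
    have hlog0 : 0 ≤ Real.log (2 * Y ^ 6) := by
      apply Real.log_nonneg
      nlinarith
    have h6 : (I : ℝ) ≤ 2 * Real.log (2 * Y ^ 6) := by
      have h7 : (2 : ℝ) ^ I ≤ 2 * Y ^ 6 := by
        have h8 : (2 : ℝ) ^ I ≤ ((R₁ * 2 ^ I : ℕ) : ℝ) := by
          push_cast
          have : (0 : ℝ) < 2 ^ I := by positivity
          nlinarith
        linarith
      have h8 : (I : ℝ) * Real.log 2 ≤ Real.log (2 * Y ^ 6) := by
        rw [← Real.log_pow]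
        exact Real.log_le_log (by positivity) h7
      have h9 : (0.69 : ℝ) < Real.log 2 := by
        have := Real.log_two_gt_d9
        linarith
      have h10 : (0 : ℝ) ≤ I := Nat.cast_nonneg I
      nlinarith
    have h7 : (I : ℝ) * (C₂ * Real.sqrt (Real.log R₁) * Y ^ (-(1 / 2 : ℝ)) *
        Real.log (2 * Y ^ 6)) ≤ c * ε / 8 := by
      have hy0 : 0 ≤ Y ^ (-(1 / 2 : ℝ)) := by positivity
      have hcs : 0 ≤ C₂ * Real.sqrt (Real.log R₁) := by positivity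
      calc (I : ℝ) * (C₂ * Real.sqrt (Real.log R₁) * Y ^ (-(1 / 2 : ℝ)) * Real.log (2 * Y ^ 6))
          ≤ (2 * Real.log (2 * Y ^ 6)) * (C₂ * Real.sqrt (Real.log R₁) * Y ^ (-(1 / 2 : ℝ)) *
            Real.log (2 * Y ^ 6)) := mul_le_mul_of_nonneg_right h6 (by positivity)
        _ = C₂ * Real.sqrt (Real.log R₁) * (2 * Real.log (2 * Y ^ 6) ^ 2) *
            Y ^ (-(1 / 2 : ℝ)) := by ring
        _ ≤ (C₂ * Real.sqrt (Real.log R₁) + 1) * (2 * Real.log (2 * Y ^ 6) ^ 2) *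
            Y ^ (-(1 / 2 : ℝ)) := by
            apply mul_le_mul_of_nonneg_right _ hy0
            apply mul_le_mul_of_nonneg_right _ (by positivity)
            linarith
        _ ≤ c * ε / 8 := l2
    linarith
  -- conclusion
  by_contra hcon
  rw [not_le] at hcon
  have b4' : c * ε * N < ∑ t ∈ TT P J, ∑ x ∈ Xs, ∑ w ∈ Ioc 0 W,
      LL (mv s (M * DD t * x * w)) * EC (MM1 R₁) H' α (M * x * yy t + w * zz t) := by
    refine lt_of_lt_of_le ?_ b4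
    have h5 : 0 < c * KK X J Q X₁ P / (X * L) := by positivity
    have h6 := mul_lt_mul_of_pos_left hcon h5
    refine lt_of_eq_of_lt ?_ h6
    rw [hN]
    field_simp
  have h7 : ‖TF s M J P Xs W (fun n => ((EC (MM1 R₁) H' α n : ℝ) : ℂ))‖ ≤
      c * ε / 8 * N + (c * ε / 4 * N + c * ε / 8 * N) := by
    rw [hsplit, norm_neg]
    exact (norm_add_le _ _).trans (add_le_add b3' ((norm_add_le _ _).trans (add_le_add b2' b1')))
  rw [TF_ofReal, Complex.norm_real, Real.norm_eq_abs] at h7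
  have h8 := le_abs_self (∑ t ∈ TT P J, ∑ x ∈ Xs, ∑ w ∈ Ioc 0 W,
      LL (mv s (M * DD t * x * w)) * EC (MM1 R₁) H' α (M * x * yy t + w * zz t))
  have h9 : 0 < c * ε * N := by positivity
  linarith

end FIN

open Classical in
theorem t_FIN : M_FIN := by
  intro hCFG hCF h1 h2 h3 h4 hEN hE4 hQP s hs ε hε
  obtain ⟨C₁, hC₁, hcfg⟩ := hCFG
  obtain ⟨c, hc, h4'⟩ := h4 C₁ hC₁
  obtain ⟨C₂, hC₂, h2'⟩ := h2 C₁ hC₁
  obtain ⟨C₃, hC₃, h3'⟩ := h3 C₁ hC₁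
  obtain ⟨R₁, hR2, hR⟩ := FIN.exists_R1 C₂ (c * ε / 8) hC₂ (by positivity)
  obtain ⟨K, hK⟩ : ∃ K : ℕ, C₃ * Real.log R₁ * Real.sqrt (1 / (K + 1)) ≤ c * ε / 8 := by
    have hlim : Filter.Tendsto (fun K : ℕ => C₃ * Real.log R₁ * Real.sqrt (1 / ((K : ℝ) + 1)))
        Filter.atTop (nhds 0) := by
      have h5 : Filter.Tendsto (fun K : ℕ => Real.sqrt (1 / ((K : ℝ) + 1))) Filter.atTop
          (nhds 0) := by
        have h6 := (Real.continuous_sqrt.tendsto 0).comp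
          (tendsto_one_div_add_atTop_nhds_zero_nat (𝕜 := ℝ))
        rw [Real.sqrt_zero] at h6
        exact h6
      simpa using h5.const_mul (C₃ * Real.log R₁)
    obtain ⟨K, hK⟩ := (hlim.eventually (gt_mem_nhds (show (0 : ℝ) < c * ε / 8 by positivity))).exists
    exact ⟨K, hK.le⟩
  set dd : ℕ → ℝ := fun k => (1 / 100) ^ (k + 1) with hdd
  have hdd0 : ∀ k, 0 < dd k := fun k => by rw [hdd]; positivity
  have hdd1 : ∀ k, dd k ≤ 1 / 100 := by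
    intro k
    rw [hdd]
    simp only
    rw [pow_succ]
    have : ((1 : ℝ) / 100) ^ k ≤ 1 := pow_le_one₀ (by norm_num) (by norm_num)
    nlinarith
  have hdds : ∀ k, dd k / 100 = dd (k + 1) := by
    intro k
    rw [hdd]
    simp only
    rw [pow_succ _ (k + 1)]
    ring
  have hcore : ∀ k, ∃ X₀ : ℕ, ∀ X : ℕ, X₀ ≤ X → ∀ (J Q X₁ H W : ℕ) (P : Finset ℕ),
      Cfg C₁ R₁ X J Q X₁ H W (dd k) P →
      ∑ n ∈ range (4 * X), (EC (MM1 R₁) H (FIN.al s X) n -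
        EC (MM1 R₁) (HL (MM1 R₁) X (dd k / 100)) (FIN.al s X) n) ^ 2 ≤ X / (K + 1) →
      ∑ n ∈ range (4 * X), FIN.al s X n ≤ ε * X := fun k =>
    FIN.core hCF h1 hE4 hQP s hs ε C₁ c C₂ C₃ hε hC₁ hc hC₂ hC₃ R₁ K hR2 h2' h3' h4' hR hK (dd k)
      (hdd0 k) (hdd1 k)
  choose XA hXA using hcore
  choose XB hXB using fun k => hcfg R₁ (dd k) hR2 (hdd0 k) (hdd1 k)
  refine ⟨(range (K + 1)).sup XA + (range (K + 1)).sup XB + 1, fun X hX => ?_⟩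
  have hX1 : 1 ≤ X := by omega
  have hXR1 : (1 : ℝ) ≤ X := by exact_mod_cast hX1
  have hMM1 : 1 ≤ MM1 R₁ := by
    unfold MM1 pri
    apply Nat.one_le_iff_ne_zero.2
    apply mul_ne_zero
    · apply Finset.prod_ne_zero_iff.2
      intro p hp
      exact (Finset.mem_filter.1 hp).2.ne_zero
    · rw [Ne, Finset.lcm_eq_zero_iff]
      rintro ⟨x, hx, hx0⟩
      simp only [id] at hx0
      have := (Finset.mem_Icc.1 hx).1
      omega
  -- the energy argument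
  set a : ℕ → ℕ := fun k => Nat.log 2 (⌊(X : ℝ) ^ (1 - dd k)⌋₊ / MM1 R₁) with ha
  set b : ℕ → ℕ := fun k => Nat.log 2 (⌊(X : ℝ) ^ (1 - dd k / 100)⌋₊ / MM1 R₁) with hb
  have hab : ∀ k, a k ≤ b k := by
    intro k
    rw [ha, hb]
    simp only
    apply Nat.log_mono_right
    apply Nat.div_le_div_right
    apply Nat.floor_le_floor
    apply Real.rpow_le_rpow_of_exponent_le hXR1
    have := hdd0 k
    linarith
  have hba : ∀ k, b k ≤ a (k + 1) := by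
    intro k
    rw [ha, hb]
    simp only
    rw [hdds k]
  have hE := hEN (MM1 R₁) K (MM1 R₁ * 2 ^ (b K) * (4 * X)) (FIN.al s X) a b hMM1 hab hba
    (Dvd.intro _ rfl)
  have hE2 : ∑ n ∈ range (MM1 R₁ * 2 ^ (b K) * (4 * X)), FIN.al s X n ^ 2 ≤ X := by
    simp_rw [FIN.al_sq]
    exact FIN.sum_al_le s X _
  obtain ⟨k, hk, hk2⟩ : ∃ k ∈ range (K + 1),
      ∑ n ∈ range (MM1 R₁ * 2 ^ (b K) * (4 * X)),
        (EC (MM1 R₁) (MM1 R₁ * 2 ^ (a k)) (FIN.al s X) n -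
          EC (MM1 R₁) (MM1 R₁ * 2 ^ (b k)) (FIN.al s X) n) ^ 2 ≤ (X : ℝ) / (K + 1) := by
    apply Finset.exists_le_of_sum_le (Finset.nonempty_range_iff.2 (Nat.succ_ne_zero K))
    rw [Finset.sum_const, card_range, nsmul_eq_mul]
    have : ((K + 1 : ℕ) : ℝ) * ((X : ℝ) / (K + 1)) = X := by
      push_cast
      field_simp
    rw [this]
    exact hE.trans hE2
  have hsupA : XA k ≤ (range (K + 1)).sup XA := Finset.le_sup hk
  have hsupB : XB k ≤ (range (K + 1)).sup XB := Finset.le_sup hk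
  obtain ⟨J, Q, X₁, H, W, P, cfg⟩ := hXB k X (by omega)
  have hfin := hXA k X (by omega) J Q X₁ H W P cfg (by
    refine le_trans ?_ hk2
    have hHe : H = MM1 R₁ * 2 ^ (a k) := by rw [cfg.HH]; rfl
    have hHe' : HL (MM1 R₁) X (dd k / 100) = MM1 R₁ * 2 ^ (b k) := rfl
    rw [hHe, hHe']
    apply Finset.sum_le_sum_of_subset_of_nonneg
    · intro n hn
      rw [Finset.mem_range] at hn ⊢
      have h5 : 1 ≤ MM1 R₁ * 2 ^ (b K) := Nat.one_le_iff_ne_zero.2 (by positivity)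
      nlinarith
    · intro n _ _
      positivity)
  rw [FIN.sum_al s X (4 * X) (by omega)] at hfin
  exact hfin

end

end MUR
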