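import Pool.Agent.MUR.StE

set_option autoImplicit false

/-!
# Project MUR: module LBS, the average lower bound over the tuples
-/

namespace MUR

open Finset IPR
open Pool.Agent.Lib_helper83.EF (e)

noncomputable section

namespace LBS

/-- PNT for all the classes at once. -/
theorem pnt_unif (hPNT : S_PNT) (f : ℕ) : ∃ N₀ : ℕ, 1 ≤ f → ∀ c : ℕ, c.Coprime f → ∀ N : ℕ, N₀ ≤ N →
    (N : ℝ) / (20 * f.totient) ≤ ∑ m ∈ (Ioc N (N + N / 10)).filter (fun m => m ≡ c [MOD f]), LL m := by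
  by_cases hf : 1 ≤ f
  · have h1 : ∀ c : ℕ, ∃ N₀ : ℕ, c.Coprime f → ∀ N : ℕ, N₀ ≤ N →
        (N : ℝ) / (20 * f.totient) ≤
          ∑ m ∈ (Ioc N (N + N / 10)).filter (fun m => m ≡ c [MOD f]), LL m := by
      intro c
      by_cases hc : c.Coprime f
      · obtain ⟨N₀, h⟩ := hPNT f c hf hc
        exact ⟨N₀, fun _ => h⟩
      · exact ⟨0, fun h => absurd h hc⟩
    choose N₀ hN₀ using h1
    refine ⟨(range f).sup N₀, fun _ c hc N hN => ?_⟩
    have h2 : (c % f).Coprime f := by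
      rw [Nat.Coprime, ← Nat.gcd_rec, Nat.gcd_comm]
      exact hc
    have h3 : N₀ (c % f) ≤ N :=
      (le_sup (f := N₀) (mem_range.2 (Nat.mod_lt _ hf))).trans hN
    have h4 := hN₀ (c % f) h2 N h3
    refine h4.trans (le_of_eq (sum_congr (filter_congr fun m _ => ?_) fun _ _ => rfl))
    unfold Nat.ModEq
    rw [Nat.mod_mod]
  · exact ⟨0, fun h => absurd h hf⟩

/-- expansion of the condition modulo `D` -/
theorem expand (hEXP : S_EXP) (f D κ A B : ℕ) (s : ℤ) (hD : Squarefree D)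
    (hA : ∀ m : ℕ, m.Prime → A < m → m.Coprime D) :
    ∑ m ∈ (Ioc A B).filter (fun m => m ≡ κ [MOD f] ∧ ((m : ℕ) : ZMod D) = ((s : ℤ) : ZMod D)), LL m =
      ∑ u ∈ D.divisors, dsp f κ u s A B / ((D / u).totient : ℝ) := by
  have h1 : ∀ u, dsp f κ u s A B =
      ∑ m ∈ (Ioc A B).filter (fun m => m ≡ κ [MOD f]), LL m * ps u s m := by
    intro u
    unfold dsp
    rw [sum_filter, sum_filter]
    refine sum_congr rfl fun m _ => ?_
    unfold LL
    by_cases h1 : m.Prime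
    · by_cases h2 : m ≡ κ [MOD f]
      · rw [if_pos ⟨h1, h2⟩, if_pos h2, if_pos h1]
      · rw [if_neg (fun h => h2 h.2), if_neg h2]
    · rw [if_neg (fun h => h1 h.1), if_neg h1, zero_mul, ite_self]
  simp only [h1, sum_div]
  rw [sum_comm]
  have h2 : (Ioc A B).filter (fun m => m ≡ κ [MOD f] ∧ ((m : ℕ) : ZMod D) = ((s : ℤ) : ZMod D)) =
      ((Ioc A B).filter (fun m => m ≡ κ [MOD f])).filter
        (fun m => ((m : ℕ) : ZMod D) = ((s : ℤ) : ZMod D)) := by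
    rw [filter_filter]
  rw [h2, sum_filter]
  refine sum_congr rfl fun m hm => ?_
  rw [mem_filter, mem_Ioc] at hm
  by_cases hp : m.Prime
  · have h3 := hEXP D m s hD (hA m hp hm.1.1)
    have h4 : (if ((m : ℕ) : ZMod D) = ((s : ℤ) : ZMod D) then LL m else 0) =
        LL m * (if ((m : ℕ) : ZMod D) = ((s : ℤ) : ZMod D) then (1 : ℝ) else 0) := by
      rw [mul_ite, mul_one, mul_zero]
    rw [h4, h3, mul_sum]
    refine sum_congr rfl fun u _ => ?_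
    ring
  · have h5 : LL m = 0 := by
      unfold LL
      rw [if_neg hp]
    rw [h5]
    simp

theorem dsp_one (f κ A B : ℕ) (s : ℤ) :
    dsp f κ 1 s A B = ∑ m ∈ (Ioc A B).filter (fun m => m ≡ κ [MOD f]), LL m := by
  unfold dsp
  rw [sum_filter, sum_filter]
  refine sum_congr rfl fun m _ => ?_
  unfold LL ps
  rw [Nat.primeFactors_one, prod_empty, mul_one]
  by_cases h1 : m.Prime
  · by_cases h2 : m ≡ κ [MOD f]
    · rw [if_pos ⟨h1, h2⟩, if_pos h2, if_pos h1]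
    · rw [if_neg (fun h => h2 h.2), if_neg h2]
  · rw [if_neg (fun h => h1 h.1), if_neg h1, ite_self]

/-- the lower bound for one tuple -/
theorem one_tuple (hEXP : S_EXP) (f D κ A B : ℕ) (s : ℤ) (hD : Squarefree D)
    (hA : ∀ m : ℕ, m.Prime → A < m → m.Coprime D) (E : ℕ → ℝ)
    (hE : ∀ u ∈ D.divisors, u ≠ 1 → |dsp f κ u s A B| ≤ E u) (L : ℝ)
    (hL : L ≤ ∑ m ∈ (Ioc A B).filter (fun m => m ≡ κ [MOD f]), LL m) :
    L / (D.totient : ℝ) - ∑ u ∈ D.divisors.erase 1, E u / ((D / u).totient : ℝ) ≤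
    ∑ m ∈ (Ioc A B).filter (fun m => m ≡ κ [MOD f] ∧ ((m : ℕ) : ZMod D) = ((s : ℤ) : ZMod D)), LL m := by
  rw [expand hEXP f D κ A B s hD hA]
  have hD0 : D ≠ 0 := hD.ne_zero
  have h1 : 1 ∈ D.divisors := Nat.one_mem_divisors.2 hD0
  rw [← add_sum_erase _ _ h1, Nat.div_one, dsp_one]
  have h2 : L / (D.totient : ℝ) ≤
      (∑ m ∈ (Ioc A B).filter (fun m => m ≡ κ [MOD f]), LL m) / (D.totient : ℝ) :=
    div_le_div_of_nonneg_right hL (Nat.cast_nonneg _)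
  have h3 : -∑ u ∈ D.divisors.erase 1, E u / ((D / u).totient : ℝ) ≤
      ∑ u ∈ D.divisors.erase 1, dsp f κ u s A B / ((D / u).totient : ℝ) := by
    rw [← sum_neg_distrib]
    refine sum_le_sum fun u hu => ?_
    rw [mem_erase] at hu
    have h4 := (abs_le.1 (hE u hu.2 hu.1)).1
    rw [← neg_div]
    exact div_le_div_of_nonneg_right h4 (Nat.cast_nonneg _)
  linarith

/-- the grid: the start of the interval -/
def st (h Y : ℕ) : ℕ := 6 * Y / (5 * h) + 1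

theorem st_pos (h Y : ℕ) : 1 ≤ st h Y := Nat.le_add_left _ _

theorem st_lo (h Y : ℕ) (hh : 0 < h) : 6 * Y ≤ 5 * (h * st h Y) := by
  have h1 : 6 * Y < 5 * h * (6 * Y / (5 * h) + 1) := Nat.lt_mul_div_succ _ (by omega)
  have h2 : 5 * h * (6 * Y / (5 * h) + 1) = 5 * (h * st h Y) := by
    unfold st
    ring
  omega

theorem st_hi (h Y : ℕ) : 5 * (h * st h Y) ≤ 6 * Y + 5 * h := by
  have h1 : 5 * h * (6 * Y / (5 * h)) ≤ 6 * Y := Nat.mul_div_le _ _
  have h2 : 5 * (h * st h Y) = 5 * h * (6 * Y / (5 * h)) + 5 * h := by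
    unfold st
    ring
  omega

theorem st_le (h Y Z : ℕ) (hY : Y ≤ 3 * Z) (hZ : 9 * Z ≤ 100 * h) : st h Y ≤ 41 := by
  unfold st
  have h1 : 6 * Y / (5 * h) ≤ 40 := by
    refine Nat.div_le_of_le_mul ?_
    omega
  omega

theorem err_id (p q M M₁ X X₁ : ℝ) (hq : 0 < q) (hM : 0 < M) (hM₁ : 0 < M₁) :
    p / (q * q) * (10 * (M * q * X * X₁) / (164000 * M * M₁)) = p * X₁ * X / (q * M₁) / 16400 := by
  field_simp
  ring

end LBS

open LBS

/-- LBS -/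
theorem t_LBS : M_LBS := by
  intro hPNT hEXP hER2 _ hTB hCF C₁ hC₁
  refine ⟨1 / 400, by norm_num, fun R₁ d => ?_⟩
  obtain ⟨M, hM⟩ : ∃ M, M = pri R₁ := ⟨_, rfl⟩
  obtain ⟨M₁, hM₁⟩ : ∃ M₁, M₁ = MM1 R₁ := ⟨_, rfl⟩
  obtain ⟨N₀, hN₀⟩ := pnt_unif hPNT (M * M₁)
  obtain ⟨Xa, hXa⟩ := hER2 C₁ hC₁ R₁ d
  obtain ⟨Xb, hXb⟩ := hCF C₁ hC₁ R₁ d (Real.log (164000 * M * M₁ + N₀ + 1000))
  refine ⟨max Xa Xb, fun X hX J Q X₁ H W P s hcfg hs N₁ hN1 hN2 => ?_⟩
  obtain ⟨c1, c2, c3, c4, c5, c6, c7, c8, c9, c10, c11, c12, c13, c14, c15, c16, c17, c18, c19, c20,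
    c21, c22, c23, c24⟩ := hXb X (le_of_max_le_right hX) J Q X₁ H W P hcfg
  rw [← hM] at c4 c5 c6
  rw [← hM₁] at c3 c6 c7 c8 c10 c13 c21
  have hMpos : 0 < M := c5
  have hM₁pos : 0 < M₁ := c7
  have hf : 1 ≤ M * M₁ := Nat.mul_pos hMpos hM₁pos
  -- the logarithm of `X`
  have hK : (164000 * M * M₁ + N₀ + 1000 : ℝ) ≤ Real.log X := by
    have h1 : (0 : ℝ) < 164000 * M * M₁ + N₀ + 1000 := by positivity
    have h2 : 0 < Real.log X := by
      by_contra h3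
      have h4 := not_lt.1 h3
      have h6 : 0 ≤ Real.log X := Real.log_natCast_nonneg X
      have h7 : Real.log X = 0 := le_antisymm h4 h6
      rw [h7, Real.log_zero] at c2
      linarith
    exact (Real.log_le_log_iff h1 h2).1 c1
  have hX0 : (0 : ℝ) < X := by
    rcases Nat.eq_zero_or_pos X with h | h
    · rw [h] at hK
      simp at hK
      have : (0 : ℝ) ≤ 164000 * M * M₁ + N₀ := by positivity
      linarith
    · exact_mod_cast h
  have hlogX : Real.log X ≤ X := (Real.log_le_sub_one_of_pos hX0).trans (by linarith)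
  have hXbig : (N₀ : ℝ) + 1000 ≤ X := by
    have : (0 : ℝ) ≤ 164000 * M * M₁ := by positivity
    linarith
  have hXN : N₀ + 1000 ≤ X := by exact_mod_cast hXbig
  have hX1 : (1 : ℝ) ≤ X := by
    have : (0 : ℝ) ≤ N₀ := Nat.cast_nonneg _
    linarith
  have hX₁pos : 0 < X₁ := by
    obtain ⟨b, hb⟩ := hcfg.X₁p
    rw [hb]
    positivity
  have hJ1 : 1 ≤ J := by
    have := hcfg.J2
    omega
  have hQ100 : 100 ≤ Q := by
    have h1 : (100 : ℝ) ≤ Q := by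
      refine le_trans ?_ hcfg.Qlo
      have h2 : (1000 : ℝ) ≤ Real.log X := by
        have : (0 : ℝ) ≤ 164000 * M * M₁ + N₀ := by positivity
        linarith
      calc (100 : ℝ) ≤ Real.log X ^ 1 := by rw [pow_one]; linarith
        _ ≤ Real.log X ^ 100 := pow_le_pow_right₀ (by linarith) (by norm_num)
    exact_mod_cast h1
  have hQJ : Q ≤ Q ^ J := by
    calc Q = Q ^ 1 := (pow_one Q).symm
      _ ≤ Q ^ J := Nat.pow_le_pow_right (by omega) hJ1
  have hN₁ : 500 ≤ N₁ := by omega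
  obtain ⟨hT1, hT2, -⟩ := hTB C₁ Q J 1 P hcfg.good hJ1 le_rfl (by simp)
  have hTcard := hT2 c18
  -- the grid
  obtain ⟨Z, hZ⟩ : ∃ Z, Z = M * Q ^ J * N₁ * X₁ := ⟨_, rfl⟩
  obtain ⟨h, hh⟩ : ∃ h, h = Z / 10 := ⟨_, rfl⟩
  have hZN : 2 * N₁ ≤ Z := by
    rw [hZ]
    have h1 : 2 ≤ M * Q ^ J := by
      calc 2 = 1 * 2 := by norm_num
        _ ≤ M * Q ^ J := Nat.mul_le_mul hMpos (by omega)
    calc 2 * N₁ = 2 * N₁ * 1 := by ring
      _ ≤ M * Q ^ J * N₁ * X₁ := Nat.mul_le_mul (Nat.mul_le_mul_right _ h1) hX₁pos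
  have hh1 : 9 * Z ≤ 100 * h := by omega
  have hh2 : 10 * h ≤ Z := by omega
  have hh0 : 0 < h := by omega
  have hYt : ∀ t ∈ TT P J, Z ≤ M * yy t * N₁ * X₁ ∧ M * yy t * N₁ * X₁ ≤ 3 * Z := by
    intro t ht
    obtain ⟨h1, h2, -⟩ := hT1 t ht
    constructor
    · rw [hZ]
      exact Nat.mul_le_mul_right _ (Nat.mul_le_mul_right _ (Nat.mul_le_mul_left _ h1))
    · rw [hZ]
      calc M * yy t * N₁ * X₁ ≤ M * (3 * Q ^ J) * N₁ * X₁ :=
            Nat.mul_le_mul_right _ (Nat.mul_le_mul_right _ (Nat.mul_le_mul_left _ h2))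
        _ = _ := by ring
  obtain ⟨jt, hjt⟩ : ∃ jt : (Fin J → ℕ × ℕ) → ℕ, jt = fun t => st h (M * yy t * N₁ * X₁) := ⟨_, rfl⟩
  have hj1 : ∀ t, 1 ≤ jt t := by
    intro t
    rw [hjt]
    exact st_pos h _
  have hj2 : ∀ t ∈ TT P J, jt t ≤ 41 := by
    intro t ht
    rw [hjt]
    exact st_le h _ Z (hYt t ht).2 hh1
  have hA1 : ∀ t, 6 * (M * yy t * N₁ * X₁) ≤ 5 * (h * jt t) := by
    intro t
    rw [hjt]
    exact st_lo h _ hh0
  have hA2 : ∀ t, 5 * (h * jt t) ≤ 6 * (M * yy t * N₁ * X₁) + 5 * h := by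
    intro t
    rw [hjt]
    exact st_hi h _
  refine ⟨fun t => h * jt t, fun t => h * jt t + h * jt t / 10, fun t ht => ⟨?_, ?_⟩, ?_⟩
  · rw [← hM]
    exact hA1 t
  · rw [← hM]
    have h1 := hA2 t
    have h2 := (hYt t ht).1
    change 5 * (h * jt t + h * jt t / 10) ≤ _
    omega
  intro κ hκ
  rw [← hM, ← hM₁] at hκ
  rw [← hM, ← hM₁]
  -- real versions
  have hMr : (0 : ℝ) < M := by exact_mod_cast hMpos
  have hM₁r : (0 : ℝ) < M₁ := by exact_mod_cast hM₁pos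
  have hX₁r : (0 : ℝ) < X₁ := by exact_mod_cast hX₁pos
  have hQr : (100 : ℝ) ≤ Q := by exact_mod_cast hQ100
  have hQ0 : (0 : ℝ) < Q := by linarith
  have hQJr : (Q : ℝ) ≤ (Q : ℝ) ^ J := by exact_mod_cast hQJ
  have hQJ0 : (0 : ℝ) < (Q : ℝ) ^ J := by positivity
  have hN1r : (X : ℝ) ≤ 2 * N₁ := by exact_mod_cast hN1
  have hN2r : (N₁ : ℝ) ≤ 2 * X := by exact_mod_cast hN2
  have hZr : (Z : ℝ) = M * (Q : ℝ) ^ J * N₁ * X₁ := by
    rw [hZ]
    push_cast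
    ring
  have hh1r : 9 * (Z : ℝ) ≤ 100 * h := by exact_mod_cast hh1
  have hh2r : 10 * (h : ℝ) ≤ Z := by exact_mod_cast hh2
  have hMr1 : (1 : ℝ) ≤ M := by exact_mod_cast hMpos
  have hd0 := hcfg.d0
  have hd1 := hcfg.d1
  -- size of the grid
  have hhlo : (X : ℝ) ^ (19 / 10 : ℝ) ≤ h := by
    have h1 : (X : ℝ) ^ (2 - d) ≤ 4 * (N₁ * X₁) := by
      have h2 : (X : ℝ) ^ (2 - d) = X * (X : ℝ) ^ (1 - d) := by
        rw [← Real.rpow_one_add' hX0.le (by linarith)]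
        congr 1
        ring
      rw [h2]
      calc (X : ℝ) * (X : ℝ) ^ (1 - d) ≤ (2 * N₁) * (2 * X₁) :=
            mul_le_mul hN1r hcfg.X₁lo (by positivity) (by positivity)
        _ = _ := by ring
    have h3 : (X : ℝ) ^ (19 / 10 : ℝ) ≤ (X : ℝ) ^ (2 - d) :=
      Real.rpow_le_rpow_of_exponent_le hX1 (by linarith)
    have h4 : 100 * ((N₁ : ℝ) * X₁) ≤ Z := by
      rw [hZr]
      have h5 : (100 : ℝ) ≤ M * (Q : ℝ) ^ J := by nlinarith
      have h6 : (0 : ℝ) ≤ (N₁ : ℝ) * X₁ := by positivity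
      calc 100 * ((N₁ : ℝ) * X₁) ≤ M * (Q : ℝ) ^ J * (N₁ * X₁) :=
            mul_le_mul_of_nonneg_right h5 h6
        _ = _ := by ring
    linarith
  have hZhi : (Z : ℝ) ≤ 2 * (M * (Q : ℝ) ^ J * X * X₁) := by
    rw [hZr]
    have h1 : (M : ℝ) * (Q : ℝ) ^ J * N₁ ≤ M * (Q : ℝ) ^ J * (2 * X) :=
      mul_le_mul_of_nonneg_left hN2r (by positivity)
    calc (M : ℝ) * (Q : ℝ) ^ J * N₁ * X₁ ≤ M * (Q : ℝ) ^ J * (2 * X) * X₁ :=
          mul_le_mul_of_nonneg_right h1 hX₁r.le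
      _ = _ := by ring
  have hZX : 5 * (Z : ℝ) ≤ (X : ℝ) ^ (2 : ℝ) := by
    have h1 : (10 : ℝ) * (M * (Q : ℝ) ^ J) ≤ (X : ℝ) ^ d := by
      have h2 : (((16 * M₁ * Q ^ (2 * J) : ℕ) : ℝ)) ≤ ((16 * M₁ * Q ^ (2 * J) : ℕ) : ℝ) ^ 10 := by
        have h3 : (1 : ℝ) ≤ ((16 * M₁ * Q ^ (2 * J) : ℕ) : ℝ) := by
          have h4 : 1 ≤ 16 * M₁ * Q ^ (2 * J) :=
            Nat.mul_pos (Nat.mul_pos (by norm_num) hM₁pos) (by positivity)
          exact_mod_cast h4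
        calc ((16 * M₁ * Q ^ (2 * J) : ℕ) : ℝ) = ((16 * M₁ * Q ^ (2 * J) : ℕ) : ℝ) ^ 1 :=
              (pow_one _).symm
          _ ≤ _ := pow_le_pow_right₀ h3 (by norm_num)
      have h5 : (X : ℝ) ^ (d / 1000) ≤ (X : ℝ) ^ d :=
        Real.rpow_le_rpow_of_exponent_le hX1 (by linarith)
      refine le_trans ?_ ((h2.trans c21).trans h5)
      have h6 : 10 * (M * Q ^ J) ≤ 16 * M₁ * Q ^ (2 * J) := by
        have h7 : M ≤ M₁ := Nat.le_of_dvd hM₁pos c6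
        have h8 : Q ^ J ≤ Q ^ (2 * J) := Nat.pow_le_pow_right (by omega) (by omega)
        calc 10 * (M * Q ^ J) ≤ 16 * (M₁ * Q ^ (2 * J)) :=
              Nat.mul_le_mul (by norm_num) (Nat.mul_le_mul h7 h8)
          _ = _ := by ring
      exact_mod_cast h6
    have h2 : (X : ℝ) ^ (2 : ℝ) = (X : ℝ) ^ d * (X * (X : ℝ) ^ (1 - d)) := by
      rw [← Real.rpow_one_add' hX0.le (by linarith), ← Real.rpow_add hX0]
      congr 1
      ring
    rw [h2]
    calc 5 * (Z : ℝ) ≤ 5 * (2 * (M * (Q : ℝ) ^ J * X * X₁)) :=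
          mul_le_mul_of_nonneg_left hZhi (by norm_num)
      _ = 10 * (M * (Q : ℝ) ^ J) * (X * X₁) := by ring
      _ ≤ (X : ℝ) ^ d * (X * (X : ℝ) ^ (1 - d)) :=
          mul_le_mul h1 (mul_le_mul_of_nonneg_left hcfg.X₁hi hX0.le) (by positivity)
            (by positivity)
  -- the ends of the intervals of the grid
  have hbj : ∀ j ∈ Icc 1 41, (X : ℝ) ^ (19 / 10 : ℝ) ≤ ((h * j + h * j / 10 : ℕ) : ℝ) ∧
      ((h * j + h * j / 10 : ℕ) : ℝ) ≤ 5 * Z := by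
    intro j hj
    rw [mem_Icc] at hj
    have h1 : h ≤ h * j := Nat.le_mul_of_pos_right _ hj.1
    have h2 : h * j ≤ h * 41 := Nat.mul_le_mul_left _ hj.2
    constructor
    · refine hhlo.trans ?_
      have : h ≤ h * j + h * j / 10 := by omega
      exact_mod_cast this
    · have : h * j + h * j / 10 ≤ 5 * Z := by omega
      exact_mod_cast this
  have hE : ∀ j ∈ Icc 1 41, ∃ E : ℕ → ℝ, (∀ u, 0 ≤ E u) ∧
      (∀ t ∈ TT P J, ∀ u ∈ (DD t).divisors, ∀ c : ℕ, c.Coprime (M * M₁) → u ≠ 1 →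
        |dsp (M * M₁) c u s (h * j) (h * j + h * j / 10)| ≤ E u) ∧
      ∑ t ∈ TT P J, ∑ u ∈ (DD t).divisors.erase 1, E u / ((DD t / u).totient : ℝ) ≤
        (P.card : ℝ) ^ (2 * J) / (Q : ℝ) ^ (2 * J) *
          (((h * j + h * j / 10 : ℕ) : ℝ) / Real.log X) := by
    intro j hj
    have h1 := hXa X (le_of_max_le_left hX) J Q X₁ H W P s hcfg hs (h * j)
      (h * j + h * j / 10) (Nat.le_add_right _ _) (hbj j hj).1 ((hbj j hj).2.trans hZX)
    rw [← hM, ← hM₁] at h1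
    exact h1
  choose! E hE0 hE1 hE2 using hE
  have hlog0 : 0 < Real.log X := by
    have : (0 : ℝ) ≤ 164000 * M * M₁ + N₀ := by positivity
    linarith
  -- the total error
  have herr : ∑ t ∈ TT P J, ∑ u ∈ (DD t).divisors.erase 1, E (jt t) u / ((DD t / u).totient : ℝ) ≤
      (P.card : ℝ) ^ (2 * J) * X₁ * X / ((Q : ℝ) ^ J * M₁) / 400 := by
    have h1 : ∀ t ∈ TT P J, ∑ u ∈ (DD t).divisors.erase 1, E (jt t) u / ((DD t / u).totient : ℝ) ≤
        ∑ j ∈ Icc 1 41, ∑ u ∈ (DD t).divisors.erase 1, E j u / ((DD t / u).totient : ℝ) := by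
      intro t ht
      have h2 : jt t ∈ Icc 1 41 := mem_Icc.2 ⟨hj1 t, hj2 t ht⟩
      exact single_le_sum (f := fun j => ∑ u ∈ (DD t).divisors.erase 1,
        E j u / ((DD t / u).totient : ℝ)) (fun j hj => sum_nonneg fun u _ =>
          div_nonneg (hE0 j hj u) (Nat.cast_nonneg _)) h2
    have h3 : ∀ j ∈ Icc 1 41,
        ∑ t ∈ TT P J, ∑ u ∈ (DD t).divisors.erase 1, E j u / ((DD t / u).totient : ℝ) ≤
        (P.card : ℝ) ^ (2 * J) / (Q : ℝ) ^ (2 * J) * (5 * Z / Real.log X) := by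
      intro j hj
      refine (hE2 j hj).trans (mul_le_mul_of_nonneg_left ?_ (by positivity))
      exact div_le_div_of_nonneg_right (hbj j hj).2 hlog0.le
    refine (sum_le_sum h1).trans ?_
    rw [sum_comm]
    refine (sum_le_sum h3).trans ?_
    rw [sum_const, Nat.card_Icc, nsmul_eq_mul]
    have h4 : (5 * (Z : ℝ)) / Real.log X ≤ 10 * (M * (Q : ℝ) ^ J * X * X₁) / (164000 * M * M₁) := by
      have h5 : (164000 * M * M₁ : ℝ) ≤ Real.log X := by
        have : (0 : ℝ) ≤ N₀ := Nat.cast_nonneg _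
        linarith
      calc (5 * (Z : ℝ)) / Real.log X ≤ 10 * (M * (Q : ℝ) ^ J * X * X₁) / Real.log X :=
            div_le_div_of_nonneg_right (by linarith) hlog0.le
        _ ≤ _ := div_le_div_of_nonneg_left (by positivity) (by positivity) h5
    have h6 : (P.card : ℝ) ^ (2 * J) / (Q : ℝ) ^ (2 * J) * (5 * Z / Real.log X) ≤
        (P.card : ℝ) ^ (2 * J) / (Q : ℝ) ^ (2 * J) *
          (10 * (M * (Q : ℝ) ^ J * X * X₁) / (164000 * M * M₁)) :=
      mul_le_mul_of_nonneg_left h4 (by positivity)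
    have h7 : (P.card : ℝ) ^ (2 * J) / (Q : ℝ) ^ (2 * J) *
          (10 * (M * (Q : ℝ) ^ J * X * X₁) / (164000 * M * M₁)) =
        (P.card : ℝ) ^ (2 * J) * X₁ * X / ((Q : ℝ) ^ J * M₁) / 16400 := by
      have h8 : (Q : ℝ) ^ (2 * J) = (Q : ℝ) ^ J * (Q : ℝ) ^ J := by
        rw [two_mul, pow_add]
      rw [h8]
      exact err_id _ _ _ _ _ _ hQJ0 hMr hM₁r
    rw [h7] at h6
    have h9 : (0 : ℝ) ≤ (P.card : ℝ) ^ (2 * J) * X₁ * X / ((Q : ℝ) ^ J * M₁) := by positivity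
    have h10 : ((41 + 1 - 1 : ℕ) : ℝ) = 41 := by norm_num
    rw [h10]
    linarith
  -- the main term of one tuple
  have hmain : ∀ t ∈ TT P J, X₁ * X / ((Q : ℝ) ^ J * M₁) / 100 -
      ∑ u ∈ (DD t).divisors.erase 1, E (jt t) u / ((DD t / u).totient : ℝ) ≤
      ∑ m ∈ (Ioc (h * jt t) (h * jt t + h * jt t / 10)).filter (fun m => m ≡ κ t [MOD M * M₁] ∧
        ((m : ℕ) : ZMod (DD t)) = ((s : ℤ) : ZMod (DD t))), LL m := by
    intro t ht
    obtain ⟨hy1, hy2, hz1, hz2, -, -, hsq, hPf, -⟩ := hT1 t ht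
    have hj : jt t ∈ Icc 1 41 := mem_Icc.2 ⟨hj1 t, hj2 t ht⟩
    have hAbig : 2 * Q ≤ h * jt t := by
      have h1 := hA1 t
      have h2 : 2 * Q ≤ M * yy t * N₁ * X₁ := by
        calc 2 * Q = 1 * Q * 2 * 1 := by ring
          _ ≤ M * yy t * N₁ * X₁ := Nat.mul_le_mul (Nat.mul_le_mul
              (Nat.mul_le_mul hMpos (hQJ.trans hy1)) (by omega)) hX₁pos
      omega
    have hcop : ∀ m : ℕ, m.Prime → h * jt t < m → m.Coprime (DD t) := by
      intro m hm hlt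
      rw [Nat.Prime.coprime_iff_not_dvd hm]
      intro hdvd
      have h1 : m ∈ P := hPf (Nat.mem_primeFactors.2 ⟨hm, hdvd, hsq.ne_zero⟩)
      have h2 : m ≤ Q + Q := (hcfg.good.hi m h1).trans
        (Nat.add_le_add_left (Nat.div_le_self _ _) Q)
      omega
    have hPNT' := hN₀ hf (κ t) (hκ t ht) (h * jt t) (by
      have h1 := hA1 t
      have h2 := (hYt t ht).1
      omega)
    have h1 := one_tuple hEXP (M * M₁) (DD t) (κ t) (h * jt t) (h * jt t + h * jt t / 10) s hsq hcop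
      (E (jt t)) (fun u hu hu1 => hE1 (jt t) hj t ht u hu (κ t) (hκ t ht) hu1) _ hPNT'
    refine le_trans (sub_le_sub_right ?_ _) h1
    -- sizes
    have hy0 : 0 < yy t := lt_of_lt_of_le (by positivity) hy1
    have hz0 : 0 < zz t := lt_of_lt_of_le (by positivity) hz1
    have hy0r : (0 : ℝ) < yy t := by exact_mod_cast hy0
    have hz0r : (0 : ℝ) < zz t := by exact_mod_cast hz0
    have hz2r : (zz t : ℝ) ≤ 3 * (Q : ℝ) ^ J := by exact_mod_cast hz2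
    have hA1r : 6 * ((M : ℝ) * yy t * N₁ * X₁) ≤ 5 * ((h * jt t : ℕ) : ℝ) := by
      exact_mod_cast hA1 t
    have hφf : ((M * M₁).totient : ℝ) ≤ M * M₁ := by
      exact_mod_cast Nat.totient_le (M * M₁)
    have hφf0 : (0 : ℝ) < ((M * M₁).totient : ℝ) := by
      exact_mod_cast Nat.totient_pos.2 hf
    have hφD : ((DD t).totient : ℝ) ≤ yy t * zz t := by
      have h2 : (DD t).totient ≤ yy t * zz t := Nat.totient_le (DD t)
      exact_mod_cast h2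
    have hφD0 : (0 : ℝ) < ((DD t).totient : ℝ) := by
      have h2 : 0 < (DD t).totient := Nat.totient_pos.2 (Nat.mul_pos hy0 hz0)
      exact_mod_cast h2
    rw [div_div ((h * jt t : ℕ) : ℝ)]
    have h2 : X₁ * X / ((Q : ℝ) ^ J * M₁) / 100 ≤
        ((h * jt t : ℕ) : ℝ) / (20 * (M * M₁) * (yy t * zz t)) := by
      rw [div_div, div_le_div_iff₀ (by positivity) (by positivity)]
      have h3 : (M : ℝ) * yy t * X * X₁ * (20 * M₁ * zz t) ≤
          ((h * jt t : ℕ) : ℝ) * (5 / 3) * (20 * M₁ * (3 * (Q : ℝ) ^ J)) := by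
        have h4 : (M : ℝ) * yy t * X * X₁ ≤ ((h * jt t : ℕ) : ℝ) * (5 / 3) := by
          have h5 : (M : ℝ) * yy t * X * X₁ ≤ M * yy t * (2 * N₁) * X₁ :=
            mul_le_mul_of_nonneg_right (mul_le_mul_of_nonneg_left hN1r (by positivity)) hX₁r.le
          linarith
        refine mul_le_mul h4 ?_ (by positivity) (by positivity)
        exact mul_le_mul_of_nonneg_left hz2r (by positivity)
      calc X₁ * X * (20 * ((M : ℝ) * M₁) * (yy t * zz t))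
          = (M : ℝ) * yy t * X * X₁ * (20 * M₁ * zz t) := by ring
        _ ≤ ((h * jt t : ℕ) : ℝ) * (5 / 3) * (20 * M₁ * (3 * (Q : ℝ) ^ J)) := h3
        _ = ((h * jt t : ℕ) : ℝ) * ((Q : ℝ) ^ J * M₁ * 100) := by ring
    refine h2.trans ?_
    refine div_le_div_of_nonneg_left (Nat.cast_nonneg _) (by positivity) ?_
    exact mul_le_mul (mul_le_mul_of_nonneg_left hφf (by norm_num)) hφD hφD0.le (by positivity)
  -- conclusion
  have hsum := sum_le_sum hmain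
  rw [sum_sub_distrib, sum_const, nsmul_eq_mul] at hsum
  refine le_trans ?_ hsum
  have h9 : (0 : ℝ) ≤ X₁ * X / ((Q : ℝ) ^ J * M₁) := by positivity
  have h10 : (P.card : ℝ) ^ (2 * J) / 2 * (X₁ * X / ((Q : ℝ) ^ J * M₁) / 100) ≤
      ((TT P J).card : ℝ) * (X₁ * X / ((Q : ℝ) ^ J * M₁) / 100) :=
    mul_le_mul_of_nonneg_right (by linarith) (by positivity)
  have h11 : (P.card : ℝ) ^ (2 * J) / 2 * (X₁ * X / ((Q : ℝ) ^ J * M₁) / 100) =
      (P.card : ℝ) ^ (2 * J) * X₁ * X / ((Q : ℝ) ^ J * M₁) / 200 := by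
    ring
  have h12 : 1 / 400 * (P.card : ℝ) ^ (2 * J) * X₁ * X / ((Q : ℝ) ^ J * M₁) =
      (P.card : ℝ) ^ (2 * J) * X₁ * X / ((Q : ℝ) ^ J * M₁) / 400 := by
    ring
  rw [h12]
  linarith

end

end MUR
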