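import Pool.Agent.MUR.St

/-!
# MUR: the upper bound for primes in a progression to a smooth modulus
-/

namespace MUR

open Finset
open Pool.Agent.Lib_helper83.EF (e)
open scoped ArithmeticFunction.zeta ArithmeticFunction.Moebius ArithmeticFunction.vonMangoldt

noncomputable section

namespace LLB

/-- The constant function is trigonometric. -/
theorem trig_one (R : ℕ) : Trig 1 R (fun _ => 1) := by
  refine ⟨fun _ _ => 1, fun w => ?_⟩
  have h1 : smo 1 R = {1} := by
    ext q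
    simp only [smo, mem_filter, mem_Icc, mem_singleton]
    constructor
    · rintro ⟨⟨h1, h2⟩, -⟩
      omega
    · rintro rfl
      refine ⟨⟨le_refl _, le_refl _⟩, ?_⟩
      intro p hp
      simp at hp
  have h2 : cop 1 = {0} := by
    ext q
    simp only [cop, mem_filter, mem_range, mem_singleton]
    constructor
    · rintro ⟨h1, -⟩
      omega
    · rintro rfl
      exact ⟨by norm_num, by norm_num⟩
  rw [h1, sum_singleton, h2, sum_singleton]
  simp [e]

/-- The excluded class. -/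
theorem exists_class {l : ℕ} (hl : l.Prime) (s : ℤ) {A B : ℕ} (c' : ℕ) (hA : ¬ l ∣ A)
    (hB : ¬ l ∣ B) : ∃ r : ℕ, ∀ i : ℕ, 1 ≤ i → i ≡ r [MOD l] →
      (l : ℤ) ∣ ((A * (c' + B * (i - 1)) : ℕ) : ℤ) + s := by
  have : Fact l.Prime := ⟨hl⟩
  have hA' : (A : ZMod l) ≠ 0 := fun h => hA ((ZMod.natCast_eq_zero_iff A l).mp h)
  have hB' : (B : ZMod l) ≠ 0 := fun h => hB ((ZMod.natCast_eq_zero_iff B l).mp h)
  refine ⟨((1 + (B : ZMod l)⁻¹ * (-(s : ZMod l) * (A : ZMod l)⁻¹ - c') : ZMod l)).val, ?_⟩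
  intro i hi hir
  rw [← ZMod.natCast_eq_natCast_iff, ZMod.natCast_zmod_val] at hir
  rw [← ZMod.intCast_zmod_eq_zero_iff_dvd]
  push_cast [Nat.cast_sub hi]
  rw [hir]
  field_simp
  ring

theorem eq_of_mod {w c M₁ : ℕ} (h : w ≡ c [MOD M₁]) : c % M₁ + M₁ * (w / M₁ + 1 - 1) = w := by
  rw [Nat.add_sub_cancel, ← show w % M₁ = c % M₁ from h]
  exact Nat.mod_add_div w M₁

end LLB

theorem t_LLB : M_LLB := by
  rintro ⟨C, hC, hLS⟩
  refine ⟨3200 * C, by positivity, ?_⟩
  intro s M M₁ D x z R w₀ L c hs hM hM₁ hD hR hz hzx hMR hM₁R hDt hxt hbig hL4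
  have hx : 1 ≤ x := by omega
  set F := (Ioc w₀ (w₀ + L)).filter (fun w => w ≡ c [MOD M₁]) with hF
  set S := (Ioc (w₀ / M₁) (w₀ / M₁ + (L / M₁ + 2))).filter (fun i =>
    (c % M₁ + M₁ * (i - 1)) ∈ Ioc w₀ (w₀ + L) ∧
      (mv s (M * D * x * (c % M₁ + M₁ * (i - 1)))).Prime) with hS
  -- the values
  have hval : ∀ w ∈ Ioc w₀ (w₀ + L), z < mv s (M * D * x * w) ∧
      mv s (M * D * x * w) ≤ z ^ 400 ∧ ((mv s (M * D * x * w) : ℕ) : ℤ) =
        ((M * D * x * w : ℕ) : ℤ) + s := by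
    intro w hw
    rw [mem_Ioc] at hw
    have h1 : x ≤ M * D * x * w := by
      have e1 : 1 ≤ M * D := Nat.mul_pos hM hD
      calc x = 1 * x * 1 := by ring
        _ ≤ M * D * x * w := Nat.mul_le_mul (Nat.mul_le_mul_right x e1) (by omega)
    have h2 : M * D * x * w ≤ M * D * x * (w₀ + L) := Nat.mul_le_mul_left _ hw.2
    have h3 : ((mv s (M * D * x * w) : ℕ) : ℤ) = ((M * D * x * w : ℕ) : ℤ) + s := by
      rw [mv, Int.toNat_of_nonneg]
      rcases hs with rfl | rfl <;> omega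
    refine ⟨?_, ?_, h3⟩
    · rcases hs with rfl | rfl <;> omega
    · rcases hs with rfl | rfl <;> omega
  -- the number of primes
  have hcard : (F.filter fun w => (mv s (M * D * x * w)).Prime).card ≤ S.card := by
    apply card_le_card_of_injOn (fun w => w / M₁ + 1)
    · intro w hw
      rw [mem_coe, mem_filter, hF, mem_filter] at hw
      obtain ⟨⟨hw1, hw2⟩, hw3⟩ := hw
      have e1 := LLB.eq_of_mod hw2
      rw [hS, mem_coe, mem_filter]
      dsimp only
      rw [e1]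
      refine ⟨?_, hw1, hw3⟩
      rw [mem_Ioc] at hw1 ⊢
      have h1 : w₀ / M₁ ≤ w / M₁ := Nat.div_le_div_right (by omega)
      have h2 : w / M₁ ≤ (w₀ + L) / M₁ := Nat.div_le_div_right hw1.2
      have h3 : (w₀ + L) / M₁ ≤ w₀ / M₁ + L / M₁ + 1 := by
        rw [Nat.add_div (by omega)]
        split_ifs <;> omega
      omega
    · intro w hw w' hw' hww
      rw [mem_coe, mem_filter, hF, mem_filter] at hw hw'
      have e1 := LLB.eq_of_mod hw.1.2
      have e2 := LLB.eq_of_mod hw'.1.2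
      have e3 : w / M₁ + 1 = w' / M₁ + 1 := hww
      rw [← e1, ← e2, e3]
  have hlz : 0 < Real.log z := Real.log_pos (by exact_mod_cast (by omega : 1 < z))
  have hsum : ∑ w ∈ F, LL (mv s (M * D * x * w)) ≤ (S.card : ℝ) * (400 * Real.log z) := by
    have h1 : ∑ w ∈ F, LL (mv s (M * D * x * w)) =
        ∑ w ∈ F.filter (fun w => (mv s (M * D * x * w)).Prime),
          Real.log (mv s (M * D * x * w)) := by
      rw [Finset.sum_filter (fun w => (mv s (M * D * x * w)).Prime)]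
      exact sum_congr rfl fun w _ => rfl
    rw [h1]
    calc _ ≤ ∑ w ∈ F.filter (fun w => (mv s (M * D * x * w)).Prime), (400 * Real.log z) := by
          apply sum_le_sum
          intro w hw
          rw [mem_filter, hF, mem_filter] at hw
          obtain ⟨h2, h3, -⟩ := hval w hw.1.1
          have h4 : (0 : ℝ) < (mv s (M * D * x * w) : ℕ) := by
            exact_mod_cast (by omega : 0 < mv s (M * D * x * w))
          have h5 : ((mv s (M * D * x * w) : ℕ) : ℝ) ≤ (z : ℝ) ^ 400 := by exact_mod_cast h3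
          have h6 := Real.log_le_log h4 h5
          rw [Real.log_pow] at h6
          exact_mod_cast h6
      _ = ((F.filter fun w => (mv s (M * D * x * w)).Prime).card : ℝ) * (400 * Real.log z) := by
          rw [sum_const, nsmul_eq_mul]
      _ ≤ _ := by
          apply mul_le_mul_of_nonneg_right _ (by positivity)
          exact_mod_cast hcard
  -- the sieve
  have hcls : ∀ l : ℕ, ∃ r : ℕ, l.Prime → R < l → ¬ l ∣ D * x → ∀ i : ℕ, 1 ≤ i → i ≡ r [MOD l] →
      (l : ℤ) ∣ ((M * D * x * (c % M₁ + M₁ * (i - 1)) : ℕ) : ℤ) + s := by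
    intro l
    by_cases hc : l.Prime ∧ R < l ∧ ¬ l ∣ D * x
    · obtain ⟨hl, hRl, hlk⟩ := hc
      have hA : ¬ l ∣ M * D * x := by
        rw [mul_assoc, hl.dvd_mul]
        rintro (h1 | h1)
        · have := hMR l (Nat.mem_primeFactors.mpr ⟨hl, h1, by omega⟩)
          omega
        · exact hlk h1
      have hB : ¬ l ∣ M₁ := by
        intro h1
        have := hM₁R l (Nat.mem_primeFactors.mpr ⟨hl, h1, by omega⟩)
        omega
      obtain ⟨r, hr⟩ := LLB.exists_class hl s (c % M₁) hA hB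
      exact ⟨r, fun _ _ _ => hr⟩
    · exact ⟨0, fun h1 h2 h3 => absurd ⟨h1, h2, h3⟩ hc⟩
  choose ρ hρ using hcls
  have hk1 : 1 ≤ D * x := Nat.mul_pos hD hx
  have hdiv : 16 * z ^ 4 ≤ L / M₁ := (Nat.le_div_iff_mul_le (by omega)).mpr hL4
  have hmain := hLS R 1 z (D * x) (L / M₁ + 2) (w₀ / M₁) S ρ (fun _ => 1) hR le_rfl hk1 hz
    (by rw [one_mul]; omega) (filter_subset _ _) (by
      intro l hl hRl hlz hlk i hi hir
      rw [hS, mem_filter, mem_Ioc] at hi
      obtain ⟨⟨hi1, -⟩, hi2, hi3⟩ := hi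
      have h1 := hρ l hl hRl hlk i (Nat.lt_of_le_of_lt (Nat.zero_le _) hi1) hir
      obtain ⟨h2, -, h3⟩ := hval _ hi2
      rw [← h3] at h1
      have h4 : l ∣ mv s (M * D * x * (c % M₁ + M₁ * (i - 1))) := by exact_mod_cast h1
      have h5 := (Nat.prime_dvd_prime_iff_eq hl hi3).mp h4
      omega) (LLB.trig_one R)
  simp only [norm_one, one_pow, sum_const, nsmul_eq_mul, mul_one, Nat.card_Ioc] at hmain
  have hphi : ((D * x : ℕ) : ℝ) / ((D * x).totient : ℝ) ≤ 4 := by
    have h1 : 0 < (D * x).totient := Nat.totient_pos.mpr (by omega)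
    rw [div_le_iff₀ (by exact_mod_cast h1)]
    have h2 : D * x ≤ 4 * (D * x).totient := by
      have h3 := Nat.totient_super_multiplicative D x
      calc D * x ≤ (2 * D.totient) * (2 * x.totient) := Nat.mul_le_mul hDt hxt
        _ = 4 * (D.totient * x.totient) := by ring
        _ ≤ _ := by omega
    exact_mod_cast h2
  have hL2 : ((w₀ / M₁ + (L / M₁ + 2) - w₀ / M₁ : ℕ) : ℝ) ≤ 2 * ((L : ℝ) / M₁) := by
    rw [Nat.add_sub_cancel_left]
    push_cast
    have h1 : ((L / M₁ : ℕ) : ℝ) ≤ (L : ℝ) / M₁ := Nat.cast_div_le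
    have h2 : (2 : ℝ) ≤ ((L / M₁ : ℕ) : ℝ) := by
      have h3 : 2 ≤ L / M₁ := by
        have h4 : 1 ≤ z ^ 4 := Nat.one_le_pow _ _ (by omega)
        omega
      exact_mod_cast h3
    linarith
  have hlR : 0 ≤ Real.log (R + 1) := Real.log_nonneg (by
    have : (0 : ℝ) ≤ R := Nat.cast_nonneg R
    linarith)
  calc ∑ w ∈ F, LL (mv s (M * D * x * w)) ≤ (S.card : ℝ) * (400 * Real.log z) := hsum
    _ ≤ (C * Real.log (R + 1) * (((D * x : ℕ) : ℝ) / ((D * x).totient : ℝ)) / Real.log z *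
        ((w₀ / M₁ + (L / M₁ + 2) - w₀ / M₁ : ℕ) : ℝ)) * (400 * Real.log z) :=
        mul_le_mul_of_nonneg_right hmain (by positivity)
    _ = 400 * (C * Real.log (R + 1)) * (((D * x : ℕ) : ℝ) / ((D * x).totient : ℝ)) *
        ((w₀ / M₁ + (L / M₁ + 2) - w₀ / M₁ : ℕ) : ℝ) := by
        field_simp
    _ ≤ 400 * (C * Real.log (R + 1)) * 4 * (2 * ((L : ℝ) / M₁)) := by
        apply mul_le_mul _ hL2 (Nat.cast_nonneg _) (by positivity)
        exact mul_le_mul_of_nonneg_left hphi (by positivity)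
    _ = 3200 * C * Real.log (R + 1) * (L / M₁) := by ring

end

end MUR
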