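import Mathlib
import Pool.Agent.MUR.StD

set_option autoImplicit false

/-!
# Project MUR: the bound of LLB in a configuration
-/

namespace MUR

open Finset IPR
open Pool.Agent.Lib_helper83.EF (e)

noncomputable section

namespace LLC

/-- The numerical facts: `Y = X^(1/100)`. -/
lemma nums {X : ℕ} (hX : 2 ^ 500 ≤ X) : ∃ Y : ℝ, Y = (X : ℝ) ^ (1 / 100 : ℝ) ∧ 32 ≤ Y ∧
    Y ^ 100 = X ∧ (X : ℝ) ^ (1 / 2 : ℝ) = Y ^ 50 ∧ (X : ℝ) ^ (99 / 100 : ℝ) = Y ^ 99 := by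
  have hX0 : (0 : ℝ) ≤ X := Nat.cast_nonneg X
  have h2 : ((2 : ℝ)) ^ 500 ≤ X := by exact_mod_cast hX
  refine ⟨(X : ℝ) ^ (1 / 100 : ℝ), rfl, ?_, ?_, ?_, ?_⟩
  · by_contra h
    push Not at h
    have h0 : (0 : ℝ) ≤ (X : ℝ) ^ (1 / 100 : ℝ) := Real.rpow_nonneg hX0 _
    have h3 : ((X : ℝ) ^ (1 / 100 : ℝ)) ^ 100 < 32 ^ 100 := pow_lt_pow_left₀ h h0 (by norm_num)
    have h4 : ((X : ℝ) ^ (1 / 100 : ℝ)) ^ 100 = X := by
      rw [← Real.rpow_natCast, ← Real.rpow_mul hX0]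
      norm_num
    have h5 : (32 : ℝ) ^ 100 = 2 ^ 500 := by
      rw [show (32 : ℝ) = 2 ^ 5 by norm_num, ← pow_mul]
    rw [h4, h5] at h3
    exact absurd h3 (not_lt.2 h2)
  · rw [← Real.rpow_natCast, ← Real.rpow_mul hX0]
    norm_num
  · rw [← Real.rpow_natCast, ← Real.rpow_mul hX0]
    norm_num
  · rw [← Real.rpow_natCast, ← Real.rpow_mul hX0]
    norm_num

/-- The size of the numbers compared with `z ^ 400`. -/
lemma big {Y z : ℝ} (hY : 32 ≤ Y) (hz : Y / 2 ≤ z) : 253 * Y ^ 202 ≤ z ^ 400 := by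
  have hY0 : 0 ≤ Y := by linarith
  have h1 : (Y / 2) ^ 400 ≤ z ^ 400 := pow_le_pow_left₀ (by linarith) hz 400
  have h2 : (32 : ℝ) ^ 198 ≤ Y ^ 198 := pow_le_pow_left₀ (by norm_num) hY 198
  have h3 : (253 : ℝ) * 2 ^ 400 ≤ 32 ^ 198 := by
    rw [show (32 : ℝ) = 2 ^ 5 by norm_num, ← pow_mul]
    calc (253 : ℝ) * 2 ^ 400 ≤ 2 ^ 8 * 2 ^ 400 := by
          apply mul_le_mul_of_nonneg_right (by norm_num) (by positivity)
      _ = 2 ^ 408 := by rw [← pow_add]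
      _ ≤ 2 ^ (5 * 198) := pow_le_pow_right₀ (by norm_num) (by norm_num)
  have h4 : 253 * Y ^ 202 * 2 ^ 400 ≤ Y ^ 400 := by
    have h5 : Y ^ 400 = Y ^ 202 * Y ^ 198 := by rw [← pow_add]
    have h6 : 0 ≤ Y ^ 202 := by positivity
    calc 253 * Y ^ 202 * 2 ^ 400 = Y ^ 202 * (253 * 2 ^ 400) := by rw [mul_comm 253, mul_assoc]
      _ ≤ Y ^ 202 * Y ^ 198 := mul_le_mul_of_nonneg_left (h3.trans h2) h6
      _ = Y ^ 400 := h5.symm
  have h7 : 253 * Y ^ 202 ≤ (Y / 2) ^ 400 := by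
    rw [div_pow, le_div_iff₀ (by positivity)]
    exact h4
  exact h7.trans h1

lemma log_succ {R : ℕ} (hR : 2 ≤ R) : Real.log ((R : ℝ) + 1) ≤ 2 * Real.log R := by
  have h : (R : ℝ) + 1 ≤ (R : ℝ) ^ 2 := by
    have : (2 : ℝ) ≤ R := by exact_mod_cast hR
    nlinarith
  have h1 : Real.log ((R : ℝ) + 1) ≤ Real.log ((R : ℝ) ^ 2) :=
    Real.log_le_log (by positivity) h
  rwa [Real.log_pow, Nat.cast_ofNat] at h1

end LLC

theorem t_LLC : M_LLC := by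
  intro hLLB _ hTB hCF C₁ hC₁
  obtain ⟨C, hC, hL⟩ := hLLB
  refine ⟨2 * C, by positivity, ?_⟩
  intro R₁ d
  obtain ⟨X₀, hX₀⟩ := hCF C₁ hC₁ R₁ d 0
  refine ⟨max X₀ (2 ^ 500), ?_⟩
  intro X hX J Q X₁ H W P s hcfg hs t ht x hx w₀ L c hLl hLu
  have hXb : 2 ^ 500 ≤ X := (le_max_right _ _).trans hX
  obtain ⟨-, -, hp1, hp2, hM1, hMd, hMM, hMQ, hRQ3, -, -, -, -, -, -, -, -, -, hQ16, hJQ, -, hxt, -, -⟩ :=
    hX₀ X ((le_max_left _ _).trans hX) J Q X₁ H W P hcfg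
  obtain ⟨Y, hY, hY32, hYX, hY50, hY99⟩ := LLC.nums hXb
  have hX1 : (1 : ℝ) ≤ X := by
    have : 1 ≤ X := le_trans (Nat.one_le_two_pow) hXb
    exact_mod_cast this
  have hY0 : 0 ≤ Y := by linarith
  have hY1 : 1 ≤ Y := by linarith
  -- the number z
  obtain ⟨z, hzdef⟩ : ∃ z : ℕ, z = ⌊Y⌋₊ := ⟨_, rfl⟩
  have hzle : (z : ℝ) ≤ Y := by rw [hzdef]; exact Nat.floor_le hY0
  have hzlt : Y < z + 1 := by rw [hzdef]; exact Nat.lt_floor_add_one Y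
  have hz2r : Y / 2 ≤ z := by linarith
  have hz2 : 2 ≤ z := by
    have : (2 : ℝ) ≤ z := by linarith
    exact_mod_cast this
  -- the number A
  have hJ2 := hcfg.J2
  have hA : ((16 * MM1 R₁ * Q : ℕ) : ℝ) ^ (20 * J) ≤ Y := by
    refine hcfg.sml.trans ?_
    rw [hY]
    apply Real.rpow_le_rpow_of_exponent_le hX1
    have := hcfg.d1
    linarith
  have hA1 : 1 ≤ 16 * MM1 R₁ * Q := by
    have : 1 ≤ Q := by omega
    nlinarith
  have hQA : Q ≤ 16 * MM1 R₁ * Q := by nlinarith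
  have hMA : MM1 R₁ ≤ 16 * MM1 R₁ * Q := by nlinarith
  have hA1r : (1 : ℝ) ≤ ((16 * MM1 R₁ * Q : ℕ) : ℝ) := by exact_mod_cast hA1
  have hMY : ((MM1 R₁ : ℕ) : ℝ) ≤ Y := by
    have h1 : ((MM1 R₁ : ℕ) : ℝ) ≤ ((16 * MM1 R₁ * Q : ℕ) : ℝ) := by exact_mod_cast hMA
    exact h1.trans ((le_self_pow₀ hA1r (by omega)).trans hA)
  have hQY : (Q : ℝ) ^ (2 * J) ≤ Y := by
    have h1 : (Q : ℝ) ≤ ((16 * MM1 R₁ * Q : ℕ) : ℝ) := by exact_mod_cast hQA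
    calc (Q : ℝ) ^ (2 * J) ≤ ((16 * MM1 R₁ * Q : ℕ) : ℝ) ^ (2 * J) :=
          pow_le_pow_left₀ (Nat.cast_nonneg Q) h1 _
      _ ≤ ((16 * MM1 R₁ * Q : ℕ) : ℝ) ^ (20 * J) := pow_le_pow_right₀ hA1r (by omega)
      _ ≤ Y := hA
  -- the prime factors
  have hpM : ∀ p ∈ (MM1 R₁).primeFactors, p ≤ R₁ := by
    intro p hp
    exact (hp1 p (Nat.prime_of_mem_primeFactors hp)).1 (Nat.dvd_of_mem_primeFactors hp)
  have hR2 := hcfg.R2
  -- the number D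
  have hQ1 : 1 ≤ Q := by omega
  have hRQ : R₁ ≤ Q := by omega
  obtain ⟨hT, -, -⟩ := hTB C₁ Q J (pri R₁) P hcfg.good (by omega) hM1
    (fun p hp => (hp2 p hp).trans hRQ)
  obtain ⟨hy1, hy3, hz1, hz3, -, -, -, -, -, hDt⟩ := hT t ht
  have hDt' := hDt hJQ
  have hD1 : 1 ≤ DD t := by
    have h1 : 1 ≤ Q ^ J := Nat.one_le_pow _ _ hQ1
    exact Nat.one_le_iff_ne_zero.2 (Nat.mul_ne_zero (by omega) (by omega))
  have hD9 : (DD t : ℝ) ≤ 9 * Y := by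
    have h1 : DD t ≤ 3 * Q ^ J * (3 * Q ^ J) := Nat.mul_le_mul hy3 hz3
    have h2 : (DD t : ℝ) ≤ 3 * (Q : ℝ) ^ J * (3 * (Q : ℝ) ^ J) := by exact_mod_cast h1
    have h3 : 3 * (Q : ℝ) ^ J * (3 * (Q : ℝ) ^ J) = 9 * (Q : ℝ) ^ (2 * J) := by ring
    rw [h3] at h2
    linarith
  -- the number x
  have hxφ := hxt x hx
  rw [XX, mem_filter, mem_Ioc] at hx
  obtain ⟨⟨hx1, hx2⟩, -, -⟩ := hx
  have hx1r : (X₁ : ℝ) < x := by exact_mod_cast hx1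
  have hx2r : (x : ℝ) ≤ 2 * X₁ := by exact_mod_cast hx2
  have hX₁lo : Y ^ 99 ≤ 2 * X₁ := by
    refine le_trans ?_ hcfg.X₁lo
    rw [← hY99]
    apply Real.rpow_le_rpow_of_exponent_le hX1
    have := hcfg.d1
    linarith
  have hX₁hi : (X₁ : ℝ) ≤ Y ^ 100 := by
    refine hcfg.X₁hi.trans ?_
    rw [hYX]
    calc (X : ℝ) ^ (1 - d) ≤ (X : ℝ) ^ (1 : ℝ) := by
          apply Real.rpow_le_rpow_of_exponent_le hX1
          have := hcfg.d0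
          linarith
      _ = X := Real.rpow_one _
  have hzx : z + 2 ≤ x := by
    have h1 : Y ^ 2 ≤ Y ^ 99 := pow_le_pow_right₀ hY1 (by norm_num)
    have h2 : (z : ℝ) + 2 ≤ x := by nlinarith
    exact_mod_cast h2
  -- the number W
  have hW : (W : ℝ) ≤ 7 * Y ^ 100 := by
    have h1 : W ≤ 7 * X := by
      refine le_trans ?_ hcfg.Whi
      exact Nat.le_mul_of_pos_right _ (by positivity)
    have h2 : (W : ℝ) ≤ 7 * X := by exact_mod_cast h1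
    rwa [hYX]
  have hwL : ((w₀ + L : ℕ) : ℝ) ≤ 14 * Y ^ 100 := by
    have h1 : ((w₀ + L : ℕ) : ℝ) ≤ 2 * W := by exact_mod_cast hLu
    linarith
  have hMp : pri R₁ ≤ MM1 R₁ := Nat.le_of_dvd hMM hMd
  have hMpY : (pri R₁ : ℝ) ≤ Y := le_trans (by exact_mod_cast hMp) hMY
  have hx200 : (x : ℝ) ≤ 2 * Y ^ 100 := by linarith
  have hprod : pri R₁ * DD t * x * (w₀ + L) + 1 ≤ z ^ 400 := by
    have h1 : (pri R₁ : ℝ) * DD t ≤ Y * (9 * Y) :=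
      mul_le_mul hMpY hD9 (Nat.cast_nonneg _) hY0
    have h2 : (pri R₁ : ℝ) * DD t * x ≤ Y * (9 * Y) * (2 * Y ^ 100) :=
      mul_le_mul h1 hx200 (Nat.cast_nonneg _) (by positivity)
    have h3 : (pri R₁ : ℝ) * DD t * x * ((w₀ + L : ℕ) : ℝ) ≤
        Y * (9 * Y) * (2 * Y ^ 100) * (14 * Y ^ 100) :=
      mul_le_mul h2 hwL (Nat.cast_nonneg _) (by positivity)
    have h4 : Y * (9 * Y) * (2 * Y ^ 100) * (14 * Y ^ 100) = 252 * Y ^ 202 := by ring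
    have h5 : 1 ≤ Y ^ 202 := one_le_pow₀ hY1
    have h6 := LLC.big hY32 hz2r
    have h7 : (pri R₁ : ℝ) * DD t * x * ((w₀ + L : ℕ) : ℝ) + 1 ≤ (z : ℝ) ^ 400 := by
      rw [h4] at h3
      linarith
    exact_mod_cast h7
  have hL50 : Y ^ 50 ≤ L := by rw [← hY50]; exact hLl
  have h16 : 16 * z ^ 4 * MM1 R₁ ≤ L := by
    have h1 : (z : ℝ) ^ 4 ≤ Y ^ 4 := pow_le_pow_left₀ (Nat.cast_nonneg _) hzle 4
    have h2 : 16 * (z : ℝ) ^ 4 * (MM1 R₁ : ℝ) ≤ Y * Y ^ 4 * Y := by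
      apply mul_le_mul (mul_le_mul (by linarith) h1 (by positivity) hY0) hMY (Nat.cast_nonneg _)
        (by positivity)
    have h3 : Y * Y ^ 4 * Y ≤ Y ^ 50 := by
      rw [show Y * Y ^ 4 * Y = Y ^ 6 by ring]
      exact pow_le_pow_right₀ hY1 (by norm_num)
    have h4 : 16 * (z : ℝ) ^ 4 * (MM1 R₁ : ℝ) ≤ L := (h2.trans h3).trans hL50
    exact_mod_cast h4
  have hlog := LLC.log_succ hR2
  constructor
  · refine (hL s (pri R₁) (MM1 R₁) (DD t) x z R₁ w₀ L c hs hM1 hMM hD1 (by omega) hz2 hzx hp2 hpM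
      hDt' hxφ hprod h16).trans ?_
    have h1 : (0 : ℝ) ≤ (L : ℝ) / MM1 R₁ := by positivity
    refine mul_le_mul_of_nonneg_right ?_ h1
    nlinarith
  · have h17 : 16 * z ^ 4 * 1 ≤ L := by
      refine le_trans ?_ h16
      exact Nat.mul_le_mul_left _ hMM
    have h := hL s (pri R₁) 1 (DD t) x z R₁ w₀ L 0 hs hM1 le_rfl hD1 (by omega) hz2 hzx hp2
      (by simp) hDt' hxφ hprod h17
    rw [filter_true_of_mem (fun w _ => Nat.modEq_one)] at h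
    refine h.trans ?_
    rw [Nat.cast_one, div_one]
    refine mul_le_mul_of_nonneg_right ?_ (Nat.cast_nonneg _)
    nlinarith

end

end MUR
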