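import Pool.Agent.MUR.StC
import Pool.Agent.Lib_helper77.EF.LS

/-!
# MUR: the large sieve on a block
-/

namespace MUR

open Finset
open Pool.Agent.Lib_helper83.EF (e)

noncomputable section

namespace LSB

theorem e_add (x y : ℝ) : e (x + y) = e x * e y := by
  unfold e
  rw [← Complex.exp_add]
  congr 1
  push_cast
  ring

theorem norm_e (x : ℝ) : ‖e x‖ = 1 := by
  unfold e
  rw [show (2 * Real.pi * x * Complex.I : ℂ) = ((2 * Real.pi * x : ℝ) : ℂ) * Complex.I by
    push_cast; ring]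
  exact Complex.norm_exp_ofReal_mul_I _

theorem conj_e (x : ℝ) : (starRingEnd ℂ) (e x) = e (-x) := by
  unfold e
  rw [← Complex.exp_conj, show (2 * Real.pi * x * Complex.I : ℂ) =
    ((2 * Real.pi * x : ℝ) : ℂ) * Complex.I by push_cast; ring, map_mul, Complex.conj_ofReal,
    Complex.conj_I]
  congr 1
  push_cast
  ring

theorem norm_ft (φ : ℕ → ℂ) (H i : ℕ) (θ : ℝ) :
    ‖ft φ H i θ‖ = ‖∑ m ∈ range H, (starRingEnd ℂ) (φ (i * H + m)) * e ((m : ℝ) * θ)‖ := by
  have h1 : ft φ H i θ = e (-((i * H : ℕ) : ℝ) * θ) *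
      ∑ m ∈ range H, φ (i * H + m) * e (-((m : ℝ) * θ)) := by
    rw [ft, Finset.sum_Ico_eq_sum_range, Nat.add_sub_cancel_left, mul_sum]
    apply sum_congr rfl
    intro m _
    rw [show -(((i * H + m : ℕ) : ℝ) * θ) = -((i * H : ℕ) : ℝ) * θ + -((m : ℝ) * θ) by
      push_cast; ring, e_add]
    ring
  rw [h1, norm_mul, norm_e, one_mul, ← RCLike.norm_conj, map_sum]
  congr 1
  apply sum_congr rfl
  intro m _
  rw [map_mul, conj_e, neg_neg]

end LSB

theorem t_LSB : S_LSB := by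
  intro φ G H i hG
  have h1 := Pool.Agent.Lib_helper77.EF.ls G H hG
    (fun m => (starRingEnd ℂ) (φ (i * H + m)))
  have h2 : ∑ n ∈ Ico (i * H) (i * H + H), ‖φ n‖ ^ 2 =
      ∑ n ∈ range H, ‖(starRingEnd ℂ) (φ (i * H + n))‖ ^ 2 := by
    rw [Finset.sum_Ico_eq_sum_range, Nat.add_sub_cancel_left]
    exact sum_congr rfl fun m _ => by rw [RCLike.norm_conj]
  rw [h2]
  refine le_trans (le_of_eq ?_) h1
  apply sum_congr rfl
  intro q _
  apply sum_congr rfl
  intro a _
  rw [LSB.norm_ft]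
  congr 2
  apply sum_congr rfl
  intro m _
  rw [mul_div_assoc]

end

end MUR
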