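import Pool.Agent.MUR.StB
import Pool.Agent.IPR.LSV

set_option autoImplicit false

/-!
LSV2: the large sieve, variance form, full strength (from the dual large sieve DLS2).
-/

namespace MUR

open Finset IPR IPR.LSV

theorem t_LSV2 : M_LSV2 := by
  intro hD0
  obtain ⟨C, hC, hD⟩ := hD0
  refine ⟨C, hC, ?_⟩
  intro P U f ρ x N β hU hf hP
  classical
  set s := (Ico x (x + N)).filter (fun k => k ≡ ρ [MOD f]) with hs
  have h1 : ∀ u ∈ P, ∑ t ∈ (range u).filter (fun t => t.Coprime u),
      (∑ k ∈ s, β k * ps u t k) ^ 2 = ∑ t ∈ range u, G s β u t ^ 2 := by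
    intro u _
    rw [Finset.sum_filter]
    apply Finset.sum_congr rfl
    intro t _
    unfold G
    split_ifs <;> simp
  rw [Finset.sum_congr rfl h1]
  set A := ∑ u ∈ P, ∑ t ∈ range u, G s β u t ^ 2 with hA
  have hA0 : 0 ≤ A := Finset.sum_nonneg fun u _ => Finset.sum_nonneg fun t _ => sq_nonneg _
  have h2 : A = ∑ k ∈ s, β k * ∑ u ∈ P, G s β u k := by
    have h3 : ∀ u ∈ P, ∑ t ∈ range u, G s β u t ^ 2 = ∑ k ∈ s, β k * G s β u k := by
      intro u hu
      have h4 : ∀ t ∈ range u, G s β u t ^ 2 = ∑ k ∈ s, β k * (G s β u t * ps u t k) := by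
        intro t _
        by_cases h : t.Coprime u
        · have h5 : G s β u t = ∑ k ∈ s, β k * ps u t k := by
            unfold G
            rw [if_pos h]
          rw [sq]
          nth_rewrite 2 [h5]
          rw [Finset.mul_sum]
          apply Finset.sum_congr rfl
          intro k _
          ring
        · have h5 : G s β u t = 0 := by
            unfold G
            rw [if_neg h]
          rw [h5]
          simp
      rw [Finset.sum_congr rfl h4, Finset.sum_comm]
      apply Finset.sum_congr rfl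
      intro k _
      rw [← Finset.mul_sum, repro (hP u hu).1 (pure_G (hP u hu).1)]
    rw [hA, Finset.sum_congr rfl h3, Finset.sum_comm]
    apply Finset.sum_congr rfl
    intro k _
    rw [Finset.mul_sum]
  have h3 := hD P U f ρ x N (fun u => G s β u) hU hf hP (fun u hu => pure_G (hP u hu).1)
  rw [← hs] at h3
  have h4 : A ^ 2 ≤ (∑ k ∈ s, β k ^ 2) * (C * dl2 N f U * A) := by
    calc A ^ 2 = (∑ k ∈ s, β k * ∑ u ∈ P, G s β u k) ^ 2 := by rw [← h2]
      _ ≤ (∑ k ∈ s, β k ^ 2) * ∑ k ∈ s, (∑ u ∈ P, G s β u k) ^ 2 :=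
        Finset.sum_mul_sq_le_sq_mul_sq s β _
      _ ≤ _ := mul_le_mul_of_nonneg_left h3 (Finset.sum_nonneg fun k _ => sq_nonneg _)
  have hd : 0 ≤ C * dl2 N f U := by
    unfold dl2
    positivity
  rcases hA0.eq_or_lt with h0 | h0
  · rw [← h0]
    exact mul_nonneg hd (Finset.sum_nonneg fun k _ => sq_nonneg _)
  · have h5 : A * A ≤ (C * dl2 N f U * ∑ k ∈ s, β k ^ 2) * A := by
      calc A * A = A ^ 2 := (sq A).symm
        _ ≤ _ := h4
        _ = _ := by ring
    exact le_of_mul_le_mul_right h5 h0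

end MUR
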