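import Mathlib
import Pool.Agent.MUR.StE

set_option autoImplicit false

/-!
# Project MUR: the lower bound for one window and one class (MT)
-/

namespace MUR

open Finset IPR
open Pool.Agent.Lib_helper83.EF (e)

noncomputable section

namespace MT

/-- A prime which is at most `R` divides the product of the primes up to `R`. -/
theorem dvd_pri {R p : ℕ} (hp : p.Prime) (h : p ≤ R) : p ∣ pri R := by
  unfold pri
  refine Finset.dvd_prod_of_mem (fun p => p) ?_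
  rw [mem_filter, mem_Icc]
  exact ⟨⟨hp.one_le, h⟩, hp⟩

/-- The class `cl` is prime to the modulus. -/
theorem cl_coprime {s : ℤ} (hs : s = 1 ∨ s = -1) {R M₁ : ℕ} (hM : 1 ≤ pri R) (hM₁ : 1 ≤ M₁)
    (hp : ∀ p : ℕ, p.Prime → (p ∣ M₁ ↔ p ≤ R)) (hq : ∀ p ∈ (pri R).primeFactors, p ≤ R)
    (y ν ξ : ℕ) : (cl s (pri R) M₁ y ν ξ).Coprime (pri R * M₁) := by
  by_contra hc
  obtain ⟨p, pp, h1, h2⟩ := Nat.Prime.not_coprime_iff_dvd.mp hc
  have h3 : p ∣ pri R := by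
    rcases (Nat.Prime.dvd_mul pp).mp h2 with h | h
    · exact h
    · exact dvd_pri pp ((hp p pp).mp h)
  have hpos : (0 : ℤ) < ((pri R * M₁ : ℕ) : ℤ) := by
    have : 0 < pri R * M₁ := Nat.mul_pos (by omega) (by omega)
    exact_mod_cast this
  have h4 : ((cl s (pri R) M₁ y ν ξ : ℕ) : ℤ) =
      ((pri R : ℤ) * ((y : ℤ) * ξ * ((ν : ℤ) - (pri R : ℤ) * ξ * y)) + s) % ((pri R * M₁ : ℕ) : ℤ) := by
    unfold cl
    exact Int.toNat_of_nonneg (Int.emod_nonneg _ hpos.ne')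
  have h5 : (p : ℤ) ∣ ((pri R : ℤ) * ((y : ℤ) * ξ * ((ν : ℤ) - (pri R : ℤ) * ξ * y)) + s) %
      ((pri R * M₁ : ℕ) : ℤ) := by
    rw [← h4]
    exact_mod_cast h1
  have h6 : (p : ℤ) ∣ ((pri R * M₁ : ℕ) : ℤ) := by exact_mod_cast h2
  have h7 : (p : ℤ) ∣ (pri R : ℤ) * ((y : ℤ) * ξ * ((ν : ℤ) - (pri R : ℤ) * ξ * y)) + s :=
    (Int.dvd_iff_emod_eq_zero.mpr (by
      have := Int.emod_emod_of_dvd ((pri R : ℤ) * ((y : ℤ) * ξ * ((ν : ℤ) - (pri R : ℤ) * ξ * y)) + s) h6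
      rw [← this]
      exact Int.emod_eq_zero_of_dvd h5))
  have h8 : (p : ℤ) ∣ (pri R : ℤ) * ((y : ℤ) * ξ * ((ν : ℤ) - (pri R : ℤ) * ξ * y)) :=
    Dvd.dvd.mul_right (by exact_mod_cast h3) _
  have h9 : (p : ℤ) ∣ s := (Int.dvd_add_right h8).mp h7
  have h10 : (p : ℤ) ∣ 1 := by
    rcases hs with rfl | rfl
    · exact h9
    · exact (Int.dvd_neg).mp h9
  have h11 : p ∣ 1 := by exact_mod_cast h10
  exact pp.one_lt.ne' (Nat.dvd_one.mp h11)

theorem card_cop (q : ℕ) : (cop q).card = q.totient := by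
  unfold cop Nat.totient
  congr 1
  ext a
  rw [mem_filter, mem_filter, Nat.coprime_comm]

/-- `log log X` is small compared with `log X`. -/
theorem ev_log (M c : ℝ) (hM : 0 ≤ M) (hc : 0 < c) :
    ∀ᶠ X : ℕ in Filter.atTop, M * Real.log (Real.log X) ≤ c * Real.log X := by
  have h1 : Filter.Tendsto (fun X : ℕ => Real.log (X : ℝ)) Filter.atTop Filter.atTop :=
    Real.tendsto_log_atTop.comp tendsto_natCast_atTop_atTop
  have h2 := (Real.isLittleO_log_id_atTop.comp_tendsto h1).bound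
    (show 0 < c / (M + 1) by positivity)
  filter_upwards [h2, h1.eventually_ge_atTop 0] with X hX h0
  simp only [Function.comp_apply, id, Real.norm_eq_abs] at hX
  rw [abs_of_nonneg h0] at hX
  have h3 : Real.log (Real.log X) ≤ c / (M + 1) * Real.log X := (le_abs_self _).trans hX
  calc M * Real.log (Real.log X) ≤ M * (c / (M + 1) * Real.log X) :=
        mul_le_mul_of_nonneg_left h3 hM
    _ ≤ (M + 1) * (c / (M + 1) * Real.log X) := by
        refine mul_le_mul_of_nonneg_right (by linarith) ?_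
        positivity
    _ = c * Real.log X := by field_simp

end MT

theorem t_MT : M_MT := by
  intro hMTT hLBS hSWA hTB hCF C₁ hC₁
  obtain ⟨c1, hc1, h1⟩ := hMTT C₁ hC₁
  obtain ⟨c2, hc2, h2⟩ := hLBS C₁ hC₁
  refine ⟨c1 * c2 / 2, by positivity, ?_⟩
  intro R₁ d
  obtain ⟨Xa, h1⟩ := h1 R₁ d
  obtain ⟨Xb, h2⟩ := h2 R₁ d
  obtain ⟨Xc, h3⟩ := hCF C₁ hC₁ R₁ d 0
  obtain ⟨Xd, h4⟩ := Filter.eventually_atTop.mp
    (MT.ev_log (MM1 R₁ : ℝ) (c1 * c2 / 2) (by positivity) (by positivity))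
  refine ⟨max (max Xa Xb) (max Xc (max Xd 3)), ?_⟩
  intro X hX J Q X₁ H W P s hcfg hs N₁ ν hN1 hN2
  have hXa : Xa ≤ X := by omega
  have hXb : Xb ≤ X := by omega
  have hXc : Xc ≤ X := by omega
  have hXd : Xd ≤ X := by omega
  have hX3 : 3 ≤ X := by omega
  obtain ⟨-, hll, hpM, hpP, hP1, -, hM1, hMQ, hRQ, -, -, -, -, -, -, -, -, -, hQ16, -, -, -, -, -⟩ :=
    h3 X hXc J Q X₁ H W P hcfg
  obtain ⟨A, B, hAB, hκ⟩ := h2 X hXb J Q X₁ H W P s hcfg hs N₁ hN1 hN2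
  have hTBc := (hTB C₁ Q J (pri R₁) P hcfg.good (by have := hcfg.J2; omega) hP1
    (fun p hp => by have := hpP p hp; omega)).2.2
  have hlog := h4 X hXd
  have hXpos : (0 : ℝ) < X := by
    have : 0 < X := by omega
    exact_mod_cast this
  have hL1 : 0 < Real.log X := Real.log_pos (by
    have : (3 : ℝ) ≤ X := by exact_mod_cast hX3
    linarith)
  have hL2 : 0 < Real.log (Real.log X) := by linarith
  have hMpos : (0 : ℝ) < (MM1 R₁ : ℝ) := by exact_mod_cast hM1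
  have hφ : (0 : ℝ) < ((MM1 R₁).totient : ℝ) := by
    exact_mod_cast Nat.totient_pos.mpr hM1
  have hQpos : (0 : ℝ) < (Q : ℝ) ^ J := by
    have : (0 : ℝ) < Q := by
      have : 0 < Q := by omega
      exact_mod_cast this
    positivity
  set T : ℝ := (P.card : ℝ) ^ (2 * J) with hT
  have hT0 : 0 ≤ T := by positivity
  set h' : ℝ := ((HL (MM1 R₁) X (d / 100) : ℕ) : ℝ) with hh'
  have hh0 : 0 ≤ h' := by positivity
  have hX1 : (0 : ℝ) ≤ X₁ := by positivity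
  -- the inner sums
  set G : (Fin J → ℕ × ℕ) → ℕ → ℝ := fun t ξ => ∑ m ∈ (Ioc (A t) (B t)).filter (fun m =>
        m ≡ cl s (pri R₁) (MM1 R₁) (yy t) ν ξ [MOD pri R₁ * MM1 R₁] ∧
        ((m : ℕ) : ZMod (DD t)) = ((s : ℤ) : ZMod (DD t))), LL m with hG
  set F : (Fin J → ℕ × ℕ) → ℝ := fun t => ∑ x ∈ XX X₁ (3 * Q),
      ∑ w ∈ WW (pri R₁) (MM1 R₁) (HL (MM1 R₁) X (d / 100)) W N₁ ν t x,
        LL (mv s (pri R₁ * DD t * x * w)) with hF
  have e1 : ∀ t ∈ TT P J, c1 / Real.log (Real.log X) * (h' / X) * (1 / ((MM1 R₁).totient : ℝ)) *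
      ∑ ξ ∈ cop (MM1 R₁), G t ξ - (X₁ : ℝ) * h' / ((Q : ℝ) ^ J * Real.log X) ≤ F t := by
    intro t ht
    have := h1 X hXa J Q X₁ H W P s hcfg hs t ht N₁ ν (A t) (B t) hN1 hN2 (hAB t ht).1 (hAB t ht).2
    exact this
  have e2 : ∀ ξ ∈ cop (MM1 R₁), c2 * T * X₁ * X / ((Q : ℝ) ^ J * MM1 R₁) ≤ ∑ t ∈ TT P J, G t ξ := by
    intro ξ _
    exact hκ (fun t => cl s (pri R₁) (MM1 R₁) (yy t) ν ξ)
      (fun t _ => MT.cl_coprime hs hP1 hM1 hpM hpP (yy t) ν ξ)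
  have e3 : ((MM1 R₁).totient : ℝ) * (c2 * T * X₁ * X / ((Q : ℝ) ^ J * MM1 R₁)) ≤
      ∑ t ∈ TT P J, ∑ ξ ∈ cop (MM1 R₁), G t ξ := by
    rw [Finset.sum_comm]
    calc ((MM1 R₁).totient : ℝ) * (c2 * T * X₁ * X / ((Q : ℝ) ^ J * MM1 R₁))
        = ∑ ξ ∈ cop (MM1 R₁), (c2 * T * X₁ * X / ((Q : ℝ) ^ J * MM1 R₁)) := by
          rw [Finset.sum_const, MT.card_cop, nsmul_eq_mul]
      _ ≤ _ := Finset.sum_le_sum e2
  have e4 : c1 / Real.log (Real.log X) * (h' / X) * (1 / ((MM1 R₁).totient : ℝ)) *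
      (∑ t ∈ TT P J, ∑ ξ ∈ cop (MM1 R₁), G t ξ) -
      ((TT P J).card : ℝ) * ((X₁ : ℝ) * h' / ((Q : ℝ) ^ J * Real.log X)) ≤ ∑ t ∈ TT P J, F t := by
    have := Finset.sum_le_sum e1
    rw [Finset.sum_sub_distrib, Finset.sum_const, nsmul_eq_mul, ← Finset.mul_sum] at this
    exact this
  have e5 : c1 / Real.log (Real.log X) * (h' / X) * (1 / ((MM1 R₁).totient : ℝ)) *
      (((MM1 R₁).totient : ℝ) * (c2 * T * X₁ * X / ((Q : ℝ) ^ J * MM1 R₁))) ≤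
      c1 / Real.log (Real.log X) * (h' / X) * (1 / ((MM1 R₁).totient : ℝ)) *
      (∑ t ∈ TT P J, ∑ ξ ∈ cop (MM1 R₁), G t ξ) :=
    mul_le_mul_of_nonneg_left e3 (by positivity)
  have e6 : ((TT P J).card : ℝ) * ((X₁ : ℝ) * h' / ((Q : ℝ) ^ J * Real.log X)) ≤
      T * ((X₁ : ℝ) * h' / ((Q : ℝ) ^ J * Real.log X)) :=
    mul_le_mul_of_nonneg_right hTBc (by positivity)
  have e7 : T * ((X₁ : ℝ) * h' / ((Q : ℝ) ^ J * Real.log X)) ≤
      c1 * c2 / 2 * (T * X₁ * h' / ((Q : ℝ) ^ J * MM1 R₁ * Real.log (Real.log X))) := by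
    have k1 : 1 / Real.log X ≤ c1 * c2 / 2 / (MM1 R₁ * Real.log (Real.log X)) := by
      rw [div_le_div_iff₀ hL1 (by positivity)]
      linarith
    calc T * ((X₁ : ℝ) * h' / ((Q : ℝ) ^ J * Real.log X))
        = (T * X₁ * h' / (Q : ℝ) ^ J) * (1 / Real.log X) := by field_simp
      _ ≤ (T * X₁ * h' / (Q : ℝ) ^ J) * (c1 * c2 / 2 / (MM1 R₁ * Real.log (Real.log X))) :=
          mul_le_mul_of_nonneg_left k1 (by positivity)
      _ = _ := by field_simp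
  have e8 : c1 / Real.log (Real.log X) * (h' / X) * (1 / ((MM1 R₁).totient : ℝ)) *
      (((MM1 R₁).totient : ℝ) * (c2 * T * X₁ * X / ((Q : ℝ) ^ J * MM1 R₁))) =
      c1 * c2 * (T * X₁ * h' / ((Q : ℝ) ^ J * MM1 R₁ * Real.log (Real.log X))) := by
    field_simp
  have e9 : c1 * c2 / 2 * T * X₁ * h' / ((Q : ℝ) ^ J * MM1 R₁ * Real.log (Real.log X)) =
      c1 * c2 / 2 * (T * X₁ * h' / ((Q : ℝ) ^ J * MM1 R₁ * Real.log (Real.log X))) := by
    ring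
  rw [e9]
  have : c1 * c2 / 2 * (T * X₁ * h' / ((Q : ℝ) ^ J * MM1 R₁ * Real.log (Real.log X))) ≤
      ∑ t ∈ TT P J, F t := by linarith
  exact this

end

end MUR
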