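import Mathlib
import Pool.Agent.MUR.StE

set_option autoImplicit false

/-!
# Project MUR: from `w` to the primes
-/

namespace MUR

open Finset IPR
open Pool.Agent.Lib_helper83.EF (e)

noncomputable section

namespace MT1

lemma core {s : ℤ} (hs : s = 1 ∨ s = -1) {M M₁ y z ν x N₁ A₀ Δ a b H' W m : ℕ}
    (hM : 0 < M) (hM₁ : 0 < M₁) (hy : 0 < y) (hx : 0 < x)
    (h1 : M.Coprime (y * z)) (h2 : M.Coprime x) (h3 : (y * z).Coprime x)
    (h4 : (y * x).Coprime M₁) (hA : A₀ < x) (hA' : x ≤ A₀ + Δ)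
    (ha : N₁ * M * y * (A₀ + Δ) ≤ a) (hb : b + 1 ≤ (N₁ + H' / 2) * M * y * A₀)
    (hm : a < m) (hm' : m ≤ b)
    (hc : m ≡ cl s M M₁ y ν (x % M₁) [MOD M * M₁])
    (hD : ((m : ℕ) : ZMod (y * z)) = ((s : ℤ) : ZMod (y * z)))
    (hX : ((m : ℕ) : ZMod x) = ((s : ℤ) : ZMod x))
    (hH : 2 * (M * x * y) < H') (hW : N₁ + H' / 2 < W * z) (hN : 0 < N₁) :
    ∃ w, w ∈ Ioc 0 W ∧ N₁ ≤ M * x * y + w * z ∧ M * x * y + w * z < N₁ + H' ∧
      M * x * y + w * z ≡ ν [MOD M₁] ∧ mv s (M * (y * z) * x * w) = m := by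
  have hMM : (0 : ℤ) < ((M * M₁ : ℕ) : ℤ) := by
    have : 0 < M * M₁ := Nat.mul_pos hM hM₁
    exact_mod_cast this
  -- the class
  set ξ : ℤ := ((x % M₁ : ℕ) : ℤ) with hξ
  set T : ℤ := (y : ℤ) * ξ * ((ν : ℤ) - (M : ℤ) * ξ * y) with hT
  have hcl : ((cl s M M₁ y ν (x % M₁) : ℕ) : ℤ) = ((M : ℤ) * T + s) % ((M * M₁ : ℕ) : ℤ) := by
    unfold cl
    rw [Int.toNat_of_nonneg (Int.emod_nonneg _ hMM.ne')]
  have hc1 : ((M * M₁ : ℕ) : ℤ) ∣ (m : ℤ) - ((M : ℤ) * T + s) := by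
    have h5 : ((m : ℕ) : ℤ) ≡ ((cl s M M₁ y ν (x % M₁) : ℕ) : ℤ) [ZMOD ((M * M₁ : ℕ) : ℤ)] :=
      (Int.natCast_modEq_iff).mpr hc
    rw [hcl] at h5
    have h6 : ((M : ℤ) * T + s) % ((M * M₁ : ℕ) : ℤ) ≡ (M : ℤ) * T + s [ZMOD ((M * M₁ : ℕ) : ℤ)] :=
      Int.mod_modEq _ _
    exact (Int.modEq_iff_dvd.mp (h5.trans h6).symm)
  have dM : (M : ℤ) ∣ (m : ℤ) - s := by
    have h5 : (M : ℤ) ∣ ((M * M₁ : ℕ) : ℤ) := by push_cast; exact dvd_mul_right _ _
    have h6 := h5.trans hc1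
    have h7 : (m : ℤ) - s = ((m : ℤ) - ((M : ℤ) * T + s)) + M * T := by ring
    rw [h7]
    exact dvd_add h6 (dvd_mul_right _ _)
  have dD : ((y * z : ℕ) : ℤ) ∣ (m : ℤ) - s := by
    have h5 : (((m : ℕ) : ℤ) : ZMod (y * z)) = ((s : ℤ) : ZMod (y * z)) := by
      rw [← hD]; norm_cast
    have := (ZMod.intCast_eq_intCast_iff_dvd_sub _ _ _).mp h5.symm
    exact this
  have dX : ((x : ℕ) : ℤ) ∣ (m : ℤ) - s := by
    have h5 : (((m : ℕ) : ℤ) : ZMod x) = ((s : ℤ) : ZMod x) := by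
      rw [← hX]; norm_cast
    have := (ZMod.intCast_eq_intCast_iff_dvd_sub _ _ _).mp h5.symm
    exact this
  -- positivity of `m - s`
  have hapos : 0 < a := by
    have h5 : 0 < N₁ * M * y * (A₀ + Δ) :=
      Nat.mul_pos (Nat.mul_pos (Nat.mul_pos hN hM) hy) (lt_of_lt_of_le hx hA')
    omega
  have hms : (a : ℤ) ≤ (m : ℤ) - s := by
    rcases hs with rfl | rfl
    · have : (a : ℤ) < m := by exact_mod_cast hm
      linarith
    · have : (a : ℤ) < m := by exact_mod_cast hm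
      linarith
  have hms' : (m : ℤ) - s ≤ (b : ℤ) + 1 := by
    rcases hs with rfl | rfl
    · have : (m : ℤ) ≤ b := by exact_mod_cast hm'
      linarith
    · have : (m : ℤ) ≤ b := by exact_mod_cast hm'
      linarith
  obtain ⟨k, hk⟩ : ∃ k : ℕ, (m : ℤ) - s = (k : ℤ) :=
    ⟨((m : ℤ) - s).toNat, (Int.toNat_of_nonneg (by
      have : (0 : ℤ) < a := by exact_mod_cast hapos
      linarith)).symm⟩
  rw [hk] at dM dD dX hms hms'
  have hka : a ≤ k := by exact_mod_cast hms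
  have hkb : k ≤ b + 1 := by exact_mod_cast hms'
  have dM' : M ∣ k := by exact_mod_cast dM
  have dD' : y * z ∣ k := by exact_mod_cast dD
  have dX' : x ∣ k := by exact_mod_cast dX
  have dMD : M * (y * z) ∣ k := h1.mul_dvd_of_dvd_of_dvd dM' dD'
  have dall : M * (y * z) * x ∣ k := by
    refine Nat.Coprime.mul_dvd_of_dvd_of_dvd ?_ dMD dX'
    exact Nat.Coprime.mul_left h2 h3
  obtain ⟨w, hw⟩ := dall
  have hMyx : 0 < M * y * x := Nat.mul_pos (Nat.mul_pos hM hy) hx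
  have hlow : N₁ ≤ w * z := by
    have h5 : N₁ * (M * y * x) ≤ (w * z) * (M * y * x) := by
      calc N₁ * (M * y * x) = N₁ * M * y * x := by ring
        _ ≤ N₁ * M * y * (A₀ + Δ) := Nat.mul_le_mul_left _ hA'
        _ ≤ a := ha
        _ ≤ k := hka
        _ = (w * z) * (M * y * x) := by rw [hw]; ring
    exact Nat.le_of_mul_le_mul_right h5 hMyx
  have hupp : w * z ≤ N₁ + H' / 2 := by
    have h5 : (w * z) * (M * y * x) ≤ (N₁ + H' / 2) * (M * y * x) := by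
      calc (w * z) * (M * y * x) = k := by rw [hw]; ring
        _ ≤ b + 1 := hkb
        _ ≤ (N₁ + H' / 2) * M * y * A₀ := hb
        _ ≤ (N₁ + H' / 2) * M * y * x := Nat.mul_le_mul_left _ hA.le
        _ = (N₁ + H' / 2) * (M * y * x) := by ring
    exact Nat.le_of_mul_le_mul_right h5 hMyx
  refine ⟨w, ?_, ?_, ?_, ?_, ?_⟩
  · rw [mem_Ioc]
    constructor
    · rcases Nat.eq_zero_or_pos w with h | h
      · rw [h] at hlow; omega
      · exact h
    · have h5 : w * z < W * z := lt_of_le_of_lt hupp hW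
      exact (Nat.lt_of_mul_lt_mul_right h5).le
  · omega
  · omega
  · -- the congruence
    have h5 : ((M * M₁ : ℕ) : ℤ) ∣ (M : ℤ) * (((y * z : ℕ) : ℤ) * x * w - T) := by
      have h6 : (M : ℤ) * (((y * z : ℕ) : ℤ) * x * w - T) = (m : ℤ) - ((M : ℤ) * T + s) := by
        have h7 : (m : ℤ) = k + s := by linarith
        rw [h7, hw]
        push_cast
        ring
      rw [h6]
      exact hc1
    have h6 : (M₁ : ℤ) ∣ ((y * z : ℕ) : ℤ) * x * w - T := by
      rw [Nat.cast_mul] at h5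
      exact (mul_dvd_mul_iff_left (by exact_mod_cast hM.ne')).mp h5
    have hxξ : (M₁ : ℤ) ∣ (x : ℤ) - ξ := by
      rw [hξ]
      push_cast
      exact Int.dvd_self_sub_emod
    have h7 : (M₁ : ℤ) ∣ ((y * x : ℕ) : ℤ) * (((M * x * y + w * z : ℕ) : ℤ) - ν) := by
      have e1 : ((y * x : ℕ) : ℤ) * (((M * x * y + w * z : ℕ) : ℤ) - ν) =
          (((y * z : ℕ) : ℤ) * x * w - T) +
          ((x : ℤ) - ξ) * (M * y * y * (x + ξ) - y * ν) := by
        rw [hT]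
        push_cast
        ring
      rw [e1]
      exact dvd_add h6 (Dvd.dvd.mul_right hxξ _)
    have h8 : (M₁ : ℤ) ∣ ((M * x * y + w * z : ℕ) : ℤ) - ν := by
      refine IsCoprime.dvd_of_dvd_mul_left ?_ h7
      exact (Nat.isCoprime_iff_coprime.mpr h4.symm)
    have h9 : (ν : ℤ) ≡ ((M * x * y + w * z : ℕ) : ℤ) [ZMOD (M₁ : ℤ)] := Int.modEq_iff_dvd.mpr h8
    exact ((Int.natCast_modEq_iff).mp h9).symm
  · unfold mv
    rw [← hw]
    have : ((k : ℕ) : ℤ) + s = m := by linarith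
    rw [this]
    simp

/-- Coprimality from separated prime factors. -/
lemma cop_of {m n B : ℕ} (hn : n ≠ 0) (h1 : ∀ p ∈ m.primeFactors, p ≤ B) (hm : m ≠ 0)
    (h2 : ∀ p ∈ n.primeFactors, B < p) : m.Coprime n := by
  rw [Nat.coprime_iff_gcd_eq_one, ← Nat.coprime_iff_gcd_eq_one]
  refine Nat.Coprime.symm (Nat.coprime_of_dvd ?_)
  intro p hp h3 h4
  have a1 := h1 p (Nat.mem_primeFactors.mpr ⟨hp, h4, hm⟩)
  have a2 := h2 p (Nat.mem_primeFactors.mpr ⟨hp, h3, hn⟩)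
  omega

end MT1

theorem t_MT1 : M_MT1 := by
  classical
  intro _ hTB hCF C₁ hC₁ R₁ d
  obtain ⟨X₀, hX₀⟩ := hCF C₁ hC₁ R₁ d 1
  refine ⟨max X₀ 16, ?_⟩
  intro X hX J Q X₁ H W P s cfg hs t ht x hx N₁ ν A₀ Δ a b hN1 hN2 hA hA' ha hb
  have hXX₀ : X₀ ≤ X := le_of_max_le_left hX
  have hX16 : 16 ≤ X := le_of_max_le_right hX
  obtain ⟨-, -, hpM1, hpM, hM1, -, hMM1, hMM1Q, h3R, -, -, -, -, hHLlo, hHLhi, -, -, -, hQ16, -, hsml,
    -, -, -⟩ := hX₀ X hXX₀ J Q X₁ H W P cfg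
  set M := pri R₁ with hMdef
  set M₁ := MM1 R₁ with hM₁def
  set H' := HL M₁ X (d / 100) with hH'def
  have hJ1 : 1 ≤ J := le_trans (by norm_num) cfg.J2
  obtain ⟨htb, -, -⟩ := hTB C₁ Q J M P cfg.good hJ1 hM1 (fun p hp => (hpM p hp).trans (by omega))
  obtain ⟨hy1, hy2, hz1, hz2, -, -, -, hDP, -, -⟩ := htb t ht
  have hQpos : 0 < Q := by omega
  have hQJ : 0 < Q ^ J := Nat.pow_pos hQpos
  have hypos : 0 < yy t := lt_of_lt_of_le hQJ hy1
  have hzpos : 0 < zz t := lt_of_lt_of_le hQJ hz1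
  have hDpos : 0 < DD t := Nat.mul_pos hypos hzpos
  have hxm := hx
  unfold XX at hxm
  rw [mem_filter, mem_Ioc] at hxm
  obtain ⟨⟨hx1, hx2⟩, -, hx3⟩ := hxm
  have hxpos : 0 < x := by omega
  have hNpos : 0 < N₁ := by omega
  -- prime factors
  have hDlo : ∀ p ∈ (DD t).primeFactors, Q < p := fun p hp => cfg.good.lo p (hDP hp)
  have hDhi : ∀ p ∈ (DD t).primeFactors, p ≤ 3 * Q := fun p hp => by
    have h5 := cfg.good.hi p (hDP hp)
    have h6 : Q / J ≤ Q := Nat.div_le_self _ _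
    omega
  have c1 : M.Coprime (DD t) := by
    refine MT1.cop_of (B := Q) hDpos.ne' (fun p hp => (hpM p hp).trans (by omega)) (by omega) hDlo
  have c2 : M.Coprime x := by
    refine MT1.cop_of (B := 3 * Q) hxpos.ne' (fun p hp => (hpM p hp).trans (by omega)) (by omega) hx3
  have c3 : (DD t).Coprime x := MT1.cop_of (B := 3 * Q) hxpos.ne' hDhi hDpos.ne' hx3
  have hM₁f : ∀ p ∈ M₁.primeFactors, p ≤ Q := fun p hp => by
    have h5 := (hpM1 p (Nat.prime_of_mem_primeFactors hp)).mp (Nat.dvd_of_mem_primeFactors hp)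
    omega
  have c4 : (yy t * x).Coprime M₁ := by
    have h5 : M₁.Coprime (DD t) := MT1.cop_of (B := Q) hDpos.ne' hM₁f (by omega) hDlo
    have h6 : M₁.Coprime x := MT1.cop_of (B := 3 * Q) hxpos.ne'
      (fun p hp => (hM₁f p hp).trans (by omega)) (by omega) hx3
    have h7 : M₁.Coprime (yy t) := by
      have : DD t = yy t * zz t := rfl
      rw [this] at h5
      exact Nat.Coprime.coprime_mul_right_right h5
    exact (Nat.Coprime.mul_right h7 h6).symm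
  have hMle : M ≤ M₁ := by
    rw [hM₁def, hMdef]
    unfold MM1
    refine Nat.le_mul_of_pos_right _ ?_
    rcases Nat.eq_zero_or_pos ((Icc 1 R₁).lcm id) with h | h
    · rw [hM₁def] at hMM1
      unfold MM1 at hMM1
      rw [h] at hMM1
      omega
    · exact h
  -- sizes
  have hXr : (1 : ℝ) ≤ X := by
    have : 1 ≤ X := by omega
    exact_mod_cast this
  have hXp : (0 : ℝ) < X := by linarith
  have hd0 := cfg.d0
  have hd1 := cfg.d1
  set K : ℝ := ((16 * M₁ * Q ^ (2 * J) : ℕ) : ℝ) with hK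
  have hK16 : (16 : ℝ) ≤ K := by
    have h5 : 16 ≤ 16 * M₁ * Q ^ (2 * J) := by
      have h6 : 1 ≤ Q ^ (2 * J) := Nat.one_le_pow _ _ hQpos
      calc 16 = 16 * 1 * 1 := by norm_num
        _ ≤ 16 * M₁ * Q ^ (2 * J) := Nat.mul_le_mul (Nat.mul_le_mul_left _ hMM1) h6
    rw [hK]
    exact_mod_cast h5
  have hKX : K ≤ (X : ℝ) ^ (d / 1000) := by
    have h5 : K ≤ K ^ 10 := by
      have : (1 : ℝ) ≤ K := by linarith
      calc K = K ^ 1 := (pow_one K).symm
        _ ≤ K ^ 10 := pow_le_pow_right₀ this (by norm_num)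
    exact h5.trans hsml
  have hH2 : 2 * (M * x * yy t) < H' := by
    have h5 : ((2 * (M * x * yy t) : ℕ) : ℝ) < (H' : ℝ) := by
      have h6 : 2 * (M * x * yy t) ≤ 12 * M₁ * Q ^ J * X₁ := by
        calc 2 * (M * x * yy t) ≤ 2 * (M₁ * (2 * X₁) * (3 * Q ^ J)) := by
              gcongr
          _ = 12 * M₁ * Q ^ J * X₁ := by ring
      have h7 : 12 * M₁ * Q ^ J ≤ 16 * M₁ * Q ^ (2 * J) := by
        have : Q ^ J ≤ Q ^ (2 * J) := Nat.pow_le_pow_right hQpos (by omega)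
        calc 12 * M₁ * Q ^ J ≤ 16 * M₁ * Q ^ J := by gcongr; norm_num
          _ ≤ 16 * M₁ * Q ^ (2 * J) := by gcongr
      have h8 : ((2 * (M * x * yy t) : ℕ) : ℝ) ≤ K * X₁ := by
        have : 2 * (M * x * yy t) ≤ (16 * M₁ * Q ^ (2 * J)) * X₁ :=
          h6.trans (Nat.mul_le_mul_right _ h7)
        rw [hK]
        exact_mod_cast this
      have h9 : K * X₁ ≤ (X : ℝ) ^ (d / 1000) * (X : ℝ) ^ (1 - d) := by
        have := cfg.X₁hi
        gcongr
      have h10 : 16 * ((X : ℝ) ^ (d / 1000) * (X : ℝ) ^ (1 - d)) ≤ (X : ℝ) ^ (1 - d / 100) := by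
        calc 16 * ((X : ℝ) ^ (d / 1000) * (X : ℝ) ^ (1 - d)) ≤
            (X : ℝ) ^ (d / 1000) * ((X : ℝ) ^ (d / 1000) * (X : ℝ) ^ (1 - d)) := by
              gcongr
              linarith
          _ = (X : ℝ) ^ (d / 1000 + (d / 1000 + (1 - d))) := by
              rw [Real.rpow_add hXp, Real.rpow_add hXp]
          _ ≤ (X : ℝ) ^ (1 - d / 100) := by
              apply Real.rpow_le_rpow_of_exponent_le hXr
              linarith
      have h11 : (0 : ℝ) < (X : ℝ) ^ (1 - d / 100) := by positivity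
      have h12 : (X : ℝ) ^ (1 - d / 100) < 2 * (H' : ℝ) := hHLlo
      linarith
    exact_mod_cast h5
  have hHX : H' ≤ X := by
    have h5 : (H' : ℝ) ≤ (X : ℝ) ^ (1 - d / 100) := hHLhi
    have h6 : (X : ℝ) ^ (1 - d / 100) ≤ (X : ℝ) := by
      calc (X : ℝ) ^ (1 - d / 100) ≤ (X : ℝ) ^ (1 : ℝ) := by
            apply Real.rpow_le_rpow_of_exponent_le hXr
            linarith
        _ = X := Real.rpow_one _
    exact_mod_cast h5.trans h6
  have hWz : N₁ + H' / 2 < W * zz t := by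
    have h5 : W * Q ^ J ≤ W * zz t := Nat.mul_le_mul_left _ hz1
    have h6 := cfg.Wlo
    have h7 : H' / 2 ≤ X / 2 := Nat.div_le_div_right hHX
    omega
  -- the map
  set F := (Ioc a b).filter (fun m =>
      m ≡ cl s M M₁ (yy t) ν (x % M₁) [MOD M * M₁] ∧
      ((m : ℕ) : ZMod (DD t)) = ((s : ℤ) : ZMod (DD t)) ∧ ((m : ℕ) : ZMod x) = ((s : ℤ) : ZMod x))
    with hF
  have key : ∀ m ∈ F, ∃ w, w ∈ WW M M₁ H' W N₁ ν t x ∧ mv s (M * DD t * x * w) = m := by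
    intro m hm
    rw [hF, mem_filter, mem_Ioc] at hm
    obtain ⟨⟨hm1, hm2⟩, hm3, hm4, hm5⟩ := hm
    obtain ⟨w, hw1, hw2, hw3, hw4, hw5⟩ := MT1.core (M := M) (M₁ := M₁) (y := yy t) (z := zz t)
      (ν := ν) (x := x) (N₁ := N₁) (A₀ := A₀) (Δ := Δ) (a := a) (b := b) (H' := H') (W := W) (m := m)
      hs (by omega) (by omega) hypos hxpos c1 c2 c3 c4 hA hA' ha hb hm1 hm2 hm3 hm4 hm5 hH2 hWz hNpos
    refine ⟨w, ?_, hw5⟩
    unfold WW
    rw [mem_filter]
    exact ⟨hw1, hw2, hw3, hw4⟩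
  choose! g hg using key
  have hinj : Set.InjOn g F := by
    intro m hm m' hm' h
    rw [← (hg m hm).2, ← (hg m' hm').2, h]
  calc ∑ m ∈ F, LL m = ∑ m ∈ F, LL (mv s (M * DD t * x * g m)) := by
        refine sum_congr rfl (fun m hm => ?_)
        rw [(hg m hm).2]
    _ = ∑ w ∈ F.image g, LL (mv s (M * DD t * x * w)) := by
        rw [sum_image hinj]
    _ ≤ _ := by
        refine sum_le_sum_of_subset_of_nonneg ?_ (fun w _ _ => ?_)
        · intro w hw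
          rw [mem_image] at hw
          obtain ⟨m, hm, rfl⟩ := hw
          exact (hg m hm).1
        · unfold LL
          split_ifs with h
          · exact Real.log_nonneg (by exact_mod_cast h.one_lt.le)
          · exact le_rfl

end

end MUR
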