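import Pool.Agent.MUR.StE

set_option autoImplicit false

/-!
# Project MUR: module MT2, the expansion for `x`
-/

namespace MUR

open Finset IPR
open Pool.Agent.Lib_helper83.EF (e)

noncomputable section

namespace MT2

/-- expansion of the condition modulo `D` -/
theorem expand (hEXP : S_EXP) (f D κ A B : ℕ) (s : ℤ) (hD : Squarefree D)
    (hA : ∀ m : ℕ, m.Prime → A < m → m.Coprime D) :
    ∑ m ∈ (Ioc A B).filter (fun m => m ≡ κ [MOD f] ∧ ((m : ℕ) : ZMod D) = ((s : ℤ) : ZMod D)), LL m =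
      ∑ u ∈ D.divisors, dsp f κ u s A B / ((D / u).totient : ℝ) := by
  have h1 : ∀ u, dsp f κ u s A B =
      ∑ m ∈ (Ioc A B).filter (fun m => m ≡ κ [MOD f]), LL m * ps u s m := by
    intro u
    unfold dsp
    rw [sum_filter, sum_filter]
    refine sum_congr rfl fun m _ => ?_
    unfold LL
    by_cases h1 : m.Prime
    · by_cases h2 : m ≡ κ [MOD f]
      · rw [if_pos ⟨h1, h2⟩, if_pos h2, if_pos h1]
      · rw [if_neg (fun h => h2 h.2), if_neg h2]
    · rw [if_neg (fun h => h1 h.1), if_neg h1, zero_mul, ite_self]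
  simp only [h1, sum_div]
  rw [sum_comm]
  have h2 : (Ioc A B).filter (fun m => m ≡ κ [MOD f] ∧ ((m : ℕ) : ZMod D) = ((s : ℤ) : ZMod D)) =
      ((Ioc A B).filter (fun m => m ≡ κ [MOD f])).filter
        (fun m => ((m : ℕ) : ZMod D) = ((s : ℤ) : ZMod D)) := by
    rw [filter_filter]
  rw [h2, sum_filter]
  refine sum_congr rfl fun m hm => ?_
  rw [mem_filter, mem_Ioc] at hm
  by_cases hp : m.Prime
  · have h3 := hEXP D m s hD (hA m hp hm.1.1)
    have h4 : (if ((m : ℕ) : ZMod D) = ((s : ℤ) : ZMod D) then LL m else 0) =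
        LL m * (if ((m : ℕ) : ZMod D) = ((s : ℤ) : ZMod D) then (1 : ℝ) else 0) := by
      rw [mul_ite, mul_one, mul_zero]
    rw [h4, h3, mul_sum]
    refine sum_congr rfl fun u _ => ?_
    ring
  · have h5 : LL m = 0 := by
      unfold LL
      rw [if_neg hp]
    rw [h5]
    simp

theorem dsp_one (f κ A B : ℕ) (s : ℤ) :
    dsp f κ 1 s A B = ∑ m ∈ (Ioc A B).filter (fun m => m ≡ κ [MOD f]), LL m := by
  unfold dsp
  rw [sum_filter, sum_filter]
  refine sum_congr rfl fun m _ => ?_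
  unfold LL ps
  rw [Nat.primeFactors_one, prod_empty, mul_one]
  by_cases h1 : m.Prime
  · by_cases h2 : m ≡ κ [MOD f]
    · rw [if_pos ⟨h1, h2⟩, if_pos h2, if_pos h1]
    · rw [if_neg (fun h => h2 h.2), if_neg h2]
  · rw [if_neg (fun h => h1 h.1), if_neg h1, ite_self]

/-- the lower bound for one tuple -/
theorem one_tuple (hEXP : S_EXP) (f D κ A B : ℕ) (s : ℤ) (hD : Squarefree D)
    (hA : ∀ m : ℕ, m.Prime → A < m → m.Coprime D) (E : ℕ → ℝ)
    (hE : ∀ u ∈ D.divisors, u ≠ 1 → |dsp f κ u s A B| ≤ E u) (L : ℝ)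
    (hL : L ≤ ∑ m ∈ (Ioc A B).filter (fun m => m ≡ κ [MOD f]), LL m) :
    L / (D.totient : ℝ) - ∑ u ∈ D.divisors.erase 1, E u / ((D / u).totient : ℝ) ≤
    ∑ m ∈ (Ioc A B).filter (fun m => m ≡ κ [MOD f] ∧ ((m : ℕ) : ZMod D) = ((s : ℤ) : ZMod D)), LL m := by
  rw [expand hEXP f D κ A B s hD hA]
  have hD0 : D ≠ 0 := hD.ne_zero
  have h1 : 1 ∈ D.divisors := Nat.one_mem_divisors.2 hD0
  rw [← add_sum_erase _ _ h1, Nat.div_one, dsp_one]
  have h2 : L / (D.totient : ℝ) ≤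
      (∑ m ∈ (Ioc A B).filter (fun m => m ≡ κ [MOD f]), LL m) / (D.totient : ℝ) :=
    div_le_div_of_nonneg_right hL (Nat.cast_nonneg _)
  have h3 : -∑ u ∈ D.divisors.erase 1, E u / ((D / u).totient : ℝ) ≤
      ∑ u ∈ D.divisors.erase 1, dsp f κ u s A B / ((D / u).totient : ℝ) := by
    rw [← sum_neg_distrib]
    refine sum_le_sum fun u hu => ?_
    rw [mem_erase] at hu
    have h4 := (abs_le.1 (hE u hu.2 hu.1)).1
    rw [← neg_div]
    exact div_le_div_of_nonneg_right h4 (Nat.cast_nonneg _)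
  linarith

theorem cond_iff {f₁ D c c' : ℕ} {s : ℤ} (hf : f₁.Coprime D) (hc : c' ≡ c [MOD f₁])
    (hs : ((c' : ℕ) : ZMod D) = ((s : ℤ) : ZMod D)) (m : ℕ) :
    m ≡ c' [MOD f₁ * D] ↔ m ≡ c [MOD f₁] ∧ ((m : ℕ) : ZMod D) = ((s : ℤ) : ZMod D) := by
  rw [← Nat.modEq_and_modEq_iff_modEq_mul hf, ← hs, ZMod.natCast_eq_natCast_iff]
  constructor
  · rintro ⟨h1, h2⟩
    exact ⟨h1.trans hc, h2⟩
  · rintro ⟨h1, h2⟩
    exact ⟨h1.trans hc.symm, h2⟩

end MT2

open MT2 in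
theorem t_MT2 : M_MT2 := by
  intro hEXP f₁ D c c' a b s Xb _ _ hf hc hs hX
  rw [sum_mul, ← sum_sub_distrib]
  refine sum_le_sum fun x hx => ?_
  obtain ⟨h1, h2, h3⟩ := hX x hx
  have key := one_tuple hEXP (f₁ * D) x c' a b s h1 (fun m hm ham =>
    Nat.coprime_of_lt_prime (Nat.pos_iff_ne_zero.1 h2) (h3.trans_lt ham) hm)
    (fun u => |dsp (f₁ * D) c' u s a b|) (fun u _ _ => le_rfl) _ le_rfl
  have e1 : (Ioc a b).filter (fun m => m ≡ c' [MOD f₁ * D]) =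
      (Ioc a b).filter (fun m => m ≡ c [MOD f₁] ∧ ((m : ℕ) : ZMod D) = ((s : ℤ) : ZMod D)) :=
    filter_congr fun m _ => cond_iff hf hc hs m
  have e2 : (Ioc a b).filter (fun m => m ≡ c' [MOD f₁ * D] ∧
      ((m : ℕ) : ZMod x) = ((s : ℤ) : ZMod x)) =
      (Ioc a b).filter (fun m => m ≡ c [MOD f₁] ∧ ((m : ℕ) : ZMod D) = ((s : ℤ) : ZMod D) ∧
        ((m : ℕ) : ZMod x) = ((s : ℤ) : ZMod x)) :=
    filter_congr fun m _ => by rw [cond_iff hf hc hs m, and_assoc]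
  rw [e1, e2] at key
  refine le_trans (le_of_eq ?_) key
  ring

end

end MUR
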