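import Mathlib
import Pool.Agent.MUR.StE

set_option autoImplicit false

/-!
# Project MUR: the error of the expansion in `x` (MT3)
-/

namespace MUR

open Finset IPR
open Pool.Agent.Lib_helper83.EF (e)

noncomputable section

namespace MT3

lemma exists_max (f u : ℕ) (s : ℤ) (a b : ℕ) (hf : 1 ≤ f) :
    ∃ c₀ : ℕ, c₀.Coprime f ∧ ∀ c : ℕ, c.Coprime f → |dsp f c u s a b| ≤ |dsp f c₀ u s a b| := by
  have hmodc : ∀ c : ℕ, c.Coprime f → (c % f).Coprime f := by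
    intro c hc
    have h1 : f.Coprime c := hc.symm
    rw [Nat.Coprime, Nat.gcd_rec] at h1
    exact h1
  have hne : ((range f).filter (fun c => c.Coprime f)).Nonempty := by
    refine ⟨1 % f, ?_⟩
    rw [mem_filter, mem_range]
    exact ⟨Nat.mod_lt _ hf, hmodc 1 (Nat.coprime_one_left f)⟩
  obtain ⟨c₀, h0, h1⟩ := exists_max_image _ (fun c => |dsp f c u s a b|) hne
  refine ⟨c₀, (mem_filter.1 h0).2, fun c hc => ?_⟩
  have hmod : dsp f c u s a b = dsp f (c % f) u s a b := by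
    unfold dsp
    refine sum_congr (filter_congr fun p _ => ?_) (fun _ _ => rfl)
    have : c % f ≡ c [MOD f] := Nat.mod_modEq c f
    constructor
    · rintro ⟨h, h'⟩
      exact ⟨h, h'.trans this.symm⟩
    · rintro ⟨h, h'⟩
      exact ⟨h, h'.trans this⟩
  rw [hmod]
  exact h1 (c % f) (mem_filter.2 ⟨mem_range.2 (Nat.mod_lt _ hf), hmodc c hc⟩)

lemma thr (d : ℝ) (hd : 0 < d) (Y₀ : ℕ) : ∃ X₀ : ℕ, ∀ X : ℕ, X₀ ≤ X →
    Y₀ ≤ X ∧ 3 ≤ X ∧ 600 ≤ Real.log X ∧ 2 ≤ (X : ℝ) ^ (9 / 100 * d) ∧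
      24 * Real.log X ≤ (X : ℝ) ^ (1 / 100 * d) := by
  have t0 : Filter.Tendsto (fun X : ℕ => (X : ℝ)) Filter.atTop Filter.atTop :=
    tendsto_natCast_atTop_atTop
  have e1 : ∀ᶠ X : ℕ in Filter.atTop, 600 ≤ Real.log X :=
    (Real.tendsto_log_atTop.comp t0).eventually_ge_atTop 600
  have e2 : ∀ᶠ X : ℕ in Filter.atTop, 2 ≤ (X : ℝ) ^ (9 / 100 * d) :=
    ((tendsto_rpow_atTop (by positivity : 0 < 9 / 100 * d)).comp t0).eventually_ge_atTop 2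
  have e3 : ∀ᶠ X : ℕ in Filter.atTop, 24 * Real.log X ≤ (X : ℝ) ^ (1 / 100 * d) := by
    have h := (isLittleO_log_rpow_atTop (by positivity : 0 < 1 / 100 * d)).bound
      (by norm_num : (0 : ℝ) < 1 / 24)
    filter_upwards [t0.eventually h, Filter.eventually_ge_atTop 1] with X hX hX1
    have hx1 : (1 : ℝ) ≤ X := by exact_mod_cast hX1
    rw [Real.norm_of_nonneg (Real.log_nonneg hx1),
      Real.norm_of_nonneg (Real.rpow_nonneg (by positivity) _)] at hX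
    linarith
  obtain ⟨X₀, hX₀⟩ := Filter.eventually_atTop.1
    ((Filter.eventually_ge_atTop Y₀).and ((Filter.eventually_ge_atTop 3).and (e1.and (e2.and e3))))
  exact ⟨X₀, fun X hX => hX₀ X hX⟩

/-- the number of dyadic ranges -/
lemma count (X X₁ : ℕ) (hX : 3 ≤ X) (hL : 600 ≤ Real.log X) (h1 : 1 ≤ X₁) (h2 : X₁ ≤ X) :
    ((Nat.log 2 (2 * X₁) + 1 : ℕ) : ℝ) ≤ 2 * Real.log X := by
  have hp : 2 ^ Nat.log 2 (2 * X₁) ≤ 2 * X := (Nat.pow_log_le_self 2 (by omega)).trans (by omega)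
  have hp' : ((2 : ℝ) ^ Nat.log 2 (2 * X₁)) ≤ 2 * X := by exact_mod_cast hp
  have hX0 : (0 : ℝ) < X := by
    have : (3 : ℝ) ≤ X := by exact_mod_cast hX
    linarith
  have hlog := Real.log_le_log (by positivity) hp'
  rw [Real.log_pow, Real.log_mul (by norm_num) hX0.ne'] at hlog
  have hl2 := Real.log_two_gt_d9
  have hl3 := Real.log_two_lt_d9
  push_cast
  set k : ℝ := (Nat.log 2 (2 * X₁) : ℝ) with hk
  have hk0 : 0 ≤ k := Nat.cast_nonneg _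
  nlinarith

/-- one dyadic range -/
lemma term (Q X₁ Δ i f : ℕ) (ba L5 L S B : ℝ) (hQ : 1 ≤ Q) (hX₁ : 1 ≤ X₁) (hΔ : Δ ≤ X₁)
    (hf : 1 ≤ f) (hba : 0 ≤ ba) (hL5 : 0 ≤ L5) (hL : L5 ≤ 32 * L ^ 5) (hB : 0 ≤ B)
    (hi : 3 * Q < 2 ^ (i + 1)) (hi' : 2 ^ i ≤ 2 * X₁)
    (hS : S ≤ ba * L5 / (f * Real.sqrt ((2 ^ i : ℕ) : ℝ)) + B) :
    4 * ((Δ : ℝ) / X₁ + 2 ^ i / X₁) * S ≤
      256 * L ^ 5 * (ba / f) * ((Δ : ℝ) / X₁ / Real.sqrt Q + 1 / Real.sqrt X₁) + 12 * B := by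
  have hX₁' : (1 : ℝ) ≤ X₁ := by exact_mod_cast hX₁
  have hX₁0 : (0 : ℝ) < X₁ := by linarith
  have hf' : (1 : ℝ) ≤ f := by exact_mod_cast hf
  have hf0 : (0 : ℝ) < f := by linarith
  have hQ' : (1 : ℝ) ≤ Q := by exact_mod_cast hQ
  have hQ0 : (0 : ℝ) < Q := by linarith
  have hΔ0 : (0 : ℝ) ≤ Δ := Nat.cast_nonneg _
  have hΔ' : (Δ : ℝ) ≤ X₁ := by exact_mod_cast hΔ
  have hcast : (((2 ^ i : ℕ)) : ℝ) = (2 : ℝ) ^ i := by push_cast; ring
  rw [hcast] at hS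
  have h2i : (2 : ℝ) ^ i ≤ 2 * X₁ := by
    have : ((2 ^ i : ℕ) : ℝ) ≤ ((2 * X₁ : ℕ) : ℝ) := by exact_mod_cast hi'
    push_cast at this
    exact this
  have h2iQ : (Q : ℝ) ≤ 2 ^ i := by
    have h : 3 * Q < 2 * 2 ^ i := by
      rw [pow_succ] at hi
      omega
    have h' : Q ≤ 2 ^ i := by omega
    exact_mod_cast h'
  have h2pos : (0 : ℝ) < 2 ^ i := by positivity
  set v : ℝ := Real.sqrt (2 ^ i) with hv
  have hv0 : 0 < v := Real.sqrt_pos.2 h2pos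
  have hvv : v * v = 2 ^ i := Real.mul_self_sqrt h2pos.le
  set q : ℝ := Real.sqrt Q with hq
  have hq0 : 0 < q := Real.sqrt_pos.2 hQ0
  have hqv : q ≤ v := Real.sqrt_le_sqrt h2iQ
  set w : ℝ := Real.sqrt X₁ with hw
  have hw0 : 0 < w := Real.sqrt_pos.2 hX₁0
  have hww : w * w = X₁ := Real.mul_self_sqrt hX₁0.le
  have hvw : v ≤ 2 * w := by
    have h : v * v ≤ (2 * w) * (2 * w) := by
      rw [hvv]
      nlinarith
    exact (mul_self_le_mul_self_iff hv0.le (by positivity)).2 h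
  have hL50 : 0 ≤ 32 * L ^ 5 := hL5.trans hL
  have h1 : 4 * ((Δ : ℝ) / X₁ + 2 ^ i / X₁) * S ≤
      4 * ((Δ : ℝ) / X₁ + 2 ^ i / X₁) * (ba * L5 / (f * v) + B) :=
    mul_le_mul_of_nonneg_left hS (by positivity)
  have h2 : 4 * ((Δ : ℝ) / X₁ + 2 ^ i / X₁) * (ba * L5 / (f * v) + B) =
      4 * (ba / f) * L5 * ((Δ : ℝ) / X₁ / v + v / X₁) + 4 * ((Δ : ℝ) / X₁ + 2 ^ i / X₁) * B := by
    rw [← hvv]
    field_simp
  have h3 : (Δ : ℝ) / X₁ / v ≤ (Δ : ℝ) / X₁ / q :=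
    div_le_div_of_nonneg_left (by positivity) hq0 hqv
  have h4 : v / X₁ ≤ 2 * (1 / w) := by
    rw [← hww, div_le_iff₀ (by positivity)]
    have : 2 * (1 / w) * (w * w) = 2 * w := by field_simp
    rw [this]
    exact hvw
  have h5 : (Δ : ℝ) / X₁ / v + v / X₁ ≤ 2 * ((Δ : ℝ) / X₁ / q + 1 / w) := by
    have : 0 ≤ (Δ : ℝ) / X₁ / q := by positivity
    linarith
  have h6 : (Δ : ℝ) / X₁ + 2 ^ i / X₁ ≤ 3 := by
    rw [← add_div, div_le_iff₀ hX₁0]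
    linarith
  have h7 : 4 * (ba / f) * L5 * ((Δ : ℝ) / X₁ / v + v / X₁) ≤
      4 * (ba / f) * (32 * L ^ 5) * (2 * ((Δ : ℝ) / X₁ / q + 1 / w)) := by
    have hbf : 0 ≤ ba / f := by positivity
    apply mul_le_mul _ h5 (by positivity) (by positivity)
    exact mul_le_mul_of_nonneg_left hL (by positivity)
  have h8 : 4 * ((Δ : ℝ) / X₁ + 2 ^ i / X₁) * B ≤ 12 * B := by
    nlinarith
  calc 4 * ((Δ : ℝ) / X₁ + 2 ^ i / X₁) * S
      ≤ 4 * (ba / f) * (32 * L ^ 5) * (2 * ((Δ : ℝ) / X₁ / q + 1 / w)) + 12 * B := by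
        rw [h2] at h1
        linarith
    _ = 256 * L ^ 5 * (ba / f) * ((Δ : ℝ) / X₁ / q + 1 / w) + 12 * B := by ring

end MT3

theorem t_MT3 : M_MT3 := by
  intro hBVG hDYA _hSWA hTB hCF C₁ hC₁ R₁ d
  by_cases hd : 0 < d ∧ d ≤ 1 / 100
  swap
  · exact ⟨0, fun X _ J Q X₁ H W P s hcfg => absurd ⟨hcfg.d0, hcfg.d1⟩ hd⟩
  obtain ⟨hd0, hd1⟩ := hd
  obtain ⟨Y₀, hY₀⟩ := hBVG (d / 5) (by positivity) (by linarith)
  obtain ⟨X₂, hX₂⟩ := MT3.thr d hd0 Y₀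
  obtain ⟨X₃, hX₃⟩ := hCF C₁ hC₁ R₁ d 1
  refine ⟨max X₂ X₃, ?_⟩
  intro X hX J Q X₁ H W P s hcfg hs t ht A₀ Δ a b hΔ hA₀ hAΔ hab hblo hbhi
  obtain ⟨hXY, hX3, hlog, hpow1, hpow2⟩ := hX₂ X ((le_max_left _ _).trans hX)
  obtain ⟨-, -, hprM, hprp, hpri, -, hM1, hM1Q, hR₁Q, -, -, -, -, -, -, -, -, -, hQ16, -, -, hXXt, -, -⟩ :=
    hX₃ X ((le_max_right _ _).trans hX) J Q X₁ H W P hcfg
  have hX1 : (1 : ℝ) ≤ X := by
    have : (3 : ℝ) ≤ X := by exact_mod_cast hX3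
    linarith
  have hX0 : (0 : ℝ) < X := by linarith
  -- facts on the tuples
  have hJ1 : 1 ≤ J := le_trans (by norm_num) hcfg.J2
  obtain ⟨-, -, -, -, -, -, hDsq, hDP, -, -⟩ := (hTB C₁ Q J (pri R₁) P hcfg.good hJ1 hpri
    (fun p hp => (hprp p hp).trans (by omega))).1 t ht
  have hD1 : 1 ≤ DD t := Nat.one_le_iff_ne_zero.2 hDsq.ne_zero
  set f : ℕ := pri R₁ * MM1 R₁ * DD t with hf
  have hf1 : 1 ≤ f := Nat.one_le_iff_ne_zero.2
    (mul_ne_zero (mul_ne_zero (by omega) (by omega)) (by omega))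
  have hX₁1 : 1 ≤ X₁ := by
    obtain ⟨β, hβ⟩ := hcfg.X₁p
    rw [hβ]
    exact Nat.one_le_two_pow
  have hX₁X : X₁ ≤ X := by
    have h : (X₁ : ℝ) ≤ X := hcfg.X₁hi.trans (by
      calc (X : ℝ) ^ (1 - d) ≤ (X : ℝ) ^ (1 : ℝ) :=
            Real.rpow_le_rpow_of_exponent_le hX1 (by linarith)
        _ = X := Real.rpow_one _)
    exact_mod_cast h
  -- the primes of `f` are at most `3 Q`
  have hfp : ∀ l : ℕ, l.Prime → 3 * Q < l → ¬ l ∣ f := by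
    intro l hl hlQ hlf
    rcases (hl.dvd_mul).1 hlf with h | h
    · rcases (hl.dvd_mul).1 h with h | h
      · have := hprp l (Nat.mem_primeFactors.2 ⟨hl, h, by omega⟩)
        omega
      · have := (hprM l hl).1 h
        omega
    · have h1 : l ∈ P := hDP (Nat.mem_primeFactors.2 ⟨hl, h, by omega⟩)
      have h2 := hcfg.good.hi l h1
      have h3 : Q / J ≤ Q := Nat.div_le_self _ _
      omega
  have hcop : ∀ u : ℕ, u ≠ 0 → (∀ p ∈ u.primeFactors, 3 * Q < p) → u.Coprime f := by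
    intro u hu0 hu
    apply Nat.Coprime.symm
    rw [Nat.coprime_iff_gcd_eq_one]
    by_contra hne
    obtain ⟨l, hl, hlg⟩ := Nat.exists_prime_and_dvd hne
    have h1 : l ∣ f := hlg.trans (Nat.gcd_dvd_left _ _)
    have h2 : l ∣ u := hlg.trans (Nat.gcd_dvd_right _ _)
    exact hfp l hl (hu l (Nat.mem_primeFactors.2 ⟨hl, h2, hu0⟩)) h1
  choose c₀ hc₀ hc₀' using fun u => MT3.exists_max f u s a b hf1
  refine ⟨fun u => |dsp f (c₀ u) u s a b|, fun u => abs_nonneg _, ?_, ?_⟩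
  · intro x _ u _ c hc _
    exact hc₀' u c hc
  -- the size of `b`
  have hbX : (X : ℝ) ≤ b := by
    calc (X : ℝ) = (X : ℝ) ^ (1 : ℝ) := (Real.rpow_one _).symm
      _ ≤ (X : ℝ) ^ (2 - 101 / 100 * d) :=
          Real.rpow_le_rpow_of_exponent_le hX1 (by nlinarith)
      _ ≤ b := hblo
  have hbXn : X ≤ b := by exact_mod_cast hbX
  have hb0 : (0 : ℝ) < b := by linarith
  have hlogb : Real.log b ≤ 2 * Real.log X := by
    have h := Real.log_le_log hb0 hbhi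
    rw [Real.log_rpow hX0] at h
    have hL : 0 ≤ Real.log X := by linarith
    nlinarith
  have hlogb0 : 0 ≤ Real.log b := Real.log_nonneg (by linarith)
  set B : ℝ := (X : ℝ) ^ (2 - d - 6 / 100 * d) with hB
  have hB0 : 0 ≤ B := Real.rpow_nonneg hX0.le _
  have hbB : (b : ℝ) ^ (1 - d / 5 / 6) ≤ B := by
    calc (b : ℝ) ^ (1 - d / 5 / 6) ≤ ((X : ℝ) ^ (2 - d + d / 500)) ^ (1 - d / 5 / 6) :=
          Real.rpow_le_rpow hb0.le hbhi (by linarith)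
      _ = (X : ℝ) ^ ((2 - d + d / 500) * (1 - d / 5 / 6)) := (Real.rpow_mul hX0.le _ _).symm
      _ ≤ B := by
          rw [hB]
          apply Real.rpow_le_rpow_of_exponent_le hX1
          nlinarith
  have hΔX₁ : Δ ≤ X₁ := by omega
  have hba : 0 ≤ (b : ℝ) - a := by
    have : (a : ℝ) ≤ b := by exact_mod_cast hab
    linarith
  -- the mean value theorem in a dyadic range
  have hS : ∀ i : ℕ, 3 * Q < 2 ^ (i + 1) → 2 ^ i ≤ 2 * X₁ →
      ∑ u ∈ UU (3 * Q) i, |dsp f (c₀ u) u s a b| ≤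
        ((b : ℝ) - a) * Real.log b ^ 5 / (f * Real.sqrt ((2 ^ i : ℕ) : ℝ)) + B := by
    intro i hi hi'
    have hUl : (((2 ^ i : ℕ)) : ℝ) ≤ (b : ℝ) ^ (1 / 2 - d / 5) := by
      have h1 : (((2 ^ i : ℕ)) : ℝ) ≤ 2 * X₁ := by exact_mod_cast hi'
      calc (((2 ^ i : ℕ)) : ℝ) ≤ 2 * X₁ := h1
        _ ≤ (X : ℝ) ^ (9 / 100 * d) * (X : ℝ) ^ (1 - d) :=
            mul_le_mul hpow1 hcfg.X₁hi (by positivity) (by positivity)
        _ = (X : ℝ) ^ (9 / 100 * d + (1 - d)) := (Real.rpow_add hX0 _ _).symm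
        _ ≤ (X : ℝ) ^ ((2 - 101 / 100 * d) * (1 / 2 - d / 5)) := by
            apply Real.rpow_le_rpow_of_exponent_le hX1
            nlinarith
        _ = ((X : ℝ) ^ (2 - 101 / 100 * d)) ^ (1 / 2 - d / 5) := Real.rpow_mul hX0.le _ _
        _ ≤ (b : ℝ) ^ (1 / 2 - d / 5) :=
            Real.rpow_le_rpow (by positivity) hblo (by linarith)
    have hFam : Fam (UU (3 * Q) i) (2 ^ i) f c₀ (fun _ => s) := by
      intro u hu
      unfold UU at hu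
      rw [mem_filter, mem_Ico] at hu
      obtain ⟨⟨hu1, hu2⟩, hu3, hu4⟩ := hu
      have hi5 : 2 ≤ 2 ^ i := by
        rw [pow_succ] at hi
        omega
      refine ⟨hu3, by omega, hu1, by rw [pow_succ] at hu2; omega, hcop u (by omega) hu4, hc₀ u, ?_⟩
      intro l hl
      have hlp : l.Prime := Nat.prime_of_mem_primeFactors hl
      haveI : Fact l.Prime := ⟨hlp⟩
      rcases hs with h | h
      · rw [h]
        simp
      · rw [h]
        simp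
    have h := hY₀ a b f (2 ^ i) (hXY.trans hbXn) hab hf1 Nat.one_le_two_pow hUl
      (UU (3 * Q) i) c₀ (fun _ => s) hFam
    linarith
  -- the sum over the dyadic ranges
  have hdya := hDYA X₁ A₀ Δ (3 * Q) (fun u => |dsp f (c₀ u) u s a b|) (fun u => abs_nonneg _) hΔ
    hX₁1 hA₀ hAΔ hXXt
  refine hdya.trans ?_
  set L : ℝ := Real.log X with hLdef
  set G : ℝ := (Δ : ℝ) / X₁ / Real.sqrt Q + 1 / Real.sqrt X₁ with hG
  have hG0 : 0 ≤ G := by positivity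
  have hL5 : Real.log b ^ 5 ≤ 32 * L ^ 5 := by
    calc Real.log b ^ 5 ≤ (2 * L) ^ 5 := pow_le_pow_left₀ hlogb0 hlogb 5
      _ = 32 * L ^ 5 := by ring
  have hL0 : 0 ≤ L := by linarith
  set T : ℝ := 256 * L ^ 5 * (((b : ℝ) - a) / f) * G + 12 * B with hT
  have hT0 : 0 ≤ T := by positivity
  have hsum : ∑ i ∈ range (Nat.log 2 (2 * X₁) + 1), (if 3 * Q < 2 ^ (i + 1) then
      4 * ((Δ : ℝ) / X₁ + 2 ^ i / X₁) * ∑ u ∈ UU (3 * Q) i, |dsp f (c₀ u) u s a b| else 0) ≤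
      ∑ _i ∈ range (Nat.log 2 (2 * X₁) + 1), T := by
    apply sum_le_sum
    intro i hi
    rw [mem_range] at hi
    split_ifs with hQi
    · have hi' : 2 ^ i ≤ 2 * X₁ :=
        (Nat.pow_le_pow_right (by norm_num) (by omega)).trans (Nat.pow_log_le_self 2 (by omega))
      exact MT3.term Q X₁ Δ i f ((b : ℝ) - a) (Real.log b ^ 5) L _ B (by omega) hX₁1 hΔX₁ hf1 hba
        (pow_nonneg hlogb0 5) hL5 hB0 hQi hi' (hS i hQi hi')
    · exact hT0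
  refine hsum.trans ?_
  rw [sum_const, card_range, nsmul_eq_mul]
  have hN := MT3.count X X₁ hX3 hlog hX₁1 hX₁X
  have h1 : ((Nat.log 2 (2 * X₁) + 1 : ℕ) : ℝ) * T ≤ 2 * L * T :=
    mul_le_mul_of_nonneg_right hN hT0
  refine h1.trans ?_
  have hf0 : (0 : ℝ) < f := by exact_mod_cast hf1
  have h2 : 2 * L * (256 * L ^ 5 * (((b : ℝ) - a) / f) * G) ≤
      G * (((b : ℝ) - a) * L ^ 7) / f := by
    have h3 : 0 ≤ G * ((b : ℝ) - a) / f * L ^ 6 := by positivity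
    have h4 : G * (((b : ℝ) - a) * L ^ 7) / f = L * (G * ((b : ℝ) - a) / f * L ^ 6) := by
      field_simp
    have h5 : 2 * L * (256 * L ^ 5 * (((b : ℝ) - a) / f) * G) =
        512 * (G * ((b : ℝ) - a) / f * L ^ 6) := by
      field_simp
      ring
    rw [h4, h5]
    apply mul_le_mul_of_nonneg_right _ h3
    linarith
  have h6 : 2 * L * (12 * B) ≤ (X : ℝ) ^ (2 - d - 5 / 100 * d) := by
    calc 2 * L * (12 * B) = (24 * L) * B := by ring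
      _ ≤ (X : ℝ) ^ (1 / 100 * d) * B := mul_le_mul_of_nonneg_right hpow2 hB0
      _ = (X : ℝ) ^ (2 - d - 5 / 100 * d) := by
          rw [hB, ← Real.rpow_add hX0]
          congr 1
          ring
  have h7 : 2 * L * T = 2 * L * (256 * L ^ 5 * (((b : ℝ) - a) / f) * G) + 2 * L * (12 * B) := by
    rw [hT]
    ring
  rw [h7]
  exact add_le_add h2 h6

end

end MUR
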