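import Mathlib
import Pool.Agent.MUR.StE

set_option autoImplicit false

/-!
# Project MUR: every `m` in the middle range lies in many intervals (MT4)
-/

namespace MUR

open Finset IPR
open Pool.Agent.Lib_helper83.EF (e)

noncomputable section

namespace MT4

/-- The number of indices, with real inequalities only. -/
theorem core (N G H n D X₁ m X : ℕ) (hX : 1 ≤ X) (hN1 : X ≤ 2 * N) (hN2 : N ≤ 2 * X) (hG : 1 ≤ G)
    (hnD : n * D = X₁) (hn : 1 ≤ n) (hD : 1 ≤ D) (h5 : 5 * H ≤ X) (h18 : 18 * X ≤ n * H)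
    (hn4 : n ≤ 4 * X) (hm1 : 6 * (G * N * X₁) ≤ 5 * m) (hm2 : 5 * m ≤ 9 * (G * N * X₁)) :
    (n : ℝ) * H / (40 * X) ≤
    (((range n).filter (fun j => N * G * (X₁ + (j + 1) * D) < m ∧
      m + 1 ≤ (N + H / 2) * G * (X₁ + j * D))).card : ℝ) := by
  have hNpos : 1 ≤ N := by omega
  obtain ⟨H2, hH2⟩ : ∃ H2 : ℕ, H2 = H / 2 := ⟨_, rfl⟩
  have hH2a : H ≤ 2 * H2 + 1 := by omega
  have hH2b : 5 * H2 ≤ N := by omega
  rw [← hH2]
  -- real versions
  have rX : (1 : ℝ) ≤ X := by exact_mod_cast hX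
  have rN : (1 : ℝ) ≤ N := by exact_mod_cast hNpos
  have rN2 : (N : ℝ) ≤ 2 * X := by exact_mod_cast hN2
  have rG : (1 : ℝ) ≤ G := by exact_mod_cast hG
  have rn : (1 : ℝ) ≤ n := by exact_mod_cast hn
  have rD : (1 : ℝ) ≤ D := by exact_mod_cast hD
  have rnD : (n : ℝ) * D = X₁ := by exact_mod_cast hnD
  have rH2a : (H : ℝ) ≤ 2 * H2 + 1 := by exact_mod_cast hH2a
  have rH2b : 5 * (H2 : ℝ) ≤ N := by exact_mod_cast hH2b
  have rH2 : (0 : ℝ) ≤ H2 := Nat.cast_nonneg _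
  have r18 : 18 * (X : ℝ) ≤ n * H := by exact_mod_cast h18
  have rn4 : (n : ℝ) ≤ 4 * X := by exact_mod_cast hn4
  have rm1 : 6 * ((G : ℝ) * N * X₁) ≤ 5 * m := by exact_mod_cast hm1
  have rm2 : 5 * (m : ℝ) ≤ 9 * (G * N * X₁) := by exact_mod_cast hm2
  have rX1 : (1 : ℝ) ≤ X₁ := by rw [← rnD]; nlinarith
  set A : ℝ := (N : ℝ) * G with hA
  set B : ℝ := ((N : ℝ) + H2) * G with hB
  have hApos : 0 < A := by positivity
  have hBpos : 0 < B := by positivity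
  have hB1 : 1 ≤ B := by rw [hB]; nlinarith
  have hDpos : (0 : ℝ) < D := by linarith
  set u : ℝ := ((m : ℝ) / A - X₁) / D - 1 with hu
  set l : ℝ := (((m : ℝ) + 1) / B - X₁) / D with hl
  have hmA1 : 6 / 5 * (X₁ : ℝ) ≤ (m : ℝ) / A := by
    rw [le_div_iff₀ hApos, hA]; nlinarith
  have hmA2 : (m : ℝ) / A ≤ 9 / 5 * (X₁ : ℝ) := by
    rw [div_le_iff₀ hApos, hA]; nlinarith
  -- l ≥ 0
  have hl0 : 0 ≤ l := by
    rw [hl]
    apply div_nonneg _ hDpos.le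
    rw [sub_nonneg, le_div_iff₀ hBpos, hB]
    have h1 : (X₁ : ℝ) * (((N : ℝ) + H2) * G) ≤ 6 / 5 * (G * N * X₁) := by
      have : ((N : ℝ) + H2) ≤ 6 / 5 * N := by linarith
      calc (X₁ : ℝ) * (((N : ℝ) + H2) * G) ≤ X₁ * ((6 / 5 * N) * G) := by gcongr
        _ = 6 / 5 * (G * N * X₁) := by ring
    linarith
  -- u < n
  have hun : u ≤ n := by
    rw [hu]
    have : ((m : ℝ) / A - X₁) / D ≤ n := by
      rw [div_le_iff₀ hDpos, rnD]; linarith
    linarith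
  -- the difference
  have hdiff : (n : ℝ) * H2 / N - 1 ≤ ((m : ℝ) / A - ((m : ℝ) + 1) / B) / D := by
    have e1 : (m : ℝ) / A - ((m : ℝ) + 1) / B = (m : ℝ) / A * (H2 / (N + H2)) - 1 / B := by
      have hNH : (N : ℝ) + H2 ≠ 0 := by positivity
      have hG0 : (G : ℝ) ≠ 0 := by positivity
      have hN0 : (N : ℝ) ≠ 0 := by positivity
      rw [hA, hB]
      field_simp
      ring
    have e2 : (X₁ : ℝ) * (H2 / N) ≤ (m : ℝ) / A * (H2 / (N + H2)) := by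
      have h1 : (X₁ : ℝ) * (H2 / N) ≤ (6 / 5 * X₁) * (H2 / (N + H2)) := by
        have : (H2 : ℝ) / N ≤ 6 / 5 * (H2 / (N + H2)) := by
          rw [← mul_div_assoc, div_le_div_iff₀ (by positivity) (by positivity)]
          nlinarith
        calc (X₁ : ℝ) * (H2 / N) ≤ X₁ * (6 / 5 * (H2 / (N + H2))) := by gcongr
          _ = _ := by ring
      refine h1.trans ?_
      have h0 : (0 : ℝ) ≤ H2 / (N + H2) := by positivity
      exact mul_le_mul_of_nonneg_right hmA1 h0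
    have e3 : 1 / B ≤ 1 := by
      rw [div_le_one hBpos]; exact hB1
    rw [e1, le_div_iff₀ hDpos]
    have e4 : ((n : ℝ) * H2 / N - 1) * D = X₁ * (H2 / N) - D := by
      rw [← rnD]; ring
    rw [e4]
    linarith
  -- the interval of indices
  have hsub : Finset.Ico ⌈l⌉₊ ⌈u⌉₊ ⊆ (range n).filter (fun j => N * G * (X₁ + (j + 1) * D) < m ∧
      m + 1 ≤ (N + H2) * G * (X₁ + j * D)) := by
    intro j hj
    rw [Finset.mem_Ico] at hj
    have hjl : l ≤ j := Nat.ceil_le.mp hj.1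
    have hju : (j : ℝ) < u := Nat.lt_ceil.mp hj.2
    rw [Finset.mem_filter, Finset.mem_range]
    refine ⟨?_, ?_, ?_⟩
    · have : (j : ℝ) < n := lt_of_lt_of_le hju hun
      exact_mod_cast this
    · have h1 : ((j : ℝ) + 1) * D < (m : ℝ) / A - X₁ := by
        have : (j : ℝ) + 1 < ((m : ℝ) / A - X₁) / D := by rw [hu] at hju; linarith
        rwa [lt_div_iff₀ hDpos] at this
      have h2 : ((X₁ : ℝ) + (j + 1) * D) < (m : ℝ) / A := by linarith
      rw [lt_div_iff₀ hApos] at h2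
      have h3 : (N : ℝ) * G * (X₁ + (j + 1) * D) < m := by
        rw [hA] at h2; linarith
      exact_mod_cast h3
    · have h1 : ((m : ℝ) + 1) / B - X₁ ≤ j * D := by
        rw [hl, div_le_iff₀ hDpos] at hjl; exact hjl
      have h2 : ((m : ℝ) + 1) / B ≤ X₁ + j * D := by linarith
      rw [div_le_iff₀ hBpos, hB] at h2
      have h3 : (m : ℝ) + 1 ≤ ((N : ℝ) + H2) * G * (X₁ + j * D) := by linarith
      exact_mod_cast h3
  have hcard : (u - l - 1 : ℝ) ≤ (((range n).filter (fun j => N * G * (X₁ + (j + 1) * D) < m ∧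
      m + 1 ≤ (N + H2) * G * (X₁ + j * D))).card : ℝ) := by
    have h1 : ((Finset.Ico ⌈l⌉₊ ⌈u⌉₊).card : ℝ) ≤ (((range n).filter
        (fun j => N * G * (X₁ + (j + 1) * D) < m ∧
      m + 1 ≤ (N + H2) * G * (X₁ + j * D))).card : ℝ) := by
      exact_mod_cast Finset.card_le_card hsub
    refine le_trans ?_ h1
    rw [Nat.card_Ico]
    have h2 : (⌈u⌉₊ : ℝ) - ⌈l⌉₊ ≤ ((⌈u⌉₊ - ⌈l⌉₊ : ℕ) : ℝ) := by
      have : ⌈u⌉₊ ≤ (⌈u⌉₊ - ⌈l⌉₊) + ⌈l⌉₊ := by omega
      have h3 : (⌈u⌉₊ : ℝ) ≤ ((⌈u⌉₊ - ⌈l⌉₊ : ℕ) : ℝ) + ⌈l⌉₊ := by exact_mod_cast this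
      linarith
    have h3 := Nat.le_ceil u
    have h4 := Nat.ceil_lt_add_one hl0
    linarith
  refine le_trans ?_ hcard
  have hul : u - l = ((m : ℝ) / A - ((m : ℝ) + 1) / B) / D - 1 := by
    rw [hu, hl]; ring
  rw [hul]
  have hq : (n : ℝ) * (H - 1) / (4 * X) ≤ (n : ℝ) * H2 / N := by
    rw [div_le_div_iff₀ (by positivity) (by positivity)]
    have h1 : (H : ℝ) - 1 ≤ 2 * H2 := by linarith
    calc (n : ℝ) * (H - 1) * N ≤ n * (2 * H2) * N := by gcongr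
      _ ≤ n * (2 * H2) * (2 * X) := by gcongr
      _ = n * H2 * (4 * X) := by ring
  have hfin : (n : ℝ) * H / (40 * X) ≤ (n : ℝ) * (H - 1) / (4 * X) - 3 := by
    have hX0 : (0 : ℝ) < X := by linarith
    have : (n : ℝ) * (H - 1) / (4 * X) - 3 - (n : ℝ) * H / (40 * X) =
        (9 * (n * H) - 10 * n - 120 * X) / (40 * X) := by
      field_simp
      ring
    have h2 : 0 ≤ (9 * ((n : ℝ) * H) - 10 * n - 120 * X) / (40 * X) := by
      apply div_nonneg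
      · linarith
      · positivity
    linarith
  linarith

theorem yy_pos {C : ℝ} {Q J : ℕ} {P : Finset ℕ} (hP : GoodP C Q J P) (t : Fin J → ℕ × ℕ)
    (ht : t ∈ TT P J) : 1 ≤ yy t := by
  classical
  unfold yy
  refine Nat.one_le_iff_ne_zero.mpr (Finset.prod_ne_zero_iff.mpr fun j _ => ?_)
  unfold TT at ht
  rw [Finset.mem_filter, Fintype.mem_piFinset] at ht
  have := ht.1 j
  rw [Finset.mem_product] at this
  exact (hP.pr _ this.1).ne_zero

end MT4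

theorem t_MT4 : M_MT4 := by
  intro hCF C₁ hC₁ R₁ d
  by_cases hd : 0 < d
  swap
  · exact ⟨0, fun X _ J Q X₁ H W P hcfg => absurd hcfg.d0 hd⟩
  obtain ⟨X₀, hX₀⟩ := hCF C₁ hC₁ R₁ d 0
  refine ⟨max X₀ (⌈(36 : ℝ) ^ (100 / d)⌉₊ + 1), fun X hX J Q X₁ H W P hcfg t ht N₁ n Δ m hN1 hN2 hnD
    hn1 hn2 hm1 hm2 => ?_⟩
  have hXa : X₀ ≤ X := le_trans (le_max_left _ _) hX
  have hXb : ⌈(36 : ℝ) ^ (100 / d)⌉₊ + 1 ≤ X := le_trans (le_max_right _ _) hX
  obtain ⟨_, _, _, _, hpri, _, _, _, _, _, _, _, _, hHlo, hHhi, _⟩ :=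
    hX₀ X hXa J Q X₁ H W P hcfg
  have hX1 : 1 ≤ X := by omega
  have hX1r : (1 : ℝ) ≤ X := by exact_mod_cast hX1
  have hX0r : (0 : ℝ) < X := by linarith
  have hXc : (36 : ℝ) ^ (100 / d) ≤ X := by
    have h1 := Nat.le_ceil ((36 : ℝ) ^ (100 / d))
    have h2 : ((⌈(36 : ℝ) ^ (100 / d)⌉₊ + 1 : ℕ) : ℝ) ≤ X := by exact_mod_cast hXb
    push_cast at h2
    linarith
  have h36 : (36 : ℝ) ≤ (X : ℝ) ^ (d / 100) := by
    have h1 : ((36 : ℝ) ^ (100 / d)) ^ (d / 100) ≤ (X : ℝ) ^ (d / 100) :=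
      Real.rpow_le_rpow (by positivity) hXc (by positivity)
    rw [← Real.rpow_mul (by norm_num)] at h1
    have : 100 / d * (d / 100) = 1 := by field_simp
    rw [this, Real.rpow_one] at h1
    exact h1
  have hd1 := hcfg.d1
  set H' : ℕ := HL (MM1 R₁) X (d / 100) with hH'
  have hHX : (X : ℝ) ^ (d / 100) * (X : ℝ) ^ (1 - d / 100) = X := by
    rw [← Real.rpow_add hX0r]
    norm_num
  have h5 : 5 * H' ≤ X := by
    have : 5 * (H' : ℝ) ≤ X := by
      have hp : 0 ≤ (X : ℝ) ^ (1 - d / 100) := by positivity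
      calc 5 * (H' : ℝ) ≤ 36 * (X : ℝ) ^ (1 - d / 100) := by linarith
        _ ≤ (X : ℝ) ^ (d / 100) * (X : ℝ) ^ (1 - d / 100) := by gcongr
        _ = X := hHX
    exact_mod_cast this
  have h18 : 18 * X ≤ n * H' := by
    have : 18 * (X : ℝ) ≤ n * H' := by
      have e1 : (X : ℝ) ^ (d / 50) * (X : ℝ) ^ (1 - d / 100) = (X : ℝ) ^ (d / 100) * X := by
        rw [← Real.rpow_add hX0r]
        nth_rewrite 3 [← Real.rpow_one (X : ℝ)]
        rw [← Real.rpow_add hX0r]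
        congr 1
        ring
      have hp : 0 ≤ (X : ℝ) ^ (d / 50) := by positivity
      have hH0 : (0 : ℝ) ≤ H' := Nat.cast_nonneg _
      calc 18 * (X : ℝ) ≤ 1 / 2 * ((X : ℝ) ^ (d / 100) * X) := by nlinarith
        _ = (X : ℝ) ^ (d / 50) * (1 / 2 * (X : ℝ) ^ (1 - d / 100)) := by rw [← e1]; ring
        _ ≤ (X : ℝ) ^ (d / 50) * H' := by gcongr; linarith
        _ ≤ n * H' := by gcongr
    exact_mod_cast this
  have hn4 : n ≤ 4 * X := by
    have h1 : (X : ℝ) ^ (d / 50) ≤ X := by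
      nth_rewrite 2 [← Real.rpow_one (X : ℝ)]
      exact Real.rpow_le_rpow_of_exponent_le hX1r (by linarith)
    have : (n : ℝ) ≤ 4 * X := by linarith
    exact_mod_cast this
  have hn : 1 ≤ n := by
    have h1 : 0 < (X : ℝ) ^ (d / 50) := by positivity
    have : (0 : ℝ) < n := by linarith
    exact_mod_cast this
  have hX₁ : 1 ≤ X₁ := by
    have h1 : 0 < (X : ℝ) ^ (1 - d) := by positivity
    have h2 := hcfg.X₁lo
    have : (0 : ℝ) < X₁ := by linarith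
    exact_mod_cast this
  have hD : 1 ≤ Δ := by
    rcases Nat.eq_zero_or_pos Δ with h | h
    · rw [h, mul_zero] at hnD; omega
    · exact h
  have hy := MT4.yy_pos hcfg.good t ht
  have hG : 1 ≤ pri R₁ * yy t := Nat.mul_pos hpri hy
  have key := MT4.core N₁ (pri R₁ * yy t) H' n Δ X₁ m X hX1 hN1 hN2 hG hnD hn hD h5 h18 hn4 hm1 hm2
  simpa only [mul_assoc] using key

end

end MUR
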