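import Mathlib
import Pool.Agent.MUR.StE

/-!
# Project MUR: module MTT (the lower bound for one tuple, one window and one class)
-/

set_option autoImplicit false

namespace MUR

open Finset IPR
open Pool.Agent.Lib_helper83.EF (e)

noncomputable section

namespace MTT

/-! ### Numerical facts -/

theorem ev (r : ℝ) (hr : 0 < r) (K : ℝ) (hK : 0 ≤ K) : ∃ X₀ : ℕ, ∀ X : ℕ, X₀ ≤ X →
    K * Real.log X ≤ (X : ℝ) ^ r ∧ K ≤ (X : ℝ) ^ r ∧ K ≤ Real.log X ∧ 1 ≤ X := by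
  have h1 : ∀ᶠ x : ℝ in Filter.atTop, ‖Real.log x‖ ≤ (1 / (K + 1)) * ‖x ^ r‖ :=
    (isLittleO_log_rpow_atTop hr).def (by positivity)
  have h2 : ∀ᶠ x : ℝ in Filter.atTop, K ≤ x ^ r := (tendsto_rpow_atTop hr).eventually_ge_atTop K
  have h3 : ∀ᶠ x : ℝ in Filter.atTop, K ≤ Real.log x := Real.tendsto_log_atTop.eventually_ge_atTop K
  have h4 : ∀ᶠ x : ℝ in Filter.atTop, 1 ≤ x := Filter.eventually_ge_atTop 1
  have h5 := (tendsto_natCast_atTop_atTop (R := ℝ)).eventually (h1.and (h2.and (h3.and h4)))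
  obtain ⟨X₀, hX⟩ := Filter.eventually_atTop.1 h5
  refine ⟨X₀, fun X hX' => ?_⟩
  obtain ⟨a1, a2, a3, a4⟩ := hX X hX'
  refine ⟨?_, a2, a3, by exact_mod_cast a4⟩
  have hl : 0 ≤ Real.log (X : ℝ) := Real.log_nonneg a4
  have hx : 0 ≤ (X : ℝ) ^ r := Real.rpow_nonneg (by positivity) _
  rw [Real.norm_of_nonneg hl, Real.norm_of_nonneg hx] at a1
  calc K * Real.log X ≤ (K + 1) * (1 / (K + 1) * (X : ℝ) ^ r) := by
        apply mul_le_mul _ a1 hl (by positivity)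
        linarith
    _ = (X : ℝ) ^ r := by
        field_simp

/-- the numerical inequalities for large `X` -/
structure Big (d : ℝ) (X : ℕ) : Prop where
  x1 : 1 ≤ X
  l : 16 ≤ Real.log X
  a : (1 : ℝ) * Real.log X ≤ (X : ℝ) ^ (1 / 50 : ℝ)
  b : 8 ≤ (X : ℝ) ^ (1 / 20 : ℝ)
  c : 32 * Real.log X ≤ (X : ℝ) ^ (19 / 1000 * d)
  f : 8 ≤ (X : ℝ) ^ (1 / 100 * d)

theorem big (d : ℝ) (hd : 0 < d) : ∃ X₀ : ℕ, ∀ X : ℕ, X₀ ≤ X → Big d X := by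
  obtain ⟨X1, h1⟩ := ev (1 / 50) (by norm_num) 1 (by norm_num)
  obtain ⟨X2, h2⟩ := ev (1 / 20) (by norm_num) 16 (by norm_num)
  obtain ⟨X3, h3⟩ := ev (19 / 1000 * d) (by positivity) 32 (by norm_num)
  obtain ⟨X4, h4⟩ := ev (1 / 100 * d) (by positivity) 8 (by norm_num)
  refine ⟨max (max X1 X2) (max X3 X4), fun X hX => ?_⟩
  simp only [max_le_iff] at hX
  obtain ⟨⟨g1, g2⟩, g3, g4⟩ := hX
  exact ⟨(h1 X g1).2.2.2, (h2 X g2).2.2.1, (h1 X g1).1, by linarith [(h2 X g2).2.1], (h3 X g3).1,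
    (h4 X g4).2.1⟩

/-- sizes -/
structure Sz (d : ℝ) (X X₁ n Δ Q J M M₁ H' : ℕ) : Prop where
  d0 : 0 < d
  d1 : d ≤ 1 / 100
  X₁lo : (X : ℝ) ^ (1 - d) ≤ 2 * X₁
  X₁hi : (X₁ : ℝ) ≤ (X : ℝ) ^ (1 - d)
  nlo : (X : ℝ) ^ (d / 50) ≤ n
  nhi : (n : ℝ) ≤ 4 * (X : ℝ) ^ (d / 50)
  nD : n * Δ = X₁
  Qlo : Real.log X ^ 100 ≤ Q
  Qhi : (Q : ℝ) ≤ 3 * Real.log X ^ 100
  J1 : 1 ≤ J
  M0 : 1 ≤ M
  M1 : M ≤ M₁
  sml : ((16 * M₁ * Q : ℕ) : ℝ) ^ (20 * J) ≤ (X : ℝ) ^ (d / 1000)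
  Hlo : (X : ℝ) ^ (1 - d / 100) < 2 * H'
  Hhi : (H' : ℝ) ≤ (X : ℝ) ^ (1 - d / 100)

variable {d : ℝ} {X X₁ n Δ Q J M M₁ H' : ℕ}

theorem MQ (hB : Big d X) (h : Sz d X X₁ n Δ Q J M M₁ H') :
    16 * ((M : ℝ) * (Q : ℝ) ^ J) ≤ (X : ℝ) ^ (d / 1000) ∧ 1 ≤ (Q : ℝ) ^ J ∧ 1 ≤ (M : ℝ) ∧
      (Q : ℝ) ^ J ≤ (X : ℝ) ^ (d / 1000) := by
  have hQ : (1 : ℝ) ≤ Q := by
    have h1 : (1 : ℝ) ≤ Real.log X ^ 100 := one_le_pow₀ (by linarith [hB.l])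
    linarith [h.Qlo]
  have hM : (1 : ℝ) ≤ M := by exact_mod_cast h.M0
  have hM1 : (M : ℝ) ≤ M₁ := by exact_mod_cast h.M1
  have hQJ : (1 : ℝ) ≤ (Q : ℝ) ^ J := one_le_pow₀ hQ
  have h16 : (16 : ℝ) ≤ 16 ^ J := by
    calc (16 : ℝ) = 16 ^ 1 := by norm_num
      _ ≤ 16 ^ J := pow_le_pow_right₀ (by norm_num) h.J1
  have hMJ : (M : ℝ) ≤ (M₁ : ℝ) ^ J := by
    calc (M : ℝ) ≤ M₁ := hM1
      _ = (M₁ : ℝ) ^ 1 := by ring
      _ ≤ (M₁ : ℝ) ^ J := pow_le_pow_right₀ (by linarith) h.J1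
  have h2 : 16 * ((M : ℝ) * (Q : ℝ) ^ J) ≤ (16 * M₁ * Q) ^ J := by
    rw [mul_pow, mul_pow, mul_assoc]
    exact mul_le_mul h16 (mul_le_mul_of_nonneg_right hMJ (by positivity)) (by positivity)
      (by positivity)
  have h3 : ((16 : ℝ) * M₁ * Q) ^ J ≤ (16 * M₁ * Q) ^ (20 * J) := by
    apply pow_le_pow_right₀
    · have : (1 : ℝ) ≤ M₁ := by linarith
      nlinarith
    · omega
  have h4 := h.sml
  push_cast at h4
  refine ⟨by linarith, hQJ, hM, ?_⟩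
  have : (Q : ℝ) ^ J ≤ 16 * ((M : ℝ) * (Q : ℝ) ^ J) := by nlinarith
  linarith

theorem X0 (hB : Big d X) : (1 : ℝ) ≤ X := by exact_mod_cast hB.x1

theorem X₁big (hB : Big d X) (h : Sz d X X₁ n Δ Q J M M₁ H') :
    (X : ℝ) ^ (9 / 10 : ℝ) ≤ Δ ∧ (X : ℝ) ^ (9 / 10 : ℝ) ≤ X₁ := by
  have hx := X0 hB
  have hx0 : (0 : ℝ) < X := by linarith
  have hnD : (n : ℝ) * Δ = X₁ := by exact_mod_cast h.nD
  have h1 := h.nhi
  have h2 := h.X₁lo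
  have h3 : (8 : ℝ) * (X : ℝ) ^ (9 / 10 : ℝ) * (X : ℝ) ^ (d / 50) ≤ (X : ℝ) ^ (1 - d) := by
    calc (8 : ℝ) * (X : ℝ) ^ (9 / 10 : ℝ) * (X : ℝ) ^ (d / 50)
        ≤ (X : ℝ) ^ (1 / 20 : ℝ) * (X : ℝ) ^ (9 / 10 : ℝ) * (X : ℝ) ^ (d / 50) := by
          gcongr
          exact hB.b
      _ = (X : ℝ) ^ (1 / 20 + 9 / 10 + d / 50 : ℝ) := by
          rw [Real.rpow_add hx0, Real.rpow_add hx0]
      _ ≤ (X : ℝ) ^ (1 - d) := by
          apply Real.rpow_le_rpow_of_exponent_le hx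
          linarith [h.d1]
  have hp : 1 ≤ (X : ℝ) ^ (d / 50) := Real.one_le_rpow hx (by linarith [h.d0])
  have hq : 0 < (X : ℝ) ^ (9 / 10 : ℝ) := by positivity
  constructor
  · by_contra hcon
    push Not at hcon
    have h5 : (n : ℝ) * Δ < 4 * (X : ℝ) ^ (d / 50) * (X : ℝ) ^ (9 / 10 : ℝ) := by
      apply mul_lt_mul' h1 hcon (by positivity) (by positivity)
    nlinarith
  · have h6 : (8 : ℝ) * (X : ℝ) ^ (9 / 10 : ℝ) ≤ (X : ℝ) ^ (1 - d) := by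
      nlinarith
    linarith

/-- the bounds for `b` -/
theorem bbd (hB : Big d X) (h : Sz d X X₁ n Δ Q J M M₁ H') {N₁ y xj b : ℕ} (hN : X ≤ 2 * N₁)
    (hN' : N₁ ≤ 2 * X) (hy : Q ^ J ≤ y) (hy' : y ≤ 3 * Q ^ J) (hx : X₁ ≤ xj) (hx' : xj ≤ 2 * X₁)
    (hb : b + 1 = (N₁ + H' / 2) * M * y * xj) :
    (X : ℝ) ^ (2 - 101 / 100 * d) ≤ b ∧ (b : ℝ) ≤ (X : ℝ) ^ (2 - d + d / 500) := by
  have hx1 := X0 hB
  have hx0 : (0 : ℝ) < X := by linarith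
  obtain ⟨m1, m2, m3, m4⟩ := MQ hB h
  have hbR : (b : ℝ) + 1 = ((N₁ : ℝ) + ((H' / 2 : ℕ) : ℝ)) * M * y * xj := by exact_mod_cast hb
  have hN2 : (X : ℝ) ≤ 2 * N₁ := by exact_mod_cast hN
  have hN3 : (N₁ : ℝ) ≤ 2 * X := by exact_mod_cast hN'
  have hH : ((H' / 2 : ℕ) : ℝ) ≤ X / 2 := by
    have h1 : ((H' / 2 : ℕ) : ℝ) ≤ (H' : ℝ) / 2 := Nat.cast_div_le
    have h2 : (X : ℝ) ^ (1 - d / 100) ≤ (X : ℝ) ^ (1 : ℝ) :=
      Real.rpow_le_rpow_of_exponent_le hx1 (by linarith [h.d0])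
    rw [Real.rpow_one] at h2
    linarith [h.Hhi]
  have hH0 : (0 : ℝ) ≤ ((H' / 2 : ℕ) : ℝ) := by positivity
  have hyR : (Q : ℝ) ^ J ≤ y := by exact_mod_cast hy
  have hyR' : (y : ℝ) ≤ 3 * (Q : ℝ) ^ J := by exact_mod_cast hy'
  have hxR : (X₁ : ℝ) ≤ xj := by exact_mod_cast hx
  have hxR' : (xj : ℝ) ≤ 2 * X₁ := by exact_mod_cast hx'
  have e1 : (X : ℝ) * (X : ℝ) ^ (1 - d) = (X : ℝ) ^ (2 - d) := by
    nth_rw 1 [← Real.rpow_one (X : ℝ)]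
    rw [← Real.rpow_add hx0]
    congr 1
    ring
  constructor
  · have h1 : (X : ℝ) ^ (2 - d) / 4 ≤ (b : ℝ) + 1 := by
      rw [hbR]
      have i1 : (X : ℝ) / 2 ≤ ((N₁ : ℝ) + ((H' / 2 : ℕ) : ℝ)) * M := by nlinarith
      have i2 : (X : ℝ) / 2 ≤ ((N₁ : ℝ) + ((H' / 2 : ℕ) : ℝ)) * M * y := by
        have : (1 : ℝ) ≤ y := by linarith
        nlinarith
      calc (X : ℝ) ^ (2 - d) / 4 = (X / 2) * ((X : ℝ) ^ (1 - d) / 2) := by
            rw [← e1]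
            ring
        _ ≤ ((N₁ : ℝ) + ((H' / 2 : ℕ) : ℝ)) * M * y * xj := by
            apply mul_le_mul i2 _ (by positivity) (by positivity)
            linarith [h.X₁lo]
    have h2 : 8 * (X : ℝ) ^ (2 - 101 / 100 * d) ≤ (X : ℝ) ^ (2 - d) := by
      calc 8 * (X : ℝ) ^ (2 - 101 / 100 * d) ≤ (X : ℝ) ^ (1 / 100 * d) *
            (X : ℝ) ^ (2 - 101 / 100 * d) := by
            gcongr
            exact hB.f
        _ = (X : ℝ) ^ (2 - d) := by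
            rw [← Real.rpow_add hx0]
            congr 1
            ring
    have h3 : 1 ≤ (X : ℝ) ^ (2 - 101 / 100 * d) :=
      Real.one_le_rpow hx1 (by linarith [h.d1])
    linarith
  · calc (b : ℝ) ≤ (b : ℝ) + 1 := by linarith
      _ = ((N₁ : ℝ) + ((H' / 2 : ℕ) : ℝ)) * M * y * xj := hbR
      _ ≤ (2 * X + X / 2) * M * (3 * (Q : ℝ) ^ J) * (2 * (X : ℝ) ^ (1 - d)) := by
          gcongr
          linarith [h.X₁hi]
      _ = 15 * ((M : ℝ) * (Q : ℝ) ^ J) * (X : ℝ) ^ (2 - d) := by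
          rw [← e1]
          ring
      _ ≤ (X : ℝ) ^ (d / 1000) * (X : ℝ) ^ (2 - d) := by
          gcongr
          nlinarith
      _ = (X : ℝ) ^ (d / 1000 + (2 - d)) := by rw [Real.rpow_add hx0]
      _ ≤ (X : ℝ) ^ (2 - d + d / 500) := by
          apply Real.rpow_le_rpow_of_exponent_le hx1
          linarith [h.d0]

/-- the total error -/
theorem err (hB : Big d X) (h : Sz d X X₁ n Δ Q J M M₁ H') {D y z : ℕ} {δ : ℝ}
    (hD : D = y * z) (hy : 1 ≤ y) (hz : Q ^ J ≤ z) (hδ : δ ≤ H' * M * y * X₁) (hδ0 : 0 ≤ δ) :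
    (n : ℝ) * (((Δ : ℝ) / X₁ / Real.sqrt Q + 1 / Real.sqrt X₁) * (δ * Real.log X ^ 7) /
        (M * M₁ * D : ℕ) + (X : ℝ) ^ (2 - d - 5 / 100 * d)) ≤
      (X₁ : ℝ) * H' / ((Q : ℝ) ^ J * Real.log X) := by
  have hx1 := X0 hB
  have hx0 : (0 : ℝ) < X := by linarith
  obtain ⟨m1, m2, m3, m4⟩ := MQ hB h
  obtain ⟨b1, b2⟩ := X₁big hB h
  have hL : (16 : ℝ) ≤ Real.log X := hB.l
  have hL0 : (0 : ℝ) < Real.log X := by linarith
  have hX₁ : (0 : ℝ) < X₁ := lt_of_lt_of_le (by positivity) b2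
  have hM₁ : (1 : ℝ) ≤ M₁ := by
    have : (M : ℝ) ≤ M₁ := by exact_mod_cast h.M1
    linarith
  have hyR : (1 : ℝ) ≤ y := by exact_mod_cast hy
  have hzR : (Q : ℝ) ^ J ≤ z := by exact_mod_cast hz
  have hz1 : (1 : ℝ) ≤ z := by linarith
  have hnD : (n : ℝ) * Δ = X₁ := by exact_mod_cast h.nD
  have hQ : (1 : ℝ) ≤ Q := by
    have h1 : (1 : ℝ) ≤ Real.log X ^ 100 := one_le_pow₀ (by linarith [hB.l])
    linarith [h.Qlo]
  have hsQ : 0 < Real.sqrt Q := Real.sqrt_pos.2 (by linarith)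
  have hsX : 0 < Real.sqrt X₁ := Real.sqrt_pos.2 hX₁
  have hH0 : (0 : ℝ) ≤ H' := by positivity
  have hn0 : (0 : ℝ) ≤ n := by positivity
  -- the quotient
  have q1 : δ / (M * M₁ * D : ℕ) ≤ H' * X₁ / (Q : ℝ) ^ J := by
    rw [div_le_div_iff₀ (by subst hD; push_cast; positivity) (by positivity)]
    have : ((M * M₁ * D : ℕ) : ℝ) = (M : ℝ) * M₁ * (y * z) := by
      subst hD
      push_cast
      ring
    rw [this]
    calc δ * (Q : ℝ) ^ J ≤ (H' * M * y * X₁) * z := by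
          apply mul_le_mul hδ hzR (by positivity) (by positivity)
      _ = (H' * X₁) * (M * 1 * (y * z)) := by ring
      _ ≤ (H' * X₁) * (M * M₁ * (y * z)) := by gcongr
  -- first summand
  have s1 : 1 / Real.sqrt Q * Real.log X ^ 8 ≤ 1 / 4 := by
    have : Real.log X ^ 50 ≤ Real.sqrt Q := by
      apply Real.le_sqrt_of_sq_le
      rw [← pow_mul]
      exact h.Qlo
    rw [one_div_mul_eq_div, div_le_iff₀ hsQ]
    have h42 : (4 : ℝ) ≤ Real.log X ^ 42 := by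
      calc (4 : ℝ) ≤ 16 := by norm_num
        _ ≤ Real.log X := hL
        _ = Real.log X ^ 1 := by ring
        _ ≤ Real.log X ^ 42 := pow_le_pow_right₀ (by linarith) (by norm_num)
    have : Real.log X ^ 50 = Real.log X ^ 8 * Real.log X ^ 42 := by ring
    have h8 : 0 < Real.log X ^ 8 := by positivity
    nlinarith
  have s2 : (n : ℝ) / Real.sqrt X₁ * Real.log X ^ 8 ≤ 1 / 4 := by
    have t1 : (X : ℝ) ^ (9 / 20 : ℝ) ≤ Real.sqrt X₁ := by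
      apply Real.le_sqrt_of_sq_le
      calc ((X : ℝ) ^ (9 / 20 : ℝ)) ^ 2 = (X : ℝ) ^ (9 / 10 : ℝ) := by
            rw [← Real.rpow_natCast, ← Real.rpow_mul hx0.le]
            norm_num
        _ ≤ X₁ := b2
    have t2 : Real.log X ^ 8 ≤ (X : ℝ) ^ (8 / 50 : ℝ) := by
      calc Real.log X ^ 8 ≤ ((X : ℝ) ^ (1 / 50 : ℝ)) ^ 8 := by
            apply pow_le_pow_left₀ hL0.le
            linarith [hB.a]
        _ = (X : ℝ) ^ (8 / 50 : ℝ) := by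
            rw [← Real.rpow_natCast, ← Real.rpow_mul hx0.le]
            norm_num
    have t3 : (64 : ℝ) ≤ (X : ℝ) ^ (1 / 10 : ℝ) := by
      calc (64 : ℝ) ≤ (X : ℝ) ^ (1 / 20 : ℝ) * (X : ℝ) ^ (1 / 20 : ℝ) := by
            have := hB.b
            nlinarith
        _ = (X : ℝ) ^ (1 / 10 : ℝ) := by
            rw [← Real.rpow_add hx0]
            norm_num
    rw [div_mul_eq_mul_div, div_le_iff₀ hsX]
    calc (n : ℝ) * Real.log X ^ 8 ≤ (4 * (X : ℝ) ^ (d / 50)) * (X : ℝ) ^ (8 / 50 : ℝ) := by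
          apply mul_le_mul h.nhi t2 (by positivity) (by positivity)
      _ ≤ 1 / 4 * (64 * (X : ℝ) ^ (d / 50) * (X : ℝ) ^ (8 / 50 : ℝ)) := by
          have : 0 ≤ (X : ℝ) ^ (d / 50) * (X : ℝ) ^ (8 / 50 : ℝ) := by positivity
          nlinarith
      _ ≤ 1 / 4 * ((X : ℝ) ^ (1 / 10 : ℝ) * (X : ℝ) ^ (d / 50) * (X : ℝ) ^ (8 / 50 : ℝ)) := by
          gcongr
      _ = 1 / 4 * (X : ℝ) ^ (1 / 10 + d / 50 + 8 / 50 : ℝ) := by
          rw [Real.rpow_add hx0, Real.rpow_add hx0]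
      _ ≤ 1 / 4 * (X : ℝ) ^ (9 / 20 : ℝ) := by
          gcongr
          linarith [h.d1]
      _ ≤ 1 / 4 * Real.sqrt X₁ := by gcongr
  have p1 : (n : ℝ) * (((Δ : ℝ) / X₁ / Real.sqrt Q + 1 / Real.sqrt X₁) * (δ * Real.log X ^ 7) /
        (M * M₁ * D : ℕ)) ≤ 1 / 2 * ((X₁ : ℝ) * H' / ((Q : ℝ) ^ J * Real.log X)) := by
    have hn1 : (n : ℝ) * ((Δ : ℝ) / X₁) = 1 := by
      rw [← hnD]
      field_simp
      rw [div_self]
      · rw [hnD]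
        exact hX₁.ne'
    calc (n : ℝ) * (((Δ : ℝ) / X₁ / Real.sqrt Q + 1 / Real.sqrt X₁) * (δ * Real.log X ^ 7) /
          (M * M₁ * D : ℕ))
        = ((n : ℝ) * ((Δ : ℝ) / X₁) * (1 / Real.sqrt Q) + n / Real.sqrt X₁) * Real.log X ^ 7 *
          (δ / (M * M₁ * D : ℕ)) := by
          ring
      _ = (1 / Real.sqrt Q * Real.log X ^ 8 + n / Real.sqrt X₁ * Real.log X ^ 8) *
          (1 / Real.log X) * (δ / (M * M₁ * D : ℕ)) := by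
          rw [hn1]
          field_simp
      _ ≤ (1 / 4 + 1 / 4) * (1 / Real.log X) * (H' * X₁ / (Q : ℝ) ^ J) := by
          gcongr
      _ = 1 / 2 * ((X₁ : ℝ) * H' / ((Q : ℝ) ^ J * Real.log X)) := by
          field_simp
          ring
  have p2 : (n : ℝ) * (X : ℝ) ^ (2 - d - 5 / 100 * d) ≤
      1 / 2 * ((X₁ : ℝ) * H' / ((Q : ℝ) ^ J * Real.log X)) := by
    rw [← mul_div_assoc, le_div_iff₀ (by positivity)]
    calc (n : ℝ) * (X : ℝ) ^ (2 - d - 5 / 100 * d) * ((Q : ℝ) ^ J * Real.log X)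
        ≤ (4 * (X : ℝ) ^ (d / 50)) * (X : ℝ) ^ (2 - d - 5 / 100 * d) *
          ((X : ℝ) ^ (d / 1000) * Real.log X) := by
          gcongr
          exact h.nhi
      _ = 1 / 8 * ((32 * Real.log X) * ((X : ℝ) ^ (d / 50) * (X : ℝ) ^ (2 - d - 5 / 100 * d) *
          (X : ℝ) ^ (d / 1000))) := by ring
      _ ≤ 1 / 8 * ((X : ℝ) ^ (19 / 1000 * d) * ((X : ℝ) ^ (d / 50) *
          (X : ℝ) ^ (2 - d - 5 / 100 * d) * (X : ℝ) ^ (d / 1000))) := by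
          gcongr
          exact hB.c
      _ = 1 / 8 * ((X : ℝ) ^ (1 - d) * (X : ℝ) ^ (1 - d / 100)) := by
          rw [← Real.rpow_add hx0, ← Real.rpow_add hx0, ← Real.rpow_add hx0, ← Real.rpow_add hx0]
          congr 2
          ring
      _ ≤ 1 / 8 * ((2 * X₁) * (2 * H')) := by
          gcongr
          · exact h.X₁lo
          · exact h.Hlo.le
      _ = 1 / 2 * ((X₁ : ℝ) * H') := by ring
  rw [mul_add]
  linarith

/-- a power of two between two bounds -/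
theorem exists_n (hB : Big d X) (hd0 : 0 < d) (hd1 : d ≤ 1 / 100)
    (hlo : (X : ℝ) ^ (1 - d) ≤ 2 * X₁) (hp : ∃ b, X₁ = 2 ^ b) :
    ∃ n Δ : ℕ, (X : ℝ) ^ (d / 50) ≤ n ∧ (n : ℝ) ≤ 4 * (X : ℝ) ^ (d / 50) ∧ n * Δ = X₁ ∧ 1 ≤ n ∧
      1 ≤ Δ := by
  have hx1 := X0 hB
  have hx0 : (0 : ℝ) < X := by linarith
  have hp1 : 1 ≤ (X : ℝ) ^ (d / 50) := Real.one_le_rpow hx1 (by linarith)
  obtain ⟨b, hb⟩ := hp
  set k := Nat.clog 2 ⌈(X : ℝ) ^ (d / 50)⌉₊ with hk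
  have h1 : (X : ℝ) ^ (d / 50) ≤ ((2 ^ k : ℕ) : ℝ) := by
    calc (X : ℝ) ^ (d / 50) ≤ (⌈(X : ℝ) ^ (d / 50)⌉₊ : ℝ) := Nat.le_ceil _
      _ ≤ ((2 ^ k : ℕ) : ℝ) := by
          exact_mod_cast Nat.le_pow_clog (by norm_num) _
  have h2 : ((2 ^ k : ℕ) : ℝ) ≤ 4 * (X : ℝ) ^ (d / 50) := by
    rcases Nat.eq_zero_or_pos k with h0 | h0
    · rw [h0]
      norm_num
      linarith
    · have h3 : 1 < ⌈(X : ℝ) ^ (d / 50)⌉₊ := by
        by_contra hcon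
        push Not at hcon
        have : k = 0 := Nat.clog_of_right_le_one hcon 2
        omega
      have h4 : 2 ^ (k - 1) < ⌈(X : ℝ) ^ (d / 50)⌉₊ := Nat.pow_pred_clog_lt_self (by norm_num) h3
      have h5 : ((2 ^ (k - 1) : ℕ) : ℝ) < (X : ℝ) ^ (d / 50) := Nat.lt_ceil.1 h4
      have h6 : ((2 ^ k : ℕ) : ℝ) = 2 * ((2 ^ (k - 1) : ℕ) : ℝ) := by
        obtain ⟨l, hl⟩ := Nat.exists_eq_succ_of_ne_zero h0.ne'
        rw [hl]
        push_cast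
        simp only [Nat.succ_eq_add_one]
        ring
      rw [h6]
      linarith
  have h3 : 2 ^ k ≤ X₁ := by
    have h8 : (8 : ℝ) * (X : ℝ) ^ (d / 50) ≤ (X : ℝ) ^ (1 - d) := by
      calc (8 : ℝ) * (X : ℝ) ^ (d / 50) ≤ (X : ℝ) ^ (1 / 20 : ℝ) * (X : ℝ) ^ (d / 50) := by
            gcongr
            exact hB.b
        _ = (X : ℝ) ^ (1 / 20 + d / 50 : ℝ) := by rw [Real.rpow_add hx0]
        _ ≤ (X : ℝ) ^ (1 - d) := by
            apply Real.rpow_le_rpow_of_exponent_le hx1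
            linarith
    have : ((2 ^ k : ℕ) : ℝ) ≤ X₁ := by linarith
    exact_mod_cast this
  have h4 : k ≤ b := by
    rw [hb] at h3
    exact (Nat.pow_le_pow_iff_right (by norm_num)).1 h3
  refine ⟨2 ^ k, 2 ^ (b - k), h1, h2, ?_, Nat.one_le_two_pow, Nat.one_le_two_pow⟩
  rw [← pow_add, hb]
  congr 1
  omega

/-! ### Arithmetic -/

theorem cl_cop {s : ℤ} (hs : s = 1 ∨ s = -1) {M M₁ y ν ξ c' p : ℕ} (h0 : 0 < M * M₁)
    (hp : p.Prime) (hpf : p ∣ M * M₁) (hpM : p ∣ M)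
    (hc : c' ≡ cl s M M₁ y ν ξ [MOD M * M₁]) : ¬ p ∣ c' := by
  intro h
  have h1 : c' ≡ cl s M M₁ y ν ξ [MOD p] := hc.of_dvd hpf
  have h2 : p ∣ cl s M M₁ y ν ξ := (h1.dvd_iff dvd_rfl).1 h
  have h0' : ((M * M₁ : ℕ) : ℤ) ≠ 0 := by
    have : (0 : ℤ) < ((M * M₁ : ℕ) : ℤ) := by exact_mod_cast h0
    exact this.ne'
  have h3 : ((cl s M M₁ y ν ξ : ℕ) : ℤ) =
      ((M : ℤ) * ((y : ℤ) * ξ * ((ν : ℤ) - (M : ℤ) * ξ * y)) + s) % ((M * M₁ : ℕ) : ℤ) :=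
    Int.toNat_of_nonneg (Int.emod_nonneg _ h0')
  have h4 : (p : ℤ) ∣ (M : ℤ) * ((y : ℤ) * ξ * ((ν : ℤ) - (M : ℤ) * ξ * y)) + s := by
    have h5 : (p : ℤ) ∣ ((cl s M M₁ y ν ξ : ℕ) : ℤ) := Int.natCast_dvd_natCast.2 h2
    rw [h3] at h5
    have h6 : (p : ℤ) ∣ ((M * M₁ : ℕ) : ℤ) := Int.natCast_dvd_natCast.2 hpf
    have h7 := Int.emod_emod_of_dvd
      ((M : ℤ) * ((y : ℤ) * ξ * ((ν : ℤ) - (M : ℤ) * ξ * y)) + s) h6
    rw [Int.dvd_iff_emod_eq_zero] at h5 ⊢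
    rw [← h7, h5]
  have h5 : (p : ℤ) ∣ (M : ℤ) := Int.natCast_dvd_natCast.2 hpM
  have h6 : (p : ℤ) ∣ s := (dvd_add_right (h5.mul_right _)).1 h4
  have h7 : (p : ℤ) ∣ 1 := by
    rcases hs with rfl | rfl
    · exact h6
    · exact (dvd_neg.1 h6)
  have h8 : p ∣ 1 := by exact_mod_cast h7
  exact hp.one_lt.ne' (Nat.dvd_one.1 h8)

theorem s_cop {s : ℤ} (hs : s = 1 ∨ s = -1) {D c' p : ℕ} (hp : p.Prime) (hpD : p ∣ D)
    (hc : ((c' : ℕ) : ZMod D) = ((s : ℤ) : ZMod D)) : ¬ p ∣ c' := by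
  intro h
  have h1 : ((c' : ℕ) : ZMod p) = ((s : ℤ) : ZMod p) := by
    have := congrArg (ZMod.castHom hpD (ZMod p)) hc
    simpa using this
  have h2 : ((c' : ℕ) : ZMod p) = 0 := (ZMod.natCast_eq_zero_iff _ _).2 h
  rw [h2] at h1
  have : Fact p.Prime := ⟨hp⟩
  rcases hs with rfl | rfl
  · simp at h1
  · simp at h1

/-- the choice of `c'` -/
theorem exists_c {f₁ D c : ℕ} (s : ℤ) (hD : 1 ≤ D) (hco : f₁.Coprime D) :
    ∃ c' : ℕ, c' ≡ c [MOD f₁] ∧ ((c' : ℕ) : ZMod D) = ((s : ℤ) : ZMod D) := by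
  have : NeZero D := ⟨by omega⟩
  obtain ⟨k, hk1, hk2⟩ := Nat.chineseRemainder hco c (((s : ℤ) : ZMod D)).val
  refine ⟨k, hk1, ?_⟩
  have h1 := (ZMod.natCast_eq_natCast_iff _ _ _).2 hk2
  rw [h1, ZMod.natCast_zmod_val]

/-! ### One interval -/

theorem LL_nonneg (m : ℕ) : 0 ≤ LL m := by
  unfold LL
  split
  · exact Real.log_natCast_nonneg m
  · exact le_rfl

theorem perj (Xj : Finset ℕ) (M₁ f₁ D a b : ℕ) (s : ℤ) (clf : ℕ → ℕ) (g : ℕ → ℝ) (E : ℕ → ℝ)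
    (κ ε : ℝ) (h2 : S_MT2) (hf : 1 ≤ f₁) (hD : 1 ≤ D) (hco : f₁.Coprime D)
    (hcop : ∀ x ∈ Xj, x % M₁ ∈ cop M₁)
    (hsq : ∀ x ∈ Xj, Squarefree x ∧ 1 ≤ x ∧ x ≤ a)
    (hg : ∀ x ∈ Xj, ∑ m ∈ (Ioc a b).filter (fun m => m ≡ clf (x % M₁) [MOD f₁] ∧
      ((m : ℕ) : ZMod D) = ((s : ℤ) : ZMod D) ∧ ((m : ℕ) : ZMod x) = ((s : ℤ) : ZMod x)), LL m ≤ g x)
    (hE : ∀ x ∈ Xj, ∀ u ∈ x.divisors, ∀ c : ℕ, c.Coprime (f₁ * D) → u ≠ 1 →
      |dsp (f₁ * D) c u s a b| ≤ E u)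
    (hcl : ∀ ξ ∈ cop M₁, ∀ c' : ℕ, c' ≡ clf ξ [MOD f₁] →
      ((c' : ℕ) : ZMod D) = ((s : ℤ) : ZMod D) → c'.Coprime (f₁ * D))
    (hκ : ∀ ξ ∈ cop M₁, κ ≤ ∑ x ∈ Xj.filter (fun x => x % M₁ = ξ), 1 / (x.totient : ℝ))
    (herr : ∑ x ∈ Xj, ∑ u ∈ x.divisors.erase 1, E u / ((x / u).totient : ℝ) ≤ ε) :
    κ * ∑ ξ ∈ cop M₁, ∑ m ∈ (Ioc a b).filter (fun m => m ≡ clf ξ [MOD f₁] ∧
      ((m : ℕ) : ZMod D) = ((s : ℤ) : ZMod D)), LL m - ε ≤ ∑ x ∈ Xj, g x := by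
  have k1 : ∑ ξ ∈ cop M₁, ∑ x ∈ Xj.filter (fun x => x % M₁ = ξ),
      ∑ m ∈ (Ioc a b).filter (fun m => m ≡ clf ξ [MOD f₁] ∧
      ((m : ℕ) : ZMod D) = ((s : ℤ) : ZMod D) ∧ ((m : ℕ) : ZMod x) = ((s : ℤ) : ZMod x)), LL m ≤
      ∑ x ∈ Xj, g x := by
    calc _ = ∑ ξ ∈ cop M₁, ∑ x ∈ Xj.filter (fun x => x % M₁ = ξ),
          ∑ m ∈ (Ioc a b).filter (fun m => m ≡ clf (x % M₁) [MOD f₁] ∧
          ((m : ℕ) : ZMod D) = ((s : ℤ) : ZMod D) ∧ ((m : ℕ) : ZMod x) = ((s : ℤ) : ZMod x)),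
            LL m := by
          refine sum_congr rfl fun ξ _ => sum_congr rfl fun x hx => ?_
          rw [(mem_filter.1 hx).2]
      _ = ∑ x ∈ Xj, ∑ m ∈ (Ioc a b).filter (fun m => m ≡ clf (x % M₁) [MOD f₁] ∧
          ((m : ℕ) : ZMod D) = ((s : ℤ) : ZMod D) ∧ ((m : ℕ) : ZMod x) = ((s : ℤ) : ZMod x)),
            LL m := sum_fiberwise_of_maps_to hcop _
      _ ≤ ∑ x ∈ Xj, g x := sum_le_sum hg
  have k2 : ∑ ξ ∈ cop M₁, ∑ x ∈ Xj.filter (fun x => x % M₁ = ξ), ∑ u ∈ x.divisors.erase 1,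
      E u / ((x / u).totient : ℝ) ≤ ε := by
    rw [sum_fiberwise_of_maps_to hcop]
    exact herr
  have k3 : ∀ ξ ∈ cop M₁, κ * ∑ m ∈ (Ioc a b).filter (fun m => m ≡ clf ξ [MOD f₁] ∧
      ((m : ℕ) : ZMod D) = ((s : ℤ) : ZMod D)), LL m -
      ∑ x ∈ Xj.filter (fun x => x % M₁ = ξ), ∑ u ∈ x.divisors.erase 1,
        E u / ((x / u).totient : ℝ) ≤
      ∑ x ∈ Xj.filter (fun x => x % M₁ = ξ),
      ∑ m ∈ (Ioc a b).filter (fun m => m ≡ clf ξ [MOD f₁] ∧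
      ((m : ℕ) : ZMod D) = ((s : ℤ) : ZMod D) ∧ ((m : ℕ) : ZMod x) = ((s : ℤ) : ZMod x)), LL m := by
    intro ξ hξ
    obtain ⟨c', hc1, hc2⟩ := exists_c (c := clf ξ) s hD hco
    have hc3 := hcl ξ hξ c' hc1 hc2
    have q1 := h2 f₁ D (clf ξ) c' a b s (Xj.filter (fun x => x % M₁ = ξ)) hf hD hco hc1 hc2
      (fun x hx => hsq x (mem_filter.1 hx).1)
    have q2 : ∑ x ∈ Xj.filter (fun x => x % M₁ = ξ), ∑ u ∈ x.divisors.erase 1,
        |dsp (f₁ * D) c' u s a b| / ((x / u).totient : ℝ) ≤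
        ∑ x ∈ Xj.filter (fun x => x % M₁ = ξ), ∑ u ∈ x.divisors.erase 1,
        E u / ((x / u).totient : ℝ) := by
      refine sum_le_sum fun x hx => sum_le_sum fun u hu => ?_
      have hu' := mem_erase.1 hu
      exact div_le_div_of_nonneg_right (hE x (mem_filter.1 hx).1 u hu'.2 c' hc3 hu'.1)
        (by positivity)
    have q3 : κ * ∑ m ∈ (Ioc a b).filter (fun m => m ≡ clf ξ [MOD f₁] ∧
        ((m : ℕ) : ZMod D) = ((s : ℤ) : ZMod D)), LL m ≤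
        (∑ x ∈ Xj.filter (fun x => x % M₁ = ξ), 1 / (x.totient : ℝ)) *
        ∑ m ∈ (Ioc a b).filter (fun m => m ≡ clf ξ [MOD f₁] ∧
        ((m : ℕ) : ZMod D) = ((s : ℤ) : ZMod D)), LL m :=
      mul_le_mul_of_nonneg_right (hκ ξ hξ) (sum_nonneg fun m _ => LL_nonneg m)
    linarith
  have k4 := sum_le_sum k3
  rw [sum_sub_distrib, ← mul_sum] at k4
  linarith

/-- exchange of the sums over `j` and `m` -/
theorem exch (n A B : ℕ) (a b : ℕ → ℕ) (p : ℕ → Prop) [DecidablePred p] (T : ℝ)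
    (hT : ∀ m ∈ Ioc A B, T ≤ (((range n).filter (fun j => a j < m ∧ m ≤ b j)).card : ℝ)) :
    T * ∑ m ∈ (Ioc A B).filter p, LL m ≤
      ∑ j ∈ range n, ∑ m ∈ (Ioc (a j) (b j)).filter p, LL m := by
  calc T * ∑ m ∈ (Ioc A B).filter p, LL m = ∑ m ∈ (Ioc A B).filter p, T * LL m := mul_sum _ _ _
    _ ≤ ∑ m ∈ (Ioc A B).filter p,
        (((range n).filter (fun j => a j < m ∧ m ≤ b j)).card : ℝ) * LL m := by
        refine sum_le_sum fun m hm => ?_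
        exact mul_le_mul_of_nonneg_right (hT m (mem_filter.1 hm).1) (LL_nonneg m)
    _ = ∑ m ∈ (Ioc A B).filter p, ∑ j ∈ range n, (if a j < m ∧ m ≤ b j then LL m else 0) := by
        refine sum_congr rfl fun m _ => ?_
        rw [← sum_filter, sum_const, nsmul_eq_mul]
    _ = ∑ j ∈ range n, ∑ m ∈ (Ioc A B).filter p, (if a j < m ∧ m ≤ b j then LL m else 0) :=
        sum_comm
    _ ≤ ∑ j ∈ range n, ∑ m ∈ (Ioc (a j) (b j)).filter p, LL m := by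
        refine sum_le_sum fun j _ => ?_
        rw [← sum_filter]
        refine sum_le_sum_of_subset_of_nonneg ?_ (fun m _ _ => LL_nonneg m)
        intro m hm
        simp only [mem_filter, mem_Ioc] at hm ⊢
        exact ⟨hm.2, hm.1.2⟩

/-- the intervals are disjoint -/
theorem split (XXs : Finset ℕ) (g : ℕ → ℝ) (hg : ∀ x, 0 ≤ g x) (n X₁ Δ : ℕ) :
    ∑ j ∈ range n, ∑ x ∈ XXs.filter (fun x => X₁ + j * Δ < x ∧ x ≤ X₁ + j * Δ + Δ), g x ≤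
      ∑ x ∈ XXs, g x := by
  rw [← sum_biUnion]
  · refine sum_le_sum_of_subset_of_nonneg ?_ (fun x _ _ => hg x)
    intro x hx
    rw [mem_biUnion] at hx
    obtain ⟨j, _, hj⟩ := hx
    exact (mem_filter.1 hj).1
  · intro j _ k _ hjk
    rw [Function.onFun, disjoint_left]
    intro x hx hx'
    rw [mem_filter] at hx hx'
    have h1 := hx.2
    have h2 := hx'.2
    rcases Nat.lt_or_gt_of_ne hjk with h | h
    · have : (j + 1) * Δ ≤ k * Δ := Nat.mul_le_mul_right _ h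
      rw [Nat.add_mul, Nat.one_mul] at this
      omega
    · have : (k + 1) * Δ ≤ j * Δ := Nat.mul_le_mul_right _ h
      rw [Nat.add_mul, Nat.one_mul] at this
      omega

/-- the number of `x` in one class, weighted -/
theorem kap {X₁ j n Δ Q M₁ ξ : ℕ} {c : ℝ} (hj : j < n) (hn : n * Δ = X₁) (hX₁ : 1 ≤ X₁)
    (hξ : ξ ∈ cop M₁)
    (h : c ≤ (((Ioc (X₁ + j * Δ) (X₁ + j * Δ + Δ)).filter (fun x => x ≡ ξ [MOD M₁] ∧
      Squarefree x ∧ ∀ p ∈ x.primeFactors, 3 * Q < p)).card : ℝ)) :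
    c * (1 / (2 * (X₁ : ℝ))) ≤ ∑ x ∈ ((XX X₁ (3 * Q)).filter
      (fun x => X₁ + j * Δ < x ∧ x ≤ X₁ + j * Δ + Δ)).filter (fun x => x % M₁ = ξ),
        1 / (x.totient : ℝ) := by
  have hX : (0 : ℝ) < X₁ := by exact_mod_cast hX₁
  have hsub : (Ioc (X₁ + j * Δ) (X₁ + j * Δ + Δ)).filter (fun x => x ≡ ξ [MOD M₁] ∧
      Squarefree x ∧ ∀ p ∈ x.primeFactors, 3 * Q < p) ⊆ ((XX X₁ (3 * Q)).filter
      (fun x => X₁ + j * Δ < x ∧ x ≤ X₁ + j * Δ + Δ)).filter (fun x => x % M₁ = ξ) := by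
    intro x hx
    rw [mem_filter, mem_Ioc] at hx
    obtain ⟨⟨x1, x2⟩, x3, x4, x5⟩ := hx
    have h1 : (j + 1) * Δ ≤ n * Δ := Nat.mul_le_mul_right _ hj
    rw [Nat.add_mul, Nat.one_mul, hn] at h1
    have h2 : ξ < M₁ := mem_range.1 (mem_filter.1 hξ).1
    rw [mem_filter, mem_filter, XX, mem_filter, mem_Ioc]
    refine ⟨⟨⟨⟨by omega, by omega⟩, x4, x5⟩, x1, x2⟩, ?_⟩
    have h3 : x % M₁ = ξ % M₁ := x3
    rw [h3, Nat.mod_eq_of_lt h2]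
  calc c * (1 / (2 * (X₁ : ℝ))) ≤ (((Ioc (X₁ + j * Δ) (X₁ + j * Δ + Δ)).filter
        (fun x => x ≡ ξ [MOD M₁] ∧ Squarefree x ∧ ∀ p ∈ x.primeFactors, 3 * Q < p)).card : ℝ) *
          (1 / (2 * (X₁ : ℝ))) := by
        apply mul_le_mul_of_nonneg_right h (by positivity)
    _ = ∑ x ∈ (Ioc (X₁ + j * Δ) (X₁ + j * Δ + Δ)).filter (fun x => x ≡ ξ [MOD M₁] ∧
      Squarefree x ∧ ∀ p ∈ x.primeFactors, 3 * Q < p), (1 / (2 * (X₁ : ℝ))) := by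
        rw [sum_const, nsmul_eq_mul]
    _ ≤ ∑ x ∈ (Ioc (X₁ + j * Δ) (X₁ + j * Δ + Δ)).filter (fun x => x ≡ ξ [MOD M₁] ∧
      Squarefree x ∧ ∀ p ∈ x.primeFactors, 3 * Q < p), 1 / (x.totient : ℝ) := by
        refine sum_le_sum fun x hx => ?_
        have hx' := hsub hx
        rw [mem_filter, mem_filter, XX, mem_filter, mem_Ioc] at hx'
        have h1 : x ≤ 2 * X₁ := hx'.1.1.1.2
        have h2 : 0 < x := by omega
        have h3 : (0 : ℝ) < x.totient := by exact_mod_cast Nat.totient_pos.2 h2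
        apply one_div_le_one_div_of_le h3
        have h4 : x.totient ≤ x := Nat.totient_le x
        exact_mod_cast h4.trans h1
    _ ≤ _ := sum_le_sum_of_subset_of_nonneg hsub (fun x _ _ => by positivity)

end MTT

theorem t_MTT : M_MTT := by
  intro hMT1 hMT2 hMT3 hMT4 hBR hSWA hTB hCF C₁ hC₁
  obtain ⟨cB, hcB, hBR⟩ := hBR
  refine ⟨cB / 8160, by positivity, ?_⟩
  intro R₁ d
  by_cases hd : 0 < d ∧ d ≤ 1 / 100
  swap
  · exact ⟨0, fun X _ J Q X₁ H W P s hc => absurd ⟨hc.d0, hc.d1⟩ hd⟩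
  obtain ⟨Xa, ha⟩ := hMT1 C₁ hC₁ R₁ d
  obtain ⟨Xb, hb⟩ := hMT3 C₁ hC₁ R₁ d
  obtain ⟨Xc, hc⟩ := hMT4 C₁ hC₁ R₁ d
  obtain ⟨Xd, hd'⟩ := hCF C₁ hC₁ R₁ d 0
  obtain ⟨Xe, he⟩ := MTT.big d hd.1
  by_cases hM : 1 ≤ MM1 R₁ ∧ ∀ p : ℕ, p.Prime → (p ∣ MM1 R₁ ↔ p ≤ R₁)
  swap
  · refine ⟨Xd, fun X hX J Q X₁ H W P s hcfg => ?_⟩
    obtain ⟨-, -, cf3, -, -, -, cf7, -⟩ := hd' X hX J Q X₁ H W P hcfg
    exact absurd ⟨cf7, cf3⟩ hM
  obtain ⟨Xf, hf⟩ := hBR R₁ (MM1 R₁) hM.1 hM.2 101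
  refine ⟨max (max (max Xa Xb) (max Xc Xd)) (max Xe Xf), ?_⟩
  intro X hX J Q X₁ H W P s hcfg hs t ht N₁ ν A B hN hN' hA hB
  simp only [max_le_iff] at hX
  obtain ⟨⟨⟨X1, X2⟩, X3, X4⟩, X5, X6⟩ := hX
  have hBig := he X X5
  obtain ⟨cf1, cf2, cf3, cf4, cf5, cf6, cf7, cf8, cf9, cf10, cf11, cf12, cf13, cf14, cf15, cf16,
    cf17, cf18, cf19, cf20, cf21, cf22, cf23, cf24⟩ := hd' X X4 J Q X₁ H W P hcfg
  obtain ⟨n, Δ, hn1, hn2, hn3, hn4, hn5⟩ := MTT.exists_n hBig hd.1 hd.2 hcfg.X₁lo hcfg.X₁p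
  have hJ2 := hcfg.J2
  have hMle : pri R₁ ≤ MM1 R₁ := Nat.le_of_dvd (by omega) cf6
  have hSz : MTT.Sz d X X₁ n Δ Q J (pri R₁) (MM1 R₁) (HL (MM1 R₁) X (d / 100)) :=
    ⟨hd.1, hd.2, hcfg.X₁lo, hcfg.X₁hi, hn1, hn2, hn3, hcfg.Qlo, hcfg.Qhi, by omega, cf5, hMle,
      hcfg.sml, cf14, cf15⟩
  obtain ⟨tb1, -, -⟩ := hTB C₁ Q J (MM1 R₁) P hcfg.good (by omega) cf7 (by
    intro p hp
    have h1 := (cf3 p (Nat.prime_of_mem_primeFactors hp)).1 (Nat.dvd_of_mem_primeFactors hp)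
    omega)
  obtain ⟨y1, y2, z1, z2, -, -, sqD, pfD, -, -⟩ := tb1 t ht
  have hQ1 : 1 ≤ Q := by omega
  have hQJ : 1 ≤ Q ^ J := Nat.one_le_pow _ _ (by omega)
  have hy1 : 1 ≤ yy t := by omega
  have hz1 : 1 ≤ zz t := by omega
  have hD1 : 1 ≤ DD t := Nat.mul_pos hy1 hz1
  have hX1 := hBig.x1
  have hN1 : 1 ≤ N₁ := by omega
  have hX₁1 : 1 ≤ X₁ := by
    rw [← hn3]
    exact Nat.mul_pos hn4 hn5
  have hXR : (1 : ℝ) ≤ X := by exact_mod_cast hX1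
  have hX₁R : (0 : ℝ) < X₁ := by exact_mod_cast hX₁1
  have hnR : (0 : ℝ) < n := by exact_mod_cast hn4
  have hΔR : (0 : ℝ) < Δ := by exact_mod_cast hn5
  have hll : (0 : ℝ) < Real.log (Real.log X) := by linarith
  have hl3 : (0 : ℝ) < Real.log (3 * Q) := by linarith
  have hφ : (0 : ℝ) < (MM1 R₁).totient := by exact_mod_cast Nat.totient_pos.2 (by omega)
  have hf1 : 1 ≤ pri R₁ * MM1 R₁ := Nat.mul_pos cf5 cf7
  -- primes
  have hprM : ∀ p : ℕ, p.Prime → p ∣ pri R₁ * MM1 R₁ → p ≤ R₁ ∧ p ∣ pri R₁ := by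
    intro p hp hpd
    have h1 : p ≤ R₁ := by
      rcases (hp.dvd_mul).1 hpd with h | h
      · exact (cf3 p hp).1 (h.trans cf6)
      · exact (cf3 p hp).1 h
    refine ⟨h1, ?_⟩
    exact dvd_prod_of_mem (fun p => p) (mem_filter.2 ⟨mem_Icc.2 ⟨hp.one_lt.le, h1⟩, hp⟩)
  have hprD : ∀ p : ℕ, p.Prime → p ∣ DD t → Q < p := by
    intro p hp hpd
    exact hcfg.good.lo p (pfD (Nat.mem_primeFactors.2 ⟨hp, hpd, by omega⟩))
  have hco : (pri R₁ * MM1 R₁).Coprime (DD t) := by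
    rw [Nat.coprime_iff_gcd_eq_one]
    by_contra hne
    obtain ⟨p, hp, hpd⟩ := Nat.exists_prime_and_dvd hne
    have h1 := (hprM p hp (hpd.trans (Nat.gcd_dvd_left _ _))).1
    have h2 := hprD p hp (hpd.trans (Nat.gcd_dvd_right _ _))
    omega
  have hcl : ∀ ξ ∈ cop (MM1 R₁), ∀ c' : ℕ,
      c' ≡ cl s (pri R₁) (MM1 R₁) (yy t) ν ξ [MOD pri R₁ * MM1 R₁] →
      ((c' : ℕ) : ZMod (DD t)) = ((s : ℤ) : ZMod (DD t)) →
      c'.Coprime (pri R₁ * MM1 R₁ * DD t) := by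
    intro ξ _ c' hc1 hc2
    rw [Nat.coprime_iff_gcd_eq_one]
    by_contra hne
    obtain ⟨p, hp, hpd⟩ := Nat.exists_prime_and_dvd hne
    have h1 : p ∣ c' := hpd.trans (Nat.gcd_dvd_left _ _)
    rcases (hp.dvd_mul).1 (hpd.trans (Nat.gcd_dvd_right _ _)) with h | h
    · exact MTT.cl_cop hs (by omega) hp h (hprM p hp h).2 hc1 h1
    · exact MTT.s_cop hs hp h hc2 h1
  -- the data
  obtain ⟨g, hg⟩ : ∃ g : ℕ → ℝ, ∀ x, g x = ∑ w ∈ WW (pri R₁) (MM1 R₁)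
    (HL (MM1 R₁) X (d / 100)) W N₁ ν t x, LL (mv s (pri R₁ * DD t * x * w)) := ⟨_, fun _ => rfl⟩
  have hg0 : ∀ x, 0 ≤ g x := by
    intro x
    rw [hg]
    exact sum_nonneg fun w _ => MTT.LL_nonneg _
  obtain ⟨a, haD⟩ : ∃ a : ℕ → ℕ, ∀ j, a j = N₁ * pri R₁ * yy t * (X₁ + (j + 1) * Δ) :=
    ⟨_, fun _ => rfl⟩
  obtain ⟨b, hbD⟩ : ∃ b : ℕ → ℕ, ∀ j, b j + 1 = (N₁ + HL (MM1 R₁) X (d / 100) / 2) * pri R₁ *
      yy t * (X₁ + j * Δ) := by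
    refine ⟨fun j => (N₁ + HL (MM1 R₁) X (d / 100) / 2) * pri R₁ * yy t * (X₁ + j * Δ) - 1,
      fun j => ?_⟩
    have h1 : 0 < (N₁ + HL (MM1 R₁) X (d / 100) / 2) * pri R₁ * yy t * (X₁ + j * Δ) := by
      apply Nat.mul_pos (Nat.mul_pos (Nat.mul_pos _ _) _) <;> omega
    exact Nat.sub_add_cancel h1
  obtain ⟨κ, hκD⟩ : ∃ κ : ℝ, κ = cB * Δ / ((MM1 R₁).totient * Real.log (3 * Q)) *
      (1 / (2 * (X₁ : ℝ))) := ⟨_, rfl⟩
  obtain ⟨δ, hδD⟩ : ∃ δ : ℝ, δ = (HL (MM1 R₁) X (d / 100) : ℕ) * (pri R₁ : ℕ) * (yy t : ℕ) * X₁ :=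
    ⟨_, rfl⟩
  have hδ0 : 0 ≤ δ := by
    rw [hδD]
    positivity
  obtain ⟨ε, hεD⟩ : ∃ ε : ℝ, ε = ((Δ : ℝ) / X₁ / Real.sqrt Q + 1 / Real.sqrt X₁) *
      (δ * Real.log X ^ 7) / (pri R₁ * MM1 R₁ * DD t : ℕ) + (X : ℝ) ^ (2 - d - 5 / 100 * d) :=
    ⟨_, rfl⟩
  have hL0 : 0 ≤ Real.log (X : ℝ) := Real.log_nonneg hXR
  have hε0 : 0 ≤ ε := by
    rw [hεD]
    positivity
  have hκ0 : 0 ≤ κ := by
    rw [hκD]
    positivity
  -- one interval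
  have key : ∀ j ∈ range n, κ * ∑ ξ ∈ cop (MM1 R₁), ∑ m ∈ (Ioc (a j) (b j)).filter (fun m =>
      m ≡ cl s (pri R₁) (MM1 R₁) (yy t) ν ξ [MOD pri R₁ * MM1 R₁] ∧
      ((m : ℕ) : ZMod (DD t)) = ((s : ℤ) : ZMod (DD t))), LL m - ε ≤
      ∑ x ∈ (XX X₁ (3 * Q)).filter (fun x => X₁ + j * Δ < x ∧ x ≤ X₁ + j * Δ + Δ), g x := by
    intro j hj
    rw [mem_range] at hj
    have hjΔ : (j + 1) * Δ ≤ X₁ := by
      rw [← hn3]
      exact Nat.mul_le_mul_right _ hj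
    have hjΔ' : (j + 1) * Δ = j * Δ + Δ := by ring
    rcases Nat.lt_or_ge (b j) (a j) with hab | hab
    · have h0 : ∀ ξ ∈ cop (MM1 R₁), ∑ m ∈ (Ioc (a j) (b j)).filter (fun m =>
          m ≡ cl s (pri R₁) (MM1 R₁) (yy t) ν ξ [MOD pri R₁ * MM1 R₁] ∧
          ((m : ℕ) : ZMod (DD t)) = ((s : ℤ) : ZMod (DD t))), LL m = 0 := by
        intro ξ _
        rw [Ioc_eq_empty_of_le hab.le]
        simp
      rw [sum_eq_zero h0, mul_zero, zero_sub]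
      have : 0 ≤ ∑ x ∈ (XX X₁ (3 * Q)).filter
          (fun x => X₁ + j * Δ < x ∧ x ≤ X₁ + j * Δ + Δ), g x := sum_nonneg fun x _ => hg0 x
      linarith
    · obtain ⟨bb1, bb2⟩ := MTT.bbd hBig hSz hN hN' y1 y2 (xj := X₁ + j * Δ) (by omega) (by omega)
        (hbD j)
      obtain ⟨E, hE0, hE1, hE2⟩ := hb X X2 J Q X₁ H W P s hcfg hs t ht (X₁ + j * Δ) Δ (a j) (b j)
        hn5 (by omega) (by omega) hab bb1 bb2
      refine MTT.perj _ (MM1 R₁) (pri R₁ * MM1 R₁) (DD t) (a j) (b j) s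
        (fun ξ => cl s (pri R₁) (MM1 R₁) (yy t) ν ξ) g E κ ε hMT2 hf1 hD1 hco ?_ ?_ ?_ ?_ hcl ?_ ?_
      · intro x hx
        rw [mem_filter, XX, mem_filter] at hx
        refine mem_filter.2 ⟨mem_range.2 (Nat.mod_lt _ (by omega)), ?_⟩
        rw [Nat.coprime_iff_gcd_eq_one, ← Nat.gcd_rec, Nat.gcd_comm] at *
        by_contra hne
        obtain ⟨p, hp, hpd⟩ := Nat.exists_prime_and_dvd hne
        have h1 := (cf3 p hp).1 (hpd.trans (Nat.gcd_dvd_right _ _))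
        have h2 := hx.1.2.2 p (Nat.mem_primeFactors.2 ⟨hp, hpd.trans (Nat.gcd_dvd_left _ _), by
          omega⟩)
        omega
      · intro x hx
        rw [mem_filter, XX, mem_filter, mem_Ioc] at hx
        refine ⟨hx.1.2.1, by omega, ?_⟩
        rw [haD]
        have h1 : 1 ≤ N₁ * pri R₁ * yy t := Nat.mul_pos (Nat.mul_pos hN1 cf5) hy1
        calc x ≤ X₁ + (j + 1) * Δ := by omega
          _ = 1 * (X₁ + (j + 1) * Δ) := by ring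
          _ ≤ N₁ * pri R₁ * yy t * (X₁ + (j + 1) * Δ) := Nat.mul_le_mul_right _ h1
      · intro x hx
        rw [mem_filter] at hx
        rw [hg]
        refine ha X X1 J Q X₁ H W P s hcfg hs t ht x hx.1 N₁ ν (X₁ + j * Δ) Δ (a j) (b j) hN hN'
          hx.2.1 hx.2.2 ?_ (hbD j).le
        rw [haD, hjΔ', Nat.add_assoc]
      · intro x hx u hu c hc hu1
        exact hE1 x (mem_filter.1 hx).1 u hu c hc hu1
      · intro ξ hξ
        rw [hκD]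
        refine MTT.kap hj hn3 hX₁1 hξ ?_
        have h3Q : ((3 * Q : ℕ) : ℝ) = 3 * (Q : ℝ) := by push_cast; ring
        have hL16 := hBig.l
        have hQlo := hcfg.Qlo
        have hQhi := hcfg.Qhi
        have hpw : Real.log X ≤ Real.log X ^ 100 := by
          calc Real.log X = Real.log X ^ 1 := by ring
            _ ≤ Real.log X ^ 100 := pow_le_pow_right₀ (by linarith) (by norm_num)
        have h1 := hf X X6 (3 * Q) (X₁ + j * Δ) Δ ξ (by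
            rw [h3Q]
            linarith) (by
            rw [h3Q]
            have : Real.log X ^ 101 = Real.log X ^ 100 * Real.log X := by ring
            have h100 : 0 < Real.log X ^ 100 := by positivity
            nlinarith) (MTT.X₁big hBig hSz).1 (by
            have h2 : (X₁ : ℝ) ≤ X := by
              calc (X₁ : ℝ) ≤ (X : ℝ) ^ (1 - d) := hcfg.X₁hi
                _ ≤ (X : ℝ) ^ (1 : ℝ) := Real.rpow_le_rpow_of_exponent_le hXR (by linarith)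
                _ = X := Real.rpow_one _
            have h3 : X₁ ≤ X := by exact_mod_cast h2
            omega) (mem_filter.1 hξ).2
        rw [h3Q] at h1
        exact h1
      · refine hE2.trans ?_
        rw [hεD]
        have hba : (b j : ℝ) - a j ≤ δ := by
          have e1 : (b j : ℝ) + 1 = ((N₁ : ℝ) + ((HL (MM1 R₁) X (d / 100) / 2 : ℕ) : ℝ)) * pri R₁ *
            yy t * (X₁ + j * Δ) := by exact_mod_cast hbD j
          have e2 : (a j : ℝ) = N₁ * pri R₁ * yy t * (X₁ + (j + 1) * Δ) := by exact_mod_cast haD j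
          have e3 : ((HL (MM1 R₁) X (d / 100) / 2 : ℕ) : ℝ) ≤
            ((HL (MM1 R₁) X (d / 100) : ℕ) : ℝ) / 2 := Nat.cast_div_le
          have e4 : (X₁ : ℝ) + j * Δ ≤ 2 * X₁ := by
            have : (j * Δ : ℕ) ≤ X₁ := by omega
            have : ((j * Δ : ℕ) : ℝ) ≤ X₁ := by exact_mod_cast this
            push_cast at this
            linarith
          have e5 : ((HL (MM1 R₁) X (d / 100) / 2 : ℕ) : ℝ) * pri R₁ * yy t * (X₁ + j * Δ) ≤ δ := by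
            calc ((HL (MM1 R₁) X (d / 100) / 2 : ℕ) : ℝ) * pri R₁ * yy t * (X₁ + j * Δ)
                ≤ ((HL (MM1 R₁) X (d / 100) : ℕ) : ℝ) / 2 * pri R₁ * yy t * (2 * X₁) := by
                  gcongr
              _ = δ := by
                  rw [hδD]
                  ring
          have e6 : (0 : ℝ) ≤ N₁ * pri R₁ * yy t * Δ := by positivity
          rw [e2]
          nlinarith
        gcongr
  -- summation
  have hsplit := MTT.split (XX X₁ (3 * Q)) g hg0 n X₁ Δ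
  have hsum := sum_le_sum key
  rw [sum_sub_distrib, sum_const, card_range, nsmul_eq_mul, ← mul_sum, sum_comm] at hsum
  have hex : ∀ ξ ∈ cop (MM1 R₁), (n : ℝ) * (HL (MM1 R₁) X (d / 100) : ℕ) / (40 * X) *
      ∑ m ∈ (Ioc A B).filter (fun m =>
        m ≡ cl s (pri R₁) (MM1 R₁) (yy t) ν ξ [MOD pri R₁ * MM1 R₁] ∧
        ((m : ℕ) : ZMod (DD t)) = ((s : ℤ) : ZMod (DD t))), LL m ≤
      ∑ j ∈ range n, ∑ m ∈ (Ioc (a j) (b j)).filter (fun m =>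
        m ≡ cl s (pri R₁) (MM1 R₁) (yy t) ν ξ [MOD pri R₁ * MM1 R₁] ∧
        ((m : ℕ) : ZMod (DD t)) = ((s : ℤ) : ZMod (DD t))), LL m := by
    intro ξ _
    refine MTT.exch n A B a b _ _ ?_
    intro m hm
    rw [mem_Ioc] at hm
    have h1 := hc X X3 J Q X₁ H W P hcfg t ht N₁ n Δ m hN hN' hn3 hn1 hn2 (by omega) (by omega)
    refine h1.trans ?_
    have h2 : (range n).filter (fun j => N₁ * pri R₁ * yy t * (X₁ + (j + 1) * Δ) < m ∧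
        m + 1 ≤ (N₁ + HL (MM1 R₁) X (d / 100) / 2) * pri R₁ * yy t * (X₁ + j * Δ)) =
        (range n).filter (fun j => a j < m ∧ m ≤ b j) := by
      refine filter_congr fun j _ => ?_
      rw [haD, ← hbD]
      constructor
      · rintro ⟨h, h'⟩
        exact ⟨h, by omega⟩
      · rintro ⟨h, h'⟩
        exact ⟨h, by omega⟩
    rw [h2]
  have hex2 := sum_le_sum hex
  rw [← mul_sum] at hex2
  have herr := MTT.err hBig hSz (D := DD t) (y := yy t) (z := zz t) (δ := δ) rfl hy1 z1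
    (by rw [hδD]) hδ0
  rw [← hεD] at herr
  have hS0 : 0 ≤ ∑ ξ ∈ cop (MM1 R₁), ∑ m ∈ (Ioc A B).filter (fun m =>
        m ≡ cl s (pri R₁) (MM1 R₁) (yy t) ν ξ [MOD pri R₁ * MM1 R₁] ∧
        ((m : ℕ) : ZMod (DD t)) = ((s : ℤ) : ZMod (DD t))), LL m :=
    sum_nonneg fun ξ _ => sum_nonneg fun m _ => MTT.LL_nonneg m
  obtain ⟨S, hS⟩ : ∃ S : ℝ, S = ∑ ξ ∈ cop (MM1 R₁), ∑ m ∈ (Ioc A B).filter (fun m =>
        m ≡ cl s (pri R₁) (MM1 R₁) (yy t) ν ξ [MOD pri R₁ * MM1 R₁] ∧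
        ((m : ℕ) : ZMod (DD t)) = ((s : ℤ) : ZMod (DD t))), LL m := ⟨_, rfl⟩
  rw [← hS] at hS0 hex2 ⊢
  have hmain : cB / 8160 / Real.log (Real.log X) * ((HL (MM1 R₁) X (d / 100) : ℕ) / X) *
      (1 / ((MM1 R₁).totient : ℝ)) * S ≤
      κ * ((n : ℝ) * (HL (MM1 R₁) X (d / 100) : ℕ) / (40 * X) * S) := by
    have hnD : (n : ℝ) * Δ = X₁ := by exact_mod_cast hn3
    have e1 : κ * ((n : ℝ) * (HL (MM1 R₁) X (d / 100) : ℕ) / (40 * X) * S) =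
        cB / 80 * (1 / Real.log (3 * Q)) * ((HL (MM1 R₁) X (d / 100) : ℕ) / X) *
        (1 / ((MM1 R₁).totient : ℝ)) * S := by
      rw [hκD]
      have : κ * n = κ * n := rfl
      calc _ = cB * (n * Δ / X₁) / 80 * (1 / Real.log (3 * Q)) *
            ((HL (MM1 R₁) X (d / 100) : ℕ) / X) * (1 / ((MM1 R₁).totient : ℝ)) * S := by
            field_simp
            ring
        _ = _ := by
            rw [hnD, div_self hX₁R.ne', mul_one]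
    rw [e1]
    have e2 : cB / 8160 / Real.log (Real.log X) ≤ cB / 80 * (1 / Real.log (3 * Q)) := by
      rw [div_div, mul_one_div, div_div, div_le_div_iff₀ (by positivity) (by positivity)]
      nlinarith
    gcongr
  have hfin : κ * ∑ ξ ∈ cop (MM1 R₁), ∑ j ∈ range n, ∑ m ∈ (Ioc (a j) (b j)).filter (fun m =>
        m ≡ cl s (pri R₁) (MM1 R₁) (yy t) ν ξ [MOD pri R₁ * MM1 R₁] ∧
        ((m : ℕ) : ZMod (DD t)) = ((s : ℤ) : ZMod (DD t))), LL m ≥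
      κ * ((n : ℝ) * (HL (MM1 R₁) X (d / 100) : ℕ) / (40 * X) * S) :=
    mul_le_mul_of_nonneg_left hex2 hκ0
  have hgoal : ∑ x ∈ XX X₁ (3 * Q), g x = ∑ x ∈ XX X₁ (3 * Q), ∑ w ∈ WW (pri R₁) (MM1 R₁)
      (HL (MM1 R₁) X (d / 100)) W N₁ ν t x, LL (mv s (pri R₁ * DD t * x * w)) :=
    sum_congr rfl fun x _ => hg x
  rw [← hgoal]
  linarith

end

end MUR
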