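import Pool.Agent.MUR.StD

set_option autoImplicit false

/-!
# Project MUR, module NEAR: few points near the ends of the blocks
-/

namespace MUR

open Finset IPR
open Pool.Agent.Lib_helper83.EF (e)

noncomputable section

namespace NEAR

/-- the weights are not negative -/
lemma LL_nonneg (m : ℕ) : 0 ≤ LL m := by
  unfold LL
  split_ifs
  · exact Real.log_natCast_nonneg m
  · exact le_rfl

/-- the numbers `w` with `(a + w z) % H < δ` lie in few short intervals -/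
lemma cover (a z H W δ : ℕ) (hz : 0 < z) (w : ℕ) (hw : 0 < w) (hW : w ≤ W)
    (h : (a + w * z) % H < δ) :
    ∃ k ∈ range ((a + W * z) / H + 1), (k * H - a) / z ≤ W ∧
      w ∈ Ioc ((k * H - a) / z - 1) ((k * H - a) / z - 1 + (δ / z + 2)) := by
  refine ⟨(a + w * z) / H, ?_, ?_, ?_⟩
  · rw [Finset.mem_range]
    have h1 : a + w * z ≤ a + W * z := by
      have := Nat.mul_le_mul_right z hW
      omega
    have h2 := Nat.div_le_div_right (c := H) h1
    omega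
  · have h1 : (a + w * z) / H * H ≤ a + w * z := Nat.div_mul_le_self _ _
    have h2 : (a + w * z) / H * H - a ≤ w * z := by omega
    have h3 : ((a + w * z) / H * H - a) / z ≤ w := by
      calc ((a + w * z) / H * H - a) / z ≤ (w * z) / z := Nat.div_le_div_right h2
        _ = w := Nat.mul_div_cancel _ hz
    exact h3.trans hW
  · have h0 := Nat.div_add_mod (a + w * z) H
    have h1 : (a + w * z) / H * H ≤ a + w * z := Nat.div_mul_le_self _ _
    have h2 : (a + w * z) / H * H - a ≤ w * z := by omega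
    have h3 : ((a + w * z) / H * H - a) / z ≤ w := by
      calc ((a + w * z) / H * H - a) / z ≤ (w * z) / z := Nat.div_le_div_right h2
        _ = w := Nat.mul_div_cancel _ hz
    set m := (a + w * z) / H * H - a with hm
    have h4 : w * z < m + δ := by
      have h5 : H * ((a + w * z) / H) = (a + w * z) / H * H := mul_comm _ _
      omega
    have h6 : m < z * (m / z + 1) := by
      have := Nat.lt_mul_div_succ m hz
      simpa using this
    have h7 : δ < z * (δ / z + 1) := by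
      have := Nat.lt_mul_div_succ δ hz
      simpa using this
    have h8 : w * z < (m / z + δ / z + 2) * z := by
      calc w * z < m + δ := h4
        _ < z * (m / z + 1) + z * (δ / z + 1) := by omega
        _ = (m / z + δ / z + 2) * z := by ring
    have h9 : w < m / z + δ / z + 2 := lt_of_mul_lt_mul_right h8 (Nat.zero_le z)
    rw [Finset.mem_Ioc]
    constructor
    · omega
    · omega

/-- sums over a covered set -/
lemma sum_le_cov (S K : Finset ℕ) (I : ℕ → Finset ℕ) (F : ℕ → ℝ) (hF : ∀ w, 0 ≤ F w)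
    (h : ∀ w ∈ S, ∃ k ∈ K, w ∈ I k) : ∑ w ∈ S, F w ≤ ∑ k ∈ K, ∑ w ∈ I k, F w := by
  classical
  calc ∑ w ∈ S, F w ≤ ∑ w ∈ S, ∑ k ∈ K, (if w ∈ I k then F w else 0) := by
        apply Finset.sum_le_sum
        intro w hw
        obtain ⟨k, hk, hk1⟩ := h w hw
        have h2 : (if w ∈ I k then F w else 0) ≤ ∑ k ∈ K, (if w ∈ I k then F w else 0) := by
          apply Finset.single_le_sum (f := fun k => if w ∈ I k then F w else 0) _ hk
          intro k _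
          show 0 ≤ (if w ∈ I k then F w else 0)
          split_ifs
          · exact hF w
          · exact le_rfl
        rwa [if_pos hk1] at h2
    _ = ∑ k ∈ K, ∑ w ∈ S, (if w ∈ I k then F w else 0) := Finset.sum_comm
    _ ≤ ∑ k ∈ K, ∑ w ∈ I k, F w := by
        apply Finset.sum_le_sum
        intro k _
        rw [← Finset.sum_filter]
        apply Finset.sum_le_sum_of_subset_of_nonneg
        · intro w hw
          exact (Finset.mem_filter.mp hw).2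
        · intro w _ _
          exact hF w

/-- sum over the covering -/
lemma sum_cover (a z H W δ : ℕ) (hz : 0 < z) (F : ℕ → ℝ) (hF : ∀ w, 0 ≤ F w)
    (T : ℝ) (hT : 0 ≤ T)
    (hI : ∀ w₀ : ℕ, w₀ ≤ W → ∑ w ∈ Ioc w₀ (w₀ + (δ / z + 2)), F w ≤ T) :
    ∑ w ∈ (Ioc 0 W).filter (fun w => (a + w * z) % H < δ), F w ≤
      (((a + W * z) / H + 1 : ℕ) : ℝ) * T := by
  classical
  calc ∑ w ∈ (Ioc 0 W).filter (fun w => (a + w * z) % H < δ), F w
      ≤ ∑ k ∈ range ((a + W * z) / H + 1), ∑ w ∈ (if (k * H - a) / z ≤ W then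
        Ioc ((k * H - a) / z - 1) ((k * H - a) / z - 1 + (δ / z + 2)) else ∅), F w := by
        apply sum_le_cov _ _ _ F hF
        intro w hw
        rw [Finset.mem_filter, Finset.mem_Ioc] at hw
        obtain ⟨k, hk, hk1, hk2⟩ := cover a z H W δ hz w hw.1.1 hw.1.2 hw.2
        refine ⟨k, hk, ?_⟩
        rw [if_pos hk1]
        exact hk2
    _ ≤ ∑ k ∈ range ((a + W * z) / H + 1), T := by
        apply Finset.sum_le_sum
        intro k _
        split_ifs with hk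
        · exact hI _ (by omega)
        · simpa using hT
    _ = _ := by
        rw [Finset.sum_const, Finset.card_range, nsmul_eq_mul]

/-- the numerical facts about a configuration -/
lemma num (X J Q X₁ H W M M₁ y z x δ : ℕ) (d : ℝ) (hX : 1 ≤ X) (hd0 : 0 < d) (hd : d ≤ 1 / 100)
    (hJ : 2 ≤ J) (hQ : 1 ≤ Q) (hM : 1 ≤ M) (hMM : M ≤ M₁)
    (hsml : ((16 * M₁ * Q : ℕ) : ℝ) ^ (20 * J) ≤ (X : ℝ) ^ (d / 1000))
    (hX₁ : (X₁ : ℝ) ≤ (X : ℝ) ^ (1 - d)) (hHX : (H : ℝ) ≤ (X : ℝ) ^ (1 - d))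
    (hW : 3 * X ≤ W * Q ^ J) (hH : 1 ≤ H)
    (hy : y ≤ 3 * Q ^ J) (hz : Q ^ J ≤ z) (hz2 : z ≤ 3 * Q ^ J) (hx : x ≤ 2 * X₁)
    (hδ : (X : ℝ) ^ (3 / 5 : ℝ) ≤ δ) (hδH : δ ≤ H) :
    (X : ℝ) ^ (1 / 2 : ℝ) ≤ ((δ / z + 2 : ℕ) : ℝ) ∧ W + (δ / z + 2) ≤ 2 * W ∧
    (((M * x * y + W * z) / H + 1 : ℕ) : ℝ) * ((δ / z + 2 : ℕ) : ℝ) ≤ 15 * W * ((δ : ℝ) / H) := by
  have hXr : (1 : ℝ) ≤ X := by exact_mod_cast hX
  have hX0 : (0 : ℝ) < X := by linarith
  have hQ0 : 0 < Q ^ J := Nat.pos_of_ne_zero (by positivity)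
  have hq : (1 : ℝ) ≤ ((Q ^ J : ℕ) : ℝ) := by exact_mod_cast hQ0
  -- the basic estimate
  have hb : 16 * M * Q ^ J ≤ (16 * M₁ * Q) ^ (20 * J) := by
    have h1 : 1 ≤ M₁ := hM.trans hMM
    have h2 : 1 ≤ 16 * M₁ * Q := Nat.mul_pos (by omega) hQ
    calc 16 * M * Q ^ J ≤ 16 ^ J * M₁ ^ J * Q ^ J := by
          apply Nat.mul_le_mul_right
          apply Nat.mul_le_mul
          · calc 16 = 16 ^ 1 := by norm_num
              _ ≤ 16 ^ J := Nat.pow_le_pow_right (by norm_num) (by omega)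
          · calc M ≤ M₁ := hMM
              _ = M₁ ^ 1 := (pow_one _).symm
              _ ≤ M₁ ^ J := Nat.pow_le_pow_right h1 (by omega)
      _ = (16 * M₁ * Q) ^ J := by rw [mul_pow, mul_pow]
      _ ≤ (16 * M₁ * Q) ^ (20 * J) := Nat.pow_le_pow_right h2 (by omega)
  have hbr : (16 : ℝ) * M * ((Q ^ J : ℕ) : ℝ) ≤ (X : ℝ) ^ (d / 1000) := by
    refine le_trans ?_ hsml
    exact_mod_cast hb
  have hMr : (1 : ℝ) ≤ M := by exact_mod_cast hM
  have hqx : (16 : ℝ) * ((Q ^ J : ℕ) : ℝ) ≤ (X : ℝ) ^ (d / 1000) := by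
    nlinarith [mul_nonneg (sub_nonneg.mpr hMr) (le_trans zero_le_one hq)]
  have hdd : (X : ℝ) ^ (d / 1000) ≤ (X : ℝ) ^ (1 / 100 : ℝ) :=
    Real.rpow_le_rpow_of_exponent_le hXr (by linarith)
  have hx100 : (1 : ℝ) ≤ (X : ℝ) ^ (1 / 100 : ℝ) := Real.one_le_rpow hXr (by norm_num)
  -- powers
  have hdX : (X : ℝ) ^ (1 - d) * (X : ℝ) ^ (d / 1000) ≤ X := by
    rw [← Real.rpow_add hX0]
    calc (X : ℝ) ^ (1 - d + d / 1000) ≤ (X : ℝ) ^ (1 : ℝ) :=
          Real.rpow_le_rpow_of_exponent_le hXr (by linarith)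
      _ = X := Real.rpow_one _
  have hH1 : (H : ℝ) * ((Q ^ J : ℕ) : ℝ) ≤ X := by
    have h1 : (H : ℝ) * ((Q ^ J : ℕ) : ℝ) ≤ (X : ℝ) ^ (1 - d) * (X : ℝ) ^ (d / 1000) := by
      apply mul_le_mul hHX (by linarith) (by positivity) (by positivity)
    linarith
  have hHX' : (H : ℝ) ≤ X := by nlinarith [Nat.cast_nonneg (α := ℝ) H]
  have hWr : (3 : ℝ) * X ≤ W * ((Q ^ J : ℕ) : ℝ) := by exact_mod_cast hW
  have hδr : (δ : ℝ) ≤ H := by exact_mod_cast hδH
  have hH0 : (0 : ℝ) < H := by exact_mod_cast hH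
  have hz0 : 0 < z := lt_of_lt_of_le hQ0 hz
  have hzr : ((Q ^ J : ℕ) : ℝ) ≤ z := by exact_mod_cast hz
  have hzr2 : (z : ℝ) ≤ 3 * ((Q ^ J : ℕ) : ℝ) := by exact_mod_cast hz2
  have hz0r : (0 : ℝ) < z := by exact_mod_cast hz0
  have h35 : (X : ℝ) ^ (3 / 5 : ℝ) = (X : ℝ) ^ (1 / 2 : ℝ) * (X : ℝ) ^ (1 / 10 : ℝ) := by
    rw [← Real.rpow_add hX0]
    norm_num
  have h10 : (X : ℝ) ^ (1 / 100 : ℝ) ≤ (X : ℝ) ^ (1 / 10 : ℝ) :=
    Real.rpow_le_rpow_of_exponent_le hXr (by norm_num)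
  have h12 : (1 : ℝ) ≤ (X : ℝ) ^ (1 / 2 : ℝ) := Real.one_le_rpow hXr (by norm_num)
  have hδ16 : 16 * ((Q ^ J : ℕ) : ℝ) * (X : ℝ) ^ (1 / 2 : ℝ) ≤ δ := by
    refine le_trans ?_ hδ
    rw [h35, mul_comm]
    apply mul_le_mul_of_nonneg_left _ (by positivity)
    linarith
  -- the quotient
  have hdiv1 : (δ : ℝ) / z - 1 ≤ ((δ / z : ℕ) : ℝ) := by
    have h1 := Nat.lt_floor_add_one ((δ : ℝ) / z)
    rw [Nat.floor_div_eq_div] at h1
    linarith
  have hdiv2 : ((δ / z : ℕ) : ℝ) ≤ (δ : ℝ) / z := Nat.cast_div_le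
  have hdz : (δ : ℝ) / z ≤ (δ : ℝ) / ((Q ^ J : ℕ) : ℝ) :=
    div_le_div_of_nonneg_left (Nat.cast_nonneg _) (by linarith) hzr
  have hdz2 : (X : ℝ) ^ (1 / 2 : ℝ) ≤ (δ : ℝ) / z := by
    rw [le_div_iff₀ hz0r]
    nlinarith
  have hdq : 16 ≤ (δ : ℝ) / ((Q ^ J : ℕ) : ℝ) := by
    rw [le_div_iff₀ (by linarith)]
    nlinarith
  have hq0 : (0 : ℝ) < ((Q ^ J : ℕ) : ℝ) := by linarith
  have hL : ((δ / z + 2 : ℕ) : ℝ) ≤ 9 / 8 * ((δ : ℝ) / ((Q ^ J : ℕ) : ℝ)) := by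
    push_cast
    push_cast at hdz hdq hdiv2
    linarith
  refine ⟨?_, ?_, ?_⟩
  · push_cast
    linarith
  · have h1 : ((δ / z + 2 : ℕ) : ℝ) ≤ W := by
      refine hL.trans ?_
      have h2 : (δ : ℝ) / ((Q ^ J : ℕ) : ℝ) ≤ W / 3 := by
        rw [div_le_iff₀ hq0]
        have h3 : (δ : ℝ) ≤ X := hδr.trans hHX'
        nlinarith
      nlinarith [Nat.cast_nonneg (α := ℝ) W]
    have h2 : δ / z + 2 ≤ W := by exact_mod_cast h1
    omega
  · have hxr : (x : ℝ) ≤ 2 * X₁ := by exact_mod_cast hx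
    have hyr : (y : ℝ) ≤ 3 * ((Q ^ J : ℕ) : ℝ) := by exact_mod_cast hy
    have hX₁0 : (0 : ℝ) ≤ X₁ := Nat.cast_nonneg _
    have hW0 : (0 : ℝ) ≤ W := Nat.cast_nonneg _
    have hM16 : (M : ℝ) * X₁ * (16 * ((Q ^ J : ℕ) : ℝ)) ≤ X := by
      calc (M : ℝ) * X₁ * (16 * ((Q ^ J : ℕ) : ℝ)) = X₁ * (16 * M * ((Q ^ J : ℕ) : ℝ)) := by ring
        _ ≤ (X : ℝ) ^ (1 - d) * (X : ℝ) ^ (d / 1000) := by
            apply mul_le_mul hX₁ hbr (by positivity) (by positivity)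
        _ ≤ X := hdX
    have h1 : (((M * x * y + W * z) / H + 1 : ℕ) : ℝ) ≤ 5 * (W * ((Q ^ J : ℕ) : ℝ)) / H := by
      have h2 : (((M * x * y + W * z) / H : ℕ) : ℝ) ≤ ((M * x * y + W * z : ℕ) : ℝ) / H :=
        Nat.cast_div_le
      have h3 : ((M * x * y + W * z : ℕ) : ℝ) ≤ 4 * (W * ((Q ^ J : ℕ) : ℝ)) := by
        rw [Nat.cast_add, Nat.cast_mul, Nat.cast_mul, Nat.cast_mul]
        have h4 : (M : ℝ) * x * y ≤ (M : ℝ) * (2 * X₁) * (3 * ((Q ^ J : ℕ) : ℝ)) := by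
          apply mul_le_mul _ hyr (by positivity) (by positivity)
          exact mul_le_mul_of_nonneg_left hxr (by positivity)
        have h5 : (W : ℝ) * z ≤ W * (3 * ((Q ^ J : ℕ) : ℝ)) := mul_le_mul_of_nonneg_left hzr2 hW0
        nlinarith
      rw [Nat.cast_add, Nat.cast_one]
      have h6 : (1 : ℝ) ≤ (W * ((Q ^ J : ℕ) : ℝ)) / H := by
        rw [le_div_iff₀ hH0]
        linarith
      have h7 : ((M * x * y + W * z : ℕ) : ℝ) / H ≤ 4 * (W * ((Q ^ J : ℕ) : ℝ)) / H :=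
        div_le_div_of_nonneg_right h3 hH0.le
      have h8 : 5 * (W * ((Q ^ J : ℕ) : ℝ)) / H =
          4 * (W * ((Q ^ J : ℕ) : ℝ)) / H + (W * ((Q ^ J : ℕ) : ℝ)) / H := by ring
      linarith
    calc (((M * x * y + W * z) / H + 1 : ℕ) : ℝ) * ((δ / z + 2 : ℕ) : ℝ)
        ≤ (5 * (W * ((Q ^ J : ℕ) : ℝ)) / H) * (9 / 8 * ((δ : ℝ) / ((Q ^ J : ℕ) : ℝ))) :=
          mul_le_mul h1 hL (Nat.cast_nonneg _) (by positivity)
      _ = 45 / 8 * W * ((δ : ℝ) / H) := by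
          field_simp
          ring
      _ ≤ 15 * W * ((δ : ℝ) / H) := by
          have h9 : (0 : ℝ) ≤ (δ : ℝ) / H := by positivity
          nlinarith [mul_nonneg hW0 h9]

end NEAR

theorem t_NEAR : M_NEAR := by
  intro hLLC _ hTB hCF C₁ hC₁
  obtain ⟨C, hC, hLLC⟩ := hLLC C₁ hC₁
  refine ⟨15 * C + 15, by positivity, ?_⟩
  intro R₁ d
  obtain ⟨X₂, hLLC⟩ := hLLC R₁ d
  obtain ⟨X₃, hCF⟩ := hCF C₁ hC₁ R₁ d 1
  refine ⟨max (max X₂ X₃) 1, ?_⟩
  intro X hX J Q X₁ H W P s hcfg hs t ht δ hδ hδH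
  have hX2 : X₂ ≤ X := (le_max_left _ _).trans ((le_max_left _ _).trans hX)
  have hX3 : X₃ ≤ X := (le_max_right _ _).trans ((le_max_left _ _).trans hX)
  have hX1 : 1 ≤ X := (le_max_right _ _).trans hX
  obtain ⟨_, _, _, _, hM, hMd, hM1, _, _, _, _, hHX, _⟩ := hCF X hX3 J Q X₁ H W P hcfg
  have hMM : pri R₁ ≤ MM1 R₁ := Nat.le_of_dvd hM1 hMd
  have hlog : 0 ≤ Real.log R₁ := Real.log_natCast_nonneg R₁
  have hQ1 : 1 ≤ Q := by
    by_contra h
    have h0 : Q = 0 := by omega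
    have h1 := hcfg.Wlo
    rw [h0, zero_pow (by have := hcfg.J2; omega)] at h1
    omega
  obtain ⟨hTB1, _, _⟩ := hTB C₁ Q J 1 P hcfg.good (by have := hcfg.J2; omega) le_rfl (by simp)
  obtain ⟨_, hy, hz1, hz2, _⟩ := hTB1 t ht
  have hQJ : 0 < Q ^ J := Nat.pos_of_ne_zero (by positivity)
  have hz0 : 0 < zz t := lt_of_lt_of_le hQJ hz1
  have hX0 : (0 : ℝ) < X := by exact_mod_cast hX1
  have hH1 : 1 ≤ H := by
    have h1 : (0 : ℝ) < (X : ℝ) ^ (3 / 5 : ℝ) := Real.rpow_pos_of_pos hX0 _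
    have h2 : (0 : ℝ) < δ := lt_of_lt_of_le h1 hδ
    have h3 : 0 < δ := by exact_mod_cast h2
    omega
  have hnum : ∀ x : ℕ, x ≤ 2 * X₁ → _ := fun x hx =>
    NEAR.num X J Q X₁ H W (pri R₁) (MM1 R₁) (yy t) (zz t) x δ d hX1 hcfg.d0 hcfg.d1 hcfg.J2 hQ1 hM
      hMM hcfg.sml hcfg.X₁hi hHX hcfg.Wlo hH1 hy hz1 hz2 hx hδ hδH
  constructor
  · calc ∑ x ∈ XX X₁ (3 * Q), ∑ w ∈ (Ioc 0 W).filter
          (fun w => (pri R₁ * x * yy t + w * zz t) % H < δ), LL (mv s (pri R₁ * DD t * x * w))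
        ≤ ∑ x ∈ XX X₁ (3 * Q), C * Real.log R₁ * (15 * W * ((δ : ℝ) / H)) := by
          apply Finset.sum_le_sum
          intro x hx
          have hx2 : x ≤ 2 * X₁ := by
            have h1 := (Finset.mem_filter.mp hx).1
            exact (Finset.mem_Ioc.mp h1).2
          obtain ⟨n1, n2, n3⟩ := hnum x hx2
          refine (NEAR.sum_cover (pri R₁ * x * yy t) (zz t) H W δ hz0 _
            (fun w => NEAR.LL_nonneg _) (C * Real.log R₁ * ((δ / zz t + 2 : ℕ) : ℝ))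
            (by positivity) ?_).trans ?_
          · intro w₀ hw₀
            exact (hLLC X hX2 J Q X₁ H W P s hcfg hs t ht x hx w₀ (δ / zz t + 2) 0 n1
              (le_trans (Nat.add_le_add_right hw₀ _) n2)).2
          · calc (((pri R₁ * x * yy t + W * zz t) / H + 1 : ℕ) : ℝ) *
                  (C * Real.log R₁ * ((δ / zz t + 2 : ℕ) : ℝ))
                = C * Real.log R₁ * ((((pri R₁ * x * yy t + W * zz t) / H + 1 : ℕ) : ℝ) *
                    ((δ / zz t + 2 : ℕ) : ℝ)) := by ring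
              _ ≤ C * Real.log R₁ * (15 * W * ((δ : ℝ) / H)) :=
                  mul_le_mul_of_nonneg_left n3 (by positivity)
      _ = 15 * C * Real.log R₁ * (XX X₁ (3 * Q)).card * W * ((δ : ℝ) / H) := by
          rw [Finset.sum_const, nsmul_eq_mul]
          ring
      _ ≤ (15 * C + 15) * Real.log R₁ * (XX X₁ (3 * Q)).card * W * ((δ : ℝ) / H) := by
          have h1 : 0 ≤ Real.log R₁ * (XX X₁ (3 * Q)).card * W * ((δ : ℝ) / H) := by positivity
          nlinarith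
  · calc ∑ x ∈ Ioc X₁ (2 * X₁), (((Ioc 0 W).filter
          (fun w => (pri R₁ * x * yy t + w * zz t) % H < δ)).card : ℝ)
        ≤ ∑ x ∈ Ioc X₁ (2 * X₁), (15 * W * ((δ : ℝ) / H)) := by
          apply Finset.sum_le_sum
          intro x hx
          obtain ⟨n1, n2, n3⟩ := hnum x (Finset.mem_Ioc.mp hx).2
          have h1 := NEAR.sum_cover (pri R₁ * x * yy t) (zz t) H W δ hz0 (fun _ => 1)
            (fun w => zero_le_one) ((δ / zz t + 2 : ℕ) : ℝ) (by positivity) (by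
              intro w₀ _
              rw [Finset.sum_const, Nat.card_Ioc, nsmul_eq_mul, mul_one,
                Nat.add_sub_cancel_left])
          rw [Finset.sum_const, nsmul_eq_mul, mul_one] at h1
          exact h1.trans n3
      _ = 15 * X₁ * W * ((δ : ℝ) / H) := by
          rw [Finset.sum_const, Nat.card_Ioc, nsmul_eq_mul]
          have h2 : 2 * X₁ - X₁ = X₁ := by omega
          rw [h2]
          ring
      _ ≤ (15 * C + 15) * X₁ * W * ((δ : ℝ) / H) := by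
          have h1 : 0 ≤ C * ((X₁ : ℝ) * W * ((δ : ℝ) / H)) := by positivity
          nlinarith

end

end MUR
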