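import Mathlib
import Pool.Agent.MUR.StC

set_option autoImplicit false

/-!
# Project MUR: the off-diagonal sums of one pair of forms (statement `S_PAIR`)
-/

namespace MUR

open Finset
open Pool.Agent.Lib_helper83.EF (e)

noncomputable section

namespace PAIR

/-- Number of elements of a set of naturals of bounded spread. -/
lemma count (s : Finset ℕ) (m c : ℝ) (hm : 0 < m) (hc : 0 ≤ c)
    (h : ∀ a ∈ s, ∀ b ∈ s, a ≤ b → ((b : ℝ) - a) * m ≤ c) : (s.card : ℝ) ≤ c / m + 1 := by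
  rcases s.eq_empty_or_nonempty with rfl | hs
  · simp only [card_empty, Nat.cast_zero]
    positivity
  · have h4 : s.min' hs ≤ s.max' hs := s.min'_le _ (s.max'_mem hs)
    have h1 := h (s.min' hs) (s.min'_mem hs) (s.max' hs) (s.max'_mem hs) h4
    have h2 : s ⊆ Icc (s.min' hs) (s.max' hs) :=
      fun a ha => mem_Icc.2 ⟨s.min'_le a ha, s.le_max' a ha⟩
    have h3 := card_le_card h2
    rw [Nat.card_Icc] at h3
    have h5 : (s.card : ℝ) ≤ (s.max' hs : ℝ) - s.min' hs + 1 := by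
      have h7 : s.card + s.min' hs ≤ s.max' hs + 1 := by omega
      have h8 : ((s.card + s.min' hs : ℕ) : ℝ) ≤ ((s.max' hs + 1 : ℕ) : ℝ) := by exact_mod_cast h7
      push_cast at h8
      linarith
    have h6 : (s.max' hs : ℝ) - s.min' hs ≤ c / m := by
      rw [le_div_iff₀ hm]
      exact h1
    linarith

/-- Number of elements in one class of an interval. -/
lemma count_mod (s : Finset ℕ) (D H : ℕ) (hD : 0 < D)
    (h1 : ∀ a ∈ s, ∀ b ∈ s, a ≤ b → b ≤ a + H) (h2 : ∀ a ∈ s, ∀ b ∈ s, a ≡ b [MOD D]) :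
    (s.card : ℝ) ≤ (H : ℝ) / D + 1 := by
  have hinj : Set.InjOn (fun a => a / D) (s : Set ℕ) := by
    intro a ha b hb hab
    have h3 := h2 a (by exact_mod_cast ha) b (by exact_mod_cast hb)
    have h4 : a / D = b / D := hab
    rw [← Nat.div_add_mod a D, ← Nat.div_add_mod b D, h4, h3]
  rw [← card_image_of_injOn hinj]
  refine count _ (D : ℝ) (H : ℝ) (by exact_mod_cast hD) (by positivity) ?_
  intro a ha b hb hab
  obtain ⟨a', ha', rfl⟩ := mem_image.1 ha
  obtain ⟨b', hb', rfl⟩ := mem_image.1 hb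
  have h3 := h2 a' ha' b' hb'
  have h5 : a' % D = b' % D := h3
  have h6 := Nat.div_add_mod a' D
  have h7 := Nat.div_add_mod b' D
  have h8 : a' ≤ b' := by
    rw [← h6, ← h7, h5]
    exact Nat.add_le_add_right (Nat.mul_le_mul_left D hab) _
  have h9 := h1 a' ha' b' hb' h8
  have h10 : ((D * (b' / D) + b' % D : ℕ) : ℝ) ≤ ((D * (a' / D) + a' % D + H : ℕ) : ℝ) := by
    rw [h6, h7]
    exact_mod_cast h9
  rw [h5] at h10
  push_cast at h10
  have h11 : ((b' / D : ℕ) : ℝ) * D ≤ ((a' / D : ℕ) : ℝ) * D + H := by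
    push_cast
    linarith
  linarith

/-- Double counting. -/
lemma dbl {α β : Type*} (A : Finset α) (B : Finset β) (R : α → β → Prop)
    [∀ a b, Decidable (R a b)] (f : α → ℝ) (g : β → ℝ) (c : ℝ)
    (hf : ∀ a ∈ A, 0 ≤ f a) (hg : ∀ b ∈ B, 0 ≤ g b)
    (h1 : ∀ a ∈ A, ((B.filter (fun b => R a b)).card : ℝ) ≤ c)
    (h2 : ∀ b ∈ B, ((A.filter (fun a => R a b)).card : ℝ) ≤ c) :
    ∑ a ∈ A, ∑ b ∈ B, (if R a b then (f a + g b) / 2 else 0) ≤
      c / 2 * (∑ a ∈ A, f a + ∑ b ∈ B, g b) := by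
  have e1 : ∀ a ∈ A, ∑ b ∈ B, (if R a b then f a / 2 else 0) ≤ c / 2 * f a := by
    intro a ha
    rw [← Finset.sum_filter, Finset.sum_const, nsmul_eq_mul]
    have h3 := h1 a ha
    have h4 := hf a ha
    nlinarith
  have e2 : ∀ b ∈ B, ∑ a ∈ A, (if R a b then g b / 2 else 0) ≤ c / 2 * g b := by
    intro b hb
    rw [← Finset.sum_filter, Finset.sum_const, nsmul_eq_mul]
    have h3 := h2 b hb
    have h4 := hg b hb
    nlinarith
  calc ∑ a ∈ A, ∑ b ∈ B, (if R a b then (f a + g b) / 2 else 0)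
      = ∑ a ∈ A, ∑ b ∈ B, (if R a b then f a / 2 else 0) +
        ∑ b ∈ B, ∑ a ∈ A, (if R a b then g b / 2 else 0) := by
        rw [Finset.sum_comm (s := B), ← sum_add_distrib]
        refine sum_congr rfl fun a _ => ?_
        rw [← sum_add_distrib]
        refine sum_congr rfl fun b _ => ?_
        split_ifs <;> ring
    _ ≤ ∑ a ∈ A, c / 2 * f a + ∑ b ∈ B, c / 2 * g b := add_le_add (sum_le_sum e1) (sum_le_sum e2)
    _ = _ := by
        rw [← mul_sum, ← mul_sum]
        ring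

lemma lat1 (M y z y' z' D u v : ℤ) (huv : u * (M * y) + v * z = 1)
    (hD : M * (y * z') - M * (y' * z) = D) (n n' : ℤ) :
    (∃ x w : ℤ, n = M * x * y + w * z ∧ n' = M * x * y' + w * z') ↔
      D ∣ (M * y' * u + z' * v) * n - n' := by
  constructor
  · rintro ⟨x, w, hn, hn'⟩
    refine ⟨v * x - u * w, ?_⟩
    linear_combination (M * y' * u + z' * v) * hn - hn' + (M * x * y' + w * z') * huv +
      (v * x - u * w) * hD
  · rintro ⟨t, ht⟩
    refine ⟨u * n + t * z, v * n - t * (M * y), ?_, ?_⟩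
    · linear_combination -n * huv
    · linear_combination -ht + t * hD

lemma lat (M y z y' z' D : ℕ) (c1 : (M * y).Coprime z) (c2 : (M * y').Coprime z')
    (hD : (M : ℤ) * ((y : ℤ) * z') - M * ((y' : ℤ) * z) = D) (hD0 : 0 < D) :
    ∃ ρ ρ' : ℕ, (∀ n n' : ℕ, n' ≡ ρ * n [MOD D] ↔
      ∃ x w : ℤ, (n : ℤ) = M * x * y + w * z ∧ (n' : ℤ) = M * x * y' + w * z') ∧
      (∀ n n' : ℕ, n' ≡ ρ * n [MOD D] ↔ n ≡ ρ' * n' [MOD D]) := by
  have hDz : (0 : ℤ) < D := by exact_mod_cast hD0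
  obtain ⟨u, v, huv⟩ := Nat.isCoprime_iff_coprime.2 c1
  obtain ⟨u', v', huv'⟩ := Nat.isCoprime_iff_coprime.2 c2
  have key : ∀ a : ℤ, ∃ ρ : ℕ, (D : ℤ) ∣ a - ρ := by
    intro a
    refine ⟨(a % D).toNat, ?_⟩
    rw [Int.toNat_of_nonneg (Int.emod_nonneg a hDz.ne')]
    exact Int.dvd_self_sub_emod
  obtain ⟨ρ, hρ⟩ := key ((M : ℤ) * y' * u + z' * v)
  obtain ⟨ρ', hρ'⟩ := key ((M : ℤ) * y * u' + z * v')
  have A : ∀ n n' : ℕ, n' ≡ ρ * n [MOD D] ↔
      ∃ x w : ℤ, (n : ℤ) = M * x * y + w * z ∧ (n' : ℤ) = M * x * y' + w * z' := by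
    intro n n'
    rw [lat1 (M : ℤ) y z y' z' D u v (by push_cast at huv; linarith) hD, ← Int.natCast_modEq_iff,
      Int.modEq_iff_dvd]
    push_cast
    have h1 : ((M : ℤ) * y' * u + z' * v) * n - n' =
        ((M : ℤ) * y' * u + z' * v - ρ) * n + (ρ * n - n') := by ring
    rw [h1]
    exact (dvd_add_right (Dvd.dvd.mul_right hρ _)).symm
  have A' : ∀ n n' : ℕ, n ≡ ρ' * n' [MOD D] ↔
      ∃ x w : ℤ, (n' : ℤ) = M * x * y' + w * z' ∧ (n : ℤ) = M * x * y + w * z := by
    intro n n'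
    rw [lat1 (M : ℤ) y' z' y z (-D) u' v' (by push_cast at huv'; linarith) (by linarith),
      ← Int.natCast_modEq_iff, Int.modEq_iff_dvd, neg_dvd]
    push_cast
    have h1 : ((M : ℤ) * y * u' + z * v') * n' - n =
        ((M : ℤ) * y * u' + z * v' - ρ') * n' + (ρ' * n' - n) := by ring
    rw [h1]
    exact (dvd_add_right (Dvd.dvd.mul_right hρ' _)).symm
  refine ⟨ρ, ρ', A, fun n n' => ?_⟩
  rw [A, A']
  exact ⟨fun ⟨x, w, h1, h2⟩ => ⟨x, w, h2, h1⟩, fun ⟨x, w, h1, h2⟩ => ⟨x, w, h2, h1⟩⟩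

/-- The full sums over two blocks. -/
lemma inter (D ρ ρ' : ℕ) (hD : 0 < D)
    (hρ : ∀ n n' : ℕ, n' ≡ ρ * n [MOD D] ↔ n ≡ ρ' * n' [MOD D]) (A A' : Finset ℕ) (φ : ℕ → ℂ) :
    ‖∑ n ∈ A, ∑ n' ∈ A', (if n' ≡ ρ * n [MOD D] then φ n * (starRingEnd ℂ) (φ n') else 0)‖ ≤
      (∑ r ∈ range D, ‖∑ n ∈ A.filter (fun n => n % D = r), φ n‖ ^ 2 +
        ∑ r ∈ range D, ‖∑ n ∈ A'.filter (fun n => n % D = r), φ n‖ ^ 2) / 2 := by
  have hmod : ∀ n : ℕ, n % D ∈ range D := fun n => mem_range.2 (Nat.mod_lt n hD)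
  have h1 : ∑ n ∈ A, ∑ n' ∈ A', (if n' ≡ ρ * n [MOD D] then φ n * (starRingEnd ℂ) (φ n') else 0) =
      ∑ r ∈ range D, (∑ n ∈ A.filter (fun n => n % D = r), φ n) *
        (starRingEnd ℂ) (∑ n ∈ A'.filter (fun n => n % D = (ρ * r) % D), φ n) := by
    rw [← sum_fiberwise_of_maps_to (g := fun n => n % D) (t := range D) (fun n _ => hmod n)]
    refine sum_congr rfl fun r _ => ?_
    rw [sum_mul]
    refine sum_congr rfl fun n hn => ?_
    rw [map_sum, mul_sum, sum_filter]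
    refine sum_congr rfl fun n' _ => ?_
    have hn1 : n % D = r := (mem_filter.1 hn).2
    have h2 : (n' ≡ ρ * n [MOD D]) ↔ n' % D = (ρ * r) % D := by
      unfold Nat.ModEq
      rw [Nat.mul_mod ρ n, hn1, Nat.mul_mod ρ r]
      have h3 : r % D = r := by rw [← hn1, Nat.mod_mod]
      rw [h3]
    simp only [h2]
  have h4 : Set.InjOn (fun r => (ρ * r) % D) (range D : Set ℕ) := by
    intro a ha b hb hab
    have ha' : a < D := by simpa using ha
    have hb' : b < D := by simpa using hb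
    have e1 : (ρ * a) ≡ ρ * a [MOD D] := rfl
    have e2 := (hρ a (ρ * a)).1 e1
    have e3 : (ρ * a) ≡ ρ * b [MOD D] := hab
    have e4 := (hρ b (ρ * a)).1 e3
    have e5 : a ≡ b [MOD D] := e2.trans e4.symm
    have e6 : a % D = b % D := e5
    rwa [Nat.mod_eq_of_lt ha', Nat.mod_eq_of_lt hb'] at e6
  have h5 : ∑ r ∈ range D, ‖∑ n ∈ A'.filter (fun n => n % D = (ρ * r) % D), φ n‖ ^ 2 ≤
      ∑ r ∈ range D, ‖∑ n ∈ A'.filter (fun n => n % D = r), φ n‖ ^ 2 := by
    rw [← sum_image (f := fun r => ‖∑ n ∈ A'.filter (fun n => n % D = r), φ n‖ ^ 2)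
      (g := fun r => (ρ * r) % D) h4]
    refine sum_le_sum_of_subset_of_nonneg ?_ (fun _ _ _ => by positivity)
    intro r hr
    obtain ⟨a, _, rfl⟩ := mem_image.1 hr
    exact hmod _
  rw [h1]
  calc _ ≤ ∑ r ∈ range D, ‖(∑ n ∈ A.filter (fun n => n % D = r), φ n) *
        (starRingEnd ℂ) (∑ n ∈ A'.filter (fun n => n % D = (ρ * r) % D), φ n)‖ := norm_sum_le _ _
    _ ≤ ∑ r ∈ range D, (‖∑ n ∈ A.filter (fun n => n % D = r), φ n‖ ^ 2 +
        ‖∑ n ∈ A'.filter (fun n => n % D = (ρ * r) % D), φ n‖ ^ 2) / 2 := by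
        refine sum_le_sum fun r _ => ?_
        rw [norm_mul, RCLike.norm_conj]
        nlinarith [sq_nonneg (‖∑ n ∈ A.filter (fun n => n % D = r), φ n‖ -
          ‖∑ n ∈ A'.filter (fun n => n % D = (ρ * r) % D), φ n‖)]
    _ ≤ _ := by
        rw [← sum_div, sum_add_distrib]
        gcongr

/-- The boundary blocks. -/
lemma bdry (A A' : Finset ℕ) (C : ℕ → ℕ → Prop) [∀ n n', Decidable (C n n')] (φ : ℕ → ℂ) (c : ℝ)
    (h1 : ∀ n ∈ A, ((A'.filter (fun n' => C n n')).card : ℝ) ≤ c)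
    (h2 : ∀ n' ∈ A', ((A.filter (fun n => C n n')).card : ℝ) ≤ c) :
    ‖∑ n ∈ A, ∑ n' ∈ A', (if C n n' then φ n * (starRingEnd ℂ) (φ n') else 0)‖ ≤
      c / 2 * (∑ n ∈ A, ‖φ n‖ ^ 2 + ∑ n ∈ A', ‖φ n‖ ^ 2) := by
  refine le_trans ?_ (dbl A A' C (fun n => ‖φ n‖ ^ 2) (fun n => ‖φ n‖ ^ 2) c
    (fun _ _ => by positivity) (fun _ _ => by positivity) h1 h2)
  refine (norm_sum_le _ _).trans (sum_le_sum fun n _ => ?_)
  refine (norm_sum_le _ _).trans (sum_le_sum fun n' _ => ?_)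
  split_ifs
  · rw [norm_mul, RCLike.norm_conj]
    nlinarith [sq_nonneg (‖φ n‖ - ‖φ n'‖)]
  · simp

lemma blk (F : ℕ → ℂ) (H K : ℕ) :
    ∑ n ∈ range (K * H), F n = ∑ i ∈ range K, ∑ n ∈ Ico (i * H) (i * H + H), F n := by
  induction K with
  | zero => simp
  | succ K ih =>
    rw [sum_range_succ, ← ih, range_eq_Ico, range_eq_Ico, add_mul, one_mul]
    exact (sum_Ico_consecutive F (Nat.zero_le _) (Nat.le_add_right _ _)).symm

lemma blkR (F : ℕ → ℝ) (H K : ℕ) :
    ∑ n ∈ range (K * H), F n = ∑ i ∈ range K, ∑ n ∈ Ico (i * H) (i * H + H), F n := by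
  induction K with
  | zero => simp
  | succ K ih =>
    rw [sum_range_succ, ← ih, range_eq_Ico, range_eq_Ico, add_mul, one_mul]
    exact (sum_Ico_consecutive F (Nat.zero_le _) (Nat.le_add_right _ _)).symm

/-- Change of variables. -/
lemma chg (M y z y' z' X₁ B W D N ρ : ℕ) (φ : ℕ → ℂ) (hz : 1 ≤ z) (hBN : B ≤ N)
    (hD : (M : ℤ) * ((y : ℤ) * z') - M * ((y' : ℤ) * z) = D) (hD0 : 0 < D)
    (hρ : ∀ n n' : ℕ, n' ≡ ρ * n [MOD D] ↔
      ∃ x w : ℤ, (n : ℤ) = M * x * y + w * z ∧ (n' : ℤ) = M * x * y' + w * z')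
    (hφ : ∀ n, φ n ≠ 0 → n < B ∧ 2 * M * X₁ * y < n ∧ 2 * M * X₁ * y' < n ∧
      n ≤ W * z ∧ n ≤ W * z') :
    ∑ x ∈ Ioc X₁ (2 * X₁), ∑ w ∈ Ioc 0 W, φ (M * x * y + w * z) *
      (starRingEnd ℂ) (φ (M * x * y' + w * z')) =
    ∑ n ∈ range N, ∑ n' ∈ range N, (if n' ≡ ρ * n [MOD D] ∧ (X₁ * D : ℤ) < n * z' - n' * z ∧
      ((n : ℤ) * z' - n' * z) ≤ 2 * X₁ * D then φ n * (starRingEnd ℂ) (φ n') else 0) := by
  have hDz : (0 : ℤ) < D := by exact_mod_cast hD0
  have hzz : (0 : ℤ) < z := by exact_mod_cast hz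
  rw [← sum_product' (f := fun x w => φ (M * x * y + w * z) *
      (starRingEnd ℂ) (φ (M * x * y' + w * z'))),
    ← sum_product' (f := fun n n' => (if n' ≡ ρ * n [MOD D] ∧ (X₁ * D : ℤ) < n * z' - n' * z ∧
      ((n : ℤ) * z' - n' * z) ≤ 2 * X₁ * D then φ n * (starRingEnd ℂ) (φ n') else 0))]
  have key : ∀ x w : ℕ, ((M * x * y + w * z : ℕ) : ℤ) * z' - ((M * x * y' + w * z' : ℕ) : ℤ) * z =
      x * D := by
    intro x w
    push_cast
    rw [← hD]
    ring
  have key2 : ∀ x w : ℕ, ((M * x * y' + w * z' : ℕ) : ℤ) * (M * y) -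
      ((M * x * y + w * z : ℕ) : ℤ) * (M * y') = w * D := by
    intro x w
    push_cast
    rw [← hD]
    ring
  refine sum_bij_ne_zero (fun p _ _ => (M * p.1 * y + p.2 * z, M * p.1 * y' + p.2 * z'))
    ?_ ?_ ?_ ?_
  · rintro ⟨x, w⟩ hp hne
    have h1 := hφ _ (left_ne_zero_of_mul hne)
    have h2 : φ (M * x * y' + w * z') ≠ 0 := by
      intro h3
      apply hne
      simp [h3]
    have h3 := hφ _ h2
    simp only [mem_product, mem_range]
    exact ⟨lt_of_lt_of_le h1.1 hBN, lt_of_lt_of_le h3.1 hBN⟩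
  · rintro ⟨x, w⟩ hp hne ⟨x2, w2⟩ hp2 hne2 heq
    simp only [Prod.mk.injEq] at heq
    obtain ⟨e1, e2⟩ := heq
    have k1 := key x w
    have k2 := key x2 w2
    rw [e1, e2] at k1
    have k3 : (x : ℤ) * D = x2 * D := by rw [← k1, ← k2]
    have k4 : (x : ℤ) = x2 := mul_right_cancel₀ hDz.ne' k3
    have l1 := key2 x w
    have l2 := key2 x2 w2
    rw [e1, e2] at l1
    have l3 : (w : ℤ) * D = w2 * D := by rw [← l1, ← l2]
    have l4 : (w : ℤ) = w2 := mul_right_cancel₀ hDz.ne' l3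
    simp only [Prod.mk.injEq]
    exact ⟨by exact_mod_cast k4, by exact_mod_cast l4⟩
  · rintro ⟨n, n'⟩ hp hne
    simp only at hne
    have hC : n' ≡ ρ * n [MOD D] ∧ (X₁ * D : ℤ) < n * z' - n' * z ∧
        ((n : ℤ) * z' - n' * z) ≤ 2 * X₁ * D := by
      by_contra h
      rw [if_neg h] at hne
      exact hne rfl
    rw [if_pos hC] at hne
    have h1 := hφ _ (left_ne_zero_of_mul hne)
    have h2 : φ n' ≠ 0 := by
      intro h3
      apply hne
      simp [h3]
    obtain ⟨x, w, hx, hw⟩ := (hρ n n').1 hC.1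
    have hxD : x * D = (n : ℤ) * z' - n' * z := by
      rw [hx, hw, ← hD]
      ring
    have hx1 : (X₁ : ℤ) < x := by
      have h4 : (X₁ : ℤ) * D < x * D := by rw [hxD]; exact hC.2.1
      exact lt_of_mul_lt_mul_right h4 hDz.le
    have hx2 : x ≤ 2 * X₁ := by
      have h4 : x * D ≤ (2 * X₁ : ℤ) * D := by rw [hxD]; exact hC.2.2
      exact le_of_mul_le_mul_right h4 hDz
    have hx0 : 0 ≤ x := le_trans (by positivity) hx1.le
    have h5 : (M : ℤ) * x * y ≤ 2 * M * X₁ * y := by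
      have : (M : ℤ) * x * y ≤ M * (2 * X₁) * y := by gcongr
      linarith
    have h6 : ((2 * M * X₁ * y : ℕ) : ℤ) < n := by exact_mod_cast h1.2.1
    push_cast at h6
    have hw1 : 0 < w := by
      have : 0 < w * z := by linarith
      by_contra hle
      have hle' : w ≤ 0 := not_lt.1 hle
      nlinarith
    have h7 : (n : ℤ) ≤ W * z := by exact_mod_cast h1.2.2.2.1
    have hw2 : w ≤ W := by
      have h8 : 0 ≤ (M : ℤ) * x * y := by positivity
      have : w * z ≤ W * z := by linarith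
      exact le_of_mul_le_mul_right this hzz
    lift x to ℕ using hx0
    lift w to ℕ using hw1.le
    have en : n = M * x * y + w * z := by exact_mod_cast hx
    have en' : n' = M * x * y' + w * z' := by exact_mod_cast hw
    refine ⟨(x, w), ?_, ?_, ?_⟩
    · simp only [mem_product, mem_Ioc]
      exact ⟨⟨by exact_mod_cast hx1, by exact_mod_cast hx2⟩, by exact_mod_cast hw1,
        by exact_mod_cast hw2⟩
    · simp only
      rw [← en, ← en']
      exact hne
    · simp only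
      rw [← en, ← en']
  · rintro ⟨x, w⟩ hp hne
    simp only [mem_product, mem_Ioc] at hp
    have hx1 : (X₁ : ℤ) < x := by exact_mod_cast hp.1.1
    have hx2 : (x : ℤ) ≤ 2 * X₁ := by exact_mod_cast hp.1.2
    simp only
    rw [if_pos]
    refine ⟨(hρ _ _).2 ⟨x, w, by push_cast; ring, by push_cast; ring⟩, ?_, ?_⟩
    · rw [key x w]
      exact mul_lt_mul_of_pos_right hx1 hDz
    · rw [key x w]
      exact mul_le_mul_of_nonneg_right hx2 hDz.le

theorem main (M y z y' z' X₁ H B W D : ℕ) (φ : ℕ → ℂ) (hz : 1 ≤ z) (hz' : 1 ≤ z') (hH : 1 ≤ H)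
    (c1 : (M * y).Coprime z) (c2 : (M * y').Coprime z') (s1 : z ≤ 3 * z') (s2 : z' ≤ 3 * z)
    (hD : (M : ℤ) * ((y : ℤ) * z') - M * ((y' : ℤ) * z) = D) (hD0 : 0 < D)
    (hφ : ∀ n, φ n ≠ 0 → n < B ∧ 2 * M * X₁ * y < n ∧ 2 * M * X₁ * y' < n ∧
      n ≤ W * z ∧ n ≤ W * z') :
    ‖∑ x ∈ Ioc X₁ (2 * X₁), ∑ w ∈ Ioc 0 W, φ (M * x * y + w * z) *
      (starRingEnd ℂ) (φ (M * x * y' + w * z'))‖ ≤
    (((D : ℝ) * X₁) / ((min z z' : ℕ) * H) + 1) * ∑ i ∈ range (B / H + 1), En φ H D i +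
      10 * ((H : ℝ) / D + 1) * ∑ n ∈ range B, ‖φ n‖ ^ 2 := by
  classical
  obtain ⟨ρ, ρ', hρ1, hρ2⟩ := lat M y z y' z' D c1 c2 hD hD0
  set K := B / H + 1 with hK
  have hDz : (0 : ℤ) < D := by exact_mod_cast hD0
  have hHz : (0 : ℤ) < H := by exact_mod_cast hH
  have hzz : (0 : ℤ) < z := by exact_mod_cast hz
  have hzz' : (0 : ℤ) < z' := by exact_mod_cast hz'
  have hBN : B ≤ K * H := by
    have := Nat.lt_div_mul_add (a := B) (b := H) hH
    rw [hK, add_mul, one_mul]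
    omega
  rw [chg M y z y' z' X₁ B W D (K * H) ρ φ hz hBN hD hD0 hρ1 hφ]
  -- blocks
  set C : ℕ → ℕ → Prop := fun n n' => n' ≡ ρ * n [MOD D] ∧ (X₁ * D : ℤ) < n * z' - n' * z ∧
      ((n : ℤ) * z' - n' * z) ≤ 2 * X₁ * D with hCdef
  set bl : ℕ → Finset ℕ := fun i => Ico (i * H) (i * H + H) with hbl
  set Sb : ℕ → ℕ → ℂ := fun i i' => ∑ n ∈ bl i, ∑ n' ∈ bl i',
    (if C n n' then φ n * (starRingEnd ℂ) (φ n') else 0) with hSb
  have hsum : ∑ n ∈ range (K * H), ∑ n' ∈ range (K * H),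
      (if C n n' then φ n * (starRingEnd ℂ) (φ n') else 0) =
      ∑ i ∈ range K, ∑ i' ∈ range K, Sb i i' := by
    rw [blk]
    refine sum_congr rfl fun i _ => ?_
    rw [sum_comm]
    rw [blk, ]
    refine sum_congr rfl fun i' _ => ?_
    rw [sum_comm]
  rw [hsum]
  set N : ℕ → ℝ := fun i => ∑ n ∈ bl i, ‖φ n‖ ^ 2 with hN
  have hN0 : ∀ i, 0 ≤ N i := fun i => sum_nonneg fun _ _ => by positivity
  have hE0 : ∀ i, 0 ≤ En φ H D i := fun i => sum_nonneg fun _ _ => by positivity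
  set vv : ℕ → ℕ → ℤ := fun i i' => ((i : ℤ) * z' - i' * z) * H with hvv
  set cc : ℝ := (H : ℝ) / D + 1 with hcc
  have hcc0 : 0 ≤ cc := by positivity
  -- the interior, and the two kinds of boundary pairs
  let I : ℕ → ℕ → Prop := fun i i' => (X₁ * D + z * H : ℤ) ≤ vv i i' ∧
    vv i i' + z' * H ≤ 2 * X₁ * D
  let B1 : ℕ → ℕ → Prop := fun i i' => (X₁ * D - z' * H : ℤ) < vv i i' ∧
    vv i i' < X₁ * D + z * H
  let B2 : ℕ → ℕ → Prop := fun i i' => (2 * X₁ * D - z' * H : ℤ) < vv i i' ∧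
    vv i i' < 2 * X₁ * D + z * H
  have hloc : ∀ i i' n n' : ℕ, n ∈ bl i → n' ∈ bl i' →
      vv i i' - z * H < (n : ℤ) * z' - n' * z ∧ (n : ℤ) * z' - n' * z < vv i i' + z' * H := by
    intro i i' n n' hn hn'
    simp only [hbl, mem_Ico] at hn hn'
    have a1 : (i : ℤ) * H ≤ n := by exact_mod_cast hn.1
    have a2 : (n : ℤ) < i * H + H := by exact_mod_cast hn.2
    have b1 : (i' : ℤ) * H ≤ n' := by exact_mod_cast hn'.1
    have b2 : (n' : ℤ) < i' * H + H := by exact_mod_cast hn'.2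
    have m1 : (i : ℤ) * H * z' ≤ n * z' := mul_le_mul_of_nonneg_right a1 hzz'.le
    have m2 : (n : ℤ) * z' < (i * H + H) * z' := mul_lt_mul_of_pos_right a2 hzz'
    have m3 : (i' : ℤ) * H * z ≤ n' * z := mul_le_mul_of_nonneg_right b1 hzz.le
    have m4 : (n' : ℤ) * z < (i' * H + H) * z := mul_lt_mul_of_pos_right b2 hzz
    simp only [hvv]
    constructor
    · nlinarith
    · nlinarith
  have hbound : ∀ i i' : ℕ, ‖Sb i i'‖ ≤ (if I i i' then (En φ H D i + En φ H D i') / 2 else 0) +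
      (if B1 i i' then (cc * N i + cc * N i') / 2 else 0) +
      (if B2 i i' then (cc * N i + cc * N i') / 2 else 0) := by
    intro i i'
    have hb0 : 0 ≤ (cc * N i + cc * N i') / 2 := by
      have := hN0 i
      have := hN0 i'
      positivity
    have hgen : ‖Sb i i'‖ ≤ (cc * N i + cc * N i') / 2 := by
      have := bdry (bl i) (bl i') C φ cc ?_ ?_
      · simp only [hSb, hN] at this ⊢
        linarith
      · intro n _
        refine count_mod _ D H hD0 ?_ ?_
        · intro a ha b hb _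
          have ha := mem_Ico.1 (mem_filter.1 ha).1
          have hb := mem_Ico.1 (mem_filter.1 hb).1
          omega
        · intro a ha b hb
          exact ((mem_filter.1 ha).2.1).trans ((mem_filter.1 hb).2.1).symm
      · intro n' _
        refine count_mod _ D H hD0 ?_ ?_
        · intro a ha b hb _
          have ha := mem_Ico.1 (mem_filter.1 ha).1
          have hb := mem_Ico.1 (mem_filter.1 hb).1
          omega
        · intro a ha b hb
          exact ((hρ2 _ _).1 (mem_filter.1 ha).2.1).trans ((hρ2 _ _).1 (mem_filter.1 hb).2.1).symm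
    by_cases hI : I i i'
    · have h1 : Sb i i' = ∑ n ∈ bl i, ∑ n' ∈ bl i',
          (if n' ≡ ρ * n [MOD D] then φ n * (starRingEnd ℂ) (φ n') else 0) := by
        simp only [hSb]
        refine sum_congr rfl fun n hn => sum_congr rfl fun n' hn' => ?_
        have h2 := hloc i i' n n' hn hn'
        have h3 : C n n' ↔ n' ≡ ρ * n [MOD D] := by
          simp only [hCdef]
          refine ⟨fun h => h.1, fun h => ⟨h, ?_, ?_⟩⟩
          · have := hI.1
            linarith [h2.1]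
          · have := hI.2
            linarith [h2.2]
        simp only [h3]
      have h4 := inter D ρ ρ' hD0 hρ2 (bl i) (bl i') φ
      rw [← h1] at h4
      rw [if_pos hI]
      have h5 : 0 ≤ (if B1 i i' then (cc * N i + cc * N i') / 2 else 0) := by
        split_ifs
        · exact hb0
        · exact le_refl _
      have h6 : 0 ≤ (if B2 i i' then (cc * N i + cc * N i') / 2 else 0) := by
        split_ifs
        · exact hb0
        · exact le_refl _
      have h7 : ‖Sb i i'‖ ≤ (En φ H D i + En φ H D i') / 2 := h4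
      linarith
    · rw [if_neg hI]
      by_cases h1 : B1 i i'
      · rw [if_pos h1]
        have h6 : 0 ≤ (if B2 i i' then (cc * N i + cc * N i') / 2 else 0) := by
          split_ifs
          · exact hb0
          · exact le_refl _
        linarith
      · by_cases h2 : B2 i i'
        · rw [if_pos h2, if_neg h1]
          linarith
        · rw [if_neg h1, if_neg h2]
          have h3 : Sb i i' = 0 := by
            simp only [hSb]
            refine sum_eq_zero fun n hn => sum_eq_zero fun n' hn' => ?_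
            rw [if_neg]
            intro hC
            have h4 := hloc i i' n n' hn hn'
            have h5 : (X₁ * D : ℤ) < vv i i' + z' * H := lt_trans hC.2.1 h4.2
            have h6 : vv i i' - z * H < 2 * X₁ * D := lt_of_lt_of_le h4.1 hC.2.2
            have h7 : (X₁ * D + z * H : ℤ) ≤ vv i i' := by
              by_contra h8
              exact h1 ⟨by linarith, by linarith⟩
            have h9 : vv i i' + z' * H ≤ 2 * X₁ * D := by
              by_contra h8
              exact h2 ⟨by linarith, by linarith⟩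
            exact hI ⟨h7, h9⟩
          rw [h3]
          simp
  have hmin : (0 : ℝ) < ((min z z' : ℕ) : ℝ) * H := by
    have h1 : 0 < min z z' := by omega
    have h2 : (0 : ℝ) < ((min z z' : ℕ) : ℝ) := by exact_mod_cast h1
    have h3 : (0 : ℝ) < (H : ℝ) := by exact_mod_cast hH
    positivity
  have hminz : ((min z z' : ℕ) : ℝ) ≤ z := by exact_mod_cast min_le_left z z'
  have hminz' : ((min z z' : ℕ) : ℝ) ≤ z' := by exact_mod_cast min_le_right z z'
  have hHr : (0 : ℝ) < (H : ℝ) := by exact_mod_cast hH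
  have hzr : (0 : ℝ) < (z : ℝ) := by exact_mod_cast hz
  have hzr' : (0 : ℝ) < (z' : ℝ) := by exact_mod_cast hz'
  have toR : ∀ a b : ℤ, a ≤ b → (a : ℝ) ≤ (b : ℝ) := fun a b h => by exact_mod_cast h
  -- the three sums
  have T1 : ∑ i ∈ range K, ∑ i' ∈ range K, (if I i i' then (En φ H D i + En φ H D i') / 2 else 0) ≤
      (((D : ℝ) * X₁) / ((min z z' : ℕ) * H) + 1) / 2 *
        (∑ i ∈ range K, En φ H D i + ∑ i ∈ range K, En φ H D i) := by
    refine dbl (range K) (range K) I (fun i => En φ H D i) (fun i => En φ H D i) _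
      (fun i _ => hE0 i) (fun i _ => hE0 i) ?_ ?_
    · intro i _
      refine count _ _ _ hmin (by positivity) ?_
      intro a ha b hb hab
      have h1 := (mem_filter.1 ha).2
      have h2 := (mem_filter.1 hb).2
      have h3 : ((b : ℤ) - a) * (z * H) ≤ D * X₁ := by
        have e1 := h1.2
        have e2 := h2.1
        simp only [hvv] at e1 e2
        have p1 : 0 ≤ (z : ℤ) * H := by positivity
        have p2 : 0 ≤ (z' : ℤ) * H := by positivity
        nlinarith
      have h4 := toR _ _ h3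
      push_cast at h4
      have h5 : (0 : ℝ) ≤ (b : ℝ) - a := by
        have : (a : ℝ) ≤ b := by exact_mod_cast hab
        linarith
      calc ((b : ℝ) - a) * (((min z z' : ℕ) : ℝ) * H) ≤ ((b : ℝ) - a) * (z * H) := by gcongr
        _ ≤ _ := h4
    · intro i' _
      refine count _ _ _ hmin (by positivity) ?_
      intro a ha b hb hab
      have h1 := (mem_filter.1 ha).2
      have h2 := (mem_filter.1 hb).2
      have h3 : ((b : ℤ) - a) * (z' * H) ≤ D * X₁ := by
        have e1 := h1.1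
        have e2 := h2.2
        simp only [hvv] at e1 e2
        have p1 : 0 ≤ (z : ℤ) * H := by positivity
        have p2 : 0 ≤ (z' : ℤ) * H := by positivity
        nlinarith
      have h4 := toR _ _ h3
      push_cast at h4
      have h5 : (0 : ℝ) ≤ (b : ℝ) - a := by
        have : (a : ℝ) ≤ b := by exact_mod_cast hab
        linarith
      calc ((b : ℝ) - a) * (((min z z' : ℕ) : ℝ) * H) ≤ ((b : ℝ) - a) * (z' * H) := by gcongr
        _ ≤ _ := h4
  have cnt5 : ∀ (s : Finset ℕ) (q : ℕ), 1 ≤ q →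
      (∀ a ∈ s, ∀ b ∈ s, a ≤ b → ((b : ℤ) - a) * q ≤ 4 * q) → (s.card : ℝ) ≤ 5 := by
    intro s q hq h
    have hq' : (0 : ℝ) < q := by exact_mod_cast hq
    have h1 := count s (q : ℝ) (4 * q) hq' (by positivity) (fun a ha b hb hab => by
      have := toR _ _ (h a ha b hb hab)
      push_cast at this
      exact this)
    have h2 : (4 * (q : ℝ)) / q = 4 := by field_simp
    rw [h2] at h1
    linarith
  have hs1 : (z : ℤ) ≤ 3 * z' := by exact_mod_cast s1
  have hs2 : (z' : ℤ) ≤ 3 * z := by exact_mod_cast s2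
  -- an abstract form of the counting of the boundary pairs
  have cntA : ∀ (t : ℤ) (i : ℕ), (((range K).filter (fun i' => (t - z' * H : ℤ) < vv i i' ∧
      vv i i' < t + z * H)).card : ℝ) ≤ 5 := by
    intro t i
    refine cnt5 _ z hz ?_
    intro a ha b hb hab
    have h1 := (mem_filter.1 ha).2
    have h2 := (mem_filter.1 hb).2
    simp only [hvv] at h1 h2
    have h3 : ((b : ℤ) - a) * z * H ≤ 4 * z * H := by
      have p2 : (z' : ℤ) * H ≤ 3 * z * H := mul_le_mul_of_nonneg_right hs2 hHz.le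
      nlinarith [h1.1, h1.2, h2.1, h2.2]
    exact le_of_mul_le_mul_right h3 hHz
  have cntB : ∀ (t : ℤ) (i' : ℕ), (((range K).filter (fun i => (t - z' * H : ℤ) < vv i i' ∧
      vv i i' < t + z * H)).card : ℝ) ≤ 5 := by
    intro t i'
    refine cnt5 _ z' hz' ?_
    intro a ha b hb hab
    have h1 := (mem_filter.1 ha).2
    have h2 := (mem_filter.1 hb).2
    simp only [hvv] at h1 h2
    have h3 : ((b : ℤ) - a) * z' * H ≤ 4 * z' * H := by
      have p2 : (z : ℤ) * H ≤ 3 * z' * H := mul_le_mul_of_nonneg_right hs1 hHz.le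
      nlinarith [h1.1, h1.2, h2.1, h2.2]
    exact le_of_mul_le_mul_right h3 hHz
  have T2 : ∀ t : ℤ, ∑ i ∈ range K, ∑ i' ∈ range K, (if ((t - z' * H : ℤ) < vv i i' ∧
      vv i i' < t + z * H) then (cc * N i + cc * N i') / 2 else 0) ≤
      5 * cc * ∑ i ∈ range K, N i := by
    intro t
    have h1 := dbl (range K) (range K) (fun i i' => (t - z' * H : ℤ) < vv i i' ∧
      vv i i' < t + z * H) (fun i => cc * N i) (fun i => cc * N i) 5
      (fun i _ => mul_nonneg hcc0 (hN0 i)) (fun i _ => mul_nonneg hcc0 (hN0 i))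
      (fun i _ => cntA t i) (fun i' _ => cntB t i')
    refine h1.trans (le_of_eq ?_)
    rw [← mul_sum]
    ring
  have hNs : ∑ i ∈ range K, N i = ∑ n ∈ range B, ‖φ n‖ ^ 2 := by
    simp only [hN, hbl]
    rw [← blkR]
    symm
    refine sum_subset (range_subset_range.2 hBN) fun n _ hn => ?_
    have h1 : φ n = 0 := by
      by_contra h
      exact hn (mem_range.2 (hφ n h).1)
    rw [h1]
    simp
  calc ‖∑ i ∈ range K, ∑ i' ∈ range K, Sb i i'‖ ≤ ∑ i ∈ range K, ∑ i' ∈ range K, ‖Sb i i'‖ :=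
        (norm_sum_le _ _).trans (sum_le_sum fun i _ => norm_sum_le _ _)
    _ ≤ ∑ i ∈ range K, ∑ i' ∈ range K,
        ((if I i i' then (En φ H D i + En φ H D i') / 2 else 0) +
        (if B1 i i' then (cc * N i + cc * N i') / 2 else 0) +
        (if B2 i i' then (cc * N i + cc * N i') / 2 else 0)) :=
        sum_le_sum fun i _ => sum_le_sum fun i' _ => hbound i i'
    _ = ∑ i ∈ range K, ∑ i' ∈ range K, (if I i i' then (En φ H D i + En φ H D i') / 2 else 0) +
        ∑ i ∈ range K, ∑ i' ∈ range K, (if B1 i i' then (cc * N i + cc * N i') / 2 else 0) +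
        ∑ i ∈ range K, ∑ i' ∈ range K, (if B2 i i' then (cc * N i + cc * N i') / 2 else 0) := by
        simp only [sum_add_distrib]
    _ ≤ (((D : ℝ) * X₁) / ((min z z' : ℕ) * H) + 1) / 2 *
        (∑ i ∈ range K, En φ H D i + ∑ i ∈ range K, En φ H D i) +
        5 * cc * ∑ i ∈ range K, N i + 5 * cc * ∑ i ∈ range K, N i :=
        add_le_add (add_le_add T1 (T2 (X₁ * D))) (T2 (2 * X₁ * D))
    _ = _ := by
        rw [hNs]
        ring

end PAIR

theorem t_PAIR : S_PAIR := by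
  intro M y z y' z' X₁ H B W φ hM hy hz hy' hz' hH c1 c2 s1 s2 hne hφ
  rcases lt_or_gt_of_ne hne with h | h
  · -- the other case
    have h0 : y * z' < y' * z := h
    have h1 : ((M : ℤ) * ((y : ℤ) * z') - (M : ℤ) * ((y' : ℤ) * z)).natAbs =
        M * (y' * z) - M * (y * z') := by
      have h2 : M * (y * z') ≤ M * (y' * z) := Nat.mul_le_mul_left M h0.le
      have h3 : ((M : ℤ) * ((y : ℤ) * z') - (M : ℤ) * ((y' : ℤ) * z)) =
          -((M * (y' * z) - M * (y * z') : ℕ) : ℤ) := by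
        rw [Nat.cast_sub h2]
        push_cast
        ring
      rw [h3, Int.natAbs_neg, Int.natAbs_natCast]
    rw [h1]
    have h2 : M * (y * z') < M * (y' * z) := Nat.mul_lt_mul_of_pos_left h0 hM
    have h4 := PAIR.main M y' z' y z X₁ H B W (M * (y' * z) - M * (y * z')) φ hz' hz hH c2 c1 s2 s1
      (by rw [Nat.cast_sub h2.le]; push_cast; ring) (by omega)
      (fun n hn => ⟨(hφ n hn).1, (hφ n hn).2.2.1, (hφ n hn).2.1, (hφ n hn).2.2.2.2,
        (hφ n hn).2.2.2.1⟩)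
    rw [min_comm z' z] at h4
    refine le_trans (le_of_eq ?_) h4
    rw [← RCLike.norm_conj, map_sum]
    congr 1
    refine sum_congr rfl fun x _ => ?_
    rw [map_sum]
    refine sum_congr rfl fun w _ => ?_
    rw [map_mul, Complex.conj_conj]
    ring
  · have h0 : y' * z < y * z' := h
    have h1 : ((M : ℤ) * ((y : ℤ) * z') - (M : ℤ) * ((y' : ℤ) * z)).natAbs =
        M * (y * z') - M * (y' * z) := by
      have h2 : M * (y' * z) ≤ M * (y * z') := Nat.mul_le_mul_left M h0.le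
      have h3 : ((M : ℤ) * ((y : ℤ) * z') - (M : ℤ) * ((y' : ℤ) * z)) =
          ((M * (y * z') - M * (y' * z) : ℕ) : ℤ) := by
        rw [Nat.cast_sub h2]
        push_cast
        ring
      rw [h3, Int.natAbs_natCast]
    rw [h1]
    have h2 : M * (y' * z) < M * (y * z') := Nat.mul_lt_mul_of_pos_left h0 hM
    exact PAIR.main M y z y' z' X₁ H B W (M * (y * z') - M * (y' * z)) φ hz hz' hH c1 c2 s1 s2
      (by rw [Nat.cast_sub h2.le]; push_cast; ring) (by omega) hφ

end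

end MUR
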