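import Mathlib
import Pool.Agent.MUR.StC

set_option autoImplicit false

/-!
# MUR, module PI: the number of tuples with `q ∣ Dl M I t`
-/

namespace MUR

open Finset

namespace PI

noncomputable section

/-- a totient comparison -/
theorem totient_le (k L : ℕ) (hL : 0 < L) (h1 : L ∣ k) (h2 : k ∣ 2 * L) :
    k.totient ≤ 2 * L.totient := by
  obtain ⟨m, rfl⟩ := h1
  have hm : m ∣ 2 := by
    have h3 : L * m ∣ L * 2 := by rwa [mul_comm 2 L] at h2
    exact (Nat.mul_dvd_mul_iff_left hL).1 h3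
  rcases (Nat.dvd_prime Nat.prime_two).1 hm with rfl | rfl
  · rw [mul_one]; omega
  · rw [mul_comm]
    by_cases h : 2 ∣ L
    · rw [Nat.totient_mul_of_prime_of_dvd Nat.prime_two h]
    · rw [Nat.totient_mul_of_prime_of_not_dvd Nat.prime_two h]; omega

/-- the two divisors attached to a solution of `p ^ 2 ≡ p₀ ^ 2` -/
theorem two_div (k p p₀ : ℕ) (h0 : k.Coprime p₀)
    (h : (k : ℤ) ∣ (p : ℤ) ^ 2 - (p₀ : ℤ) ^ 2) :
    ∃ a b : ℕ, a ∣ k ∧ b ∣ k ∧ (a : ℤ) ∣ (p : ℤ) - p₀ ∧ (b : ℤ) ∣ (p : ℤ) + p₀ ∧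
      k ∣ 2 * a.lcm b := by
  refine ⟨k.gcd ((p : ℤ) - p₀).natAbs, k.gcd ((p : ℤ) + p₀).natAbs, Nat.gcd_dvd_left _ _,
    Nat.gcd_dvd_left _ _, ?_, ?_, ?_⟩
  · exact Int.natCast_dvd.2 (Nat.gcd_dvd_right _ _)
  · exact Int.natCast_dvd.2 (Nat.gcd_dvd_right _ _)
  · set a := k.gcd ((p : ℤ) - p₀).natAbs with ha
    set b := k.gcd ((p : ℤ) + p₀).natAbs with hb
    have h1 : k ∣ ((p : ℤ) - p₀).natAbs * ((p : ℤ) + p₀).natAbs := by
      rw [← Int.natAbs_mul]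
      have h2 : ((p : ℤ) - p₀) * ((p : ℤ) + p₀) = (p : ℤ) ^ 2 - (p₀ : ℤ) ^ 2 := by ring
      rw [h2]
      exact Int.natCast_dvd.1 h
    have h2 : k ∣ a * b := by
      exact dvd_mul_gcd_of_dvd_mul (dvd_gcd_mul_of_dvd_mul h1)
    have h3 : (a.gcd b) ∣ 2 := by
      have h4 : ((a.gcd b : ℕ) : ℤ) ∣ (p : ℤ) - p₀ :=
        Int.natCast_dvd.2 ((Nat.gcd_dvd_left a b).trans (Nat.gcd_dvd_right _ _))
      have h5 : ((a.gcd b : ℕ) : ℤ) ∣ (p : ℤ) + p₀ :=
        Int.natCast_dvd.2 ((Nat.gcd_dvd_right a b).trans (Nat.gcd_dvd_right _ _))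
      have h6 : ((a.gcd b : ℕ) : ℤ) ∣ ((p₀ * 2 : ℕ) : ℤ) := by
        have h7 := dvd_sub h5 h4
        have h8 : (p : ℤ) + p₀ - ((p : ℤ) - p₀) = ((p₀ * 2 : ℕ) : ℤ) := by push_cast; ring
        rwa [h8] at h7
      have h7 : a.gcd b ∣ p₀ * 2 := Int.natCast_dvd_natCast.1 h6
      have h8 : (a.gcd b).Coprime p₀ :=
        Nat.Coprime.coprime_dvd_left ((Nat.gcd_dvd_left a b).trans (Nat.gcd_dvd_left _ _)) h0
      exact h8.dvd_of_dvd_mul_left h7
    rw [← Nat.gcd_mul_lcm a b] at h2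
    exact h2.trans (Nat.mul_dvd_mul_right h3 _)

/-- the elements of `P` with `p ^ 2 ≡ p₀ ^ 2` modulo `k` -/
def sqs (P : Finset ℕ) (k p₀ : ℕ) : Finset ℕ :=
  P.filter (fun p : ℕ => (k : ℤ) ∣ (p : ℤ) ^ 2 - (p₀ : ℤ) ^ 2)

/-- the number of solutions of `p ^ 2 ≡ p₀ ^ 2` in `P` -/
theorem count_sq (C : ℝ) (Q J : ℕ) (P : Finset ℕ) (hP : GoodP C Q J P) (hC : 0 ≤ C) (k p₀ : ℕ)
    (hk : 1 ≤ k) (h0 : k.Coprime p₀) :
    ((sqs P k p₀).card : ℝ) ≤
      (k.divisors.card : ℝ) ^ 2 * (2 * C * P.card *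
        (1 / (k.totient : ℝ) + (Q : ℝ) ^ (-(1 / 3 : ℝ)))) := by
  set X : ℕ × ℕ → Finset ℕ := fun ab => P.filter (fun p : ℕ => (ab.1 : ℤ) ∣ (p : ℤ) - p₀ ∧
    (ab.2 : ℤ) ∣ (p : ℤ) + p₀ ∧ k ∣ 2 * ab.1.lcm ab.2) with hX
  set δ : ℝ := (Q : ℝ) ^ (-(1 / 3 : ℝ)) with hδ
  have hδ0 : 0 ≤ δ := Real.rpow_nonneg (Nat.cast_nonneg _) _
  have hkt : (0 : ℝ) < (k.totient : ℝ) := by exact_mod_cast Nat.totient_pos.2 hk
  have hPc : (0 : ℝ) ≤ (P.card : ℝ) := Nat.cast_nonneg _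
  have hsub : sqs P k p₀ ⊆
      (k.divisors ×ˢ k.divisors).biUnion X := by
    intro p hp
    obtain ⟨hpP, hpk⟩ := mem_filter.1 hp
    obtain ⟨a, b, ha, hb, h1, h2, h3⟩ := two_div k p p₀ h0 hpk
    refine mem_biUnion.2 ⟨(a, b), mem_product.2 ⟨Nat.mem_divisors.2 ⟨ha, by omega⟩,
      Nat.mem_divisors.2 ⟨hb, by omega⟩⟩, ?_⟩
    exact mem_filter.2 ⟨hpP, h1, h2, h3⟩
  have hbd : ∀ ab ∈ k.divisors ×ˢ k.divisors, ((X ab).card : ℝ) ≤
      2 * C * P.card * (1 / (k.totient : ℝ) + δ) := by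
    intro ab hab
    obtain ⟨ha, hb⟩ := mem_product.1 hab
    have ha' := Nat.dvd_of_mem_divisors ha
    have hb' := Nat.dvd_of_mem_divisors hb
    rcases (X ab).eq_empty_or_nonempty with he | ⟨p₁, hp₁⟩
    · rw [he, card_empty, Nat.cast_zero]
      positivity
    · obtain ⟨-, g1, g2, g3⟩ := mem_filter.1 hp₁
      set L := ab.1.lcm ab.2 with hL
      have hLk : L ∣ k := Nat.lcm_dvd ha' hb'
      have hL0 : 0 < L := Nat.pos_of_dvd_of_pos hLk hk
      have hX1 : X ab ⊆ P.filter (fun p => p ≡ p₁ [MOD L]) := by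
        intro p hp
        obtain ⟨hpP, h1, h2, -⟩ := mem_filter.1 hp
        refine mem_filter.2 ⟨hpP, ?_⟩
        apply Nat.ModEq.symm
        rw [Nat.modEq_iff_dvd]
        have h3 : (ab.1 : ℤ) ∣ (p : ℤ) - p₁ := by
          have := dvd_sub h1 g1
          have h5 : (p : ℤ) - p₀ - ((p₁ : ℤ) - p₀) = (p : ℤ) - p₁ := by ring
          rwa [h5] at this
        have h4 : (ab.2 : ℤ) ∣ (p : ℤ) - p₁ := by
          have := dvd_sub h2 g2
          have h5 : (p : ℤ) + p₀ - ((p₁ : ℤ) + p₀) = (p : ℤ) - p₁ := by ring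
          rwa [h5] at this
        rw [Int.natCast_dvd] at h3 h4 ⊢
        exact Nat.lcm_dvd h3 h4
      have h5 : ((X ab).card : ℝ) ≤ C * P.card * (1 / (L.totient : ℝ) + δ) :=
        le_trans (by exact_mod_cast card_le_card hX1) (hP.cls L p₁ hL0)
      have hLt : (0 : ℝ) < (L.totient : ℝ) := by exact_mod_cast Nat.totient_pos.2 hL0
      have h6 : (k.totient : ℝ) ≤ 2 * (L.totient : ℝ) := by
        exact_mod_cast totient_le k L hL0 hLk g3
      have h7 : 1 / (L.totient : ℝ) ≤ 2 * (1 / (k.totient : ℝ)) := by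
        rw [mul_one_div, div_le_div_iff₀ hLt hkt]
        linarith
      have h8 : 1 / (L.totient : ℝ) + δ ≤ 2 * (1 / (k.totient : ℝ) + δ) := by
        linarith
      calc ((X ab).card : ℝ) ≤ C * P.card * (1 / (L.totient : ℝ) + δ) := h5
        _ ≤ C * P.card * (2 * (1 / (k.totient : ℝ) + δ)) :=
            mul_le_mul_of_nonneg_left h8 (mul_nonneg hC hPc)
        _ = 2 * C * P.card * (1 / (k.totient : ℝ) + δ) := by ring
  calc ((sqs P k p₀).card : ℝ)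
      ≤ (((k.divisors ×ˢ k.divisors).biUnion X).card : ℝ) := by
        exact_mod_cast card_le_card hsub
    _ ≤ ∑ ab ∈ k.divisors ×ˢ k.divisors, ((X ab).card : ℝ) := by
        exact_mod_cast card_biUnion_le
    _ ≤ ∑ _ab ∈ k.divisors ×ˢ k.divisors, 2 * C * P.card * (1 / (k.totient : ℝ) + δ) :=
        sum_le_sum hbd
    _ = (k.divisors.card : ℝ) ^ 2 * (2 * C * P.card * (1 / (k.totient : ℝ) + δ)) := by
        rw [sum_const, card_product, nsmul_eq_mul]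
        push_cast
        ring

/-- tuples with a prescribed coordinate -/
theorem card_pi (J : ℕ) (P : Finset ℕ) (S : Finset (ℕ × ℕ)) (j₀ : Fin J) :
    (Fintype.piFinset (fun j : Fin J => if j = j₀ then S else P ×ˢ P)).card =
      S.card * P.card ^ (2 * (J - 1)) := by
  rw [Fintype.card_piFinset, ← mul_prod_erase univ _ (mem_univ j₀), if_pos rfl]
  congr 1
  rw [prod_congr rfl (g := fun _ => P.card * P.card), prod_const, card_erase_of_mem (mem_univ _),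
    card_univ, Fintype.card_fin, pow_mul, sq]
  intro j hj
  rw [if_neg (mem_erase.1 hj).1, card_product]

/-- the primes of `P` dividing `q'` -/
theorem card_L (C : ℝ) (Q J q' : ℕ) (P : Finset ℕ) (hP : GoodP C Q J P) (hQ : 2 ≤ Q)
    (hq0 : 0 < q') (hq : q' ≤ Q ^ (4 * J)) : (P.filter (fun l => l ∣ q')).card ≤ 4 * J := by
  have h1 : ∏ l ∈ P.filter (fun l => l ∣ q'), l ∣ q' :=
    prod_primes_dvd _ (fun l hl => (hP.pr l (mem_filter.1 hl).1).prime)
      (fun l hl => (mem_filter.1 hl).2)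
  have h2 : Q ^ (P.filter (fun l => l ∣ q')).card ≤ ∏ l ∈ P.filter (fun l => l ∣ q'), l := by
    rw [← prod_const]
    exact prod_le_prod' (fun l hl => (hP.lo l (mem_filter.1 hl).1).le)
  exact (Nat.pow_le_pow_iff_right (by omega)).1 ((h2.trans (Nat.le_of_dvd hq0 h1)).trans hq)

/-- tuples containing one of few primes -/
theorem card_A (J : ℕ) (P Ls : Finset ℕ) (hJ : 1 ≤ J) (A : Finset (Fin J → ℕ × ℕ))
    (hA : ∀ t ∈ A, (∀ j, t j ∈ P ×ˢ P) ∧ ∃ j, (t j).1 ∈ Ls ∨ (t j).2 ∈ Ls) :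
    A.card ≤ Ls.card * (2 * J) * P.card ^ (2 * J - 1) := by
  have hsub : A ⊆ (Ls ×ˢ (univ : Finset (Fin J))).biUnion (fun lj =>
      Fintype.piFinset (fun j : Fin J => if j = lj.2 then ({lj.1} ×ˢ P) else P ×ˢ P) ∪
      Fintype.piFinset (fun j : Fin J => if j = lj.2 then (P ×ˢ {lj.1}) else P ×ˢ P)) := by
    intro t ht
    obtain ⟨h1, j₀, h2⟩ := hA t ht
    rcases h2 with h2 | h2
    · refine mem_biUnion.2 ⟨((t j₀).1, j₀), mem_product.2 ⟨h2, mem_univ _⟩,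
        mem_union_left _ (Fintype.mem_piFinset.2 fun j => ?_)⟩
      dsimp only
      split_ifs with h
      · subst h
        exact mem_product.2 ⟨mem_singleton_self _, (mem_product.1 (h1 j)).2⟩
      · exact h1 j
    · refine mem_biUnion.2 ⟨((t j₀).2, j₀), mem_product.2 ⟨h2, mem_univ _⟩,
        mem_union_right _ (Fintype.mem_piFinset.2 fun j => ?_)⟩
      dsimp only
      split_ifs with h
      · subst h
        exact mem_product.2 ⟨(mem_product.1 (h1 j)).1, mem_singleton_self _⟩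
      · exact h1 j
  have hpw : P.card * P.card ^ (2 * (J - 1)) = P.card ^ (2 * J - 1) := by
    rw [← pow_succ']
    congr 1
    omega
  refine (card_le_card hsub).trans (card_biUnion_le.trans ?_)
  have hb : ∀ lj ∈ Ls ×ˢ (univ : Finset (Fin J)),
      (Fintype.piFinset (fun j : Fin J => if j = lj.2 then ({lj.1} ×ˢ P) else P ×ˢ P) ∪
      Fintype.piFinset (fun j : Fin J => if j = lj.2 then (P ×ˢ {lj.1}) else P ×ˢ P)).card ≤
      2 * P.card ^ (2 * J - 1) := by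
    intro lj _
    refine (card_union_le _ _).trans ?_
    rw [card_pi, card_pi, card_product, card_product, card_singleton, one_mul, mul_one, hpw]
    omega
  refine (sum_le_card_nsmul _ _ _ hb).trans ?_
  rw [card_product, card_univ, Fintype.card_fin, smul_eq_mul]
  exact le_of_eq (by ring)

/-- the difference is divisible by `q'` if all entries are coprime to `q'` -/
theorem dvd_sq (J M q k : ℕ) (I : Finset (Fin J)) (t : Fin J → ℕ × ℕ) (hSWA : S_SWA)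
    (hq : 1 ≤ q) (hk : k ∣ q / q.gcd M)
    (hc : ∀ j, (q / q.gcd M).Coprime (t j).1 ∧ (q / q.gcd M).Coprime (t j).2)
    (h : (q : ℤ) ∣ Dl M I t) :
    (k : ℤ) ∣ ((∏ j ∈ I, (t j).1 : ℕ) : ℤ) ^ 2 - ((∏ j ∈ I, (t j).2 : ℕ) : ℤ) ^ 2 := by
  obtain ⟨-, -, -, -, h1, h2, h3, h4⟩ := hSWA J ∅
  have e1 := h1 I t
  have e2 := h2 I t
  have e3 := h3 I t
  have e4 := h4 I t
  set e := ∏ j ∈ Iᶜ, (t j).1 with he
  set g := ∏ j ∈ Iᶜ, (t j).2 with hg
  set f := ∏ j ∈ I, (t j).1 with hf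
  set h' := ∏ j ∈ I, (t j).2 with hh
  have hD : Dl M I t = (M : ℤ) * (((e * g : ℕ) : ℤ) * ((f : ℤ) ^ 2 - (h' : ℤ) ^ 2)) := by
    unfold Dl
    rw [e1, e2, e3, e4]
    push_cast
    ring
  have hd0 : 0 < q.gcd M := Nat.gcd_pos_of_pos_left _ hq
  have hce : (q / q.gcd M).Coprime (e * g) :=
    Nat.Coprime.mul_right (Nat.Coprime.prod_right fun j _ => (hc j).1)
      (Nat.Coprime.prod_right fun j _ => (hc j).2)
  have h5 : ((q / q.gcd M : ℕ) : ℤ) ∣ ((M / q.gcd M : ℕ) : ℤ) *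
      (((e * g : ℕ) : ℤ) * ((f : ℤ) ^ 2 - (h' : ℤ) ^ 2)) := by
    have h6 : (q : ℤ) = ((q.gcd M : ℕ) : ℤ) * ((q / q.gcd M : ℕ) : ℤ) := by
      rw [← Nat.cast_mul, Nat.mul_div_cancel' (Nat.gcd_dvd_left q M)]
    have h7 : (M : ℤ) = ((q.gcd M : ℕ) : ℤ) * ((M / q.gcd M : ℕ) : ℤ) := by
      rw [← Nat.cast_mul, Nat.mul_div_cancel' (Nat.gcd_dvd_right q M)]
    rw [hD, h7, mul_assoc] at h
    rw [h6] at h
    exact (mul_dvd_mul_iff_left (by exact_mod_cast hd0.ne')).1 h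
  have h6 : IsCoprime ((q / q.gcd M : ℕ) : ℤ) ((M / q.gcd M : ℕ) : ℤ) :=
    Nat.isCoprime_iff_coprime.2 (Nat.coprime_div_gcd_div_gcd hd0)
  have h7 : IsCoprime ((q / q.gcd M : ℕ) : ℤ) ((e * g : ℕ) : ℤ) :=
    Nat.isCoprime_iff_coprime.2 hce
  exact (Int.natCast_dvd_natCast.2 hk).trans (h7.dvd_of_dvd_mul_left (h6.dvd_of_dvd_mul_left h5))

/-- tuples all of whose entries are coprime to `k` -/
theorem card_B (C : ℝ) (Q J k : ℕ) (P : Finset ℕ) (hP : GoodP C Q J P) (hC : 0 ≤ C)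
    (hk : 1 ≤ k) (I : Finset (Fin J)) (j₀ : Fin J) (hj₀ : j₀ ∈ I) (B : Finset (Fin J → ℕ × ℕ))
    (hB : ∀ t ∈ B, (∀ j, t j ∈ P ×ˢ P) ∧ (∀ j, k.Coprime (t j).1 ∧ k.Coprime (t j).2) ∧
      (k : ℤ) ∣ ((∏ j ∈ I, (t j).1 : ℕ) : ℤ) ^ 2 - ((∏ j ∈ I, (t j).2 : ℕ) : ℤ) ^ 2) :
    (B.card : ℝ) ≤ (P.card : ℝ) ^ (2 * J - 1) * ((k.divisors.card : ℝ) ^ 2 * (2 * C * P.card *
      (1 / (k.totient : ℝ) + (Q : ℝ) ^ (-(1 / 3 : ℝ))))) := by
  have hJ : 1 ≤ J := by
    have := j₀.2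
    omega
  set K : ℝ := (k.divisors.card : ℝ) ^ 2 * (2 * C * P.card *
      (1 / (k.totient : ℝ) + (Q : ℝ) ^ (-(1 / 3 : ℝ)))) with hK
  have hK0 : 0 ≤ K := by
    have : (0 : ℝ) ≤ (Q : ℝ) ^ (-(1 / 3 : ℝ)) := Real.rpow_nonneg (Nat.cast_nonneg _) _
    positivity
  set T : Finset (Fin J → ℕ × ℕ) :=
    Fintype.piFinset (fun j : Fin J => if j = j₀ then (({1} : Finset ℕ) ×ˢ P) else P ×ˢ P) with hT
  have hTc : T.card = P.card ^ (2 * J - 1) := by
    rw [hT, card_pi, card_product, card_singleton, one_mul, ← pow_succ']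
    congr 1
    omega
  have hmaps : ∀ t ∈ B, Function.update t j₀ (1, (t j₀).2) ∈ T := by
    intro t ht
    obtain ⟨h1, -, -⟩ := hB t ht
    rw [hT, Fintype.mem_piFinset]
    intro j
    by_cases hj : j = j₀
    · subst hj
      rw [if_pos rfl, Function.update_self]
      exact mem_product.2 ⟨mem_singleton_self _, (mem_product.1 (h1 _)).2⟩
    · rw [if_neg hj, Function.update_of_ne hj]
      exact h1 j
  have hfib : ∀ u ∈ T, ((B.filter (fun t => Function.update t j₀ (1, (t j₀).2) = u)).card : ℝ) ≤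
      K := by
    intro u _
    rcases (B.filter (fun t => Function.update t j₀ (1, (t j₀).2) = u)).eq_empty_or_nonempty with
      he | ⟨t₀, ht₀⟩
    · rw [he, card_empty, Nat.cast_zero]
      exact hK0
    · obtain ⟨ht₀B, ht₀u⟩ := mem_filter.1 ht₀
      obtain ⟨a1, a2, a3⟩ := hB t₀ ht₀B
      have hinj : Set.InjOn (fun t : Fin J → ℕ × ℕ => (t j₀).1)
          (B.filter (fun t => Function.update t j₀ (1, (t j₀).2) = u)) := by
        intro t ht t' ht' hh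
        have e1 := (mem_filter.1 (mem_coe.1 ht)).2
        have e2 := (mem_filter.1 (mem_coe.1 ht')).2
        funext j
        have e3 := congrFun (e1.trans e2.symm) j
        by_cases hj : j = j₀
        · subst hj
          rw [Function.update_self, Function.update_self] at e3
          exact Prod.ext hh (Prod.mk.inj e3).2
        · rwa [Function.update_of_ne hj, Function.update_of_ne hj] at e3
      rw [← card_image_of_injOn hinj]
      refine le_trans ?_ (count_sq C Q J P hP hC k (t₀ j₀).1 hk (a2 j₀).1)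
      refine Nat.cast_le.2 (card_le_card ?_)
      intro p hp
      obtain ⟨t, ht, rfl⟩ := mem_image.1 hp
      obtain ⟨htB, htu⟩ := mem_filter.1 ht
      obtain ⟨b1, b2, b3⟩ := hB t htB
      refine mem_filter.2 ⟨(mem_product.1 (b1 j₀)).1, ?_⟩
      have e3 : ∀ j, j ≠ j₀ → t j = t₀ j := by
        intro j hj
        have e4 := congrFun (htu.trans ht₀u.symm) j
        rwa [Function.update_of_ne hj, Function.update_of_ne hj] at e4
      have e4 : (t j₀).2 = (t₀ j₀).2 := by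
        have e5 := congrFun (htu.trans ht₀u.symm) j₀
        rw [Function.update_self, Function.update_self] at e5
        exact (Prod.mk.inj e5).2
      have e5 : ∏ j ∈ I, (t j).2 = ∏ j ∈ I, (t₀ j).2 := by
        refine prod_congr rfl fun j _ => ?_
        by_cases hj : j = j₀
        · rw [hj, e4]
        · rw [e3 j hj]
      have e6 : ∏ j ∈ I.erase j₀, (t j).1 = ∏ j ∈ I.erase j₀, (t₀ j).1 :=
        prod_congr rfl fun j hj => by rw [e3 j (mem_erase.1 hj).1]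
      rw [← mul_prod_erase I _ hj₀, e5, e6] at b3
      rw [← mul_prod_erase I _ hj₀] at a3
      have e7 := dvd_sub b3 a3
      have e8 : (((t j₀).1 * ∏ j ∈ I.erase j₀, (t₀ j).1 : ℕ) : ℤ) ^ 2 -
          ((∏ j ∈ I, (t₀ j).2 : ℕ) : ℤ) ^ 2 -
          ((((t₀ j₀).1 * ∏ j ∈ I.erase j₀, (t₀ j).1 : ℕ) : ℤ) ^ 2 -
          ((∏ j ∈ I, (t₀ j).2 : ℕ) : ℤ) ^ 2) =
          ((∏ j ∈ I.erase j₀, (t₀ j).1 : ℕ) : ℤ) ^ 2 *
            (((t j₀).1 : ℤ) ^ 2 - ((t₀ j₀).1 : ℤ) ^ 2) := by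
        push_cast
        ring
      rw [e8] at e7
      have e9 : IsCoprime (k : ℤ) (((∏ j ∈ I.erase j₀, (t₀ j).1 : ℕ) : ℤ) ^ 2) := by
        apply IsCoprime.pow_right
        exact Nat.isCoprime_iff_coprime.2 (Nat.Coprime.prod_right fun j _ => (a2 j).1)
      exact e9.dvd_of_dvd_mul_left e7
  rw [card_eq_sum_card_fiberwise hmaps]
  push_cast
  refine (sum_le_sum hfib).trans ?_
  rw [sum_const, nsmul_eq_mul, hTc]
  push_cast
  exact le_rfl

end

end PI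

open PI in
theorem t_PI : M_PI := by
  intro hSWA C Q J M q k P I hP hI hQ hM hq hqQ hk hkq
  obtain ⟨j₀, hj₀⟩ := hI
  have hJ : 1 ≤ J := by
    have := j₀.2
    omega
  set δ : ℝ := (Q : ℝ) ^ (-(1 / 3 : ℝ)) with hδ
  have hδ0 : 0 ≤ δ := Real.rpow_nonneg (Nat.cast_nonneg _) _
  set F := (TT P J).filter (fun t => (q : ℤ) ∣ Dl M I t) with hF
  have hFP : ∀ t ∈ F, ∀ j, t j ∈ P ×ˢ P := by
    intro t ht j
    have h1 := (mem_filter.1 ht).1
    unfold TT at h1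
    exact Fintype.mem_piFinset.1 (mem_filter.1 h1).1 j
  rcases Nat.eq_zero_or_pos P.card with hP0 | hPpos
  · have hPe : P = ∅ := card_eq_zero.1 hP0
    have hFe : F = ∅ := by
      rw [eq_empty_iff_forall_notMem]
      intro t ht
      have h1 := hFP t ht j₀
      rw [hPe] at h1
      simp at h1
    rw [hFe, hP0, card_empty, Nat.cast_zero, zero_pow (by omega), zero_mul]
  have hPr : (0 : ℝ) < (P.card : ℝ) := by exact_mod_cast hPpos
  have hC : 0 ≤ C := by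
    by_contra hneg
    push Not at hneg
    have h1 := hP.card
    have h2 : (0 : ℝ) ≤ J * Real.log Q * P.card := by
      have : 0 ≤ Real.log (Q : ℝ) := Real.log_natCast_nonneg Q
      positivity
    have h3 : C * J * Real.log Q * P.card ≤ 0 := by
      have h4 : C * J * Real.log Q * P.card = C * (J * Real.log Q * P.card) := by ring
      rw [h4]
      exact mul_nonpos_of_nonpos_of_nonneg hneg.le h2
    have h4 : (2 : ℝ) ≤ Q := by exact_mod_cast hQ
    linarith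
  set q' := q / q.gcd M with hq'
  have hq'0 : 0 < q' := Nat.div_pos (Nat.le_of_dvd hq (Nat.gcd_dvd_left q M))
    (Nat.gcd_pos_of_pos_left _ hq)
  set Ls := P.filter (fun l => l ∣ q') with hLs
  have hLc : Ls.card ≤ 4 * J := card_L C Q J q' P hP hQ hq'0 hqQ
  classical
  set A := F.filter (fun t => ∃ j, (t j).1 ∈ Ls ∨ (t j).2 ∈ Ls) with hA
  set B := F.filter (fun t => ¬ ∃ j, (t j).1 ∈ Ls ∨ (t j).2 ∈ Ls) with hB
  have hAB : F.card = A.card + B.card := (card_filter_add_card_filter_not _).symm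
  have hAc : A.card ≤ Ls.card * (2 * J) * P.card ^ (2 * J - 1) :=
    card_A J P Ls hJ A (fun t ht => ⟨hFP t (mem_filter.1 ht).1, (mem_filter.1 ht).2⟩)
  have hBc : (B.card : ℝ) ≤ (P.card : ℝ) ^ (2 * J - 1) * ((k.divisors.card : ℝ) ^ 2 *
      (2 * C * P.card * (1 / (k.totient : ℝ) + δ))) := by
    refine card_B C Q J k P hP hC hk I j₀ hj₀ B (fun t ht => ?_)
    obtain ⟨htF, hn⟩ := mem_filter.1 ht
    push Not at hn
    have hcop : ∀ j, q'.Coprime (t j).1 ∧ q'.Coprime (t j).2 := by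
      intro j
      obtain ⟨m1, m2⟩ := mem_product.1 (hFP t htF j)
      constructor
      · refine Nat.Coprime.symm ((Nat.Prime.coprime_iff_not_dvd (hP.pr _ m1)).2 fun hd => ?_)
        exact (hn j).1 (mem_filter.2 ⟨m1, hd⟩)
      · refine Nat.Coprime.symm ((Nat.Prime.coprime_iff_not_dvd (hP.pr _ m2)).2 fun hd => ?_)
        exact (hn j).2 (mem_filter.2 ⟨m2, hd⟩)
    exact ⟨hFP t htF, fun j => ⟨(hcop j).1.coprime_dvd_left hkq, (hcop j).2.coprime_dvd_left hkq⟩,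
      dvd_sq J M q k I t hSWA hq hkq hcop (mem_filter.1 htF).2⟩
  have hpw : (P.card : ℝ) ^ (2 * J) = (P.card : ℝ) ^ (2 * J - 1) * P.card := by
    rw [← pow_succ]
    congr 1
    omega
  have hA2 : (A.card : ℝ) ≤ 8 * (J : ℝ) ^ 2 * (P.card : ℝ) ^ (2 * J - 1) := by
    have h1 : A.card ≤ 4 * J * (2 * J) * P.card ^ (2 * J - 1) :=
      hAc.trans (Nat.mul_le_mul_right _ (Nat.mul_le_mul_right _ hLc))
    have h2 : (A.card : ℝ) ≤ ((4 * J * (2 * J) * P.card ^ (2 * J - 1) : ℕ) : ℝ) := by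
      exact_mod_cast h1
    refine h2.trans (le_of_eq ?_)
    push_cast
    ring
  have hFr : (F.card : ℝ) = (A.card : ℝ) + (B.card : ℝ) := by exact_mod_cast hAB
  rw [hFr, hpw]
  have h3 : (P.card : ℝ) ^ (2 * J - 1) * (P.card : ℝ) * (8 * (J : ℝ) ^ 2 / P.card +
      2 * C * (k.divisors.card : ℝ) ^ 2 * (1 / (k.totient : ℝ) + δ)) =
      8 * (J : ℝ) ^ 2 * (P.card : ℝ) ^ (2 * J - 1) + (P.card : ℝ) ^ (2 * J - 1) *
      ((k.divisors.card : ℝ) ^ 2 * (2 * C * P.card * (1 / (k.totient : ℝ) + δ))) := by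
    field_simp
  rw [h3]
  exact add_le_add hA2 hBc

end MUR
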