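import Mathlib
import Pool.Agent.MUR.StB
import Pool.Agent.Lib_helper70.PNT.PNT

set_option autoImplicit false

/-!
# Primes in a class modulo `q` in the interval `(N, N + N / 10]`
-/

namespace MUR

namespace PNT

open MeasureTheory Filter Topology Set
open scoped ArithmeticFunction.vonMangoldt Chebyshev
open ArithmeticFunction.vonMangoldt (residueClass residueClass_nonneg residueClass_le
  LFunctionResidueClassAux continuousOn_LFunctionResidueClassAux eqOn_LFunctionResidueClassAux)

noncomputable section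

variable {q : ℕ} [NeZero q] (a : ZMod q)

/-- The Chebyshev function of a residue class. -/
def P (x : ℝ) : ℝ := ∑ k ∈ Finset.Icc 1 ⌊x⌋₊, residueClass a k

lemma P_mono : Monotone (P a) := by
  intro x y hxy
  unfold P
  exact Finset.sum_le_sum_of_subset_of_nonneg
    (Finset.Icc_subset_Icc_right (Nat.floor_mono hxy)) (fun k _ _ => residueClass_nonneg a k)

lemma P_nonneg (x : ℝ) : 0 ≤ P a x := Finset.sum_nonneg (fun k _ => residueClass_nonneg a k)

lemma P_le (x : ℝ) : P a x ≤ ψ x := by
  unfold P Chebyshev.psi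
  exact Finset.sum_le_sum (fun k _ => residueClass_le a k)

/-- `φ q * P (e^u) / e^u` -/
def fq (u : ℝ) : ℝ := (q.totient : ℝ) * P a (Real.exp u) * Real.exp (-u)

lemma fq_measurable : Measurable (fq a) := by
  unfold fq
  have : Measurable (P a) := (P_mono a).measurable
  fun_prop

lemma fq_nonneg (u : ℝ) : 0 ≤ fq a u :=
  mul_nonneg (mul_nonneg (Nat.cast_nonneg _) (P_nonneg a _)) (Real.exp_pos _).le

lemma fq_le (u : ℝ) : fq a u ≤ (q.totient : ℝ) * (Real.log 4 + 4) := by
  unfold fq
  have h := Chebyshev.psi_le_const_mul_self (Real.exp_pos u).le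
  have h2 := P_le a (Real.exp u)
  calc _ ≤ (q.totient : ℝ) * ((Real.log 4 + 4) * Real.exp u) * Real.exp (-u) := by
        gcongr
        exact h2.trans h
    _ = (q.totient : ℝ) * (Real.log 4 + 4) * (Real.exp u * Real.exp (-u)) := by ring
    _ = _ := by rw [← Real.exp_add]; simp

lemma fq_mono (u u' : ℝ) (_ : 0 ≤ u) (h : u ≤ u') : fq a u * Real.exp (u - u') ≤ fq a u' := by
  unfold fq
  have h1 : P a (Real.exp u) ≤ P a (Real.exp u') := P_mono a (Real.exp_le_exp.mpr h)
  calc _ = (q.totient : ℝ) * P a (Real.exp u) * Real.exp (-u') := by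
        rw [mul_assoc ((q.totient : ℝ) * P a (Real.exp u)), ← Real.exp_add]; congr 2; ring
    _ ≤ _ := by gcongr

lemma P_isBigO : (fun n : ℕ => ∑ k ∈ Finset.Icc 1 n, residueClass a k) =O[atTop]
    fun n : ℕ => (n : ℝ) ^ (1:ℝ) := by
  refine Asymptotics.IsBigO.of_bound (Real.log 4 + 4) ?_
  filter_upwards with n
  have h : ∑ k ∈ Finset.Icc 1 n, residueClass a k = P a n := by
    unfold P
    rw [Nat.floor_natCast]
  rw [h, Real.rpow_one, Real.norm_of_nonneg (P_nonneg a _),
    Real.norm_of_nonneg (Nat.cast_nonneg _)]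
  exact (P_le a _).trans (Chebyshev.psi_le_const_mul_self (Nat.cast_nonneg _))

lemma LSeries_eq_int {s : ℂ} (hs : 0 < s.re) :
    (q.totient : ℂ) * LSeries (fun n => (residueClass a n : ℂ)) (1 + s)
      = (1 + s) * ∫ u in Ioi (0:ℝ), (fq a u : ℂ) * Complex.exp (-(s * u)) := by
  have h := LSeries_eq_mul_integral_of_nonneg (fun n => residueClass a n) (r := 1) zero_le_one
    (s := 1 + s) (by simp [hs]) (P_isBigO a) (fun n => residueClass_nonneg a n)
  rw [h, mul_left_comm]
  congr 1
  have h2 := integral_comp_exp_Ioi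
    (fun t : ℝ => (∑ k ∈ Finset.Icc 1 ⌊t⌋₊, ((residueClass a k : ℝ) : ℂ)) *
      (t : ℂ) ^ (-((1 + s) + 1))) 0
  rw [Real.exp_zero] at h2
  rw [← h2, ← integral_const_mul]
  refine setIntegral_congr_fun measurableSet_Ioi (fun u _ => ?_)
  have h3 : ∑ k ∈ Finset.Icc 1 ⌊Real.exp u⌋₊, ((residueClass a k : ℝ) : ℂ)
      = (P a (Real.exp u) : ℂ) := by
    unfold P
    push_cast
    rfl
  simp only [h3, fq]
  have h4 : ((Real.exp u : ℝ) : ℂ) ^ (-((1 + s) + 1)) = Complex.exp (-((1 + s) + 1) * u) := by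
    rw [Complex.cpow_def_of_ne_zero (by exact_mod_cast (Real.exp_pos u).ne'),
      ← Complex.ofReal_log (Real.exp_pos u).le, Real.log_exp, mul_comm]
  rw [h4, Complex.real_smul]
  push_cast
  calc _ = (q.totient : ℂ) * (P a (Real.exp u) : ℂ) *
          (Complex.exp u * Complex.exp (-((1 + s) + 1) * u)) := by ring
    _ = (q.totient : ℂ) * (P a (Real.exp u) : ℂ) *
          (Complex.exp (-u) * Complex.exp (-(s * u))) := by
        rw [← Complex.exp_add, ← Complex.exp_add]; congr 2; ring
    _ = _ := by ring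

/-- boundary function -/
def G (s : ℂ) : ℂ := ((q.totient : ℂ) * LFunctionResidueClassAux a (1 + s) - 1) / (1 + s)

lemma G_cont : ContinuousOn (G a) {s | 0 ≤ s.re} := by
  unfold G
  apply ContinuousOn.div
  · apply ContinuousOn.sub _ continuousOn_const
    refine continuousOn_const.mul ?_
    refine (continuousOn_LFunctionResidueClassAux a).comp (Continuous.continuousOn (by fun_prop)) ?_
    intro s hs
    simp only [mem_setOf_eq, Complex.add_re, Complex.one_re] at hs ⊢
    linarith
  · exact Continuous.continuousOn (by fun_prop)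
  · intro s hs h
    have := congrArg Complex.re h
    simp only [mem_setOf_eq] at hs
    simp only [Complex.add_re, Complex.one_re, Complex.zero_re] at this
    linarith

variable {a}

lemma laplace (ha : IsUnit a) {s : ℂ} (hs : 0 < s.re) :
    ∫ u in Ioi (0:ℝ), ((fq a u - 1 : ℝ) : ℂ) * Complex.exp (-(s * u)) = G a s := by
  have hq : (q.totient : ℂ) ≠ 0 := by
    exact_mod_cast (Nat.totient_pos.mpr (Nat.pos_of_ne_zero (NeZero.ne q))).ne'
  have hs0 : s ≠ 0 := fun h => by simp [h] at hs
  have h1s : 1 + s ≠ 0 := fun h => by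
    have := congrArg Complex.re h
    simp only [Complex.add_re, Complex.one_re, Complex.zero_re] at this
    linarith
  have i2 : IntegrableOn (fun u : ℝ => Complex.exp (-(s * u))) (Ioi 0) := by
    have := integrableOn_exp_mul_complex_Ioi (a := -s) (by simpa using hs) 0
    refine this.congr_fun (fun x _ => ?_) measurableSet_Ioi
    simp
  have e2 : ∫ u in Ioi (0:ℝ), Complex.exp (-(s * u)) = 1 / s := by
    have := integral_exp_mul_complex_Ioi (a := -s) (by simpa using hs) 0
    simp only [neg_mul, Complex.ofReal_zero, mul_zero, neg_zero, Complex.exp_zero] at this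
    rw [this]
    field_simp
  have i1 : IntegrableOn (fun u : ℝ => (fq a u : ℂ) * Complex.exp (-(s * u))) (Ioi 0) := by
    refine Integrable.mono' (g := fun u => ((q.totient : ℝ) * (Real.log 4 + 4)) *
      ‖Complex.exp (-(s * u))‖) (i2.norm.const_mul _) ?_ ?_
    · apply Measurable.aestronglyMeasurable
      have := fq_measurable a
      fun_prop
    · filter_upwards with u
      rw [norm_mul, Complex.norm_real, Real.norm_of_nonneg (fq_nonneg a u)]
      exact mul_le_mul_of_nonneg_right (fq_le a u) (norm_nonneg _)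
  have h1 : ∫ u in Ioi (0:ℝ), ((fq a u - 1 : ℝ) : ℂ) * Complex.exp (-(s * u))
      = (∫ u in Ioi (0:ℝ), (fq a u : ℂ) * Complex.exp (-(s * u)))
        - ∫ u in Ioi (0:ℝ), Complex.exp (-(s * u)) := by
    rw [← integral_sub i1 i2]
    congr 1
    ext u
    push_cast
    ring
  have h2 := LSeries_eq_int a hs
  have h3 : ∫ u in Ioi (0:ℝ), (fq a u : ℂ) * Complex.exp (-(s * u))
      = (q.totient : ℂ) * LSeries (fun n => (residueClass a n : ℂ)) (1 + s) / (1 + s) := by
    rw [h2]
    field_simp
  have h5 : LFunctionResidueClassAux a (1 + s) =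
      LSeries (fun n => (residueClass a n : ℂ)) (1 + s) - (q.totient : ℂ)⁻¹ / ((1 + s) - 1) :=
    eqOn_LFunctionResidueClassAux ha (show 1 < (1 + s).re by simpa using hs)
  rw [h1, h3, e2]
  unfold G
  rw [h5]
  have : (1 + s - 1) = s := by ring
  rw [this]
  field_simp
  ring

lemma fq_tendsto (ha : IsUnit a) : Tendsto (fq a) atTop (𝓝 1) := by
  refine H70PNT.tauber (C := (q.totient : ℝ) * (Real.log 4 + 4)) (fq_measurable a) (fq_nonneg a)
    (fq_le a) (fq_mono a) ?_
  intro lam hlam
  refine H70PNT.smoothed_tendsto_zero (b := fun u => fq a u - 1)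
    (C := (q.totient : ℝ) * (Real.log 4 + 4) + 1) (G := G a) ?_ ?_
    (G_cont a) (fun s hs => laplace ha hs) hlam
  · exact (fq_measurable a).sub_const 1
  · intro u
    have h1 := fq_nonneg a u
    have h2 := fq_le a u
    have h3 : 0 ≤ (q.totient : ℝ) * (Real.log 4 + 4) := h1.trans h2
    rw [abs_le]
    constructor <;> linarith

/-- Prime number theorem for progressions. -/
theorem P_tendsto (ha : IsUnit a) :
    Tendsto (fun x : ℝ => (q.totient : ℝ) * P a x / x) atTop (𝓝 1) := by
  have h := (fq_tendsto ha).comp Real.tendsto_log_atTop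
  refine h.congr' ?_
  filter_upwards [eventually_gt_atTop 0] with x hx
  simp only [Function.comp, fq]
  rw [Real.exp_neg, Real.exp_log hx, div_eq_mul_inv]

lemma psi_sub_theta : Tendsto (fun x : ℝ => (ψ x - θ x) / x) atTop (𝓝 0) := by
  have h := H70PNT.psi_tendsto.sub H70PNT.theta_tendsto
  rw [sub_self] at h
  refine h.congr (fun x => ?_)
  ring

lemma LL_nonneg (m : ℕ) : 0 ≤ LL m := by
  unfold LL
  split_ifs with h
  · exact Real.log_nonneg (by exact_mod_cast h.one_lt.le)
  · exact le_rfl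

lemma LL_le (m : ℕ) : LL m ≤ Λ m := by
  unfold LL
  split_ifs with h
  · rw [ArithmeticFunction.vonMangoldt_apply_prime h]
  · exact ArithmeticFunction.vonMangoldt_nonneg

lemma psi_sub_theta_eq (M : ℕ) : ψ (M : ℝ) - θ (M : ℝ) = ∑ m ∈ Finset.Icc 1 M, (Λ m - LL m) := by
  rw [Finset.sum_sub_distrib]
  congr 1
  · unfold Chebyshev.psi
    rw [Nat.floor_natCast]
    rfl
  · unfold Chebyshev.theta
    rw [Nat.floor_natCast]
    unfold LL
    rw [Finset.sum_ite, Finset.sum_const_zero, add_zero]
    rfl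

/-- The sum over primes in the class is the difference of `P`, up to prime powers. -/
lemma key (c N M : ℕ) (h : N ≤ M) :
    P (q := q) (c : ZMod q) M - P (q := q) (c : ZMod q) N - (ψ (M : ℝ) - θ (M : ℝ)) ≤
      ∑ m ∈ (Finset.Ioc N M).filter (fun m => m ≡ c [MOD q]), LL m := by
  classical
  have h1 : P (q := q) (c : ZMod q) M - P (q := q) (c : ZMod q) N =
      ∑ m ∈ Finset.Ioc N M, residueClass (c : ZMod q) m := by
    unfold P
    rw [Nat.floor_natCast, Nat.floor_natCast]
    have h2 : Finset.Icc 1 M = Finset.Icc 1 N ∪ Finset.Ioc N M := by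
      ext m
      simp only [Finset.mem_Icc, Finset.mem_union, Finset.mem_Ioc]
      omega
    rw [h2, Finset.sum_union]
    · ring
    · rw [Finset.disjoint_left]
      intro m hm hm'
      simp only [Finset.mem_Icc, Finset.mem_Ioc] at hm hm'
      omega
  have h3 : ∑ m ∈ Finset.Ioc N M, residueClass (c : ZMod q) m =
      ∑ m ∈ (Finset.Ioc N M).filter (fun m => m ≡ c [MOD q]), Λ m := by
    rw [Finset.sum_filter]
    refine Finset.sum_congr rfl (fun m _ => ?_)
    unfold residueClass
    rw [Set.indicator_apply]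
    simp only [Set.mem_ofPred_eq, ZMod.natCast_eq_natCast_iff]
  rw [h1, h3, psi_sub_theta_eq]
  have h4 : ∑ m ∈ (Finset.Ioc N M).filter (fun m => m ≡ c [MOD q]), (Λ m - LL m) ≤
      ∑ m ∈ Finset.Icc 1 M, (Λ m - LL m) := by
    refine Finset.sum_le_sum_of_subset_of_nonneg ?_ (fun m _ _ => sub_nonneg.mpr (LL_le m))
    intro m hm
    simp only [Finset.mem_filter, Finset.mem_Ioc, Finset.mem_Icc] at hm ⊢
    omega
  rw [Finset.sum_sub_distrib] at h4
  linarith

end

end PNT

open Finset in
theorem t_PNT : S_PNT := by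
  intro q c hq hc
  haveI : NeZero q := ⟨by omega⟩
  have hu : IsUnit (c : ZMod q) := (ZMod.isUnit_iff_coprime c q).mpr hc
  have hφ : 0 < (q.totient : ℝ) := by exact_mod_cast Nat.totient_pos.mpr hq
  have h1 := PNT.P_tendsto hu
  have h2 := PNT.psi_sub_theta
  have e1 : ∀ᶠ x : ℝ in Filter.atTop, |(q.totient : ℝ) * PNT.P (c : ZMod q) x / x - 1| < 1 / 100 := by
    have := (Metric.tendsto_nhds.mp h1) (1 / 100) (by norm_num)
    refine this.mono (fun x hx => ?_)
    rwa [Real.dist_eq] at hx
  have e2 : ∀ᶠ x : ℝ in Filter.atTop,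
      |(Chebyshev.psi x - Chebyshev.theta x) / x| < 1 / (200 * q.totient) := by
    have := (Metric.tendsto_nhds.mp h2) (1 / (200 * q.totient)) (by positivity)
    refine this.mono (fun x hx => ?_)
    rwa [Real.dist_eq, sub_zero] at hx
  obtain ⟨x₀, hx₀⟩ := Filter.eventually_atTop.mp (e1.and e2)
  refine ⟨max ⌈x₀⌉₊ 1000, fun N hN => ?_⟩
  have hN1 : 1000 ≤ N := le_of_max_le_right hN
  have hN2 : x₀ ≤ N := (Nat.le_ceil x₀).trans (by exact_mod_cast le_of_max_le_left hN)
  set M := N + N / 10 with hM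
  have hNM : N ≤ M := by omega
  have hMr : (M : ℝ) ≤ 1.1 * N := by
    have : 10 * M ≤ 11 * N := by omega
    have : (10 : ℝ) * M ≤ 11 * N := by exact_mod_cast this
    linarith
  have hMl : 1.1 * (N : ℝ) - 1 ≤ M := by
    have : 11 * N ≤ 10 * M + 10 := by omega
    have : (11 : ℝ) * N ≤ 10 * M + 10 := by exact_mod_cast this
    linarith
  have hNr : (1000 : ℝ) ≤ N := by exact_mod_cast hN1
  have hNp : (0 : ℝ) < N := by linarith
  have hMp : (0 : ℝ) < M := by linarith
  obtain ⟨a1, -⟩ := hx₀ N hN2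
  obtain ⟨b1, b2⟩ := hx₀ M (hN2.trans (by exact_mod_cast hNM))
  rw [abs_lt] at a1 b1 b2
  have hPN : (q.totient : ℝ) * PNT.P (c : ZMod q) N ≤ 1.01 * N := by
    have := a1.2
    rw [sub_lt_iff_lt_add, div_lt_iff₀ hNp] at this
    linarith
  have hPM : 0.99 * M ≤ (q.totient : ℝ) * PNT.P (c : ZMod q) M := by
    have := b1.1
    rw [lt_sub_iff_add_lt, lt_div_iff₀ hMp] at this
    linarith
  have hpow : (q.totient : ℝ) * (Chebyshev.psi M - Chebyshev.theta M) ≤ M / 200 := by
    have := b2.2
    rw [div_lt_iff₀ hMp] at this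
    calc (q.totient : ℝ) * (Chebyshev.psi M - Chebyshev.theta M) ≤
        (q.totient : ℝ) * (1 / (200 * q.totient) * M) := by gcongr
      _ = M / 200 := by field_simp
  have hk := PNT.key (q := q) c N M hNM
  refine le_trans ?_ hk
  rw [div_le_iff₀ (by positivity)]
  have : (PNT.P (c : ZMod q) M - PNT.P (c : ZMod q) N -
      (Chebyshev.psi M - Chebyshev.theta M)) * (20 * q.totient) =
      20 * ((q.totient : ℝ) * PNT.P (c : ZMod q) M - (q.totient : ℝ) * PNT.P (c : ZMod q) N -
        (q.totient : ℝ) * (Chebyshev.psi M - Chebyshev.theta M)) := by ring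
  rw [this]
  nlinarith

end MUR
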