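import Mathlib
import Pool.Agent.MUR.StC
import Pool.Agent.Lib_helper70.PNT.PNT

set_option autoImplicit false

namespace MUR

open Finset
open Pool.Agent.Lib_helper83.EF (e)

noncomputable section

namespace PS

lemma pc_split (n : ℕ) : Nat.primeCounting (2 * n) =
    Nat.primeCounting n + ((Ioc n (2 * n)).filter Nat.Prime).card := by
  have h : ∀ m, Nat.primeCounting m = ((range (m + 1)).filter Nat.Prime).card := by
    intro m
    rw [Nat.primeCounting, Nat.primeCounting', Nat.count_eq_card_filter_range]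
  rw [h, h, ← Finset.card_union_of_disjoint]
  · congr 1
    ext p
    simp only [mem_filter, mem_range, mem_union, mem_Ioc]
    constructor
    · rintro ⟨h1, h2⟩
      by_cases h3 : p ≤ n
      · left; exact ⟨by omega, h2⟩
      · right; exact ⟨by omega, h2⟩
    · rintro (⟨h1, h2⟩ | ⟨h1, h2⟩)
      · exact ⟨by omega, h2⟩
      · exact ⟨by omega, h2⟩
  · rw [Finset.disjoint_left]
    intro p hp hq
    simp only [mem_filter, mem_range, mem_Ioc] at hp hq
    omega

open Filter Topology in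
lemma many : ∀ᶠ n : ℕ in atTop, (n : ℝ) / (2 * Real.log n) ≤
    (((Ioc n (2 * n)).filter Nat.Prime).card : ℝ) := by
  have h0 := H70PNT.pi_tendsto
  have h1 : ∀ᶠ x : ℝ in atTop, (Nat.primeCounting ⌊x⌋₊ : ℝ) * Real.log x / x ∈ Set.Ioo (0.9 : ℝ) 1.1 :=
    h0.eventually (Ioo_mem_nhds (by norm_num) (by norm_num))
  have h2 : ∀ᶠ n : ℕ in atTop, (Nat.primeCounting ⌊((n : ℕ) : ℝ)⌋₊ : ℝ) * Real.log n / n ∈
      Set.Ioo (0.9 : ℝ) 1.1 := tendsto_natCast_atTop_atTop.eventually h1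
  have h3 : ∀ᶠ n : ℕ in atTop, (Nat.primeCounting ⌊((2 * n : ℕ) : ℝ)⌋₊ : ℝ) *
      Real.log ((2 * n : ℕ) : ℝ) / ((2 * n : ℕ) : ℝ) ∈ Set.Ioo (0.9 : ℝ) 1.1 :=
    (tendsto_natCast_atTop_atTop.comp
      (tendsto_id.const_mul_atTop' (by norm_num : 0 < 2))).eventually h1
  have h4 : ∀ᶠ n : ℕ in atTop, (20 : ℝ) ≤ Real.log n :=
    (Real.tendsto_log_atTop.comp tendsto_natCast_atTop_atTop).eventually_ge_atTop 20
  filter_upwards [h2, h3, h4, eventually_ge_atTop 1] with n a2 a3 a4 a5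
  rw [Nat.floor_natCast] at a2 a3
  have hn : (0 : ℝ) < n := by exact_mod_cast a5
  have hL : (0 : ℝ) < Real.log n := by linarith
  have hs := pc_split n
  have hs' : (Nat.primeCounting (2 * n) : ℝ) = Nat.primeCounting n +
    (((Ioc n (2 * n)).filter Nat.Prime).card : ℝ) := by exact_mod_cast hs
  have hl2 : Real.log ((2 * n : ℕ) : ℝ) = Real.log 2 + Real.log n := by
    push_cast
    rw [Real.log_mul (by norm_num) hn.ne']
  have hlog2 : Real.log 2 < 0.7 := by linarith [Real.log_two_lt_d9]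
  have hlog2' : 0 < Real.log 2 := Real.log_pos (by norm_num)
  have b2 : (Nat.primeCounting n : ℝ) * Real.log n < 1.1 * n := by
    have := a2.2
    rwa [div_lt_iff₀ hn] at this
  have b3 : 0.9 * (2 * (n : ℝ)) < (Nat.primeCounting (2 * n) : ℝ) * (Real.log 2 + Real.log n) := by
    have := a3.1
    rw [lt_div_iff₀ (by push_cast; linarith), hl2] at this
    push_cast at this
    linarith
  have b4 : (Nat.primeCounting (2 * n) : ℝ) * (Real.log 2 + Real.log n) ≤
      (Nat.primeCounting (2 * n) : ℝ) * (1.1 * Real.log n) := by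
    apply mul_le_mul_of_nonneg_left _ (Nat.cast_nonneg _)
    linarith
  rw [div_le_iff₀ (by linarith)]
  nlinarith

/-- The class modulo `l` of the `j` with `l ∣ c + k j`. -/
lemma exists_class (k c l : ℕ) (hk : 1 ≤ k) (hc : c < k) (hl : l.Prime) (hlk : ¬ l ∣ k) :
    ∃ j : ℕ, l ∣ c + k * j := by
  have hco : Nat.Coprime k l := ((Nat.Prime.coprime_iff_not_dvd hl).2 hlk).symm
  obtain ⟨x, hx1, hx2⟩ := Nat.chineseRemainder hco c 0
  refine ⟨x / k, ?_⟩
  have h1 : x % k = c := by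
    have := hx1
    rw [Nat.ModEq, Nat.mod_eq_of_lt hc] at this
    exact this
  have h2 : c + k * (x / k) = x := by
    rw [← h1]
    exact Nat.mod_add_div x k
  rw [h2]
  exact (Nat.modEq_zero_iff_dvd).1 hx2

lemma trig_one : Trig 1 1 (fun _ => (1 : ℂ)) := by
  refine ⟨fun _ _ => 1, fun w => ?_⟩
  have h1 : smo 1 1 = {1} := by
    ext q
    simp only [smo, mem_filter, mem_Icc, mem_singleton]
    constructor
    · rintro ⟨⟨h1, h2⟩, -⟩
      omega
    · rintro rfl
      simp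
  have h2 : cop 1 = {0} := by
    ext q
    simp only [cop, mem_filter, mem_range, mem_singleton]
    constructor
    · rintro ⟨h1, h2⟩
      omega
    · rintro rfl
      simp
  rw [h1, sum_singleton, h2, sum_singleton]
  simp [e]

lemma cls_small (C : ℝ) (hC : ∀ (R G z k L w₀ : ℕ) (S : Finset ℕ) (ρ : ℕ → ℕ) (g : ℕ → ℂ),
    1 ≤ R → 1 ≤ G → 1 ≤ k → 2 ≤ z → 16 * (G * z) ^ 4 ≤ L → S ⊆ Ioc w₀ (w₀ + L) →
    (∀ l : ℕ, l.Prime → R < l → l ≤ z → ¬ l ∣ k → ∀ w ∈ S, ¬ w ≡ ρ l [MOD l]) → Trig G R g →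
    ∑ w ∈ S, ‖g w‖ ^ 2 ≤ C * Real.log (R + 1) * ((k : ℝ) / k.totient) / Real.log z *
      ∑ w ∈ Ioc w₀ (w₀ + L), ‖g w‖ ^ 2)
    (Q h k c z : ℕ) (hk : 1 ≤ k) (hkQ : k ≤ Q) (hz : 2 ≤ z) (hzQ : z ≤ Q) (hzh : 16 * z ^ 4 ≤ h / k)
    (P : Finset ℕ) (hpr : ∀ p ∈ P, p.Prime) (hlo : ∀ p ∈ P, Q < p) (hhi : ∀ p ∈ P, p ≤ Q + h) :
    ((P.filter (fun p => p ≡ c [MOD k])).card : ℝ) ≤
      C * Real.log 2 * ((k : ℝ) / k.totient) / Real.log z * ((h / k + 2 : ℕ) : ℝ) := by
  classical
  set T := P.filter (fun p => p ≡ c [MOD k]) with hT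
  set c₀ := c % k with hc₀
  have hc₀k : c₀ < k := Nat.mod_lt _ hk
  have hTm : ∀ p ∈ T, c₀ + k * (p / k) = p := by
    intro p hp
    rw [hT, mem_filter] at hp
    have h1 : p % k = c₀ := hp.2
    rw [← h1]
    exact Nat.mod_add_div p k
  have hinj : Set.InjOn (fun p => p / k) (T : Set ℕ) := by
    intro p hp q hq hpq
    have h1 := hTm p hp
    have h2 := hTm q hq
    simp only at hpq
    rw [← h1, ← h2, hpq]
  have hcard : (T.image (fun p => p / k)).card = T.card := card_image_of_injOn hinj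
  have hQk : 1 ≤ Q / k := (Nat.one_le_div_iff hk).2 hkQ
  have key := hC 1 1 z k (h / k + 2) (Q / k - 1) (T.image (fun p => p / k))
    (fun l => if hh : ∃ j : ℕ, l ∣ c₀ + k * j then hh.choose else 0) (fun _ => 1)
    le_rfl le_rfl hk hz (by rw [one_mul]; omega) ?_ ?_ trig_one
  · simp only [norm_one, one_pow, sum_const, nsmul_eq_mul, mul_one, hcard, Nat.card_Ioc] at key
    have e1 : Q / k - 1 + (h / k + 2) - (Q / k - 1) = h / k + 2 := by omega
    rw [e1] at key
    have e2 : (((1 : ℕ) : ℝ) + 1) = 2 := by norm_num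
    rw [e2] at key
    exact key
  · intro j hj
    rw [mem_image] at hj
    obtain ⟨p, hp, rfl⟩ := hj
    have hpP : p ∈ P := (mem_filter.1 hp).1
    have h1 : Q / k ≤ p / k := Nat.div_le_div_right (hlo p hpP).le
    have h2 : p / k ≤ Q / k + h / k + 1 := by
      have h3 : p / k ≤ (Q + h) / k := Nat.div_le_div_right (hhi p hpP)
      have h4 : (Q + h) / k ≤ Q / k + h / k + 1 := by
        have hQ := Nat.div_add_mod Q k
        have hh := Nat.div_add_mod h k
        have m1 := Nat.mod_lt Q hk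
        have m2 := Nat.mod_lt h hk
        have : (Q + h) < k * (Q / k + h / k + 2) := by nlinarith
        have := Nat.div_lt_of_lt_mul this
        omega
      omega
    rw [mem_Ioc]
    constructor
    · omega
    · omega
  · intro l hl _ hlz hlk w hw hmod
    have hex := exists_class k c₀ l hk hc₀k hl hlk
    simp only [dif_pos hex] at hmod
    have hsp := hex.choose_spec
    rw [mem_image] at hw
    obtain ⟨p, hp, rfl⟩ := hw
    have hpP : p ∈ P := (mem_filter.1 hp).1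
    have h1 : c₀ + k * (p / k) ≡ c₀ + k * hex.choose [MOD l] := (hmod.mul_left k).add_left c₀
    rw [hTm p hp] at h1
    have h2 : l ∣ p := (Nat.modEq_zero_iff_dvd).1 (h1.trans ((Nat.modEq_zero_iff_dvd).2 hsp))
    have h3 := (Nat.prime_dvd_prime_iff_eq hl (hpr p hpP)).1 h2
    have h4 := hlo p hpP
    omega

lemma cls_triv (Q h k c : ℕ) (hk : 1 ≤ k)
    (P : Finset ℕ) (hlo : ∀ p ∈ P, Q < p) (hhi : ∀ p ∈ P, p ≤ Q + h) :
    (P.filter (fun p => p ≡ c [MOD k])).card ≤ h / k + 2 := by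
  classical
  set T := P.filter (fun p => p ≡ c [MOD k]) with hT
  have hTm : ∀ p ∈ T, c % k + k * (p / k) = p := by
    intro p hp
    rw [hT, mem_filter] at hp
    have h1 : p % k = c % k := hp.2
    rw [← h1]
    exact Nat.mod_add_div p k
  have hinj : Set.InjOn (fun p => p / k) (T : Set ℕ) := by
    intro p hp q hq hpq
    have h1 := hTm p hp
    have h2 := hTm q hq
    simp only at hpq
    rw [← h1, ← h2, hpq]
  have hcard : (T.image (fun p => p / k)).card = T.card := card_image_of_injOn hinj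
  have hsub : T.image (fun p => p / k) ⊆ Icc (Q / k) (Q / k + h / k + 1) := by
    intro j hj
    rw [mem_image] at hj
    obtain ⟨p, hp, rfl⟩ := hj
    have hpP : p ∈ P := (mem_filter.1 hp).1
    have h1 : Q / k ≤ p / k := Nat.div_le_div_right (hlo p hpP).le
    have h3 : p / k ≤ (Q + h) / k := Nat.div_le_div_right (hhi p hpP)
    have h4 : (Q + h) / k ≤ Q / k + h / k + 1 := by
      have hQ := Nat.div_add_mod Q k
      have hh := Nat.div_add_mod h k
      have m1 := Nat.mod_lt Q hk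
      have m2 := Nat.mod_lt h hk
      have : (Q + h) < k * (Q / k + h / k + 2) := by nlinarith
      have := Nat.div_lt_of_lt_mul this
      omega
    rw [mem_Icc]
    exact ⟨h1, h3.trans h4⟩
  have := card_le_card hsub
  rw [hcard, Nat.card_Icc] at this
  generalize h / k = m at *
  generalize Q / k = m' at *
  omega

open Filter Topology in
lemma large : ∃ q₁ : ℕ, 3 ≤ q₁ ∧ ∀ Q : ℕ, q₁ ≤ Q → 4 ≤ (Q : ℝ) ^ (1 / 48 : ℝ) ∧
    Real.log Q ≤ (Q : ℝ) ^ (1 / 48 : ℝ) := by
  have h1 : ∀ᶠ x : ℝ in atTop, 4 ≤ x ^ (1 / 48 : ℝ) :=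
    (tendsto_rpow_atTop (by norm_num : (0 : ℝ) < 1 / 48)).eventually_ge_atTop 4
  have h2 : ∀ᶠ x : ℝ in atTop, ‖Real.log x‖ ≤ 1 * ‖x ^ (1 / 48 : ℝ)‖ :=
    (isLittleO_log_rpow_atTop (by norm_num : (0 : ℝ) < 1 / 48)).bound (by norm_num)
  have h3 : ∀ᶠ Q : ℕ in atTop, 4 ≤ (Q : ℝ) ^ (1 / 48 : ℝ) ∧
      Real.log Q ≤ (Q : ℝ) ^ (1 / 48 : ℝ) := by
    filter_upwards [tendsto_natCast_atTop_atTop.eventually h1,
      tendsto_natCast_atTop_atTop.eventually h2] with Q a1 a2
    refine ⟨a1, ?_⟩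
    rw [one_mul] at a2
    have : (0 : ℝ) ≤ (Q : ℝ) ^ (1 / 48 : ℝ) := Real.rpow_nonneg (Nat.cast_nonneg _) _
    rw [Real.norm_of_nonneg this] at a2
    exact (Real.le_norm_self _).trans a2
  obtain ⟨q, hq⟩ := eventually_atTop.1 h3
  exact ⟨max q 3, le_max_right _ _, fun Q hQ => hq Q ((le_max_left _ _).trans hQ)⟩

end PS

theorem t_PS : M_PS := by
  intro hLSS
  obtain ⟨CL, hCL, hC⟩ := hLSS
  obtain ⟨q₁, hq₁3, hq₁⟩ := PS.large
  obtain ⟨q₂, hq₂⟩ := Filter.eventually_atTop.1 PS.many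
  refine ⟨8 + 192 * CL, by positivity, max q₁ q₂, ?_⟩
  intro Q₀ J hQ₀ hJ1 hJlog
  have hQ₁ : q₁ ≤ Q₀ := (le_max_left _ _).trans hQ₀
  have hQ₂ : q₂ ≤ Q₀ := (le_max_right _ _).trans hQ₀
  have hmany := hq₂ Q₀ hQ₂
  have hQ₀pos : 3 ≤ Q₀ := hq₁3.trans hQ₁
  have hQ₀r : (3 : ℝ) ≤ Q₀ := by exact_mod_cast hQ₀pos
  have hlog0 : 1 ≤ Real.log Q₀ := by
    have : Real.log (Real.exp 1) ≤ Real.log Q₀ := by
      apply Real.log_le_log (Real.exp_pos 1)
      linarith [Real.exp_one_lt_d9]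
    rwa [Real.log_exp] at this
  have hJr : (1 : ℝ) ≤ J := by exact_mod_cast hJ1
  have hJpos : 0 < J := hJ1
  -- the pigeonhole
  set h := Q₀ / J with hh
  have hJQ₀ : J ≤ Q₀ := by
    have h1 : (J : ℝ) ≤ Q₀ := hJlog.trans ((Real.log_le_sub_one_of_pos (by linarith)).trans (by linarith))
    exact_mod_cast h1
  have hh1 : 1 ≤ h := (Nat.one_le_div_iff hJpos).2 hJQ₀
  have hhJ : Q₀ < J * (h + 1) := by
    have := Nat.lt_mul_div_succ Q₀ hJpos
    exact this
  have h2J : Q₀ ≤ 2 * J * h := by nlinarith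
  set N := (Ioc Q₀ (2 * Q₀)).filter Nat.Prime with hN
  set f : ℕ → ℕ := fun p => (p - Q₀ - 1) / h with hf
  have hmaps : ∀ p ∈ N, f p ∈ range (2 * J) := by
    intro p hp
    rw [hN, mem_filter, mem_Ioc] at hp
    rw [mem_range, hf]
    apply Nat.div_lt_of_lt_mul
    have : h * (2 * J) = 2 * J * h := by ring
    omega
  have hne : (range (2 * J)).Nonempty := ⟨0, by rw [mem_range]; omega⟩
  set b : ℝ := (Q₀ : ℝ) / (2 * Real.log Q₀) / (2 * J) with hb
  have hbc : (range (2 * J)).card • b ≤ (N.card : ℝ) := by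
    rw [card_range, nsmul_eq_mul]
    have : ((2 * J : ℕ) : ℝ) * b = (Q₀ : ℝ) / (2 * Real.log Q₀) := by
      rw [hb]; push_cast; field_simp
    rw [this]
    exact hmany
  obtain ⟨i, _, hi⟩ := exists_le_card_fiber_of_nsmul_le_card_of_maps_to hmaps hne hbc
  set P := N.filter (fun p => f p = i) with hP
  set Q := Q₀ + i * h with hQ
  have hbpos : 0 < b := by rw [hb]; positivity
  have hPmem : ∀ p ∈ P, p.Prime ∧ Q < p ∧ p ≤ Q + h ∧ p ≤ 2 * Q₀ := by
    intro p hp
    rw [hP, mem_filter, hN, mem_filter, mem_Ioc] at hp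
    obtain ⟨⟨⟨a1, a2⟩, a3⟩, a4⟩ := hp
    simp only [hf] at a4
    have a5 := Nat.div_add_mod (p - Q₀ - 1) h
    have a6 := Nat.mod_lt (p - Q₀ - 1) (show 0 < h by omega)
    rw [a4] at a5
    have a7 : h * i = i * h := mul_comm _ _
    refine ⟨a3, ?_, ?_, a2⟩
    · rw [hQ]; omega
    · rw [hQ]; omega
  have hPne : P.Nonempty := by
    rw [← card_pos]
    have : (0 : ℝ) < P.card := lt_of_lt_of_le hbpos hi
    exact_mod_cast this
  obtain ⟨p₀, hp₀⟩ := hPne
  have hQ2 : Q ≤ 2 * Q₀ := by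
    have := hPmem p₀ hp₀
    omega
  have hQ0Q : Q₀ ≤ Q := by rw [hQ]; omega
  have hQr : (Q : ℝ) ≤ 2 * Q₀ := by exact_mod_cast hQ2
  have hQ0r : (Q₀ : ℝ) ≤ Q := by exact_mod_cast hQ0Q
  have hQpos : (0 : ℝ) < Q := by linarith
  have hlogQ : Real.log Q₀ ≤ Real.log Q := Real.log_le_log (by linarith) hQ0r
  obtain ⟨hu4, hlogu⟩ := hq₁ Q (hQ₁.trans hQ0Q)
  set u : ℝ := (Q : ℝ) ^ (1 / 48 : ℝ) with hu
  have hupos : 0 < u := by linarith
  have hu1 : 1 ≤ u := by linarith
  have hu48 : (Q : ℝ) = u ^ 48 := by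
    rw [hu, ← Real.rpow_natCast, ← Real.rpow_mul hQpos.le]
    norm_num
  have hQ13 : (Q : ℝ) ^ (-(1 / 3 : ℝ)) = 1 / u ^ 16 := by
    rw [Real.rpow_neg hQpos.le, one_div (u ^ 16)]
    congr 1
    rw [hu, ← Real.rpow_natCast, ← Real.rpow_mul hQpos.le]
    norm_num
  have hJu : (J : ℝ) ≤ u := hJlog.trans (hlogQ.trans hlogu)
  have hlog0u : Real.log Q₀ ≤ u := hlogQ.trans hlogu
  -- bounds for h
  have hhle : (h : ℝ) ≤ Q₀ / J := Nat.cast_div_le
  have hhge : (Q₀ : ℝ) / J - 1 < h := by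
    have h1 : (Q₀ : ℝ) < J * (h + 1) := by exact_mod_cast hhJ
    rw [sub_lt_iff_lt_add, div_lt_iff₀ (by linarith)]
    linarith
  have hhQ : (h : ℝ) ≤ Q := by
    refine hhle.trans ((div_le_self (by linarith) hJr).trans hQ0r)
  have hPb : b ≤ P.card := hi
  have hbJ : b = (Q₀ : ℝ) / (4 * (J * Real.log Q₀)) := by
    rw [hb, div_div]
    congr 1
    ring
  have hJl : (0 : ℝ) < J * Real.log Q₀ := by positivity
  refine ⟨Q, P, hQ0Q, hQ2, ⟨fun p hp => (hPmem p hp).1, fun p hp => (hPmem p hp).2.1, ?_, ?_, ?_⟩⟩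
  · intro p hp
    have h1 := (hPmem p hp).2.2.1
    have h2 : h ≤ Q / J := Nat.div_le_div_right hQ0Q
    omega
  · -- card
    have h1 : (Q₀ : ℝ) / 4 ≤ J * Real.log Q * P.card := by
      calc (Q₀ : ℝ) / 4 = (J * Real.log Q₀) * b := by rw [hbJ]; field_simp
        _ ≤ (J * Real.log Q) * P.card := by
            apply mul_le_mul _ hPb hbpos.le (by positivity)
            exact mul_le_mul_of_nonneg_left hlogQ (by linarith)
    have h2 : (0 : ℝ) ≤ J * Real.log Q * P.card :=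
      mul_nonneg (mul_nonneg (by linarith) (by linarith)) (Nat.cast_nonneg _)
    have h3 : (8 : ℝ) * (J * Real.log Q * P.card) ≤ (8 + 192 * CL) * (J * Real.log Q * P.card) := by
      apply mul_le_mul_of_nonneg_right _ h2
      linarith
    calc (Q : ℝ) ≤ 8 * (J * Real.log Q * P.card) := by linarith
      _ ≤ (8 + 192 * CL) * (J * Real.log Q * P.card) := h3
      _ = (8 + 192 * CL) * J * Real.log Q * P.card := by ring
  · intro k c hk
    have hφ : 0 < k.totient := Nat.totient_pos.2 hk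
    have hφr : (0 : ℝ) < k.totient := by exact_mod_cast hφ
    have hkr : (0 : ℝ) < k := by exact_mod_cast hk
    have hcardnn : (0 : ℝ) ≤ P.card := Nat.cast_nonneg _
    by_cases hkQ : (k : ℝ) ≤ u ^ 24
    · -- small k
      set z := ⌈u ^ 3⌉₊ with hz
      have hz1 : u ^ 3 ≤ z := Nat.le_ceil _
      have hz2 : (z : ℝ) < u ^ 3 + 1 := Nat.ceil_lt_add_one (by positivity)
      have hu3 : (64 : ℝ) ≤ u ^ 3 := by
        calc (64 : ℝ) = 4 ^ 3 := by norm_num
          _ ≤ u ^ 3 := pow_le_pow_left₀ (by norm_num) hu4 3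
      have hz3 : (z : ℝ) ≤ 2 * u ^ 3 := by linarith
      have hz2' : 2 ≤ z := by
        have : (2 : ℝ) ≤ z := by linarith
        exact_mod_cast this
      have hz4 : (16 : ℝ) * (z : ℝ) ^ 4 ≤ 256 * u ^ 12 := by
        have : (z : ℝ) ^ 4 ≤ (2 * u ^ 3) ^ 4 := pow_le_pow_left₀ (Nat.cast_nonneg _) hz3 4
        calc (16 : ℝ) * (z : ℝ) ^ 4 ≤ 16 * (2 * u ^ 3) ^ 4 := by linarith
          _ = 256 * u ^ 12 := by ring
      have hhu : 256 * u ^ 36 ≤ (h : ℝ) := by
        have h1 : u ^ 47 / 2 ≤ (Q₀ : ℝ) / J := by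
          rw [le_div_iff₀ (by linarith)]
          calc u ^ 47 / 2 * J ≤ u ^ 47 / 2 * u := mul_le_mul_of_nonneg_left hJu (by positivity)
            _ = u ^ 48 / 2 := by ring
            _ = Q / 2 := by rw [hu48]
            _ ≤ Q₀ := by linarith
        have h2 : (4194304 : ℝ) ≤ u ^ 11 := by
          calc (4194304 : ℝ) = 4 ^ 11 := by norm_num
            _ ≤ u ^ 11 := pow_le_pow_left₀ (by norm_num) hu4 11
        have h3 : u ^ 47 = u ^ 36 * u ^ 11 := by ring
        have h4 : (1 : ℝ) ≤ u ^ 36 := one_le_pow₀ hu1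
        have h5 : u ^ 36 * 4194304 ≤ u ^ 36 * u ^ 11 := mul_le_mul_of_nonneg_left h2 (by positivity)
        linarith
      have hzh : 16 * z ^ 4 ≤ h / k := by
        rw [Nat.le_div_iff_mul_le hk]
        have : ((16 * z ^ 4 * k : ℕ) : ℝ) ≤ h := by
          push_cast
          calc (16 : ℝ) * (z : ℝ) ^ 4 * k ≤ 256 * u ^ 12 * u ^ 24 :=
                mul_le_mul hz4 hkQ hkr.le (by positivity)
            _ = 256 * u ^ 36 := by ring
            _ ≤ h := hhu
        exact_mod_cast this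
      have hkQ' : k ≤ Q := by
        have : (k : ℝ) ≤ Q := by
          rw [hu48]
          exact hkQ.trans (pow_le_pow_right₀ hu1 (by norm_num))
        exact_mod_cast this
      have hzQ : z ≤ Q := by
        have : (z : ℝ) ≤ Q := by
          rw [hu48]
          calc (z : ℝ) ≤ 2 * u ^ 3 := hz3
            _ ≤ u * u ^ 3 := by
                apply mul_le_mul_of_nonneg_right _ (by positivity)
                linarith
            _ = u ^ 4 := by ring
            _ ≤ u ^ 48 := pow_le_pow_right₀ hu1 (by norm_num)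
        exact_mod_cast this
      have key := PS.cls_small CL hC Q h k c z hk hkQ' hz2' hzQ hzh P
        (fun p hp => (hPmem p hp).1) (fun p hp => (hPmem p hp).2.1) (fun p hp => (hPmem p hp).2.2.1)
      refine key.trans ?_
      have hlogz : Real.log Q / 16 ≤ Real.log z := by
        have h1 : Real.log (u ^ 3) ≤ Real.log z := Real.log_le_log (by positivity) hz1
        have h2 : Real.log (u ^ 3) = Real.log Q / 16 := by
          rw [Real.log_pow, hu, Real.log_rpow hQpos]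
          push_cast
          ring
        linarith
      have hlogQpos : 0 < Real.log Q := by linarith
      have hhk1 : 1 ≤ h / k := by
        have : 1 ≤ 16 * z ^ 4 := by
          have := Nat.one_le_two_pow (n := 0)
          have h0 : 0 < z ^ 4 := by positivity
          omega
        omega
      have hhk3 : ((h / k + 2 : ℕ) : ℝ) ≤ 3 * ((h : ℝ) / k) := by
        have h1 : ((h / k + 2 : ℕ) : ℝ) ≤ ((3 * (h / k) : ℕ) : ℝ) := by
          exact_mod_cast (by omega : h / k + 2 ≤ 3 * (h / k))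
        have h2 : ((h / k : ℕ) : ℝ) ≤ (h : ℝ) / k := Nat.cast_div_le
        push_cast at h1 ⊢
        linarith
      have hlog2 : Real.log 2 ≤ 1 := by linarith [Real.log_two_lt_d9]
      have hlog2' : 0 ≤ Real.log 2 := Real.log_nonneg (by norm_num)
      have hhP : (h : ℝ) / Real.log Q ≤ 4 * P.card := by
        have h1 : (h : ℝ) / Real.log Q ≤ (Q₀ / J) / Real.log Q₀ := by
          apply div_le_div₀ (by positivity) hhle (by linarith) hlogQ
        have h2 : ((Q₀ : ℝ) / J) / Real.log Q₀ = 4 * b := by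
          rw [hbJ, div_div, mul_div_assoc', mul_div_mul_left _ _ (by norm_num)]
        linarith
      calc CL * Real.log 2 * ((k : ℝ) / k.totient) / Real.log z * ((h / k + 2 : ℕ) : ℝ)
          ≤ CL * 1 * ((k : ℝ) / k.totient) / (Real.log Q / 16) * (3 * ((h : ℝ) / k)) := by
            apply mul_le_mul _ hhk3 (Nat.cast_nonneg _) (by positivity)
            apply div_le_div₀ (by positivity) _ (by positivity) hlogz
            apply mul_le_mul_of_nonneg_right _ (by positivity)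
            exact mul_le_mul_of_nonneg_left hlog2 hCL.le
        _ = 48 * CL * (1 / k.totient) * ((h : ℝ) / Real.log Q) := by
            field_simp
            ring
        _ ≤ 48 * CL * (1 / k.totient) * (4 * P.card) :=
            mul_le_mul_of_nonneg_left hhP (by positivity)
        _ = 192 * CL * P.card * (1 / k.totient) := by ring
        _ ≤ (8 + 192 * CL) * P.card * (1 / (k.totient : ℝ) + (Q : ℝ) ^ (-(1 / 3 : ℝ))) := by
            have h0 : (0 : ℝ) ≤ (Q : ℝ) ^ (-(1 / 3 : ℝ)) := Real.rpow_nonneg hQpos.le _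
            apply mul_le_mul _ (by linarith) (by positivity)
              (mul_nonneg (by linarith) hcardnn)
            apply mul_le_mul_of_nonneg_right _ hcardnn
            linarith
    · -- large k
      push Not at hkQ
      have key := PS.cls_triv Q h k c hk P (fun p hp => (hPmem p hp).2.1)
        (fun p hp => (hPmem p hp).2.2.1)
      have key' : ((P.filter (fun p => p ≡ c [MOD k])).card : ℝ) ≤ ((h / k + 2 : ℕ) : ℝ) := by
        exact_mod_cast key
      refine key'.trans ?_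
      have h1 : ((h / k : ℕ) : ℝ) ≤ u ^ 24 := by
        have h2 : ((h / k : ℕ) : ℝ) ≤ (h : ℝ) / k := Nat.cast_div_le
        refine h2.trans ?_
        rw [div_le_iff₀ hkr]
        calc (h : ℝ) ≤ Q := hhQ
          _ = u ^ 24 * u ^ 24 := by rw [hu48]; ring
          _ ≤ u ^ 24 * k := mul_le_mul_of_nonneg_left hkQ.le (by positivity)
      have h3 : u ^ 46 / 8 ≤ (P.card : ℝ) := by
        refine le_trans ?_ hPb
        rw [hbJ, le_div_iff₀ (by positivity)]
        have h4 : (J : ℝ) * Real.log Q₀ ≤ u * u := mul_le_mul hJu hlog0u (by linarith) hupos.le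
        calc u ^ 46 / 8 * (4 * (J * Real.log Q₀)) ≤ u ^ 46 / 8 * (4 * (u * u)) := by
              apply mul_le_mul_of_nonneg_left _ (by positivity)
              linarith
          _ = u ^ 48 / 2 := by ring
          _ = Q / 2 := by rw [hu48]
          _ ≤ Q₀ := by linarith
      have h5 : u ^ 24 + 2 ≤ (P.card : ℝ) * (Q : ℝ) ^ (-(1 / 3 : ℝ)) := by
        rw [hQ13]
        have h6 : u ^ 46 / 8 * (1 / u ^ 16) ≤ (P.card : ℝ) * (1 / u ^ 16) :=
          mul_le_mul_of_nonneg_right h3 (by positivity)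
        have h7 : u ^ 46 / 8 * (1 / u ^ 16) = u ^ 24 * u ^ 6 / 8 := by
          have h70 : u ^ 46 = u ^ 24 * u ^ 6 * u ^ 16 := by ring
          have h71 : u ^ 16 ≠ 0 := (pow_pos hupos 16).ne'
          rw [h70, div_mul_div_comm, mul_one, mul_comm (8 : ℝ) (u ^ 16),
            mul_comm (u ^ 24 * u ^ 6) (u ^ 16), mul_div_mul_left _ _ h71]
        have h8 : (4096 : ℝ) ≤ u ^ 6 := by
          calc (4096 : ℝ) = 4 ^ 6 := by norm_num
            _ ≤ u ^ 6 := pow_le_pow_left₀ (by norm_num) hu4 6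
        have h9 : u ^ 24 * 4096 ≤ u ^ 24 * u ^ 6 := mul_le_mul_of_nonneg_left h8 (by positivity)
        have h10 : (1 : ℝ) ≤ u ^ 24 := one_le_pow₀ hu1
        linarith
      calc ((h / k + 2 : ℕ) : ℝ) ≤ u ^ 24 + 2 := by push_cast; linarith
        _ ≤ (P.card : ℝ) * (Q : ℝ) ^ (-(1 / 3 : ℝ)) := h5
        _ ≤ (8 + 192 * CL) * P.card * (1 / (k.totient : ℝ) + (Q : ℝ) ^ (-(1 / 3 : ℝ))) := by
            have h0 : (0 : ℝ) ≤ (Q : ℝ) ^ (-(1 / 3 : ℝ)) := Real.rpow_nonneg hQpos.le _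
            have h6 : (0 : ℝ) ≤ 1 / (k.totient : ℝ) := by positivity
            apply mul_le_mul _ (by linarith) h0 (mul_nonneg (by linarith) hcardnn)
            have h7 : (1 : ℝ) ≤ 8 + 192 * CL := by linarith
            calc (P.card : ℝ) = 1 * P.card := (one_mul _).symm
              _ ≤ (8 + 192 * CL) * P.card := mul_le_mul_of_nonneg_right h7 hcardnn

end

end MUR
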