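import Mathlib
import Pool.Agent.MUR.StE

set_option autoImplicit false

/-!
# Project MUR, module QP: the moduli of the projections
-/

namespace MUR

open Finset IPR
open Pool.Agent.Lib_helper83.EF (e)

noncomputable section

namespace QP

/-- The contribution of one modulus. -/
def term (H : ℕ) (α : ℕ → ℂ) (n q : ℕ) : ℂ :=
  (1 / H : ℂ) * ∑ a ∈ cop q, ft α H (n / H) ((a : ℝ) / q) * e ((n : ℝ) * ((a : ℝ) / q))

lemma PQ_eq (𝒬 : Finset ℕ) (H : ℕ) (α : ℕ → ℂ) (n : ℕ) :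
    PQ 𝒬 H α n = ∑ q ∈ 𝒬, term H α n q := by
  unfold PQ term
  rw [Finset.mul_sum]

lemma le_mul_of_div {q M B : ℕ} (hM : 1 ≤ M) (h : q / q.gcd M ≤ B) : q ≤ M * B := by
  have h1 : q.gcd M * (q / q.gcd M) = q := Nat.mul_div_cancel' (Nat.gcd_dvd_left q M)
  calc q = q.gcd M * (q / q.gcd M) := h1.symm
    _ ≤ M * B := Nat.mul_le_mul (Nat.le_of_dvd hM (Nat.gcd_dvd_right q M)) h

lemma pri_pos (R : ℕ) : 1 ≤ pri R := by
  unfold pri
  exact Nat.one_le_iff_ne_zero.2 (Finset.prod_ne_zero_iff.2 fun p hp =>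
    (mem_filter.1 hp).2.ne_zero)

lemma lcm_ne (R : ℕ) : (Icc 1 R).lcm id ≠ 0 := by
  rw [Ne, Finset.lcm_eq_zero_iff]
  rintro ⟨x, hx, h0⟩
  have h1 := (mem_Icc.1 (Finset.mem_coe.1 hx)).1
  have h2 : x = 0 := h0
  omega

lemma MM1_ne (R : ℕ) : MM1 R ≠ 0 := by
  unfold MM1
  exact mul_ne_zero (by have := pri_pos R; omega) (lcm_ne R)

lemma lt_of_not_dvd {R q : ℕ} (hq : 1 ≤ q) (h : ¬ q ∣ MM1 R) : R < q / q.gcd (pri R) := by
  by_contra hcon
  push Not at hcon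
  apply h
  have h1 : q.gcd (pri R) * (q / q.gcd (pri R)) = q :=
    Nat.mul_div_cancel' (Nat.gcd_dvd_left q _)
  have h2 : 1 ≤ q / q.gcd (pri R) := by
    rcases Nat.eq_zero_or_pos (q / q.gcd (pri R)) with h0 | h0
    · rw [h0, mul_zero] at h1
      omega
    · exact h0
  have h3 : q / q.gcd (pri R) ∣ (Icc 1 R).lcm id :=
    Finset.dvd_lcm (f := id) (mem_Icc.2 ⟨h2, hcon⟩)
  rw [← h1]
  exact Nat.mul_dvd_mul (Nat.gcd_dvd_right q _) h3

lemma sum_QS (R I : ℕ) (f : ℕ → ℂ) :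
    ∑ q ∈ (Icc 1 (pri R * (R * 2 ^ I))).filter
      (fun q => ¬ q ∣ MM1 R ∧ q / q.gcd (pri R) ≤ R * 2 ^ I), f q =
    ∑ i ∈ range I, ∑ q ∈ QS (pri R) (MM1 R) (R * 2 ^ i) (2 * (R * 2 ^ i)), f q := by
  classical
  induction I with
  | zero =>
    rw [range_zero, sum_empty]
    refine Finset.sum_eq_zero fun q hq => ?_
    rw [mem_filter, mem_Icc] at hq
    have h1 := lt_of_not_dvd hq.1.1 hq.2.1
    have h2 := hq.2.2
    rw [pow_zero, mul_one] at h2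
    omega
  | succ I ih =>
    rw [sum_range_succ, ← ih, ← Finset.sum_union]
    · congr 1
      ext q
      unfold QS
      simp only [mem_union, mem_filter, mem_Icc]
      have hM := pri_pos R
      have hpow : R * 2 ^ (I + 1) = 2 * (R * 2 ^ I) := by ring
      rw [hpow]
      constructor
      · rintro ⟨⟨h1, _⟩, h3, h4⟩
        rcases le_or_gt (q / q.gcd (pri R)) (R * 2 ^ I) with h5 | h5
        · exact Or.inl ⟨⟨h1, le_mul_of_div hM h5⟩, h3, h5⟩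
        · exact Or.inr ⟨⟨h1, le_mul_of_div hM h4⟩, h3, h5, h4⟩
      · rintro (⟨⟨h1, _⟩, h3, h4⟩ | ⟨⟨h1, _⟩, h3, h4, h5⟩)
        · have h6 : q / q.gcd (pri R) ≤ 2 * (R * 2 ^ I) := by omega
          exact ⟨⟨h1, le_mul_of_div hM h6⟩, h3, h6⟩
        · exact ⟨⟨h1, le_mul_of_div hM h5⟩, h3, h5⟩
    · rw [Finset.disjoint_left]
      intro q hq hq'
      unfold QS at hq'
      rw [mem_filter] at hq hq'
      have h1 := hq.2.2
      have h2 := hq'.2.2.1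
      omega

end QP

/-- QP. -/
theorem t_QP : S_QP := by
  classical
  intro R₁ I H α n _ hMM
  simp only [QP.PQ_eq]
  rw [← QP.sum_QS]
  have hM := QP.pri_pos R₁
  have h1 : (QM (pri R₁) (R₁ * 2 ^ I)).filter (fun q => q ∣ MM1 R₁) = (MM1 R₁).divisors := by
    ext q
    unfold QM
    simp only [mem_filter, mem_Icc, Nat.mem_divisors]
    constructor
    · rintro ⟨_, h⟩
      exact ⟨h, QP.MM1_ne R₁⟩
    · rintro ⟨h, h0⟩
      have hq1 : 1 ≤ q := Nat.pos_of_dvd_of_pos h (Nat.pos_of_ne_zero h0)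
      have hq2 : q ≤ MM1 R₁ := Nat.le_of_dvd (Nat.pos_of_ne_zero h0) h
      have h3 : q / q.gcd (pri R₁) ≤ R₁ * 2 ^ I := (Nat.div_le_self _ _).trans (hq2.trans hMM)
      exact ⟨⟨⟨hq1, QP.le_mul_of_div hM h3⟩, h3⟩, h⟩
  have h2 : (QM (pri R₁) (R₁ * 2 ^ I)).filter (fun q => ¬ q ∣ MM1 R₁) =
      (Icc 1 (pri R₁ * (R₁ * 2 ^ I))).filter
        (fun q => ¬ q ∣ MM1 R₁ ∧ q / q.gcd (pri R₁) ≤ R₁ * 2 ^ I) := by
    ext q
    unfold QM
    simp only [mem_filter]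
    tauto
  rw [← Finset.sum_filter_add_sum_filter_not (QM (pri R₁) (R₁ * 2 ^ I)) (fun q => q ∣ MM1 R₁), h1,
    h2]

end

end MUR
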