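import Mathlib
import Pool.Agent.MUR.StD

set_option autoImplicit false

/-!
# Project MUR: the part of large denominators (module S1)
-/

namespace MUR

open Finset IPR
open Pool.Agent.Lib_helper83.EF (e)

noncomputable section

namespace S1

theorem LL_nonneg (m : ℕ) : 0 ≤ LL m := by
  unfold LL
  split_ifs with h
  · exact Real.log_nonneg (by exact_mod_cast h.one_lt.le)
  · exact le_rfl

theorem LL_le {m : ℕ} {Y : ℝ} (hm : (m : ℝ) ≤ Y) (hY : 1 ≤ Y) : LL m ≤ Real.log Y := by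
  unfold LL
  split_ifs with h
  · exact Real.log_le_log (by exact_mod_cast h.pos) hm
  · exact Real.log_nonneg hY

theorem mv_le (s : ℤ) (hs : s = 1 ∨ s = -1) (k : ℕ) : mv s k ≤ k + 1 := by
  unfold mv
  omega

/-- triple sums as sums over a product -/
theorem tri {α β γ R : Type*} [AddCommMonoid R] (A : Finset α) (B : Finset β) (C : Finset γ)
    (h : α → β → γ → R) : ∑ a ∈ A, ∑ b ∈ B, ∑ c ∈ C, h a b c =
      ∑ p ∈ A ×ˢ (B ×ˢ C), h p.1 p.2.1 p.2.2 := by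
  rw [Finset.sum_product]
  refine Finset.sum_congr rfl fun a _ => ?_
  rw [Finset.sum_product]

theorem cs3 {α β γ : Type*} (A : Finset α) (B : Finset β) (C : Finset γ) (f : α → β → γ → ℝ)
    (g : α → β → γ → ℂ) (hf : ∀ a b c, 0 ≤ f a b c) :
    ‖∑ a ∈ A, ∑ b ∈ B, ∑ c ∈ C, (f a b c : ℂ) * g a b c‖ ^ 2 ≤
      (∑ a ∈ A, ∑ b ∈ B, ∑ c ∈ C, f a b c ^ 2) * ∑ a ∈ A, ∑ b ∈ B, ∑ c ∈ C, ‖g a b c‖ ^ 2 := by
  rw [tri, tri, tri]
  calc ‖∑ p ∈ A ×ˢ (B ×ˢ C), (f p.1 p.2.1 p.2.2 : ℂ) * g p.1 p.2.1 p.2.2‖ ^ 2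
      ≤ (∑ p ∈ A ×ˢ (B ×ˢ C), f p.1 p.2.1 p.2.2 * ‖g p.1 p.2.1 p.2.2‖) ^ 2 := by
        gcongr
        refine (norm_sum_le _ _).trans (Finset.sum_le_sum fun p _ => ?_)
        rw [norm_mul, Complex.norm_real, Real.norm_of_nonneg (hf _ _ _)]
    _ ≤ _ := Finset.sum_mul_sq_le_sq_mul_sq _ _ _

theorem div_eq_of_mem {H i m : ℕ} (hm : m ∈ Ico (i * H) (i * H + H)) : m / H = i := by
  rw [Finset.mem_Ico] at hm
  exact Nat.div_eq_of_lt_le hm.1 (by rw [add_mul, one_mul]; exact hm.2)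

theorem PQ_ne {𝒬 : Finset ℕ} {H n : ℕ} {α : ℕ → ℂ} (h : PQ 𝒬 H α n ≠ 0) :
    ∃ n', n' ∈ Ico (n / H * H) (n / H * H + H) ∧ α n' ≠ 0 := by
  by_contra hc
  push Not at hc
  apply h
  unfold PQ ft
  have h0 : ∀ θ : ℝ, ∑ m ∈ Ico (n / H * H) (n / H * H + H), α m * e (-((m : ℝ) * θ)) = 0 := by
    intro θ
    refine Finset.sum_eq_zero fun m hm => ?_
    rw [hc m hm, zero_mul]
  simp [h0]

theorem blocks_eq (f : ℕ → ℝ) (k H : ℕ) :
    ∑ i ∈ range k, ∑ n ∈ Ico (i * H) (i * H + H), f n = ∑ n ∈ range (k * H), f n := by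
  induction k with
  | zero => simp
  | succ k ih =>
    rw [Finset.sum_range_succ, ih, add_mul, one_mul]
    simp only [Finset.range_eq_Ico]
    rw [Finset.sum_Ico_consecutive _ (Nat.zero_le _) (Nat.le_add_right _ _)]

/-- the blocks cover -/
theorem sum_range_le_blocks (f : ℕ → ℝ) (hf : ∀ n, 0 ≤ f n) (B H : ℕ) (hH : 1 ≤ H) :
    ∑ n ∈ range B, f n ≤ ∑ i ∈ range (B / H + 1), ∑ n ∈ Ico (i * H) (i * H + H), f n := by
  rw [blocks_eq]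
  refine Finset.sum_le_sum_of_subset_of_nonneg ?_ fun _ _ _ => hf _
  intro n hn
  rw [Finset.mem_range] at hn ⊢
  have h2 := Nat.lt_div_mul_add (a := B) (b := H) (by omega)
  rw [add_mul, one_mul]
  omega

theorem sum_alpha_le {α : ℕ → ℂ} {X : ℕ} (h1 : ∀ n, ‖α n‖ ≤ 1)
    (h2 : ∀ n, α n ≠ 0 → X < n ∧ n ≤ 2 * X) (S : Finset ℕ) : ∑ n ∈ S, ‖α n‖ ^ 2 ≤ X := by
  have h3 : ∑ n ∈ S, ‖α n‖ ^ 2 ≤ ∑ n ∈ Ioc X (2 * X), (1 : ℝ) := by
    calc ∑ n ∈ S, ‖α n‖ ^ 2 = ∑ n ∈ S.filter (fun n => α n ≠ 0), ‖α n‖ ^ 2 := by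
          rw [Finset.sum_filter]
          refine Finset.sum_congr rfl fun n _ => ?_
          split_ifs with h
          · rfl
          · push Not at h
            simp [h]
      _ ≤ ∑ n ∈ S.filter (fun n => α n ≠ 0), (1 : ℝ) := by
          refine Finset.sum_le_sum fun n _ => ?_
          have := h1 n
          have h0 := norm_nonneg (α n)
          nlinarith
      _ ≤ _ := by
          refine Finset.sum_le_sum_of_subset_of_nonneg ?_ fun _ _ _ => zero_le_one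
          intro n hn
          rw [Finset.mem_filter] at hn
          rw [Finset.mem_Ioc]
          exact h2 n hn.2
  refine h3.trans ?_
  simp only [Finset.sum_const, Nat.card_Ioc, nsmul_eq_mul, mul_one]
  have : 2 * X - X = X := by omega
  rw [this]

/-- the mean square of `φ` -/
theorem sum_phi_le {𝒬 : Finset ℕ} {G H X B : ℕ} {α : ℕ → ℂ} (hE2 : S_E2) (hH : 1 ≤ H)
    (hGH : G ^ 2 ≤ H) (hQ : ∀ q ∈ 𝒬, 1 ≤ q ∧ q ≤ G) (h1 : ∀ n, ‖α n‖ ≤ 1)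
    (h2 : ∀ n, α n ≠ 0 → X < n ∧ n ≤ 2 * X) :
    ∑ n ∈ range B, ‖α n - PQ 𝒬 H α n‖ ^ 2 ≤ 74 * X := by
  have h3 : ∀ n, ‖α n - PQ 𝒬 H α n‖ ^ 2 ≤ 2 * ‖α n‖ ^ 2 + 2 * ‖PQ 𝒬 H α n‖ ^ 2 := by
    intro n
    have h4 := norm_sub_le (α n) (PQ 𝒬 H α n)
    have h5 := norm_nonneg (α n - PQ 𝒬 H α n)
    have h6 := norm_nonneg (α n)
    have h7 := norm_nonneg (PQ 𝒬 H α n)
    nlinarith [sq_nonneg (‖α n‖ - ‖PQ 𝒬 H α n‖)]
  have h4 : ∑ n ∈ range B, ‖PQ 𝒬 H α n‖ ^ 2 ≤ 36 * X := by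
    refine (sum_range_le_blocks _ (fun n => by positivity) B H hH).trans ?_
    calc ∑ i ∈ range (B / H + 1), ∑ n ∈ Ico (i * H) (i * H + H), ‖PQ 𝒬 H α n‖ ^ 2
        ≤ ∑ i ∈ range (B / H + 1), 36 * ∑ n ∈ Ico (i * H) (i * H + H), ‖α n‖ ^ 2 :=
          Finset.sum_le_sum fun i _ => hE2 𝒬 G H i α hH hGH hQ
      _ = 36 * ∑ n ∈ range ((B / H + 1) * H), ‖α n‖ ^ 2 := by
          rw [← Finset.mul_sum, blocks_eq (fun n => ‖α n‖ ^ 2)]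
      _ ≤ 36 * X := by
          have := sum_alpha_le h1 h2 (range ((B / H + 1) * H))
          linarith
  have h5 := sum_alpha_le h1 h2 (range B)
  calc ∑ n ∈ range B, ‖α n - PQ 𝒬 H α n‖ ^ 2
      ≤ ∑ n ∈ range B, (2 * ‖α n‖ ^ 2 + 2 * ‖PQ 𝒬 H α n‖ ^ 2) := Finset.sum_le_sum fun n _ => h3 n
    _ = 2 * ∑ n ∈ range B, ‖α n‖ ^ 2 + 2 * ∑ n ∈ range B, ‖PQ 𝒬 H α n‖ ^ 2 := by
        rw [Finset.sum_add_distrib, ← Finset.mul_sum, ← Finset.mul_sum]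
    _ ≤ 74 * X := by linarith

theorem ft_sub (α β : ℕ → ℂ) (H i : ℕ) (θ : ℝ) :
    ft (fun n => α n - β n) H i θ = ft α H i θ - ft β H i θ := by
  unfold ft
  rw [← Finset.sum_sub_distrib]
  refine Finset.sum_congr rfl fun n _ => by ring

/-- the size of the products -/
theorem DD_le {Q J : ℕ} {P : Finset ℕ} {t : Fin J → ℕ × ℕ} (hP : ∀ p ∈ P, p ≤ 2 * Q)
    (ht : t ∈ TT P J) : DD t ≤ (2 * Q) ^ (2 * J) := by
  unfold TT at ht
  rw [Finset.mem_filter, Fintype.mem_piFinset] at ht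
  have h1 : ∀ j, (t j).1 ≤ 2 * Q ∧ (t j).2 ≤ 2 * Q := fun j =>
    ⟨hP _ (Finset.mem_product.1 (ht.1 j)).1, hP _ (Finset.mem_product.1 (ht.1 j)).2⟩
  have h2 : yy t ≤ (2 * Q) ^ J := by
    unfold yy
    have := Finset.prod_le_pow_card (Finset.univ : Finset (Fin J)) (fun j => (t j).1) (2 * Q)
      (fun j _ => (h1 j).1)
    rwa [Finset.card_univ, Fintype.card_fin] at this
  have h3 : zz t ≤ (2 * Q) ^ J := by
    unfold zz
    have := Finset.prod_le_pow_card (Finset.univ : Finset (Fin J)) (fun j => (t j).2) (2 * Q)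
      (fun j _ => (h1 j).2)
    rwa [Finset.card_univ, Fintype.card_fin] at this
  unfold DD
  calc yy t * zz t ≤ (2 * Q) ^ J * (2 * Q) ^ J := Nat.mul_le_mul h2 h3
    _ = _ := by rw [← pow_add, two_mul J]

theorem rp (L : ℝ) (hL : 0 ≤ L) (n : ℕ) (a : ℝ) : (L ^ n) ^ a = L ^ ((n : ℝ) * a) := by
  rw [← Real.rpow_natCast, ← Real.rpow_mul hL]

theorem tau_le {Cd L : ℝ} (hCd : 0 < Cd) (hL : 1 ≤ L) {k q₀ : ℕ} (hk1 : 1 ≤ k)
    (hDIV : (k.divisors.card : ℝ) ^ 2 ≤ Cd * (k : ℝ) ^ (1 / 2 : ℝ)) (h2 : (q₀ : ℝ) ≤ 2 * L ^ 6)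
    (hk : k ≤ q₀ ∨ k.Prime) : (k.divisors.card : ℝ) ^ 2 ≤ (2 * Cd + 4) * L ^ 3 := by
  have hL3 : 1 ≤ L ^ 3 := one_le_pow₀ hL
  rcases hk with hk | hk
  · have h3 : (k : ℝ) ^ (1 / 2 : ℝ) ≤ 2 * L ^ 3 := by
      have h4 : (k : ℝ) ≤ (2 * L ^ 3) ^ 2 := by
        have h5 : (k : ℝ) ≤ q₀ := by exact_mod_cast hk
        calc (k : ℝ) ≤ 2 * L ^ 6 := h5.trans h2
          _ ≤ (2 * L ^ 3) ^ 2 := by nlinarith [pow_pos (lt_of_lt_of_le one_pos hL) 6]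
      calc (k : ℝ) ^ (1 / 2 : ℝ) ≤ ((2 * L ^ 3) ^ 2) ^ (1 / 2 : ℝ) :=
            Real.rpow_le_rpow (by positivity) h4 (by norm_num)
        _ = 2 * L ^ 3 := by
            rw [rp _ (by positivity)]
            norm_num
    calc (k.divisors.card : ℝ) ^ 2 ≤ Cd * (k : ℝ) ^ (1 / 2 : ℝ) := hDIV
      _ ≤ Cd * (2 * L ^ 3) := by gcongr
      _ ≤ (2 * Cd + 4) * L ^ 3 := by nlinarith
  · have h3 : k.divisors.card = 2 := by
      rw [hk.divisors, Finset.card_pair hk.one_lt.ne]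
    rw [h3]
    push_cast
    nlinarith

/-- the numbers of the tuples -/
theorem pi_le {C₁ Cd : ℝ} (hC₁ : 0 < C₁) (hCd : 0 < Cd) (hPI : S_PI) (hSHP : S_SHP)
    (hDIV : ∀ k : ℕ, 1 ≤ k → (k.divisors.card : ℝ) ^ 2 ≤ Cd * (k : ℝ) ^ (1 / 2 : ℝ) ∧
      (k.divisors.card : ℝ) ^ 2 / k.totient ≤ Cd * (k : ℝ) ^ (-(1 / 2 : ℝ)))
    {Q J M q q₀ : ℕ} {P : Finset ℕ} {L : ℝ} (hL : 1 ≤ L) (hg : GoodP C₁ Q J P)
    (hJ : (J : ℝ) ≤ 3 * L) (hQ : L ^ 100 ≤ Q) (hQ2 : 2 ≤ Q)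
    (hP : (Q : ℝ) ^ (9 / 10 : ℝ) ≤ P.card)
    (hM : 1 ≤ M) (hq : 1 ≤ q) (hq' : q / q.gcd M ≤ Q ^ (4 * J)) (h0 : q₀ < q / q.gcd M)
    (h1 : L ^ 6 ≤ q₀) (h2 : (q₀ : ℝ) ≤ 2 * L ^ 6) (I : Finset (Fin J)) (hI : I.Nonempty) :
    (((TT P J).filter (fun t => (q : ℤ) ∣ Dl M I t)).card : ℝ) ≤
      ((72 + 2 * C₁ * Cd + 2 * C₁ * (2 * Cd + 4)) * L ^ (-(3 / 2) : ℝ)) * (P.card : ℝ) ^ (2 * J) := by
  have hL0 : 0 < L := lt_of_lt_of_le one_pos hL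
  have hq₀ : 1 ≤ q₀ := by
    have h3 : (1 : ℝ) ≤ q₀ := (one_le_pow₀ hL).trans h1
    exact_mod_cast h3
  obtain ⟨k, hk1, hkd, hkq, hk⟩ := hSHP q₀ (q / q.gcd M) hq₀ h0
  obtain ⟨hD1, hD2⟩ := hDIV k hk1
  refine (hPI C₁ Q J M q k P I hg hI hQ2 hM hq hq' hk1 hkd).trans ?_
  rw [mul_comm]
  refine mul_le_mul_of_nonneg_right ?_ (by positivity)
  have hk3 : L ^ 3 ≤ (k : ℝ) := by
    have h3 : (L ^ 3) ^ 2 ≤ (k : ℝ) ^ 2 := by
      calc (L ^ 3) ^ 2 = L ^ 6 := by ring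
        _ ≤ (q₀ : ℝ) := h1
        _ ≤ ((k ^ 2 : ℕ) : ℝ) := by exact_mod_cast hkq
        _ = (k : ℝ) ^ 2 := by push_cast; ring
    exact (sq_le_sq₀ (by positivity) (by positivity)).1 h3
  -- first term
  have hLm : 0 < L ^ (-(3 / 2) : ℝ) := Real.rpow_pos_of_pos hL0 _
  have hP90 : L ^ (90 : ℝ) ≤ P.card := by
    refine le_trans ?_ hP
    calc L ^ (90 : ℝ) = (L ^ 100) ^ (9 / 10 : ℝ) := by
          rw [rp L hL0.le]
          norm_num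
      _ ≤ (Q : ℝ) ^ (9 / 10 : ℝ) := Real.rpow_le_rpow (by positivity) hQ (by norm_num)
  have hL90 : 0 < L ^ (90 : ℝ) := Real.rpow_pos_of_pos hL0 _
  have hP0 : (0 : ℝ) < P.card := lt_of_lt_of_le hL90 hP90
  have ha : 8 * (J : ℝ) ^ 2 / P.card ≤ 72 * L ^ (-(3 / 2) : ℝ) := by
    calc 8 * (J : ℝ) ^ 2 / P.card ≤ 8 * (3 * L) ^ 2 / L ^ (90 : ℝ) := by gcongr
      _ = 72 * L ^ ((2 : ℝ) - 90) := by
          rw [Real.rpow_sub hL0]
          rw [Real.rpow_two]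
          ring
      _ ≤ 72 * L ^ (-(3 / 2) : ℝ) := by
          gcongr
          norm_num
  have hb : (k.divisors.card : ℝ) ^ 2 * (1 / (k.totient : ℝ)) ≤ Cd * L ^ (-(3 / 2) : ℝ) := by
    rw [mul_one_div]
    refine hD2.trans ?_
    gcongr
    calc (k : ℝ) ^ (-(1 / 2 : ℝ)) ≤ (L ^ 3) ^ (-(1 / 2 : ℝ)) :=
          Real.rpow_le_rpow_of_nonpos (by positivity) hk3 (by norm_num)
      _ = L ^ (-(3 / 2) : ℝ) := by
          rw [rp L hL0.le]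
          norm_num
  have hc : (k.divisors.card : ℝ) ^ 2 * (Q : ℝ) ^ (-(1 / 3 : ℝ)) ≤
      (2 * Cd + 4) * L ^ (-(3 / 2) : ℝ) := by
    have h3 := tau_le hCd hL hk1 hD1 h2 hk
    have h4 : (Q : ℝ) ^ (-(1 / 3 : ℝ)) ≤ L ^ (-(100 / 3) : ℝ) := by
      calc (Q : ℝ) ^ (-(1 / 3 : ℝ)) ≤ (L ^ 100) ^ (-(1 / 3 : ℝ)) :=
            Real.rpow_le_rpow_of_nonpos (by positivity) hQ (by norm_num)
        _ = L ^ (-(100 / 3) : ℝ) := by
            rw [rp L hL0.le]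
            norm_num
    calc (k.divisors.card : ℝ) ^ 2 * (Q : ℝ) ^ (-(1 / 3 : ℝ))
        ≤ ((2 * Cd + 4) * L ^ 3) * L ^ (-(100 / 3) : ℝ) :=
          mul_le_mul h3 h4 (by positivity) (by positivity)
      _ = (2 * Cd + 4) * L ^ ((3 : ℝ) + -(100 / 3)) := by
          rw [Real.rpow_add hL0]
          have : L ^ (3 : ℝ) = L ^ 3 := by exact_mod_cast Real.rpow_natCast L 3
          rw [this]
          ring
      _ ≤ (2 * Cd + 4) * L ^ (-(3 / 2) : ℝ) := by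
          gcongr
          norm_num
  calc 8 * (J : ℝ) ^ 2 / P.card + 2 * C₁ * (k.divisors.card : ℝ) ^ 2 *
        (1 / (k.totient : ℝ) + (Q : ℝ) ^ (-(1 / 3 : ℝ)))
      = 8 * (J : ℝ) ^ 2 / P.card + 2 * C₁ * ((k.divisors.card : ℝ) ^ 2 * (1 / (k.totient : ℝ))) +
        2 * C₁ * ((k.divisors.card : ℝ) ^ 2 * (Q : ℝ) ^ (-(1 / 3 : ℝ))) := by ring
    _ ≤ 72 * L ^ (-(3 / 2) : ℝ) + 2 * C₁ * (Cd * L ^ (-(3 / 2) : ℝ)) +
        2 * C₁ * ((2 * Cd + 4) * L ^ (-(3 / 2) : ℝ)) := by gcongr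
    _ = _ := by ring

theorem scale {X d T : ℝ} (hX : 1 < X) (d0 : 0 < d) (d1 : d ≤ 1 / 100) (hT : T = X ^ (d / 1000))
    (h16 : 1000 ≤ T) : ∃ V : ℝ, X ^ (1 - d) * V = X ∧ 1000 * T ≤ V ∧ V ^ 3 ≤ X ^ (1 - d) ∧
      1000 ≤ V ∧ T ≤ X := by
  have hX0 : 0 < X := by linarith
  refine ⟨X ^ d, ?_, ?_, ?_, ?_, ?_⟩
  · rw [← Real.rpow_add hX0]
    norm_num
  · have h1 : X ^ d = T ^ 1000 := by
      rw [hT, ← Real.rpow_natCast, ← Real.rpow_mul hX0.le]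
      congr 1
      push_cast
      ring
    rw [h1]
    calc 1000 * T ≤ T * T := by nlinarith
      _ = T ^ 2 := by ring
      _ ≤ T ^ 1000 := pow_le_pow_right₀ (by linarith) (by norm_num)
  · rw [← Real.rpow_natCast, ← Real.rpow_mul hX0.le]
    refine Real.rpow_le_rpow_of_exponent_le hX.le ?_
    push_cast
    linarith
  · have h1 : X ^ (d / 1000) ≤ X ^ d :=
      Real.rpow_le_rpow_of_exponent_le hX.le (by linarith)
    linarith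
  · rw [hT]
    calc X ^ (d / 1000) ≤ X ^ (1 : ℝ) := Real.rpow_le_rpow_of_exponent_le hX.le (by linarith)
      _ = X := Real.rpow_one X

/-- the last step -/
theorem fin_ineq {A S V K L κ c K₂ : ℝ} (hL : 1 ≤ L) (hκ : 0 < κ) (hK : 0 ≤ K) (hc : 0 ≤ c)
    (_ : 0 ≤ K₂) (h1 : A ^ 2 ≤ S * V)
    (hS : S ≤ 3 * L * (c * K / κ)) (hV : V ≤ K * (K₂ * L ^ (-(13 / 10) : ℝ))) (hV0 : 0 ≤ V)
    (hk : 3 * c * K₂ ≤ κ) : A ≤ K / L ^ (1 / 10 : ℝ) := by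
  have hL0 : 0 < L := by linarith
  have hLp : ∀ a : ℝ, 0 < L ^ a := fun a => Real.rpow_pos_of_pos hL0 a
  refine abs_le_of_sq_le_sq' ?_ (by have := hLp (1 / 10); positivity) |>.2
  calc A ^ 2 ≤ S * V := h1
    _ ≤ (3 * L * (c * K / κ)) * (K * (K₂ * L ^ (-(13 / 10) : ℝ))) := by
        have h3 := hLp (-(13 / 10))
        gcongr
    _ = (3 * c * K₂ / κ) * (K ^ 2 * (L * L ^ (-(13 / 10) : ℝ))) := by ring
    _ ≤ 1 * (K ^ 2 * (L * L ^ (-(13 / 10) : ℝ))) := by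
        have h3 := hLp (-(13 / 10))
        refine mul_le_mul_of_nonneg_right ?_ (by positivity)
        rw [div_le_one hκ]
        exact hk
    _ = K ^ 2 * L ^ (-(3 / 10) : ℝ) := by
        have h3 : L * L ^ (-(13 / 10) : ℝ) = L ^ (-(3 / 10) : ℝ) := by
          nth_rewrite 1 [← Real.rpow_one L]
          rw [← Real.rpow_add hL0]
          norm_num
        rw [one_mul, h3]
    _ ≤ K ^ 2 * L ^ (-(2 / 10) : ℝ) := by
        have := Real.rpow_le_rpow_of_exponent_le hL (show (-(3 / 10) : ℝ) ≤ -(2 / 10) by norm_num)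
        gcongr
    _ = (K / L ^ (1 / 10 : ℝ)) ^ 2 := by
        rw [Real.rpow_neg hL0.le, ← div_eq_mul_inv, div_pow,
          ← Real.rpow_natCast (L ^ (1 / 10 : ℝ)) 2, ← Real.rpow_mul hL0.le]
        norm_num

/-- the bracket of `VB` -/
theorem bracket {L Kp Pc Qr Nφ Xr E : ℝ} {J : ℕ} (hL : 1 ≤ L) (hKp : 0 ≤ Kp)
    (hJ : L ^ (13 / 10 : ℝ) ≤ 2 ^ J) (hQ : L ^ 100 ≤ Qr) (hP : Qr ^ (9 / 10 : ℝ) ≤ Pc)
    (hN : Nφ ≤ 74 * Xr) (hN0 : 0 ≤ Nφ) (hX : L ^ 100 ≤ Xr) (hE : E ≤ 1) :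
    (2 / 2 ^ J + 12 * (Kp * L ^ (-(3 / 2) : ℝ)) + 4 * Real.sqrt Qr / Pc + 20 / Qr) * Nφ + E ≤
      Xr * ((74 * (26 + 12 * Kp) + 1) * L ^ (-(13 / 10) : ℝ)) := by
  have hL0 : 0 < L := by linarith
  have hLp : ∀ a : ℝ, 0 < L ^ a := fun a => Real.rpow_pos_of_pos hL0 a
  have hQ1 : 1 ≤ Qr := (one_le_pow₀ hL).trans hQ
  have hQ0 : 0 < Qr := by linarith
  have hP0 : 0 < Pc := lt_of_lt_of_le (Real.rpow_pos_of_pos hQ0 _) hP
  have h13 : L ^ (-(13 / 10) : ℝ) = (L ^ (13 / 10 : ℝ))⁻¹ := Real.rpow_neg hL0.le _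
  have ha : 2 / (2 : ℝ) ^ J ≤ 2 * L ^ (-(13 / 10) : ℝ) := by
    rw [h13, div_eq_mul_inv]
    have h2 : ((2 : ℝ) ^ J)⁻¹ ≤ (L ^ (13 / 10 : ℝ))⁻¹ := inv_anti₀ (hLp _) hJ
    linarith
  have hb : L ^ (-(3 / 2) : ℝ) ≤ L ^ (-(13 / 10) : ℝ) :=
    Real.rpow_le_rpow_of_exponent_le hL (by norm_num)
  have hQL : L ^ (13 / 10 : ℝ) ≤ Qr ^ (2 / 5 : ℝ) := by
    calc L ^ (13 / 10 : ℝ) ≤ L ^ (40 : ℝ) := Real.rpow_le_rpow_of_exponent_le hL (by norm_num)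
      _ = (L ^ 100) ^ (2 / 5 : ℝ) := by
          rw [rp L hL0.le]
          norm_num
      _ ≤ Qr ^ (2 / 5 : ℝ) := Real.rpow_le_rpow (by positivity) hQ (by norm_num)
  have hq5 : 0 < Qr ^ (2 / 5 : ℝ) := Real.rpow_pos_of_pos hQ0 _
  have hc : 4 * Real.sqrt Qr / Pc ≤ 4 * L ^ (-(13 / 10) : ℝ) := by
    rw [h13]
    calc 4 * Real.sqrt Qr / Pc ≤ 4 * Real.sqrt Qr / Qr ^ (9 / 10 : ℝ) := by
          have := Real.rpow_pos_of_pos hQ0 (9 / 10 : ℝ)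
          gcongr
      _ = 4 * (Qr ^ (2 / 5 : ℝ))⁻¹ := by
          rw [Real.sqrt_eq_rpow, mul_div_assoc, ← Real.rpow_sub hQ0, ← Real.rpow_neg hQ0.le]
          norm_num
      _ ≤ 4 * (L ^ (13 / 10 : ℝ))⁻¹ := by
          have h2 := inv_anti₀ (hLp (13 / 10)) hQL
          linarith
  have hd : 20 / Qr ≤ 20 * L ^ (-(13 / 10) : ℝ) := by
    rw [h13, div_eq_mul_inv]
    have h3 : Qr ^ (2 / 5 : ℝ) ≤ Qr := by
      calc Qr ^ (2 / 5 : ℝ) ≤ Qr ^ (1 : ℝ) := Real.rpow_le_rpow_of_exponent_le hQ1 (by norm_num)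
        _ = Qr := Real.rpow_one _
    have h2 := inv_anti₀ (hLp (13 / 10)) (hQL.trans h3)
    linarith
  have he : 1 ≤ Xr * L ^ (-(13 / 10) : ℝ) := by
    rw [h13, ← div_eq_mul_inv, one_le_div (hLp _)]
    calc L ^ (13 / 10 : ℝ) ≤ L ^ (100 : ℝ) := Real.rpow_le_rpow_of_exponent_le hL (by norm_num)
      _ = L ^ 100 := by exact_mod_cast Real.rpow_natCast L 100
      _ ≤ Xr := hX
  have h4 : 2 / 2 ^ J + 12 * (Kp * L ^ (-(3 / 2) : ℝ)) + 4 * Real.sqrt Qr / Pc + 20 / Qr ≤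
      (26 + 12 * Kp) * L ^ (-(13 / 10) : ℝ) := by
    have h5 : 12 * (Kp * L ^ (-(3 / 2) : ℝ)) ≤ 12 * (Kp * L ^ (-(13 / 10) : ℝ)) := by gcongr
    nlinarith
  have h6 := hLp (-(13 / 10))
  calc (2 / 2 ^ J + 12 * (Kp * L ^ (-(3 / 2) : ℝ)) + 4 * Real.sqrt Qr / Pc + 20 / Qr) * Nφ + E
      ≤ ((26 + 12 * Kp) * L ^ (-(13 / 10) : ℝ)) * (74 * Xr) + Xr * L ^ (-(13 / 10) : ℝ) := by
        refine add_le_add (mul_le_mul h4 hN hN0 (by positivity)) (hE.trans he)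
    _ = _ := by ring

theorem err_le {X H G : ℕ} {T U V : ℝ} (hG : (G : ℝ) ^ 10 ≤ T) (hUV : U * V = X)
    (hTV : 1000 * T ≤ V) (hVU : V ^ 3 ≤ U) (hV : 1000 ≤ V) (hH : U < 2 * H) :
    2 * (((3 * X : ℕ) : ℝ) / H + 1) * (G : ℝ) ^ 2 * (G : ℝ) ^ 8 / H ≤ 1 := by
  have hV3 : 0 < V ^ 3 := by positivity
  have hHp : (0 : ℝ) < H := by linarith
  rw [div_le_one hHp]
  have h1 : ((3 * X : ℕ) : ℝ) / H ≤ 6 * V := by
    rw [div_le_iff₀ hHp]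
    push_cast
    rw [← hUV]
    nlinarith
  have h0 : 0 ≤ ((3 * X : ℕ) : ℝ) / H := by positivity
  have h2 : 2 * (((3 * X : ℕ) : ℝ) / H + 1) * (G : ℝ) ^ 10 ≤ (14 * V) * (V / 1000) := by
    refine mul_le_mul (by linarith) (by linarith) (by positivity) (by linarith)
  calc 2 * (((3 * X : ℕ) : ℝ) / H + 1) * (G : ℝ) ^ 2 * (G : ℝ) ^ 8
      = 2 * (((3 * X : ℕ) : ℝ) / H + 1) * (G : ℝ) ^ 10 := by ring
    _ ≤ (14 * V) * (V / 1000) := h2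
    _ ≤ V ^ 3 / 2 := by
        have h3 : V ^ 3 = V * V ^ 2 := by ring
        nlinarith [sq_nonneg V]
    _ ≤ H := by linarith

theorem LLb {s : ℤ} (hs : s = 1 ∨ s = -1) {X a x w : ℕ} {T U V : ℝ} (hX : (1 : ℝ) < X)
    (ha : (a : ℝ) ≤ T) (hx : (x : ℝ) ≤ 2 * U) (hw : (w : ℝ) ≤ 7 * X) (hUV : U * V = X)
    (hTV : 1000 * T ≤ V) (hU : 0 ≤ U) (hT : 0 ≤ T) :
    LL (mv s (a * x * w)) ≤ 3 * Real.log X := by
  have h5 : ((mv s (a * x * w) : ℕ) : ℝ) ≤ (X : ℝ) ^ 3 := by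
    have h7 : ((mv s (a * x * w) : ℕ) : ℝ) ≤ ((a * x * w + 1 : ℕ) : ℝ) := by
      exact_mod_cast mv_le s hs (a * x * w)
    have hX2 : (2 : ℝ) ≤ X := by
      have : 1 < X := by exact_mod_cast hX
      have : 2 ≤ X := by omega
      exact_mod_cast this
    have h9 : (a : ℝ) * x * w ≤ T * (2 * U) * (7 * X) := by gcongr
    have h10 : T * (2 * U) * (7 * X) ≤ (X : ℝ) ^ 2 := by
      calc T * (2 * U) * (7 * X) = (14 * T) * U * X := by ring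
        _ ≤ V * U * X := by
            have : 14 * T ≤ V := by linarith
            gcongr
        _ = (U * V) * X := by ring
        _ = (X : ℝ) ^ 2 := by rw [hUV]; ring
    have h11 : (X : ℝ) ^ 2 + 1 ≤ (X : ℝ) ^ 3 := by
      have : (X : ℝ) ^ 3 = X * (X : ℝ) ^ 2 := by ring
      nlinarith
    push_cast at h7
    linarith
  refine (LL_le h5 (one_le_pow₀ hX.le)).trans ?_
  rw [Real.log_pow]
  push_cast
  exact le_rfl

end S1

theorem t_S1 : M_S1 := by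
  intro hSYM hTOT hVB hE1 hE2 hPI hSHP hDIV hCF C₁ hC₁ R₁ d
  obtain ⟨Ct, hCt, hT1⟩ := hTOT C₁ hC₁
  obtain ⟨XT, hXT⟩ := hT1 R₁ d
  obtain ⟨Cd, hCd, hDv⟩ := hDIV
  obtain ⟨Kp, hKp⟩ : ∃ Kp : ℝ, Kp = 72 + 2 * C₁ * Cd + 2 * C₁ * (2 * Cd + 4) := ⟨_, rfl⟩
  have hKp0 : 0 ≤ Kp := by rw [hKp]; positivity
  obtain ⟨K₂, hK₂⟩ : ∃ K₂ : ℝ, K₂ = 74 * (26 + 12 * Kp) + 1 := ⟨_, rfl⟩
  have hK₂0 : 0 ≤ K₂ := by rw [hK₂]; positivity
  obtain ⟨XC, hXC⟩ := hCF C₁ hC₁ R₁ d (3 * (Ct * Real.log R₁) * K₂)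
  refine ⟨max XT XC, fun X hX J Q X₁ H W P s hc hs q₀ α hq1 hq2 hα1 hα2 => ?_⟩
  obtain ⟨f1, f2, -, f4, f5, f6, f7, f8, f9, -, f11, f12, -, -, -, f16, f17, -, f19, -, f21, -⟩ :=
    hXC X ((le_max_right _ _).trans hX) J Q X₁ H W P hc
  have hTot := hXT X ((le_max_left _ _).trans hX) J Q X₁ H W P s hc hs
  obtain ⟨L, hL⟩ : ∃ L : ℝ, L = Real.log X := ⟨_, rfl⟩
  have hJ2 := hc.J2
  have hMM : pri R₁ ≤ MM1 R₁ := Nat.le_of_dvd (by omega) f6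
  obtain ⟨M, hM⟩ : ∃ M, M = pri R₁ := ⟨_, rfl⟩
  obtain ⟨M₁, hM₁⟩ : ∃ M₁, M₁ = MM1 R₁ := ⟨_, rfl⟩
  have Jlo := hc.Jlo
  have Jhi := hc.Jhi
  have Qlo := hc.Qlo
  have sml := hc.sml
  have X₁lo := hc.X₁lo
  have X₁hi := hc.X₁hi
  have Wlo := hc.Wlo
  have Whi := hc.Whi
  rw [← hM] at f4 f5 hMM hTot ⊢
  rw [← hM₁] at f7 f8 f21 hMM sml
  rw [← hL] at f1 f2 hq1 hq2 Jlo Jhi Qlo hTot ⊢
  obtain ⟨κ, hκ⟩ : ∃ κ : ℝ, κ = Real.log L := ⟨_, rfl⟩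
  rw [← hκ] at f1 f2 hTot Jhi
  -- L and X
  have hL0 : 0 ≤ L := by rw [hL]; exact Real.log_natCast_nonneg X
  have hκL : κ ≤ L := by rw [hκ]; exact Real.log_le_self hL0
  have hL1 : 1 ≤ L := f2.trans hκL
  have hX1 : (1 : ℝ) < X := by
    by_contra h
    have h1 : X ≤ 1 := by
      have : (X : ℝ) ≤ 1 := not_lt.1 h
      exact_mod_cast this
    have h2 : L = 0 := by
      rw [hL]
      interval_cases X <;> simp
    linarith
  have hXn : 1 < X := by exact_mod_cast hX1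
  -- the scale
  obtain ⟨G, hG⟩ : ∃ G : ℕ, G = 16 * M₁ * Q ^ (2 * J) := ⟨_, rfl⟩
  rw [← hG] at f21
  obtain ⟨T, hT⟩ : ∃ T : ℝ, T = (X : ℝ) ^ (d / 1000) := ⟨_, rfl⟩
  rw [← hT] at f21 sml
  have hG16 : 16 ≤ G := by
    rw [hG]
    have h1 : 1 ≤ Q ^ (2 * J) := Nat.one_le_pow _ _ (by omega)
    calc 16 = 16 * 1 * 1 := by norm_num
      _ ≤ _ := Nat.mul_le_mul (Nat.mul_le_mul le_rfl f7) h1
  have hGR : (16 : ℝ) ≤ G := by exact_mod_cast hG16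
  have hGT : (G : ℝ) ^ 10 ≤ T := f21
  have hG1T : (G : ℝ) ≤ T := (le_self_pow₀ (by linarith) (by norm_num)).trans hGT
  have hT16 : 1000 ≤ T := by
    calc (1000 : ℝ) ≤ 16 ^ 10 := by norm_num
      _ ≤ (G : ℝ) ^ 10 := by gcongr
      _ ≤ T := hGT
  obtain ⟨V, hUV, hTV, hVU, hV1, hTX⟩ := S1.scale hX1 hc.d0 hc.d1 hT hT16
  obtain ⟨U, hU⟩ : ∃ U : ℝ, U = (X : ℝ) ^ (1 - d) := ⟨_, rfl⟩
  rw [← hU] at X₁lo X₁hi f11 f12 hUV hVU
  have hU0 : 0 < U := by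
    rw [hU]
    exact Real.rpow_pos_of_pos (by linarith) _
  have hVV : V ≤ V ^ 3 := le_self_pow₀ (by linarith) (by norm_num)
  have hQR : (1 : ℝ) ≤ Q := by
    have : 1 ≤ Q := by omega
    exact_mod_cast this
  have hQG : (Q : ℝ) ≤ G := by
    have h1 : Q ≤ G := by
      rw [hG]
      calc Q = 1 * 1 * Q ^ 1 := by ring
        _ ≤ 16 * M₁ * Q ^ (2 * J) :=
          Nat.mul_le_mul (Nat.mul_le_mul (by norm_num) f7) (Nat.pow_le_pow_right (by omega) (by omega))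
    exact_mod_cast h1
  have hLX : L ^ 100 ≤ X := Qlo.trans (hQG.trans (hG1T.trans hTX))
  -- the set of moduli
  have hLq : L ^ 6 ≤ Q := by
    refine le_trans ?_ Qlo
    exact pow_le_pow_right₀ hL1 (by norm_num)
  have hq₀Q : q₀ ≤ 2 * Q := by
    have h1 : (q₀ : ℝ) ≤ 2 * Q := hq2.trans (by linarith)
    exact_mod_cast h1
  have hQMG : ∀ q ∈ QM M q₀, 1 ≤ q ∧ q ≤ G := by
    intro q hq
    unfold QM at hq
    rw [Finset.mem_filter, Finset.mem_Icc] at hq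
    refine ⟨hq.1.1, hq.1.2.trans ?_⟩
    rw [hG]
    calc M * q₀ ≤ M₁ * (2 * Q) := Nat.mul_le_mul hMM hq₀Q
      _ = 2 * M₁ * Q ^ 1 := by ring
      _ ≤ 16 * M₁ * Q ^ (2 * J) :=
        Nat.mul_le_mul (Nat.mul_le_mul (by norm_num) le_rfl) (Nat.pow_le_pow_right (by omega) (by omega))
  -- H
  have hH0 : 1 ≤ H := by
    by_contra h
    have : H = 0 := by omega
    rw [this] at f11
    simp only [Nat.cast_zero, mul_zero] at f11
    linarith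
  have hGH : G ^ 2 ≤ H := by
    have h1 : (G : ℝ) ^ 2 ≤ H := by
      calc (G : ℝ) ^ 2 ≤ (G : ℝ) ^ 10 := pow_le_pow_right₀ (by linarith) (by norm_num)
        _ ≤ T := hGT
        _ ≤ H := by linarith
    exact_mod_cast h1
  have hHX : H ≤ 2 * X₁ := by
    have h1 : (H : ℝ) ≤ 2 * X₁ := f12.trans X₁lo
    exact_mod_cast h1
  have hXH : X₁ ≤ 2 * H := by
    have h1 : (X₁ : ℝ) ≤ 2 * H := X₁hi.trans f11.le
    exact_mod_cast h1
  -- the support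
  have hsup1 : 6 * M * X₁ * Q ^ J + H ≤ X := by
    have h1 : ((6 * M * X₁ * Q ^ J + H : ℕ) : ℝ) ≤ X := by
      have h2 : ((6 * M * Q ^ J : ℕ) : ℝ) ≤ G := by
        have : 6 * M * Q ^ J ≤ G := by
          rw [hG]
          exact Nat.mul_le_mul (Nat.mul_le_mul (by norm_num) hMM)
            (Nat.pow_le_pow_right (by omega) (by omega))
        exact_mod_cast this
      calc ((6 * M * X₁ * Q ^ J + H : ℕ) : ℝ) = ((6 * M * Q ^ J : ℕ) : ℝ) * X₁ + H := by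
            push_cast; ring
        _ ≤ T * U + U := by
            have := h2.trans hG1T
            gcongr
        _ = U * (T + 1) := by ring
        _ ≤ U * V := mul_le_mul_of_nonneg_left (by linarith) hU0.le
        _ = X := hUV
    exact_mod_cast h1
  obtain ⟨φ, hφ⟩ : ∃ φ : ℕ → ℂ, φ = fun n => α n - PQ (QM M q₀) H α n := ⟨_, rfl⟩
  have hsup : ∀ n, φ n ≠ 0 → n < 3 * X ∧ 6 * M * X₁ * Q ^ J < n ∧ n ≤ W * Q ^ J := by
    intro n hn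
    have h1 : ∃ n', X < n' ∧ n' ≤ 2 * X ∧ n < n' + H ∧ n' < n + H := by
      by_cases h2 : α n = 0
      · have h3 : PQ (QM M q₀) H α n ≠ 0 := by
          intro h3
          apply hn
          rw [hφ]
          simp only [h2, h3, sub_zero]
        obtain ⟨n', hn', hne⟩ := S1.PQ_ne h3
        obtain ⟨h4, h5⟩ := hα2 n' hne
        rw [Finset.mem_Ico] at hn'
        have h6 := Nat.lt_div_mul_add (a := n) (b := H) (by omega)
        have h7 := Nat.div_mul_le_self n H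
        exact ⟨n', h4, h5, by omega, by omega⟩
      · obtain ⟨h4, h5⟩ := hα2 n h2
        exact ⟨n, h4, h5, by omega, by omega⟩
    obtain ⟨n', h1, h2, h3, h4⟩ := h1
    have h5 : n < 3 * X := by
      have : H ≤ X := by omega
      omega
    exact ⟨h5, by omega, by omega⟩
  -- active moduli
  have hact : ∀ I : Finset (Fin J), I.Nonempty → ∀ q ∈ Icc 1 G \ QM M q₀,
      (((TT P J).filter (fun t => (q : ℤ) ∣ Dl M I t)).card : ℝ) ≤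
        (Kp * L ^ (-(3 / 2) : ℝ)) * (P.card : ℝ) ^ (2 * J) := by
    intro I hI q hq
    rw [Finset.mem_sdiff, Finset.mem_Icc] at hq
    obtain ⟨⟨hq1', hqG⟩, hqn⟩ := hq
    have h0 : q₀ < q / q.gcd M := by
      by_contra h
      apply hqn
      unfold QM
      rw [Finset.mem_filter, Finset.mem_Icc]
      have h3 : q = q.gcd M * (q / q.gcd M) := (Nat.mul_div_cancel' (Nat.gcd_dvd_left q M)).symm
      refine ⟨⟨hq1', ?_⟩, by omega⟩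
      calc q = q.gcd M * (q / q.gcd M) := h3
        _ ≤ M * q₀ := Nat.mul_le_mul (Nat.gcd_le_right _ (by omega)) (by omega)
    have hq' : q / q.gcd M ≤ Q ^ (4 * J) := by
      refine (Nat.div_le_self _ _).trans (hqG.trans ?_)
      rw [hG]
      calc 16 * M₁ * Q ^ (2 * J) ≤ Q * Q * Q ^ (2 * J) :=
            Nat.mul_le_mul (Nat.mul_le_mul f19 f8) le_rfl
        _ = Q ^ (2 * J + 2) := by ring
        _ ≤ Q ^ (4 * J) := Nat.pow_le_pow_right (by omega) (by omega)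
    rw [hKp]
    exact S1.pi_le hC₁ hCd hPI hSHP hDv hL1 hc.good (Jhi.trans (by linarith)) Qlo (by omega) f16 f5
      hq1' hq' h0 hq1 hq2 I hI
  have hina : ∀ q ∈ Icc 1 G, q ∉ Icc 1 G \ QM M q₀ → ∀ a ∈ cop q, ∀ i,
      ‖ft φ H i ((a : ℝ) / q)‖ ^ 2 ≤ (G : ℝ) ^ 8 := by
    intro q hq hqn a ha i
    have h1 : q ∈ QM M q₀ := by
      by_contra h
      exact hqn (Finset.mem_sdiff.2 ⟨hq, h⟩)
    have h2 := hE1 (QM M q₀) G H i α hH0 hα1 hQMG q hq a ha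
    rw [if_pos h1] at h2
    rw [hφ, S1.ft_sub, norm_sub_rev]
    calc ‖ft (PQ (QM M q₀) H α) H i ((a : ℝ) / q) - ft α H i ((a : ℝ) / q)‖ ^ 2
        ≤ ((G : ℝ) ^ 4) ^ 2 := by gcongr
      _ = (G : ℝ) ^ 8 := by ring
  have hL32 : 0 < L ^ (-(3 / 2) : ℝ) := Real.rpow_pos_of_pos (by linarith) _
  have hvb := hVB C₁ Q J M X₁ H W (3 * X) G P φ (Kp * L ^ (-(3 / 2) : ℝ)) ((G : ℝ) ^ 8)
    (Icc 1 G \ QM M q₀) hc.good hJ2 f19 f5 (fun p hp => (f4 p hp).trans (by omega)) hH0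
    (by positivity) (by positivity)
    (by rw [hG]; exact Nat.mul_le_mul (Nat.mul_le_mul (by norm_num) hMM) le_rfl)
    hGH hHX hXH hsup hact hina
  have hN : ∑ n ∈ range (3 * X), ‖φ n‖ ^ 2 ≤ 74 * X := by
    rw [hφ]
    exact S1.sum_phi_le hE2 hH0 hGH hQMG hα1 hα2
  have hE := S1.err_le hGT hUV hTV hVU hV1 f11
  have hN0 : 0 ≤ ∑ n ∈ range (3 * X), ‖φ n‖ ^ 2 := Finset.sum_nonneg fun _ _ => by positivity
  have hbr := S1.bracket (E := 2 * (((3 * X : ℕ) : ℝ) / H + 1) * (G : ℝ) ^ 2 * (G : ℝ) ^ 8 / H)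
    hL1 hKp0 Jlo Qlo f16 hN hN0 hLX hE
  rw [← hK₂] at hbr
  obtain ⟨K, hK⟩ : ∃ K : ℝ, K = KK X J Q X₁ P := ⟨_, rfl⟩
  have hK0 : 0 ≤ K := by
    rw [hK]
    unfold KK
    positivity
  have hVVle : VV M J P X₁ W φ ≤ K * (K₂ * L ^ (-(13 / 10) : ℝ)) := by
    refine hvb.trans ?_
    calc _ ≤ (P.card : ℝ) ^ (2 * J) * (X₁ / (Q : ℝ) ^ J) * (X * (K₂ * L ^ (-(13 / 10) : ℝ))) :=
          mul_le_mul_of_nonneg_left hbr (by positivity)
      _ = _ := by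
          rw [hK]
          unfold KK
          ring
  have hVV0 : 0 ≤ VV M J P X₁ W φ := by
    unfold VV
    exact Finset.sum_nonneg fun _ _ => Finset.sum_nonneg fun _ _ => Finset.sum_nonneg fun _ _ => by
      positivity
  -- the weights
  have hLL : ∀ t ∈ TT P J, ∀ x ∈ XX X₁ (3 * Q), ∀ w ∈ Ioc 0 W, LL (mv s (M * DD t * x * w)) ≤ 3 * L := by
    intro t ht x hx w hw
    have h1 : DD t ≤ (2 * Q) ^ (2 * J) := by
      refine S1.DD_le (fun p hp => ?_) ht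
      have h2 := hc.good.hi p hp
      have h3 := Nat.div_le_self Q J
      omega
    have h2 : ((M * DD t : ℕ) : ℝ) ≤ T := by
      refine le_trans ?_ sml
      have h3 : M * DD t ≤ (16 * M₁ * Q) ^ (20 * J) := by
        have h5 : M ≤ 16 * M₁ * Q := by
          calc M ≤ M₁ := hMM
            _ = 1 * M₁ * 1 := by ring
            _ ≤ 16 * M₁ * Q := Nat.mul_le_mul (Nat.mul_le_mul (by norm_num) le_rfl) (by omega)
        have h6 : 2 * Q ≤ 16 * M₁ * Q := Nat.mul_le_mul (by omega) le_rfl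
        calc M * DD t ≤ (16 * M₁ * Q) * (16 * M₁ * Q) ^ (2 * J) :=
              Nat.mul_le_mul h5 (h1.trans (Nat.pow_le_pow_left h6 _))
          _ = (16 * M₁ * Q) ^ (2 * J + 1) := by ring
          _ ≤ (16 * M₁ * Q) ^ (20 * J) := Nat.pow_le_pow_right (by omega) (by omega)
      exact_mod_cast h3
    have h3 : (x : ℝ) ≤ 2 * U := by
      unfold XX at hx
      rw [Finset.mem_filter, Finset.mem_Ioc] at hx
      have h4 : (x : ℝ) ≤ 2 * X₁ := by exact_mod_cast hx.1.2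
      linarith
    have h4 : (w : ℝ) ≤ 7 * X := by
      have h5 : w ≤ 7 * X := by
        have h6 : 1 ≤ Q ^ J := Nat.one_le_pow _ _ (by omega)
        have h7 := (Finset.mem_Ioc.1 hw).2
        calc w ≤ W := h7
          _ = W * 1 := by ring
          _ ≤ W * Q ^ J := Nat.mul_le_mul le_rfl h6
          _ ≤ 7 * X := Whi
      exact_mod_cast h5
    rw [hL]
    exact S1.LLb hs hX1 h2 h3 h4 hUV hTV hU0.le (by linarith)
  have hS : ∑ t ∈ TT P J, ∑ x ∈ XX X₁ (3 * Q), ∑ w ∈ Ioc 0 W, LL (mv s (M * DD t * x * w)) ^ 2 ≤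
      3 * L * (Ct * Real.log R₁ * K / κ) := by
    rw [hK]
    refine le_trans ?_ (mul_le_mul_of_nonneg_left hTot (by positivity))
    rw [Finset.mul_sum]
    refine Finset.sum_le_sum fun t ht => ?_
    rw [Finset.mul_sum]
    refine Finset.sum_le_sum fun x hx => ?_
    rw [Finset.mul_sum]
    refine Finset.sum_le_sum fun w hw => ?_
    have h1 := hLL t ht x hx w hw
    have h2 := S1.LL_nonneg (mv s (M * DD t * x * w))
    rw [sq]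
    exact mul_le_mul_of_nonneg_right h1 h2
  have hA : ∑ t ∈ TT P J, ∑ x ∈ XX X₁ (3 * Q), ∑ w ∈ Ioc 0 W, ‖AA M φ t x w‖ ^ 2 ≤
      VV M J P X₁ W φ := by
    unfold VV
    refine Finset.sum_le_sum fun t _ => ?_
    refine Finset.sum_le_sum_of_subset_of_nonneg ?_ fun _ _ _ =>
      Finset.sum_nonneg fun _ _ => by positivity
    unfold XX
    exact Finset.filter_subset _ _
  have hcs := S1.cs3 (TT P J) (XX X₁ (3 * Q)) (Ioc 0 W)
    (fun t x w => LL (mv s (M * DD t * x * w))) (fun t x w => AA M φ t x w)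
    (fun _ _ _ => S1.LL_nonneg _)
  have hTF : ‖TF s M J P (XX X₁ (3 * Q)) W φ‖ ^ 2 ≤
      (∑ t ∈ TT P J, ∑ x ∈ XX X₁ (3 * Q), ∑ w ∈ Ioc 0 W, LL (mv s (M * DD t * x * w)) ^ 2) *
        VV M J P X₁ W φ := by
    rw [hSYM]
    refine hcs.trans (mul_le_mul_of_nonneg_left hA ?_)
    exact Finset.sum_nonneg fun _ _ => Finset.sum_nonneg fun _ _ => Finset.sum_nonneg fun _ _ => by
      positivity
  rw [← hφ, ← hK]
  exact S1.fin_ineq hL1 (by linarith) hK0 (mul_nonneg hCt.le (Real.log_natCast_nonneg _)) hK₂0 hTF hS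
    hVVle hVV0 f1

end

end MUR
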