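import Pool.Agent.MUR.StD

set_option autoImplicit false

/-!
# MUR, module S2: the middle range of denominators
-/

namespace MUR

open Finset IPR
open Pool.Agent.Lib_helper83.EF (e)

noncomputable section

namespace S2

lemma LL_nonneg (m : ℕ) : 0 ≤ LL m := by
  unfold LL
  split_ifs with h
  · exact Real.log_nonneg (by exact_mod_cast h.one_lt.le)
  · exact le_rfl

/-- Cauchy-Schwarz for the symmetrized form. -/
lemma tf_sq (hSYM : S_SYM) (s : ℤ) (M J W : ℕ) (P Xs : Finset ℕ) (φ : ℕ → ℂ) :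
    ‖TF s M J P Xs W φ‖ ^ 2 ≤
      (∑ t ∈ TT P J, ∑ x ∈ Xs, ∑ w ∈ Ioc 0 W, LL (mv s (M * DD t * x * w))) *
      ∑ t ∈ TT P J, ∑ x ∈ Xs, ∑ w ∈ Ioc 0 W, LL (mv s (M * DD t * x * w)) * ‖AA M φ t x w‖ ^ 2 := by
  rw [hSYM]
  have h1 : ‖∑ t ∈ TT P J, ∑ x ∈ Xs, ∑ w ∈ Ioc 0 W,
      (LL (mv s (M * DD t * x * w)) : ℂ) * AA M φ t x w‖ ≤
      ∑ p ∈ TT P J ×ˢ Xs ×ˢ Ioc 0 W, LL (mv s (M * DD p.1 * p.2.1 * p.2.2)) *
        ‖AA M φ p.1 p.2.1 p.2.2‖ := by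
    rw [Finset.sum_product]
    refine (norm_sum_le _ _).trans (Finset.sum_le_sum fun t _ => ?_)
    rw [Finset.sum_product]
    refine (norm_sum_le _ _).trans (Finset.sum_le_sum fun x _ => ?_)
    refine (norm_sum_le _ _).trans (Finset.sum_le_sum fun w _ => ?_)
    rw [norm_mul, Complex.norm_real, Real.norm_of_nonneg (LL_nonneg _)]
  have h2 : (∑ p ∈ TT P J ×ˢ Xs ×ˢ Ioc 0 W, LL (mv s (M * DD p.1 * p.2.1 * p.2.2)) *
        ‖AA M φ p.1 p.2.1 p.2.2‖) ^ 2 ≤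
      (∑ p ∈ TT P J ×ˢ Xs ×ˢ Ioc 0 W, LL (mv s (M * DD p.1 * p.2.1 * p.2.2))) *
      ∑ p ∈ TT P J ×ˢ Xs ×ˢ Ioc 0 W, LL (mv s (M * DD p.1 * p.2.1 * p.2.2)) *
        ‖AA M φ p.1 p.2.1 p.2.2‖ ^ 2 := by
    refine Finset.sum_sq_le_sum_mul_sum_of_sq_le_mul _ (fun p _ => LL_nonneg _)
      (fun p _ => mul_nonneg (LL_nonneg _) (sq_nonneg _)) (fun p _ => le_of_eq ?_)
    ring
  refine (pow_le_pow_left₀ (norm_nonneg _) h1 2).trans (h2.trans (le_of_eq ?_))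
  simp only [Finset.sum_product]

lemma card_TT_le (P : Finset ℕ) (J : ℕ) : ((TT P J).card : ℝ) ≤ (P.card : ℝ) ^ (2 * J) := by
  have h : (TT P J).card ≤ P.card ^ (2 * J) := by
    refine (Finset.card_filter_le _ _).trans (le_of_eq ?_)
    rw [Fintype.card_piFinset]
    simp only [Finset.card_product, Finset.prod_const, Finset.card_univ, Fintype.card_fin]
    rw [pow_mul, pow_two]
  exact_mod_cast h

lemma ft_ne {φ : ℕ → ℂ} {H i : ℕ} {θ : ℝ} (h : ft φ H i θ ≠ 0) :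
    ∃ n' ∈ Ico (i * H) (i * H + H), φ n' ≠ 0 := by
  obtain ⟨n', hn', h'⟩ := Finset.exists_ne_zero_of_sum_ne_zero h
  exact ⟨n', hn', left_ne_zero_of_mul h'⟩

lemma PQ_ne {𝒬 : Finset ℕ} {H n : ℕ} {α : ℕ → ℂ} (h : PQ 𝒬 H α n ≠ 0) :
    ∃ n' ∈ Ico (n / H * H) (n / H * H + H), α n' ≠ 0 := by
  have h1 := right_ne_zero_of_mul h
  obtain ⟨q, _, h2⟩ := Finset.exists_ne_zero_of_sum_ne_zero h1
  obtain ⟨a, _, h3⟩ := Finset.exists_ne_zero_of_sum_ne_zero h2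
  exact ft_ne (left_ne_zero_of_mul h3)

lemma sum_blocks (f : ℕ → ℝ) (H m : ℕ) :
    ∑ n ∈ range (m * H), f n = ∑ i ∈ range m, ∑ n ∈ Ico (i * H) (i * H + H), f n := by
  induction m with
  | zero => simp
  | succ m ih =>
    rw [Finset.sum_range_succ, ← ih, Nat.succ_mul, Finset.range_eq_Ico, Finset.range_eq_Ico,
      Finset.sum_Ico_consecutive _ (Nat.zero_le _) (Nat.le_add_right _ _)]

lemma sum_alpha (α : ℕ → ℂ) (X : ℕ) (s : Finset ℕ) (h1 : ∀ n, ‖α n‖ ≤ 1)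
    (h2 : ∀ n, α n ≠ 0 → X < n ∧ n ≤ 2 * X) : ∑ n ∈ s, ‖α n‖ ^ 2 ≤ X := by
  classical
  have h3 : ∑ n ∈ s, ‖α n‖ ^ 2 = ∑ n ∈ s.filter (fun n => α n ≠ 0), ‖α n‖ ^ 2 := by
    rw [Finset.sum_filter_of_ne]
    intro n _ hn h0
    rw [h0] at hn
    simp at hn
  have h4 : s.filter (fun n => α n ≠ 0) ⊆ Ioc X (2 * X) := by
    intro n hn
    exact Finset.mem_Ioc.2 (h2 n (Finset.mem_filter.1 hn).2)
  rw [h3]
  calc ∑ n ∈ s.filter (fun n => α n ≠ 0), ‖α n‖ ^ 2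
      ≤ ∑ n ∈ s.filter (fun n => α n ≠ 0), (1 : ℝ) :=
        Finset.sum_le_sum fun n _ => pow_le_one₀ (norm_nonneg _) (h1 n)
    _ = ((s.filter (fun n => α n ≠ 0)).card : ℝ) := by simp
    _ ≤ ((Ioc X (2 * X)).card : ℝ) := by exact_mod_cast Finset.card_le_card h4
    _ = X := by
      rw [Nat.card_Ioc]
      congr 1
      omega

/-- The square sum of the projection. -/
lemma sum_PQ (hE2 : S_E2) (𝒬 : Finset ℕ) (G H X B : ℕ) (α : ℕ → ℂ) (hH : 1 ≤ H) (hG : G ^ 2 ≤ H)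
    (hQ : ∀ q ∈ 𝒬, 1 ≤ q ∧ q ≤ G) (h1 : ∀ n, ‖α n‖ ≤ 1)
    (h2 : ∀ n, α n ≠ 0 → X < n ∧ n ≤ 2 * X) : ∑ n ∈ range B, ‖PQ 𝒬 H α n‖ ^ 2 ≤ 36 * X := by
  have hB : B ≤ (B / H + 1) * H := by
    have := Nat.lt_div_mul_add (a := B) (show 0 < H by omega)
    rw [Nat.succ_mul]
    omega
  calc ∑ n ∈ range B, ‖PQ 𝒬 H α n‖ ^ 2
      ≤ ∑ n ∈ range ((B / H + 1) * H), ‖PQ 𝒬 H α n‖ ^ 2 :=
        Finset.sum_le_sum_of_subset_of_nonneg (Finset.range_mono hB) fun _ _ _ => sq_nonneg _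
    _ = ∑ i ∈ range (B / H + 1), ∑ n ∈ Ico (i * H) (i * H + H), ‖PQ 𝒬 H α n‖ ^ 2 :=
        sum_blocks _ _ _
    _ ≤ ∑ i ∈ range (B / H + 1), 36 * ∑ n ∈ Ico (i * H) (i * H + H), ‖α n‖ ^ 2 :=
        Finset.sum_le_sum fun i _ => hE2 𝒬 G H i α hH hG hQ
    _ = 36 * ∑ n ∈ range ((B / H + 1) * H), ‖α n‖ ^ 2 := by
        rw [sum_blocks, Finset.mul_sum]
    _ ≤ 36 * X := by
        have := sum_alpha α X (range ((B / H + 1) * H)) h1 h2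
        linarith

/-- The thresholds for `X`. -/
lemma thr (d : ℝ) (hd : 0 < d) : ∃ X₀ : ℕ, ∀ X : ℕ, X₀ ≤ X →
    2 ≤ X ∧ 16 * Real.log X ≤ (X : ℝ) ^ (1 / 2 : ℝ) ∧ 2 ≤ (X : ℝ) ^ (d - d / 1000) := by
  have h1 : ∀ᶠ x : ℝ in Filter.atTop, ‖Real.log x‖ ≤ (1 / 16 : ℝ) * ‖x ^ (1 / 2 : ℝ)‖ :=
    (isLittleO_log_rpow_atTop (by norm_num : (0 : ℝ) < 1 / 2)).def (by norm_num)
  have h2 : ∀ᶠ x : ℝ in Filter.atTop, 2 ≤ x ^ (d - d / 1000) :=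
    (tendsto_rpow_atTop (by linarith : 0 < d - d / 1000)).eventually_ge_atTop 2
  have h3 : ∀ᶠ x : ℝ in Filter.atTop, 2 ≤ x := Filter.eventually_ge_atTop 2
  obtain ⟨A, hA⟩ := Filter.eventually_atTop.1 (h1.and (h2.and h3))
  refine ⟨⌈A⌉₊, fun X hX => ?_⟩
  obtain ⟨a1, a2, a3⟩ := hA X ((Nat.le_ceil A).trans (by exact_mod_cast hX))
  refine ⟨by exact_mod_cast a3, ?_, a2⟩
  rw [Real.norm_of_nonneg (Real.log_nonneg (by linarith)),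
    Real.norm_of_nonneg (by positivity)] at a1
  linarith

/-- The number of tuples for an active modulus. -/
lemma pi_bound (hPI : S_PI) {C₁ CD : ℝ} (hC₁ : 0 < C₁)
    (hD : ∀ k : ℕ, 1 ≤ k → (k.divisors.card : ℝ) ^ 2 ≤ CD * (k : ℝ) ^ (1 / 2 : ℝ) ∧
      (k.divisors.card : ℝ) ^ 2 / k.totient ≤ CD * (k : ℝ) ^ (-(1 / 2 : ℝ))) (hCD : 0 < CD)
    {L : ℝ} (hL : 2 ≤ L) {Q J M M₁ R' : ℕ} {P : Finset ℕ} (hg : GoodP C₁ Q J P)
    (hJ : (J : ℝ) ≤ 3 * L) (hJ2 : 2 ≤ J) (hQ : L ^ 100 ≤ Q)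
    (hP : (Q : ℝ) ^ (9 / 10 : ℝ) ≤ P.card) (hM : 1 ≤ M)
    (hR : 1 ≤ R') (hR' : (R' : ℝ) ≤ 2 * L ^ 6) (I : Finset (Fin J)) (hI : I.Nonempty) (q : ℕ)
    (hq : q ∈ QS M M₁ R' (2 * R')) :
    (((TT P J).filter (fun t => (q : ℤ) ∣ Dl M I t)).card : ℝ) ≤
      ((72 + 4 * C₁ * CD) * ((R' : ℝ) ^ (-(1 / 2 : ℝ)) + 1 / L)) * (P.card : ℝ) ^ (2 * J) := by
  obtain ⟨hq1, -, hq2, hq3⟩ := Finset.mem_filter.1 hq
  rw [Finset.mem_Icc] at hq1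
  set k := q / q.gcd M with hk
  have L0 : 0 < L := by linarith
  have hk1 : 1 ≤ k := by omega
  have hQ4 : 4 * L ^ 6 ≤ Q := by
    have h1 : (4 : ℝ) ≤ L ^ 94 := by
      calc (4 : ℝ) ≤ 2 ^ 94 := by norm_num
        _ ≤ L ^ 94 := pow_le_pow_left₀ (by norm_num) hL 94
    calc 4 * L ^ 6 ≤ L ^ 94 * L ^ 6 := by gcongr
      _ = L ^ 100 := by ring
      _ ≤ Q := hQ
  have hQ0 : (0 : ℝ) < Q := lt_of_lt_of_le (by positivity) hQ4
  have hQ2 : 2 ≤ Q := by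
    have : (2 : ℝ) ≤ Q := by
      calc (2 : ℝ) ≤ 4 * 2 ^ 6 := by norm_num
        _ ≤ 4 * L ^ 6 := by gcongr
        _ ≤ Q := hQ4
    exact_mod_cast this
  have hkQ : k ≤ Q := by
    have : (k : ℝ) ≤ Q := by
      calc (k : ℝ) ≤ ((2 * R' : ℕ) : ℝ) := by exact_mod_cast hq3
        _ = 2 * R' := by push_cast; ring
        _ ≤ 2 * (2 * L ^ 6) := by gcongr
        _ = 4 * L ^ 6 := by ring
        _ ≤ Q := hQ4
    exact_mod_cast this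
  have hkQ' : k ≤ Q ^ (4 * J) := hkQ.trans (Nat.le_self_pow (by omega) Q)
  have key := hPI C₁ Q J M q k P I hg hI hQ2 hM hq1.1 hkQ' hk1 dvd_rfl
  refine key.trans ?_
  rw [mul_comm]
  refine mul_le_mul_of_nonneg_right ?_ (by positivity)
  have hPc : L ^ 90 ≤ (P.card : ℝ) := by
    have h1 : (L ^ 100) ^ (9 / 10 : ℝ) = L ^ 90 := by
      rw [← Real.rpow_natCast L 100, ← Real.rpow_mul L0.le, ← Real.rpow_natCast L 90]
      norm_num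
    rw [← h1]
    exact (Real.rpow_le_rpow (by positivity) hQ (by norm_num)).trans hP
  have t1 : 8 * (J : ℝ) ^ 2 / P.card ≤ 72 * (1 / L) := by
    have h90 : (0 : ℝ) < L ^ 90 := by positivity
    have hJsq : (J : ℝ) ^ 2 ≤ (3 * L) ^ 2 := pow_le_pow_left₀ (Nat.cast_nonneg _) hJ 2
    have h2 : 8 * (J : ℝ) ^ 2 / P.card ≤ 72 * L ^ 2 / L ^ 90 := by
      refine div_le_div₀ (by positivity) ?_ h90 hPc
      nlinarith
    refine h2.trans ?_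
    rw [mul_one_div, div_le_div_iff₀ h90 L0]
    have h3 : L ^ 2 * L ≤ L ^ 90 := by
      rw [← pow_succ]
      exact pow_le_pow_right₀ (by linarith) (by norm_num)
    nlinarith
  have hdk := hD k hk1
  have hR0 : (0 : ℝ) < R' := by exact_mod_cast hR
  have t2 : (k.divisors.card : ℝ) ^ 2 / k.totient ≤ CD * (R' : ℝ) ^ (-(1 / 2 : ℝ)) := by
    refine hdk.2.trans ?_
    have : (k : ℝ) ^ (-(1 / 2 : ℝ)) ≤ (R' : ℝ) ^ (-(1 / 2 : ℝ)) :=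
      Real.rpow_le_rpow_of_nonpos hR0 (by exact_mod_cast hq2.le) (by norm_num)
    gcongr
  have t3 : (k.divisors.card : ℝ) ^ 2 * (Q : ℝ) ^ (-(1 / 3 : ℝ)) ≤ 2 * CD * (1 / L) := by
    have a1 : (k : ℝ) ^ (1 / 2 : ℝ) ≤ 2 * L ^ 3 := by
      have b1 : (k : ℝ) ≤ (2 * L ^ 3) ^ 2 := by
        calc (k : ℝ) ≤ ((2 * R' : ℕ) : ℝ) := by exact_mod_cast hq3
          _ = 2 * R' := by push_cast; ring
          _ ≤ 2 * (2 * L ^ 6) := by gcongr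
          _ = (2 * L ^ 3) ^ 2 := by ring
      rw [← Real.sqrt_eq_rpow]
      exact (Real.sqrt_le_sqrt b1).trans (le_of_eq (Real.sqrt_sq (by positivity)))
    have a2 : (Q : ℝ) ^ (-(1 / 3 : ℝ)) ≤ (L ^ 4)⁻¹ := by
      have b1 : (Q : ℝ) ^ (-(1 / 3 : ℝ)) ≤ (L ^ 100) ^ (-(1 / 3 : ℝ)) :=
        Real.rpow_le_rpow_of_nonpos (by positivity) hQ (by norm_num)
      have b2 : (L ^ 100) ^ (-(1 / 3 : ℝ)) ≤ (L ^ 4)⁻¹ := by
        rw [← Real.rpow_natCast L 100, ← Real.rpow_mul L0.le, ← Real.rpow_natCast L 4,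
          ← Real.rpow_neg L0.le]
        exact Real.rpow_le_rpow_of_exponent_le (by linarith) (by norm_num)
      exact b1.trans b2
    calc (k.divisors.card : ℝ) ^ 2 * (Q : ℝ) ^ (-(1 / 3 : ℝ))
        ≤ (CD * (k : ℝ) ^ (1 / 2 : ℝ)) * (L ^ 4)⁻¹ := by
          refine mul_le_mul hdk.1 a2 (by positivity) (by positivity)
      _ ≤ (CD * (2 * L ^ 3)) * (L ^ 4)⁻¹ := by gcongr
      _ = 2 * CD * (1 / L) := by field_simp
  have e1 : 8 * (J : ℝ) ^ 2 / P.card + 2 * C₁ * (k.divisors.card : ℝ) ^ 2 *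
      (1 / (k.totient : ℝ) + (Q : ℝ) ^ (-(1 / 3 : ℝ))) =
      8 * (J : ℝ) ^ 2 / P.card + 2 * C₁ * ((k.divisors.card : ℝ) ^ 2 / k.totient) +
      2 * C₁ * ((k.divisors.card : ℝ) ^ 2 * (Q : ℝ) ^ (-(1 / 3 : ℝ))) := by ring
  rw [e1]
  have t2' := mul_le_mul_of_nonneg_left t2 (by positivity : 0 ≤ 2 * C₁)
  have t3' := mul_le_mul_of_nonneg_left t3 (by positivity : 0 ≤ 2 * C₁)
  have p1 : 0 ≤ (R' : ℝ) ^ (-(1 / 2 : ℝ)) := by positivity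
  have p2 : 0 ≤ 1 / L := by positivity
  have p3 : 0 ≤ C₁ * CD := by positivity
  nlinarith [mul_nonneg p3 p1, mul_nonneg p3 p2]

/-- The second moment. -/
lemma vv_bound (hVB : S_VB) (hE1 : S_E1) (hE2 : S_E2) (hPI : S_PI) {C₁ CD : ℝ} (hC₁ : 0 < C₁)
    (hD : ∀ k : ℕ, 1 ≤ k → (k.divisors.card : ℝ) ^ 2 ≤ CD * (k : ℝ) ^ (1 / 2 : ℝ) ∧
      (k.divisors.card : ℝ) ^ 2 / k.totient ≤ CD * (k : ℝ) ^ (-(1 / 2 : ℝ))) (hCD : 0 < CD)
    {R₁ X J Q X₁ H W : ℕ} {d : ℝ} {P : Finset ℕ} (hc : Cfg C₁ R₁ X J Q X₁ H W d P)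
    (hX2 : 2 ≤ X) (hX16 : 16 * Real.log X ≤ (X : ℝ) ^ (1 / 2 : ℝ))
    (hXd : 2 ≤ (X : ℝ) ^ (d - d / 1000)) (hll : 1 ≤ Real.log (Real.log X))
    (hpr : ∀ p ∈ (pri R₁).primeFactors, p ≤ R₁) (hM : 1 ≤ pri R₁) (hMM : pri R₁ ∣ MM1 R₁)
    (hM1 : 1 ≤ MM1 R₁) (hRQ : 3 * R₁ ≤ Q) (hHlo : (X : ℝ) ^ (1 - d) < 2 * H)
    (hHhi : (H : ℝ) ≤ (X : ℝ) ^ (1 - d)) (hP : (Q : ℝ) ^ (9 / 10 : ℝ) ≤ P.card) (hQ16 : 16 ≤ Q)
    (hG10 : ((16 * MM1 R₁ * Q ^ (2 * J) : ℕ) : ℝ) ^ 10 ≤ (X : ℝ) ^ (d / 1000))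
    {R' : ℕ} {α : ℕ → ℂ} (hR : R₁ ≤ R') (hR' : (R' : ℝ) ≤ 2 * Real.log X ^ 6)
    (hα : ∀ n, ‖α n‖ ≤ 1) (hα2 : ∀ n, α n ≠ 0 → X < n ∧ n ≤ 2 * X) :
    VV (pri R₁) J P X₁ W (PQ (QS (pri R₁) (MM1 R₁) R' (2 * R')) H α) ≤
      (36 * (12 * (72 + 4 * C₁ * CD) + 26) + 1) *
        ((R' : ℝ) ^ (-(1 / 2 : ℝ)) + 1 / Real.log X) * KK X J Q X₁ P := by
  set L := Real.log X with hLdef
  set M := pri R₁ with hMdef
  set M₁ := MM1 R₁ with hM₁def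
  set G := 16 * M₁ * Q ^ (2 * J) with hGdef
  set 𝒬 := QS M M₁ R' (2 * R') with h𝒬def
  set φ := PQ 𝒬 H α with hφdef
  have hd0 := hc.d0
  have hd1 := hc.d1
  have hX0 : (0 : ℝ) < X := by
    have : 0 < X := by omega
    exact_mod_cast this
  have hX1 : (1 : ℝ) ≤ X := by
    have : 1 ≤ X := by omega
    exact_mod_cast this
  have hL0 : 0 < L := by
    rcases lt_trichotomy L 0 with h | h | h
    · exact absurd (Real.log_nonneg hX1) (not_le.2 h)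
    · rw [h, Real.log_zero] at hll
      linarith
    · exact h
  have hLe : Real.exp 1 ≤ L := by
    rw [← Real.le_log_iff_exp_le hL0]
    exact hll
  have hL2 : 2 ≤ L := by
    have := Real.add_one_le_exp (1 : ℝ)
    linarith
  have hJL : (J : ℝ) ≤ 3 * L := by
    refine hc.Jhi.trans ?_
    have := Real.log_le_sub_one_of_pos hL0
    linarith
  have hQlo : L ^ 100 ≤ Q := hc.Qlo
  have hR1 : 1 ≤ R' := by
    have := hc.R2
    omega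
  -- powers of X
  have hG1 : 1 ≤ G := by
    have h1 : 0 < Q ^ (2 * J) := pow_pos (by omega) _
    have h2 : 0 < 16 * M₁ * Q ^ (2 * J) := by positivity
    omega
  have hG1r : (1 : ℝ) ≤ G := by exact_mod_cast hG1
  have hX1d : (X : ℝ) ^ (1 - d) ≤ X := by
    calc (X : ℝ) ^ (1 - d) ≤ (X : ℝ) ^ (1 : ℝ) :=
          Real.rpow_le_rpow_of_exponent_le hX1 (by linarith)
      _ = X := Real.rpow_one _
  have hbig : 2 * (X : ℝ) ^ (d / 1000) ≤ (X : ℝ) ^ (1 - d) := by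
    calc 2 * (X : ℝ) ^ (d / 1000) ≤ (X : ℝ) ^ (d - d / 1000) * (X : ℝ) ^ (d / 1000) := by gcongr
      _ = (X : ℝ) ^ d := by rw [← Real.rpow_add hX0]; congr 1; ring
      _ ≤ (X : ℝ) ^ (1 - d) := Real.rpow_le_rpow_of_exponent_le hX1 (by linarith)
  have hbig2 : 2 * (X : ℝ) ^ (1 - d + d / 1000) ≤ X := by
    calc 2 * (X : ℝ) ^ (1 - d + d / 1000)
        ≤ (X : ℝ) ^ (d - d / 1000) * (X : ℝ) ^ (1 - d + d / 1000) := by gcongr
      _ = (X : ℝ) ^ (1 : ℝ) := by rw [← Real.rpow_add hX0]; congr 1; ring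
      _ = X := Real.rpow_one _
  have hGH10 : (G : ℝ) ^ 10 ≤ H := by
    have : 2 * (G : ℝ) ^ 10 < 2 * H := by
      calc 2 * (G : ℝ) ^ 10 ≤ 2 * (X : ℝ) ^ (d / 1000) := by gcongr
        _ ≤ (X : ℝ) ^ (1 - d) := hbig
        _ < 2 * H := hHlo
    linarith
  have hG2 : G ^ 2 ≤ H := by
    have : (G : ℝ) ^ 2 ≤ H := (pow_le_pow_right₀ hG1r (by norm_num)).trans hGH10
    exact_mod_cast this
  have hGle : (G : ℝ) ≤ (X : ℝ) ^ (d / 1000) := by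
    calc (G : ℝ) = (G : ℝ) ^ 1 := (pow_one _).symm
      _ ≤ (G : ℝ) ^ 10 := pow_le_pow_right₀ hG1r (by norm_num)
      _ ≤ _ := hG10
  have hH0 : (0 : ℝ) < H := lt_of_lt_of_le (by positivity) hGH10
  have hH1 : 1 ≤ H := by exact_mod_cast hH0
  have hMle : M ≤ M₁ := Nat.le_of_dvd (by omega) hMM
  have h8G : 8 * M * Q ^ (2 * J) ≤ G := by
    rw [hGdef]
    gcongr
    · norm_num
  have hRQ' : 2 * R' ≤ Q := by
    have h1 : (4 : ℝ) ≤ L ^ 94 := by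
      calc (4 : ℝ) ≤ 2 ^ 94 := by norm_num
        _ ≤ L ^ 94 := pow_le_pow_left₀ (by norm_num) hL2 94
    have : ((2 * R' : ℕ) : ℝ) ≤ Q := by
      calc ((2 * R' : ℕ) : ℝ) = 2 * R' := by push_cast; ring
        _ ≤ 2 * (2 * L ^ 6) := by gcongr
        _ = 4 * L ^ 6 := by ring
        _ ≤ L ^ 94 * L ^ 6 := by gcongr
        _ = L ^ 100 := by ring
        _ ≤ Q := hQlo
    exact_mod_cast this
  have h𝒬G : ∀ q ∈ 𝒬, 1 ≤ q ∧ q ≤ G := by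
    intro q hq
    have h1 := Finset.mem_Icc.1 (Finset.mem_filter.1 hq).1
    refine ⟨h1.1, h1.2.trans ?_⟩
    calc M * (2 * R') ≤ M₁ * Q := Nat.mul_le_mul hMle hRQ'
      _ ≤ M₁ * Q ^ (2 * J) := by
        have := hc.J2
        exact Nat.mul_le_mul_left _ (Nat.le_self_pow (by omega) Q)
      _ ≤ 16 * M₁ * Q ^ (2 * J) := by nlinarith [Nat.zero_le (M₁ * Q ^ (2 * J))]
  have hsupp : ∀ n, φ n ≠ 0 → n < 3 * X ∧ 6 * M * X₁ * Q ^ J < n ∧ n ≤ W * Q ^ J := by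
    intro n hn
    obtain ⟨n', hn', hα'⟩ := PQ_ne hn
    obtain ⟨g1, g2⟩ := hα2 n' hα'
    rw [Finset.mem_Ico] at hn'
    have e1 : n / H * H ≤ n := Nat.div_mul_le_self n H
    have e2 : n < n / H * H + H := Nat.lt_div_mul_add (by omega)
    have hHX : H ≤ X := by
      have : (H : ℝ) ≤ X := hHhi.trans hX1d
      exact_mod_cast this
    have e3 : n < 3 * X := by omega
    refine ⟨e3, ?_, (by omega : n ≤ 3 * X).trans hc.Wlo⟩
    have hJJ : Q ^ J ≤ Q ^ (2 * J) := Nat.pow_le_pow_right (by omega) (by omega)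
    have k1 : ((6 * M * X₁ * Q ^ J : ℕ) : ℝ) ≤ (X : ℝ) ^ (1 - d + d / 1000) := by
      calc ((6 * M * X₁ * Q ^ J : ℕ) : ℝ) = (X₁ : ℝ) * ((6 * M * Q ^ J : ℕ) : ℝ) := by
            push_cast; ring
        _ ≤ (X : ℝ) ^ (1 - d) * (X : ℝ) ^ (d / 1000) := by
            refine mul_le_mul hc.X₁hi (le_trans ?_ hGle) (Nat.cast_nonneg _) (by positivity)
            have : 6 * M * Q ^ J ≤ G := by
              calc 6 * M * Q ^ J ≤ 16 * M₁ * Q ^ (2 * J) := by gcongr; norm_num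
                _ = G := hGdef.symm
            exact_mod_cast this
        _ = (X : ℝ) ^ (1 - d + d / 1000) := by rw [← Real.rpow_add hX0]
    have k2 : (X : ℝ) ^ (1 - d) ≤ (X : ℝ) ^ (1 - d + d / 1000) :=
      Real.rpow_le_rpow_of_exponent_le hX1 (by linarith)
    have k3 : ((6 * M * X₁ * Q ^ J : ℕ) : ℝ) + H ≤ X := by linarith
    have k4 : 6 * M * X₁ * Q ^ J + H ≤ X := by exact_mod_cast k3
    omega
  have hact : ∀ I : Finset (Fin J), I.Nonempty → ∀ q ∈ 𝒬,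
      (((TT P J).filter (fun t => (q : ℤ) ∣ Dl M I t)).card : ℝ) ≤
        ((72 + 4 * C₁ * CD) * ((R' : ℝ) ^ (-(1 / 2 : ℝ)) + 1 / L)) * (P.card : ℝ) ^ (2 * J) :=
    fun I hI q hq => pi_bound hPI hC₁ hD hCD hL2 hc.good hJL hc.J2 hQlo hP hM hR1 hR' I hI q hq
  have hτ : ∀ q ∈ Icc 1 G, q ∉ 𝒬 → ∀ a ∈ cop q, ∀ i, ‖ft φ H i ((a : ℝ) / q)‖ ^ 2 ≤ (G : ℝ) ^ 8 := by
    intro q hq hq' a ha i
    have h1 := hE1 𝒬 G H i α hH1 hα h𝒬G q hq a ha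
    rw [if_neg hq', sub_zero] at h1
    calc ‖ft φ H i ((a : ℝ) / q)‖ ^ 2 ≤ ((G : ℝ) ^ 4) ^ 2 :=
          pow_le_pow_left₀ (norm_nonneg _) h1 2
      _ = (G : ℝ) ^ 8 := by ring
  have hX₁H : X₁ ≤ 2 * H := by
    have : (X₁ : ℝ) ≤ ((2 * H : ℕ) : ℝ) := by
      push_cast
      exact hc.X₁hi.trans hHlo.le
    exact_mod_cast this
  have hHX₁ : H ≤ 2 * X₁ := by
    have : (H : ℝ) ≤ ((2 * X₁ : ℕ) : ℝ) := by
      push_cast
      exact hHhi.trans hc.X₁lo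
    exact_mod_cast this
  set pq₀ := (72 + 4 * C₁ * CD) * ((R' : ℝ) ^ (-(1 / 2 : ℝ)) + 1 / L) with hpq
  have key := hVB C₁ Q J M X₁ H W (3 * X) G P φ pq₀ ((G : ℝ) ^ 8) 𝒬 hc.good hc.J2 hQ16 hM
    (fun p hp => (hpr p hp).trans (by omega)) hH1 (by positivity) (by positivity) h8G hG2 hHX₁
    hX₁H hsupp hact hτ
  have hE : ∑ n ∈ range (3 * X), ‖φ n‖ ^ 2 ≤ 36 * X :=
    sum_PQ hE2 𝒬 G H X (3 * X) α hH1 hG2 h𝒬G hα hα2
  set u := (R' : ℝ) ^ (-(1 / 2 : ℝ)) + 1 / L with hu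
  have hR0 : (0 : ℝ) < R' := by exact_mod_cast hR1
  have hu1 : 1 / L ≤ u := by
    have : 0 ≤ (R' : ℝ) ^ (-(1 / 2 : ℝ)) := by positivity
    linarith
  have hu0 : 0 < u := lt_of_lt_of_le (by positivity) hu1
  -- the bracket
  have b1 : (2 : ℝ) / 2 ^ J ≤ 2 * (1 / L) := by
    have h1 : L ≤ 2 ^ J := by
      refine le_trans ?_ hc.Jlo
      calc L = L ^ (1 : ℝ) := (Real.rpow_one _).symm
        _ ≤ L ^ (13 / 10 : ℝ) := Real.rpow_le_rpow_of_exponent_le (by linarith) (by norm_num)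
    rw [mul_one_div]
    exact div_le_div_of_nonneg_left (by norm_num) hL0 h1
  have hQ0 : (0 : ℝ) < Q := by
    have : 0 < Q := by omega
    exact_mod_cast this
  have hLQ : ∀ m : ℕ, 1 ≤ m → m ≤ 100 → L ^ m ≤ Q := fun m _ hm =>
    (pow_le_pow_right₀ (by linarith) hm).trans hQlo
  have b2 : 4 * Real.sqrt Q / P.card ≤ 4 * (1 / L) := by
    have hP0 : (0 : ℝ) < P.card := lt_of_lt_of_le (Real.rpow_pos_of_pos hQ0 _) hP
    have h1 : Real.sqrt Q * L ≤ P.card := by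
      refine le_trans ?_ hP
      have h2 : L ≤ (Q : ℝ) ^ (2 / 5 : ℝ) := by
        have h3 : (L ^ 100) ^ (2 / 5 : ℝ) = L ^ 40 := by
          rw [← Real.rpow_natCast L 100, ← Real.rpow_mul hL0.le, ← Real.rpow_natCast L 40]
          norm_num
        calc L = L ^ 1 := (pow_one _).symm
          _ ≤ L ^ 40 := pow_le_pow_right₀ (by linarith) (by norm_num)
          _ = (L ^ 100) ^ (2 / 5 : ℝ) := h3.symm
          _ ≤ (Q : ℝ) ^ (2 / 5 : ℝ) := Real.rpow_le_rpow (by positivity) hQlo (by norm_num)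
      calc Real.sqrt Q * L ≤ (Q : ℝ) ^ (1 / 2 : ℝ) * (Q : ℝ) ^ (2 / 5 : ℝ) := by
            rw [Real.sqrt_eq_rpow]
            gcongr
        _ = (Q : ℝ) ^ (9 / 10 : ℝ) := by rw [← Real.rpow_add hQ0]; norm_num
    rw [mul_one_div, div_le_div_iff₀ hP0 hL0]
    nlinarith
  have b3 : (20 : ℝ) / Q ≤ 20 * (1 / L) := by
    rw [mul_one_div]
    refine div_le_div_of_nonneg_left (by norm_num) hL0 ?_
    have := hLQ 1 le_rfl (by norm_num)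
    rwa [pow_one] at this
  have b4 : (2 / 2 ^ J + 12 * pq₀ + 4 * Real.sqrt Q / P.card + 20 / Q) ≤
      (12 * (72 + 4 * C₁ * CD) + 26) * u := by
    rw [hpq]
    nlinarith
  have b4' : 0 ≤ 2 / 2 ^ J + 12 * pq₀ + 4 * Real.sqrt Q / P.card + 20 / Q := by positivity
  have b5 : 2 * (((3 * X : ℕ) : ℝ) / H + 1) * (G : ℝ) ^ 2 * (G : ℝ) ^ 8 / H ≤ X * u := by
    have h1 : ((3 * X : ℕ) : ℝ) / H + 1 ≤ 4 * X / H := by
      have h2 : (1 : ℝ) ≤ X / H := by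
        rw [one_le_div hH0]
        exact hHhi.trans hX1d
      push_cast
      have : (4 : ℝ) * X / H = 3 * X / H + X / H := by ring
      linarith
    have h3 : 16 * L ≤ 2 * H := by
      refine hX16.trans (le_trans ?_ hHlo.le)
      exact Real.rpow_le_rpow_of_exponent_le hX1 (by linarith)
    calc 2 * (((3 * X : ℕ) : ℝ) / H + 1) * (G : ℝ) ^ 2 * (G : ℝ) ^ 8 / H
        = 2 * (((3 * X : ℕ) : ℝ) / H + 1) * ((G : ℝ) ^ 10 / H) := by ring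
      _ ≤ 2 * (4 * (X : ℝ) / H) * 1 := by
          refine mul_le_mul ?_ ?_ (by positivity) (by positivity)
          · linarith
          · rw [div_le_one hH0]
            exact hGH10
      _ = (X : ℝ) * (8 / H) := by ring
      _ ≤ (X : ℝ) * (1 / L) := by
          refine mul_le_mul_of_nonneg_left ?_ hX0.le
          rw [div_le_div_iff₀ hH0 hL0]
          linarith
      _ ≤ (X : ℝ) * u := by gcongr
  have b6 : (2 / 2 ^ J + 12 * pq₀ + 4 * Real.sqrt Q / P.card + 20 / Q) *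
      ∑ n ∈ range (3 * X), ‖φ n‖ ^ 2 ≤ ((12 * (72 + 4 * C₁ * CD) + 26) * u) * (36 * X) := by
    refine mul_le_mul b4 hE (Finset.sum_nonneg fun _ _ => sq_nonneg _) (by positivity)
  refine key.trans ?_
  have b7 : (2 / 2 ^ J + 12 * pq₀ + 4 * Real.sqrt Q / P.card + 20 / Q) *
      ∑ n ∈ range (3 * X), ‖φ n‖ ^ 2 +
      2 * (((3 * X : ℕ) : ℝ) / H + 1) * (G : ℝ) ^ 2 * (G : ℝ) ^ 8 / H ≤
      (36 * (12 * (72 + 4 * C₁ * CD) + 26) + 1) * u * X := by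
    nlinarith
  calc (P.card : ℝ) ^ (2 * J) * (X₁ / (Q : ℝ) ^ J) *
      ((2 / 2 ^ J + 12 * pq₀ + 4 * Real.sqrt Q / P.card + 20 / Q) *
      ∑ n ∈ range (3 * X), ‖φ n‖ ^ 2 +
      2 * (((3 * X : ℕ) : ℝ) / H + 1) * (G : ℝ) ^ 2 * (G : ℝ) ^ 8 / H)
      ≤ (P.card : ℝ) ^ (2 * J) * (X₁ / (Q : ℝ) ^ J) *
        ((36 * (12 * (72 + 4 * C₁ * CD) + 26) + 1) * u * X) :=
        mul_le_mul_of_nonneg_left b7 (by positivity)
    _ = (36 * (12 * (72 + 4 * C₁ * CD) + 26) + 1) * u * KK X J Q X₁ P := by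
        unfold KK
        ring

end S2

theorem t_S2 : M_S2 := by
  intro hSYM hTOT hF2 hVB hE1 hE2 hPI hDIV hCF C₁ hC₁
  obtain ⟨CT, hCT, hTOT⟩ := hTOT C₁ hC₁
  obtain ⟨CF, hCF0, hF2⟩ := hF2 C₁ hC₁
  obtain ⟨CD, hCD, hD⟩ := hDIV
  set CV : ℝ := 36 * (12 * (72 + 4 * C₁ * CD) + 26) + 1 with hCV
  have hCV0 : 0 < CV := by positivity
  refine ⟨Real.sqrt (CT * CF * (CV + 7)), by positivity, fun R₁ d => ?_⟩
  obtain ⟨XT, hTOT⟩ := hTOT R₁ d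
  obtain ⟨XF, hF2⟩ := hF2 R₁ d
  obtain ⟨XC, hCF⟩ := hCF C₁ hC₁ R₁ d 1
  rcases le_or_gt d 0 with hd | hd
  · exact ⟨0, fun X _ J Q X₁ H W P s hc => absurd hc.d0 (not_lt.2 hd)⟩
  obtain ⟨XA, hA⟩ := S2.thr d hd
  refine ⟨XT + XF + XC + XA, fun X hX J Q X₁ H W P s hc hs R' α hR hR' hα hα2 => ?_⟩
  obtain ⟨hX2, hX16, hXd⟩ := hA X (by omega)
  obtain ⟨-, hll, -, hpr, hM, hMM, hM1, -, hRQ, -, hHlo, hHhi, -, -, -, hP, -, -, hQ16, -, hG10,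
    -, -, -⟩ := hCF X (by omega) J Q X₁ H W P hc
  have hV := S2.vv_bound hVB hE1 hE2 hPI hC₁ hD hCD hc hX2 hX16 hXd hll hpr hM hMM hM1 hRQ hHlo hHhi
    hP hQ16 hG10 hR hR' hα hα2
  rw [← hCV] at hV
  set L := Real.log X with hL
  set ℓ := Real.log L with hℓ
  set φ := PQ (QS (pri R₁) (MM1 R₁) R' (2 * R')) H α with hφ
  set u := (R' : ℝ) ^ (-(1 / 2 : ℝ)) + 1 / L with hu
  have hX0 : (0 : ℝ) < X := by
    have : 0 < X := by omega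
    exact_mod_cast this
  have hX1 : (1 : ℝ) ≤ X := by
    have : 1 ≤ X := by omega
    exact_mod_cast this
  have hL0 : 0 < L := by
    rcases lt_trichotomy L 0 with h | h | h
    · exact absurd (Real.log_nonneg hX1) (not_le.2 h)
    · rw [hℓ, h, Real.log_zero] at hll
      linarith
    · exact h
  have hL1 : 1 ≤ L := by
    have h1 : Real.exp 1 ≤ L := by
      rw [← Real.le_log_iff_exp_le hL0]
      exact hll
    have := Real.add_one_le_exp (1 : ℝ)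
    linarith
  have hℓ0 : 0 < ℓ := by linarith
  have hR2 := hc.R2
  have hR'2 : (2 : ℝ) ≤ R' := by exact_mod_cast (hR2.trans hR)
  have hR0 : (0 : ℝ) < R' := by linarith
  have hlR : 0 ≤ Real.log R' := Real.log_nonneg (by linarith)
  have hlR₁ : 0 ≤ Real.log R₁ := Real.log_nonneg (by
    have : (2 : ℝ) ≤ R₁ := by exact_mod_cast hR2
    linarith)
  have hQ0 : (0 : ℝ) < Q := by
    have : 0 < Q := by omega
    exact_mod_cast this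
  have hK0 : 0 ≤ KK X J Q X₁ P := by unfold KK; positivity
  have hu1 : 1 / L ≤ u := by
    have : 0 ≤ (R' : ℝ) ^ (-(1 / 2 : ℝ)) := by positivity
    linarith
  -- the total mass
  have h1 := hTOT X (by omega) J Q X₁ H W P s hc hs
  -- the weighted second moment
  have h2 : ∑ t ∈ TT P J, ∑ x ∈ XX X₁ (3 * Q), ∑ w ∈ Ioc 0 W,
      LL (mv s (pri R₁ * DD t * x * w)) * ‖AA (pri R₁) φ t x w‖ ^ 2 ≤
      CF * Real.log R' ^ 2 / ℓ * ((CV + 7) * u * KK X J Q X₁ P) := by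
    have h3 : ∀ t ∈ TT P J, ∑ x ∈ XX X₁ (3 * Q), ∑ w ∈ Ioc 0 W,
        LL (mv s (pri R₁ * DD t * x * w)) * ‖AA (pri R₁) φ t x w‖ ^ 2 ≤
        CF * Real.log R' ^ 2 / ℓ *
          (∑ x ∈ Ioc X₁ (2 * X₁), ∑ w ∈ Ioc 0 W, ‖AA (pri R₁) φ t x w‖ ^ 2 +
            (X₁ : ℝ) * W / L ^ 10) := by
      intro t ht
      refine hF2 X (by omega) J Q X₁ H W P s hc hs R' _ α hR hR' ?_ hα t ht
      intro q hq
      obtain ⟨q1, -, q2, q3⟩ := Finset.mem_filter.1 hq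
      rw [Finset.mem_Icc] at q1
      refine ⟨q1.1, q1.2.trans (le_of_eq (by ring)), fun p hp => ?_⟩
      have hpp := Nat.prime_of_mem_primeFactors hp
      have hpd := Nat.dvd_of_mem_primeFactors hp
      have e1 : q = q.gcd (pri R₁) * (q / q.gcd (pri R₁)) :=
        (Nat.mul_div_cancel' (Nat.gcd_dvd_left _ _)).symm
      rw [e1, hpp.dvd_mul] at hpd
      rcases hpd with h | h
      · have h4 : p ∣ pri R₁ := h.trans (Nat.gcd_dvd_right _ _)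
        have := hpr p (Nat.mem_primeFactors.2 ⟨hpp, h4, by omega⟩)
        omega
      · exact (Nat.le_of_dvd (by omega) h).trans q3
    have h5 : (X₁ : ℝ) * W / L ^ 10 * (TT P J).card ≤ 7 * u * KK X J Q X₁ P := by
      have hQJ : (0 : ℝ) < (Q : ℝ) ^ J := by positivity
      have h6 : (W : ℝ) ≤ 7 * X / (Q : ℝ) ^ J := by
        rw [le_div_iff₀ hQJ]
        have := hc.Whi
        exact_mod_cast this
      have h7 := S2.card_TT_le P J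
      have h8 : 1 / L ^ 10 ≤ u := by
        refine le_trans ?_ hu1
        refine one_div_le_one_div_of_le hL0 ?_
        calc L = L ^ 1 := (pow_one _).symm
          _ ≤ L ^ 10 := pow_le_pow_right₀ hL1 (by norm_num)
      calc (X₁ : ℝ) * W / L ^ 10 * (TT P J).card
          = (X₁ : ℝ) * W * (TT P J).card * (1 / L ^ 10) := by ring
        _ ≤ (X₁ : ℝ) * (7 * X / (Q : ℝ) ^ J) * (P.card : ℝ) ^ (2 * J) * u := by gcongr
        _ = 7 * u * KK X J Q X₁ P := by unfold KK; ring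
    calc ∑ t ∈ TT P J, ∑ x ∈ XX X₁ (3 * Q), ∑ w ∈ Ioc 0 W,
          LL (mv s (pri R₁ * DD t * x * w)) * ‖AA (pri R₁) φ t x w‖ ^ 2
        ≤ ∑ t ∈ TT P J, CF * Real.log R' ^ 2 / ℓ *
          (∑ x ∈ Ioc X₁ (2 * X₁), ∑ w ∈ Ioc 0 W, ‖AA (pri R₁) φ t x w‖ ^ 2 +
            (X₁ : ℝ) * W / L ^ 10) := Finset.sum_le_sum h3
      _ = CF * Real.log R' ^ 2 / ℓ * (VV (pri R₁) J P X₁ W φ +
            (X₁ : ℝ) * W / L ^ 10 * (TT P J).card) := by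
          rw [← Finset.mul_sum, Finset.sum_add_distrib, Finset.sum_const, nsmul_eq_mul]
          unfold VV
          ring
      _ ≤ CF * Real.log R' ^ 2 / ℓ * ((CV + 7) * u * KK X J Q X₁ P) := by
          refine mul_le_mul_of_nonneg_left ?_ (by positivity)
          linarith
  have h3 := S2.tf_sq hSYM s (pri R₁) J W P (XX X₁ (3 * Q)) φ
  have hLLs : 0 ≤ ∑ t ∈ TT P J, ∑ x ∈ XX X₁ (3 * Q), ∑ w ∈ Ioc 0 W,
      LL (mv s (pri R₁ * DD t * x * w)) * ‖AA (pri R₁) φ t x w‖ ^ 2 :=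
    Finset.sum_nonneg fun t _ => Finset.sum_nonneg fun x _ => Finset.sum_nonneg fun w _ =>
      mul_nonneg (S2.LL_nonneg _) (sq_nonneg _)
  have h4 : ‖TF s (pri R₁) J P (XX X₁ (3 * Q)) W φ‖ ^ 2 ≤
      (CT * Real.log R₁ * KK X J Q X₁ P / ℓ) *
        (CF * Real.log R' ^ 2 / ℓ * ((CV + 7) * u * KK X J Q X₁ P)) :=
    h3.trans (mul_le_mul h1 h2 hLLs (by positivity))
  set v := (R' : ℝ) ^ (-(1 / 4 : ℝ)) + L ^ (-(1 / 2 : ℝ)) with hv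
  have hv0 : 0 ≤ v := by positivity
  have huv : u ≤ v ^ 2 := by
    have e1 : ((R' : ℝ) ^ (-(1 / 4 : ℝ))) ^ 2 = (R' : ℝ) ^ (-(1 / 2 : ℝ)) := by
      rw [← Real.rpow_natCast, ← Real.rpow_mul hR0.le]
      norm_num
    have e2 : (L ^ (-(1 / 2 : ℝ))) ^ 2 = 1 / L := by
      have e4 : (-(1 / 2 : ℝ)) * ((2 : ℕ) : ℝ) = -1 := by norm_num
      rw [← Real.rpow_natCast, ← Real.rpow_mul hL0.le, e4, Real.rpow_neg_one, one_div]
    have e3 : 0 ≤ (R' : ℝ) ^ (-(1 / 4 : ℝ)) * L ^ (-(1 / 2 : ℝ)) := by positivity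
    rw [hu, hv, add_sq, e1, e2]
    linarith
  have h5 : ‖TF s (pri R₁) J P (XX X₁ (3 * Q)) W φ‖ ^ 2 ≤
      (Real.sqrt (CT * CF * (CV + 7)) * Real.sqrt (Real.log R₁) * Real.log R' * v *
        KK X J Q X₁ P / ℓ) ^ 2 := by
    refine h4.trans ?_
    have e1 : (Real.sqrt (CT * CF * (CV + 7)) * Real.sqrt (Real.log R₁) * Real.log R' * v *
        KK X J Q X₁ P / ℓ) ^ 2 = (CT * CF * (CV + 7)) * Real.log R₁ * Real.log R' ^ 2 * v ^ 2 *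
        KK X J Q X₁ P ^ 2 / ℓ ^ 2 := by
      rw [div_pow, mul_pow, mul_pow, mul_pow, mul_pow, Real.sq_sqrt (by positivity),
        Real.sq_sqrt hlR₁]
    rw [e1]
    have e2 : (CT * Real.log R₁ * KK X J Q X₁ P / ℓ) *
        (CF * Real.log R' ^ 2 / ℓ * ((CV + 7) * u * KK X J Q X₁ P)) =
        (CT * CF * (CV + 7)) * Real.log R₁ * Real.log R' ^ 2 * u *
        KK X J Q X₁ P ^ 2 / ℓ ^ 2 := by
      field_simp
    rw [e2]
    gcongr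
  exact le_of_sq_le_sq h5 (by positivity)

end

end MUR
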