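import Mathlib
import Pool.Agent.MUR.StD

set_option autoImplicit false

namespace MUR

open Finset IPR
open Pool.Agent.Lib_helper83.EF (e)

noncomputable section

namespace S3

lemma LL_nonneg (m : ℕ) : 0 ≤ LL m := by
  unfold LL
  split_ifs
  · exact Real.log_natCast_nonneg m
  · exact le_rfl

/-- lower bound for the mass on a class in a block -/
lemma block_mass (G : ℕ → ℝ) (H M₁ X n : ℕ) (hH : 0 < H) (hM : 0 < M₁) (hdvd : M₁ ∣ H)
    (hHX : H ≤ X) (hG : ∀ n n' : ℕ, n / H = n' / H → n ≡ n' [MOD M₁] → G n = G n')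
    (hs : ∀ n, G n ≠ 0 → n < 3 * X) :
    G n ^ 2 ≤ ((M₁ : ℝ) / H) *
      ∑ m ∈ (range (4 * X)).filter (fun m => m / H = n / H ∧ m ≡ n [MOD M₁]), G m ^ 2 := by
  by_cases h0 : G n = 0
  · rw [h0]
    have : 0 ≤ ∑ m ∈ (range (4 * X)).filter (fun m => m / H = n / H ∧ m ≡ n [MOD M₁]), G m ^ 2 :=
      Finset.sum_nonneg (fun _ _ => sq_nonneg _)
    have h1 : (0 : ℝ) ≤ (M₁ : ℝ) / H := by positivity
    nlinarith [mul_nonneg h1 this]
  have hn := hs n h0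
  obtain ⟨K, hK⟩ := hdvd
  set T := (range K).image (fun j => n / H * H + n % M₁ + M₁ * j) with hT
  have hnH : n / H * H ≤ n := Nat.div_mul_le_self n H
  have hTsub : T ⊆ (range (4 * X)).filter (fun m => m / H = n / H ∧ m ≡ n [MOD M₁]) := by
    intro m hm
    rw [hT, mem_image] at hm
    obtain ⟨j, hj, rfl⟩ := hm
    rw [mem_range] at hj
    have hmod : n % M₁ < M₁ := Nat.mod_lt _ hM
    have h1 : n % M₁ + M₁ * j < H := by
      have : M₁ * (j + 1) ≤ M₁ * K := Nat.mul_le_mul_left _ hj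
      rw [hK]
      nlinarith
    rw [mem_filter, mem_range]
    refine ⟨?_, ?_, ?_⟩
    · omega
    · rw [add_assoc, Nat.mul_comm (n / H) H, Nat.mul_add_div hH, Nat.div_eq_of_lt h1, add_zero]
    · have h2 : n / H * H + n % M₁ + M₁ * j ≡ 0 + n % M₁ + 0 [MOD M₁] := by
        apply Nat.ModEq.add
        · apply Nat.ModEq.add_right
          rw [Nat.modEq_zero_iff_dvd, hK]
          exact Dvd.dvd.mul_left (Dvd.intro _ rfl) _
        · rw [Nat.modEq_zero_iff_dvd]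
          exact Dvd.intro _ rfl
      rw [zero_add, add_zero] at h2
      exact h2.trans (Nat.mod_modEq n M₁)
  have hcard : T.card = K := by
    rw [hT, card_image_of_injective, card_range]
    intro a b hab
    have h3 : M₁ * a = M₁ * b := by
      have : n / H * H + n % M₁ + M₁ * a = n / H * H + n % M₁ + M₁ * b := hab
      omega
    exact Nat.eq_of_mul_eq_mul_left hM h3
  have hval : ∀ m ∈ T, G m ^ 2 = G n ^ 2 := by
    intro m hm
    have h4 := (mem_filter.1 (hTsub hm)).2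
    rw [hG m n h4.1 h4.2]
  have hsum : ∑ m ∈ T, G m ^ 2 = K * G n ^ 2 := by
    rw [Finset.sum_congr rfl hval, Finset.sum_const, hcard, nsmul_eq_mul]
  have hKpos : 0 < K := by
    rcases Nat.eq_zero_or_pos K with h | h
    · rw [h, mul_zero] at hK
      omega
    · exact h
  have hHK : (H : ℝ) = M₁ * K := by exact_mod_cast hK
  calc G n ^ 2 = ((M₁ : ℝ) / H) * (K * G n ^ 2) := by
        rw [hHK]
        have h5 : (M₁ : ℝ) ≠ 0 := by exact_mod_cast hM.ne'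
        have h6 : (K : ℝ) ≠ 0 := by exact_mod_cast hKpos.ne'
        field_simp
    _ = ((M₁ : ℝ) / H) * ∑ m ∈ T, G m ^ 2 := by rw [hsum]
    _ ≤ _ := by
        apply mul_le_mul_of_nonneg_left _ (by positivity)
        exact Finset.sum_le_sum_of_subset_of_nonneg hTsub (fun _ _ _ => sq_nonneg _)

lemma class_sum (F : ℕ → ℝ) (hF : ∀ w, 0 ≤ F w) (a z H M₁ W m : ℕ) (B : ℝ) (hz : 0 < z)
    (hH : 0 < H) (hc : M₁.Coprime z) (hLW : H / z ≤ W) (hB0 : 0 ≤ B)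
    (hB : ∀ w₀ c : ℕ, w₀ + (H / z + 1) ≤ 2 * W →
      ∑ w ∈ (Ioc w₀ (w₀ + (H / z + 1))).filter (fun w => w ≡ c [MOD M₁]), F w ≤ B) :
    ∑ w ∈ (Ioc 0 W).filter (fun w => m / H = (a + w * z) / H ∧ m ≡ a + w * z [MOD M₁]), F w ≤ B := by
  set S := (Ioc 0 W).filter (fun w => m / H = (a + w * z) / H ∧ m ≡ a + w * z [MOD M₁]) with hS
  rcases S.eq_empty_or_nonempty with h | h
  · rw [h, Finset.sum_empty]
    exact hB0
  set w₁ := S.min' h with hw₁
  have hw₁S : w₁ ∈ S := S.min'_mem h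
  have hw₁' := hw₁S
  rw [hS, mem_filter, mem_Ioc] at hw₁'
  obtain ⟨⟨hp, hle⟩, hd, hm⟩ := hw₁'
  have hsub : S ⊆ (Ioc (w₁ - 1) (w₁ - 1 + (H / z + 1))).filter (fun w => w ≡ w₁ [MOD M₁]) := by
    intro w hw
    have hmin : w₁ ≤ w := S.min'_le w hw
    rw [hS, mem_filter, mem_Ioc] at hw
    obtain ⟨⟨hwp, hwle⟩, hwd, hwm⟩ := hw
    rw [mem_filter, mem_Ioc]
    refine ⟨⟨by omega, ?_⟩, ?_⟩
    · -- w - w₁ ≤ H / z
      have h1 : (w - w₁) ≤ H / z := by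
        rw [Nat.le_div_iff_mul_le hz]
        have h2 : (a + w * z) / H = (a + w₁ * z) / H := by rw [← hwd, ← hd]
        have h3 := Nat.div_add_mod (a + w * z) H
        have h4 := Nat.div_add_mod (a + w₁ * z) H
        have h5 := Nat.mod_lt (a + w * z) hH
        rw [h2] at h3
        have h6 : (w - w₁) * z + w₁ * z = w * z := by
          rw [← Nat.add_mul]
          congr 1
          omega
        omega
      omega
    · have h7 : a + w * z ≡ a + w₁ * z [MOD M₁] := hwm.symm.trans hm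
      have h8 : w * z ≡ w₁ * z [MOD M₁] := Nat.ModEq.add_left_cancel' a h7
      exact Nat.ModEq.cancel_right_of_coprime hc h8
  refine (Finset.sum_le_sum_of_subset_of_nonneg hsub (fun _ _ _ => hF _)).trans ?_
  apply hB
  omega

/-- the sum for one tuple and one `x`. -/
lemma one_sum (G : ℕ → ℝ) (F : ℕ → ℝ) (hF : ∀ w, 0 ≤ F w) (a z H M₁ W X : ℕ) (B : ℝ) (hz : 0 < z)
    (hH : 0 < H) (hM : 0 < M₁) (hdvd : M₁ ∣ H) (hHX : H ≤ X)
    (hc : M₁.Coprime z) (hLW : H / z ≤ W) (hB0 : 0 ≤ B)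
    (hB : ∀ w₀ c : ℕ, w₀ + (H / z + 1) ≤ 2 * W →
      ∑ w ∈ (Ioc w₀ (w₀ + (H / z + 1))).filter (fun w => w ≡ c [MOD M₁]), F w ≤ B)
    (hG : ∀ n n' : ℕ, n / H = n' / H → n ≡ n' [MOD M₁] → G n = G n')
    (hs : ∀ n, G n ≠ 0 → n < 3 * X) :
    ∑ w ∈ Ioc 0 W, F w * G (a + w * z) ^ 2 ≤
      ((M₁ : ℝ) / H) * B * ∑ m ∈ range (4 * X), G m ^ 2 := by
  calc ∑ w ∈ Ioc 0 W, F w * G (a + w * z) ^ 2
      ≤ ∑ w ∈ Ioc 0 W, F w * (((M₁ : ℝ) / H) * ∑ m ∈ (range (4 * X)).filter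
          (fun m => m / H = (a + w * z) / H ∧ m ≡ a + w * z [MOD M₁]), G m ^ 2) := by
        apply Finset.sum_le_sum
        intro w _
        exact mul_le_mul_of_nonneg_left
          (block_mass G H M₁ X (a + w * z) hH hM hdvd hHX hG hs) (hF w)
    _ = ((M₁ : ℝ) / H) * ∑ m ∈ range (4 * X), G m ^ 2 *
          ∑ w ∈ (Ioc 0 W).filter (fun w => m / H = (a + w * z) / H ∧ m ≡ a + w * z [MOD M₁]),
            F w := by
        simp only [Finset.sum_filter, Finset.mul_sum]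
        rw [Finset.sum_comm]
        apply Finset.sum_congr rfl
        intro m _
        apply Finset.sum_congr rfl
        intro w _
        split_ifs
        · ring
        · ring
    _ ≤ ((M₁ : ℝ) / H) * ∑ m ∈ range (4 * X), G m ^ 2 * B := by
        apply mul_le_mul_of_nonneg_left _ (by positivity)
        apply Finset.sum_le_sum
        intro m _
        exact mul_le_mul_of_nonneg_left
          (class_sum F hF a z H M₁ W m B hz hH hc hLW hB0 hB) (sq_nonneg _)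
    _ = _ := by
        rw [← Finset.sum_mul]
        ring

end S3

open S3 in
theorem t_S3 : M_S3 := by
  intro hTOT hLLC hXXC _ hTB hCF C₁ hC₁
  obtain ⟨CT, hCT, hTOT⟩ := hTOT C₁ hC₁
  obtain ⟨CL, hCL, hLLC⟩ := hLLC C₁ hC₁
  obtain ⟨CX, hCX, hXXC⟩ := hXXC C₁ hC₁
  refine ⟨Real.sqrt (CT * (2 * CL * CX)), Real.sqrt_pos.2 (by positivity), ?_⟩
  intro R₁ d
  obtain ⟨X₁', hTOT⟩ := hTOT R₁ d
  obtain ⟨X₂', hLLC⟩ := hLLC R₁ d
  obtain ⟨X₃', hXXC⟩ := hXXC R₁ d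
  obtain ⟨X₄', hCF⟩ := hCF C₁ hC₁ R₁ d 1
  refine ⟨X₁' + X₂' + X₃' + X₄' + 32, ?_⟩
  intro X hX J Q X₁ H W P s hcfg hs G hG hsupp
  have hTOT := hTOT X (by omega) J Q X₁ H W P s hcfg hs
  have hLLC := hLLC X (by omega) J Q X₁ H W P s hcfg hs
  have hXXC := hXXC X (by omega) J Q X₁ H W P hcfg
  obtain ⟨_, hll, hpM, hpf, hM1, hMdvd, hM₁1, hM₁Q, hRQ, hM₁H, hHlo, hHhi, _, _, _, _, _, _, _, _,
    hsml, _, _, _⟩ := hCF X (by omega) J Q X₁ H W P hcfg
  have hX32 : (32 : ℝ) ≤ X := by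
    have : 32 ≤ X := by omega
    exact_mod_cast this
  have hX1 : (1 : ℝ) ≤ X := by linarith
  have hX0 : (0 : ℝ) < X := by linarith
  have hTB := hTB C₁ Q J (pri R₁) P hcfg.good (by have := hcfg.J2; omega) hM1
    (fun p hp => (hpf p hp).trans (by omega))
  obtain ⟨hTBt, _, hTTc⟩ := hTB
  have hd0 := hcfg.d0
  have hd1 := hcfg.d1
  have hR2 := hcfg.R2
  have hlogR : 0 ≤ Real.log R₁ := Real.log_natCast_nonneg R₁
  have hQ1 : 1 ≤ Q := by omega
  have hQJ1 : 1 ≤ Q ^ J := Nat.one_le_pow _ _ hQ1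
  have hQJpos : (0 : ℝ) < (Q : ℝ) ^ J := by
    have : (0 : ℝ) < Q := by exact_mod_cast hQ1
    positivity
  -- size of `Q ^ J`
  have hA1 : (3 : ℝ) * (Q : ℝ) ^ J ≤ (X : ℝ) ^ (d / 1000) := by
    have h1 : 3 * Q ^ J ≤ 16 * MM1 R₁ * Q ^ (2 * J) := by
      have h2 : Q ^ J ≤ Q ^ (2 * J) := Nat.pow_le_pow_right hQ1 (by omega)
      calc 3 * Q ^ J ≤ 16 * 1 * Q ^ (2 * J) := by omega
        _ ≤ 16 * MM1 R₁ * Q ^ (2 * J) := by
            apply Nat.mul_le_mul_right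
            omega
    have h3 : ((3 * Q ^ J : ℕ) : ℝ) ≤ ((16 * MM1 R₁ * Q ^ (2 * J) : ℕ) : ℝ) := by exact_mod_cast h1
    have h4 : (1 : ℝ) ≤ ((16 * MM1 R₁ * Q ^ (2 * J) : ℕ) : ℝ) := by
      have : 1 ≤ 16 * MM1 R₁ * Q ^ (2 * J) := by omega
      exact_mod_cast this
    have h5 := le_self_pow₀ h4 (show (10 : ℕ) ≠ 0 by norm_num)
    push_cast at h3
    calc (3 : ℝ) * (Q : ℝ) ^ J ≤ _ := h3
      _ = ((16 * MM1 R₁ * Q ^ (2 * J) : ℕ) : ℝ) := by push_cast; ring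
      _ ≤ _ := h5
      _ ≤ _ := hsml
  have hHX : H ≤ X := by
    have h1 : (H : ℝ) ≤ (X : ℝ) := by
      calc (H : ℝ) ≤ (X : ℝ) ^ (1 - d) := hHhi
        _ ≤ (X : ℝ) ^ (1 : ℝ) := Real.rpow_le_rpow_of_exponent_le hX1 (by linarith)
        _ = X := Real.rpow_one _
    exact_mod_cast h1
  have hHpos : (0 : ℝ) < H := by
    have : 0 < (X : ℝ) ^ (1 - d) := Real.rpow_pos_of_pos hX0 _
    linarith
  have hH0 : 0 < H := by exact_mod_cast hHpos
  -- `2 * X ^ (1/2) * (3 Q^J) ≤ H * 2`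
  have hbig : 2 * (X : ℝ) ^ (1 / 2 : ℝ) * (X : ℝ) ^ (d / 1000) ≤ (X : ℝ) ^ (1 - d) := by
    have h1 : (2 : ℝ) ≤ (X : ℝ) ^ (1 / 5 : ℝ) := by
      have h2 : (32 : ℝ) ^ (1 / 5 : ℝ) = 2 := by
        rw [show (32 : ℝ) = 2 ^ (5 : ℝ) by norm_num, ← Real.rpow_mul (by norm_num)]
        norm_num
      rw [← h2]
      exact Real.rpow_le_rpow (by norm_num) hX32 (by norm_num)
    calc 2 * (X : ℝ) ^ (1 / 2 : ℝ) * (X : ℝ) ^ (d / 1000)
        ≤ (X : ℝ) ^ (1 / 5 : ℝ) * (X : ℝ) ^ (1 / 2 : ℝ) * (X : ℝ) ^ (d / 1000) := by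
          gcongr
      _ = (X : ℝ) ^ (1 / 5 + 1 / 2 + d / 1000) := by
          rw [← Real.rpow_add hX0, ← Real.rpow_add hX0]
      _ ≤ _ := Real.rpow_le_rpow_of_exponent_le hX1 (by linarith)
  have hXh1 : (1 : ℝ) ≤ (X : ℝ) ^ (1 / 2 : ℝ) := Real.one_le_rpow hX1 (by norm_num)
  have hQJH : (Q : ℝ) ^ J ≤ H := by
    have h1 : (1 : ℝ) * (3 * (Q : ℝ) ^ J) ≤ (X : ℝ) ^ (1 / 2 : ℝ) * (X : ℝ) ^ (d / 1000) :=
      mul_le_mul hXh1 hA1 (by positivity) (by positivity)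
    nlinarith
  set N₂ : ℝ := ∑ n ∈ range (4 * X), G n ^ 2 with hN₂
  have hN₂0 : 0 ≤ N₂ := Finset.sum_nonneg (fun _ _ => sq_nonneg _)
  -- one tuple
  have hone : ∀ t ∈ TT P J, ∀ x ∈ XX X₁ (3 * Q),
      ∑ w ∈ Ioc 0 W, LL (mv s (pri R₁ * DD t * x * w)) * G (pri R₁ * x * yy t + w * zz t) ^ 2 ≤
        CL * Real.log R₁ * (2 / (Q : ℝ) ^ J) * N₂ := by
    intro t ht x hx
    obtain ⟨_, _, hz1, hz2, hcop, _, _, hDDP, _, _⟩ := hTBt t ht
    have hz0 : 0 < zz t := lt_of_lt_of_le (by omega) hz1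
    have hcz : (MM1 R₁).Coprime (zz t) := by
      rw [Nat.coprime_iff_gcd_eq_one]
      by_contra hne
      obtain ⟨p, hp, hpd⟩ := Nat.exists_prime_and_dvd hne
      have h1 : p ∣ MM1 R₁ := hpd.trans (Nat.gcd_dvd_left _ _)
      have h2 : p ∣ zz t := hpd.trans (Nat.gcd_dvd_right _ _)
      have h3 : p ≤ R₁ := (hpM p hp).1 h1
      have h4 : p ∈ P := by
        apply hDDP
        rw [Nat.mem_primeFactors]
        refine ⟨hp, ?_, ?_⟩
        · unfold DD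
          exact h2.mul_left _
        · unfold DD
          have : 0 < yy t := by
            have := (hTBt t ht).1
            omega
          exact Nat.mul_ne_zero this.ne' hz0.ne'
      have h5 := hcfg.good.lo p h4
      omega
    have hLreal : ((H / zz t + 1 : ℕ) : ℝ) ≤ 2 * H / (Q : ℝ) ^ J := by
      have h1 : ((H / zz t : ℕ) : ℝ) ≤ (H : ℝ) / zz t := Nat.cast_div_le
      have h2 : (H : ℝ) / zz t ≤ (H : ℝ) / (Q : ℝ) ^ J := by
        apply div_le_div_of_nonneg_left hHpos.le hQJpos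
        exact_mod_cast hz1
      have h3 : (1 : ℝ) ≤ (H : ℝ) / (Q : ℝ) ^ J := by
        rw [le_div_iff₀ hQJpos]
        linarith
      push_cast
      have h4 : 2 * (H : ℝ) / (Q : ℝ) ^ J = (H : ℝ) / (Q : ℝ) ^ J + (H : ℝ) / (Q : ℝ) ^ J := by
        ring
      rw [h4]
      linarith
    have hLlo : (X : ℝ) ^ (1 / 2 : ℝ) ≤ ((H / zz t + 1 : ℕ) : ℝ) := by
      have hzr : (0 : ℝ) < zz t := by exact_mod_cast hz0
      have h1 : (H : ℝ) / zz t ≤ ((H / zz t + 1 : ℕ) : ℝ) := by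
        rw [div_le_iff₀ hzr]
        have h2 : H < (H / zz t + 1) * zz t := by
          have := Nat.lt_mul_div_succ H hz0
          rw [Nat.mul_comm] at this
          exact this
        exact_mod_cast h2.le
      refine le_trans ?_ h1
      rw [le_div_iff₀ hzr]
      have h3 : ((zz t : ℕ) : ℝ) ≤ (X : ℝ) ^ (d / 1000) := by
        refine le_trans ?_ hA1
        exact_mod_cast hz2
      have h4 : (X : ℝ) ^ (1 / 2 : ℝ) * zz t ≤ (X : ℝ) ^ (1 / 2 : ℝ) * (X : ℝ) ^ (d / 1000) :=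
        mul_le_mul_of_nonneg_left h3 (by positivity)
      nlinarith
    have hLW : H / zz t ≤ W := by
      have h1 : H ≤ zz t * W := by
        calc H ≤ X := hHX
          _ ≤ 3 * X := by omega
          _ ≤ W * Q ^ J := hcfg.Wlo
          _ ≤ W * zz t := Nat.mul_le_mul_left _ hz1
          _ = zz t * W := Nat.mul_comm _ _
      exact Nat.div_le_of_le_mul h1
    have hMr : (0 : ℝ) < MM1 R₁ := by exact_mod_cast hM₁1
    have hB : ∀ w₀ c : ℕ, w₀ + (H / zz t + 1) ≤ 2 * W →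
        ∑ w ∈ (Ioc w₀ (w₀ + (H / zz t + 1))).filter (fun w => w ≡ c [MOD MM1 R₁]),
          LL (mv s (pri R₁ * DD t * x * w)) ≤
        CL * Real.log R₁ * ((2 * H / (Q : ℝ) ^ J) / MM1 R₁) := by
      intro w₀ c hw
      refine ((hLLC t ht x hx w₀ (H / zz t + 1) c hLlo hw).1).trans ?_
      apply mul_le_mul_of_nonneg_left _ (by positivity)
      exact div_le_div_of_nonneg_right hLreal hMr.le
    have hmain := one_sum G (fun w => LL (mv s (pri R₁ * DD t * x * w))) (fun w => LL_nonneg _)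
      (pri R₁ * x * yy t) (zz t) H (MM1 R₁) W X
      (CL * Real.log R₁ * ((2 * H / (Q : ℝ) ^ J) / MM1 R₁)) hz0 hH0 (by omega) hM₁H hHX hcz hLW
      (by positivity) hB hG hsupp
    refine hmain.trans (le_of_eq ?_)
    rw [← hN₂]
    field_simp
  -- all tuples
  have hsum2 : ∑ t ∈ TT P J, ∑ x ∈ XX X₁ (3 * Q), ∑ w ∈ Ioc 0 W,
      LL (mv s (pri R₁ * DD t * x * w)) * G (pri R₁ * x * yy t + w * zz t) ^ 2 ≤
      (2 * CL * CX) * Real.log R₁ * (N₂ / X) * KK X J Q X₁ P / Real.log (Real.log X) := by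
    have hb : 0 ≤ CL * Real.log R₁ * (2 / (Q : ℝ) ^ J) * N₂ := by positivity
    calc _ ≤ ∑ t ∈ TT P J, ∑ x ∈ XX X₁ (3 * Q), CL * Real.log R₁ * (2 / (Q : ℝ) ^ J) * N₂ :=
          Finset.sum_le_sum (fun t ht => Finset.sum_le_sum (fun x hx => hone t ht x hx))
      _ = ((TT P J).card : ℝ) * (((XX X₁ (3 * Q)).card : ℝ) *
            (CL * Real.log R₁ * (2 / (Q : ℝ) ^ J) * N₂)) := by
          simp only [Finset.sum_const, nsmul_eq_mul]
      _ ≤ ((P.card : ℝ) ^ (2 * J)) * ((CX * X₁ / Real.log (Real.log X)) *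
            (CL * Real.log R₁ * (2 / (Q : ℝ) ^ J) * N₂)) := by
          apply mul_le_mul hTTc _ (by positivity) (by positivity)
          exact mul_le_mul_of_nonneg_right hXXC hb
      _ = _ := by
          unfold KK
          field_simp
  -- Cauchy-Schwarz
  set ι := (TT P J) ×ˢ (XX X₁ (3 * Q)) ×ˢ (Ioc 0 W) with hι
  have hflat : ∀ f : (Fin J → ℕ × ℕ) → ℕ → ℕ → ℝ,
      ∑ t ∈ TT P J, ∑ x ∈ XX X₁ (3 * Q), ∑ w ∈ Ioc 0 W, f t x w = ∑ u ∈ ι, f u.1 u.2.1 u.2.2 := by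
    intro f
    rw [hι, Finset.sum_product]
    apply Finset.sum_congr rfl
    intro t _
    rw [Finset.sum_product]
  rw [hflat] at hTOT hsum2
  have hCS : ‖TF s (pri R₁) J P (XX X₁ (3 * Q)) W (fun n => (G n : ℂ))‖ ^ 2 ≤
      (∑ u ∈ ι, LL (mv s (pri R₁ * DD u.1 * u.2.1 * u.2.2))) *
      ∑ u ∈ ι, LL (mv s (pri R₁ * DD u.1 * u.2.1 * u.2.2)) *
        G (pri R₁ * u.2.1 * yy u.1 + u.2.2 * zz u.1) ^ 2 := by
    have h1 : ‖TF s (pri R₁) J P (XX X₁ (3 * Q)) W (fun n => (G n : ℂ))‖ ≤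
        ∑ u ∈ ι, Real.sqrt (LL (mv s (pri R₁ * DD u.1 * u.2.1 * u.2.2))) *
          (Real.sqrt (LL (mv s (pri R₁ * DD u.1 * u.2.1 * u.2.2))) *
            |G (pri R₁ * u.2.1 * yy u.1 + u.2.2 * zz u.1)|) := by
      have h2 : TF s (pri R₁) J P (XX X₁ (3 * Q)) W (fun n => (G n : ℂ)) =
          ((∑ t ∈ TT P J, ∑ x ∈ XX X₁ (3 * Q), ∑ w ∈ Ioc 0 W,
            LL (mv s (pri R₁ * DD t * x * w)) * G (pri R₁ * x * yy t + w * zz t) : ℝ) : ℂ) := by
        unfold TF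
        push_cast
        rfl
      rw [h2, Complex.norm_real, Real.norm_eq_abs, hflat]
      refine (Finset.abs_sum_le_sum_abs _ _).trans (Finset.sum_le_sum ?_)
      intro u _
      rw [abs_mul, abs_of_nonneg (LL_nonneg _), ← mul_assoc, Real.mul_self_sqrt (LL_nonneg _)]
    have h3 := Finset.sum_mul_sq_le_sq_mul_sq ι
      (fun u => Real.sqrt (LL (mv s (pri R₁ * DD u.1 * u.2.1 * u.2.2))))
      (fun u => Real.sqrt (LL (mv s (pri R₁ * DD u.1 * u.2.1 * u.2.2))) *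
            |G (pri R₁ * u.2.1 * yy u.1 + u.2.2 * zz u.1)|)
    have h4 : ∀ u ∈ ι, Real.sqrt (LL (mv s (pri R₁ * DD u.1 * u.2.1 * u.2.2))) ^ 2 =
        LL (mv s (pri R₁ * DD u.1 * u.2.1 * u.2.2)) := fun u _ => Real.sq_sqrt (LL_nonneg _)
    have h5 : ∀ u ∈ ι, (Real.sqrt (LL (mv s (pri R₁ * DD u.1 * u.2.1 * u.2.2))) *
            |G (pri R₁ * u.2.1 * yy u.1 + u.2.2 * zz u.1)|) ^ 2 =
        LL (mv s (pri R₁ * DD u.1 * u.2.1 * u.2.2)) *
          G (pri R₁ * u.2.1 * yy u.1 + u.2.2 * zz u.1) ^ 2 := by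
      intro u _
      rw [mul_pow, Real.sq_sqrt (LL_nonneg _), sq_abs]
    rw [Finset.sum_congr rfl h4, Finset.sum_congr rfl h5] at h3
    exact (pow_le_pow_left₀ (norm_nonneg _) h1 2).trans h3
  have hllpos : 0 < Real.log (Real.log X) := by linarith
  have hKK : 0 ≤ KK X J Q X₁ P := by
    unfold KK
    positivity
  have hfin : ‖TF s (pri R₁) J P (XX X₁ (3 * Q)) W (fun n => (G n : ℂ))‖ ^ 2 ≤
      (Real.sqrt (CT * (2 * CL * CX)) * Real.log R₁ * Real.sqrt (N₂ / X) * KK X J Q X₁ P /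
        Real.log (Real.log X)) ^ 2 := by
    refine hCS.trans ?_
    have h1 : (0 : ℝ) ≤ ∑ u ∈ ι, LL (mv s (pri R₁ * DD u.1 * u.2.1 * u.2.2)) *
        G (pri R₁ * u.2.1 * yy u.1 + u.2.2 * zz u.1) ^ 2 :=
      Finset.sum_nonneg (fun _ _ => mul_nonneg (LL_nonneg _) (sq_nonneg _))
    refine (mul_le_mul hTOT hsum2 h1 (by positivity)).trans (le_of_eq ?_)
    rw [div_pow, mul_pow, mul_pow, mul_pow, Real.sq_sqrt (by positivity),
      Real.sq_sqrt (by positivity)]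
    field_simp
  exact (pow_le_pow_iff_left₀ (norm_nonneg _) (by positivity) two_ne_zero).1 hfin

end

end MUR
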