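import Mathlib
import Pool.Agent.MUR.StE

set_option autoImplicit false

/-!
# Project MUR: the main term S4
-/

namespace MUR

open Finset IPR
open Pool.Agent.Lib_helper83.EF (e)

noncomputable section

namespace S4

lemma LL_nonneg (m : ℕ) : 0 ≤ LL m := by
  unfold LL
  split_ifs with h
  · exact Real.log_nonneg (by exact_mod_cast h.one_lt.le)
  · exact le_rfl

/-- the value of the conditional expectation on block `i` and class `ν` -/
def FF (M₁ H : ℕ) (α : ℕ → ℝ) (p : ℕ × ℕ) : ℝ :=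
  ((M₁ : ℝ) / H) * ∑ n' ∈ (Ico (p.1 * H) (p.1 * H + H)).filter (fun n' => n' ≡ p.2 [MOD M₁]), α n'

/-- block and class -/
def gg (M₁ H n : ℕ) : ℕ × ℕ := (n / H, n % M₁)

lemma EC_eq (M₁ H : ℕ) (α : ℕ → ℝ) (n : ℕ) : EC M₁ H α n = FF M₁ H α (gg M₁ H n) := by
  unfold EC FF gg
  have h : ∀ n' : ℕ, (n' ≡ n [MOD M₁]) ↔ (n' ≡ n % M₁ [MOD M₁]) := by
    intro n'
    unfold Nat.ModEq
    rw [Nat.mod_mod]
  simp only [h]

lemma FF_nonneg (M₁ H : ℕ) (α : ℕ → ℝ) (hα : ∀ n, 0 ≤ α n) (p : ℕ × ℕ) : 0 ≤ FF M₁ H α p := by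
  unfold FF
  exact mul_nonneg (by positivity) (sum_nonneg fun n _ => hα n)

lemma mem_block (H i n : ℕ) (hH : 0 < H) : (i * H ≤ n ∧ n < i * H + H) ↔ n / H = i := by
  constructor
  · rintro ⟨h1, h2⟩
    apply Nat.div_eq_of_lt_le
    · exact h1
    · rw [Nat.succ_mul]; exact h2
  · rintro rfl
    constructor
    · exact Nat.div_mul_le_self n H
    · have := Nat.lt_div_mul_add hH (a := n)
      exact this

lemma mem_class (M₁ ν n : ℕ) (h : ν < M₁) : n ≡ ν [MOD M₁] ↔ n % M₁ = ν := by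
  unfold Nat.ModEq
  rw [Nat.mod_eq_of_lt h]

lemma WW_eq {J : ℕ} (M M₁ H W : ℕ) (t : Fin J → ℕ × ℕ) (x : ℕ) (p : ℕ × ℕ) (hH : 0 < H)
    (hp : p.2 < M₁) :
    WW M M₁ H W (p.1 * H) p.2 t x =
      (Ioc 0 W).filter (fun w => gg M₁ H (M * x * yy t + w * zz t) = p) := by
  unfold WW gg
  apply filter_congr
  intro w _
  rw [← and_assoc, mem_block _ _ _ hH, mem_class _ _ _ hp]
  exact Prod.mk_inj.symm

/-- one pair `(t, x)` -/
lemma one {J : ℕ} (M M₁ H W X : ℕ) (s : ℤ) (t : Fin J → ℕ × ℕ) (x : ℕ) (hH : 0 < H)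
    (α : ℕ → ℝ) (hα : ∀ n, 0 ≤ α n) :
    ∑ p ∈ range (4 * X) ×ˢ range M₁, FF M₁ H α p *
        ∑ w ∈ WW M M₁ H W (p.1 * H) p.2 t x, LL (mv s (M * DD t * x * w)) ≤
      ∑ w ∈ Ioc 0 W, LL (mv s (M * DD t * x * w)) * EC M₁ H α (M * x * yy t + w * zz t) := by
  have h1 : ∀ p ∈ range (4 * X) ×ˢ range M₁, FF M₁ H α p *
        ∑ w ∈ WW M M₁ H W (p.1 * H) p.2 t x, LL (mv s (M * DD t * x * w)) =
      ∑ w ∈ (Ioc 0 W).filter (fun w => gg M₁ H (M * x * yy t + w * zz t) = p),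
        LL (mv s (M * DD t * x * w)) * EC M₁ H α (M * x * yy t + w * zz t) := by
    intro p hp
    have hp2 : p.2 < M₁ := mem_range.1 (mem_product.1 hp).2
    rw [WW_eq M M₁ H W t x p hH hp2, mul_sum]
    apply sum_congr rfl
    intro w hw
    rw [EC_eq, (mem_filter.1 hw).2, mul_comm]
  rw [sum_congr rfl h1]
  apply Finset.sum_fiberwise_le_sum_of_sum_fiber_nonneg
  intro p _
  apply sum_nonneg
  intro w _
  rw [EC_eq]
  exact mul_nonneg (LL_nonneg _) (FF_nonneg _ _ _ hα _)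

/-- the blocks and classes cover everything -/
lemma cover (M₁ H X : ℕ) (hH : 0 < H) (hM : 0 < M₁) (α : ℕ → ℝ) (hα : ∀ n, 0 ≤ α n) :
    ∑ n ∈ range (4 * X), α n ≤ ∑ p ∈ range (4 * X) ×ˢ range M₁,
      ∑ n' ∈ (Ico (p.1 * H) (p.1 * H + H)).filter (fun n' => n' ≡ p.2 [MOD M₁]), α n' := by
  have hm : ∀ n ∈ range (4 * X), gg M₁ H n ∈ range (4 * X) ×ˢ range M₁ := by
    intro n hn
    unfold gg
    rw [mem_product]
    constructor
    · exact mem_range.2 (lt_of_le_of_lt (Nat.div_le_self n H) (mem_range.1 hn))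
    · exact mem_range.2 (Nat.mod_lt _ hM)
  rw [← sum_fiberwise_of_maps_to hm]
  apply sum_le_sum
  intro p hp
  have hp2 : p.2 < M₁ := mem_range.1 (mem_product.1 hp).2
  apply sum_le_sum_of_subset_of_nonneg
  · intro n hn
    have hg := (mem_filter.1 hn).2
    unfold gg at hg
    rw [mem_filter, mem_Ico, mem_block _ _ _ hH, mem_class _ _ _ hp2]
    rw [← hg]
    exact ⟨rfl, rfl⟩
  · intro n _ _
    exact hα n

end S4

open S4 in
/-- S4 -/
theorem t_S4 : M_S4 := by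
  intro mt cf C₁ hC₁
  obtain ⟨c, hc, hmt⟩ := mt C₁ hC₁
  refine ⟨c, hc, ?_⟩
  intro R₁ d
  obtain ⟨X₁₀, h1⟩ := hmt R₁ d
  obtain ⟨X₂₀, h2⟩ := cf C₁ hC₁ R₁ d 1
  refine ⟨max (max X₁₀ X₂₀) 1, ?_⟩
  intro X hX J Q X₁ H W P s hcfg hs α hα hsupp
  have hXa : X₁₀ ≤ X := le_trans (le_trans (le_max_left _ _) (le_max_left _ _)) hX
  have hXb : X₂₀ ≤ X := le_trans (le_trans (le_max_right _ _) (le_max_left _ _)) hX
  have hXc : 1 ≤ X := le_trans (le_max_right _ _) hX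
  have hX1 : (1 : ℝ) ≤ X := by exact_mod_cast hXc
  obtain ⟨-, hll, -, -, hpr, -, hM1, -, -, -, -, -, -, hH1, hH2, -, -, -, hQ16, -, hbig, -, -, -⟩ :=
    h2 X hXb J Q X₁ H W P hcfg
  have key := h1 X hXa J Q X₁ H W P s hcfg hs
  generalize hH' : HL (MM1 R₁) X (d / 100) = H' at *
  generalize hM' : MM1 R₁ = M₁ at *
  generalize hMM : pri R₁ = M at *
  have hd0 := hcfg.d0
  have hXpos : (0 : ℝ) < X := by linarith
  -- `H' > 0`
  have hH0 : 0 < H' := by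
    have : (0 : ℝ) < (X : ℝ) ^ (1 - d / 100) := Real.rpow_pos_of_pos hXpos _
    have h3 : (0 : ℝ) < 2 * (H' : ℝ) := lt_trans this hH1
    have h4 : (0 : ℝ) < (H' : ℝ) := by linarith
    exact_mod_cast h4
  -- `2 H' ≤ X`
  have hpow : (2 : ℝ) ≤ (X : ℝ) ^ (d / 1000) := by
    refine le_trans ?_ hbig
    have h5 : 2 ≤ 16 * M₁ * Q ^ (2 * J) := by
      have : 1 ≤ Q ^ (2 * J) := Nat.one_le_pow _ _ (by omega)
      nlinarith [Nat.mul_le_mul hM1 this]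
    have h6 : (2 : ℝ) ≤ ((16 * M₁ * Q ^ (2 * J) : ℕ) : ℝ) := by exact_mod_cast h5
    calc (2 : ℝ) ≤ 2 ^ 10 := by norm_num
      _ ≤ _ := pow_le_pow_left₀ (by norm_num) h6 10
  have hpow2 : (2 : ℝ) ≤ (X : ℝ) ^ (d / 100) :=
    le_trans hpow (Real.rpow_le_rpow_of_exponent_le hX1 (by linarith))
  have hHX : 2 * H' ≤ X := by
    have h7 : (X : ℝ) ^ (1 - d / 100) * (X : ℝ) ^ (d / 100) = X := by
      rw [← Real.rpow_add hXpos]
      norm_num
    have h8 : (0 : ℝ) ≤ (H' : ℝ) := Nat.cast_nonneg _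
    have h9 : (2 : ℝ) * H' ≤ X := by
      rw [← h7]
      calc (2 : ℝ) * H' = H' * 2 := by ring
        _ ≤ (X : ℝ) ^ (1 - d / 100) * (X : ℝ) ^ (d / 100) :=
          mul_le_mul hH2 hpow2 (by norm_num) (Real.rpow_nonneg hXpos.le _)
    exact_mod_cast h9
  have hQ0 : (0 : ℝ) < Q := by exact_mod_cast (by omega : 0 < Q)
  have hHr : (0 : ℝ) < (H' : ℝ) := by exact_mod_cast hH0
  have hMr : (0 : ℝ) < (M₁ : ℝ) := by exact_mod_cast hM1
  have hlr : (0 : ℝ) < Real.log (Real.log X) := by linarith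
  -- the lower bound for a block and class
  have hlow : ∀ p ∈ range (4 * X) ×ˢ range M₁,
      FF M₁ H' α p * (c * (P.card : ℝ) ^ (2 * J) * X₁ * H' /
        ((Q : ℝ) ^ J * M₁ * Real.log (Real.log X))) ≤
      FF M₁ H' α p * ∑ t ∈ TT P J, ∑ x ∈ XX X₁ (3 * Q),
        ∑ w ∈ WW M M₁ H' W (p.1 * H') p.2 t x, LL (mv s (M * DD t * x * w)) := by
    intro p hp
    rcases eq_or_lt_of_le (FF_nonneg M₁ H' α hα p) with h0 | h0
    · rw [← h0, zero_mul, zero_mul]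
    · apply mul_le_mul_of_nonneg_left _ h0.le
      have hex : ∃ n ∈ (Ico (p.1 * H') (p.1 * H' + H')).filter (fun n' => n' ≡ p.2 [MOD M₁]),
          α n ≠ 0 := by
        by_contra hcon
        push Not at hcon
        have : FF M₁ H' α p = 0 := by
          unfold FF
          rw [sum_eq_zero hcon, mul_zero]
        linarith
      obtain ⟨n, hn, hn0⟩ := hex
      have hn1 := mem_Ico.1 (mem_filter.1 hn).1
      have hn2 := hsupp n hn0
      apply key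
      · omega
      · omega
  -- assemble
  have hR : ∑ p ∈ range (4 * X) ×ˢ range M₁, FF M₁ H' α p * ∑ t ∈ TT P J, ∑ x ∈ XX X₁ (3 * Q),
        ∑ w ∈ WW M M₁ H' W (p.1 * H') p.2 t x, LL (mv s (M * DD t * x * w)) ≤
      ∑ t ∈ TT P J, ∑ x ∈ XX X₁ (3 * Q), ∑ w ∈ Ioc 0 W, LL (mv s (M * DD t * x * w)) *
        EC M₁ H' α (M * x * yy t + w * zz t) := by
    have hswap : ∑ p ∈ range (4 * X) ×ˢ range M₁, FF M₁ H' α p * ∑ t ∈ TT P J,
        ∑ x ∈ XX X₁ (3 * Q), ∑ w ∈ WW M M₁ H' W (p.1 * H') p.2 t x,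
          LL (mv s (M * DD t * x * w)) =
        ∑ t ∈ TT P J, ∑ x ∈ XX X₁ (3 * Q), ∑ p ∈ range (4 * X) ×ˢ range M₁,
          FF M₁ H' α p * ∑ w ∈ WW M M₁ H' W (p.1 * H') p.2 t x,
            LL (mv s (M * DD t * x * w)) := by
      simp only [mul_sum (s := TT P J), mul_sum (s := XX X₁ (3 * Q))]
      rw [sum_comm]
      apply sum_congr rfl
      intro t _
      rw [sum_comm]
    rw [hswap]
    apply sum_le_sum
    intro t _
    apply sum_le_sum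
    intro x _
    exact one M M₁ H' W X s t x hH0 α hα
  refine le_trans ?_ hR
  refine le_trans ?_ (sum_le_sum hlow)
  rw [← sum_mul]
  have hS : ∑ p ∈ range (4 * X) ×ˢ range M₁, FF M₁ H' α p =
      ((M₁ : ℝ) / H') * ∑ p ∈ range (4 * X) ×ˢ range M₁,
        ∑ n' ∈ (Ico (p.1 * H') (p.1 * H' + H')).filter (fun n' => n' ≡ p.2 [MOD M₁]), α n' := by
    unfold FF
    rw [mul_sum]
  rw [hS]
  have hcov := cover M₁ H' X hH0 (by omega) α hα
  have hcoef : c * KK X J Q X₁ P / (X * Real.log (Real.log X)) =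
      ((M₁ : ℝ) / H') * (c * (P.card : ℝ) ^ (2 * J) * X₁ * H' /
        ((Q : ℝ) ^ J * M₁ * Real.log (Real.log X))) := by
    unfold KK
    field_simp
  rw [hcoef]
  have hco0 : 0 ≤ ((M₁ : ℝ) / H') * (c * (P.card : ℝ) ^ (2 * J) * X₁ * H' /
        ((Q : ℝ) ^ J * M₁ * Real.log (Real.log X))) := by positivity
  calc ((M₁ : ℝ) / H') * (c * (P.card : ℝ) ^ (2 * J) * X₁ * H' /
        ((Q : ℝ) ^ J * M₁ * Real.log (Real.log X))) * ∑ n ∈ range (4 * X), α n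
      ≤ ((M₁ : ℝ) / H') * (c * (P.card : ℝ) ^ (2 * J) * X₁ * H' /
        ((Q : ℝ) ^ J * M₁ * Real.log (Real.log X))) * ∑ p ∈ range (4 * X) ×ˢ range M₁,
        ∑ n' ∈ (Ico (p.1 * H') (p.1 * H' + H')).filter (fun n' => n' ≡ p.2 [MOD M₁]), α n' :=
        mul_le_mul_of_nonneg_left hcov hco0
    _ = _ := by ring

end

end MUR
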