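import Mathlib
import Pool.Agent.MUR.StD

set_option autoImplicit false

namespace MUR

theorem t_SHP : S_SHP := by
  classical
  intro q₀ q' h1 h2
  have hq' : 0 < q' := by omega
  have hex : ∃ k : ℕ, k ∣ q' ∧ q₀ ≤ k ^ 2 := ⟨q', dvd_rfl, by nlinarith⟩
  have hk := Nat.find_spec hex
  set k := Nat.find hex with hkdef
  have hmin : ∀ m, m < k → ¬ (m ∣ q' ∧ q₀ ≤ m ^ 2) := fun m hm => Nat.find_min hex hm
  have hk0 : 1 ≤ k := Nat.pos_of_dvd_of_pos hk.1 hq'
  refine ⟨k, hk0, hk.1, hk.2, ?_⟩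
  by_contra hcon
  push Not at hcon
  obtain ⟨hlt, hnp⟩ := hcon
  have hk2 : 2 ≤ k := by omega
  have hp : (k.minFac).Prime := Nat.minFac_prime (by omega)
  have hpd : k.minFac ∣ k := Nat.minFac_dvd k
  obtain ⟨c, hc⟩ := hpd
  have hc1 : c ≠ 1 := by
    intro h
    rw [h, mul_one] at hc
    exact hnp (hc ▸ hp)
  have hc0 : 0 < c := by
    rcases Nat.eq_zero_or_pos c with h | h
    · rw [h, mul_zero] at hc; omega
    · exact h
  have hcd : c ∣ k := ⟨k.minFac, by rw [mul_comm]; exact hc⟩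
  have hple : k.minFac ≤ c := by
    have h3 : k.minFac ≤ c.minFac :=
      Nat.minFac_le_of_dvd (Nat.minFac_prime hc1).two_le ((Nat.minFac_dvd c).trans hcd)
    exact h3.trans (Nat.minFac_le hc0)
  have hclt : c < k := by
    have := hp.two_le
    nlinarith
  have hnot := hmin c hclt
  have h4 : c ^ 2 < q₀ := by
    by_contra h
    exact hnot ⟨hcd.trans hk.1, by omega⟩
  nlinarith

end MUR
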