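import Mathlib
import Pool.Agent.MUR.StC

set_option autoImplicit false

/-!
# Project MUR, module SWA: algebra of the exchanges
-/

namespace MUR

open Finset
open Pool.Agent.Lib_helper83.EF (e)

noncomputable section

namespace SWA

variable {J : ℕ}

lemma sw_apply_mem {I : Finset (Fin J)} (t : Fin J → ℕ × ℕ) {j : Fin J} (h : j ∈ I) :
    sw I t j = (t j).swap := by
  simp [sw, h]

lemma sw_apply_not {I : Finset (Fin J)} (t : Fin J → ℕ × ℕ) {j : Fin J} (h : j ∉ I) :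
    sw I t j = t j := by
  simp [sw, h]

lemma sw_sw (I : Finset (Fin J)) (t : Fin J → ℕ × ℕ) : sw I (sw I t) = t := by
  funext j
  by_cases h : j ∈ I
  · rw [sw_apply_mem _ h, sw_apply_mem _ h, Prod.swap_swap]
  · rw [sw_apply_not _ h, sw_apply_not _ h]

lemma sw_symm (I I' : Finset (Fin J)) (t : Fin J → ℕ × ℕ) :
    sw I (sw I' t) = sw (symmDiff I I') t := by
  funext j
  by_cases h : j ∈ I
  · by_cases h' : j ∈ I'
    · have hn : j ∉ symmDiff I I' := by
        rw [Finset.mem_symmDiff]; tauto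
      rw [sw_apply_mem _ h, sw_apply_mem _ h', Prod.swap_swap, sw_apply_not _ hn]
    · have hn : j ∈ symmDiff I I' := by
        rw [Finset.mem_symmDiff]; tauto
      rw [sw_apply_mem _ h, sw_apply_not _ h', sw_apply_mem _ hn]
  · by_cases h' : j ∈ I'
    · have hn : j ∈ symmDiff I I' := by
        rw [Finset.mem_symmDiff]; tauto
      rw [sw_apply_not _ h, sw_apply_mem _ h', sw_apply_mem _ hn]
    · have hn : j ∉ symmDiff I I' := by
        rw [Finset.mem_symmDiff]; tauto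
      rw [sw_apply_not _ h, sw_apply_not _ h', sw_apply_not _ hn]

lemma yy_split (I : Finset (Fin J)) (t : Fin J → ℕ × ℕ) :
    yy t = (∏ j ∈ Iᶜ, (t j).1) * ∏ j ∈ I, (t j).1 := by
  unfold yy
  exact (Finset.prod_compl_mul_prod I _).symm

lemma zz_split (I : Finset (Fin J)) (t : Fin J → ℕ × ℕ) :
    zz t = (∏ j ∈ Iᶜ, (t j).2) * ∏ j ∈ I, (t j).2 := by
  unfold zz
  exact (Finset.prod_compl_mul_prod I _).symm

lemma yy_sw (I : Finset (Fin J)) (t : Fin J → ℕ × ℕ) :
    yy (sw I t) = (∏ j ∈ Iᶜ, (t j).1) * ∏ j ∈ I, (t j).2 := by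
  rw [yy_split I (sw I t)]
  congr 1
  · refine Finset.prod_congr rfl (fun j hj => ?_)
    rw [sw_apply_not _ (Finset.mem_compl.mp hj)]
  · refine Finset.prod_congr rfl (fun j hj => ?_)
    rw [sw_apply_mem _ hj, Prod.fst_swap]

lemma zz_sw (I : Finset (Fin J)) (t : Fin J → ℕ × ℕ) :
    zz (sw I t) = (∏ j ∈ Iᶜ, (t j).2) * ∏ j ∈ I, (t j).1 := by
  rw [zz_split I (sw I t)]
  congr 1
  · refine Finset.prod_congr rfl (fun j hj => ?_)
    rw [sw_apply_not _ (Finset.mem_compl.mp hj)]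
  · refine Finset.prod_congr rfl (fun j hj => ?_)
    rw [sw_apply_mem _ hj, Prod.snd_swap]

lemma DD_sw (I : Finset (Fin J)) (t : Fin J → ℕ × ℕ) : DD (sw I t) = DD t := by
  unfold DD
  rw [yy_sw, zz_sw, yy_split I t, zz_split I t]
  ring

/-- The exchange of the positions. -/
def ps (I : Finset (Fin J)) : Fin J ⊕ Fin J → Fin J ⊕ Fin J :=
  Sum.elim (fun j => if j ∈ I then Sum.inr j else Sum.inl j)
    (fun j => if j ∈ I then Sum.inl j else Sum.inr j)

lemma ps_ps (I : Finset (Fin J)) (a : Fin J ⊕ Fin J) : ps I (ps I a) = a := by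
  rcases a with j | j
  · by_cases h : j ∈ I
    · simp [ps, h]
    · simp [ps, h]
  · by_cases h : j ∈ I
    · simp [ps, h]
    · simp [ps, h]

lemma elim_sw (I : Finset (Fin J)) (t : Fin J → ℕ × ℕ) (a : Fin J ⊕ Fin J) :
    Sum.elim (fun j => (sw I t j).1) (fun j => (sw I t j).2) a =
      Sum.elim (fun j => (t j).1) (fun j => (t j).2) (ps I a) := by
  rcases a with j | j
  · by_cases h : j ∈ I
    · simp [ps, h, sw]
    · simp [ps, h, sw]
  · by_cases h : j ∈ I
    · simp [ps, h, sw]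
    · simp [ps, h, sw]

lemma mem_TT {P : Finset ℕ} {t : Fin J → ℕ × ℕ} : t ∈ TT P J ↔
    (∀ j, (t j).1 ∈ P ∧ (t j).2 ∈ P) ∧
      Function.Injective (Sum.elim (fun j => (t j).1) (fun j => (t j).2)) := by
  unfold TT
  rw [Finset.mem_filter, Fintype.mem_piFinset]
  simp only [Finset.mem_product]

lemma sw_mem {P : Finset ℕ} (I : Finset (Fin J)) (t : Fin J → ℕ × ℕ) (ht : t ∈ TT P J) :
    sw I t ∈ TT P J := by
  rw [mem_TT] at ht ⊢
  obtain ⟨h1, h2⟩ := ht
  refine ⟨fun j => ?_, fun a b hab => ?_⟩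
  · by_cases h : j ∈ I
    · rw [sw_apply_mem _ h]
      exact ⟨(h1 j).2, (h1 j).1⟩
    · rw [sw_apply_not _ h]
      exact h1 j
  · rw [elim_sw, elim_sw] at hab
    have h3 := h2 hab
    have h4 := congrArg (ps I) h3
    rwa [ps_ps, ps_ps] at h4

end SWA

theorem t_SWA : S_SWA := by
  intro J P
  exact ⟨SWA.sw_sw, SWA.sw_symm, SWA.DD_sw, SWA.sw_mem, SWA.yy_split, SWA.zz_split,
    SWA.yy_sw, SWA.zz_sw⟩

end

end MUR
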