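import Mathlib
import Pool.Agent.MUR.StC

set_option autoImplicit false

/-!
# Project MUR, module SYM: the symmetrization of the form over the exchanges
-/

namespace MUR

open Finset
open Pool.Agent.Lib_helper83.EF (e)

noncomputable section

namespace SYM

/-- A sum over all tuples does not change when every tuple is replaced by its exchange. -/
lemma sum_sw {J : ℕ} {P : Finset ℕ} (h : S_SWA) (I : Finset (Fin J))
    (F : (Fin J → ℕ × ℕ) → ℂ) :
    ∑ t ∈ TT P J, F (sw I t) = ∑ t ∈ TT P J, F t := by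
  obtain ⟨h1, -, -, h4, -⟩ := h J P
  refine Finset.sum_nbij' (fun t => sw I t) (fun t => sw I t) ?_ ?_ ?_ ?_ ?_
  · intro t ht
    exact h4 I t ht
  · intro t ht
    exact h4 I t ht
  · intro t _
    exact h1 I t
  · intro t _
    exact h1 I t
  · intro t _
    rfl

/-- Moving the sum over the exchanges inside. -/
lemma sum_out {ι τ : Type} [Fintype ι] (T : Finset τ) (A B : Finset ℕ)
    (f : ι → τ → ℕ → ℕ → ℂ) :
    ∑ I : ι, ∑ t ∈ T, ∑ x ∈ A, ∑ w ∈ B, f I t x w =
      ∑ t ∈ T, ∑ x ∈ A, ∑ w ∈ B, ∑ I : ι, f I t x w := by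
  rw [Finset.sum_comm]
  refine Finset.sum_congr rfl fun t _ => ?_
  rw [Finset.sum_comm]
  refine Finset.sum_congr rfl fun x _ => ?_
  rw [Finset.sum_comm]

end SYM

theorem t_SYM : M_SYM := by
  intro h s M J W P Xs φ
  have h3 := (h J P).2.2.1
  have key : ∀ I : Finset (Fin J),
      ∑ t ∈ TT P J, ∑ x ∈ Xs, ∑ w ∈ Ioc 0 W, (LL (mv s (M * DD t * x * w)) : ℂ) *
        φ (M * x * yy (sw I t) + w * zz (sw I t)) = TF s M J P Xs W φ := by
    intro I
    unfold TF
    rw [← SYM.sum_sw h I (fun t => ∑ x ∈ Xs, ∑ w ∈ Ioc 0 W,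
      (LL (mv s (M * DD t * x * w)) : ℂ) * φ (M * x * yy t + w * zz t))]
    refine Finset.sum_congr rfl fun t _ => ?_
    simp only [h3 I t]
  have hsum : ∑ t ∈ TT P J, ∑ x ∈ Xs, ∑ w ∈ Ioc 0 W,
      (LL (mv s (M * DD t * x * w)) : ℂ) * AA M φ t x w =
      (1 / 2 ^ J : ℂ) * ∑ I : Finset (Fin J),
        ∑ t ∈ TT P J, ∑ x ∈ Xs, ∑ w ∈ Ioc 0 W, (LL (mv s (M * DD t * x * w)) : ℂ) *
          φ (M * x * yy (sw I t) + w * zz (sw I t)) := by
    rw [SYM.sum_out (TT P J) Xs (Ioc 0 W) (fun I t x w =>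
      (LL (mv s (M * DD t * x * w)) : ℂ) * φ (M * x * yy (sw I t) + w * zz (sw I t)))]
    simp only [Finset.mul_sum]
    refine Finset.sum_congr rfl fun t _ => ?_
    refine Finset.sum_congr rfl fun x _ => ?_
    refine Finset.sum_congr rfl fun w _ => ?_
    unfold AA
    simp only [Finset.mul_sum]
    refine Finset.sum_congr rfl fun I _ => ?_
    ring
  rw [hsum, Finset.sum_congr rfl (fun I _ => key I), Finset.sum_const, Finset.card_univ,
    Fintype.card_finset, Fintype.card_fin, nsmul_eq_mul]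
  push_cast
  have h2 : (2 : ℂ) ^ J ≠ 0 := pow_ne_zero _ two_ne_zero
  field_simp

end

end MUR
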