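import Mathlib
import Pool.Agent.MUR.StB
import Pool.Agent.IPR.T2

set_option autoImplicit false

/-!
# Project MUR, module T22: bilinear forms on average over the moduli

Adaptation of `Pool/Agent/IPR/T2.lean`.
-/

namespace MUR

open Finset IPR
open Pool.Agent.Lib_helper83.EF (e)
open scoped ArithmeticFunction.zeta ArithmeticFunction.Moebius ArithmeticFunction.vonMangoldt

noncomputable section

/-- T22. -/
theorem t_T22 : M_T22 := by
  rintro ⟨C, hC, hLSV⟩
  refine ⟨C, hC, ?_⟩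
  intro P U f c r α β v D y N hU hf hP
  classical
  set A : ℝ := ∑ m ∈ Ico v (v + D), α m ^ 2 with hA
  set B : ℝ := ∑ k ∈ Ico y (y + N), β k ^ 2 with hB
  set q : ℝ := (D : ℝ) / (f * U) + 1 with hq
  have hA0 : 0 ≤ A := Finset.sum_nonneg fun m _ => sq_nonneg _
  have hq0 : 0 ≤ q := by positivity
  have hdl : 0 ≤ dl2 N f U := by
    unfold dl2
    positivity
  -- the inner sums
  have hbil : ∀ u ∈ P, |∑ m ∈ Ico v (v + D),
      ∑ k ∈ (Ico y (y + N)).filter (fun k => m * k ≡ c u [MOD f]),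
      α m * β k * ps u (r u) (m * k)| ^ 2 ≤ A * (q *
      ∑ κ ∈ (range f).filter (fun κ => κ.Coprime f),
        ∑ t ∈ (range u).filter (fun t => t.Coprime u), IPR.T2.VV f β y N u κ t ^ 2) := by
    intro u hu
    obtain ⟨h1, h2, h3, h4, h5, h6⟩ := hP u hu
    have e1 : ∑ m ∈ Ico v (v + D),
        ∑ k ∈ (Ico y (y + N)).filter (fun k => m * k ≡ c u [MOD f]),
        α m * β k * ps u (r u) (m * k) =
        ∑ m ∈ Ico v (v + D), α m * IPR.T2.SS f β y N u (c u) (r u) m := by
      refine Finset.sum_congr rfl fun m _ => ?_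
      unfold IPR.T2.SS
      rw [Finset.mul_sum]
      refine Finset.sum_congr rfl fun k _ => ?_
      ring
    rw [e1, sq_abs]
    refine (Finset.sum_mul_sq_le_sq_mul_sq _ _ _).trans ?_
    exact mul_le_mul_of_nonneg_left (IPR.T2.step3 β y N v D hf hU h2 h4 h5 h6) hA0
  -- the large sieve
  have hls : ∑ u ∈ P, ∑ κ ∈ (range f).filter (fun κ => κ.Coprime f),
      ∑ t ∈ (range u).filter (fun t => t.Coprime u), IPR.T2.VV f β y N u κ t ^ 2 ≤
      C * dl2 N f U * B := by
    rw [Finset.sum_comm]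
    have h1 : ∀ κ ∈ (range f).filter (fun κ => κ.Coprime f),
        ∑ u ∈ P, ∑ t ∈ (range u).filter (fun t => t.Coprime u), IPR.T2.VV f β y N u κ t ^ 2 ≤
        C * dl2 N f U *
          ∑ k ∈ (Ico y (y + N)).filter (fun k => k ≡ κ [MOD f]), β k ^ 2 := by
      intro κ _
      exact hLSV P U f κ y N β hU hf (fun u hu =>
        ⟨(hP u hu).1, (hP u hu).2.1, (hP u hu).2.2.1, (hP u hu).2.2.2.1⟩)
    refine (Finset.sum_le_sum h1).trans ?_
    rw [← Finset.mul_sum]
    exact mul_le_mul_of_nonneg_left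
      (IPR.T2.sum_class hf (Ico y (y + N)) (fun k => β k ^ 2) fun k => sq_nonneg _)
      (mul_nonneg hC.le hdl)
  have h2 := sq_sum_le_card_mul_sum_sq (s := P) (f := fun u => |∑ m ∈ Ico v (v + D),
      ∑ k ∈ (Ico y (y + N)).filter (fun k => m * k ≡ c u [MOD f]),
      α m * β k * ps u (r u) (m * k)|)
  refine h2.trans ?_
  have h3 : C * (P.card : ℝ) * A * q * (dl2 N f U * B) =
      (P.card : ℝ) * (A * (q * (C * dl2 N f U * B))) := by ring
  rw [h3]
  apply mul_le_mul_of_nonneg_left _ (Nat.cast_nonneg _)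
  refine (Finset.sum_le_sum hbil).trans ?_
  rw [← Finset.mul_sum, ← Finset.mul_sum]
  exact mul_le_mul_of_nonneg_left (mul_le_mul_of_nonneg_left hls hq0) hA0

end

end MUR
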