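import Mathlib
import Pool.Agent.MUR.StC

set_option autoImplicit false

/-!
# Project MUR, module TB: sizes and coprimality of the tuples
-/

namespace MUR

open Finset
open Pool.Agent.Lib_helper83.EF (e)

noncomputable section

namespace TB

/-- All entries of a tuple. -/
def en {J : ℕ} (t : Fin J → ℕ × ℕ) : Fin J ⊕ Fin J → ℕ :=
  Sum.elim (fun j => (t j).1) (fun j => (t j).2)

theorem mem_TT {J : ℕ} {P : Finset ℕ} {t : Fin J → ℕ × ℕ} (h : t ∈ TT P J) :
    (∀ i, en t i ∈ P) ∧ Function.Injective (en t) := by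
  classical
  unfold TT at h
  rw [Finset.mem_filter, Fintype.mem_piFinset] at h
  refine ⟨?_, h.2⟩
  rintro (j | j)
  · exact (Finset.mem_product.1 (h.1 j)).1
  · exact (Finset.mem_product.1 (h.1 j)).2

theorem DD_eq {J : ℕ} (t : Fin J → ℕ × ℕ) : DD t = ∏ i, en t i := by
  unfold DD yy zz en
  rw [Fintype.prod_sum_type]
  simp

/-- Bounds of a product of `k` factors in `[Q, Q + Q / J]`. -/
theorem prod_lo {ι : Type*} (s : Finset ι) (f : ι → ℕ) (Q : ℕ) (h : ∀ i ∈ s, Q ≤ f i) :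
    Q ^ s.card ≤ ∏ i ∈ s, f i := by
  rw [← Finset.prod_const]
  exact Finset.prod_le_prod' h

theorem prod_hi {ι : Type*} (s : Finset ι) (f : ι → ℕ) (Q J : ℕ) (h : ∀ i ∈ s, f i ≤ Q + Q / J) :
    ((∏ i ∈ s, f i : ℕ) : ℝ) ≤ (Q : ℝ) ^ s.card * Real.exp (s.card / J) := by
  have h1 : ((∏ i ∈ s, f i : ℕ) : ℝ) ≤ ∏ i ∈ s, ((Q : ℝ) * Real.exp (1 / J)) := by
    rw [Nat.cast_prod]
    refine Finset.prod_le_prod (fun i _ => Nat.cast_nonneg _) (fun i hi => ?_)
    have h2 : (f i : ℝ) ≤ (Q : ℝ) + (Q : ℝ) / J := by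
      calc (f i : ℝ) ≤ ((Q + Q / J : ℕ) : ℝ) := by exact_mod_cast h i hi
        _ = (Q : ℝ) + ((Q / J : ℕ) : ℝ) := by push_cast; ring
        _ ≤ (Q : ℝ) + (Q : ℝ) / J := by
          have := @Nat.cast_div_le ℝ _ _ _ Q J
          linarith
    have h3 : (Q : ℝ) + (Q : ℝ) / J = (Q : ℝ) * (1 / J + 1) := by ring
    have h4 := Real.add_one_le_exp (1 / (J : ℝ))
    calc (f i : ℝ) ≤ (Q : ℝ) * (1 / J + 1) := by rw [← h3]; exact h2
      _ ≤ (Q : ℝ) * Real.exp (1 / J) := mul_le_mul_of_nonneg_left h4 (Nat.cast_nonneg _)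
  refine h1.trans (le_of_eq ?_)
  rw [Finset.prod_const, mul_pow, ← Real.exp_nat_mul]
  congr 2
  ring

theorem exp_one_le : Real.exp 1 ≤ 3 := by
  have := Real.exp_one_lt_d9
  linarith

theorem exp_two_le : Real.exp 2 ≤ 8 := by
  have h := Real.exp_one_lt_d9
  have h2 : Real.exp 2 = Real.exp 1 * Real.exp 1 := by
    rw [← Real.exp_add]; norm_num
  rw [h2]
  have h0 := Real.exp_pos 1
  nlinarith

theorem exp_half_le : Real.exp (1 / 2) ≤ 2 := by
  have h := Real.exp_one_lt_d9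
  have h2 : Real.exp 1 = Real.exp (1 / 2) * Real.exp (1 / 2) := by
    rw [← Real.exp_add]; norm_num
  have h0 := Real.exp_pos (1 / 2)
  by_contra hc
  push Not at hc
  nlinarith

/-- Falling factorials. -/
theorem desc (n : ℕ) : ∀ k : ℕ, k ≤ n →
    (n : ℝ) ^ (k + 1) - (k : ℝ) * (k - 1) / 2 * (n : ℝ) ^ k ≤ (n : ℝ) * (n.descFactorial k : ℝ) := by
  intro k
  induction k with
  | zero => intro _; simp
  | succ k ih =>
    intro hk
    have ih' := ih (by omega)
    rw [Nat.descFactorial_succ]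
    push_cast [Nat.cast_sub (show k ≤ n by omega)]
    have hnk : (0 : ℝ) ≤ (n : ℝ) - k := by
      have : (k : ℝ) ≤ n := by exact_mod_cast (show k ≤ n by omega)
      linarith
    have h1 := mul_le_mul_of_nonneg_left ih' hnk
    have hk0 : (0 : ℝ) ≤ (k : ℝ) * ((k : ℝ) * (k - 1) / 2) := by
      rcases Nat.eq_zero_or_pos k with h | h
      · subst h; simp
      · have : (1 : ℝ) ≤ k := by exact_mod_cast h
        apply mul_nonneg (by positivity)
        apply div_nonneg _ (by norm_num)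
        exact mul_nonneg (by positivity) (by linarith)
    have h2 : (0 : ℝ) ≤ (k : ℝ) * ((k : ℝ) * (k - 1) / 2) * (n : ℝ) ^ k :=
      mul_nonneg hk0 (by positivity)
    have e1 : (n : ℝ) ^ (k + 1 + 1) = (n : ℝ) * ((n : ℝ) * (n : ℝ) ^ k) := by ring
    have e2 : (n : ℝ) ^ (k + 1) = (n : ℝ) * (n : ℝ) ^ k := by ring
    rw [e1, e2]
    rw [e2] at h1
    nlinarith [h1, h2]

/-- Lower bound for the number of tuples. -/
theorem card_lo (P : Finset ℕ) (J : ℕ) : P.card.descFactorial (2 * J) ≤ (TT P J).card := by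
  classical
  have h1 : Fintype.card (Fin J ⊕ Fin J ↪ P) = P.card.descFactorial (2 * J) := by
    rw [Fintype.card_embedding_eq, Fintype.card_sum, Fintype.card_fin, Fintype.card_coe, two_mul]
  rw [← h1, ← Finset.card_univ]
  refine Finset.card_le_card_of_injOn
    (fun (g : Fin J ⊕ Fin J ↪ P) (j : Fin J) => ((g (Sum.inl j) : ℕ), (g (Sum.inr j) : ℕ)))
    ?_ ?_
  · intro g _
    show _ ∈ (TT P J : Set (Fin J → ℕ × ℕ))
    rw [Finset.mem_coe]
    unfold TT
    rw [Finset.mem_filter, Fintype.mem_piFinset]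
    refine ⟨fun j => Finset.mem_product.2 ⟨(g (Sum.inl j)).2, (g (Sum.inr j)).2⟩, ?_⟩
    have : (Sum.elim (fun j => ((g (Sum.inl j) : P) : ℕ)) (fun j => ((g (Sum.inr j) : P) : ℕ)) :
        Fin J ⊕ Fin J → ℕ) = fun i => ((g i : P) : ℕ) := by
      funext i
      rcases i with j | j <;> rfl
    show Function.Injective (Sum.elim (fun j => ((g (Sum.inl j) : P) : ℕ))
      (fun j => ((g (Sum.inr j) : P) : ℕ)))
    rw [this]
    intro a b hab
    exact g.injective (Subtype.ext hab)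
  · intro g _ g' _ h
    ext i
    rcases i with j | j
    · have := congrFun h j
      simpa using (Prod.ext_iff.1 this).1
    · have := congrFun h j
      simpa using (Prod.ext_iff.1 this).2

theorem card_hi (P : Finset ℕ) (J : ℕ) : (TT P J).card ≤ P.card ^ (2 * J) := by
  classical
  unfold TT
  refine (Finset.card_filter_le _ _).trans ?_
  rw [Fintype.card_piFinset, Finset.prod_const, Finset.card_product, Finset.card_univ,
    Fintype.card_fin, pow_mul, sq]

theorem card_two (P : Finset ℕ) (J : ℕ) (h : 4 * J ^ 2 ≤ P.card) :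
    ((P.card : ℝ)) ^ (2 * J) ≤ 2 * ((TT P J).card : ℝ) := by
  rcases Nat.eq_zero_or_pos J with hJ | hJ
  · subst hJ
    have h2 := card_lo P 0
    have h3 : (1 : ℝ) ≤ ((TT P 0).card : ℝ) := by
      have : 1 ≤ (TT P 0).card := by simpa using h2
      exact_mod_cast this
    simp only [mul_zero, pow_zero]
    linarith
  have hk : 2 * J ≤ P.card := by nlinarith
  have h1 := desc P.card (2 * J) hk
  have h2 : ((P.card.descFactorial (2 * J) : ℕ) : ℝ) ≤ ((TT P J).card : ℝ) := by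
    exact_mod_cast card_lo P J
  have hn : (0 : ℝ) < (P.card : ℝ) := by
    have : 0 < P.card := by omega
    exact_mod_cast this
  have h4 : (4 : ℝ) * (J : ℝ) ^ 2 ≤ (P.card : ℝ) := by exact_mod_cast h
  have h5 : ((2 * J : ℕ) : ℝ) * (((2 * J : ℕ) : ℝ) - 1) / 2 ≤ (P.card : ℝ) / 2 := by
    push_cast
    have : (0 : ℝ) ≤ (J : ℝ) := Nat.cast_nonneg _
    nlinarith
  have hp : (0 : ℝ) ≤ (P.card : ℝ) ^ (2 * J) := by positivity
  have h6 := mul_le_mul_of_nonneg_right h5 hp
  have h7 : (P.card : ℝ) * ((P.card : ℝ) ^ (2 * J)) ≤ (P.card : ℝ) * (2 * ((TT P J).card : ℝ)) := by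
    have e2 : (P.card : ℝ) ^ (2 * J + 1) = (P.card : ℝ) * (P.card : ℝ) ^ (2 * J) := by ring
    rw [e2] at h1
    have h8 := mul_le_mul_of_nonneg_left h2 hn.le
    nlinarith
  exact le_of_mul_le_mul_left h7 hn

end TB

open TB in
theorem t_TB : M_TB := by
  classical
  intro hS C Q J M P hP hJ hM hMQ
  have hSW := hS J P
  refine ⟨?_, card_two P J, by exact_mod_cast card_hi P J⟩
  intro t ht
  obtain ⟨hmem, hinj⟩ := mem_TT ht
  have hpr : ∀ i, (en t i).Prime := fun i => hP.pr _ (hmem i)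
  have hlo : ∀ i, Q < en t i := fun i => hP.lo _ (hmem i)
  have hhi : ∀ i, en t i ≤ Q + Q / J := fun i => hP.hi _ (hmem i)
  have hJr : (0 : ℝ) < (J : ℝ) := by exact_mod_cast hJ
  have hne : ∀ i j : Fin J, (t i).1 ≠ (t j).2 := by
    intro i j h
    have := @hinj (Sum.inl i) (Sum.inr j) h
    simp at this
  -- bounds for the products over one side
  have side : ∀ (f : Fin J → ℕ), (∀ j, Q < f j) → (∀ j, f j ≤ Q + Q / J) →
      Q ^ J ≤ ∏ j, f j ∧ ((∏ j, f j : ℕ) : ℝ) ≤ (Q : ℝ) ^ J * Real.exp 1 := by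
    intro f h1 h2
    constructor
    · have := prod_lo (Finset.univ : Finset (Fin J)) f Q (fun i _ => (h1 i).le)
      simpa using this
    · have := prod_hi (Finset.univ : Finset (Fin J)) f Q J (fun i _ => h2 i)
      rw [Finset.card_univ, Fintype.card_fin, div_self hJr.ne'] at this
      exact this
  have three : ∀ a : ℕ, ((a : ℕ) : ℝ) ≤ (Q : ℝ) ^ J * Real.exp 1 → a ≤ 3 * Q ^ J := by
    intro a ha
    have h1 : (a : ℝ) ≤ 3 * (Q : ℝ) ^ J := by
      have := mul_le_mul_of_nonneg_left exp_one_le (show (0 : ℝ) ≤ (Q : ℝ) ^ J by positivity)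
      linarith
    exact_mod_cast h1
  have hy := side (fun j => (t j).1) (fun j => hlo (Sum.inl j)) (fun j => hhi (Sum.inl j))
  have hz := side (fun j => (t j).2) (fun j => hlo (Sum.inr j)) (fun j => hhi (Sum.inr j))
  have hcop : (yy t).Coprime (zz t) := by
    unfold yy zz
    refine Nat.Coprime.prod_left (fun i _ => Nat.Coprime.prod_right (fun j _ => ?_))
    exact (Nat.coprime_primes (hpr (Sum.inl i)) (hpr (Sum.inr j))).2 (hne i j)
  have hcopM : M.Coprime (zz t) := by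
    unfold zz
    refine Nat.Coprime.prod_right (fun j _ => ?_)
    refine Nat.Coprime.symm (((hpr (Sum.inr j)).coprime_iff_not_dvd).2 (fun hd => ?_))
    have h1 := hMQ _ (Nat.mem_primeFactors.2 ⟨hpr (Sum.inr j), hd, by omega⟩)
    have h2 := hlo (Sum.inr j)
    omega
  have hpf : (DD t).primeFactors ⊆ Finset.univ.image (en t) := by
    intro p hp
    have hpp := Nat.prime_of_mem_primeFactors hp
    have hd := Nat.dvd_of_mem_primeFactors hp
    rw [DD_eq] at hd
    obtain ⟨i, -, hi⟩ := (hpp.prime.dvd_finsetProd_iff _).1 hd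
    rw [Nat.prime_dvd_prime_iff_eq hpp (hpr i)] at hi
    exact Finset.mem_image.2 ⟨i, Finset.mem_univ _, hi.symm⟩
  have hsq : Squarefree (DD t) := by
    rw [DD_eq]
    rw [← Finset.prod_image (f := fun x => x) (g := en t) (s := Finset.univ)
      (fun a _ b _ h => hinj h)]
    refine Finset.squarefree_prod_of_pairwise_isCoprime ?_ ?_
    · intro a ha b hb hab
      obtain ⟨i, -, rfl⟩ := Finset.mem_image.1 ha
      obtain ⟨j, -, rfl⟩ := Finset.mem_image.1 hb
      have : (en t i).Coprime (en t j) := (Nat.coprime_primes (hpr i) (hpr j)).2 hab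
      exact Nat.coprime_iff_isRelPrime.1 this
    · intro a ha
      obtain ⟨i, -, rfl⟩ := Finset.mem_image.1 ha
      exact (hpr i).squarefree
  refine ⟨hy.1, three _ hy.2, hz.1, three _ hz.2, Nat.Coprime.mul_left hcopM hcop, hcop, hsq, ?_, ?_, ?_⟩
  · intro p hp
    obtain ⟨i, -, rfl⟩ := Finset.mem_image.1 (hpf hp)
    exact hmem i
  · intro I
    have hT : sw I t ∈ TT P J := hSW.2.2.2.1 I t ht
    obtain ⟨hmem', -⟩ := mem_TT hT
    have hlo' : ∀ i, Q < en (sw I t) i := fun i => hP.lo _ (hmem' i)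
    have hhi' : ∀ i, en (sw I t) i ≤ Q + Q / J := fun i => hP.hi _ (hmem' i)
    have hy' := side (fun j => (sw I t j).1) (fun j => hlo' (Sum.inl j)) (fun j => hhi' (Sum.inl j))
    have hz' := side (fun j => (sw I t j).2) (fun j => hlo' (Sum.inr j)) (fun j => hhi' (Sum.inr j))
    have key : ∀ a b : ℕ, (a : ℝ) ≤ (Q : ℝ) ^ J * Real.exp 1 → (b : ℝ) ≤ (Q : ℝ) ^ J * Real.exp 1 →
        (M : ℝ) * ((a : ℝ) * b) ≤ 8 * M * (Q : ℝ) ^ (2 * J) := by
      intro a b ha hb
      have h1 : (a : ℝ) * b ≤ ((Q : ℝ) ^ J * Real.exp 1) * ((Q : ℝ) ^ J * Real.exp 1) :=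
        mul_le_mul ha hb (Nat.cast_nonneg _) (by positivity)
      have h2 : ((Q : ℝ) ^ J * Real.exp 1) * ((Q : ℝ) ^ J * Real.exp 1) =
          (Q : ℝ) ^ (2 * J) * Real.exp 2 := by
        have : Real.exp 2 = Real.exp 1 * Real.exp 1 := by rw [← Real.exp_add]; norm_num
        rw [this]; ring
      have h3 : (Q : ℝ) ^ (2 * J) * Real.exp 2 ≤ (Q : ℝ) ^ (2 * J) * 8 :=
        mul_le_mul_of_nonneg_left exp_two_le (by positivity)
      have h4 := mul_le_mul_of_nonneg_left ((h1.trans_eq h2).trans h3)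
        (Nat.cast_nonneg (α := ℝ) M)
      linarith
    have k1 := key (yy t) (zz (sw I t)) hy.2 hz'.2
    have k2 := key (yy (sw I t)) (zz t) hy'.2 hz.2
    have n1 : (0 : ℝ) ≤ (M : ℝ) * ((yy t : ℝ) * zz (sw I t)) := by positivity
    have n2 : (0 : ℝ) ≤ (M : ℝ) * ((yy (sw I t) : ℝ) * zz t) := by positivity
    have hc : ((Dl M I t).natAbs : ℝ) = |(M : ℝ) * ((yy t : ℝ) * zz (sw I t)) -
        (M : ℝ) * ((yy (sw I t) : ℝ) * zz t)| := by
      rw [Nat.cast_natAbs]
      unfold Dl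
      push_cast
      rfl
    rw [hc, abs_le]
    constructor <;> linarith
  · intro hQ
    have hQ0 : (0 : ℝ) < (Q : ℝ) := by
      have : 0 < Q := by omega
      exact_mod_cast this
    have hD0 : 0 < DD t := Nat.pos_of_ne_zero hsq.ne_zero
    have hprod : ∏ p ∈ (DD t).primeFactors, p = DD t := Nat.prod_primeFactors_of_squarefree hsq
    have htot : (DD t).totient = ∏ p ∈ (DD t).primeFactors, (p - 1) := by
      have h1 := Nat.totient_mul_prod_primeFactors (DD t)
      rw [hprod, mul_comm] at h1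
      exact Nat.eq_of_mul_eq_mul_left hD0 h1
    have hcard : (DD t).primeFactors.card ≤ 2 * J := by
      refine (Finset.card_le_card hpf).trans (Finset.card_image_le.trans ?_)
      simp [two_mul]
    have h1 : ((∏ p ∈ (DD t).primeFactors, p : ℕ) : ℝ) ≤
        ∏ p ∈ (DD t).primeFactors, (Real.exp (1 / Q) * ((p - 1 : ℕ) : ℝ)) := by
      rw [Nat.cast_prod]
      refine Finset.prod_le_prod (fun i _ => Nat.cast_nonneg _) (fun p hp => ?_)
      obtain ⟨i, -, rfl⟩ := Finset.mem_image.1 (hpf hp)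
      have hl := hlo i
      have h2 : (Q : ℝ) ≤ ((en t i - 1 : ℕ) : ℝ) := by
        exact_mod_cast (show Q ≤ en t i - 1 by omega)
      have h3 : ((en t i : ℕ) : ℝ) = ((en t i - 1 : ℕ) : ℝ) + 1 := by
        have : en t i = (en t i - 1) + 1 := by omega
        conv_lhs => rw [this]
        push_cast
        rfl
      have h4 := Real.add_one_le_exp (1 / (Q : ℝ))
      have h5 : (1 : ℝ) ≤ 1 / Q * ((en t i - 1 : ℕ) : ℝ) := by
        rw [one_div, inv_mul_eq_div, le_div_iff₀ hQ0]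
        linarith
      rw [h3]
      have h6 := mul_le_mul_of_nonneg_right h4 (Nat.cast_nonneg (α := ℝ) (en t i - 1))
      linarith
    rw [Finset.prod_mul_distrib, Finset.prod_const, ← Real.exp_nat_mul, hprod] at h1
    have h2 : Real.exp (((DD t).primeFactors.card : ℝ) * (1 / Q)) ≤ 2 := by
      refine le_trans (Real.exp_le_exp.2 ?_) exp_half_le
      have h3 : ((DD t).primeFactors.card : ℝ) ≤ 2 * J := by exact_mod_cast hcard
      have h4 : (4 : ℝ) * J ≤ Q := by exact_mod_cast hQ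
      rw [mul_one_div, div_le_iff₀ hQ0]
      linarith
    have h3 : (∏ p ∈ (DD t).primeFactors, ((p - 1 : ℕ) : ℝ)) = (((DD t).totient : ℕ) : ℝ) := by
      rw [htot, Nat.cast_prod]
    rw [h3] at h1
    have h4 := mul_le_mul_of_nonneg_right h2 (Nat.cast_nonneg (α := ℝ) (DD t).totient)
    have h5 : ((DD t : ℕ) : ℝ) ≤ 2 * (((DD t).totient : ℕ) : ℝ) := h1.trans h4
    exact_mod_cast h5

end

end MUR
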