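import Mathlib
import Pool.Agent.MUR.StD

set_option autoImplicit false

/-!
# Project MUR, module TOT: the total mass
-/

namespace MUR

open Finset IPR
open Pool.Agent.Lib_helper83.EF (e)

noncomputable section

namespace TOT

lemma LL_nonneg (m : ℕ) : 0 ≤ LL m := by
  unfold LL
  split_ifs with h
  · exact Real.log_nonneg (by exact_mod_cast h.one_le)
  · exact le_refl _

/-- The powers of `Q` are small. -/
lemma pow_le {R₁ Q J X : ℕ} {d : ℝ} (hX : 1 ≤ X) (hd : d ≤ 1 / 100) (hd0 : 0 < d) (hQ : 1 ≤ Q)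
    (hM : 1 ≤ MM1 R₁)
    (h : ((16 * MM1 R₁ * Q ^ (2 * J) : ℕ) : ℝ) ^ 10 ≤ (X : ℝ) ^ (d / 1000)) :
    (Q : ℝ) ^ J ≤ (X : ℝ) ^ (1 / 2 : ℝ) := by
  have hX' : (1 : ℝ) ≤ X := by exact_mod_cast hX
  have hQ' : (1 : ℝ) ≤ Q := by exact_mod_cast hQ
  have hM' : (1 : ℝ) ≤ MM1 R₁ := by exact_mod_cast hM
  have h1 : (Q : ℝ) ^ J ≤ ((16 * MM1 R₁ * Q ^ (2 * J) : ℕ) : ℝ) := by
    push_cast
    have h2 : (Q : ℝ) ^ J ≤ (Q : ℝ) ^ (2 * J) := pow_le_pow_right₀ hQ' (by omega)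
    have h3 : (1 : ℝ) ≤ 16 * (MM1 R₁ : ℝ) := by linarith
    calc (Q : ℝ) ^ J ≤ (Q : ℝ) ^ (2 * J) := h2
      _ = 1 * (Q : ℝ) ^ (2 * J) := by ring
      _ ≤ 16 * (MM1 R₁ : ℝ) * (Q : ℝ) ^ (2 * J) := by gcongr
  have h1' : (1 : ℝ) ≤ ((16 * MM1 R₁ * Q ^ (2 * J) : ℕ) : ℝ) :=
    le_trans (one_le_pow₀ hQ') h1
  calc (Q : ℝ) ^ J ≤ ((16 * MM1 R₁ * Q ^ (2 * J) : ℕ) : ℝ) := h1
    _ ≤ ((16 * MM1 R₁ * Q ^ (2 * J) : ℕ) : ℝ) ^ 10 := le_self_pow₀ h1' (by norm_num)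
    _ ≤ (X : ℝ) ^ (d / 1000) := h
    _ ≤ (X : ℝ) ^ (1 / 2 : ℝ) := Real.rpow_le_rpow_of_exponent_le hX' (by linarith)

/-- The parameter `W` is at least the square root of `X`. -/
lemma W_lower {R₁ Q J X W : ℕ} {d : ℝ} (hX : 1 ≤ X) (hd : d ≤ 1 / 100) (hd0 : 0 < d) (hQ : 1 ≤ Q)
    (hM : 1 ≤ MM1 R₁)
    (h : ((16 * MM1 R₁ * Q ^ (2 * J) : ℕ) : ℝ) ^ 10 ≤ (X : ℝ) ^ (d / 1000))
    (hW : 3 * X ≤ W * Q ^ J) : (X : ℝ) ^ (1 / 2 : ℝ) ≤ W := by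
  have h1 := pow_le hX hd hd0 hQ hM h
  have hXpos : (0 : ℝ) < X := by exact_mod_cast hX
  have h2 : (X : ℝ) ≤ W * (Q : ℝ) ^ J := by
    have : ((3 * X : ℕ) : ℝ) ≤ ((W * Q ^ J : ℕ) : ℝ) := by exact_mod_cast hW
    push_cast at this
    linarith
  have h3 : (X : ℝ) = (X : ℝ) ^ (1 / 2 : ℝ) * (X : ℝ) ^ (1 / 2 : ℝ) := by
    rw [← Real.rpow_add hXpos]
    norm_num
  have h4 : (0 : ℝ) < (X : ℝ) ^ (1 / 2 : ℝ) := Real.rpow_pos_of_pos hXpos _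
  have h5 : (X : ℝ) ^ (1 / 2 : ℝ) * (X : ℝ) ^ (1 / 2 : ℝ) ≤ W * (X : ℝ) ^ (1 / 2 : ℝ) := by
    rw [← h3]
    exact le_trans h2 (by gcongr)
  exact le_of_mul_le_mul_right h5 h4

end TOT

theorem t_TOT : M_TOT := by
  intro hLLC hXXC _hSWA hTB hCF C₁ hC₁
  obtain ⟨Ca, hCa, hA⟩ := hLLC C₁ hC₁
  obtain ⟨Cb, hCb, hB⟩ := hXXC C₁ hC₁
  refine ⟨7 * Ca * Cb, by positivity, ?_⟩
  intro R₁ d
  obtain ⟨Xa, hA⟩ := hA R₁ d
  obtain ⟨Xb, hB⟩ := hB R₁ d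
  obtain ⟨Xc, hC⟩ := hCF C₁ hC₁ R₁ d 1
  refine ⟨max (max Xa Xb) (max Xc 1), ?_⟩
  intro X hX J Q X₁ H W P s hcfg hs
  have hXa : Xa ≤ X := le_trans (le_trans (le_max_left _ _) (le_max_left _ _)) hX
  have hXb : Xb ≤ X := le_trans (le_trans (le_max_right _ _) (le_max_left _ _)) hX
  have hXc : Xc ≤ X := le_trans (le_trans (le_max_left _ _) (le_max_right _ _)) hX
  have hX1 : 1 ≤ X := le_trans (le_trans (le_max_right _ _) (le_max_right _ _)) hX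
  have hA := hA X hXa J Q X₁ H W P s hcfg hs
  have hB := hB X hXb J Q X₁ H W P hcfg
  obtain ⟨-, hll, -, -, hp1, -, hM1, hM1Q, -, -, -, -, -, -, -, -, -, -, hQ16, -, hsm, -, -, -⟩ :=
    hC X hXc J Q X₁ H W P hcfg
  have hQ1 : 1 ≤ Q := by omega
  have hWlo : (X : ℝ) ^ (1 / 2 : ℝ) ≤ W :=
    TOT.W_lower hX1 hcfg.d1 hcfg.d0 hQ1 hM1 hsm hcfg.Wlo
  have hTT : ((TT P J).card : ℝ) ≤ (P.card : ℝ) ^ (2 * J) := by
    have := hTB C₁ Q J 1 P hcfg.good (by have := hcfg.J2; omega) le_rfl (by simp)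
    exact this.2.2
  have hlogR : 0 ≤ Real.log R₁ := Real.log_nonneg (by
    have := hcfg.R2
    exact_mod_cast (by omega : 1 ≤ R₁))
  have hQJ : (0 : ℝ) < (Q : ℝ) ^ J := by
    have : (0 : ℝ) < Q := by exact_mod_cast hQ1
    positivity
  have hWhi : (W : ℝ) ≤ 7 * X / (Q : ℝ) ^ J := by
    rw [le_div_iff₀ hQJ]
    have : ((W * Q ^ J : ℕ) : ℝ) ≤ ((7 * X : ℕ) : ℝ) := by exact_mod_cast hcfg.Whi
    push_cast at this
    exact this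
  have hin : ∀ t ∈ TT P J, ∀ x ∈ XX X₁ (3 * Q),
      ∑ w ∈ Ioc 0 W, LL (mv s (pri R₁ * DD t * x * w)) ≤ Ca * Real.log R₁ * W := by
    intro t ht x hx
    have := (hA t ht x hx 0 W 0 hWlo (by omega)).2
    simpa using this
  have hll0 : 0 < Real.log (Real.log X) := by linarith
  calc ∑ t ∈ TT P J, ∑ x ∈ XX X₁ (3 * Q), ∑ w ∈ Ioc 0 W, LL (mv s (pri R₁ * DD t * x * w))
      ≤ ∑ t ∈ TT P J, ∑ x ∈ XX X₁ (3 * Q), Ca * Real.log R₁ * W :=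
        Finset.sum_le_sum fun t ht => Finset.sum_le_sum fun x hx => hin t ht x hx
    _ = ((TT P J).card : ℝ) * (((XX X₁ (3 * Q)).card : ℝ) * (Ca * Real.log R₁ * W)) := by
        rw [Finset.sum_const, Finset.sum_const]
        simp [nsmul_eq_mul]
    _ ≤ (P.card : ℝ) ^ (2 * J) * ((Cb * X₁ / Real.log (Real.log X)) *
          (Ca * Real.log R₁ * (7 * X / (Q : ℝ) ^ J))) := by
        gcongr
    _ = 7 * Ca * Cb * Real.log R₁ * KK X J Q X₁ P / Real.log (Real.log X) := by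
        unfold KK
        field_simp

end

end MUR
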