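import Pool.Agent.MUR.StB
import Pool.Agent.IPR.DLS
import Pool.Agent.IPR.T2

set_option autoImplicit false

/-!
# Project MUR, module TYB: sums of the discrepancy function over intervals
-/

namespace MUR

open Finset IPR
open Pool.Agent.Lib_helper83.EF (e)
open scoped ArithmeticFunction.zeta ArithmeticFunction.Moebius ArithmeticFunction.vonMangoldt

noncomputable section

namespace TYB

open Pool.Agent.Lib_helper72.AP (wt dlog dlog_nonneg sum_dlog)

lemma sum_coprime {a b : ℕ} (ha : 0 < a) (hb : 0 < b) (hab : a.Coprime b) {f g : ℕ → ℝ}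
    (hf : Function.Periodic f a) (hg : Function.Periodic g b) :
    ∑ n ∈ range (a * b), f n * g n = (∑ n ∈ range a, f n) * ∑ n ∈ range b, g n := by
  rw [sum_mul_sum, ← sum_product']
  refine sum_nbij' (fun n => (n % a, n % b))
    (fun p => ((Nat.chineseRemainder hab p.1 p.2 : _) : ℕ)) ?_ ?_ ?_ ?_ ?_
  · intro n _
    rw [mem_product, mem_range, mem_range]
    exact ⟨Nat.mod_lt _ ha, Nat.mod_lt _ hb⟩
  · intro p _
    rw [mem_range]
    exact Nat.chineseRemainder_lt_mul hab p.1 p.2 ha.ne' hb.ne'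
  · intro n hn
    rw [mem_range] at hn
    have h1 : n ≡ (Nat.chineseRemainder hab (n % a) (n % b) : ℕ) [MOD a * b] :=
      Nat.chineseRemainder_modEq_unique hab (Nat.mod_modEq n a).symm (Nat.mod_modEq n b).symm
    exact (Nat.ModEq.eq_of_lt_of_lt h1 hn
      (Nat.chineseRemainder_lt_mul hab _ _ ha.ne' hb.ne')).symm
  · intro p hp
    rw [mem_product, mem_range, mem_range] at hp
    have h1 := (Nat.chineseRemainder hab p.1 p.2).2
    refine Prod.ext ?_ ?_
    · exact Eq.trans h1.1 (Nat.mod_eq_of_lt hp.1)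
    · exact Eq.trans h1.2 (Nat.mod_eq_of_lt hp.2)
  · intro n _
    simp only
    rw [hf.map_mod_nat, hg.map_mod_nat]

lemma prod_pos {S : Finset ℕ} (hS : ∀ l ∈ S, l.Prime) : 0 < ∏ l ∈ S, l :=
  Finset.prod_pos fun l hl => (hS l hl).pos

lemma coprime_prod {S : Finset ℕ} {q : ℕ} (hS : ∀ l ∈ S, l.Prime) (hq : q.Prime) (hqS : q ∉ S) :
    q.Coprime (∏ l ∈ S, l) :=
  Nat.Coprime.prod_right fun l hl => (Nat.coprime_primes hq (hS l hl)).2 fun h => hqS (h ▸ hl)

/-- the sum over a period of a product of functions of the classes modulo distinct primes -/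
lemma sum_prod (S : Finset ℕ) (hS : ∀ l ∈ S, l.Prime) (v : ℕ → ℕ → ℝ)
    (hv : ∀ l ∈ S, Function.Periodic (v l) l) :
    Function.Periodic (fun n => ∏ l ∈ S, v l n) (∏ l ∈ S, l) ∧
    ∑ n ∈ range (∏ l ∈ S, l), ∏ l ∈ S, v l n = ∏ l ∈ S, ∑ n ∈ range l, v l n := by
  induction S using Finset.induction_on with
  | empty => simp [Function.Periodic]
  | insert q S hq ih =>
    have hS' : ∀ l ∈ S, l.Prime := fun l hl => hS l (mem_insert_of_mem hl)
    obtain ⟨i1, i2⟩ := ih hS' fun l hl => hv l (mem_insert_of_mem hl)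
    have hqp := hS q (mem_insert_self _ _)
    have hqv := hv q (mem_insert_self _ _)
    simp only [prod_insert hq]
    constructor
    · refine Function.Periodic.mul ?_ ?_
      · have := hqv.nat_mul (∏ l ∈ S, l)
        rw [mul_comm] at this
        simpa using this
      · have := i1.nat_mul q
        simpa using this
    · rw [sum_coprime hqp.pos (prod_pos hS') (coprime_prod hS' hqp hq) hqv i1, i2]

lemma wt_per (l : ℕ) (t : ℤ) : Function.Periodic (wt l t) l := by
  intro n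
  unfold wt
  have h1 : ((n + l : ℕ) : ZMod l) = (n : ZMod l) := by
    rw [Nat.cast_add, ZMod.natCast_self, add_zero]
  have h2 : l ∣ n + l ↔ l ∣ n := Nat.dvd_add_self_right
  simp only [h1, h2]

lemma sum_ind {l : ℕ} (hl : l.Prime) (t : ℤ) :
    ∑ n ∈ range l, (if (n : ZMod l) = (t : ZMod l) then (1 : ℝ) else 0) = 1 := by
  have : Fact l.Prime := ⟨hl⟩
  have h1 : ∑ n ∈ range l, (if (n : ZMod l) = (t : ZMod l) then (1 : ℝ) else 0) =
      ∑ x : ZMod l, (if x = (t : ZMod l) then (1 : ℝ) else 0) := by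
    refine Finset.sum_bij' (fun (j : ℕ) _ => (j : ZMod l)) (fun (x : ZMod l) _ => x.val)
      (fun j _ => Finset.mem_univ _) (fun x _ => Finset.mem_range.2 (ZMod.val_lt x))
      (fun j hj => ZMod.val_cast_of_lt (Finset.mem_range.1 hj))
      (fun x _ => ZMod.natCast_zmod_val x) (fun j _ => rfl)
  rw [h1, Finset.sum_ite_eq' Finset.univ (t : ZMod l) (fun _ => (1 : ℝ)), if_pos (Finset.mem_univ _)]

lemma sum_mean {l : ℕ} (hl : l.Prime) :
    ∑ n ∈ range l, (if l ∣ n then (0 : ℝ) else 1) / ((l : ℝ) - 1) = 1 := by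
  have hl1 : (1 : ℝ) < l := by exact_mod_cast hl.one_lt
  rw [← Finset.sum_div]
  have h1 : ∀ n ∈ range l, (if l ∣ n then (0 : ℝ) else 1) = 1 - (if n = 0 then (1 : ℝ) else 0) := by
    intro n hn
    rw [mem_range] at hn
    by_cases h0 : n = 0
    · subst h0
      simp
    · have h2 : ¬ l ∣ n := fun h => absurd (Nat.le_of_dvd (Nat.pos_of_ne_zero h0) h) (by omega)
      rw [if_neg h2, if_neg h0, sub_zero]
  rw [Finset.sum_congr rfl h1, Finset.sum_sub_distrib, Finset.sum_const, card_range, nsmul_eq_mul,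
    mul_one, Finset.sum_ite_eq' (range l) 0 (fun _ => (1 : ℝ)), if_pos (mem_range.2 hl.pos)]
  exact div_self (by linarith)

lemma sum_wt {l : ℕ} (hl : l.Prime) (t : ℤ) : ∑ n ∈ range l, wt l t n = 0 := by
  unfold wt
  rw [Finset.sum_sub_distrib, sum_ind hl, sum_mean hl, sub_self]

lemma sum_abs_wt {l : ℕ} (hl : l.Prime) (t : ℤ) : ∑ n ∈ range l, |wt l t n| ≤ 2 := by
  have hl1 : (1 : ℝ) < l := by exact_mod_cast hl.one_lt
  have h1 : ∀ n ∈ range l, |wt l t n| ≤ (if (n : ZMod l) = (t : ZMod l) then (1 : ℝ) else 0) +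
      (if l ∣ n then (0 : ℝ) else 1) / ((l : ℝ) - 1) := by
    intro n _
    unfold wt
    have a1 : (0 : ℝ) ≤ (if (n : ZMod l) = (t : ZMod l) then (1 : ℝ) else 0) := by
      split_ifs
      · exact zero_le_one
      · exact le_rfl
    have a2 : (0 : ℝ) ≤ (if l ∣ n then (0 : ℝ) else 1) / ((l : ℝ) - 1) := by
      apply div_nonneg
      · split_ifs
        · exact le_rfl
        · exact zero_le_one
      · linarith
    refine (abs_sub _ _).trans ?_
    rw [abs_of_nonneg a1, abs_of_nonneg a2]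
  refine (Finset.sum_le_sum h1).trans ?_
  rw [Finset.sum_add_distrib, sum_ind hl, sum_mean hl]
  norm_num

lemma ps_per {u : ℕ} (hu : Squarefree u) (t : ℤ) (n : ℕ) : ps u t (n + u) = ps u t n := by
  have h1 := (sum_prod u.primeFactors (fun l hl => Nat.prime_of_mem_primeFactors hl)
    (fun l => wt l t) (fun l _ => wt_per l t)).1
  rw [Nat.prod_primeFactors_of_squarefree hu] at h1
  exact h1 n

lemma ps_sum {u : ℕ} (hu : Squarefree u) (hu1 : 1 < u) (t : ℤ) :
    ∑ n ∈ range u, ps u t n = 0 := by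
  have h1 := (sum_prod u.primeFactors (fun l hl => Nat.prime_of_mem_primeFactors hl)
    (fun l => wt l t) (fun l _ => wt_per l t)).2
  rw [Nat.prod_primeFactors_of_squarefree hu] at h1
  have h2 : ∑ n ∈ range u, ps u t n = ∑ n ∈ range u, ∏ l ∈ u.primeFactors, wt l t n := rfl
  rw [h2, h1]
  have h3 : (u.primeFactors).Nonempty := Nat.nonempty_primeFactors.2 hu1
  obtain ⟨l, hl⟩ := h3
  exact Finset.prod_eq_zero hl (sum_wt (Nat.prime_of_mem_primeFactors hl) t)

lemma ps_abs {u : ℕ} (hu : Squarefree u) (t : ℤ) :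
    ∑ n ∈ range u, |ps u t n| ≤ (2 : ℝ) ^ u.primeFactors.card := by
  have h1 := (sum_prod u.primeFactors (fun l hl => Nat.prime_of_mem_primeFactors hl)
    (fun l n => |wt l t n|) (fun l _ n => by
      show |wt l t (n + l)| = |wt l t n|
      rw [wt_per l t n])).2
  rw [Nat.prod_primeFactors_of_squarefree hu] at h1
  have h2 : ∑ n ∈ range u, |ps u t n| = ∑ n ∈ range u, ∏ l ∈ u.primeFactors, |wt l t n| := by
    apply Finset.sum_congr rfl
    intro n _
    exact Finset.abs_prod _ _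
  rw [h2, h1]
  refine (Finset.prod_le_prod (fun l _ => Finset.sum_nonneg fun n _ => abs_nonneg _)
    (fun l hl => sum_abs_wt (Nat.prime_of_mem_primeFactors hl) t)).trans ?_
  rw [Finset.prod_const]

/-- interval sums of absolute values of a periodic function -/
lemma per_abs (G : ℕ → ℝ) (u : ℕ) (hu : 0 < u) (hG : ∀ n, G (n + u) = G n) (B : ℝ)
    (hB : ∑ j ∈ range u, |G j| ≤ B) (a n : ℕ) :
    ∑ j ∈ range n, |G (a + j)| ≤ ((n : ℝ) / u + 1) * B := by
  have hB0 : 0 ≤ B := (Finset.sum_nonneg fun j _ => abs_nonneg _).trans hB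
  have hper : ∀ m, (fun j => |G (a + j)|) (m + u) = (fun j => |G (a + j)|) m := by
    intro m
    show |G (a + (m + u))| = |G (a + m)|
    rw [← add_assoc, hG]
  have h1 := DLS.sum_per (fun j => |G (a + j)|) u hper (n / u) (n % u)
  rw [Nat.div_add_mod] at h1
  rw [h1]
  have h2 : ∑ j ∈ range u, |G (a + j)| = ∑ j ∈ range u, |G j| := by
    have h3 := DLS.sum_shift (fun j => |G j|) u (fun m => by show |G (m + u)| = |G m|; rw [hG]) a
    rw [← h3]
    apply Finset.sum_congr rfl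
    intro j _
    show |G (a + j)| = |G (j + a)|
    rw [add_comm]
  have h4 : ∑ j ∈ range (n % u), |G (a + j)| ≤ ∑ j ∈ range u, |G (a + j)| := by
    apply Finset.sum_le_sum_of_subset_of_nonneg
    · intro j hj
      rw [Finset.mem_range] at hj ⊢
      exact hj.trans (Nat.mod_lt _ hu)
    · intro j _ _
      exact abs_nonneg _
  have h5 : ((n / u : ℕ) : ℝ) ≤ (n : ℝ) / u := Nat.cast_div_le
  have h6 : ((n / u : ℕ) : ℝ) * ∑ j ∈ range u, |G (a + j)| ≤ (n : ℝ) / u * B := by
    rw [h2]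
    exact mul_le_mul h5 hB (Finset.sum_nonneg fun j _ => abs_nonneg _) (by positivity)
  have h7 : ∑ j ∈ range u, |G (a + j)| ≤ B := by rw [h2]; exact hB
  calc ((n / u : ℕ) : ℝ) * ∑ j ∈ range u, |G (a + j)| + ∑ j ∈ range (n % u), |G (a + j)|
      ≤ (n : ℝ) / u * B + B := add_le_add h6 (h4.trans h7)
    _ = ((n : ℝ) / u + 1) * B := by ring

/-- interval sums of a periodic function with mean zero -/
lemma per_zero (G : ℕ → ℝ) (u : ℕ) (hu : 0 < u) (hG : ∀ n, G (n + u) = G n) (B : ℝ)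
    (hB : ∑ j ∈ range u, |G j| ≤ B) (h0 : ∑ j ∈ range u, G j = 0) (n : ℕ) :
    |∑ j ∈ range n, G j| ≤ B := by
  have h1 := DLS.sum_per G u hG (n / u) (n % u)
  rw [Nat.div_add_mod, h0, mul_zero, zero_add] at h1
  rw [h1]
  refine (Finset.abs_sum_le_sum_abs _ _).trans (le_trans ?_ hB)
  apply Finset.sum_le_sum_of_subset_of_nonneg
  · intro j hj
    rw [Finset.mem_range] at hj ⊢
    exact hj.trans (Nat.mod_lt _ hu)
  · intro j _ _
    exact abs_nonneg _

/-- the first part on `Ico` -/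
lemma part1 (u f c m x N : ℕ) (r : ℤ) (hu : Squarefree u) (hu1 : 1 < u) (hf : 1 ≤ f)
    (huf : u.Coprime f) (hc : c.Coprime f) (hr : UnitM r u) :
    |∑ k ∈ (Ico x (x + N)).filter (fun k => m * k ≡ c [MOD f]), ps u r (m * k)| ≤
      (2 : ℝ) ^ u.primeFactors.card := by
  have hu0 : u ≠ 0 := by omega
  by_cases h : m.Coprime f ∧ m.Coprime u
  · obtain ⟨κ, hκ, hκ2⟩ := T2.exists_mul hf h.1 (c : ZMod f)
    obtain ⟨t, ht, ht2⟩ := T2.exists_mul (by omega : 1 ≤ u) h.2 (r : ZMod u)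
    have hκ3 : m * κ ≡ c [MOD f] := (ZMod.natCast_eq_natCast_iff _ _ _).1 hκ2
    have h1 := T2.SS_eq (f := f) (c := c) (fun _ => (1 : ℝ)) x N h.1 h.2 hκ3 ht2
    unfold T2.SS T2.VV at h1
    simp only [one_mul] at h1
    rw [h1]
    obtain ⟨k₀, n, -, hsum⟩ := DLS.prog f κ x N hf
    rw [hsum (fun k => ps u (t : ℤ) k)]
    apply per_zero (fun j => ps u (t : ℤ) (k₀ + f * j)) u (by omega)
    · intro j
      show ps u (t : ℤ) (k₀ + f * (j + u)) = ps u (t : ℤ) (k₀ + f * j)
      rw [mul_add, ← add_assoc]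
      exact DLS.per_mul (ps u (t : ℤ)) u (ps_per hu t) _ f
    · have h2 := DLS.sum_perm u f k₀ (by omega) huf.symm (fun i => |ps u (t : ℤ) i|)
      have h3 : ∑ j ∈ range u, |ps u (t : ℤ) (k₀ + f * j)| =
          ∑ i ∈ range u, |ps u (t : ℤ) ((k₀ + i * f) % u)| := by
        apply Finset.sum_congr rfl
        intro j _
        have h4 : (ps u (t : ℤ)) ((k₀ + j * f) % u) = ps u (t : ℤ) (k₀ + j * f) :=
          (show Function.Periodic (ps u (t : ℤ)) u from ps_per hu t).map_mod_nat _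
        rw [h4, mul_comm]
      rw [h3, h2]
      exact ps_abs hu t
    · have h2 := DLS.sum_perm u f k₀ (by omega) huf.symm (fun i => ps u (t : ℤ) i)
      have h3 : ∑ j ∈ range u, ps u (t : ℤ) (k₀ + f * j) =
          ∑ i ∈ range u, ps u (t : ℤ) ((k₀ + i * f) % u) := by
        apply Finset.sum_congr rfl
        intro j _
        have h4 : (ps u (t : ℤ)) ((k₀ + j * f) % u) = ps u (t : ℤ) (k₀ + j * f) :=
          (show Function.Periodic (ps u (t : ℤ)) u from ps_per hu t).map_mod_nat _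
        rw [h4, mul_comm]
      rw [h3, h2]
      exact ps_sum hu hu1 t
  · have h1 := T2.SS_zero (f := f) (c := c) (fun _ => (1 : ℝ)) x N hu0 hc hr h
    unfold T2.SS at h1
    simp only [one_mul] at h1
    rw [h1, abs_zero]
    positivity

/-- the first part on `Ioc` -/
lemma part1' (u f c m x y : ℕ) (r : ℤ) (hu : Squarefree u) (hu1 : 1 < u) (hf : 1 ≤ f)
    (huf : u.Coprime f) (hc : c.Coprime f) (hr : UnitM r u) :
    |∑ k ∈ (Ioc x y).filter (fun k => m * k ≡ c [MOD f]), ps u r (m * k)| ≤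
      (2 : ℝ) ^ u.primeFactors.card := by
  have h1 : Ioc x y = Ico (x + 1) ((x + 1) + (y - x)) := by
    ext k
    rw [mem_Ioc, mem_Ico]
    omega
  rw [h1]
  exact part1 u f c m (x + 1) (y - x) r hu hu1 hf huf hc hr

/-- the logarithmic weight -/
lemma part2 (u f c m x y : ℕ) (r : ℤ) (hu : Squarefree u) (hu1 : 1 < u) (hf : 1 ≤ f)
    (huf : u.Coprime f) (hc : c.Coprime f) (hr : UnitM r u) :
    |∑ k ∈ (Ioc x y).filter (fun k => m * k ≡ c [MOD f]), Real.log k * ps u r (m * k)| ≤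
      (2 : ℝ) ^ u.primeFactors.card * Real.log (y + 1) := by
  classical
  set W : ℝ := (2 : ℝ) ^ u.primeFactors.card with hW
  have hW0 : 0 ≤ W := by positivity
  have h1 : ∑ k ∈ (Ioc x y).filter (fun k => m * k ≡ c [MOD f]), Real.log k * ps u r (m * k) =
      ∑ j ∈ range y, dlog j *
        ∑ k ∈ (Ioc (max x j) y).filter (fun k => m * k ≡ c [MOD f]), ps u r (m * k) := by
    have h2 : ∀ k ∈ (Ioc x y).filter (fun k => m * k ≡ c [MOD f]),
        Real.log k * ps u r (m * k) =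
        ∑ j ∈ range y, if j < k then dlog j * ps u r (m * k) else 0 := by
      intro k hk
      rw [mem_filter, mem_Ioc] at hk
      rw [← sum_dlog (by omega : 1 ≤ k), Finset.sum_mul, ← Finset.sum_filter]
      apply Finset.sum_congr _ (fun _ _ => rfl)
      ext j
      simp only [mem_range, mem_filter]
      omega
    rw [Finset.sum_congr rfl h2, Finset.sum_comm]
    apply Finset.sum_congr rfl
    intro j _
    rw [Finset.mul_sum, ← Finset.sum_filter]
    apply Finset.sum_congr _ (fun _ _ => rfl)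
    ext k
    simp only [mem_filter, mem_Ioc, max_lt_iff]
    constructor
    · rintro ⟨⟨⟨a1, a2⟩, a3⟩, a4⟩
      exact ⟨⟨⟨a1, a4⟩, a2⟩, a3⟩
    · rintro ⟨⟨⟨a1, a4⟩, a2⟩, a3⟩
      exact ⟨⟨⟨a1, a2⟩, a3⟩, a4⟩
  rw [h1]
  refine (Finset.abs_sum_le_sum_abs _ _).trans ?_
  have h3 : ∀ j ∈ range y, |dlog j *
        ∑ k ∈ (Ioc (max x j) y).filter (fun k => m * k ≡ c [MOD f]), ps u r (m * k)| ≤
        W * dlog j := by
    intro j _
    rw [abs_mul, abs_of_nonneg (dlog_nonneg j), mul_comm]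
    exact mul_le_mul_of_nonneg_right (part1' u f c m (max x j) y r hu hu1 hf huf hc hr)
      (dlog_nonneg j)
  refine (Finset.sum_le_sum h3).trans ?_
  rw [← Finset.mul_sum]
  apply mul_le_mul_of_nonneg_left _ hW0
  rcases Nat.eq_zero_or_pos y with h0 | h0
  · subst h0
    simp
  · rw [sum_dlog h0]
    apply Real.log_le_log
    · exact_mod_cast h0
    · linarith

/-- the absolute values -/
lemma part3 (u m x y : ℕ) (r : ℤ) (hu : Squarefree u) (hu1 : 1 < u) (hr : UnitM r u)
    (hxy : x ≤ y) : ∑ k ∈ Ioc x y, |ps u r (m * k)| ≤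
      (((y : ℝ) - x) / u + 1) * (2 : ℝ) ^ u.primeFactors.card := by
  have hu0 : u ≠ 0 := by omega
  have hR : 0 ≤ (((y : ℝ) - x) / u + 1) * (2 : ℝ) ^ u.primeFactors.card := by
    have h1 : (x : ℝ) ≤ y := by exact_mod_cast hxy
    have h2 : (0 : ℝ) ≤ ((y : ℝ) - x) / u := div_nonneg (by linarith) (Nat.cast_nonneg _)
    positivity
  by_cases hm : m.Coprime u
  · obtain ⟨t, ht, ht2⟩ := T2.exists_mul (by omega : 1 ≤ u) hm (r : ZMod u)
    have h1 : ∑ k ∈ Ioc x y, |ps u r (m * k)| = ∑ j ∈ range (y - x), |ps u (t : ℤ) (x + 1 + j)| := by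
      have h2 : Ioc x y = Ico (x + 1) (y + 1) := by
        ext k
        rw [mem_Ioc, mem_Ico]
        omega
      rw [h2, Finset.sum_Ico_eq_sum_range]
      have h3 : y + 1 - (x + 1) = y - x := by omega
      rw [h3]
      apply Finset.sum_congr rfl
      intro j _
      rw [T2.ps_mul hm ht2]
    rw [h1]
    have h2 := per_abs (ps u (t : ℤ)) u (by omega) (ps_per hu t) _ (ps_abs hu t) (x + 1) (y - x)
    rw [Nat.cast_sub hxy] at h2
    exact h2
  · obtain ⟨l, hl, h1, h2⟩ := Nat.Prime.not_coprime_iff_dvd.1 hm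
    have h3 : ∑ k ∈ Ioc x y, |ps u r (m * k)| = 0 := by
      apply Finset.sum_eq_zero
      intro k _
      rw [T2.ps_zero hr (Nat.mem_primeFactors.2 ⟨hl, h2, hu0⟩) h1, abs_zero]
    rw [h3]
    exact hR

end TYB

theorem t_TYB : S_TYB := by
  intro u f c m x y r hu hu1 hf huf hc hr
  exact ⟨TYB.part1' u f c m x y r hu hu1 hf huf hc hr,
    TYB.part2 u f c m x y r hu hu1 hf huf hc hr,
    fun hxy => TYB.part3 u m x y r hu hu1 hr hxy⟩

end

end MUR
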