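import Pool.Agent.MUR.StB
import Pool.Agent.IPR.TT2
import Pool.Agent.Lib_helper67.NQ.Count

set_option autoImplicit false

/-!
# Project MUR, module TYP2: bilinear sums
-/

namespace MUR

open Finset IPR
open Pool.Agent.Lib_helper83.EF (e)
open scoped ArithmeticFunction.zeta ArithmeticFunction.Moebius ArithmeticFunction.vonMangoldt
open Pool.Agent.Lib_helper72.AP

noncomputable section

namespace TYP2

/-! ### the number of prime factors -/

theorem two_pow_le {u : ℕ} (hu : u ≠ 0) : (2 : ℝ) ^ u.primeFactors.card ≤ u.divisors.card := by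
  have h : 2 ^ u.primeFactors.card ≤ u.divisors.card := by
    rw [Nat.card_divisors hu, ← Finset.prod_const]
    apply Finset.prod_le_prod
    · intro i _
      norm_num
    · intro p hp
      have h1 : 0 < u.factorization p :=
        (Nat.prime_of_mem_primeFactors hp).factorization_pos_of_dvd hu
          (Nat.dvd_of_mem_primeFactors hp)
      omega
  exact_mod_cast h

theorem sum_two_pow (P : Finset ℕ) {U : ℕ} (hP : ∀ u ∈ P, 1 ≤ u ∧ u ≤ 2 * U) :
    ∑ u ∈ P, (2 : ℝ) ^ u.primeFactors.card ≤ 2 * U * (1 + Real.log (2 * U)) := by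
  have h1 : ∑ u ∈ P, (2 : ℝ) ^ u.primeFactors.card ≤ ∑ u ∈ P, (u.divisors.card : ℝ) :=
    Finset.sum_le_sum fun u hu => two_pow_le (by have := (hP u hu).1; omega)
  have h2 : ∑ u ∈ P, (u.divisors.card : ℝ) ≤ ∑ u ∈ Icc 1 (2 * U), (u.divisors.card : ℝ) := by
    apply Finset.sum_le_sum_of_subset_of_nonneg
    · intro u hu
      exact mem_Icc.2 (hP u hu)
    · intro u _ _
      positivity
  have h3 := Pool.Agent.Lib_helper67.NQ.sum_divisors_card_le (2 * U)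
  push_cast at h3
  exact (h1.trans h2).trans h3

/-! ### the boundary terms -/

theorem abs_cw_le_ps (f c u : ℕ) (r : ℤ) (n : ℕ) : |IPR.TT2.cw f c u r n| ≤ |ps u r n| := by
  rw [IPR.TT2.cw]
  split_ifs
  · exact le_rfl
  · simp

theorem boundary (hTYB : S_TYB) (P : Finset ℕ) {U f : ℕ} {c : ℕ → ℕ} {r : ℕ → ℤ} (hU : 1 ≤ U)
    (hf : 1 ≤ f) (hP : Fam P U f c r) {b : ℕ → ℝ} {Y : ℕ} {L : ℝ} (hL : 0 ≤ L)
    (hb : ∀ n ≤ Y, |b n| ≤ L) {v B m : ℕ} (hB : 1 ≤ B) (hv : 1 ≤ v) (hvm : v ≤ m)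
    (hm : m ≤ v + v / B) {T : ℕ} (hT : T ≤ Y) :
    ∑ u ∈ P, ∑ k ∈ Ioc (T / m) (T / v), |b k * IPR.TT2.cw f (c u) u (r u) (m * k)| ≤
      L * (((T : ℝ) / B * (1 / m) + 1 + U) * (2 * (1 + Real.log (2 * U)))) := by
  classical
  have hUr : (1 : ℝ) ≤ U := by exact_mod_cast hU
  have hUr0 : (0 : ℝ) < U := by linarith
  have hle : T / m ≤ T / v := Nat.div_le_div_left hvm (by omega)
  have hcard := card_div_sub_le (X := T) hB hv hvm hm
  rw [Nat.card_Ioc, Nat.cast_sub hle] at hcard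
  set q : ℝ := (T : ℝ) / B * (1 / m) + 1 with hq
  have hq0 : 0 ≤ q := by positivity
  have h1 : ∀ u ∈ P, ∑ k ∈ Ioc (T / m) (T / v), |b k * IPR.TT2.cw f (c u) u (r u) (m * k)| ≤
      L * (q / U + 1) * (2 : ℝ) ^ u.primeFactors.card := by
    intro u hu
    obtain ⟨hsq, hu1, hUu, huU, huf, hcf, hr⟩ := hP u hu
    have h2 := (hTYB u f (c u) m (T / m) (T / v) (r u) hsq hu1 hf huf hcf hr).2.2 hle
    have hur : (U : ℝ) ≤ u := by exact_mod_cast hUu
    have h3 : (((T / v : ℕ) : ℝ) - ((T / m : ℕ) : ℝ)) / u + 1 ≤ q / U + 1 := by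
      have h4 : (((T / v : ℕ) : ℝ) - ((T / m : ℕ) : ℝ)) / u ≤ q / u :=
        div_le_div_of_nonneg_right hcard (by linarith)
      have h5 : q / u ≤ q / U := div_le_div_of_nonneg_left hq0 hUr0 hur
      linarith
    calc ∑ k ∈ Ioc (T / m) (T / v), |b k * IPR.TT2.cw f (c u) u (r u) (m * k)|
        ≤ ∑ k ∈ Ioc (T / m) (T / v), L * |ps u (r u) (m * k)| := by
          refine Finset.sum_le_sum fun k hk => ?_
          rw [mem_Ioc] at hk
          rw [abs_mul]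
          exact mul_le_mul (hb k (hk.2.trans ((Nat.div_le_self _ _).trans hT)))
            (abs_cw_le_ps _ _ _ _ _) (abs_nonneg _) hL
      _ = L * ∑ k ∈ Ioc (T / m) (T / v), |ps u (r u) (m * k)| := by rw [Finset.mul_sum]
      _ ≤ L * ((q / U + 1) * (2 : ℝ) ^ u.primeFactors.card) := by
          apply mul_le_mul_of_nonneg_left _ hL
          exact h2.trans (mul_le_mul_of_nonneg_right h3 (by positivity))
      _ = _ := by ring
  refine (Finset.sum_le_sum h1).trans ?_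
  rw [← Finset.mul_sum]
  have h2 := sum_two_pow P (U := U) fun u hu => by
    obtain ⟨-, h1, -, h2, -⟩ := hP u hu
    exact ⟨by omega, h2⟩
  calc L * (q / U + 1) * ∑ u ∈ P, (2 : ℝ) ^ u.primeFactors.card
      ≤ L * (q / U + 1) * (2 * U * (1 + Real.log (2 * U))) :=
        mul_le_mul_of_nonneg_left h2 (by positivity)
    _ = _ := by
        field_simp

/-! ### the bilinear form of a block -/

/-- The coefficients cut at `E`. -/
def cut (E : ℕ) (b : ℕ → ℝ) (k : ℕ) : ℝ := if E < k then b k else 0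

theorem abs_cut_le {E : ℕ} {b : ℕ → ℝ} {k : ℕ} {L : ℝ} (hL : 0 ≤ L) (h : |b k| ≤ L) :
    |cut E b k| ≤ L := by
  rw [cut]
  split_ifs
  · exact h
  · simpa using hL

/-- The bilinear form of a block. -/
def bS (a b : ℕ → ℝ) (f c u : ℕ) (r : ℤ) (X Y v B : ℕ) : ℝ :=
  ∑ m ∈ Ico v (v + v / B),
    ∑ k ∈ (Ico (X / v + 1) (X / v + 1 + (Y / v - X / v))).filter (fun k => m * k ≡ c [MOD f]),
      a m * b k * ps u r (m * k)

theorem bS_eq (a b : ℕ → ℝ) (f c u : ℕ) (r : ℤ) {X Y v B : ℕ} (hXY : X ≤ Y) :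
    bS a b f c u r X Y v B = ∑ m ∈ Ico v (v + v / B),
      a m * ∑ k ∈ Ioc (X / v) (Y / v), b k * IPR.TT2.cw f c u r (m * k) := by
  have hle : X / v ≤ Y / v := Nat.div_le_div_right hXY
  have e2 : Ico (X / v + 1) (X / v + 1 + (Y / v - X / v)) = Ioc (X / v) (Y / v) := by
    rw [Ioc_eq_Ico_succ]
    congr 1
    omega
  rw [bS, e2]
  apply Finset.sum_congr rfl
  intro m _
  rw [Finset.mul_sum, Finset.sum_filter]
  apply Finset.sum_congr rfl
  intro k _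
  rw [IPR.TT2.cw]
  split_ifs <;> ring

/-- Splitting into blocks. -/
theorem split (a : ℕ → ℝ) (In : ℕ → ℝ) {Y V B N : ℕ} (ha0 : ∀ n, n ≤ V → a n = 0)
    (ha1 : ∀ n, Y < n ^ 2 → a n = 0) (hN : Nat.sqrt Y + 1 ≤ blk V B N) :
    ∑ m ∈ Ioc 0 Y, a m * In m =
      ∑ j ∈ range N, ∑ m ∈ Ico (blk V B j) (blk V B j + blk V B j / B), a m * In m := by
  classical
  rw [← sum_blocks V B N (fun m => a m * In m)]
  have hz : ∀ m, Nat.sqrt Y < m → a m = 0 := fun m hm => ha1 m (by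
    have := Nat.sqrt_lt'.1 hm
    exact this)
  have h1 : ∑ m ∈ Ioc 0 Y, a m * In m = ∑ m ∈ Ioc V (Nat.sqrt Y), a m * In m := by
    symm
    apply Finset.sum_subset
    · intro m hm
      rw [mem_Ioc] at hm ⊢
      have := Nat.sqrt_le_self Y
      omega
    · intro m hm hm2
      rw [mem_Ioc] at hm hm2
      by_cases h : m ≤ V
      · rw [ha0 m h, zero_mul]
      · rw [hz m (by omega), zero_mul]
  have h2 : ∑ m ∈ Ico (V + 1) (blk V B N), a m * In m =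
      ∑ m ∈ Ioc V (Nat.sqrt Y), a m * In m := by
    symm
    apply Finset.sum_subset
    · intro m hm
      rw [mem_Ioc] at hm
      rw [mem_Ico]
      omega
    · intro m hm hm2
      rw [mem_Ico] at hm
      rw [mem_Ioc] at hm2
      rw [hz m (by omega), zero_mul]
  rw [h1, h2]

/-- The form of the problem, by blocks. -/
theorem one_modulus (a b : ℕ → ℝ) (f c u : ℕ) (r : ℤ) {X Y V B N : ℕ} (hXY : X ≤ Y)
    (ha0 : ∀ n, n ≤ V → a n = 0) (ha1 : ∀ n, Y < n ^ 2 → a n = 0)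
    (hN : Nat.sqrt Y + 1 ≤ blk V B N) :
    |∑ m ∈ Ioc 0 Y, a m * ∑ k ∈ Ioc (X / m) (Y / m), b k * IPR.TT2.cw f c u r (m * k)| ≤
      ∑ j ∈ range N, (|bS a b f c u r X Y (blk V B j) B| +
        ∑ m ∈ Ico (blk V B j) (blk V B j + blk V B j / B), |a m| *
          (∑ k ∈ Ioc (X / m) (X / blk V B j), |b k * IPR.TT2.cw f c u r (m * k)| +
            ∑ k ∈ Ioc (Y / m) (Y / blk V B j), |b k * IPR.TT2.cw f c u r (m * k)|)) := by
  classical
  rw [split a _ ha0 ha1 hN]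
  refine (Finset.abs_sum_le_sum_abs _ _).trans (Finset.sum_le_sum fun j _ => ?_)
  set v := blk V B j with hv
  have hvj : 0 < v := by have := blk_ge V B j; omega
  have hXYv : X / v ≤ Y / v := Nat.div_le_div_right hXY
  have e1 : ∑ m ∈ Ico v (v + v / B),
      a m * ∑ k ∈ Ioc (X / m) (Y / m), b k * IPR.TT2.cw f c u r (m * k) =
      bS a b f c u r X Y v B +
      ∑ m ∈ Ico v (v + v / B), a m *
        (∑ k ∈ Ioc (X / m) (Y / m), b k * IPR.TT2.cw f c u r (m * k) -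
          ∑ k ∈ Ioc (X / v) (Y / v), b k * IPR.TT2.cw f c u r (m * k)) := by
    rw [bS_eq a b f c u r hXY, ← Finset.sum_add_distrib]
    apply Finset.sum_congr rfl
    intro m _
    ring
  rw [e1]
  refine (abs_add_le _ _).trans (add_le_add le_rfl ?_)
  refine (Finset.abs_sum_le_sum_abs _ _).trans (Finset.sum_le_sum fun m hm => ?_)
  rw [abs_mul]
  apply mul_le_mul_of_nonneg_left _ (abs_nonneg _)
  rw [mem_Ico] at hm
  exact abs_sum_Ioc_sub_le (fun k => b k * IPR.TT2.cw f c u r (m * k))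
    (Nat.div_le_div_left hm.1 hvj) (Nat.div_le_div_left hm.1 hvj)
    (Nat.div_le_div_right hXY) hXYv

/-- All the boundary terms. -/
theorem bound_total (hTYB : S_TYB) (P : Finset ℕ) {U f : ℕ} {c : ℕ → ℕ} {r : ℕ → ℤ}
    (hU : 1 ≤ U) (hf : 1 ≤ f) (hP : Fam P U f c r) {a b : ℕ → ℝ} {X Y V B N : ℕ} {L : ℝ}
    (hL : 0 ≤ L) (hXY : X ≤ Y) (ha : ∀ n, |a n| ≤ L) (hb : ∀ n ≤ Y, |b n| ≤ L)
    (ha1 : ∀ n, Y < n ^ 2 → a n = 0) (hB : 1 ≤ B) :
    ∑ j ∈ range N, ∑ m ∈ Ico (blk V B j) (blk V B j + blk V B j / B), |a m| *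
      (∑ u ∈ P, (∑ k ∈ Ioc (X / m) (X / blk V B j), |b k * IPR.TT2.cw f (c u) u (r u) (m * k)| +
        ∑ k ∈ Ioc (Y / m) (Y / blk V B j), |b k * IPR.TT2.cw f (c u) u (r u) (m * k)|)) ≤
    L ^ 2 * (4 * (1 + Real.log (2 * U))) *
      ((Y : ℝ) / B * (1 + Real.log (Nat.sqrt Y)) + Nat.sqrt Y * (1 + U)) := by
  classical
  have hUr : (1 : ℝ) ≤ U := by exact_mod_cast hU
  have hlogU : 0 ≤ Real.log (2 * U) := Real.log_nonneg (by linarith)
  set W := Nat.sqrt Y with hW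
  set G : ℕ → ℝ := fun m => L * (L * (((Y : ℝ) / B * (1 / m) + 1 + U) *
    (4 * (1 + Real.log (2 * U))))) with hG
  have hG0 : ∀ m, 0 ≤ G m := fun m => by positivity
  have hz : ∀ m, W < m → a m = 0 := fun m hm => ha1 m (Nat.sqrt_lt'.1 hm)
  have hbd : ∀ j ∈ range N, ∀ m ∈ Ico (blk V B j) (blk V B j + blk V B j / B), |a m| *
      (∑ u ∈ P, (∑ k ∈ Ioc (X / m) (X / blk V B j), |b k * IPR.TT2.cw f (c u) u (r u) (m * k)| +
        ∑ k ∈ Ioc (Y / m) (Y / blk V B j), |b k * IPR.TT2.cw f (c u) u (r u) (m * k)|)) ≤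
      if m ≤ W then G m else 0 := by
    intro j _ m hm
    rw [mem_Ico] at hm
    have hvj := blk_ge V B j
    split_ifs with hmW
    · rw [Finset.sum_add_distrib]
      have e1 := boundary hTYB P hU hf hP hL hb hB (by omega : 1 ≤ blk V B j) hm.1 hm.2.le hXY
      have e2 := boundary hTYB P hU hf hP hL hb hB (by omega : 1 ≤ blk V B j) hm.1 hm.2.le
        (le_refl Y)
      have hXr : (X : ℝ) ≤ Y := by exact_mod_cast hXY
      have e3 : L * (((X : ℝ) / B * (1 / m) + 1 + U) * (2 * (1 + Real.log (2 * U)))) ≤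
          L * (((Y : ℝ) / B * (1 / m) + 1 + U) * (2 * (1 + Real.log (2 * U)))) := by
        gcongr
      have e4 : 0 ≤ ∑ u ∈ P, ∑ k ∈ Ioc (X / m) (X / blk V B j),
          |b k * IPR.TT2.cw f (c u) u (r u) (m * k)| +
          ∑ u ∈ P, ∑ k ∈ Ioc (Y / m) (Y / blk V B j),
          |b k * IPR.TT2.cw f (c u) u (r u) (m * k)| := by positivity
      refine (mul_le_mul_of_nonneg_right (ha m) e4).trans ?_
      rw [hG]
      refine mul_le_mul_of_nonneg_left ?_ hL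
      refine (add_le_add (e1.trans e3) e2).trans (le_of_eq ?_)
      ring
    · rw [hz m (by omega)]
      simp
  calc _ ≤ ∑ j ∈ range N, ∑ m ∈ Ico (blk V B j) (blk V B j + blk V B j / B),
          (if m ≤ W then G m else 0) :=
        Finset.sum_le_sum fun j hj => Finset.sum_le_sum fun m hm => hbd j hj m hm
    _ = ∑ m ∈ Ico (V + 1) (blk V B N), (if m ≤ W then G m else 0) := by
        rw [sum_blocks V B N]
    _ ≤ ∑ m ∈ Icc 1 W, G m := by
        rw [← Finset.sum_filter]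
        apply Finset.sum_le_sum_of_subset_of_nonneg
        · intro m hm
          rw [mem_filter, mem_Ico] at hm
          rw [mem_Icc]
          omega
        · intro m _ _
          exact hG0 m
    _ = L ^ 2 * (4 * (1 + Real.log (2 * U))) *
          ((Y : ℝ) / B * (∑ m ∈ Icc 1 W, (1 : ℝ) / m) + W * (1 + U)) := by
        have e1 : ∀ m ∈ Icc 1 W, G m = L ^ 2 * (4 * (1 + Real.log (2 * U))) *
            ((Y : ℝ) / B * (1 / m) + (1 + U)) := by
          intro m _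
          rw [hG]
          ring
        rw [Finset.sum_congr rfl e1, ← Finset.mul_sum, Finset.sum_add_distrib, ← Finset.mul_sum,
          Finset.sum_const, Nat.card_Icc, nsmul_eq_mul, Nat.add_sub_cancel]
    _ ≤ _ := by
        have e2 := sum_one_div_le_log W
        have e3 : 0 ≤ (Y : ℝ) / B := by positivity
        have e4 := mul_le_mul_of_nonneg_left e2 e3
        have e5 : 0 ≤ L ^ 2 * (4 * (1 + Real.log (2 * U))) := by positivity
        apply mul_le_mul_of_nonneg_left _ e5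
        linarith

/-! ### the estimate of one block -/

/-- The bilinear estimate with a given constant. -/
def T22C (C : ℝ) : Prop := ∀ (P : Finset ℕ) (U f : ℕ) (c : ℕ → ℕ) (r : ℕ → ℤ)
  (α β : ℕ → ℝ) (v D y N : ℕ), 1 ≤ U → 1 ≤ f →
  (∀ u ∈ P, Squarefree u ∧ U ≤ u ∧ u ≤ 2 * U ∧ u.Coprime f ∧ (c u).Coprime f ∧ UnitM (r u) u) →
  (∑ u ∈ P, |∑ m ∈ Ico v (v + D), ∑ k ∈ (Ico y (y + N)).filter (fun k => m * k ≡ c u [MOD f]),
    α m * β k * ps u (r u) (m * k)|) ^ 2 ≤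
    C * P.card * (∑ m ∈ Ico v (v + D), α m ^ 2) * ((D : ℝ) / (f * U) + 1) *
      (dl2 N f U * ∑ k ∈ Ico y (y + N), β k ^ 2)

/-- expansion of the product -/
theorem expand {d n F u : ℝ} (hd : 0 ≤ d) (hn : 0 ≤ n) (hF : 1 ≤ F) (hu : 1 ≤ u) :
    u * d * n * (d / (F * u) + 1) * ((n / F + 1) / u + u) ≤
      (d * n) ^ 2 / (F ^ 2 * u) + 2 * (d ^ 2 * n * u) + d * n ^ 2 + 2 * (u ^ 2 * (d * n)) := by
  have hF0 : 0 < F := by linarith
  have hu0 : 0 < u := by linarith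
  have e1 : u * d * n * (d / (F * u) + 1) * ((n / F + 1) / u + u) =
      (d * n) * (d * n / (F ^ 2 * u) + d / (F * u) + d * u / F + n / F + 1 + u ^ 2) := by
    field_simp
    ring
  have h1 : d / (F * u) ≤ d * u := by
    rw [div_le_iff₀ (by positivity)]
    have : 1 ≤ u * (F * u) := by nlinarith [mul_le_mul hF hu (by norm_num) hF0.le]
    nlinarith
  have h2 : d * u / F ≤ d * u := div_le_self (by positivity) hF
  have h3 : n / F ≤ n := div_le_self hn hF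
  have h4 : (1 : ℝ) ≤ u ^ 2 := by nlinarith
  rw [e1]
  have h5 : d * n / (F ^ 2 * u) + d / (F * u) + d * u / F + n / F + 1 + u ^ 2 ≤
      d * n / (F ^ 2 * u) + 2 * (d * u) + n + 2 * u ^ 2 := by linarith
  refine (mul_le_mul_of_nonneg_left h5 (by positivity)).trans (le_of_eq ?_)
  field_simp

theorem sq4 {a b c d : ℝ} (ha : 0 ≤ a) (hb : 0 ≤ b) (hc : 0 ≤ c) (hd : 0 ≤ d) :
    a ^ 2 + b ^ 2 + c ^ 2 + d ^ 2 ≤ (a + b + c + d) ^ 2 := by
  have h : (a + b + c + d) ^ 2 = a ^ 2 + b ^ 2 + c ^ 2 + d ^ 2 +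
      2 * (a * b + a * c + a * d + b * c + b * d + c * d) := by ring
  have h2 : 0 ≤ a * b + a * c + a * d + b * c + b * d + c * d := by positivity
  rw [h]
  linarith

theorem block {C : ℝ} (hC : 0 < C) (hT : T22C C) (P : Finset ℕ) {U f : ℕ} {c : ℕ → ℕ}
    {r : ℕ → ℤ} (hU : 1 ≤ U) (hf : 1 ≤ f) (hP : Fam P U f c r) {a b : ℕ → ℝ} {X Y v B : ℕ}
    {L : ℝ} (hL : 0 ≤ L) (hXY : X ≤ Y) (ha : ∀ n, |a n| ≤ L) (hb : ∀ n ≤ Y, |b n| ≤ L)
    (hB : 1 ≤ B) (hv : 1 ≤ v) :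
    ∑ u ∈ P, |bS a b f (c u) u (r u) X Y v B| ≤
      Real.sqrt (2 * C) * L ^ 2 * ((((Y : ℝ) - X) + v) / (B * (f * Real.sqrt U)) +
        Real.sqrt (2 * v * Y * U) / B + Y / Real.sqrt (B * v) + U * Real.sqrt (2 * Y / B)) := by
  classical
  have hBr : (0 : ℝ) < B := by exact_mod_cast (show 0 < B by omega)
  have hvr : (0 : ℝ) < v := by exact_mod_cast hv
  have hfr : (1 : ℝ) ≤ f := by exact_mod_cast hf
  have hUr : (1 : ℝ) ≤ U := by exact_mod_cast hU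
  have hfr0 : (0 : ℝ) < f := by linarith
  have hUr0 : (0 : ℝ) < U := by linarith
  have hXr : (X : ℝ) ≤ Y := by exact_mod_cast hXY
  have hYr : (0 : ℝ) ≤ Y := Nat.cast_nonneg _
  set D : ℕ := v / B with hD
  set N : ℕ := Y / v - X / v with hN
  have hcard : P.card ≤ 2 * U := by
    have hsub : P ⊆ Icc U (2 * U) := by
      intro u hu
      obtain ⟨-, -, h1, h2, -⟩ := hP u hu
      exact mem_Icc.2 ⟨h1, h2⟩
    have h1 := Finset.card_le_card hsub
    rw [Nat.card_Icc] at h1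
    omega
  have hcardr : (P.card : ℝ) ≤ 2 * U := by exact_mod_cast hcard
  have hmain := hT P U f c r a b v D (X / v + 1) N hU hf fun u hu => by
    obtain ⟨h1, -, h3, h4, h5, h6, h7⟩ := hP u hu
    exact ⟨h1, h3, h4, h5, h6, h7⟩
  have hDr : (D : ℝ) ≤ v / B := Nat.cast_div_le
  have hD0 : (0 : ℝ) ≤ D := Nat.cast_nonneg _
  have hN0 : (0 : ℝ) ≤ N := Nat.cast_nonneg _
  have hle : X / v ≤ Y / v := Nat.div_le_div_right hXY
  have hNr : (N : ℝ) ≤ Y / v := by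
    have e1 : (N : ℝ) ≤ ((Y / v : ℕ) : ℝ) := by exact_mod_cast Nat.sub_le _ _
    exact e1.trans Nat.cast_div_le
  have hNr2 : (N : ℝ) ≤ ((Y : ℝ) - X) / v + 1 := by
    have e1 : (N : ℝ) = ((Y / v : ℕ) : ℝ) - ((X / v : ℕ) : ℝ) := by
      rw [hN, Nat.cast_sub hle]
    have e2 : ((Y / v : ℕ) : ℝ) ≤ (Y : ℝ) / v := Nat.cast_div_le
    have e3 : (X : ℝ) / v ≤ ((X / v : ℕ) : ℝ) + 1 := by
      rw [div_le_iff₀ hvr]
      have g1 := Nat.div_add_mod X v
      have g2 := Nat.mod_lt X (show 0 < v by omega)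
      have g3 : X ≤ (X / v + 1) * v := by
        have : (X / v + 1) * v = v * (X / v) + v := by ring
        omega
      exact_mod_cast g3
    rw [e1, sub_div]
    linarith
  -- the factors
  have f1 : ∑ m ∈ Ico v (v + D), (a m) ^ 2 ≤ D * L ^ 2 := by
    have e1 : ∑ m ∈ Ico v (v + D), (a m) ^ 2 ≤ ∑ m ∈ Ico v (v + D), L ^ 2 := by
      apply Finset.sum_le_sum
      intro m _
      rw [← sq_abs]
      exact pow_le_pow_left₀ (abs_nonneg _) (ha m) 2
    rw [Finset.sum_const, Nat.card_Ico, nsmul_eq_mul, Nat.add_sub_cancel_left] at e1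
    exact e1
  have f4 : ∑ k ∈ Ico (X / v + 1) (X / v + 1 + N), (b k) ^ 2 ≤ N * L ^ 2 := by
    have e1 : ∑ k ∈ Ico (X / v + 1) (X / v + 1 + N), (b k) ^ 2 ≤
        ∑ k ∈ Ico (X / v + 1) (X / v + 1 + N), L ^ 2 := by
      apply Finset.sum_le_sum
      intro k hk
      rw [mem_Ico] at hk
      have hkY : k ≤ Y / v := by omega
      rw [← sq_abs]
      exact pow_le_pow_left₀ (abs_nonneg _) (hb k (hkY.trans (Nat.div_le_self _ _))) 2
    rw [Finset.sum_const, Nat.card_Ico, nsmul_eq_mul, Nat.add_sub_cancel_left] at e1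
    exact e1
  have g1 : 0 ≤ ∑ m ∈ Ico v (v + D), (a m) ^ 2 := Finset.sum_nonneg fun _ _ => sq_nonneg _
  have g3 : 0 ≤ dl2 N f U := by
    rw [dl2]
    positivity
  have g4 : 0 ≤ ∑ k ∈ Ico (X / v + 1) (X / v + 1 + N), (b k) ^ 2 :=
    Finset.sum_nonneg fun _ _ => sq_nonneg _
  set A1 : ℝ := (((Y : ℝ) - X) + v) / (B * (f * Real.sqrt U)) with hA1
  set A2 : ℝ := Real.sqrt (2 * v * Y * U) / B with hA2
  set A3 : ℝ := Y / Real.sqrt (B * v) with hA3
  set A4 : ℝ := U * Real.sqrt (2 * Y / B) with hA4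
  have hYX : 0 ≤ (Y : ℝ) - X := by linarith
  have a1 : 0 ≤ A1 := by positivity
  have a2 : 0 ≤ A2 := by positivity
  have a3 : 0 ≤ A3 := by positivity
  have a4 : 0 ≤ A4 := by positivity
  have hDN : (D : ℝ) * N ≤ (((Y : ℝ) - X) + v) / B := by
    calc (D : ℝ) * N ≤ (v / B) * (((Y : ℝ) - X) / v + 1) :=
          mul_le_mul hDr hNr2 hN0 (by positivity)
      _ = (((Y : ℝ) - X) + v) / B := by field_simp
  have hDN2 : (D : ℝ) * N ≤ Y / B := by
    calc (D : ℝ) * N ≤ (v / B) * (Y / v) := mul_le_mul hDr hNr hN0 (by positivity)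
      _ = Y / B := by field_simp
  have s1 : ((D : ℝ) * N) ^ 2 / ((f : ℝ) ^ 2 * U) ≤ A1 ^ 2 := by
    have e1 : A1 ^ 2 = ((((Y : ℝ) - X) + v) / B) ^ 2 / ((f : ℝ) ^ 2 * U) := by
      have hs : Real.sqrt U ^ 2 = U := Real.sq_sqrt hUr0.le
      rw [hA1, div_pow, mul_pow, mul_pow, hs, div_pow, div_div]
    rw [e1]
    apply div_le_div_of_nonneg_right _ (by positivity)
    exact pow_le_pow_left₀ (by positivity) hDN 2
  have s2 : 2 * ((D : ℝ) ^ 2 * N * U) ≤ A2 ^ 2 := by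
    have e1 : A2 ^ 2 = 2 * v * Y * U / B ^ 2 := by
      rw [hA2, div_pow, Real.sq_sqrt (by positivity)]
    rw [e1]
    have e2 : (D : ℝ) ^ 2 ≤ (v / B) ^ 2 := pow_le_pow_left₀ hD0 hDr 2
    calc 2 * ((D : ℝ) ^ 2 * N * U) ≤ 2 * (((v : ℝ) / B) ^ 2 * ((Y : ℝ) / v) * U) := by gcongr
      _ = 2 * (v : ℝ) * Y * U / (B : ℝ) ^ 2 := by field_simp
  have s3 : (D : ℝ) * N ^ 2 ≤ A3 ^ 2 := by
    have e1 : A3 ^ 2 = Y ^ 2 / (B * v) := by
      rw [hA3, div_pow, Real.sq_sqrt (by positivity)]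
    rw [e1]
    have e2 : (N : ℝ) ^ 2 ≤ (Y / v) ^ 2 := pow_le_pow_left₀ hN0 hNr 2
    calc (D : ℝ) * (N : ℝ) ^ 2 ≤ ((v : ℝ) / B) * ((Y : ℝ) / v) ^ 2 := by gcongr
      _ = (Y : ℝ) ^ 2 / (B * v) := by field_simp
  have s4 : 2 * ((U : ℝ) ^ 2 * (D * N)) ≤ A4 ^ 2 := by
    have e1 : A4 ^ 2 = U ^ 2 * (2 * Y / B) := by
      rw [hA4, mul_pow, Real.sq_sqrt (by positivity)]
    rw [e1]
    calc 2 * ((U : ℝ) ^ 2 * (D * N)) ≤ 2 * ((U : ℝ) ^ 2 * ((Y : ℝ) / B)) := by gcongr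
      _ = (U : ℝ) ^ 2 * (2 * Y / B) := by ring
  have hexp := expand hD0 hN0 hfr hUr
  have hsq : (∑ u ∈ P, |bS a b f (c u) u (r u) X Y v B|) ^ 2 ≤
      (Real.sqrt (2 * C) * L ^ 2 * (A1 + A2 + A3 + A4)) ^ 2 := by
    refine (le_of_eq rfl).trans (hmain.trans ?_)
    have e1 : C * (P.card : ℝ) * (∑ m ∈ Ico v (v + D), (a m) ^ 2) *
        ((D : ℝ) / (f * U) + 1) ≤ C * (2 * U) * (D * L ^ 2) * ((D : ℝ) / (f * U) + 1) := by
      gcongr
    have e2 : dl2 N f U * ∑ k ∈ Ico (X / v + 1) (X / v + 1 + N), (b k) ^ 2 ≤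
        dl2 N f U * (N * L ^ 2) := mul_le_mul_of_nonneg_left f4 g3
    refine (mul_le_mul e1 e2 (mul_nonneg g3 g4) (by positivity)).trans ?_
    have e3 : C * (2 * U) * (D * L ^ 2) * ((D : ℝ) / (f * U) + 1) * (dl2 N f U * (N * L ^ 2)) =
        2 * C * L ^ 4 * (U * D * N * (D / (f * U) + 1) * (((N : ℝ) / f + 1) / U + U)) := by
      rw [dl2]
      ring
    have e4 : (Real.sqrt (2 * C) * L ^ 2 * (A1 + A2 + A3 + A4)) ^ 2 =
        2 * C * L ^ 4 * (A1 + A2 + A3 + A4) ^ 2 := by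
      rw [mul_pow, mul_pow, Real.sq_sqrt (by positivity)]
      ring
    rw [e3, e4]
    apply mul_le_mul_of_nonneg_left _ (by positivity)
    refine hexp.trans ?_
    exact (add_le_add (add_le_add (add_le_add s1 s2) s3) s4).trans (sq4 a1 a2 a3 a4)
  have hnn : 0 ≤ Real.sqrt (2 * C) * L ^ 2 * (A1 + A2 + A3 + A4) := by positivity
  exact abs_le_of_sq_le_sq' hsq hnn |>.2

/-! ### numerical estimates -/

theorem numK {y w U B V1 f sU Δ W : ℝ} (hy : 0 < y) (hw : 1 ≤ w) (hU : 0 ≤ U) (hB : 0 < B)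
    (hf : 1 ≤ f) (hsU : 1 ≤ sU) (hΔ : 0 ≤ Δ) (hW0 : 0 ≤ W) (hW : W ≤ Real.sqrt y)
    (hwV : w ^ 3 ≤ V1) (hUw : U * w ^ 4 ≤ Real.sqrt y) (hBw : B ≤ 2 * w)
    (hwy : w ≤ Real.sqrt y) :
    B * ((Δ + W) / (B * (f * sU)) + Real.sqrt (2 * W * y * U) / B + y / Real.sqrt (B * V1) +
      U * Real.sqrt (2 * y / B)) ≤ Δ / (f * sU) + 7 * (y / w) := by
  have hw0 : 0 < w := by linarith
  have hf0 : 0 < f := by linarith
  have hs0 : 0 < sU := by linarith
  have hV0 : 0 < V1 := lt_of_lt_of_le (by positivity) hwV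
  set s := Real.sqrt y with hs
  have hss : s * s = y := Real.mul_self_sqrt hy.le
  have hs0' : 0 ≤ s := Real.sqrt_nonneg y
  have hZ0 : 0 ≤ y / w := by positivity
  have e1 : B * ((Δ + W) / (B * (f * sU)) + Real.sqrt (2 * W * y * U) / B +
      y / Real.sqrt (B * V1) + U * Real.sqrt (2 * y / B)) =
      (Δ + W) / (f * sU) + Real.sqrt (2 * W * y * U) + B * (y / Real.sqrt (B * V1)) +
        B * (U * Real.sqrt (2 * y / B)) := by
    field_simp
  have t1 : (Δ + W) / (f * sU) ≤ Δ / (f * sU) + y / w := by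
    rw [add_div]
    have h1 : W / (f * sU) ≤ W := div_le_self hW0 (by nlinarith)
    have h2 : s ≤ y / w := by
      rw [le_div_iff₀ hw0, ← hss]
      exact mul_le_mul_of_nonneg_left hwy hs0'
    linarith
  have hU1 : U ≤ s / w ^ 4 := by
    rw [le_div_iff₀ (by positivity)]
    exact hUw
  have hw1 : ∀ n : ℕ, (1 : ℝ) ≤ w ^ n := fun n => one_le_pow₀ hw
  have t2 : Real.sqrt (2 * W * y * U) ≤ 2 * (y / w) := by
    apply Real.sqrt_le_iff.2
    refine ⟨by positivity, ?_⟩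
    have h1 : W * U ≤ s * (s / w ^ 4) := mul_le_mul hW hU1 hU hs0'
    have h2 : s * (s / w ^ 4) = y / w ^ 4 := by rw [← mul_div_assoc, hss]
    have h3 : y / w ^ 4 ≤ y / w ^ 2 := by
      apply div_le_div_of_nonneg_left hy.le (by positivity)
      exact pow_le_pow_right₀ hw (by norm_num)
    have h4 : (2 * (y / w)) ^ 2 = 4 * y * (y / w ^ 2) := by
      field_simp
      ring
    rw [h4]
    have h5 : 2 * W * y * U = 2 * y * (W * U) := by ring
    rw [h5]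
    have h6 : W * U ≤ y / w ^ 2 := by linarith
    have h7 : 0 ≤ y / w ^ 2 := by positivity
    nlinarith [mul_le_mul_of_nonneg_left h6 hy.le, mul_nonneg hy.le h7]
  have t3 : B * (y / Real.sqrt (B * V1)) ≤ 2 * (y / w) := by
    have hq : 0 < Real.sqrt (B * V1) := Real.sqrt_pos.2 (by positivity)
    have h1 : w * B ≤ 2 * Real.sqrt (B * V1) := by
      have h2 : w * B ≤ Real.sqrt ((w * B) ^ 2) := by
        rw [Real.sqrt_sq (by positivity)]
      have h3 : 2 * Real.sqrt (B * V1) = Real.sqrt (2 ^ 2 * (B * V1)) := by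
        rw [Real.sqrt_mul (by norm_num : (0 : ℝ) ≤ 2 ^ 2) (B * V1), Real.sqrt_sq (by norm_num)]
      rw [h3]
      refine h2.trans (Real.sqrt_le_sqrt ?_)
      have h4 : w ^ 2 * B ≤ 4 * V1 := by
        calc w ^ 2 * B ≤ w ^ 2 * (2 * w) := mul_le_mul_of_nonneg_left hBw (by positivity)
          _ = 2 * w ^ 3 := by ring
          _ ≤ 4 * V1 := by linarith
      have h5 := mul_le_mul_of_nonneg_left h4 hB.le
      nlinarith
    have h2 : B / Real.sqrt (B * V1) ≤ 2 / w := by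
      rw [div_le_div_iff₀ hq hw0]
      linarith
    calc B * (y / Real.sqrt (B * V1)) = y * (B / Real.sqrt (B * V1)) := by ring
      _ ≤ y * (2 / w) := mul_le_mul_of_nonneg_left h2 hy.le
      _ = 2 * (y / w) := by ring
  have t4 : B * (U * Real.sqrt (2 * y / B)) ≤ 2 * (y / w) := by
    have h1 : B * (U * Real.sqrt (2 * y / B)) = U * Real.sqrt (2 * y * B) := by
      have h2 : Real.sqrt (2 * y * B) = B * Real.sqrt (2 * y / B) := by
        have h3 : 2 * y * B = B ^ 2 * (2 * y / B) := by field_simp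
        rw [h3, Real.sqrt_mul (by positivity), Real.sqrt_sq hB.le]
      rw [h2]
      ring
    rw [h1]
    have h2 : Real.sqrt (2 * y * B) ≤ 2 * (s * w) := by
      apply Real.sqrt_le_iff.2
      refine ⟨by positivity, ?_⟩
      have h3 : (2 * (s * w)) ^ 2 = 4 * (s * s) * w ^ 2 := by ring
      rw [h3, hss]
      have h4 : 2 * y * B ≤ 2 * y * (2 * w) := mul_le_mul_of_nonneg_left hBw (by positivity)
      have h5 : w ≤ w ^ 2 := by nlinarith
      nlinarith [mul_le_mul_of_nonneg_left h5 hy.le]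
    calc U * Real.sqrt (2 * y * B) ≤ (s / w ^ 4) * (2 * (s * w)) :=
          mul_le_mul hU1 h2 (Real.sqrt_nonneg _) (by positivity)
      _ = 2 * ((s * s) / w ^ 3) := by
          field_simp
      _ = 2 * (y / w ^ 3) := by rw [hss]
      _ ≤ 2 * (y / w) := by
          have h3 : y / w ^ 3 ≤ y / w := by
            apply div_le_div_of_nonneg_left hy.le hw0
            have := pow_le_pow_right₀ hw (show 1 ≤ 3 by norm_num)
            rwa [pow_one] at this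
          linarith
  rw [e1]
  linarith

/-- the boundary terms -/
theorem numB {y w U B L lU lW W : ℝ} (hy : 0 < y) (hw : 1 ≤ w) (hU : 1 ≤ U) 
    (hW0 : 0 ≤ W) (hW : W ≤ Real.sqrt y) (hUw : U * w ^ 4 ≤ Real.sqrt y) (hBw : w ≤ B)
    (hL : 1 ≤ L) (hlU : lU ≤ L) (hlW : lW ≤ L) (hlW0 : 0 ≤ lW) :
    L ^ 2 * (4 * (1 + lU)) * (y / B * (1 + lW) + W * (1 + U)) ≤ 32 * L ^ 4 * (y / w) := by
  have hw0 : 0 < w := by linarith
  have hB0 : 0 < B := by linarith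
  set s := Real.sqrt y with hs
  have hss : s * s = y := Real.mul_self_sqrt hy.le
  have hs0' : 0 ≤ s := Real.sqrt_nonneg y
  have hU1 : U ≤ s / w ^ 4 := by
    rw [le_div_iff₀ (by positivity)]
    exact hUw
  have h1 : y / B ≤ y / w := div_le_div_of_nonneg_left hy.le hw0 hBw
  have h2 : W * (1 + U) ≤ 2 * (y / w) := by
    calc W * (1 + U) ≤ s * (2 * U) := mul_le_mul hW (by linarith) (by linarith) hs0'
      _ ≤ s * (2 * (s / w ^ 4)) := by
          apply mul_le_mul_of_nonneg_left _ hs0'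
          linarith
      _ = 2 * ((s * s) / w ^ 4) := by ring
      _ = 2 * (y / w ^ 4) := by rw [hss]
      _ ≤ 2 * (y / w) := by
          have h3 : y / w ^ 4 ≤ y / w := by
            apply div_le_div_of_nonneg_left hy.le hw0
            have := pow_le_pow_right₀ hw (show 1 ≤ 4 by norm_num)
            rwa [pow_one] at this
          linarith
  have hZ0 : 0 ≤ y / w := by positivity
  have h3 : y / B * (1 + lW) + W * (1 + U) ≤ 4 * L * (y / w) := by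
    have h4 : y / B * (1 + lW) ≤ y / w * (2 * L) := mul_le_mul h1 (by linarith) (by linarith) hZ0
    have h5 : 2 * (y / w) ≤ 2 * L * (y / w) := by nlinarith
    linarith
  have h4 : 0 ≤ y / B * (1 + lW) + W * (1 + U) := by positivity
  have h5 : L ^ 2 * (4 * (1 + lU)) ≤ L ^ 2 * (8 * L) := by
    apply mul_le_mul_of_nonneg_left _ (by positivity)
    linarith
  calc L ^ 2 * (4 * (1 + lU)) * (y / B * (1 + lW) + W * (1 + U))
      ≤ (L ^ 2 * (8 * L)) * (4 * L * (y / w)) := mul_le_mul h5 h3 h4 (by positivity)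
    _ = 32 * L ^ 4 * (y / w) := by ring



/-! ### the total -/

theorem step0 (E : ℕ) (a b : ℕ → ℝ) (f c u : ℕ) (r : ℤ) (X Y : ℕ) :
    ∑ m ∈ Ioc 0 Y, ∑ k ∈ (Ioc (max E (X / m)) (Y / m)).filter (fun k => m * k ≡ c [MOD f]),
      a m * b k * ps u r (m * k) =
    ∑ m ∈ Ioc 0 Y, a m * ∑ k ∈ Ioc (X / m) (Y / m), cut E b k * IPR.TT2.cw f c u r (m * k) := by
  classical
  apply Finset.sum_congr rfl
  intro m _
  have hsub : Ioc (max E (X / m)) (Y / m) ⊆ Ioc (X / m) (Y / m) := by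
    intro k hk
    rw [mem_Ioc] at hk ⊢
    exact ⟨lt_of_le_of_lt (le_max_right _ _) hk.1, hk.2⟩
  rw [Finset.mul_sum, Finset.sum_filter, ← Finset.sum_subset hsub]
  · apply Finset.sum_congr rfl
    intro k hk
    rw [mem_Ioc] at hk
    have hE : E < k := lt_of_le_of_lt (le_max_left _ _) hk.1
    rw [cut, if_pos hE, IPR.TT2.cw]
    split_ifs <;> ring
  · intro k hk hk2
    rw [mem_Ioc] at hk hk2
    have hE : ¬ E < k := by
      intro hE
      exact hk2 ⟨max_lt hE hk.1, hk.2⟩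
    rw [cut, if_neg hE]
    ring

theorem total {C : ℝ} (hC : 0 < C) (hT : T22C C) (hTYB : S_TYB) (P : Finset ℕ) {U f : ℕ}
    {c : ℕ → ℕ} {r : ℕ → ℤ} (hU : 1 ≤ U) (hf : 1 ≤ f) (hP : Fam P U f c r) {a b : ℕ → ℝ}
    {X Y V B I : ℕ} {L w : ℝ} (hL1 : 1 ≤ L) (hXY : X ≤ Y) (hY : 1 ≤ Y) (ha : ∀ n, |a n| ≤ L)
    (hb : ∀ n ≤ Y, |b n| ≤ L) (ha0 : ∀ n, n ≤ V → a n = 0) (ha1 : ∀ n, Y < n ^ 2 → a n = 0)
    (hw : 1 ≤ w) (hBw1 : w ≤ B) (hBw2 : (B : ℝ) ≤ 2 * w) (hBV : B ≤ V)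
    (hwV : w ^ 3 ≤ (V : ℝ) + 1) (hUw : U * w ^ 4 ≤ Real.sqrt Y) (hwy : w ≤ Real.sqrt Y)
    (hI : Nat.sqrt Y + 1 ≤ 2 ^ I) (hIL : 2 * I * Real.sqrt (2 * C) ≤ L ^ 2)
    (hlU : Real.log (2 * U) ≤ L) (hlW : Real.log (Nat.sqrt Y) ≤ L) :
    ∑ u ∈ P, |∑ m ∈ Ioc 0 Y, a m *
      ∑ k ∈ Ioc (X / m) (Y / m), b k * IPR.TT2.cw f (c u) u (r u) (m * k)| ≤
      L ^ 4 * (((Y : ℝ) - X) / (f * Real.sqrt U)) + 39 * L ^ 4 * (Y / w) := by
  classical
  have hL0 : 0 ≤ L := by linarith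
  have hw0 : 0 < w := by linarith
  have hB0 : (0 : ℝ) < B := by linarith
  have hB : 1 ≤ B := by
    have : 0 < B := by exact_mod_cast hB0
    omega
  have hYr : (1 : ℝ) ≤ Y := by exact_mod_cast hY
  have hYr0 : (0 : ℝ) < Y := by linarith
  have hXr : (X : ℝ) ≤ Y := by exact_mod_cast hXY
  have hfr : (1 : ℝ) ≤ f := by exact_mod_cast hf
  have hUr : (1 : ℝ) ≤ U := by exact_mod_cast hU
  have hsU : (1 : ℝ) ≤ Real.sqrt U := Real.one_le_sqrt.2 hUr
  set W := Nat.sqrt Y with hW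
  have hWr : (W : ℝ) ≤ Real.sqrt Y := Real.nat_sqrt_le_real_sqrt
  have hW0 : (0 : ℝ) ≤ W := Nat.cast_nonneg _
  set N := 2 * B * I with hN
  have hNblk : W + 1 ≤ blk V B N := hI.trans (blk_pow hB hBV I)
  have h1 : ∑ u ∈ P, |∑ m ∈ Ioc 0 Y, a m *
      ∑ k ∈ Ioc (X / m) (Y / m), b k * IPR.TT2.cw f (c u) u (r u) (m * k)| ≤
      ∑ j ∈ range N, ∑ u ∈ P, |bS a b f (c u) u (r u) X Y (blk V B j) B| +
      ∑ j ∈ range N, ∑ m ∈ Ico (blk V B j) (blk V B j + blk V B j / B), |a m| *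
      (∑ u ∈ P, (∑ k ∈ Ioc (X / m) (X / blk V B j), |b k * IPR.TT2.cw f (c u) u (r u) (m * k)| +
        ∑ k ∈ Ioc (Y / m) (Y / blk V B j), |b k * IPR.TT2.cw f (c u) u (r u) (m * k)|)) := by
    refine (Finset.sum_le_sum fun u _ =>
      one_modulus a b f (c u) u (r u) hXY ha0 ha1 hNblk).trans (le_of_eq ?_)
    rw [Finset.sum_comm, ← Finset.sum_add_distrib]
    apply Finset.sum_congr rfl
    intro j _
    rw [Finset.sum_add_distrib]
    congr 1
    rw [Finset.sum_comm]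
    apply Finset.sum_congr rfl
    intro m _
    rw [Finset.mul_sum]
  refine h1.trans ?_
  have h2 := (bound_total hTYB P hU hf hP hL0 hXY ha hb ha1 hB (V := V) (N := N)).trans
    (numB (y := (Y : ℝ)) (w := w) (U := (U : ℝ)) (B := (B : ℝ)) (L := L)
      (lU := Real.log (2 * U)) (lW := Real.log (Nat.sqrt Y)) (W := (Nat.sqrt Y : ℝ))
      hYr0 hw hUr hW0 hWr hUw hBw1 hL1 hlU hlW (Real.log_natCast_nonneg _))
  set K : ℝ := (((Y : ℝ) - X) + W) / (B * (f * Real.sqrt U)) +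
        Real.sqrt (2 * W * Y * U) / B + Y / Real.sqrt (B * ((V : ℝ) + 1)) +
        U * Real.sqrt (2 * Y / B) with hK
  have hYX : 0 ≤ (Y : ℝ) - X := by linarith
  have hK0 : 0 ≤ K := by positivity
  have hKb := numK (y := (Y : ℝ)) (w := w) (U := (U : ℝ)) (B := (B : ℝ)) (V1 := (V : ℝ) + 1)
    (f := (f : ℝ)) (sU := Real.sqrt U) (Δ := (Y : ℝ) - X) (W := (W : ℝ)) hYr0 hw
    (by linarith) hB0 hfr hsU hYX hW0 hWr hwV hUw hBw2 hwy
  have h3 : ∀ j ∈ range N, ∑ u ∈ P, |bS a b f (c u) u (r u) X Y (blk V B j) B| ≤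
      Real.sqrt (2 * C) * L ^ 2 * K := by
    intro j _
    have hvj := blk_ge V B j
    by_cases hjW : blk V B j ≤ W
    · refine (block hC hT P hU hf hP hL0 hXY ha hb hB (by omega : 1 ≤ blk V B j)).trans ?_
      apply mul_le_mul_of_nonneg_left _ (by positivity)
      have q1 : ((blk V B j : ℕ) : ℝ) ≤ W := by exact_mod_cast hjW
      have q2 : (V : ℝ) + 1 ≤ ((blk V B j : ℕ) : ℝ) := by exact_mod_cast hvj
      have q3 : (0 : ℝ) < (V : ℝ) + 1 := by positivity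
      have q4 : Y / Real.sqrt (B * ((blk V B j : ℕ) : ℝ)) ≤
          Y / Real.sqrt (B * ((V : ℝ) + 1)) := by
        apply div_le_div_of_nonneg_left hYr0.le (Real.sqrt_pos.2 (by positivity))
        exact Real.sqrt_le_sqrt (by nlinarith)
      have q5 : Real.sqrt (2 * ((blk V B j : ℕ) : ℝ) * Y * U) ≤ Real.sqrt (2 * W * Y * U) :=
        Real.sqrt_le_sqrt (by gcongr)
      have q6 : Real.sqrt (2 * ((blk V B j : ℕ) : ℝ) * Y * U) / B ≤
          Real.sqrt (2 * W * Y * U) / B := div_le_div_of_nonneg_right q5 hB0.le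
      have q7 : (((Y : ℝ) - X) + ((blk V B j : ℕ) : ℝ)) / (B * (f * Real.sqrt U)) ≤
          (((Y : ℝ) - X) + W) / (B * (f * Real.sqrt U)) :=
        div_le_div_of_nonneg_right (by linarith) (by positivity)
      rw [hK]
      linarith
    · have hz : ∀ u ∈ P, |bS a b f (c u) u (r u) X Y (blk V B j) B| = 0 := by
        intro u _
        rw [abs_eq_zero, bS]
        apply Finset.sum_eq_zero
        intro m hm
        apply Finset.sum_eq_zero
        intro k _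
        rw [mem_Ico] at hm
        rw [ha1 m (Nat.sqrt_lt'.1 (by omega))]
        ring
      rw [Finset.sum_congr rfl hz, Finset.sum_const_zero]
      positivity
  have h4 : ∑ j ∈ range N, ∑ u ∈ P, |bS a b f (c u) u (r u) X Y (blk V B j) B| ≤
      L ^ 4 * (((Y : ℝ) - X) / (f * Real.sqrt U) + 7 * (Y / w)) := by
    refine (Finset.sum_le_sum h3).trans ?_
    rw [Finset.sum_const, card_range, nsmul_eq_mul, hN]
    have q1 : ((2 * B * I : ℕ) : ℝ) * (Real.sqrt (2 * C) * L ^ 2 * K) =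
        (2 * I * Real.sqrt (2 * C)) * L ^ 2 * (B * K) := by
      push_cast
      ring
    rw [q1]
    have q2 : (2 * I * Real.sqrt (2 * C)) * L ^ 2 ≤ L ^ 4 := by
      have := mul_le_mul_of_nonneg_right hIL (sq_nonneg L)
      nlinarith
    exact mul_le_mul q2 hKb (by positivity) (by positivity)
  have h5 : L ^ 4 * (((Y : ℝ) - X) / (f * Real.sqrt U)) + 39 * L ^ 4 * (Y / w) =
      L ^ 4 * (((Y : ℝ) - X) / (f * Real.sqrt U) + 7 * (Y / w)) + 32 * L ^ 4 * (Y / w) := by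
    ring
  rw [h5]
  exact add_le_add h4 h2

theorem evt (ϖ K : ℝ) (hϖ : 0 < ϖ) : ∃ Y₀ : ℕ, 2 ^ 16 ≤ Y₀ ∧ ∀ Y : ℕ, Y₀ ≤ Y →
    1 ≤ Real.log Y ∧ K ≤ Real.log Y ∧ 39 * Real.log Y ^ 4 ≤ (Y : ℝ) ^ (ϖ / 20) := by
  have h1 : ∀ᶠ x : ℝ in Filter.atTop, 1 ≤ Real.log x :=
    Real.tendsto_log_atTop.eventually_ge_atTop 1
  have h2 : ∀ᶠ x : ℝ in Filter.atTop, K ≤ Real.log x :=
    Real.tendsto_log_atTop.eventually_ge_atTop K
  have h3 : ∀ᶠ x : ℝ in Filter.atTop, 39 * Real.log x ^ 4 ≤ x ^ (ϖ / 20) := by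
    have e1 := (isLittleO_log_rpow_rpow_atTop (4 : ℝ) (show 0 < ϖ / 20 by linarith)).bound
      (show (0 : ℝ) < 1 / 39 by norm_num)
    filter_upwards [e1, Filter.eventually_ge_atTop 1] with x hx hx1
    have hl : 0 ≤ Real.log x := Real.log_nonneg hx1
    have e2 : Real.log x ^ (4 : ℝ) = Real.log x ^ (4 : ℕ) := by
      exact_mod_cast Real.rpow_natCast (Real.log x) 4
    rw [e2, Real.norm_of_nonneg (by positivity), Real.norm_of_nonneg (by positivity)] at hx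
    linarith
  obtain ⟨x₀, hx₀⟩ := Filter.eventually_atTop.1 (h1.and (h2.and h3))
  refine ⟨max (2 ^ 16) ⌈x₀⌉₊, le_max_left _ _, fun Y hY => hx₀ Y ?_⟩
  exact (Nat.le_ceil x₀).trans (by exact_mod_cast (le_max_right _ _).trans hY)



end TYP2

open TYP2 in
theorem t_TYP2 : M_TYP2 := by
  classical
  intro hT22 hTYB ϖ hϖ hϖ4
  obtain ⟨C, hC, hT⟩ := hT22
  obtain ⟨Y₀, hY₀16, hY₀⟩ := evt ϖ (6 * Real.sqrt (2 * C)) hϖ
  refine ⟨Y₀, ?_⟩
  intro X Y V E f U hYY hXY hV1 hV2 hf hU hUY P c r hP a b ha hb ha0 ha1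
  obtain ⟨hL1, hLC, hL4⟩ := hY₀ Y hYY
  have hY16 : 2 ^ 16 ≤ Y := hY₀16.trans hYY
  have hY1 : 1 ≤ Y := le_trans (by norm_num) hY16
  have hYr16 : (2 : ℝ) ^ 16 ≤ Y := by exact_mod_cast hY16
  have hYr1 : (1 : ℝ) ≤ Y := by exact_mod_cast hY1
  have hYr0 : (0 : ℝ) < Y := by linarith
  set L := Real.log Y with hL
  have hL0 : 0 ≤ L := by linarith
  set w : ℝ := (Y : ℝ) ^ (ϖ / 4) with hw
  have hw1 : 1 ≤ w := Real.one_le_rpow hYr1 (by linarith)
  have hw0 : 0 < w := by linarith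
  -- the coefficients
  have haL : ∀ n, |a n| ≤ L := by
    intro n
    by_cases hn : n ≤ Y
    · exact ha n hn
    · have h1 : a n = 0 := ha1 n (by
        have h2 : Y < n := by omega
        have h3 : n * 1 ≤ n * n := Nat.mul_le_mul_left n (by omega)
        rw [pow_two]
        omega)
      rw [h1, abs_zero]
      exact hL0
  have hbL : ∀ n ≤ Y, |cut E b n| ≤ L := fun n hn => abs_cut_le hL0 (hb n hn)
  -- the parameters
  have hVr : (Y : ℝ) ^ (1 / 5 : ℝ) ≤ (V : ℝ) + 1 := by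
    have h1 : (Y : ℝ) ≤ ((V : ℝ) + 1) ^ (5 : ℕ) := by exact_mod_cast hV2.le
    have h2 : (Y : ℝ) ^ (1 / 5 : ℝ) ≤ (((V : ℝ) + 1) ^ (5 : ℕ)) ^ (1 / 5 : ℝ) :=
      Real.rpow_le_rpow hYr0.le h1 (by norm_num)
    have h3 : (((V : ℝ) + 1) ^ (5 : ℕ)) ^ (1 / 5 : ℝ) = (V : ℝ) + 1 := by
      rw [← Real.rpow_natCast, ← Real.rpow_mul (by positivity)]
      norm_num
    rwa [h3] at h2
  set t : ℝ := (Y : ℝ) ^ (1 / 16 : ℝ) with ht
  have ht2 : 2 ≤ t := by
    have h1 : ((2 : ℝ) ^ (16 : ℕ)) ^ (1 / 16 : ℝ) ≤ t :=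
      Real.rpow_le_rpow (by norm_num) hYr16 (by norm_num)
    have h2 : ((2 : ℝ) ^ (16 : ℕ)) ^ (1 / 16 : ℝ) = 2 := by
      rw [← Real.rpow_natCast, ← Real.rpow_mul (by norm_num)]
      norm_num
    rwa [h2] at h1
  have hwt : w ≤ t := Real.rpow_le_rpow_of_exponent_le hYr1 (by linarith)
  have ht5 : t ^ 2 ≤ (Y : ℝ) ^ (1 / 5 : ℝ) := by
    have h1 : t ^ 2 = (Y : ℝ) ^ (1 / 8 : ℝ) := by
      rw [ht, ← Real.rpow_natCast, ← Real.rpow_mul hYr0.le]
      norm_num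
    rw [h1]
    exact Real.rpow_le_rpow_of_exponent_le hYr1 (by norm_num)
  set B : ℕ := ⌈w⌉₊ with hB
  have hBw1 : w ≤ B := Nat.le_ceil w
  have hBw : (B : ℝ) < w + 1 := Nat.ceil_lt_add_one hw0.le
  have hBw2 : (B : ℝ) ≤ 2 * w := by linarith
  have hBV : B ≤ V := by
    have h1 : (B : ℝ) < V + 1 - 1 + 1 := by nlinarith
    have h2 : (B : ℝ) < (V : ℝ) + 1 := by linarith
    have h3 : B < V + 1 := by exact_mod_cast h2
    omega
  have hwV : w ^ 3 ≤ (V : ℝ) + 1 := by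
    have h1 : w ^ 3 ≤ t ^ 3 := pow_le_pow_left₀ hw0.le hwt 3
    have h2 : t ^ 3 = (Y : ℝ) ^ (3 / 16 : ℝ) := by
      rw [ht, ← Real.rpow_natCast, ← Real.rpow_mul hYr0.le]
      norm_num
    have h3 : (Y : ℝ) ^ (3 / 16 : ℝ) ≤ (Y : ℝ) ^ (1 / 5 : ℝ) :=
      Real.rpow_le_rpow_of_exponent_le hYr1 (by norm_num)
    linarith
  have hUw : (U : ℝ) * w ^ 4 ≤ Real.sqrt Y := by
    have h1 : w ^ 4 = (Y : ℝ) ^ ϖ := by
      rw [hw, ← Real.rpow_natCast, ← Real.rpow_mul hYr0.le]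
      congr 1
      push_cast
      ring
    have h2 : (Y : ℝ) ^ (1 / 2 - ϖ) * (Y : ℝ) ^ ϖ = Real.sqrt Y := by
      rw [← Real.rpow_add hYr0, Real.sqrt_eq_rpow]
      congr 1
      ring
    rw [h1, ← h2]
    exact mul_le_mul_of_nonneg_right hUY (by positivity)
  have hwy : w ≤ Real.sqrt Y := by
    rw [Real.sqrt_eq_rpow]
    exact Real.rpow_le_rpow_of_exponent_le hYr1 (by linarith)
  set I : ℕ := ⌈2 * L⌉₊ with hI
  have hI1 : (I : ℝ) ≤ 3 * L := by
    have := Nat.ceil_lt_add_one (show 0 ≤ 2 * L by linarith)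
    rw [← hI] at this
    linarith
  have hI2 : Nat.sqrt Y + 1 ≤ 2 ^ I := by
    have h1 : Nat.sqrt Y + 1 ≤ Y := by
      have := Nat.sqrt_lt_self (show 1 < Y from lt_of_lt_of_le (by norm_num) hY16)
      omega
    have h2 : (Y : ℝ) ≤ (2 : ℝ) ^ I := by
      have h3 : (Y : ℝ) = Real.exp L := (Real.exp_log hYr0).symm
      have h4 : (2 : ℝ) ^ I = Real.exp (I * Real.log 2) := by
        rw [← Real.rpow_natCast, Real.rpow_def_of_pos (by norm_num)]
        congr 1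
        ring
      rw [h3, h4]
      apply Real.exp_le_exp.2
      have h5 := Real.log_two_gt_d9
      have h6 : 2 * L ≤ I := Nat.le_ceil _
      nlinarith
    have h3 : Y ≤ 2 ^ I := by exact_mod_cast h2
    omega
  have hIL : 2 * I * Real.sqrt (2 * C) ≤ L ^ 2 := by
    have h1 : 0 ≤ Real.sqrt (2 * C) := Real.sqrt_nonneg _
    nlinarith
  have hUs : (U : ℝ) ≤ Real.sqrt Y := by
    have h1 : (1 : ℝ) ≤ w ^ 4 := one_le_pow₀ hw1
    have h2 : (0 : ℝ) ≤ U := Nat.cast_nonneg _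
    nlinarith
  have hUr : (1 : ℝ) ≤ U := by exact_mod_cast hU
  have hlU : Real.log (2 * U) ≤ L := by
    apply Real.log_le_log (by linarith)
    have h1 : (2 : ℝ) ≤ Real.sqrt Y := by
      apply Real.le_sqrt_of_sq_le
      linarith
    have h2 : Real.sqrt Y * Real.sqrt Y = Y := Real.mul_self_sqrt hYr0.le
    nlinarith [Real.sqrt_nonneg (Y : ℝ)]
  have hlW : Real.log (Nat.sqrt Y) ≤ L := by
    have h1 : 0 < Nat.sqrt Y := Nat.sqrt_pos.2 hY1
    apply Real.log_le_log (by exact_mod_cast h1)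
    exact_mod_cast Nat.sqrt_le_self Y
  have hmain := total hC hT hTYB P hU hf hP hL1 hXY hY1 haL hbL ha0 ha1 hw1 hBw1 hBw2 hBV hwV hUw
    hwy hI2 hIL hlU hlW
  have e1 : ∀ u ∈ P, |∑ m ∈ Ioc 0 Y, ∑ k ∈ (Ioc (max E (X / m)) (Y / m)).filter
      (fun k => m * k ≡ c u [MOD f]), a m * b k * ps u (r u) (m * k)| =
      |∑ m ∈ Ioc 0 Y, a m * ∑ k ∈ Ioc (X / m) (Y / m),
        cut E b k * IPR.TT2.cw f (c u) u (r u) (m * k)| := fun u _ => by rw [step0]
  rw [Finset.sum_congr rfl e1]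
  refine hmain.trans ?_
  have e2 : L ^ 4 * (((Y : ℝ) - X) / (f * Real.sqrt U)) =
      ((Y : ℝ) - X) * L ^ 4 / (f * Real.sqrt U) := by ring
  have e3 : 39 * L ^ 4 * (Y / w) ≤ (Y : ℝ) ^ (1 - ϖ / 5) := by
    have h1 : (Y : ℝ) ^ (1 - ϖ / 5) = (Y : ℝ) ^ (ϖ / 20) * (Y / w) := by
      have h2 : (Y : ℝ) / w = (Y : ℝ) ^ (1 - ϖ / 4) := by
        rw [hw, Real.rpow_sub hYr0, Real.rpow_one]
      rw [h2, ← Real.rpow_add hYr0]
      congr 1
      ring
    rw [h1]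
    exact mul_le_mul_of_nonneg_right hL4 (by positivity)
  rw [e2]
  linarith

end

end MUR
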