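import Mathlib
import Pool.Agent.MUR.StC

set_option autoImplicit false

namespace MUR

open Finset
open Pool.Agent.Lib_helper83.EF (e)

noncomputable section

namespace VB

/-- A set of pairwise congruent numbers in an interval of length `L`. -/
lemma card_class (S : Finset ℕ) (a L z : ℕ) (hS : S ⊆ Ioc a (a + L))
    (hc : ∀ x ∈ S, ∀ x' ∈ S, x ≡ x' [MOD z]) : S.card ≤ L / z + 1 := by
  classical
  rcases S.eq_empty_or_nonempty with h | h
  · simp [h]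
  obtain ⟨x₀, hx₀, hmin⟩ := S.exists_min_image id h
  have h1 : S.card ≤ (range (L / z + 1)).card := by
    apply Finset.card_le_card_of_injOn (fun x => (x - x₀) / z)
    · intro x hx
      have hx1 := Finset.mem_Ioc.1 (hS hx)
      have hx2 := Finset.mem_Ioc.1 (hS hx₀)
      simp only [coe_range, Set.mem_Iio]
      have : (x - x₀) / z ≤ L / z := Nat.div_le_div_right (by omega)
      omega
    · intro x hx x' hx' hxx
      have hx1 : x₀ ≤ x := hmin x hx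
      have hx2 : x₀ ≤ x' := hmin x' hx'
      have h3 := (Nat.modEq_iff_dvd' hx1).1 (hc x₀ hx₀ x hx)
      have h4 := (Nat.modEq_iff_dvd' hx2).1 (hc x₀ hx₀ x' hx')
      simp only at hxx
      have h5 : x - x₀ = x' - x₀ := by
        rw [← Nat.div_mul_cancel h3, hxx, Nat.div_mul_cancel h4]
      omega
  simpa using h1

/-- Number of representations, weighted. -/
lemma rep (M y z X₁ W B : ℕ) (f : ℕ → ℝ) (hf : ∀ n, 0 ≤ f n) (hz : 1 ≤ z)
    (hcop : (M * y).Coprime z) (hB : ∀ n, f n ≠ 0 → n < B) :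
    ∑ x ∈ Ioc X₁ (2 * X₁), ∑ w ∈ Ioc 0 W, f (M * x * y + w * z) ≤
      ((X₁ / z + 1 : ℕ) : ℝ) * ∑ n ∈ range B, f n := by
  classical
  rw [← Finset.sum_product' (Ioc X₁ (2 * X₁)) (Ioc 0 W) (fun x w => f (M * x * y + w * z))]
  set A := (Ioc X₁ (2 * X₁)) ×ˢ (Ioc 0 W) with hA
  have h1 : ∑ p ∈ A, f (M * p.1 * y + p.2 * z) =
      ∑ p ∈ A.filter (fun p => M * p.1 * y + p.2 * z ∈ range B), f (M * p.1 * y + p.2 * z) := by
    symm
    apply Finset.sum_subset (Finset.filter_subset _ _)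
    intro p hp hp2
    by_contra h
    exact hp2 (Finset.mem_filter.2 ⟨hp, Finset.mem_range.2 (hB _ h)⟩)
  rw [h1, ← Finset.sum_fiberwise_of_maps_to (t := range B) (g := fun p : ℕ × ℕ => M * p.1 * y + p.2 * z)
    (fun p hp => (Finset.mem_filter.1 hp).2)]
  rw [Finset.mul_sum]
  apply Finset.sum_le_sum
  intro n _
  have h2 : ∀ p ∈ (A.filter (fun p => M * p.1 * y + p.2 * z ∈ range B)).filter
      (fun p => M * p.1 * y + p.2 * z = n), f (M * p.1 * y + p.2 * z) = f n := by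
    intro p hp
    rw [(Finset.mem_filter.1 hp).2]
  rw [Finset.sum_congr rfl h2, Finset.sum_const, nsmul_eq_mul]
  apply mul_le_mul_of_nonneg_right _ (hf n)
  norm_cast
  set F := (A.filter (fun p => M * p.1 * y + p.2 * z ∈ range B)).filter
      (fun p => M * p.1 * y + p.2 * z = n) with hF
  have h3 : F.card = (F.image Prod.fst).card := by
    symm
    apply Finset.card_image_of_injOn
    intro p hp p' hp' hpp
    have e1 := (Finset.mem_filter.1 hp).2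
    have e2 := (Finset.mem_filter.1 hp').2
    have hpp : p.1 = p'.1 := hpp
    rw [← e2, hpp] at e1
    have e3 : p.2 * z = p'.2 * z := by omega
    have e4 := Nat.eq_of_mul_eq_mul_right (by omega) e3
    exact Prod.ext hpp e4
  rw [h3]
  apply card_class _ X₁ X₁ z
  · intro x hx
    obtain ⟨p, hp, rfl⟩ := Finset.mem_image.1 hx
    have hp1 := (Finset.mem_filter.1 (Finset.mem_filter.1 hp).1).1
    have hp2 := (Finset.mem_product.1 hp1).1
    have hp3 := Finset.mem_Ioc.1 hp2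
    exact Finset.mem_Ioc.2 ⟨hp3.1, by omega⟩
  · intro x hx x' hx'
    obtain ⟨p, hp, rfl⟩ := Finset.mem_image.1 hx
    obtain ⟨p', hp', rfl⟩ := Finset.mem_image.1 hx'
    have e1 := (Finset.mem_filter.1 hp).2
    have e2 := (Finset.mem_filter.1 hp').2
    have e3 : (M * y) * p.1 ≡ (M * y) * p'.1 [MOD z] := by
      have e4 : M * y * p.1 + p.2 * z = M * y * p'.1 + p'.2 * z := by
        rw [show M * y * p.1 + p.2 * z = M * p.1 * y + p.2 * z by ring,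
          show M * y * p'.1 + p'.2 * z = M * p'.1 * y + p'.2 * z by ring, e1, e2]
      have e5 : M * y * p.1 + p.2 * z ≡ M * y * p.1 [MOD z] := by
        simp [Nat.ModEq]
      have e6 : M * y * p'.1 + p'.2 * z ≡ M * y * p'.1 [MOD z] := by
        simp [Nat.ModEq]
      rw [e4] at e5
      exact e5.symm.trans e6
    exact Nat.ModEq.cancel_left_of_coprime (by rw [Nat.gcd_comm]; exact hcop) e3

/-- Blocks tile an initial interval. -/
lemma tile (f : ℕ → ℝ) (H k : ℕ) :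
    ∑ i ∈ range k, ∑ n ∈ Ico (i * H) (i * H + H), f n = ∑ n ∈ range (k * H), f n := by
  induction k with
  | zero => simp
  | succ k ih =>
    rw [Finset.sum_range_succ, ih, Finset.range_eq_Ico, Finset.range_eq_Ico,
      Finset.sum_Ico_consecutive f (Nat.zero_le _) (by omega)]
    congr 2
    ring

/-- The off-diagonal sum of one tuple. -/
def ps2 {J : ℕ} (M X₁ W : ℕ) (φ : ℕ → ℂ) (I : Finset (Fin J)) (t : Fin J → ℕ × ℕ) : ℂ :=
  ∑ x ∈ Ioc X₁ (2 * X₁), ∑ w ∈ Ioc 0 W, φ (M * x * yy t + w * zz t) *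
      (starRingEnd ℂ) (φ (M * x * yy (sw I t) + w * zz (sw I t)))

/-- The energy on a block at the fractions with denominator `q`. -/
def Fq (φ : ℕ → ℂ) (H i q : ℕ) : ℝ := ∑ a ∈ cop q, ‖ft φ H i ((a : ℝ) / q)‖ ^ 2

lemma Fq_nonneg (φ : ℕ → ℂ) (H i q : ℕ) : 0 ≤ Fq φ H i q :=
  Finset.sum_nonneg fun _ _ => sq_nonneg _

lemma triv {J : ℕ} (M X₁ W : ℕ) (φ : ℕ → ℂ) (I : Finset (Fin J)) (t : Fin J → ℕ × ℕ) (R : ℝ)
    (h1 : ∑ x ∈ Ioc X₁ (2 * X₁), ∑ w ∈ Ioc 0 W, ‖φ (M * x * yy t + w * zz t)‖ ^ 2 ≤ R)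
    (h2 : ∑ x ∈ Ioc X₁ (2 * X₁), ∑ w ∈ Ioc 0 W,
      ‖φ (M * x * yy (sw I t) + w * zz (sw I t))‖ ^ 2 ≤ R) :
    ‖ps2 M X₁ W φ I t‖ ≤ R := by
  have h3 : ‖ps2 M X₁ W φ I t‖ ≤ ∑ x ∈ Ioc X₁ (2 * X₁), ∑ w ∈ Ioc 0 W,
      (‖φ (M * x * yy t + w * zz t)‖ ^ 2 / 2 +
        ‖φ (M * x * yy (sw I t) + w * zz (sw I t))‖ ^ 2 / 2) := by
    refine (norm_sum_le _ _).trans (Finset.sum_le_sum fun x _ => ?_)
    refine (norm_sum_le _ _).trans (Finset.sum_le_sum fun w _ => ?_)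
    rw [norm_mul, RCLike.norm_conj]
    nlinarith [sq_nonneg (‖φ (M * x * yy t + w * zz t)‖ -
      ‖φ (M * x * yy (sw I t) + w * zz (sw I t))‖)]
  have h4 : ∑ x ∈ Ioc X₁ (2 * X₁), ∑ w ∈ Ioc 0 W,
      (‖φ (M * x * yy t + w * zz t)‖ ^ 2 / 2 +
        ‖φ (M * x * yy (sw I t) + w * zz (sw I t))‖ ^ 2 / 2) =
      (∑ x ∈ Ioc X₁ (2 * X₁), ∑ w ∈ Ioc 0 W, ‖φ (M * x * yy t + w * zz t)‖ ^ 2) / 2 +
      (∑ x ∈ Ioc X₁ (2 * X₁), ∑ w ∈ Ioc 0 W,
        ‖φ (M * x * yy (sw I t) + w * zz (sw I t))‖ ^ 2) / 2 := by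
    simp only [Finset.sum_add_distrib, Finset.sum_div]
  rw [h4] at h3
  linarith

/-- The sum over the tuples, after interchanging with the moduli. -/
lemma interchange {ι : Type*} [DecidableEq ι] (T : Finset ι) (D : ι → ℕ) (G k : ℕ)
    (F : ℕ → ℕ → ℝ) (hF : ∀ i q, 0 ≤ F i q) (hD : ∀ t ∈ T, 1 ≤ D t ∧ D t ≤ G)
    (cnt : ℕ → ℝ) (hc : ∀ q, ((T.filter (fun t => q ∣ D t)).card : ℝ) ≤ cnt q) :
    ∑ t ∈ T, ∑ i ∈ range k, ∑ q ∈ (D t).divisors, F i q ≤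
      ∑ i ∈ range k, ∑ q ∈ Icc 1 G, F i q * cnt q := by
  rw [Finset.sum_comm]
  apply Finset.sum_le_sum
  intro i _
  have h1 : ∀ t ∈ T, ∑ q ∈ (D t).divisors, F i q =
      ∑ q ∈ Icc 1 G, if q ∣ D t then F i q else 0 := by
    intro t ht
    obtain ⟨h1, h2⟩ := hD t ht
    rw [← Finset.sum_filter]
    apply Finset.sum_congr _ (fun _ _ => rfl)
    ext q
    simp only [Nat.mem_divisors, Finset.mem_filter, Finset.mem_Icc]
    constructor
    · rintro ⟨h3, _⟩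
      exact ⟨⟨Nat.pos_of_dvd_of_pos h3 h1, (Nat.le_of_dvd h1 h3).trans h2⟩, h3⟩
    · rintro ⟨_, h3⟩
      exact ⟨h3, by omega⟩
  rw [Finset.sum_congr rfl h1, Finset.sum_comm]
  apply Finset.sum_le_sum
  intro q _
  rw [← Finset.sum_filter, Finset.sum_const, nsmul_eq_mul, mul_comm]
  exact mul_le_mul_of_nonneg_left (hc q) (hF i q)

lemma base (Q J M G H X₁ : ℕ) (hJ : 2 ≤ J) (hQ : 16 ≤ Q) (hM : 1 ≤ M)
    (hG : 8 * M * Q ^ (2 * J) ≤ G) (hGH : G ^ 2 ≤ H) (hHX : H ≤ 2 * X₁) :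
    Q ^ J ≤ X₁ ∧ Q ^ 2 ≤ Q ^ J := by
  have h0 : Q ^ 2 ≤ Q ^ J := Nat.pow_le_pow_right (by omega) hJ
  refine ⟨?_, h0⟩
  have h1 : Q ^ (2 * J) = Q ^ J * Q ^ J := by rw [two_mul, pow_add]
  have h2 : 1 ≤ Q ^ J := Nat.one_le_pow _ _ (by omega)
  have h3 : 8 * Q ^ J ≤ G := by
    calc 8 * Q ^ J ≤ 8 * M * Q ^ (2 * J) := by
          rw [h1]
          nlinarith [Nat.mul_le_mul hM h2]
      _ ≤ G := hG
  have h4 : G ≤ G ^ 2 := by
    have : 1 ≤ G := by omega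
    nlinarith
  omega

lemma bracket1 (Δ X₁ m H q : ℝ) (hq : 0 < q) (hm : q ≤ m) (hH : 0 < H) (hΔ : 0 ≤ Δ) (hX : 0 ≤ X₁)
    (h : q * H ≤ Δ * X₁) : Δ * X₁ / (m * H) + 1 ≤ 2 * X₁ / (q * H) * Δ := by
  have h1 : Δ * X₁ / (m * H) ≤ Δ * X₁ / (q * H) := by
    apply div_le_div_of_nonneg_left (by positivity) (by positivity)
    exact mul_le_mul_of_nonneg_right hm hH.le
  have h2 : 1 ≤ Δ * X₁ / (q * H) := by
    rw [le_div_iff₀ (by positivity)]
    linarith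
  have h3 : 2 * X₁ / (q * H) * Δ = 2 * (Δ * X₁ / (q * H)) := by ring
  rw [h3]
  linarith

lemma bracket2 (Δ X₁ H q Q s : ℝ) (hq : 0 < q) (hQ : 0 < Q) (hs : 0 < s) (hΔ : 0 < Δ)
    (hHX : H ≤ 2 * X₁) (hΔH : Δ ≤ H) (h1 : q ^ 2 / s ≤ Δ) (h2 : 2 * s * Q ≤ q) :
    10 * (H / Δ + 1) ≤ 20 * (X₁ / q) / Q := by
  have h3 : 1 ≤ H / Δ := by
    rw [le_div_iff₀ hΔ]
    linarith
  have h5 : H / Δ ≤ X₁ / (q * Q) := by
    rw [div_le_div_iff₀ hΔ (by positivity)]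
    have h6 : q ^ 2 ≤ Δ * s := by
      rwa [div_le_iff₀ hs] at h1
    have h7 : 0 ≤ H := hΔ.le.trans hΔH
    have hX : 0 ≤ X₁ := by linarith
    have h8 : q * (2 * s * Q) ≤ q * q := mul_le_mul_of_nonneg_left h2 hq.le
    have h9 : 2 * q * Q * s ≤ Δ * s := by nlinarith
    have h10 : 2 * q * Q ≤ Δ := by
      exact le_of_mul_le_mul_right h9 hs
    nlinarith [mul_le_mul_of_nonneg_left hHX (mul_pos hq hQ).le, mul_le_mul_of_nonneg_left h10 hX]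
  have h4 : 20 * (X₁ / q) / Q = 20 * (X₁ / (q * Q)) := by
    field_simp
  rw [h4]
  linarith

lemma pair_t (hEFT : S_EFT) (hPAIR : S_PAIR) (Q J M X₁ H W B G : ℕ) (φ : ℕ → ℂ)
    (I : Finset (Fin J)) (t : Fin J → ℕ × ℕ) (hJ : 2 ≤ J) (hQ : 16 ≤ Q) (hM : 1 ≤ M) (hH : 1 ≤ H)
    (hG : 8 * M * Q ^ (2 * J) ≤ G) (hGH : G ^ 2 ≤ H) (hHX : H ≤ 2 * X₁)
    (hsupp : ∀ n, φ n ≠ 0 → n < B ∧ 6 * M * X₁ * Q ^ J < n ∧ n ≤ W * Q ^ J)
    (h1 : Q ^ J ≤ yy t ∧ yy t ≤ 3 * Q ^ J ∧ Q ^ J ≤ zz t ∧ zz t ≤ 3 * Q ^ J ∧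
      (M * yy t).Coprime (zz t))
    (h2 : Q ^ J ≤ yy (sw I t) ∧ yy (sw I t) ≤ 3 * Q ^ J ∧ Q ^ J ≤ zz (sw I t) ∧
      zz (sw I t) ≤ 3 * Q ^ J ∧ (M * yy (sw I t)).Coprime (zz (sw I t)))
    (h3 : ((Dl M I t).natAbs : ℝ) ≤ 8 * M * (Q : ℝ) ^ (2 * J))
    (h4 : ¬ ((Dl M I t).natAbs : ℝ) < M * (Q : ℝ) ^ (2 * J) / Real.sqrt Q) :
    ‖ps2 M X₁ W φ I t‖ ≤ (2 * X₁ / ((Q : ℝ) ^ J * H)) * ∑ i ∈ range (B / H + 1),
      ∑ q ∈ (Dl M I t).natAbs.divisors, Fq φ H i q +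
      20 * (X₁ / (Q : ℝ) ^ J) / Q * ∑ n ∈ range B, ‖φ n‖ ^ 2 := by
  obtain ⟨hqX, hq2⟩ := base Q J M G H X₁ hJ hQ hM hG hGH hHX
  have hq1 : 1 ≤ Q ^ J := Nat.one_le_pow _ _ (by omega)
  set Δ := (Dl M I t).natAbs with hΔdef
  push Not at h4
  have hQR : (16 : ℝ) ≤ Q := by exact_mod_cast hQ
  have hs1 : 4 ≤ Real.sqrt Q := by
    apply Real.le_sqrt_of_sq_le
    linarith
  have hs2 : Real.sqrt Q * Real.sqrt Q = Q := Real.mul_self_sqrt (by positivity)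
  have hMR : (1 : ℝ) ≤ M := by exact_mod_cast hM
  have hq2R : (Q : ℝ) ^ 2 ≤ (Q : ℝ) ^ J := by exact_mod_cast hq2
  have hqpos : (0 : ℝ) < (Q : ℝ) ^ J := by positivity
  have hqq : (Q : ℝ) ^ (2 * J) = ((Q : ℝ) ^ J) ^ 2 := by rw [mul_comm, pow_mul]
  have h4' : ((Q : ℝ) ^ J) ^ 2 / Real.sqrt Q ≤ Δ := by
    refine le_trans ?_ h4
    rw [hqq]
    apply div_le_div_of_nonneg_right _ (by positivity)
    nlinarith [sq_nonneg ((Q : ℝ) ^ J)]
  have hΔpos : (0 : ℝ) < Δ := lt_of_lt_of_le (by positivity) h4'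
  have hΔ1 : 1 ≤ Δ := by exact_mod_cast hΔpos
  have hne : yy t * zz (sw I t) ≠ yy (sw I t) * zz t := by
    intro h
    have : Dl M I t = 0 := by
      unfold Dl
      rw [show (yy t : ℤ) * zz (sw I t) = yy (sw I t) * zz t by exact_mod_cast h]
      ring
    rw [hΔdef, this] at hΔ1
    simp at hΔ1
  have hP := hPAIR M (yy t) (zz t) (yy (sw I t)) (zz (sw I t)) X₁ H B W φ hM (by omega) (by omega)
    (by omega) (by omega) hH h1.2.2.2.2 h2.2.2.2.2 (by omega) (by omega) hne (by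
      intro n hn
      obtain ⟨a1, a2, a3⟩ := hsupp n hn
      refine ⟨a1, lt_of_le_of_lt ?_ a2, lt_of_le_of_lt ?_ a2, a3.trans ?_, a3.trans ?_⟩
      · calc 2 * M * X₁ * yy t ≤ 2 * M * X₁ * (3 * Q ^ J) := Nat.mul_le_mul_left _ h1.2.1
          _ = 6 * M * X₁ * Q ^ J := by ring
      · calc 2 * M * X₁ * yy (sw I t) ≤ 2 * M * X₁ * (3 * Q ^ J) := Nat.mul_le_mul_left _ h2.2.1
          _ = 6 * M * X₁ * Q ^ J := by ring
      · exact Nat.mul_le_mul_left _ h1.2.2.1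
      · exact Nat.mul_le_mul_left _ h2.2.2.1)
  have hDl : ((M : ℤ) * ((yy t : ℤ) * zz (sw I t)) - (M : ℤ) * ((yy (sw I t) : ℤ) * zz t)).natAbs =
      Δ := rfl
  rw [hDl] at hP
  have hHpos : (0 : ℝ) < H := by exact_mod_cast hH
  have hHXR : (H : ℝ) ≤ 2 * X₁ := by exact_mod_cast hHX
  have hXpos : (0 : ℝ) < X₁ := by linarith
  have hsQ : 2 * Real.sqrt Q * Q ≤ (Q : ℝ) ^ J := by
    nlinarith
  have hb1 : (Δ : ℝ) * X₁ / ((min (zz t) (zz (sw I t)) : ℕ) * H) + 1 ≤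
      2 * X₁ / ((Q : ℝ) ^ J * H) * Δ := by
    apply bracket1 _ _ _ _ _ hqpos _ hHpos hΔpos.le hXpos.le
    · have h5 : 2 * (Q : ℝ) ^ J ≤ Δ := by
        refine le_trans ?_ h4'
        rw [le_div_iff₀ (by positivity)]
        nlinarith
      nlinarith [mul_le_mul_of_nonneg_left hHXR hqpos.le, mul_le_mul_of_nonneg_right h5 hXpos.le]
    · have : Q ^ J ≤ min (zz t) (zz (sw I t)) := le_min h1.2.2.1 h2.2.2.1
      exact_mod_cast this
  have hΔG : (Δ : ℝ) ≤ G := by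
    refine h3.trans ?_
    exact_mod_cast hG
  have hΔH : (Δ : ℝ) ≤ H := by
    have hG1 : 1 ≤ G := by
      have : (0 : ℝ) < G := lt_of_lt_of_le hΔpos hΔG
      exact_mod_cast this
    have : G ≤ H := by nlinarith
    exact hΔG.trans (by exact_mod_cast this)
  have hb2 := bracket2 Δ X₁ H ((Q : ℝ) ^ J) Q (Real.sqrt Q) hqpos (by positivity) (by positivity)
    hΔpos hHXR hΔH h4' hsQ
  have hE : ∀ i, (Δ : ℝ) * En φ H Δ i = ∑ q ∈ Δ.divisors, Fq φ H i q := fun i =>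
    hEFT φ H Δ i hΔ1
  refine hP.trans ?_
  have hEn : 0 ≤ ∑ i ∈ range (B / H + 1), En φ H Δ i :=
    Finset.sum_nonneg fun i _ => Finset.sum_nonneg fun _ _ => sq_nonneg _
  have hN : 0 ≤ ∑ n ∈ range B, ‖φ n‖ ^ 2 := Finset.sum_nonneg fun _ _ => sq_nonneg _
  refine add_le_add ?_ (mul_le_mul_of_nonneg_right hb2 hN)
  refine (mul_le_mul_of_nonneg_right hb1 hEn).trans (le_of_eq ?_)
  rw [mul_assoc, Finset.mul_sum]
  congr 1
  exact Finset.sum_congr rfl fun i _ => hE i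

lemma inner_sum (hLSB : S_LSB) (G H B : ℕ) (φ : ℕ → ℂ) (π τ T : ℝ) (act : Finset ℕ)
    (cnt : ℕ → ℝ) (hH : 1 ≤ H) (hπ : 0 ≤ π) (hτ : 0 ≤ τ) (hT : 0 ≤ T) (hGH : G ^ 2 ≤ H)
    (hB : ∀ n, φ n ≠ 0 → n < B) (hc1 : ∀ q ∈ act, cnt q = π * T) (hc2 : ∀ q, q ∉ act → cnt q = T)
    (hinact : ∀ q ∈ Icc 1 G, q ∉ act → ∀ a ∈ cop q, ∀ i, ‖ft φ H i ((a : ℝ) / q)‖ ^ 2 ≤ τ) :
    ∑ i ∈ range (B / H + 1), ∑ q ∈ Icc 1 G, Fq φ H i q * cnt q ≤
      π * T * (6 * H * ∑ n ∈ range B, ‖φ n‖ ^ 2) + ((B : ℝ) / H + 1) * ((G : ℝ) ^ 2 * (τ * T)) := by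
  classical
  have hHpos : (0 : ℝ) < H := by exact_mod_cast hH
  have h1 : ∀ i ∈ range (B / H + 1), ∑ q ∈ Icc 1 G, Fq φ H i q * cnt q ≤
      π * T * (6 * H * ∑ n ∈ Ico (i * H) (i * H + H), ‖φ n‖ ^ 2) + (G : ℝ) ^ 2 * (τ * T) := by
    intro i _
    have h2 : ∀ q ∈ Icc 1 G, Fq φ H i q * cnt q ≤ π * T * Fq φ H i q + G * (τ * T) := by
      intro q hq
      have hF := Fq_nonneg φ H i q
      by_cases hqa : q ∈ act
      · rw [hc1 q hqa]
        have : 0 ≤ (G : ℝ) * (τ * T) := by positivity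
        linarith [mul_comm (Fq φ H i q) (π * T)]
      · rw [hc2 q hqa]
        have h3 : Fq φ H i q ≤ G * τ := by
          unfold Fq
          refine (Finset.sum_le_card_nsmul _ _ τ fun a ha => hinact q hq hqa a ha i).trans ?_
          rw [nsmul_eq_mul]
          apply mul_le_mul_of_nonneg_right _ hτ
          have : (cop q).card ≤ q := (Finset.card_filter_le _ _).trans (by simp)
          exact_mod_cast this.trans (Finset.mem_Icc.1 hq).2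
        have h4 : 0 ≤ π * T * Fq φ H i q := by positivity
        nlinarith [mul_le_mul_of_nonneg_right h3 hT]
    refine (Finset.sum_le_sum h2).trans ?_
    rw [Finset.sum_add_distrib, ← Finset.mul_sum, Finset.sum_const, nsmul_eq_mul, Nat.card_Icc]
    have h5 := hLSB φ G H i hGH
    have h6 : ∑ q ∈ Icc 1 G, Fq φ H i q ≤ 6 * H * ∑ n ∈ Ico (i * H) (i * H + H), ‖φ n‖ ^ 2 := h5
    have h7 : π * T * ∑ q ∈ Icc 1 G, Fq φ H i q ≤
        π * T * (6 * H * ∑ n ∈ Ico (i * H) (i * H + H), ‖φ n‖ ^ 2) :=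
      mul_le_mul_of_nonneg_left h6 (mul_nonneg hπ hT)
    have h8 : ((G + 1 - 1 : ℕ) : ℝ) * (G * (τ * T)) = (G : ℝ) ^ 2 * (τ * T) := by
      rw [Nat.add_sub_cancel]
      ring
    linarith
  refine (Finset.sum_le_sum h1).trans ?_
  rw [Finset.sum_add_distrib, ← Finset.mul_sum, ← Finset.mul_sum, tile, Finset.sum_const,
    nsmul_eq_mul, card_range]
  have h9 : ∑ n ∈ range ((B / H + 1) * H), ‖φ n‖ ^ 2 = ∑ n ∈ range B, ‖φ n‖ ^ 2 := by
    symm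
    apply Finset.sum_subset
    · intro n hn
      have hn1 := Finset.mem_range.1 hn
      rw [Finset.mem_range]
      have := Nat.lt_div_mul_add (a := B) (b := H) (by omega)
      nlinarith
    · intro n _ hn
      have : φ n = 0 := by
        by_contra h
        exact hn (Finset.mem_range.2 (hB n h))
      rw [this]
      simp
  rw [h9]
  have h10 : ((B / H + 1 : ℕ) : ℝ) ≤ (B : ℝ) / H + 1 := by
    push_cast
    linarith [@Nat.cast_div_le ℝ _ _ _ B H]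
  have h11 : 0 ≤ (G : ℝ) ^ 2 * (τ * T) := by positivity
  linarith [mul_le_mul_of_nonneg_right h10 h11]

lemma off (hTB : S_TB) (hSWA : S_SWA) (hDEG : S_DEG) (hEFT : S_EFT) (hLSB : S_LSB)
    (hPAIR : S_PAIR) (C : ℝ) (Q J M X₁ H W B G : ℕ) (P : Finset ℕ) (φ : ℕ → ℂ) (π τ : ℝ)
    (act : Finset ℕ) (hgood : GoodP C Q J P) (hJ : 2 ≤ J) (hQ : 16 ≤ Q) (hM : 1 ≤ M)
    (hMp : ∀ p ∈ M.primeFactors, p ≤ Q) (hH : 1 ≤ H) (hπ : 0 ≤ π) (hτ : 0 ≤ τ)
    (hG : 8 * M * Q ^ (2 * J) ≤ G) (hGH : G ^ 2 ≤ H) (hHX : H ≤ 2 * X₁)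
    (hsupp : ∀ n, φ n ≠ 0 → n < B ∧ 6 * M * X₁ * Q ^ J < n ∧ n ≤ W * Q ^ J)
    (hact : ∀ I : Finset (Fin J), I.Nonempty → ∀ q ∈ act,
      (((TT P J).filter (fun t => (q : ℤ) ∣ Dl M I t)).card : ℝ) ≤ π * (P.card : ℝ) ^ (2 * J))
    (hinact : ∀ q ∈ Icc 1 G, q ∉ act → ∀ a ∈ cop q, ∀ i, ‖ft φ H i ((a : ℝ) / q)‖ ^ 2 ≤ τ)
    (I : Finset (Fin J)) (hI : I.Nonempty)
    (hrep : ∀ t ∈ TT P J, ∑ x ∈ Ioc X₁ (2 * X₁), ∑ w ∈ Ioc 0 W,
      ‖φ (M * x * yy t + w * zz t)‖ ^ 2 ≤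
        2 * (X₁ / (Q : ℝ) ^ J) * ∑ n ∈ range B, ‖φ n‖ ^ 2) :
    ‖∑ t ∈ TT P J, ps2 M X₁ W φ I t‖ ≤ (P.card : ℝ) ^ (2 * J) * (X₁ / (Q : ℝ) ^ J) *
      ((12 * π + 4 * Real.sqrt Q / P.card + 20 / Q) * ∑ n ∈ range B, ‖φ n‖ ^ 2 +
        2 * ((B : ℝ) / H + 1) * (G : ℝ) ^ 2 * τ / H) := by
  classical
  obtain ⟨hTt, hTc, hTl⟩ := hTB C Q J M P hgood (by omega) hM hMp
  have hsw := (hSWA J P).2.2.2.1
  have hdeg := hDEG C Q J M P I hgood hI (by omega) hM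
  set N₂ := ∑ n ∈ range B, ‖φ n‖ ^ 2 with hN₂
  set T := (P.card : ℝ) ^ (2 * J) with hTdef
  set K := (X₁ : ℝ) / (Q : ℝ) ^ J with hK
  have hN : 0 ≤ N₂ := Finset.sum_nonneg fun _ _ => sq_nonneg _
  have hT0 : 0 ≤ T := by positivity
  have hK0 : 0 ≤ K := by positivity
  have hQpos : (0 : ℝ) < Q := by
    have : 0 < Q := by omega
    exact_mod_cast this
  have hHpos : (0 : ℝ) < H := by exact_mod_cast hH
  refine (norm_sum_le _ _).trans ?_
  rw [← Finset.sum_filter_add_sum_filter_not (TT P J)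
    (fun t => ((Dl M I t).natAbs : ℝ) < M * (Q : ℝ) ^ (2 * J) / Real.sqrt Q)]
  set dg := (TT P J).filter
    (fun t => ((Dl M I t).natAbs : ℝ) < M * (Q : ℝ) ^ (2 * J) / Real.sqrt Q) with hdg
  set nd := (TT P J).filter
    (fun t => ¬ ((Dl M I t).natAbs : ℝ) < M * (Q : ℝ) ^ (2 * J) / Real.sqrt Q) with hnd
  have hA : ∑ t ∈ dg, ‖ps2 M X₁ W φ I t‖ ≤ T * K * ((4 * Real.sqrt Q / P.card) * N₂) := by
    have h1 : ∑ t ∈ dg, ‖ps2 M X₁ W φ I t‖ ≤ dg.card • (2 * K * N₂) := by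
      apply Finset.sum_le_card_nsmul
      intro t ht
      have ht1 := (Finset.mem_filter.1 ht).1
      exact triv M X₁ W φ I t _ (hrep t ht1) (hrep _ (hsw I t ht1))
    refine h1.trans ?_
    rw [nsmul_eq_mul]
    refine (mul_le_mul_of_nonneg_right hdeg (by positivity)).trans (le_of_eq ?_)
    ring
  have hB' : ∑ t ∈ nd, ‖ps2 M X₁ W φ I t‖ ≤ T * K * ((12 * π + 20 / Q) * N₂ +
      2 * ((B : ℝ) / H + 1) * (G : ℝ) ^ 2 * τ / H) := by
    have h1 : ∑ t ∈ nd, ‖ps2 M X₁ W φ I t‖ ≤ ∑ t ∈ nd, ((2 * X₁ / ((Q : ℝ) ^ J * H)) *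
        ∑ i ∈ range (B / H + 1), ∑ q ∈ (Dl M I t).natAbs.divisors, Fq φ H i q +
        20 * K / Q * N₂) := by
      apply Finset.sum_le_sum
      intro t ht
      obtain ⟨ht1, ht2⟩ := Finset.mem_filter.1 ht
      obtain ⟨a1, a2, a3, a4, a5, _, _, _, a6, _⟩ := hTt t ht1
      obtain ⟨b1, b2, b3, b4, b5, _, _, _, _, _⟩ := hTt _ (hsw I t ht1)
      exact pair_t hEFT hPAIR Q J M X₁ H W B G φ I t hJ hQ hM hH hG hGH hHX hsupp
        ⟨a1, a2, a3, a4, a5⟩ ⟨b1, b2, b3, b4, b5⟩ (a6 I) ht2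
    refine h1.trans ?_
    rw [Finset.sum_add_distrib, ← Finset.mul_sum, Finset.sum_const, nsmul_eq_mul]
    have hndc : (nd.card : ℝ) ≤ T := by
      refine le_trans ?_ hTl
      exact_mod_cast Finset.card_filter_le _ _
    have h2 : ∑ t ∈ nd, ∑ i ∈ range (B / H + 1), ∑ q ∈ (Dl M I t).natAbs.divisors, Fq φ H i q ≤
        ∑ i ∈ range (B / H + 1), ∑ q ∈ Icc 1 G, Fq φ H i q *
          (if q ∈ act then π * T else T) := by
      apply interchange nd (fun t => (Dl M I t).natAbs) G (B / H + 1) (Fq φ H)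
        (fun i q => Fq_nonneg φ H i q)
      · intro t ht
        obtain ⟨ht1, ht2⟩ := Finset.mem_filter.1 ht
        obtain ⟨_, _, _, _, _, _, _, _, a6, _⟩ := hTt t ht1
        push Not at ht2
        constructor
        · have hMR : (1 : ℝ) ≤ M := by exact_mod_cast hM
          have : (0 : ℝ) < (Dl M I t).natAbs := lt_of_lt_of_le (by positivity) ht2
          exact_mod_cast this
        · have : ((Dl M I t).natAbs : ℝ) ≤ G := (a6 I).trans (by exact_mod_cast hG)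
          exact_mod_cast this
      · intro q
        have h3 : ((nd.filter (fun t => q ∣ (Dl M I t).natAbs)).card : ℝ) ≤
            (((TT P J).filter (fun t => (q : ℤ) ∣ Dl M I t)).card : ℝ) := by
          norm_cast
          apply Finset.card_le_card
          intro t ht
          obtain ⟨ht1, ht2⟩ := Finset.mem_filter.1 ht
          exact Finset.mem_filter.2 ⟨(Finset.mem_filter.1 ht1).1, Int.natCast_dvd.2 ht2⟩
        refine h3.trans ?_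
        split_ifs with hq
        · exact hact I hI q hq
        · refine le_trans ?_ hTl
          exact_mod_cast Finset.card_filter_le _ _
    have h4 := inner_sum hLSB G H B φ π τ T act (fun q => if q ∈ act then π * T else T) hH hπ hτ hT0
      hGH (fun n hn => (hsupp n hn).1) (fun q hq => by simp [hq]) (fun q hq => by simp [hq]) hinact
    have h5 := h2.trans h4
    have h6 : 0 ≤ 2 * (X₁ : ℝ) / ((Q : ℝ) ^ J * H) := by positivity
    have h7 := mul_le_mul_of_nonneg_left h5 h6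
    have h8 : 0 ≤ 20 * K / Q * N₂ := by positivity
    have h9 := mul_le_mul_of_nonneg_right hndc h8
    refine (add_le_add h7 h9).trans (le_of_eq ?_)
    rw [hK]
    field_simp
    ring
  refine (add_le_add hA hB').trans (le_of_eq ?_)
  ring

end VB

open VB in
theorem t_VB : M_VB := by
  intro hSWA hTB hDEG hVSY hEFT hLSB hPAIR
  intro C Q J M X₁ H W B G P φ π τ act hgood hJ hQ hM hMp hH hπ hτ hG hGH hHX hXH hsupp hact hinact
  classical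
  obtain ⟨hTt, hTc, hTl⟩ := hTB C Q J M P hgood (by omega) hM hMp
  obtain ⟨hqX, hq2⟩ := base Q J M G H X₁ hJ hQ hM hG hGH hHX
  have hq1 : 1 ≤ Q ^ J := Nat.one_le_pow _ _ (by omega)
  have hrep : ∀ t ∈ TT P J, ∑ x ∈ Ioc X₁ (2 * X₁), ∑ w ∈ Ioc 0 W,
      ‖φ (M * x * yy t + w * zz t)‖ ^ 2 ≤
        2 * (X₁ / (Q : ℝ) ^ J) * ∑ n ∈ range B, ‖φ n‖ ^ 2 := by
    intro t ht
    obtain ⟨a1, a2, a3, a4, a5, _⟩ := hTt t ht
    have h1 := rep M (yy t) (zz t) X₁ W B (fun n => ‖φ n‖ ^ 2) (fun n => sq_nonneg _) (by omega) a5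
      (by
        intro n hn
        apply (hsupp n _).1
        intro h
        apply hn
        simp [h])
    refine h1.trans (mul_le_mul_of_nonneg_right ?_ (Finset.sum_nonneg fun _ _ => sq_nonneg _))
    have hqR : (0 : ℝ) < (Q : ℝ) ^ J := by
      have : (1 : ℝ) ≤ (Q : ℝ) ^ J := by exact_mod_cast hq1
      linarith
    have h2 : ((X₁ / zz t : ℕ) : ℝ) ≤ X₁ / (Q : ℝ) ^ J := by
      have h3 : X₁ / zz t ≤ X₁ / Q ^ J := Nat.div_le_div_left a3 (by omega)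
      have h4 : ((X₁ / Q ^ J : ℕ) : ℝ) ≤ (X₁ : ℝ) / ((Q ^ J : ℕ) : ℝ) := Nat.cast_div_le
      have h5 : ((X₁ / zz t : ℕ) : ℝ) ≤ ((X₁ / Q ^ J : ℕ) : ℝ) := by exact_mod_cast h3
      push_cast at h4
      linarith
    have h3 : 1 ≤ (X₁ : ℝ) / (Q : ℝ) ^ J := by
      rw [le_div_iff₀ hqR, one_mul]
      exact_mod_cast hqX
    push_cast
    linarith
  set N₂ := ∑ n ∈ range B, ‖φ n‖ ^ 2 with hN₂
  set T := (P.card : ℝ) ^ (2 * J) with hTdef
  set K := (X₁ : ℝ) / (Q : ℝ) ^ J with hK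
  have hN : 0 ≤ N₂ := Finset.sum_nonneg fun _ _ => sq_nonneg _
  have hT0 : 0 ≤ T := by positivity
  have hK0 : 0 ≤ K := by positivity
  set R := (12 * π + 4 * Real.sqrt Q / P.card + 20 / Q) * N₂ +
        2 * ((B : ℝ) / H + 1) * (G : ℝ) ^ 2 * τ / H with hR
  have hR0 : 0 ≤ R := by positivity
  have hV := hVSY M J X₁ W P φ
  have hV2 : VV M J P X₁ W φ = ‖(VV M J P X₁ W φ : ℂ)‖ := by
    rw [Complex.norm_real, Real.norm_of_nonneg]
    unfold VV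
    exact Finset.sum_nonneg fun _ _ => Finset.sum_nonneg fun _ _ =>
      Finset.sum_nonneg fun _ _ => sq_nonneg _
  have hS : ∀ I : Finset (Fin J), ‖∑ t ∈ TT P J, ps2 M X₁ W φ I t‖ ≤
      (if I = ∅ then T * K * (2 * N₂) else 0) + T * K * R := by
    intro I
    by_cases hI : I = ∅
    · rw [if_pos hI]
      have hsw0 : ∀ t : Fin J → ℕ × ℕ, sw I t = t := by
        intro t
        funext j
        simp [sw, hI]
      have h1 : ‖∑ t ∈ TT P J, ps2 M X₁ W φ I t‖ ≤ (TT P J).card • (2 * K * N₂) := by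
        refine (norm_sum_le _ _).trans (Finset.sum_le_card_nsmul _ _ _ ?_)
        intro t ht
        apply triv M X₁ W φ I t _ (hrep t ht)
        rw [hsw0]
        exact hrep t ht
      rw [nsmul_eq_mul] at h1
      have h2 := mul_le_mul_of_nonneg_right hTl (show 0 ≤ 2 * K * N₂ by positivity)
      have h3 : 0 ≤ T * K * R := mul_nonneg (mul_nonneg hT0 hK0) hR0
      linarith
    · rw [if_neg hI, zero_add]
      exact off hTB hSWA hDEG hEFT hLSB hPAIR C Q J M X₁ H W B G P φ π τ act hgood hJ hQ hM hMp hH hπ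
        hτ hG hGH hHX hsupp hact hinact I (Finset.nonempty_iff_ne_empty.2 hI) hrep
  rw [hV2, hV]
  have hS2 : ‖∑ I : Finset (Fin J), ∑ t ∈ TT P J,
    ∑ x ∈ Ioc X₁ (2 * X₁), ∑ w ∈ Ioc 0 W, φ (M * x * yy t + w * zz t) *
      (starRingEnd ℂ) (φ (M * x * yy (sw I t) + w * zz (sw I t)))‖ ≤
      T * K * (2 * N₂) + 2 ^ J * (T * K * R) := by
    refine (norm_sum_le _ _).trans ((Finset.sum_le_sum fun I _ => hS I).trans (le_of_eq ?_))
    rw [Finset.sum_add_distrib, Finset.sum_ite_eq' Finset.univ (∅ : Finset (Fin J)),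
      if_pos (Finset.mem_univ _), Finset.sum_const, Finset.card_univ, Fintype.card_finset,
      Fintype.card_fin, nsmul_eq_mul]
    push_cast
    ring
  rw [norm_mul]
  have h2J : ‖(1 / 2 ^ J : ℂ)‖ = 1 / 2 ^ J := by
    rw [norm_div, norm_pow]
    simp
  rw [h2J]
  refine (mul_le_mul_of_nonneg_left hS2 (by positivity)).trans (le_of_eq ?_)
  have hfin : ∀ u T K N R : ℝ, 0 < u → 1 / u * (T * K * (2 * N) + u * (T * K * R)) =
      T * K * (2 / u * N + R) := by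
    intro u T K N R hu
    field_simp
  rw [hfin _ _ _ _ _ (by positivity), hR]
  ring

end

end MUR
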