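import Pool.Agent.MUR.StC

set_option autoImplicit false

/-! # Project MUR, module VSY -/

namespace MUR

open Finset
open Pool.Agent.Lib_helper83.EF (e)

noncomputable section

namespace VSY

def SS {J : ℕ} (M : ℕ) (φ : ℕ → ℂ) (t : Fin J → ℕ × ℕ) (x w : ℕ) : ℂ :=
  ∑ I : Finset (Fin J), ∑ I' : Finset (Fin J),
    φ (M * x * yy (sw I t) + w * zz (sw I t)) *
      (starRingEnd ℂ) (φ (M * x * yy (sw I' t) + w * zz (sw I' t)))

theorem sq_AA {J : ℕ} (M : ℕ) (φ : ℕ → ℂ) (t : Fin J → ℕ × ℕ) (x w : ℕ) :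
    ((‖AA M φ t x w‖ ^ 2 : ℝ) : ℂ) = (1 / 2 ^ J : ℂ) * ((1 / 2 ^ J : ℂ) * SS M φ t x w) := by
  have h : ((‖AA M φ t x w‖ ^ 2 : ℝ) : ℂ) = AA M φ t x w * (starRingEnd ℂ) (AA M φ t x w) := by
    rw [Complex.mul_conj']
    push_cast
    rfl
  rw [h]
  unfold AA SS
  rw [map_mul, map_sum]
  have hc : (starRingEnd ℂ) (1 / 2 ^ J : ℂ) = 1 / 2 ^ J := by
    rw [map_div₀, map_pow, map_ofNat, map_one]
  rw [hc, ← Finset.sum_mul_sum]
  ring

end VSY

theorem t_VSY : M_VSY := by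
  intro hswa M J X₁ W P φ
  obtain ⟨h1, h2, -, h4, -, -, -, -⟩ := hswa J P
  set F : (Fin J → ℕ × ℕ) → (Fin J → ℕ × ℕ) → ℂ := fun t t' =>
    ∑ x ∈ Ioc X₁ (2 * X₁), ∑ w ∈ Ioc 0 W, φ (M * x * yy t + w * zz t) *
      (starRingEnd ℂ) (φ (M * x * yy t' + w * zz t')) with hF
  have e1 : (VV M J P X₁ W φ : ℂ) = (1 / 2 ^ J : ℂ) * ((1 / 2 ^ J : ℂ) *
      ∑ I : Finset (Fin J), ∑ I' : Finset (Fin J), ∑ t ∈ TT P J, F (sw I t) (sw I' t)) := by
    have e2 : (VV M J P X₁ W φ : ℂ) = ∑ t ∈ TT P J, ∑ x ∈ Ioc X₁ (2 * X₁), ∑ w ∈ Ioc 0 W,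
        ((‖AA M φ t x w‖ ^ 2 : ℝ) : ℂ) := by
      unfold VV
      push_cast
      rfl
    rw [e2]
    simp_rw [VSY.sq_AA, ← Finset.mul_sum]
    congr 2
    have e3 : ∀ t ∈ TT P J, ∑ x ∈ Ioc X₁ (2 * X₁), ∑ w ∈ Ioc 0 W, VSY.SS M φ t x w =
        ∑ I : Finset (Fin J), ∑ I' : Finset (Fin J), F (sw I t) (sw I' t) := by
      intro t _
      unfold VSY.SS
      have e4 : ∀ x ∈ Ioc X₁ (2 * X₁), ∑ w ∈ Ioc 0 W,
          ∑ I : Finset (Fin J), ∑ I' : Finset (Fin J),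
          φ (M * x * yy (sw I t) + w * zz (sw I t)) *
            (starRingEnd ℂ) (φ (M * x * yy (sw I' t) + w * zz (sw I' t))) =
          ∑ I : Finset (Fin J), ∑ I' : Finset (Fin J), ∑ w ∈ Ioc 0 W,
          φ (M * x * yy (sw I t) + w * zz (sw I t)) *
            (starRingEnd ℂ) (φ (M * x * yy (sw I' t) + w * zz (sw I' t))) := by
        intro x _
        rw [Finset.sum_comm]
        refine Finset.sum_congr rfl fun I _ => ?_
        rw [Finset.sum_comm]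
      rw [Finset.sum_congr rfl e4, Finset.sum_comm]
      refine Finset.sum_congr rfl fun I _ => ?_
      rw [Finset.sum_comm]
    rw [Finset.sum_congr rfl e3, Finset.sum_comm]
    refine Finset.sum_congr rfl fun I _ => ?_
    rw [Finset.sum_comm]
  have e5 : ∀ I I' : Finset (Fin J), ∑ t ∈ TT P J, F (sw I t) (sw I' t) =
      ∑ t ∈ TT P J, F t (sw (symmDiff I' I) t) := by
    intro I I'
    refine Finset.sum_bij' (fun t _ => sw I t) (fun t _ => sw I t) (fun t ht => h4 I t ht)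
      (fun t ht => h4 I t ht) (fun t _ => h1 I t) (fun t _ => h1 I t) ?_
    intro t _
    rw [← h2, h1]
  have e6 : ∀ I : Finset (Fin J), ∑ I' : Finset (Fin J), ∑ t ∈ TT P J, F (sw I t) (sw I' t) =
      ∑ K : Finset (Fin J), ∑ t ∈ TT P J, F t (sw K t) := by
    intro I
    rw [Finset.sum_congr rfl fun I' _ => e5 I I']
    refine Finset.sum_bij' (fun I' _ => symmDiff I' I) (fun K _ => symmDiff K I)
      (fun _ _ => Finset.mem_univ _) (fun _ _ => Finset.mem_univ _) ?_ ?_ ?_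
    · intro I' _
      exact symmDiff_symmDiff_cancel_right I I'
    · intro I' _
      exact symmDiff_symmDiff_cancel_right I I'
    · intro I' _
      rfl
  rw [e1, Finset.sum_congr rfl fun I _ => e6 I, Finset.sum_const, Finset.card_univ,
    Fintype.card_finset, Fintype.card_fin, nsmul_eq_mul]
  have h2J : (2 : ℂ) ^ J ≠ 0 := pow_ne_zero _ two_ne_zero
  push_cast
  rw [← mul_assoc (1 / 2 ^ J : ℂ) (2 ^ J : ℂ), one_div_mul_cancel h2J, one_mul]

end

end MUR
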