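import Pool.Agent.MUR.St

set_option autoImplicit false

/-!
# MUR, module XC: the number of integers without small prime factors
-/

namespace MUR

open Finset
open Pool.Agent.Lib_helper83.EF (e)

noncomputable section

namespace XC

lemma smo_one : smo 1 1 = {1} := by
  ext q
  simp only [smo, Finset.mem_filter, Finset.mem_Icc, Finset.mem_singleton]
  constructor
  · rintro ⟨⟨h1, h2⟩, -⟩
    omega
  · rintro rfl
    simp

lemma cop_one : cop 1 = {0} := by
  ext a
  simp [cop]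

lemma trig_one : Trig 1 1 (fun _ => 1) := by
  refine ⟨fun _ _ => 1, fun w => ?_⟩
  rw [smo_one, Finset.sum_singleton, cop_one, Finset.sum_singleton]
  simp [e]

end XC

theorem t_XC : M_XC := by
  rintro ⟨C, hC, h⟩
  refine ⟨C * Real.log 2, by positivity, fun X₁ z₀ hz hX => ?_⟩
  have hS : XX X₁ z₀ ⊆ Ioc X₁ (X₁ + X₁) := by
    intro x hx
    have := (Finset.mem_filter.1 hx).1
    rw [Finset.mem_Ioc] at this ⊢
    omega
  have hcl : ∀ l : ℕ, l.Prime → 1 < l → l ≤ z₀ → ¬ l ∣ 1 →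
      ∀ w ∈ XX X₁ z₀, ¬ w ≡ (fun _ => 0 : ℕ → ℕ) l [MOD l] := by
    intro l hl _ hlz _ w hw hmod
    obtain ⟨hw1, _, hw3⟩ := Finset.mem_filter.1 hw
    have hd : l ∣ w := (Nat.modEq_zero_iff_dvd).1 hmod
    have hw0 : w ≠ 0 := by
      rw [Finset.mem_Ioc] at hw1
      omega
    have := hw3 l (Nat.mem_primeFactors.2 ⟨hl, hd, hw0⟩)
    omega
  have key := h 1 1 z₀ 1 X₁ X₁ (XX X₁ z₀) (fun _ => 0) (fun _ => 1) le_rfl le_rfl le_rfl hz
    (by rw [one_mul]; exact hX) hS hcl XC.trig_one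
  simp only [norm_one, one_pow, Finset.sum_const, nsmul_eq_mul, mul_one, Nat.card_Ioc,
    Nat.totient_one, Nat.cast_one, div_one, add_tsub_cancel_left] at key
  have e1 : ((1 : ℝ) + 1) = 2 := by norm_num
  rw [e1] at key
  calc ((XX X₁ z₀).card : ℝ) ≤ C * Real.log 2 / Real.log z₀ * X₁ := key
    _ = C * Real.log 2 * X₁ / Real.log z₀ := by ring

end

end MUR
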