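import Pool.Agent.MUR.StD

set_option autoImplicit false

/-!
# MUR, module XXC: the number of `x` in a configuration
-/

namespace MUR

open Finset

noncomputable section

theorem t_XXC : M_XXC := by
  rintro ⟨C, hC, h⟩ hCF C₁ hC₁
  refine ⟨C, hC, fun R₁ d => ?_⟩
  obtain ⟨X₀, h0⟩ := hCF C₁ hC₁ R₁ d 1
  refine ⟨X₀, fun X hX J Q X₁ H W P cfg => ?_⟩
  obtain ⟨-, hll, -, -, -, -, hM, -, -, -, -, -, -, -, -, -, -, -, hQ, -, hbig, -, hlo, -⟩ :=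
    h0 X hX J Q X₁ H W P cfg
  have hX1 : (1 : ℝ) ≤ X := by
    rcases Nat.eq_zero_or_pos X with hz | hz
    · subst hz
      simp at hll
      linarith
    · exact_mod_cast hz
  have h1 : (X : ℝ) ^ (d / 1000) ≤ (X : ℝ) ^ (1 - d) :=
    Real.rpow_le_rpow_of_exponent_le hX1 (by linarith [cfg.d0, cfg.d1])
  have h2 : (((16 * MM1 R₁ * Q ^ (2 * J) : ℕ) : ℝ)) ^ 10 ≤ 2 * X₁ :=
    hbig.trans (h1.trans cfg.X₁lo)
  have h3 : (16 * MM1 R₁ * Q ^ (2 * J)) ^ 10 ≤ 2 * X₁ := by exact_mod_cast h2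
  have hQ4 : 16 ^ 4 ≤ Q ^ 4 := Nat.pow_le_pow_left hQ 4
  have h4 : 16 * Q ^ 4 ≤ 16 * MM1 R₁ * Q ^ (2 * J) := by
    have h5 : Q ^ 4 ≤ Q ^ (2 * J) := Nat.pow_le_pow_right (by omega) (by have := cfg.J2; omega)
    calc 16 * Q ^ 4 = 16 * 1 * Q ^ 4 := by ring
      _ ≤ 16 * MM1 R₁ * Q ^ (2 * J) := Nat.mul_le_mul (Nat.mul_le_mul_left _ hM) h5
  generalize 16 * MM1 R₁ * Q ^ (2 * J) = a at h3 h4
  have h5 : 16 * (3 * Q) ^ 4 ≤ X₁ := by
    have h6 : a ^ 2 ≤ a ^ 10 := Nat.pow_le_pow_right (by omega) (by omega)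
    have h7 : (16 * Q ^ 4) * (16 * 16 ^ 4) ≤ a * a := Nat.mul_le_mul h4 (by omega)
    have h8 : a ^ 2 = a * a := sq a
    have h9 : (3 * Q) ^ 4 = 81 * Q ^ 4 := by ring
    rw [h9]
    omega
  have key := h X₁ (3 * Q) (by omega) h5
  have hl : Real.log (Real.log X) ≤ Real.log ((3 * Q : ℕ) : ℝ) := by
    push_cast
    linarith
  refine key.trans ?_
  exact div_le_div_of_nonneg_left (by positivity) (by linarith) hl

end

end MUR
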