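import Mathlib
import Pool.Agent.MUR.Asm
import Pool.Agent.MUR.GS
import Pool.Agent.MUR.MER
import Pool.Agent.MUR.MON
import Pool.Agent.MUR.TRG
import Pool.Agent.MUR.LSS
import Pool.Agent.MUR.LLB
import Pool.Agent.MUR.XC
import Pool.Agent.MUR.BOX
import Pool.Agent.MUR.DLS2
import Pool.Agent.MUR.LSV2
import Pool.Agent.MUR.T22
import Pool.Agent.MUR.TYB
import Pool.Agent.MUR.TYP2
import Pool.Agent.MUR.BVG
import Pool.Agent.MUR.PNT
import Pool.Agent.MUR.BR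
import Pool.Agent.MUR.PS
import Pool.Agent.MUR.SWA
import Pool.Agent.MUR.TB
import Pool.Agent.MUR.PI
import Pool.Agent.MUR.DEG
import Pool.Agent.MUR.SYM
import Pool.Agent.MUR.VSY
import Pool.Agent.MUR.EFT
import Pool.Agent.MUR.LSB
import Pool.Agent.MUR.PAIR
import Pool.Agent.MUR.VB
import Pool.Agent.MUR.E1
import Pool.Agent.MUR.E2
import Pool.Agent.MUR.E4
import Pool.Agent.MUR.EN
import Pool.Agent.MUR.CFG
import Pool.Agent.MUR.CF
import Pool.Agent.MUR.LLC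
import Pool.Agent.MUR.XXC
import Pool.Agent.MUR.TOT
import Pool.Agent.MUR.NEAR
import Pool.Agent.MUR.F2
import Pool.Agent.MUR.DIV
import Pool.Agent.MUR.SHP
import Pool.Agent.MUR.S1
import Pool.Agent.MUR.S2
import Pool.Agent.MUR.S3
import Pool.Agent.MUR.EXP
import Pool.Agent.MUR.DYA
import Pool.Agent.MUR.MT1
import Pool.Agent.MUR.MT2
import Pool.Agent.MUR.MT3
import Pool.Agent.MUR.MT4
import Pool.Agent.MUR.MTT
import Pool.Agent.MUR.ER2
import Pool.Agent.MUR.LBS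
import Pool.Agent.MUR.MT
import Pool.Agent.MUR.S4
import Pool.Agent.MUR.QP
import Pool.Agent.MUR.FIN
import Pool.Agent.MUR.DEN

set_option autoImplicit false

/-!
# Project MUR: the density theorem
-/

namespace MUR

theorem t_main : S_DEN :=
  assemble t_GS t_MER t_MON t_TRG t_LSS t_LLB t_XC t_BOX t_DLS2 t_LSV2 t_T22 t_TYB t_TYP2 t_BVG t_PNT
    t_BR t_PS t_SWA t_TB t_PI t_DEG t_SYM t_VSY t_EFT t_LSB t_PAIR t_VB t_E1 t_E2 t_E4 t_EN
    t_CFG t_CF t_LLC t_XXC t_TOT t_NEAR t_F2 t_DIV t_SHP t_S1 t_S2 t_S3 t_EXP t_DYA t_MT1 t_MT2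
    t_MT3 t_MT4 t_MTT t_ER2 t_LBS t_MT t_S4 t_QP t_FIN t_DEN

end MUR
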